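import Pool.Agent.Helper876_Robin.Inv
import Pool.Agent.Helper876_Robin.JBall

/-!
# The radial profile of the ball
-/

set_option autoImplicit false

open MeasureTheory Set Filter Topology intervalIntegral
open scoped NNReal

namespace Pool.Agent.Helper876.Rob

/-- The radial profile `p = u'/u` of the ball for the eigenvalue `-κ`. -/
structure Prof (n : ℕ) (κ : ℝ) (p : ℝ → ℝ) : Prop where
  zero : p 0 = 0
  cont : Continuous p
  deriv : ∀ r, 0 < r → HasDerivAt p (κ - p r ^ 2 - ((n : ℝ) - 1) / r * p r) r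
  pos : ∀ r, 0 < r → 0 < p r
  dpos : ∀ r, 0 < r → 0 < κ - p r ^ 2 - ((n : ℝ) - 1) / r * p r
  le : ∀ r, 0 < r → p r / r ≤ κ / n
  anti : ∀ r s, 0 < r → r ≤ s → p s / s ≤ p r / r
  top : Tendsto p atTop (𝓝 (Real.sqrt κ))

theorem prof_exists (n : ℕ) (hn : 2 ≤ n) : ∃ p₁ : ℝ → ℝ, Continuous p₁ ∧
    ∀ κ : ℝ, 0 < κ → Prof n κ (fun r => Real.sqrt κ * p₁ (Real.sqrt κ * r)) := by
  obtain ⟨p, h0, hc, hd, hpos, hle, hanti, -, htop⟩ := Pool.Agent.Helper876.JB.ball_profile n hn
  refine ⟨p, hc, fun κ hκ => ?_⟩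
  set k := Real.sqrt κ with hk
  have hk0 : 0 < k := Real.sqrt_pos.2 hκ
  have hkk : k * k = κ := Real.mul_self_sqrt hκ.le
  refine ⟨by simp [h0], by fun_prop, ?_, ?_, ?_, ?_, ?_, ?_⟩
  · intro r hr
    have h1 : HasDerivAt (fun r : ℝ => k * r) k r := by
      simpa using (hasDerivAt_id r).const_mul k
    have h2 := (hd (k * r) (by positivity)).comp r h1
    have h3 := h2.const_mul k
    refine h3.congr_deriv ?_
    field_simp
    rw [← hkk]
    ring
  · intro r hr
    exact mul_pos hk0 (hpos _ (by positivity)).1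
  · intro r hr
    have h1 := (hpos (k * r) (by positivity)).2.2
    have h2 : κ - (k * p (k * r)) ^ 2 - ((n : ℝ) - 1) / r * (k * p (k * r)) =
        k * k * (1 - p (k * r) ^ 2 - ((n : ℝ) - 1) / (k * r) * p (k * r)) := by
      rw [← hkk]
      field_simp
    rw [h2]
    positivity
  · intro r hr
    have h1 := hle (k * r) (by positivity)
    have h2 : k * p (k * r) / r = k * k * (p (k * r) / (k * r)) := by field_simp
    rw [h2, hkk]
    calc κ * (p (k * r) / (k * r)) ≤ κ * (1 / n) := mul_le_mul_of_nonneg_left h1 hκ.le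
      _ = κ / n := by ring
  · intro r s hr hrs
    have h1 := hanti (k * r) (k * s) (by positivity) (mul_le_mul_of_nonneg_left hrs hk0.le)
    have h2 : ∀ t : ℝ, 0 < t → k * p (k * t) / t = k * k * (p (k * t) / (k * t)) := by
      intro t ht
      field_simp
    rw [h2 r hr, h2 s (hr.trans_le hrs)]
    exact mul_le_mul_of_nonneg_left h1 (by positivity)
  · have h1 : Tendsto (fun r : ℝ => k * r) atTop atTop := tendsto_id.const_mul_atTop hk0
    have h2 := (htop.comp h1).const_mul k
    simpa using h2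

section

variable {n : ℕ} {κ : ℝ} {p : ℝ → ℝ}

/-- the derivative of the profile -/
noncomputable def dp (n : ℕ) (κ : ℝ) (p : ℝ → ℝ) (r : ℝ) : ℝ :=
  κ - p r ^ 2 - ((n : ℝ) - 1) / r * p r

theorem Prof.dp_le (hp : Prof n κ p) {r : ℝ} (hr : 0 < r) : dp n κ p r ≤ p r / r := by
  have h1 : HasDerivAt (fun s => p r / r * s - p s) (p r / r - dp n κ p r) r := by
    have h0 : HasDerivAt (fun s => p r / r * s) (p r / r) r := by
      simpa using (hasDerivAt_id r).const_mul (p r / r)
    exact h0.sub (hp.deriv r hr)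
  have h2 := h1.hasDerivWithinAt (s := Ioi r)
  rw [hasDerivWithinAt_iff_tendsto_slope' (by simp)] at h2
  have h3 : 0 ≤ p r / r - dp n κ p r := by
    apply ge_of_tendsto h2
    filter_upwards [self_mem_nhdsWithin] with s hs
    have hs' : r < s := hs
    rw [slope_def_field]
    apply div_nonneg _ (by linarith)
    have h4 := hp.anti r s hr hs'.le
    rw [div_le_iff₀ (hr.trans hs')] at h4
    have h5 : p r / r * r = p r := by field_simp
    linarith
  linarith

theorem Prof.mono (hp : Prof n κ p) : StrictMonoOn p (Ici 0) := by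
  apply strictMonoOn_of_deriv_pos (convex_Ici 0) hp.cont.continuousOn
  intro r hr
  rw [interior_Ici] at hr
  rw [(hp.deriv r hr).deriv]
  exact hp.dpos r hr

theorem Prof.lt_sqrt (hp : Prof n κ p) {r : ℝ} (hr : 0 ≤ r) : p r < Real.sqrt κ := by
  have h1 : p r < p (r + 1) := hp.mono hr (by simpa using by linarith) (by linarith)
  have h2 : p (r + 1) ≤ Real.sqrt κ := by
    apply ge_of_tendsto hp.top
    filter_upwards [eventually_ge_atTop (r + 1)] with x hx
    exact hp.mono.monotoneOn (by simpa using by linarith) (by simpa using by linarith) hx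
  linarith

theorem Prof.sq_lt (hp : Prof n κ p) (hκ : 0 < κ) {r : ℝ} (hr : 0 ≤ r) : p r ^ 2 < κ := by
  have h0 : 0 ≤ p r := by
    rcases hr.eq_or_lt with h | h
    · rw [← h, hp.zero]
    · exact (hp.pos r h).le
  have h1 := hp.lt_sqrt hr
  calc p r ^ 2 < Real.sqrt κ ^ 2 := by
        apply pow_lt_pow_left₀ h1 h0 (by norm_num)
    _ = κ := Real.sq_sqrt hκ.le

/-- the coefficient of the linear equation of the calibration -/
noncomputable def gg (n : ℕ) (κ : ℝ) (p : ℝ → ℝ) (r : ℝ) : ℝ :=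
  if 0 < r then (p r / r - dp n κ p r) / (p r * dp n κ p r) else 0

theorem Prof.gg_nonneg (hp : Prof n κ p) (r : ℝ) : 0 ≤ gg n κ p r := by
  unfold gg
  split_ifs with hr
  · have h1 := hp.dp_le hr
    have h2 := hp.pos r hr
    have h3 : 0 < dp n κ p r := hp.dpos r hr
    apply div_nonneg (by linarith) (by positivity)
  · exact le_rfl

theorem dp_eq {r : ℝ} : p r / r - dp n κ p r = p r ^ 2 - (κ - n * (p r / r)) := by
  unfold dp
  ring

theorem Prof.gg_le (hp : Prof n κ p) (hn : 2 ≤ n) {r : ℝ} (hr : 0 < r) :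
    gg n κ p r ≤ p r / dp n κ p r := by
  have h2 := hp.pos r hr
  have h3 : 0 < dp n κ p r := hp.dpos r hr
  unfold gg
  rw [if_pos hr, dp_eq, div_le_div_iff₀ (by positivity) h3]
  have h4 := hp.le r hr
  have hn0 : (0:ℝ) < n := by positivity
  have h5 : n * (p r / r) ≤ κ := by
    rw [le_div_iff₀ hn0] at h4
    linarith
  nlinarith [mul_pos h2 h3]

/-- Bernoulli -/
theorem bern (m : ℕ) {b : ℝ} (hb : 0 ≤ b) : ((m : ℝ) + 1) * b ^ m - m * b ^ (m + 1) ≤ 1 := by
  rcases hb.eq_or_lt with h | h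
  · rw [← h]
    rcases Nat.eq_zero_or_pos m with h1 | h1
    · subst h1; simp
    · rw [zero_pow h1.ne', zero_pow (by omega)]
      simp
  · have h1 := one_add_mul_sub_le_pow (a := b⁻¹) (n := m + 1) (by
      have : 0 < b⁻¹ := by positivity
      linarith)
    push_cast at h1
    have h2 := mul_le_mul_of_nonneg_right h1 (pow_nonneg hb (m + 1))
    rw [← mul_pow, inv_mul_cancel₀ h.ne', one_pow] at h2
    have h3 : (1 + ((m : ℝ) + 1) * (b⁻¹ - 1)) * b ^ (m + 1) =
        ((m : ℝ) + 1) * b ^ m - m * b ^ (m + 1) := by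
      rw [pow_succ]
      field_simp
      ring
    linarith

/-- The tangent inequality. -/
theorem tangent {m : ℕ} (hm : 1 ≤ m) {μr μt h x : ℝ} (hr : 0 < μr) (hrt : μr ≤ μt) (hh : 0 ≤ h)
    (hx : 0 ≤ x) (ht : h + m * x ≤ μr + m * μt) :
    h * x ^ m ≤ μr ^ 2 * μt ^ (m - 1) * (1 + (μt - μr) / μr ^ 2 * h) := by
  have ht0 : 0 < μt := hr.trans_le hrt
  set a := h / μr with ha
  set b := x / μt with hb
  set e := μr / μt with he
  have ha0 : 0 ≤ a := by positivity
  have hb0 : 0 ≤ b := by positivity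
  have he0 : 0 < e := by positivity
  have he1 : e ≤ 1 := by rw [he, div_le_one ht0]; exact hrt
  have hha : h = a * μr := by rw [ha]; field_simp
  have hxb : x = b * μt := by rw [hb]; field_simp
  have hre : μr = e * μt := by rw [he]; field_simp
  have h1 : e * (a - 1) ≤ m * (1 - b) := by
    have : e * (a - 1) * μt ≤ m * (1 - b) * μt := by
      rw [hha, hxb] at ht
      calc e * (a - 1) * μt = a * μr - μr := by rw [hre]; ring
        _ ≤ m * (1 - b) * μt := by linarith
    exact le_of_mul_le_mul_right this ht0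
  set D := 1 + e * (a - 1) with hD
  have hD0 : 0 ≤ D := by nlinarith
  have h2 : D * b ^ m ≤ 1 := by
    have h3 : D ≤ (m : ℝ) + 1 - m * b := by rw [hD]; linarith
    calc D * b ^ m ≤ ((m : ℝ) + 1 - m * b) * b ^ m :=
          mul_le_mul_of_nonneg_right h3 (by positivity)
      _ = ((m : ℝ) + 1) * b ^ m - m * b ^ (m + 1) := by ring
      _ ≤ 1 := bern m hb0
  have h4 : a * b ^ m ≤ 1 + (1 - e) * (a - 1) := by
    rcases hD0.eq_or_lt with h5 | h5
    · have h6 : a = 0 ∧ e = 1 := by
        have h7 : 1 - e + e * a = 0 := by rw [hD] at h5; linarith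
        have h8 : 0 ≤ e * a := by positivity
        have h9 : e = 1 := by linarith
        refine ⟨?_, h9⟩
        rw [h9] at h7
        linarith
      rw [h6.1, h6.2]
      simp
    · have h6 : a ≤ D * (1 + (1 - e) * (a - 1)) := by
        have : D * (1 + (1 - e) * (a - 1)) - a = e * (1 - e) * (a - 1) ^ 2 := by
          rw [hD]; ring
        have h7 : 0 ≤ e * (1 - e) * (a - 1) ^ 2 := by
          have : 0 ≤ 1 - e := by linarith
          positivity
        linarith
      have h7 : 0 ≤ 1 + (1 - e) * (a - 1) := by nlinarith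
      calc a * b ^ m ≤ D * (1 + (1 - e) * (a - 1)) * b ^ m :=
            mul_le_mul_of_nonneg_right h6 (by positivity)
        _ = (1 + (1 - e) * (a - 1)) * (D * b ^ m) := by ring
        _ ≤ (1 + (1 - e) * (a - 1)) * 1 := mul_le_mul_of_nonneg_left h2 h7
        _ = _ := mul_one _
  have h5 : h * x ^ m = (μr * μt ^ m) * (a * b ^ m) := by
    rw [hha, hxb, mul_pow]; ring
  have h6 : μr ^ 2 * μt ^ (m - 1) * (1 + (μt - μr) / μr ^ 2 * h) =
      (μr * μt ^ m) * (1 + (1 - e) * (a - 1)) := by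
    obtain ⟨k, rfl⟩ : ∃ k, m = k + 1 := ⟨m - 1, by omega⟩
    rw [hha, he, Nat.add_sub_cancel, pow_succ]
    field_simp
    ring
  rw [h5, h6]
  exact mul_le_mul_of_nonneg_left h4 (by positivity)


theorem Prof.nonneg (hp : Prof n κ p) {r : ℝ} (hr : 0 ≤ r) : 0 ≤ p r := by
  rcases hr.eq_or_lt with h | h
  · rw [← h, hp.zero]
  · exact (hp.pos r h).le

theorem Prof.le' (hp : Prof n κ p) (hn : 2 ≤ n) {r : ℝ} (hr : 0 < r) : n * p r ≤ κ * r := by
  have h4 := hp.le r hr
  have hn0 : (0:ℝ) < n := by positivity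
  rw [div_le_div_iff₀ hr hn0] at h4
  linarith

theorem Prof.dp_ge (hp : Prof n κ p) (hn : 2 ≤ n) {r : ℝ} (hr : 0 < r) :
    κ / n - p r ^ 2 ≤ dp n κ p r := by
  have h4 := hp.le r hr
  have hn0 : (2:ℝ) ≤ n := by exact_mod_cast hn
  have h5 : ((n : ℝ) - 1) * (p r / r) ≤ ((n : ℝ) - 1) * (κ / n) :=
    mul_le_mul_of_nonneg_left h4 (by linarith)
  have h6 : ((n : ℝ) - 1) * (κ / n) = κ - κ / n := by field_simp
  have h7 : ((n : ℝ) - 1) / r * p r = ((n : ℝ) - 1) * (p r / r) := by ring
  unfold dp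
  rw [h7]
  linarith

theorem Prof.gap (hp : Prof n κ p) (hn : 2 ≤ n) {r : ℝ} (hr : 0 < r) :
    p r / r - dp n κ p r ≤ 2 * p r ^ 2 / (n + 2) := by
  have hn0 : (2:ℝ) ≤ n := by exact_mod_cast hn
  set c := p r / r with hc
  obtain ⟨m, rfl⟩ : ∃ m, n = m + 2 := ⟨n - 2, by omega⟩
  set Φ : ℝ → ℝ := fun t => κ * t ^ (m + 2) / ((m : ℝ) + 2) - t ^ (m + 1) * p t -
    t ^ (m + 4) * c ^ 2 / ((m : ℝ) + 4) with hΦ
  have hm0 : (0 : ℝ) ≤ m := by positivity
  have hd : ∀ t, 0 < t → HasDerivAt Φ (t ^ (m + 3) * ((p t / t) ^ 2 - c ^ 2)) t := by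
    intro t ht
    have h1 : HasDerivAt (fun t : ℝ => κ * t ^ (m + 2) / ((m : ℝ) + 2)) (κ * t ^ (m + 1)) t := by
      have := (((hasDerivAt_id t).pow (m + 2)).const_mul κ).div_const ((m : ℝ) + 2)
      refine this.congr_deriv ?_
      simp only [id]
      push_cast
      field_simp
    have h2 : HasDerivAt (fun t : ℝ => t ^ (m + 4) * c ^ 2 / ((m : ℝ) + 4))
        (t ^ (m + 3) * c ^ 2) t := by
      have := (((hasDerivAt_id t).pow (m + 4)).mul_const (c ^ 2)).div_const ((m : ℝ) + 4)
      refine this.congr_deriv ?_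
      simp only [id]
      push_cast
      field_simp
    have h3 : HasDerivAt (fun t : ℝ => t ^ (m + 1)) (((m : ℝ) + 1) * t ^ m) t := by
      have := (hasDerivAt_id t).pow (m + 1)
      refine this.congr_deriv ?_
      simp only [id, Nat.add_sub_cancel]
      push_cast
      ring
    have h4 := (h1.fun_sub (h3.fun_mul (hp.deriv t ht))).fun_sub h2
    refine h4.congr_deriv ?_
    push_cast
    field_simp
    ring
  have hcont : ContinuousOn Φ (Icc 0 r) := by
    have := hp.cont
    apply Continuous.continuousOn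
    rw [hΦ]
    fun_prop
  have hmono : MonotoneOn Φ (Icc 0 r) := by
    apply monotoneOn_of_deriv_nonneg (convex_Icc 0 r) hcont
    · intro t ht
      rw [interior_Icc] at ht
      exact (hd t ht.1).differentiableAt.differentiableWithinAt
    · intro t ht
      rw [interior_Icc] at ht
      rw [(hd t ht.1).deriv]
      have h1 := hp.anti t r ht.1 ht.2.le
      have h2 : 0 ≤ c := div_nonneg (hp.nonneg hr.le) hr.le
      have h3 : c ^ 2 ≤ (p t / t) ^ 2 := pow_le_pow_left₀ h2 h1 2
      have ht0 := ht.1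
      apply mul_nonneg (by positivity)
      linarith
  have h := hmono (left_mem_Icc.2 hr.le) (right_mem_Icc.2 hr.le) hr.le
  have h0 : Φ 0 = 0 := by simp [hΦ]
  rw [h0] at h
  have hpr : p r = c * r := by rw [hc]; field_simp
  have h1 : Φ r = r ^ (m + 2) * (κ / ((m : ℝ) + 2) - c - r ^ 2 * c ^ 2 / ((m : ℝ) + 4)) := by
    rw [hΦ]
    simp only
    rw [hpr]
    ring
  rw [h1] at h
  have h2 : 0 ≤ κ / ((m : ℝ) + 2) - c - r ^ 2 * c ^ 2 / ((m : ℝ) + 4) := by
    by_contra hcon
    push Not at hcon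
    have : r ^ (m + 2) * (κ / ((m : ℝ) + 2) - c - r ^ 2 * c ^ 2 / ((m : ℝ) + 4)) < 0 :=
      mul_neg_of_pos_of_neg (by positivity) hcon
    linarith
  have h3 : c - dp (m + 2) κ p r = p r ^ 2 - (κ - ((m + 2 : ℕ) : ℝ) * c) := by
    rw [hc]
    exact dp_eq
  rw [h3, hpr]
  push_cast
  have h4 : κ / ((m : ℝ) + 2) - c = (κ - ((m : ℝ) + 2) * c) / ((m : ℝ) + 2) := by field_simp
  rw [h4] at h2
  have h5 : r ^ 2 * c ^ 2 / ((m : ℝ) + 4) ≤ (κ - ((m : ℝ) + 2) * c) / ((m : ℝ) + 2) := by linarith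
  rw [div_le_div_iff₀ (by positivity) (by positivity)] at h5
  rw [le_div_iff₀ (by positivity)]
  nlinarith

theorem Prof.gg_cont (hp : Prof n κ p) (hn : 2 ≤ n) (hκ : 0 < κ) : Continuous (gg n κ p) := by
  have hn0 : (2:ℝ) ≤ n := by exact_mod_cast hn
  rw [continuous_iff_continuousAt]
  intro r
  rcases lt_trichotomy r 0 with h | h | h
  · apply (continuousAt_const (y := (0:ℝ))).congr
    filter_upwards [Iio_mem_nhds h] with x hx
    have hx' : x < 0 := hx
    simp [gg, not_lt.2 hx'.le]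
  · subst h
    have h1 : gg n κ p 0 = 0 := by simp [gg]
    rw [ContinuousAt, h1]
    have h2 : Tendsto (fun x => |p x| * (2 * n / κ)) (𝓝 0) (𝓝 0) := by
      have : Continuous (fun x => |p x| * (2 * n / κ)) := by
        have := hp.cont
        fun_prop
      have h3 := this.tendsto 0
      simpa [hp.zero] using h3
    have h4 : ∀ᶠ x in 𝓝 (0:ℝ), p x ^ 2 < κ / (2 * n) := by
      have : Continuous (fun x => p x ^ 2) := by
        have := hp.cont
        fun_prop
      apply this.continuousAt.eventually_lt continuousAt_const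
      show p 0 ^ 2 < κ / (2 * n)
      rw [hp.zero, zero_pow two_ne_zero]
      positivity
    apply squeeze_zero' (Eventually.of_forall fun x => hp.gg_nonneg x) _ h2
    filter_upwards [h4] with x hx
    by_cases hx0 : 0 < x
    · have h5 := hp.gg_le hn hx0
      have h6 := hp.dp_ge hn hx0
      have h7 : κ / (2 * n) ≤ dp n κ p x := by
        have : κ / n = κ / (2 * n) + κ / (2 * n) := by field_simp; ring
        linarith
      have h8 : p x / dp n κ p x ≤ p x / (κ / (2 * n)) :=
        div_le_div_of_nonneg_left (hp.nonneg hx0.le) (by positivity) h7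
      rw [abs_of_nonneg (hp.nonneg hx0.le)]
      calc gg n κ p x ≤ p x / (κ / (2 * n)) := h5.trans h8
        _ = p x * (2 * n / κ) := by field_simp
    · rw [show gg n κ p x = 0 by simp [gg, hx0]]
      show (0:ℝ) ≤ |p x| * (2 * n / κ)
      positivity
  · have h1 : ContinuousAt (fun r => (p r / r - dp n κ p r) / (p r * dp n κ p r)) r := by
      have hc := hp.cont.continuousAt (x := r)
      have hd : ContinuousAt (dp n κ p) r := by
        unfold dp
        apply ContinuousAt.sub
        · exact continuousAt_const.sub (hc.pow 2)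
        · exact (continuousAt_const.div continuousAt_id h.ne').mul hc
      apply ContinuousAt.div
      · exact (hc.div continuousAt_id h.ne').sub hd
      · exact hc.mul hd
      · exact (mul_pos (hp.pos r h) (hp.dpos r h)).ne'
    apply h1.congr
    filter_upwards [Ioi_mem_nhds h] with x hx
    have hx' : 0 < x := hx
    simp [gg, hx']


end

end Pool.Agent.Helper876.Rob
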