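import Pool.Agent.Helper876_Robin.Cert2

/-!
# The calibration of the ball, without restriction on the radius
-/

set_option autoImplicit false

open MeasureTheory Set Filter Topology intervalIntegral
open scoped NNReal

namespace Pool.Agent.Helper876.Rob

section

variable {n : ℕ} {κ : ℝ} {p : ℝ → ℝ}

set_option maxHeartbeats 4000000 in
/-- The calibration, for every radius. -/
theorem cert3 (hn : 2 ≤ n) (hκ : 0 < κ) (hp : Prof n κ p) {R : ℝ} (hR : 0 < R) :
    ∃ Y Y' j : ℝ → ℝ, ∃ M : ℝ, 0 ≤ M ∧ Y 0 = 0 ∧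
      (∀ s ∈ Icc 0 (p R), 0 ≤ Y s ∧ Y s ≤ Y (p R)) ∧
      Y (p R) * p R = p R / κ - R / ((n : ℝ) - 1) * (1 - TT n κ p R / κ) ∧
      (∀ s ∈ Icc 0 (p R), ∀ t ∈ Icc 0 (p R), |Y s - Y t| ≤ M * |s - t|) ∧
      (∀ s ∈ Ioc 0 (p R), HasDerivAt Y (Y' s) s ∧ 0 ≤ Y' s ∧ Y' s ≤ M) ∧
      (∀ s, 0 ≤ j s) ∧ Measurable j ∧ (∀ s, s ∉ Ioo 0 (p R) → j s = 0) ∧
      (∀ s ∈ Ioo 0 (p R), ∀ h x, 0 ≤ h → 0 ≤ x → h + ((n : ℝ) - 1) * x ≤ κ - s ^ 2 →
        j s * (h * x ^ (n - 1)) ≤
          1 - (κ - s ^ 2) / κ + Y s * (h + ((n : ℝ) - 1) * x) + s * Y' s * h) ∧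
      IntegrableOn (fun s => s ^ (n - 1) * j s) (Ioi 0) ∧
      ∫ s in Ioi 0, s ^ (n - 1) * j s =
        R ^ n / n - R ^ n / ((n : ℝ) - 1) * (1 - TT n κ p R / κ) := by
  have hn0 : (2:ℝ) ≤ n := by exact_mod_cast hn
  have hn1 : 0 < ((n : ℝ) - 1) := by linarith
  have hA : 0 < p R := hp.pos R hR
  -- the inverse function
  obtain ⟨ρ, hρ0, hρ, hρc, hρinv, hlt⟩ := exists_inv (p := p)
    (p' := fun r => dp n κ p r) hp.zero hp.cont hp.deriv hp.dpos hp.top
  have hRL : p R < Real.sqrt κ := hlt R hR.le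
  have hρmem : ∀ s ∈ Ioc 0 (p R), 0 < ρ s ∧ ρ s ≤ R ∧ p (ρ s) = s ∧
      HasDerivAt ρ (dp n κ p (ρ s))⁻¹ s := by
    intro s hs
    obtain ⟨h1, h2, h3⟩ := hρ s ⟨hs.1, hs.2.trans_lt hRL⟩
    refine ⟨h1, ?_, h2, h3⟩
    by_contra hcon
    push Not at hcon
    have := hp.mono (a := R) (b := ρ s) hR.le h1.le hcon
    rw [h2] at this
    linarith [hs.2]
  have hρR : ρ (p R) = R := hρinv R hR.le
  have hρIcc : ∀ s ∈ Icc 0 (p R), ρ s ∈ Icc 0 R := by
    intro s hs
    rcases hs.1.eq_or_lt with h | h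
    · rw [← h, hρ0]; exact left_mem_Icc.2 hR.le
    · obtain ⟨h1, h2, -, -⟩ := hρmem s ⟨h, hs.2⟩
      exact ⟨h1.le, h2⟩
  have hρcont : ContinuousOn ρ (Icc 0 (p R)) :=
    hρc.mono fun s hs => ⟨hs.1, hs.2.trans_lt hRL⟩
  -- bounds
  set F : ℝ → ℝ := fun r => 1 + (yy n κ p r - 1 / κ) * (κ - p r ^ 2) with hF
  have hyR0 : 0 ≤ yy n κ p R := hp.yy_nonneg hn hκ hR.le
  set FB : ℝ := 1 + yy n κ p R * κ with hFB
  have hFB0 : 0 ≤ FB := by rw [hFB]; positivity
  have hyle : ∀ r ∈ Icc 0 R, yy n κ p r ≤ yy n κ p R := fun r hr =>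
    hp.yy_mono hn hκ hr.1 hR.le hr.2
  have hF0 : ∀ r ∈ Ioc 0 R, 0 ≤ F r := fun r hr => hp.yy_dens_nonneg hn hκ hr.1
  have hF1 : ∀ r ∈ Ioc 0 R, F r ≤ FB := by
    intro r hr
    have h1 := hyle r ⟨hr.1.le, hr.2⟩
    have h2 := hp.sq_lt hκ hr.1.le
    have h4 : 0 ≤ 1 / κ := by positivity
    have h3 : (yy n κ p r - 1 / κ) * (κ - p r ^ 2) ≤ yy n κ p R * κ := by
      calc (yy n κ p r - 1 / κ) * (κ - p r ^ 2) ≤ yy n κ p R * (κ - p r ^ 2) :=
            mul_le_mul_of_nonneg_right (by linarith) (by linarith)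
        _ ≤ yy n κ p R * κ :=
            mul_le_mul_of_nonneg_left (by nlinarith [sq_nonneg (p r)]) hyR0
    rw [hF, hFB]
    simp only
    linarith
  set c := κ / (n * sqEig p R) with hc
  have hU := sqEig_pos (p := p) R
  have hc0 : 0 < c := by rw [hc]; positivity
  have hdc : ∀ r ∈ Ioc 0 R, c ≤ dp n κ p r := by
    intro r hr
    have h1 := hp.TT_ge hn hr.1
    have h2 := hp.sqEig_mono (a := r) (b := R) hr.1.le hR.le hr.2
    have h3 : 0 < dp n κ p r := hp.dpos r hr.1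
    have h4 : TT n κ p r ≤ dp n κ p r * sqEig p R := mul_le_mul_of_nonneg_left h2 h3.le
    rw [hc, div_le_iff₀ (by positivity)]
    rw [div_le_iff₀ (by positivity)] at h1
    nlinarith
  have hgc : ∀ r ∈ Ioc 0 R, gg n κ p r ≤ p R / c := by
    intro r hr
    have h1 := hp.gg_le hn hr.1
    have h2 := hdc r hr
    have h3 : p r ≤ p R := hp.mono.monotoneOn (by simpa using hr.1.le) (by simpa using hR.le) hr.2
    exact h1.trans (div_le_div₀ hA.le h3 hc0 h2)
  set M := FB * (p R / c) / c with hM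
  have hM0 : 0 ≤ M := by rw [hM]; positivity
  set Y : ℝ → ℝ := fun s => yy n κ p (ρ s) with hY
  set Y' : ℝ → ℝ := fun s => gg n κ p (ρ s) * F (ρ s) / dp n κ p (ρ s) with hY'
  have hYd : ∀ s ∈ Ioc 0 (p R), HasDerivAt Y (Y' s) s := by
    intro s hs
    obtain ⟨h1, h2, h3, h4⟩ := hρmem s hs
    have h5 := (hp.yy_deriv hn hκ h1).comp s h4
    refine h5.congr_deriv ?_
    rw [hY', hF]
    simp only
    rw [div_eq_mul_inv _ (dp n κ p (ρ s))]
  have hY'0 : ∀ s ∈ Ioc 0 (p R), 0 ≤ Y' s ∧ Y' s ≤ M := by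
    intro s hs
    obtain ⟨h1, h2, h3, h4⟩ := hρmem s hs
    have h5 := hF0 (ρ s) ⟨h1, h2⟩
    have h6 := hF1 (ρ s) ⟨h1, h2⟩
    have h7 := hp.gg_nonneg (ρ s)
    have h8 : 0 < dp n κ p (ρ s) := hp.dpos _ h1
    have h9 := hgc (ρ s) ⟨h1, h2⟩
    have h10 := hdc (ρ s) ⟨h1, h2⟩
    constructor
    · exact div_nonneg (mul_nonneg h7 h5) h8.le
    · have h11 : gg n κ p (ρ s) * F (ρ s) ≤ FB * (p R / c) := by
        calc gg n κ p (ρ s) * F (ρ s) ≤ gg n κ p (ρ s) * FB := mul_le_mul_of_nonneg_left h6 h7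
          _ = FB * gg n κ p (ρ s) := mul_comm _ _
          _ ≤ FB * (p R / c) := mul_le_mul_of_nonneg_left h9 hFB0
      exact div_le_div₀ (by positivity) h11 hc0 h10
  have hYcont : ContinuousOn Y (Icc 0 (p R)) :=
    (hp.yy_cont hn hκ).comp hρcont fun s hs => (hρIcc s hs).1
  set j₀ : ℝ → ℝ := fun s => F (ρ s) / (dp n κ p (ρ s) ^ 2 * (s / ρ s) ^ (n - 2)) with hj₀
  set j : ℝ → ℝ := (Ioo 0 (p R)).indicator j₀ with hj
  have hIoo : ∀ s ∈ Ioo 0 (p R), s ∈ Ioc 0 (p R) := fun s hs => ⟨hs.1, hs.2.le⟩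
  have hj₀c : ContinuousOn j₀ (Ioo 0 (p R)) := by
    have h1 : ContinuousOn ρ (Ioo 0 (p R)) := hρcont.mono Ioo_subset_Icc_self
    have h2 : ContinuousOn (fun s => dp n κ p (ρ s)) (Ioo 0 (p R)) := by
      unfold dp
      apply ContinuousOn.sub
      · exact continuousOn_const.sub ((hp.cont.comp_continuousOn h1).pow 2)
      · apply ContinuousOn.mul
        · exact continuousOn_const.div h1 fun s hs => (hρmem s (hIoo s hs)).1.ne'
        · exact hp.cont.comp_continuousOn h1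
    have h3 : ContinuousOn (fun s => F (ρ s)) (Ioo 0 (p R)) := by
      rw [hF]
      apply ContinuousOn.add continuousOn_const
      apply ContinuousOn.mul
      · exact (hYcont.mono Ioo_subset_Icc_self).sub continuousOn_const
      · exact continuousOn_const.sub ((hp.cont.comp_continuousOn h1).pow 2)
    apply h3.div
    · apply ContinuousOn.mul (h2.pow 2)
      exact (continuousOn_id.div h1 fun s hs => (hρmem s (hIoo s hs)).1.ne').pow _
    · intro s hs
      obtain ⟨g1, g2, g3, g4⟩ := hρmem s (hIoo s hs)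
      have g5 : 0 < dp n κ p (ρ s) := hp.dpos _ g1
      have g6 := hs.1
      positivity
  have hjmeas : Measurable j := by
    rw [hj, ← Set.piecewise_eq_indicator]
    exact hj₀c.measurable_piecewise continuousOn_const measurableSet_Ioo
  have hj0 : ∀ s, 0 ≤ j s := by
    intro s
    apply Set.indicator_nonneg
    intro s hs
    obtain ⟨g1, g2, g3, g4⟩ := hρmem s (hIoo s hs)
    have g5 : 0 < dp n κ p (ρ s) := hp.dpos _ g1
    have g6 := hs.1
    have g7 := hF0 (ρ s) ⟨g1, g2⟩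
    rw [hj₀]
    simp only
    apply div_nonneg g7 (by positivity)
  -- antiderivative
  set G : ℝ → ℝ := fun s => ρ s ^ n / n + (Y s - 1 / κ) * ρ s ^ (n - 1) * s with hG
  have hGd : ∀ s ∈ Ioo 0 (p R), HasDerivAt G (s ^ (n - 1) * j s) s := by
    intro s hs
    obtain ⟨g1, g2, g3, g4⟩ := hρmem s (hIoo s hs)
    have g5 : 0 < dp n κ p (ρ s) := hp.dpos _ g1
    have g6 := hs.1
    have h1 : j s = j₀ s := by rw [hj]; exact Set.indicator_of_mem hs _
    have h2 := (g4.fun_pow n).div_const (n : ℝ)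
    have h3 := (((hYd s (hIoo s hs)).sub_const (1 / κ)).fun_mul (g4.fun_pow (n - 1))).fun_mul
      (hasDerivAt_id s)
    have h4 := h2.fun_add h3
    refine h4.congr_deriv ?_
    rw [h1, hj₀, hY', hY]
    simp only [id]
    obtain ⟨m, rfl⟩ : ∃ m, n = m + 2 := ⟨n - 2, by omega⟩
    have e1 : m + 2 - 1 = m + 1 := by omega
    have e2 : m + 2 - 2 = m := by omega
    have e3 : m + 2 - 1 - 1 = m := by omega
    rw [e3, e1, e2]
    have e4 : gg (m + 2) κ p (ρ s) = (s / ρ s - dp (m + 2) κ p (ρ s)) / (s * dp (m + 2) κ p (ρ s)) := by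
      unfold gg
      rw [if_pos g1, g3]
    have e5 : ((m : ℝ) + 1) * s / ρ s = κ - s ^ 2 - dp (m + 2) κ p (ρ s) := by
      unfold dp
      rw [g3]
      push_cast
      ring
    rw [e4, hF]
    simp only
    rw [g3]
    set D := dp (m + 2) κ p (ρ s) with hD
    set r := ρ s with hr
    set b := yy (m + 2) κ p r - 1 / κ with hb
    have e6 : κ - s ^ 2 = ((m : ℝ) + 1) * s / r + D := by linarith
    rw [e6, div_pow]
    push_cast
    field_simp
    ring
  have hGcont : ContinuousOn G (Icc 0 (p R)) := by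
    rw [hG]
    apply ContinuousOn.add
    · exact (hρcont.pow n).div_const _
    · exact ((hYcont.sub continuousOn_const).mul (hρcont.pow (n - 1))).mul continuousOn_id
  have hGint : IntegrableOn (fun s => s ^ (n - 1) * j s) (Ioc 0 (p R)) :=
    intervalIntegral.integrableOn_deriv_of_nonneg hGcont hGd fun s hs =>
      mul_nonneg (pow_nonneg hs.1.le _) (hj0 s)
  have hzero : ∀ s ∈ Ioi (0:ℝ) \ Ioc 0 (p R), s ^ (n - 1) * j s = 0 := by
    intro s hs
    have h1 : s ∉ Ioo 0 (p R) := fun h => hs.2 ⟨h.1, h.2.le⟩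
    rw [hj, Set.indicator_of_notMem h1, mul_zero]
  have hY00 : Y 0 = 0 := by rw [hY]; simp only; rw [hρ0, yy_zero]
  have hYR : Y (p R) = yy n κ p R := by rw [hY]; simp only; rw [hρR]
  have hYR2 : yy n κ p R * p R = p R / κ - R / ((n : ℝ) - 1) * (1 - TT n κ p R / κ) := by
    unfold yy
    rw [if_pos hR]
    have := hA.ne'
    field_simp
  refine ⟨Y, Y', j, M, hM0, hY00, ?_, ?_, ?_, ?_, hj0, hjmeas, ?_, ?_, ?_, ?_⟩
  · intro s hs
    refine ⟨hp.yy_nonneg hn hκ (hρIcc s hs).1, ?_⟩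
    rw [hYR]
    exact hyle _ (hρIcc s hs)
  · rw [hYR]
    exact hYR2
  · have hlip : ∀ s ∈ Icc 0 (p R), ∀ t ∈ Icc 0 (p R), s ≤ t → |Y s - Y t| ≤ M * |s - t| := by
      intro s hs t ht hst
      rcases hst.eq_or_lt with h | h
      · rw [h]; simp
      · obtain ⟨c, hc, hc'⟩ := exists_hasDerivAt_eq_slope Y Y' h
          (hYcont.mono (Icc_subset_Icc hs.1 ht.2))
          (fun x hx => hYd x ⟨hs.1.trans_lt hx.1, (hx.2.trans_le ht.2).le⟩)
        have h1 := hY'0 c ⟨hs.1.trans_lt hc.1, (hc.2.trans_le ht.2).le⟩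
        rw [hc'] at h1
        have h2 : 0 < t - s := by linarith
        have h3 := h1.2
        rw [div_le_iff₀ h2] at h3
        have h4 := h1.1
        rw [le_div_iff₀ h2] at h4
        rw [abs_sub_comm, abs_of_nonneg (by linarith), abs_sub_comm, abs_of_pos h2]
        exact h3
    intro s hs t ht
    rcases le_total s t with h | h
    · exact hlip s hs t ht h
    · rw [abs_sub_comm, abs_sub_comm s t]
      exact hlip t ht s hs h
  · exact fun s hs => ⟨hYd s hs, hY'0 s hs⟩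
  · intro s hs
    rw [hj]
    exact Set.indicator_of_notMem hs _
  · intro s hs h x hh hx hhx
    obtain ⟨g1, g2, g3, g4⟩ := hρmem s (hIoo s hs)
    have g5 : 0 < dp n κ p (ρ s) := hp.dpos _ g1
    have g6 := hs.1
    have g7 := hF0 (ρ s) ⟨g1, g2⟩
    have g8 : 0 ≤ Y s := hp.yy_nonneg hn hκ g1.le
    have g9 : 0 ≤ Y' s := (hY'0 s (hIoo s hs)).1
    set K := κ - s ^ 2 with hK
    have hK1 : 0 ≤ 1 - K / κ := by
      rw [sub_nonneg, div_le_one hκ, hK]
      nlinarith [sq_nonneg s]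
    -- the extreme case
    set x₁ := (K - h) / ((n : ℝ) - 1) with hx₁
    have hx₁' : ((n : ℝ) - 1) * x₁ = K - h := by rw [hx₁]; field_simp
    have hxx : x ≤ x₁ := by
      rw [hx₁, le_div_iff₀ hn1]
      linarith
    have hx₁0 : 0 ≤ x₁ := hx.trans hxx
    have hext : j s * (h * x₁ ^ (n - 1)) ≤
        1 - K / κ + Y s * (h + ((n : ℝ) - 1) * x₁) + s * Y' s * h := by
      have h1 : j s = j₀ s := by rw [hj]; exact Set.indicator_of_mem hs _
      obtain ⟨m, rfl⟩ : ∃ m, n = m + 2 := ⟨n - 2, by omega⟩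
      have e4 : gg (m + 2) κ p (ρ s) =
          (s / ρ s - dp (m + 2) κ p (ρ s)) / (s * dp (m + 2) κ p (ρ s)) := by
        unfold gg
        rw [if_pos g1, g3]
      have e5 : ((m : ℝ) + 1) * (s / ρ s) = κ - s ^ 2 - dp (m + 2) κ p (ρ s) := by
        unfold dp
        rw [g3]
        push_cast
        ring
      have e6 : dp (m + 2) κ p (ρ s) ≤ s / ρ s := by
        have := hp.dp_le g1
        rwa [g3] at this
      push_cast at hx₁'
      have h2 := tangent (m := m + 1) (by omega) g5 e6 hh hx₁0 (by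
        push_cast
        rw [e5]
        linarith)
      have e1 : m + 2 - 1 = m + 1 := by omega
      have e2 : m + 2 - 2 = m := by omega
      rw [Nat.add_sub_cancel] at h2
      rw [h1]
      have e7 : F (ρ s) = 1 + (Y s - 1 / κ) * K := by
        rw [hF]
        simp only
        rw [g3]
      have e8 : ((↑(m + 2) : ℝ) - 1) * x₁ = K - h := by push_cast; linarith
      have e9 : 1 - K / κ + Y s * (h + ((↑(m + 2) : ℝ) - 1) * x₁) + s * Y' s * h =
          F (ρ s) + s * Y' s * h := by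
        rw [e8, e7]
        ring
      have e10 : s * Y' s = F (ρ s) * ((s / ρ s - dp (m + 2) κ p (ρ s)) /
          dp (m + 2) κ p (ρ s) ^ 2) := by
        rw [hY']
        simp only
        rw [e4]
        field_simp
      rw [e9, e10, hj₀]
      simp only
      rw [e1, e2]
      have h3 : 0 < dp (m + 2) κ p (ρ s) ^ 2 * (s / ρ s) ^ m := by positivity
      have h4 : F (ρ s) / (dp (m + 2) κ p (ρ s) ^ 2 * (s / ρ s) ^ m) * (h * x₁ ^ (m + 1)) ≤
          F (ρ s) * (1 + (s / ρ s - dp (m + 2) κ p (ρ s)) / dp (m + 2) κ p (ρ s) ^ 2 * h) := by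
        rw [div_mul_eq_mul_div, div_le_iff₀ h3, mul_assoc]
        apply mul_le_mul_of_nonneg_left _ g7
        linarith
      refine h4.trans (le_of_eq ?_)
      ring
    -- interpolation
    rcases hx₁0.eq_or_lt with h0 | h0
    · have hx0 : x = x₁ := by linarith
      rw [hx0]
      exact hext
    · set θ := x / x₁ with hθ
      have hθ0 : 0 ≤ θ := by positivity
      have hθ1 : θ ≤ 1 := by rw [hθ, div_le_one h0]; exact hxx
      have hxθ : x = θ * x₁ := by rw [hθ]; field_simp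
      have h1 : x ^ (n - 1) ≤ θ * x₁ ^ (n - 1) := by
        rw [hxθ, mul_pow]
        apply mul_le_mul_of_nonneg_right _ (by positivity)
        calc θ ^ (n - 1) ≤ θ ^ 1 := pow_le_pow_of_le_one hθ0 hθ1 (by omega)
          _ = θ := pow_one _
      calc j s * (h * x ^ (n - 1)) ≤ j s * (h * (θ * x₁ ^ (n - 1))) := by
            apply mul_le_mul_of_nonneg_left _ (hj0 s)
            exact mul_le_mul_of_nonneg_left h1 hh
        _ = θ * (j s * (h * x₁ ^ (n - 1))) := by ring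
        _ ≤ θ * (1 - K / κ + Y s * (h + ((n : ℝ) - 1) * x₁) + s * Y' s * h) :=
            mul_le_mul_of_nonneg_left hext hθ0
        _ = θ * (1 - K / κ + Y s * h + s * Y' s * h) + Y s * (((n : ℝ) - 1) * x) := by
            rw [hxθ]; ring
        _ ≤ 1 * (1 - K / κ + Y s * h + s * Y' s * h) + Y s * (((n : ℝ) - 1) * x) := by
            have h2 : 0 ≤ 1 - K / κ + Y s * h + s * Y' s * h := by positivity
            have := mul_le_mul_of_nonneg_right hθ1 h2
            linarith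
        _ = _ := by ring
  · have h1 : IntegrableOn (fun s => s ^ (n - 1) * j s) (Ioi 0) := by
      rw [← Set.union_sdiff_cancel (show Ioc 0 (p R) ⊆ Ioi (0:ℝ) from fun s hs => hs.1)]
      apply hGint.union
      have : IntegrableOn (fun _ : ℝ => (0:ℝ)) (Ioi (0:ℝ) \ Ioc 0 (p R)) := integrableOn_zero
      exact this.congr_fun (fun s hs => (hzero s hs).symm) (measurableSet_Ioi.diff measurableSet_Ioc)
    exact h1
  · have h1 : ∫ s in Ioi 0, s ^ (n - 1) * j s = ∫ s in Ioc 0 (p R), s ^ (n - 1) * j s :=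
      setIntegral_eq_of_subset_of_forall_sdiff_eq_zero measurableSet_Ioi
        (fun s hs => hs.1) hzero
    rw [h1, ← intervalIntegral.integral_of_le hA.le,
      intervalIntegral.integral_eq_sub_of_hasDerivAt_of_le hA.le hGcont hGd
        ((intervalIntegrable_iff_integrableOn_Ioc_of_le hA.le).2 hGint)]
    rw [hG]
    simp only
    rw [hρR, hρ0, hYR, zero_pow (by omega : n ≠ 0), mul_zero, zero_div, add_zero, sub_zero]
    have h2 : (yy n κ p R - 1 / κ) * p R = - (R / ((n : ℝ) - 1) * (1 - TT n κ p R / κ)) := by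
      rw [sub_mul, hYR2]
      ring
    obtain ⟨m, rfl⟩ : ∃ m, n = m + 1 := ⟨n - 1, by omega⟩
    rw [Nat.add_sub_cancel, mul_right_comm, h2]
    ring

end

end Pool.Agent.Helper876.Rob
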