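import Pool.Agent.Helper876_Robin.Eig

/-!
# The main theorem in terms of the radial profile
-/

set_option autoImplicit false

open MeasureTheory Set Metric Filter Topology
open scoped ENNReal NNReal InnerProductSpace

namespace Pool.Agent.Helper876.Rob

/-- A cut-off logarithm. -/
theorem exists_log {n : ℕ} {Ω : Set (E n)} (hb : Bornology.IsBounded Ω) (hne : Ω.Nonempty)
    {u : E n → ℝ} (hu : ContDiff ℝ 2 u) (hpos : ∀ x ∈ closure Ω, 0 < u x) :
    ∃ w : E n → ℝ, ContDiff ℝ 2 w ∧ ∀ x ∈ closure Ω, w =ᶠ[𝓝 x] fun y => Real.log (u y) := by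
  obtain ⟨x₀, hx₀, hmin⟩ := hb.isCompact_closure.exists_isMinOn hne.closure
    hu.continuous.continuousOn
  set c := u x₀ / 2 with hc
  have hc0 : 0 < c := by have := hpos x₀ hx₀; positivity
  set L : ℝ → ℝ := fun t => Real.smoothTransition ((t - c / 2) / (c / 2)) * Real.log t with hL
  have hLs : ContDiff ℝ 2 L := by
    rw [contDiff_iff_contDiffAt]
    intro t
    by_cases ht : 0 < t
    · apply ContDiffAt.mul
      · apply ContDiff.contDiffAt
        exact Real.smoothTransition.contDiff.comp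
          ((contDiff_id.sub contDiff_const).div_const _)
      · exact (Real.contDiffAt_log.2 ht.ne').of_le le_top
    · apply (contDiffAt_const (c := (0:ℝ))).congr_of_eventuallyEq
      have h1 : t < c / 2 := by linarith
      filter_upwards [Iio_mem_nhds h1] with s hs
      have hs' : s < c / 2 := hs
      rw [hL]
      simp only
      rw [Real.smoothTransition.zero_of_nonpos, zero_mul]
      apply div_nonpos_of_nonpos_of_nonneg
      · linarith
      · positivity
  refine ⟨fun x => L (u x), hLs.comp hu, ?_⟩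
  intro x hx
  have h1 : c < u x := by
    have h2 : u x₀ ≤ u x := hmin hx
    have := hpos x₀ hx₀
    rw [hc]
    linarith
  filter_upwards [hu.continuous.continuousAt.eventually (lt_mem_nhds h1)] with y hy
  rw [hL]
  simp only
  rw [Real.smoothTransition.one_of_one_le, one_mul]
  rw [le_div_iff₀ (by positivity)]
  linarith

/-- The logarithm of the eigenfunction. -/
theorem exists_w {n : ℕ} {Ω : Set (E n)} {ν : E n → E n} (hΩ : IsRegularDomain Ω ν)
    {α lam : ℝ} {u : E n → ℝ} (hu : IsPositiveEigenfunction Ω ν α lam u) :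
    ∃ w : E n → ℝ, ContDiff ℝ 2 w ∧
      (∀ x ∈ Ω, dvg (gradient w) x + ‖gradient w x‖ ^ 2 = -lam) ∧
      (∀ x ∈ frontier Ω, ⟪gradient w x, ν x⟫_ℝ = -α) := by
  obtain ⟨w, hw, hwu⟩ := exists_log hΩ.isBounded hΩ.isConnected.nonempty hu.contDiff hu.pos
  have hu1 : ContDiff ℝ 1 u := hu.contDiff.of_le (by norm_num)
  have hud : Differentiable ℝ u := hu1.differentiable one_ne_zero
  have hGu : ContDiff ℝ 1 (gradient u) := contDiff_gradient (k := 1) (by exact_mod_cast hu.contDiff)
  have hgr : ∀ x ∈ closure Ω, gradient w =ᶠ[𝓝 x] fun y => (u y)⁻¹ • gradient u y := by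
    intro x hx
    have h1 := (hwu x hx).eventuallyEq_nhds
    have h2 := hu.contDiff.continuous.continuousAt.eventually (lt_mem_nhds (hu.pos x hx))
    filter_upwards [h1, h2] with y hy hy2
    have h3 : HasFDerivAt (fun y => Real.log (u y)) ((u y)⁻¹ • fderiv ℝ u y) y :=
      (hud y).hasFDerivAt.log (ne_of_gt hy2)
    have h4 : fderiv ℝ w y = (u y)⁻¹ • fderiv ℝ u y := by
      rw [hy.fderiv_eq, h3.fderiv]
    unfold gradient
    rw [h4, map_smul]
  refine ⟨w, hw, ?_, ?_⟩
  · intro x hx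
    have hxc := subset_closure hx
    have hux := hu.pos x hxc
    have h1 := hgr x hxc
    have h2 : fderiv ℝ (gradient w) x = fderiv ℝ (fun y => (u y)⁻¹ • gradient u y) x := h1.fderiv_eq
    have h3 : dvg (gradient w) x = dvg (fun y => (u y)⁻¹ • gradient u y) x := by
      unfold dvg
      rw [h2]
    have h4 : HasFDerivAt (fun y => (u y)⁻¹) (-((u x) ^ 2)⁻¹ • fderiv ℝ u x) x := by
      have := (hasDerivAt_inv hux.ne').comp_hasFDerivAt x (hud x).hasFDerivAt
      exact this
    have h5 : dvg (fun y => (u y)⁻¹ • gradient u y) x =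
        fderiv ℝ (fun y => (u y)⁻¹) x (gradient u x) + (u x)⁻¹ * dvg (gradient u) x :=
      JG.dvg_smul h4.differentiableAt (hGu.differentiable one_ne_zero x)
    have h6 : fderiv ℝ u x (gradient u x) = ‖gradient u x‖ ^ 2 := by
      rw [← inner_gradient, real_inner_self_eq_norm_sq]
    have h7 : dvg (gradient u) x = -(lam * u x) := by
      have := hu.pde x hx
      linarith
    rw [h3, h5, h4.fderiv, h1.self_of_nhds, h7]
    simp only [neg_smul, neg_apply, smul_apply, smul_eq_mul, h6]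
    rw [norm_smul, Real.norm_eq_abs, abs_of_pos (inv_pos.2 hux)]
    field_simp
    ring
  · intro x hx
    have hxc := frontier_subset_closure hx
    have hux := hu.pos x hxc
    rw [(hgr x hxc).self_of_nhds, real_inner_smul_left]
    have h1 := hu.bc x hx
    have h2 : ⟪gradient u x, ν x⟫_ℝ = -α * u x := by linarith
    rw [h2]
    field_simp

/-- Positivity of the eigenvalue `κ = -λ`. -/
theorem kappa_pos {n : ℕ} (hn : 2 ≤ n) {Ω : Set (E n)} {ν : E n → E n}
    (hΩ : IsRegularDomain Ω ν) {w : E n → ℝ} (hw : ContDiff ℝ 2 w) {κ A : ℝ} (hA : 0 < A)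
    (hpde : ∀ x ∈ Ω, dvg (gradient w) x + ‖gradient w x‖ ^ 2 = κ)
    (hbc : ∀ x ∈ frontier Ω, ⟪gradient w x, ν x⟫_ℝ = A) {R : ℝ} (hR : 0 < R)
    (hv : volume.real Ω = volume.real (ball (0 : E n) R)) : 0 < κ := by
  have hVc : ContDiff ℝ 1 (gradient w) := contDiff_gradient (k := 1) (by exact_mod_cast hw)
  have hiso := isoper_ball hn hΩ hR hv
  have hω := vol_one_pos (n := n)
  have hσ : 0 < (surf n (frontier Ω)).toReal := by
    refine lt_of_lt_of_le ?_ hiso
    have : (0:ℝ) < n := by positivity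
    positivity
  have hgV : ∫ x in Ω, dvg (gradient w) x = A * (surf n (frontier Ω)).toReal := by
    rw [hΩ.gauss_green _ hVc]
    have h1 : ∫ x in frontier Ω, ⟪gradient w x, ν x⟫_ℝ ∂(surf n) =
        ∫ _ in frontier Ω, A ∂(surf n) :=
      setIntegral_congr_fun isClosed_frontier.measurableSet fun x hx => hbc x hx
    rw [h1, setIntegral_const, smul_eq_mul, mul_comm]
    rfl
  have h2 : ∫ x in Ω, dvg (gradient w) x ≤ ∫ _ in Ω, κ := by
    apply setIntegral_mono_on (intOn hΩ.isBounded (continuous_dvg hVc))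
      (integrableOn_const hΩ.isBounded.measure_lt_top.ne) hΩ.isOpen.measurableSet
    intro x hx
    have := hpde x hx
    nlinarith [sq_nonneg ‖gradient w x‖]
  rw [hgV, setIntegral_const, smul_eq_mul] at h2
  have h3 : 0 < A * (surf n (frontier Ω)).toReal := by positivity
  have h4 : 0 < volume.real Ω * κ := lt_of_lt_of_le h3 h2
  exact pos_of_mul_pos_right h4 measureReal_nonneg

/-- scaling of the quantity `T` -/
theorem TT_scale {n : ℕ} {κ : ℝ} (hκ : 0 < κ) (p : ℝ → ℝ) (r : ℝ) :
    TT n κ (fun r => Real.sqrt κ * p (Real.sqrt κ * r)) r = κ * TT n 1 p (Real.sqrt κ * r) := by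
  set k := Real.sqrt κ with hk
  have hk0 : 0 < k := Real.sqrt_pos.2 hκ
  have hkk : k * k = κ := Real.mul_self_sqrt hκ.le
  unfold TT
  have h1 : dp n κ (fun r => k * p (k * r)) r = κ * dp n 1 p (k * r) := by
    unfold dp
    rw [← hkk]
    by_cases hr : r = 0
    · subst hr; simp; ring
    · field_simp
  have h2 : sqEig (fun r => k * p (k * r)) r = sqEig p (k * r) := by
    unfold sqEig
    congr 2
    rw [intervalIntegral.integral_const_mul]
    have := intervalIntegral.mul_integral_comp_mul_left (f := p) (a := 0) (b := r) (c := k)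
    rw [this, mul_zero]
  rw [h1, h2]
  ring

/-- **The main estimate.** Comparison of the eigenvalues. -/
theorem main_kappa {n : ℕ} (hn : 2 ≤ n) {Ω : Set (E n)} {ν : E n → E n}
    (hΩ : IsRegularDomain Ω ν) {w : E n → ℝ} (hw : ContDiff ℝ 2 w) {κ A : ℝ} (hκ : 0 < κ)
    (hpde : ∀ x ∈ Ω, dvg (gradient w) x + ‖gradient w x‖ ^ 2 = κ)
    (hbc : ∀ x ∈ frontier Ω, ⟪gradient w x, ν x⟫_ℝ = A) {R : ℝ} (hR : 0 < R)
    (hv : volume.real Ω = volume.real (ball (0 : E n) R)) {p : ℝ → ℝ} (hp : Prof n κ p)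
    (hT : TT n κ p R < κ) (hpA : p R ≤ A) : p R = A ∧ ∃ c : E n, Ω = ball c R := by
  have hn0 : (2:ℝ) ≤ n := by exact_mod_cast hn
  have hn1 : 0 < (n : ℝ) - 1 := by linarith
  have hiso := isoper_ball hn hΩ hR hv
  have hω := vol_one_pos (n := n)
  set ω := volume.real (ball (0 : E n) 1) with hωdef
  set σ := (surf n (frontier Ω)).toReal with hσdef
  have hσ : 0 < σ := by
    refine lt_of_lt_of_le ?_ hiso
    have : (0:ℝ) < n := by positivity
    positivity
  have hvR := vol_ball_eq hn hR (0 : E n)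
  rw [← hωdef] at hvR
  have hRn : R ^ n = R * R ^ (n - 1) := by
    obtain ⟨m, rfl⟩ : ∃ m, n = m + 1 := ⟨n - 1, by omega⟩
    rw [Nat.add_sub_cancel, pow_succ]
    ring
  have hpRA : p R = A := by
    by_contra hne
    have hlt : p R < A := lt_of_le_of_ne hpA hne
    have h1 := calib2 hn hΩ hw hκ hpde hbc hp hR hlt hT.le
    rw [hv, hvR] at h1
    set δ := 1 / ((n : ℝ) - 1) * (1 - TT n κ p R / κ) with hδ
    have hδ0 : 0 ≤ δ := by
      apply mul_nonneg (by positivity)
      rw [sub_nonneg, div_le_one hκ]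
      exact hT.le
    have h2 : ω * (n * (R ^ n / n - R ^ n / ((n : ℝ) - 1) * (1 - TT n κ p R / κ))) =
        ω * R ^ n - n * ω * R ^ n * δ := by
      rw [hδ]; field_simp
    have h3 : ((A - p R) / κ + R / ((n : ℝ) - 1) * (1 - TT n κ p R / κ)) * σ =
        (A - p R) / κ * σ + R * δ * σ := by
      rw [hδ]; ring
    rw [h2, h3] at h1
    have h4 : 0 < (A - p R) / κ * σ := by
      have : 0 < A - p R := by linarith
      positivity
    have h5 : n * ω * R ^ n * δ ≤ R * δ * σ := by
      calc n * ω * R ^ n * δ = R * δ * (n * ω * R ^ (n - 1)) := by rw [hRn]; ring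
        _ ≤ R * δ * σ := mul_le_mul_of_nonneg_left hiso (by positivity)
    linarith
  refine ⟨hpRA, ball_of_surf_le hn hΩ hR hv ?_⟩
  -- the limit `R' → R`
  have hTc : ContinuousAt (TT n κ p) R := (hp.TT_deriv hR).continuousAt
  have hev : ∀ᶠ r in 𝓝[<] R, ω * (n * (r ^ n / n - r ^ n / ((n : ℝ) - 1) *
      (1 - TT n κ p r / κ))) ≤ volume.real Ω - ((A - p r) / κ + r / ((n : ℝ) - 1) *
      (1 - TT n κ p r / κ)) * σ := by
    have e1 : ∀ᶠ r in 𝓝[<] R, TT n κ p r < κ :=
      nhdsWithin_le_nhds (hTc.eventually (gt_mem_nhds hT))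
    have e2 : ∀ᶠ r in 𝓝[<] R, 0 < r := nhdsWithin_le_nhds (lt_mem_nhds hR)
    filter_upwards [e1, e2, self_mem_nhdsWithin] with r h1 h2 h3
    have h4 : p r < A := by
      rw [← hpRA]
      exact hp.mono (a := r) (b := R) h2.le hR.le h3
    exact calib2 hn hΩ hw hκ hpde hbc hp h2 h4 h1.le
  have hl : Tendsto (fun r => ω * (n * (r ^ n / n - r ^ n / ((n : ℝ) - 1) *
      (1 - TT n κ p r / κ)))) (𝓝[<] R) (𝓝 (ω * (n * (R ^ n / n - R ^ n / ((n : ℝ) - 1) *
      (1 - TT n κ p R / κ))))) := by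
    apply Tendsto.mono_left _ nhdsWithin_le_nhds
    have : ContinuousAt (fun r => ω * (n * (r ^ n / n - r ^ n / ((n : ℝ) - 1) *
      (1 - TT n κ p r / κ)))) R := by
      fun_prop
    exact this.tendsto
  have hr : Tendsto (fun r => volume.real Ω - ((A - p r) / κ + r / ((n : ℝ) - 1) *
      (1 - TT n κ p r / κ)) * σ) (𝓝[<] R) (𝓝 (volume.real Ω - ((A - p R) / κ +
      R / ((n : ℝ) - 1) * (1 - TT n κ p R / κ)) * σ)) := by
    apply Tendsto.mono_left _ nhdsWithin_le_nhds
    have hpc := hp.cont.continuousAt (x := R)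
    have : ContinuousAt (fun r => volume.real Ω - ((A - p r) / κ + r / ((n : ℝ) - 1) *
      (1 - TT n κ p r / κ)) * σ) R := by
      fun_prop
    exact this.tendsto
  have h1 := le_of_tendsto_of_tendsto hl hr hev
  rw [hv, hvR, hpRA] at h1
  set δ := 1 / ((n : ℝ) - 1) * (1 - TT n κ p R / κ) with hδ
  have hδ0 : 0 < δ := by
    apply mul_pos (by positivity)
    rw [sub_pos, div_lt_one hκ]
    exact hT
  have h2 : ω * (n * (R ^ n / n - R ^ n / ((n : ℝ) - 1) * (1 - TT n κ p R / κ))) =
      ω * R ^ n - n * ω * R ^ n * δ := by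
    rw [hδ]; field_simp
  have h3 : ((A - A) / κ + R / ((n : ℝ) - 1) * (1 - TT n κ p R / κ)) * σ = R * δ * σ := by
    rw [hδ]; ring
  rw [h2, h3] at h1
  have h5 : R * δ * σ ≤ R * δ * (n * ω * R ^ (n - 1)) := by
    calc R * δ * σ ≤ n * ω * R ^ n * δ := by linarith
      _ = _ := by rw [hRn]; ring
  exact le_of_mul_le_mul_left h5 (by positivity)

end Pool.Agent.Helper876.Rob
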