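import Mathlib


set_option autoImplicit false

open MeasureTheory Set Metric Filter Topology
open scoped ENNReal NNReal InnerProductSpace

namespace Pool.Agent.Helper876.JE

/-- Euclidean space -/
abbrev E (n : ℕ) := EuclideanSpace ℝ (Fin n)

/-- The divergence of a vector field. -/
noncomputable def dvg {n : ℕ} (X : E n → E n) (x : E n) : ℝ :=
  ∑ i : Fin n, (fderiv ℝ X x (EuclideanSpace.single i 1)) i

/-- coefficients of the derivative of a power series -/
noncomputable def jbS (b : ℕ → ℝ) : ℕ → ℝ := fun j => ((j : ℝ) + 1) * b (j + 1)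

theorem jbS_apply (b : ℕ → ℝ) (j : ℕ) : jbS b j = ((j : ℝ) + 1) * b (j + 1) := rfl

theorem jb_summable (b : ℕ → ℝ) (C : ℝ) (hb : ∀ j, |b j| ≤ C / (j.factorial : ℝ)) (x : ℝ) :
    Summable (fun j => b j * x ^ j) := by
  have h1 : Summable (fun j : ℕ => C * (|x| ^ j / (j.factorial : ℝ))) :=
    (Real.summable_pow_div_factorial |x|).mul_left C
  refine Summable.of_norm_bounded h1 ?_
  intro j
  rw [norm_mul, norm_pow, Real.norm_eq_abs, Real.norm_eq_abs]
  calc |b j| * |x| ^ j ≤ C / (j.factorial : ℝ) * |x| ^ j :=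
        mul_le_mul_of_nonneg_right (hb j) (pow_nonneg (abs_nonneg x) j)
    _ = C * (|x| ^ j / (j.factorial : ℝ)) := by ring

theorem jb_shift (b : ℕ → ℝ) (C : ℝ) (hb : ∀ j, |b j| ≤ C / (j.factorial : ℝ)) :
    ∀ j, |jbS b j| ≤ C / (j.factorial : ℝ) := by
  intro j
  have h1 := hb (j + 1)
  rw [Nat.factorial_succ] at h1
  push_cast at h1
  have h2 : (0 : ℝ) < (j : ℝ) + 1 := by positivity
  have h3 : (0 : ℝ) < (j.factorial : ℝ) := by exact_mod_cast j.factorial_pos
  rw [jbS_apply, abs_mul, abs_of_pos h2]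
  calc ((j : ℝ) + 1) * |b (j + 1)| ≤ ((j : ℝ) + 1) * (C / (((j : ℝ) + 1) * (j.factorial : ℝ))) :=
        mul_le_mul_of_nonneg_left h1 h2.le
    _ = C / (j.factorial : ℝ) := by field_simp

theorem jb_deriv (b : ℕ → ℝ) (C : ℝ) (hb : ∀ j, |b j| ≤ C / (j.factorial : ℝ)) (x : ℝ) :
    HasDerivAt (fun y => ∑' j, b j * y ^ j) (∑' j, jbS b j * x ^ j) x := by
  have hC : 0 ≤ C := by
    have := hb 0
    simp at this
    exact (abs_nonneg _).trans this
  set R : ℝ := |x| + 1 with hR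
  have hR0 : 0 < R := by positivity
  have hsum : Summable (fun j : ℕ => C / (j.factorial : ℝ) * ((j : ℝ) * R ^ (j - 1))) := by
    rw [← summable_nat_add_iff 1]
    have h1 : Summable (fun j : ℕ => C * (R ^ j / (j.factorial : ℝ))) :=
      (Real.summable_pow_div_factorial R).mul_left C
    refine h1.congr ?_
    intro j
    rw [Nat.factorial_succ, Nat.add_sub_cancel]
    have h2 : (0 : ℝ) < (j : ℝ) + 1 := by positivity
    have h3 : (0 : ℝ) < (j.factorial : ℝ) := by exact_mod_cast j.factorial_pos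
    push_cast
    field_simp
  have hx : x ∈ Metric.ball (0 : ℝ) R := by
    rw [mem_ball_zero_iff, Real.norm_eq_abs, hR]; linarith
  have h4 := hasDerivAt_tsum_of_isPreconnected (g := fun (j : ℕ) (y : ℝ) => b j * y ^ j)
    (g' := fun (j : ℕ) (y : ℝ) => b j * ((j : ℝ) * y ^ (j - 1))) hsum Metric.isOpen_ball
    (convex_ball (0 : ℝ) R).isPreconnected
    (fun j y _ => (hasDerivAt_pow j y).const_mul (b j))
    (fun j y hy => by
      rw [mem_ball_zero_iff, Real.norm_eq_abs] at hy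
      rw [norm_mul, norm_mul, norm_pow, Real.norm_eq_abs, Real.norm_eq_abs, Real.norm_eq_abs,
        abs_of_nonneg (Nat.cast_nonneg (α := ℝ) j)]
      have h5 : |y| ^ (j - 1) ≤ R ^ (j - 1) := pow_le_pow_left₀ (abs_nonneg y) hy.le _
      have h6 : (j : ℝ) * |y| ^ (j - 1) ≤ (j : ℝ) * R ^ (j - 1) :=
        mul_le_mul_of_nonneg_left h5 (Nat.cast_nonneg j)
      exact mul_le_mul (hb j) h6 (by positivity) (by positivity))
    hx (jb_summable b C hb x) hx
  refine h4.congr_deriv ?_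
  have h7 : Summable (fun j : ℕ => b j * ((j : ℝ) * x ^ (j - 1))) := by
    rw [← summable_nat_add_iff 1]
    refine (jb_summable _ C (jb_shift b C hb) x).congr ?_
    intro j
    rw [Nat.add_sub_cancel, jbS_apply]
    push_cast
    ring
  rw [h7.tsum_eq_zero_add]
  simp only [Nat.cast_zero, zero_mul, mul_zero, zero_add]
  apply tsum_congr
  intro j
  rw [Nat.add_sub_cancel, jbS_apply]
  push_cast
  ring

/-- the coefficients -/
noncomputable def jbA (n : ℕ) : ℕ → ℝ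
  | 0 => 1
  | j + 1 => jbA n j / (((j : ℝ) + 1) * (4 * (j : ℝ) + 2 * (n : ℝ)))

theorem jbA_pos (n : ℕ) (hn : 2 ≤ n) : ∀ j, 0 < jbA n j := by
  intro j
  have h0 : (2 : ℝ) ≤ (n : ℝ) := by exact_mod_cast hn
  induction j with
  | zero => simp [jbA]
  | succ j ih =>
    rw [jbA]
    positivity

theorem jbA_rec (n : ℕ) (hn : 2 ≤ n) (j : ℕ) :
    ((j : ℝ) + 1) * (4 * (j : ℝ) + 2 * (n : ℝ)) * jbA n (j + 1) = jbA n j := by
  have h0 : (2 : ℝ) ≤ (n : ℝ) := by exact_mod_cast hn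
  have h1 : (0 : ℝ) < ((j : ℝ) + 1) * (4 * (j : ℝ) + 2 * (n : ℝ)) := by positivity
  rw [jbA]
  field_simp

theorem jbA_bound (n : ℕ) (hn : 2 ≤ n) : ∀ j, |jbA n j| ≤ 1 / (j.factorial : ℝ) := by
  intro j
  have h0 : (2 : ℝ) ≤ (n : ℝ) := by exact_mod_cast hn
  rw [abs_of_pos (jbA_pos n hn j)]
  induction j with
  | zero => simp [jbA]
  | succ j ih =>
    have h3 : (0 : ℝ) < (j.factorial : ℝ) := by exact_mod_cast j.factorial_pos
    have h1 : (0 : ℝ) < (j : ℝ) + 1 := by positivity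
    have h2 : (1 : ℝ) ≤ 4 * (j : ℝ) + 2 * (n : ℝ) := by
      have : (0 : ℝ) ≤ (j : ℝ) := Nat.cast_nonneg j
      linarith
    rw [jbA, Nat.factorial_succ]
    push_cast
    rw [div_le_div_iff₀ (by positivity) (by positivity)]
    rw [le_div_iff₀ h3] at ih
    have h4 : 0 < jbA n j := jbA_pos n hn j
    calc jbA n j * (((j : ℝ) + 1) * (j.factorial : ℝ)) = ((j : ℝ) + 1) * (jbA n j * (j.factorial : ℝ)) := by ring
      _ ≤ ((j : ℝ) + 1) * 1 := mul_le_mul_of_nonneg_left ih h1.le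
      _ ≤ ((j : ℝ) + 1) * (4 * (j : ℝ) + 2 * (n : ℝ)) := mul_le_mul_of_nonneg_left h2 h1.le
      _ = 1 * (((j : ℝ) + 1) * (4 * (j : ℝ) + 2 * (n : ℝ))) := by ring

/-- the three functions W, its first and its second derivative -/
theorem jb_exists (n : ℕ) (hn : 2 ≤ n) :
    ∃ W W1 W2 : ℝ → ℝ, Continuous W2 ∧ (∀ x, HasDerivAt W (W1 x) x) ∧ (∀ x, HasDerivAt W1 (W2 x) x) ∧
      (∀ x, 4 * x * W2 x + 2 * (n : ℝ) * W1 x = W x) ∧ W 0 = 1 ∧
      (∀ x, 0 ≤ x → 1 ≤ W x) ∧ (∀ x, 0 ≤ x → 0 < W1 x) ∧ (∀ x, 0 ≤ x → 2 * (n : ℝ) * W1 x ≤ W x) := by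
  have h0 : (2 : ℝ) ≤ (n : ℝ) := by exact_mod_cast hn
  have hb := jbA_bound n hn
  have hb1 := jb_shift (jbA n) 1 hb
  have hb2 := jb_shift (jbS (jbA n)) 1 hb1
  have hpos := jbA_pos n hn
  refine ⟨fun x => ∑' j, jbA n j * x ^ j, fun x => ∑' j, jbS (jbA n) j * x ^ j,
    fun x => ∑' j, jbS (jbS (jbA n)) j * x ^ j,
    continuous_iff_continuousAt.mpr (fun x => (jb_deriv (jbS (jbS (jbA n))) 1 hb2 x).continuousAt),
    jb_deriv (jbA n) 1 hb, jb_deriv (jbS (jbA n)) 1 hb1, ?_, ?_, ?_, ?_, ?_⟩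
  · intro x
    have hs0 := jb_summable (jbA n) 1 hb x
    have hs1 := jb_summable (jbS (jbA n)) 1 hb1 x
    have hs2 := jb_summable _ 1 hb2 x
    have hs3 : Summable (fun j : ℕ => (j : ℝ) * (((j : ℝ) + 1) * jbA n (j + 1)) * x ^ j) := by
      rw [← summable_nat_add_iff 1]
      refine (hs2.mul_left x).congr ?_
      intro j
      rw [jbS_apply, jbS_apply]
      push_cast
      ring
    have h1 : x * ∑' j : ℕ, jbS (jbS (jbA n)) j * x ^ j =
        ∑' j : ℕ, (j : ℝ) * (((j : ℝ) + 1) * jbA n (j + 1)) * x ^ j := by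
      rw [hs3.tsum_eq_zero_add, ← tsum_mul_left]
      simp only [Nat.cast_zero, zero_mul, zero_add]
      apply tsum_congr
      intro j
      rw [jbS_apply, jbS_apply]
      push_cast
      ring
    show 4 * x * (∑' j : ℕ, jbS (jbS (jbA n)) j * x ^ j) +
      2 * (n : ℝ) * (∑' j : ℕ, jbS (jbA n) j * x ^ j) = ∑' j, jbA n j * x ^ j
    rw [mul_assoc 4 x, h1, ← tsum_mul_left, ← tsum_mul_left, ← (hs3.mul_left 4).tsum_add (hs1.mul_left (2 * (n : ℝ)))]
    apply tsum_congr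
    intro j
    have h2 := jbA_rec n hn j
    rw [← h2, jbS_apply]
    ring
  · show ∑' j, jbA n j * (0 : ℝ) ^ j = 1
    rw [tsum_eq_single 0]
    · simp [jbA]
    · intro j hj
      rw [zero_pow hj, mul_zero]
  · intro x hx
    show 1 ≤ ∑' j, jbA n j * x ^ j
    have hs0 := jb_summable (jbA n) 1 hb x
    have h1 := hs0.sum_le_tsum {0} (fun j _ => mul_nonneg (hpos j).le (pow_nonneg hx j))
    simpa [jbA] using h1
  · intro x hx
    show 0 < ∑' j : ℕ, jbS (jbA n) j * x ^ j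
    have hs1 := jb_summable (jbS (jbA n)) 1 hb1 x
    have h1 := hs1.sum_le_tsum {0} (fun j _ => mul_nonneg
      (by rw [jbS_apply]; exact mul_nonneg (by positivity) (hpos _).le) (pow_nonneg hx j))
    have h2 : 0 < jbA n 1 := hpos 1
    have h3 : jbS (jbA n) 0 = jbA n 1 := by simp [jbS]
    simp only [Finset.sum_singleton, pow_zero, mul_one] at h1
    linarith
  · intro x hx
    show 2 * (n : ℝ) * (∑' j : ℕ, jbS (jbA n) j * x ^ j) ≤ ∑' j, jbA n j * x ^ j
    have hs0 := jb_summable (jbA n) 1 hb x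
    have hs1 := jb_summable (jbS (jbA n)) 1 hb1 x
    rw [← tsum_mul_left]
    refine (hs1.mul_left (2 * (n : ℝ))).tsum_le_tsum ?_ hs0
    intro j
    have h2 := jbA_rec n hn j
    rw [← h2, jbS_apply]
    have h3 : 0 ≤ ((j : ℝ) + 1) * (4 * (j : ℝ)) * jbA n (j + 1) * x ^ j :=
      mul_nonneg (mul_nonneg (by positivity) (hpos _).le) (pow_nonneg hx j)
    nlinarith [h3]


theorem je_profile (m : ℕ) (W W1 W2 : ℝ → ℝ) (hW : ∀ x, HasDerivAt W (W1 x) x)
    (hW1 : ∀ x, HasDerivAt W1 (W2 x) x)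
    (hode : ∀ x, 4 * x * W2 x + 2 * ((m : ℝ) + 2) * W1 x = W x)
    (hWge : ∀ x, 0 ≤ x → 1 ≤ W x) (hW1pos : ∀ x, 0 ≤ x → 0 < W1 x)
    (hW1le : ∀ x, 0 ≤ x → 2 * ((m : ℝ) + 2) * W1 x ≤ W x) :
    Tendsto (fun r : ℝ => r * (2 * W1 (r ^ 2) / W (r ^ 2))) atTop (𝓝 1) := by
  have hm0 : (0 : ℝ) ≤ (m : ℝ) := Nat.cast_nonneg m
  have hWc : Continuous W := continuous_iff_continuousAt.mpr fun x => (hW x).continuousAt
  have hW1c : Continuous W1 := continuous_iff_continuousAt.mpr fun x => (hW1 x).continuousAt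
  have hWp : ∀ r : ℝ, 0 < W (r ^ 2) := fun r => lt_of_lt_of_le one_pos (hWge _ (sq_nonneg r))
  have hW1p : ∀ r : ℝ, 0 < W1 (r ^ 2) := fun r => hW1pos _ (sq_nonneg r)
  set q : ℝ → ℝ := fun r => 2 * W1 (r ^ 2) / W (r ^ 2) with hq
  set p : ℝ → ℝ := fun r => r * q r with hp
  have hqc : Continuous q := by
    refine Continuous.div ?_ ?_ fun r => (hWp r).ne'
    · exact continuous_const.mul (hW1c.comp (continuous_pow 2))
    · exact hWc.comp (continuous_pow 2)
  have hpc : Continuous p := continuous_id.mul hqc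
  have hqpos : ∀ r, 0 < q r := fun r => div_pos (mul_pos two_pos (hW1p r)) (hWp r)
  have hqle : ∀ r, q r ≤ 1 / ((m : ℝ) + 2) := by
    intro r
    have h1 := hW1le (r ^ 2) (sq_nonneg r)
    rw [hq]
    simp only
    rw [div_le_div_iff₀ (hWp r) (by positivity)]
    linarith
  have hpq : ∀ r, 0 < r → p r / r = q r := by
    intro r hr
    rw [hp]
    simp only
    field_simp
  have hppos : ∀ r, 0 < r → 0 < p r := fun r hr => mul_pos hr (hqpos r)
  have hW2d : ∀ r : ℝ, HasDerivAt (fun r : ℝ => W (r ^ 2)) (W (r ^ 2) * p r) r := by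
    intro r
    have h1 : HasDerivAt (fun r : ℝ => r ^ 2) (2 * r) r := by simpa using hasDerivAt_pow 2 r
    have h2 := (hW (r ^ 2)).comp r h1
    refine h2.congr_deriv ?_
    have h3 := (hWp r).ne'
    rw [hp, hq]
    simp only
    field_simp
  have hpd : ∀ r : ℝ, HasDerivAt p (1 - p r ^ 2 - ((m : ℝ) + 1) * q r) r := by
    intro r
    have h1 : HasDerivAt (fun r : ℝ => r ^ 2) (2 * r) r := by simpa using hasDerivAt_pow 2 r
    have h2 := (hW1 (r ^ 2)).comp r h1
    have h3 := (hasDerivAt_id' r).mul ((h2.const_mul 2).div (hW2d r) (hWp r).ne')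
    refine h3.congr_deriv ?_
    have h4 := (hWp r).ne'
    have h5 := hode (r ^ 2)
    have h6 : W2 (r ^ 2) * (4 * r ^ 2) = W (r ^ 2) - 2 * ((m : ℝ) + 2) * W1 (r ^ 2) := by linarith
    have h7 : p r = r * (2 * W1 (r ^ 2) / W (r ^ 2)) := rfl
    have h8 : q r = 2 * W1 (r ^ 2) / W (r ^ 2) := rfl
    simp only [Function.comp, Pi.div_apply]
    rw [h7, h8]
    field_simp
    linear_combination (W (r ^ 2)) * h6
  set F : ℝ → ℝ := fun r => 1 - p r ^ 2 - ((m : ℝ) + 1) * q r with hF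
  have hFc : Continuous F := (continuous_const.sub (hpc.pow 2)).sub (continuous_const.mul hqc)
  have hqd : ∀ r, 0 < r → HasDerivAt q ((F r - q r) / r) r := by
    intro r hr
    have h1 := (hpd r).div (hasDerivAt_id' r) hr.ne'
    have h2 : HasDerivAt q ((F r * r - p r * 1) / r ^ 2) r := by
      refine h1.congr_of_eventuallyEq ?_
      filter_upwards [lt_mem_nhds hr] with s hs
      exact (hpq s hs).symm
    refine h2.congr_deriv ?_
    have h3 : p r = r * q r := rfl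
    rw [h3]
    field_simp
  have hFd : ∀ r, 0 < r → HasDerivAt F (-(2 * p r * F r) - ((m : ℝ) + 1) * ((F r - q r) / r)) r := by
    intro r hr
    have h1 := ((((hpd r).pow 2).const_sub 1)).sub ((hqd r hr).const_mul ((m : ℝ) + 1))
    refine h1.congr_deriv ?_
    simp only [hF]
    norm_num
  -- positivity of the derivative
  have hFpos : ∀ r, 0 < r → 0 < F r := by
    set K : ℝ → ℝ := fun r => r ^ (m + 1) * (W (r ^ 2) ^ 2 * F r) with hK
    have hKc : Continuous K :=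
      (continuous_pow (m + 1)).mul (((hWc.comp (continuous_pow 2)).pow 2).mul hFc)
    have hKd : ∀ r, 0 < r → HasDerivAt K (r ^ m * W (r ^ 2) ^ 2 * ((m : ℝ) + 1) * (q r / r) * r) r := by
      intro r hr
      have h1 := (hasDerivAt_pow (m + 1) r).mul (((hW2d r).pow 2).mul (hFd r hr))
      refine h1.congr_deriv ?_
      have h3 : p r = r * q r := rfl
      rw [h3]
      simp only [Nat.add_sub_cancel, Pi.mul_apply, Pi.pow_apply]
      push_cast
      field_simp
      ring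
    have hmono : StrictMonoOn K (Ici 0) := by
      apply strictMonoOn_of_deriv_pos (convex_Ici 0) hKc.continuousOn
      intro r hr
      rw [interior_Ici] at hr
      rw [(hKd r hr).deriv]
      have h1 := hqpos r
      have h2 : (0 : ℝ) < r := hr
      have h3 := hWp r
      positivity
    intro r hr
    have h1 := hmono (self_mem_Ici) (mem_Ici.mpr hr.le) hr
    have h2 : K 0 = 0 := by simp [hK]
    rw [h2] at h1
    have h3 : 0 < r ^ (m + 1) * W (r ^ 2) ^ 2 := mul_pos (pow_pos hr _) (pow_pos (hWp r) 2)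
    have h4 : 0 < (r ^ (m + 1) * W (r ^ 2) ^ 2) * F r := by
      rw [mul_assoc]; exact h1
    exact (mul_pos_iff_of_pos_left h3).mp h4
  -- the other sign
  have hG : ∀ r, 0 < r → F r ≤ q r := by
    set K : ℝ → ℝ := fun r => r ^ (m + 2) * (F r - q r) with hK
    have hKc : Continuous K := (continuous_pow (m + 2)).mul (hFc.sub hqc)
    have hKd : ∀ r, 0 < r → HasDerivAt K (-(r ^ (m + 2) * (2 * p r * F r))) r := by
      intro r hr
      have h1 := (hasDerivAt_pow (m + 2) r).mul ((hFd r hr).sub (hqd r hr))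
      refine h1.congr_deriv ?_
      have h2 : m + 2 - 1 = m + 1 := by omega
      simp only [h2, Pi.sub_apply]
      push_cast
      field_simp
      ring
    have hmono : AntitoneOn K (Ici 0) := by
      apply antitoneOn_of_deriv_nonpos (convex_Ici 0) hKc.continuousOn
      · intro r hr
        rw [interior_Ici] at hr
        exact (hKd r hr).differentiableAt.differentiableWithinAt
      · intro r hr
        rw [interior_Ici] at hr
        rw [(hKd r hr).deriv]
        have h2 : (0 : ℝ) < r := hr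
        have h3 := hppos r h2
        have h4 := hFpos r h2
        have h5 : 0 < r ^ (m + 2) * (2 * p r * F r) := by positivity
        linarith
    intro r hr
    have h1 := hmono (self_mem_Ici) (mem_Ici.mpr hr.le) hr.le
    have h2 : K 0 = 0 := by simp [hK]
    rw [h2] at h1
    by_contra hcon
    push Not at hcon
    have h3 : 0 < r ^ (m + 2) * (F r - q r) := mul_pos (pow_pos hr _) (sub_pos.mpr hcon)
    exact absurd h1 (not_le.mpr h3)
  have hp1 : ∀ r, 0 < r → p r < 1 := by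
    intro r hr
    have h1 := hFpos r hr
    have h2 : 0 ≤ ((m : ℝ) + 1) * q r := mul_nonneg (by positivity) (hqpos r).le
    have h3 : p r ^ 2 < 1 := by
      simp only [hF] at h1
      linarith
    exact (sq_lt_one_iff₀ (hppos r hr).le).mp h3
  show Tendsto p atTop (𝓝 1)
  have h1 : Tendsto (fun r : ℝ => 1 - ((m : ℝ) + 2) / r) atTop (𝓝 1) := by
    have h2 : Tendsto (fun r : ℝ => ((m : ℝ) + 2) / r) atTop (𝓝 0) :=
      tendsto_const_nhds.div_atTop tendsto_id
    simpa using h2.const_sub 1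
  refine tendsto_of_tendsto_of_tendsto_of_le_of_le' h1 tendsto_const_nhds ?_ ?_
  · filter_upwards [eventually_gt_atTop 0] with r hr
    have h3 := hG r hr
    have h4 := hp1 r hr
    have h5 := hppos r hr
    have h6 : p r ^ 2 ≤ p r := by nlinarith
    have h7 : q r = p r / r := (hpq r hr).symm
    have h8 : q r ≤ 1 / r := by
      rw [h7]
      exact div_le_div_of_nonneg_right h4.le hr.le
    have h9 : ((m : ℝ) + 2) / r = ((m : ℝ) + 2) * (1 / r) := by ring
    have h10 : ((m : ℝ) + 2) * q r ≤ ((m : ℝ) + 2) * (1 / r) :=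
      mul_le_mul_of_nonneg_left h8 (by positivity)
    simp only [hF] at h3
    rw [h9]
    linarith
  · filter_upwards [eventually_gt_atTop 0] with r hr
    exact (hp1 r hr).le

theorem je_ivt (n : ℕ) (hn : 2 ≤ n) (R A : ℝ) (hR : 0 < R) (hA : 0 < A) (W W1 W2 : ℝ → ℝ)
    (hW : ∀ x, HasDerivAt W (W1 x) x) (hW1 : ∀ x, HasDerivAt W1 (W2 x) x)
    (hode : ∀ x, 4 * x * W2 x + 2 * (n : ℝ) * W1 x = W x)
    (hWge : ∀ x, 0 ≤ x → 1 ≤ W x) (hW1pos : ∀ x, 0 ≤ x → 0 < W1 x)
    (hW1le : ∀ x, 0 ≤ x → 2 * (n : ℝ) * W1 x ≤ W x) :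
    ∃ k : ℝ, 0 < k ∧ 2 * k ^ 2 * R * W1 (k ^ 2 * R ^ 2) = A * W (k ^ 2 * R ^ 2) := by
  obtain ⟨m, rfl⟩ : ∃ m, n = m + 2 := ⟨n - 2, by omega⟩
  have hN : ((m + 2 : ℕ) : ℝ) = (m : ℝ) + 2 := by push_cast; ring
  rw [hN] at hode hW1le
  have hlim := je_profile m W W1 W2 hW hW1 hode hWge hW1pos hW1le
  have hWc : Continuous W := continuous_iff_continuousAt.mpr fun x => (hW x).continuousAt
  have hW1c : Continuous W1 := continuous_iff_continuousAt.mpr fun x => (hW1 x).continuousAt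
  set g : ℝ → ℝ := fun k => 2 * k ^ 2 * R * W1 (k ^ 2 * R ^ 2) - A * W (k ^ 2 * R ^ 2) with hg
  have hgc : Continuous g := by
    have h1 : Continuous fun k : ℝ => k ^ 2 * R ^ 2 := by fun_prop
    have h2 := hWc.comp h1
    have h3 := hW1c.comp h1
    have h4 : Continuous fun k : ℝ => 2 * k ^ 2 * R := by fun_prop
    exact (h4.mul h3).sub (continuous_const.mul h2)
  have hg0 : g 0 < 0 := by
    have h1 := hWge 0 le_rfl
    simp only [hg]
    have : A * W (0 ^ 2 * R ^ 2) = A * W 0 := by norm_num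
    rw [this]
    have : 0 < A * W 0 := mul_pos hA (by linarith)
    norm_num
    linarith
  have hev : ∀ᶠ r : ℝ in atTop, (1 / 2 : ℝ) < r * (2 * W1 (r ^ 2) / W (r ^ 2)) :=
    hlim.eventually_const_lt (by norm_num)
  obtain ⟨r, hr1, hr2⟩ := (hev.and (eventually_ge_atTop (max 1 (2 * A * R + 1)))).exists
  have hr3 : 0 < r := lt_of_lt_of_le one_pos ((le_max_left _ _).trans hr2)
  have hr4 : 2 * A * R < r := lt_of_lt_of_le (by linarith) ((le_max_right _ _).trans hr2)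
  set k0 : ℝ := r / R with hk0
  have hk0pos : 0 < k0 := div_pos hr3 hR
  have hk0r : k0 ^ 2 * R ^ 2 = r ^ 2 := by
    rw [hk0]; field_simp
  have hgk : 0 < g k0 := by
    simp only [hg]
    rw [hk0r]
    have h1 : 0 < W (r ^ 2) := lt_of_lt_of_le one_pos (hWge _ (sq_nonneg r))
    have h2 : r * (2 * W1 (r ^ 2) / W (r ^ 2)) = 2 * r * W1 (r ^ 2) / W (r ^ 2) := by ring
    rw [h2, lt_div_iff₀ h1] at hr1
    have h3 : 2 * k0 ^ 2 * R * W1 (r ^ 2) = k0 * (2 * r * W1 (r ^ 2)) := by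
      rw [hk0]; field_simp
    have h4 : A < k0 * (1 / 2) := by
      rw [hk0, div_mul_eq_mul_div, lt_div_iff₀ hR]
      linarith
    rw [h3]
    have h5 : k0 * (1 / 2 * W (r ^ 2)) < k0 * (2 * r * W1 (r ^ 2)) :=
      mul_lt_mul_of_pos_left hr1 hk0pos
    have h6 : A * W (r ^ 2) < k0 * (1 / 2) * W (r ^ 2) := mul_lt_mul_of_pos_right h4 h1
    linarith
  have hivt := intermediate_value_Ioo hk0pos.le hgc.continuousOn
  obtain ⟨k, hk, hk2⟩ := hivt ⟨hg0, hgk⟩
  exact ⟨k, hk.1, by simpa [hg, sub_eq_zero] using hk2⟩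

/-- the derivative of x ↦ F (k² ‖x‖²) -/
theorem je_fderiv {n : ℕ} (F F1 : ℝ → ℝ) (hF : ∀ x, HasDerivAt F (F1 x) x) (k : ℝ) (x : E n) :
    HasFDerivAt (fun y : E n => F (k ^ 2 * ‖y‖ ^ 2))
      ((2 * k ^ 2 * F1 (k ^ 2 * ‖x‖ ^ 2)) • innerSL ℝ x) x := by
  have h1 : HasFDerivAt (fun y : E n => k ^ 2 * ‖y‖ ^ 2) ((k ^ 2) • (2 • innerSL ℝ x)) x :=
    ((hasStrictFDerivAt_norm_sq x).hasFDerivAt).const_mul (k ^ 2)
  have h2 := (hF (k ^ 2 * ‖x‖ ^ 2)).comp_hasFDerivAt x h1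
  refine h2.congr_fderiv ?_
  ext v
  simp
  ring

/-- the Robin eigenfunction of the ball -/
theorem ball_eig (n : ℕ) (hn : 2 ≤ n) (R A : ℝ) (hR : 0 < R) (hA : 0 < A) :
    ∃ (κ : ℝ) (u : E n → ℝ), 0 < κ ∧ ContDiff ℝ 2 u ∧ (∀ x, 0 < u x) ∧
      (∀ x, dvg (gradient u) x = κ * u x) ∧
      (∀ x, ‖x‖ = R → ⟪gradient u x, R⁻¹ • x⟫_ℝ = A * u x) := by
  obtain ⟨W, W1, W2, hW2c, hW, hW1, hode, hW0, hWge, hW1pos, hW1le⟩ := jb_exists n hn
  obtain ⟨k, hk, hkA⟩ := je_ivt n hn R A hR hA W W1 W2 hW hW1 hode hWge hW1pos hW1le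
  have hgrad : gradient (fun y : E n => W (k ^ 2 * ‖y‖ ^ 2)) =
      fun x => (2 * k ^ 2 * W1 (k ^ 2 * ‖x‖ ^ 2)) • x := by
    funext x
    apply HasGradientAt.gradient
    rw [hasGradientAt_iff_hasFDerivAt]
    refine (je_fderiv W W1 hW k x).congr_fderiv ?_
    ext v
    simp
  have hWsm : ContDiff ℝ 2 W := by
    have hd : deriv W = W1 := funext fun x => (hW x).deriv
    have hd1 : deriv W1 = W2 := funext fun x => (hW1 x).deriv
    have h1 : ContDiff ℝ 1 W1 := by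
      rw [contDiff_one_iff_deriv, hd1]
      exact ⟨fun x => (hW1 x).differentiableAt, hW2c⟩
    have h2 : ContDiff ℝ (1 + 1) W := by
      rw [contDiff_succ_iff_deriv, hd]
      refine ⟨fun x => (hW x).differentiableAt, ?_, h1⟩
      intro h
      exact absurd h (by decide)
    simpa [one_add_one_eq_two] using h2
  refine ⟨k ^ 2, fun y : E n => W (k ^ 2 * ‖y‖ ^ 2), by positivity, ?_, ?_, ?_, ?_⟩
  · have h1 : ContDiff ℝ 2 (fun y : E n => k ^ 2 * ‖y‖ ^ 2) :=
      contDiff_const.mul (contDiff_norm_sq ℝ)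
    exact hWsm.comp h1
  · intro x
    exact lt_of_lt_of_le one_pos (hWge _ (by positivity))
  · intro x
    rw [hgrad]
    have h1 : HasFDerivAt (fun y : E n => 2 * k ^ 2 * W1 (k ^ 2 * ‖y‖ ^ 2))
        ((2 * k ^ 2) • ((2 * k ^ 2 * W2 (k ^ 2 * ‖x‖ ^ 2)) • innerSL ℝ x)) x :=
      (je_fderiv W1 W2 hW1 k x).const_mul (2 * k ^ 2)
    have h2 := h1.smul (hasFDerivAt_id x)
    have h3 : fderiv ℝ (fun y : E n => (2 * k ^ 2 * W1 (k ^ 2 * ‖y‖ ^ 2)) • y) x = _ :=
      h2.fderiv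
    unfold dvg
    rw [h3]
    have hsum : ∑ i : Fin n, x i * x i = ‖x‖ ^ 2 := by
      rw [EuclideanSpace.norm_sq_eq]
      refine Finset.sum_congr rfl fun i _ => ?_
      rw [Real.norm_eq_abs, sq_abs, sq]
    have h4 : ∀ i : Fin n, ((((2 * k ^ 2 * W1 (k ^ 2 * ‖x‖ ^ 2)) • ContinuousLinearMap.id ℝ (E n) +
        ((2 * k ^ 2) • ((2 * k ^ 2 * W2 (k ^ 2 * ‖x‖ ^ 2)) • innerSL ℝ x)).smulRight x)
        (EuclideanSpace.single i 1)) : E n) i =
        2 * k ^ 2 * W1 (k ^ 2 * ‖x‖ ^ 2) + 4 * k ^ 4 * W2 (k ^ 2 * ‖x‖ ^ 2) * (x i * x i) := by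
      intro i
      simp [EuclideanSpace.inner_single_right]
      ring
    refine (Finset.sum_congr rfl fun i _ => h4 i).trans ?_
    rw [Finset.sum_add_distrib, Finset.sum_const, Finset.card_univ,
      Fintype.card_fin, nsmul_eq_mul, ← Finset.mul_sum, hsum]
    show _ = k ^ 2 * W (k ^ 2 * ‖x‖ ^ 2)
    have h5 := hode (k ^ 2 * ‖x‖ ^ 2)
    rw [← h5]
    ring
  · intro x hx
    rw [hgrad]
    simp only [inner_smul_left, inner_smul_right, real_inner_self_eq_norm_sq, hx]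
    rw [← hkA]
    simp
    field_simp

end Pool.Agent.Helper876.JE
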