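import Mathlib

/-!
# The Robin problem: definitions
-/

set_option autoImplicit false

open MeasureTheory Set Metric Filter Topology
open scoped ENNReal NNReal InnerProductSpace

namespace Pool.Agent.Helper876.Rob

/-- Euclidean space `ℝ^n`. -/
abbrev E (n : ℕ) := EuclideanSpace ℝ (Fin n)

/-- The divergence of a vector field. -/
noncomputable def dvg {n : ℕ} (X : E n → E n) (x : E n) : ℝ :=
  ∑ i : Fin n, (fderiv ℝ X x (EuclideanSpace.single i 1)) i

/-- The surface measure on `ℝ^n`: the `(n-1)`-dimensional Hausdorff measure in its Euclidean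
normalisation. -/
noncomputable def surf (n : ℕ) : Measure (E n) := μHE[n - 1]

/-- The Rayleigh quotient of the Robin problem with parameter `α` on `Ω`. -/
noncomputable def rayleigh {n : ℕ} (Ω : Set (E n)) (α : ℝ) (u : E n → ℝ) : ℝ :=
  ((∫ x in Ω, ‖fderiv ℝ u x‖ ^ 2) + α * ∫ x in frontier Ω, u x ^ 2 ∂(surf n)) /
    ∫ x in Ω, u x ^ 2

/-- The first Robin eigenvalue `λ₁(Ω; α)`: the infimum (an extended real number) of the Rayleigh
quotient over the functions `u` of class `C¹` on `ℝ^n` which do not vanish identically on `Ω`. -/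
noncomputable def lam1 {n : ℕ} (Ω : Set (E n)) (α : ℝ) : EReal :=
  ⨅ u : {u : E n → ℝ // ContDiff ℝ 1 u ∧ 0 < ∫ x in Ω, u x ^ 2}, ((rayleigh Ω α u.1 : ℝ) : EReal)

/-- `Ω` is a bounded domain of `ℝ^n` with outer unit normal field `ν` on its boundary, for which
the Gauss-Green formula holds, and which is the interior of its closure. -/
structure IsRegularDomain {n : ℕ} (Ω : Set (E n)) (ν : E n → E n) : Prop where
  isOpen : IsOpen Ω
  isConnected : IsConnected Ω
  isBounded : Bornology.IsBounded Ω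
  interior_closure : interior (closure Ω) = Ω
  surf_finite : surf n (frontier Ω) < ⊤
  norm_normal : ∀ x ∈ frontier Ω, ‖ν x‖ = 1
  normal_meas : AEStronglyMeasurable ν ((surf n).restrict (frontier Ω))
  inward : ∀ x ∈ frontier Ω, ∀ᶠ t in 𝓝[>] (0 : ℝ), x - t • ν x ∈ Ω
  gauss_green : ∀ X : E n → E n, ContDiff ℝ 1 X →
    ∫ x in Ω, dvg X x = ∫ x in frontier Ω, ⟪X x, ν x⟫_ℝ ∂(surf n)

/-- `u` is a positive classical solution of `-Δu = lam u` in `Ω`, `∂_ν u + α u = 0` on `∂Ω`, of
class `C²` up to the boundary. -/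
structure IsPositiveEigenfunction {n : ℕ} (Ω : Set (E n)) (ν : E n → E n) (α lam : ℝ)
    (u : E n → ℝ) : Prop where
  contDiff : ContDiff ℝ 2 u
  pos : ∀ x ∈ closure Ω, 0 < u x
  pde : ∀ x ∈ Ω, - dvg (gradient u) x = lam * u x
  bc : ∀ x ∈ frontier Ω, ⟪gradient u x, ν x⟫_ℝ + α * u x = 0

/-- `g` is a defining function of the bounded domain `Ω` with boundary of class `C¹`: `g` is of
class `C¹` on `ℝ^n`, `Ω = {g < 0}` is bounded and connected, and `∇g ≠ 0` where `g = 0`. -/
structure IsDefiningFunction {n : ℕ} (Ω : Set (E n)) (g : E n → ℝ) : Prop where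
  contDiff : ContDiff ℝ 1 g
  eq : Ω = {x | g x < 0}
  gradient_ne : ∀ x, g x = 0 → gradient g x ≠ 0
  isBounded : Bornology.IsBounded Ω
  isConnected : IsConnected Ω

/-- The outer unit normal `∇g / |∇g|` of the domain `{g < 0}`. -/
noncomputable def outerNormal {n : ℕ} (g : E n → ℝ) (x : E n) : E n :=
  ‖gradient g x‖⁻¹ • gradient g x

/-- `Ω` is a bounded domain with boundary of class `C¹` which has a positive first Robin
eigenfunction of class `C²` up to the boundary, for the eigenvalue `lam`. -/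
def HasC2Eigenfunction {n : ℕ} (Ω : Set (E n)) (α lam : ℝ) : Prop :=
  ∃ g u : E n → ℝ, IsDefiningFunction Ω g ∧ IsPositiveEigenfunction Ω (outerNormal g) α lam u

/-- `φ` is the profile of the positive radial Robin eigenfunction `φ(|x|)` of the ball of radius
`R`, for the eigenvalue `-κ`; `φ'` is its derivative. -/
structure IsRadialEigenfunction (n : ℕ) (R α κ : ℝ) (φ φ' : ℝ → ℝ) : Prop where
  pos : ∀ r ∈ Icc 0 R, 0 < φ r
  cont : ContinuousOn φ (Icc 0 R)
  deriv : ∀ r ∈ Ioc 0 R, HasDerivAt φ (φ' r) r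
  ode : ∀ r ∈ Ioc 0 R, HasDerivAt φ' (κ * φ r - ((n : ℝ) - 1) / r * φ' r) r
  origin : Tendsto φ' (𝓝[>] 0) (𝓝 0)
  bc : φ' R = -α * φ R

end Pool.Agent.Helper876.Rob
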