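import Mathlib
import Pool.Agent.Helper88.Weyl.SetStab

set_option autoImplicit false

open MeasureTheory Set Metric Filter Topology
open scoped ENNReal NNReal

namespace Pool.Agent.Helper876.JI

/-- Euclidean space -/
abbrev E (n : ℕ) := EuclideanSpace ℝ (Fin n)

lemma ji_ball {n : ℕ} (hn : 1 ≤ n) (x : E n) {r : ℝ} (hr : 0 ≤ r) :
    volume.real (ball x r) = r ^ n * Pool.Agent.Helper88.Weyl.om n :=
  Pool.Agent.Helper88.Weyl.vol_ball (by simp) hn x hr

lemma ji_symm {n : ℕ} (hn : 1 ≤ n) (v w : E n) {R : ℝ} (hR : 0 < R) (hd : dist v w < R) :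
    volume.real (symmDiff (ball v R) (ball w R)) ≤
      (R + dist v w) ^ n * Pool.Agent.Helper88.Weyl.om n -
        (R - dist v w) ^ n * Pool.Agent.Helper88.Weyl.om n := by
  have h0 : (0 : ℝ) ≤ dist v w := dist_nonneg
  rw [← ji_ball hn w (by linarith : (0 : ℝ) ≤ R + dist v w),
    ← ji_ball hn w (by linarith : (0 : ℝ) ≤ R - dist v w)]
  rw [← measureReal_sdiff (ball_subset_ball (by linarith)) measurableSet_ball]
  refine measureReal_mono ?_ ?_
  · intro x hx
    have hx1 : dist v x ≤ dist v w + dist w x := dist_triangle _ _ _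
    have hx2 : dist w x ≤ dist w v + dist v x := dist_triangle _ _ _
    rw [dist_comm w v] at hx2
    rcases hx with ⟨h1, h2⟩ | ⟨h1, h2⟩
    · rw [mem_ball, dist_comm] at h1 h2
      refine ⟨?_, ?_⟩
      · rw [mem_ball, dist_comm]
        linarith
      · rw [mem_ball, dist_comm]
        linarith
    · rw [mem_ball, dist_comm] at h1 h2
      refine ⟨?_, ?_⟩
      · rw [mem_ball, dist_comm]
        linarith
      · rw [mem_ball, dist_comm]
        linarith
  · exact ne_top_of_le_ne_top measure_ball_lt_top.ne (measure_mono sdiff_subset)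

theorem ball_of_per (n : ℕ) (hn : 2 ≤ n) (Ω : Set (E n)) (hΩ : IsOpen Ω) (hb : Bornology.IsBounded Ω)
    (hint : interior (closure Ω) = Ω) (R : ℝ) (hR : 0 < R)
    (hv : volume.real Ω = volume.real (ball (0 : E n) R))
    (hper : Pool.Agent.Helper88.Weyl.perimeter Ω ≤
      ENNReal.ofReal (n * volume.real (ball (0 : E n) 1) * R ^ (n - 1))) :
    ∃ c : E n, Ω = ball c R := by
  obtain ⟨m, rfl⟩ : ∃ m, n = m + 1 := ⟨n - 1, by omega⟩
  have hn1 : 1 ≤ m + 1 := by omega
  set ω := Pool.Agent.Helper88.Weyl.om (m + 1) with hω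
  have hωpos : 0 < ω := Pool.Agent.Helper88.Weyl.om_pos _
  rw [ji_ball hn1 0 (by norm_num : (0 : ℝ) ≤ 1), one_pow, one_mul, Nat.add_sub_cancel] at hper
  rw [ji_ball hn1 0 hR.le] at hv
  have hfin : volume Ω ≠ ⊤ := hb.measure_lt_top.ne
  have hst : ∀ δ : ℝ, 0 < δ → ∃ w : E (m + 1), volume.real (symmDiff Ω (ball w R)) ≤ δ := by
    intro δ hδ
    have h := Pool.Agent.Helper88.Weyl.set_stab (n := m) (by omega) hR (E := fun _ => Ω)
      (fun _ => hΩ.measurableSet.nullMeasurableSet) (fun _ => hfin)
      (fun _ => by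
        have h1 := hper
        push_cast at h1
        exact h1)
      (by rw [hv, mul_comm]; exact tendsto_const_nhds) hδ
    obtain ⟨k, w, hk⟩ := h.exists
    exact ⟨w, hk⟩
  choose! w hw using hst
  set P : ℝ := R ^ (m + 1) * ω with hP
  have hPpos : 0 < P := by positivity
  obtain ⟨k₀, hk₀⟩ := exists_nat_one_div_lt hPpos
  set v : ℕ → E (m + 1) := fun k => w (1 / ((k + k₀ : ℕ) + 1 : ℝ)) with hvdef
  have hv1 : ∀ k, volume.real (symmDiff Ω (ball (v k) R)) ≤ 1 / ((k + k₀ : ℕ) + 1 : ℝ) :=
    fun k => hw _ (by positivity)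
  obtain ⟨B, hB⟩ := hb.subset_closedBall (0 : E (m + 1))
  have hbd : ∀ k, v k ∈ closedBall (0 : E (m + 1)) (B + R) := by
    intro k
    by_contra hcon
    have hdisj : Disjoint Ω (ball (v k) R) := by
      rw [Set.disjoint_left]
      intro x hx1 hx2
      apply hcon
      have h1 := hB hx1
      rw [mem_closedBall] at h1 ⊢
      rw [mem_ball, dist_comm] at hx2
      have := dist_triangle (v k) x 0
      linarith
    have h1 := hv1 k
    have h2 : volume.real Ω ≤ volume.real (symmDiff Ω (ball (v k) R)) := by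
      refine measureReal_mono ?_ ?_
      · intro x hx
        exact Or.inl ⟨hx, fun h => Set.disjoint_left.1 hdisj hx h⟩
      · refine ne_top_of_le_ne_top ?_ (measure_mono (Set.symmDiff_subset_union))
        exact (measure_union_lt_top hfin.lt_top measure_ball_lt_top).ne
    rw [hv] at h2
    have h3 : 1 / ((k + k₀ : ℕ) + 1 : ℝ) ≤ 1 / ((k₀ : ℝ) + 1) := by
      apply one_div_le_one_div_of_le (by positivity)
      push_cast
      have : (0 : ℝ) ≤ k := Nat.cast_nonneg k
      linarith
    linarith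
  obtain ⟨c, -, φ, hφ, hc⟩ := (isCompact_closedBall (0 : E (m + 1)) (B + R)).tendsto_subseq hbd
  have hd : Tendsto (fun k => dist (v (φ k)) c) atTop (𝓝 0) := by
    have := hc.dist (tendsto_const_nhds (x := c))
    simpa using this
  have hlim : Tendsto (fun k => 1 / ((φ k + k₀ : ℕ) + 1 : ℝ) +
      ((R + dist (v (φ k)) c) ^ (m + 1) * ω - (R - dist (v (φ k)) c) ^ (m + 1) * ω)) atTop (𝓝 0) := by
    have h1 : Tendsto (fun k : ℕ => 1 / ((φ k + k₀ : ℕ) + 1 : ℝ)) atTop (𝓝 0) := by
      have h2 := (tendsto_one_div_add_atTop_nhds_zero_nat (𝕜 := ℝ)).comp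
        ((tendsto_add_atTop_nat k₀).comp hφ.tendsto_atTop)
      refine h2.congr fun k => ?_
      simp only [Function.comp]
    have h2 : Tendsto (fun k => (R + dist (v (φ k)) c) ^ (m + 1) * ω -
        (R - dist (v (φ k)) c) ^ (m + 1) * ω) atTop (𝓝 ((R + 0) ^ (m + 1) * ω -
          (R - 0) ^ (m + 1) * ω)) :=
      (((hd.const_add R).pow (m + 1)).mul_const ω).sub (((hd.const_sub R).pow (m + 1)).mul_const ω)
    have h3 := h1.add h2
    simpa using h3
  have hev : ∀ᶠ k in atTop, dist (v (φ k)) c < R := hd.eventually (gt_mem_nhds hR)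
  have hle : volume.real (symmDiff Ω (ball c R)) ≤ 0 := by
    refine ge_of_tendsto hlim ?_
    filter_upwards [hev] with k hk
    have h1 := hv1 (φ k)
    have h2 := ji_symm hn1 (v (φ k)) c hR hk
    have h3 : volume.real (symmDiff Ω (ball c R)) ≤
        volume.real (symmDiff Ω (ball (v (φ k)) R)) +
          volume.real (symmDiff (ball (v (φ k)) R) (ball c R)) := by
      refine (measureReal_mono (s₂ := symmDiff Ω (ball (v (φ k)) R) ∪
        symmDiff (ball (v (φ k)) R) (ball c R)) ?_ ?_).trans (measureReal_union_le _ _)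
      · exact symmDiff_triangle _ _ _
      · refine (measure_union_lt_top ?_ ?_).ne
        · exact lt_of_le_of_lt (measure_mono Set.symmDiff_subset_union)
            (measure_union_lt_top hfin.lt_top measure_ball_lt_top)
        · exact lt_of_le_of_lt (measure_mono Set.symmDiff_subset_union)
            (measure_union_lt_top measure_ball_lt_top measure_ball_lt_top)
    linarith
  have hfin2 : volume (symmDiff Ω (ball c R)) ≠ ⊤ :=
    (lt_of_le_of_lt (measure_mono Set.symmDiff_subset_union)
      (measure_union_lt_top hfin.lt_top measure_ball_lt_top)).ne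
  have hz : volume (symmDiff Ω (ball c R)) = 0 := by
    have h1 : volume.real (symmDiff Ω (ball c R)) = 0 := le_antisymm hle measureReal_nonneg
    rwa [measureReal_eq_zero_iff hfin2] at h1
  refine ⟨c, Subset.antisymm ?_ ?_⟩
  · have h1 : Ω \ closedBall c R = ∅ := by
      rw [← (hΩ.sdiff isClosed_closedBall).measure_eq_zero_iff volume]
      refine measure_mono_null ?_ hz
      intro x hx
      exact Or.inl ⟨hx.1, fun h => hx.2 (ball_subset_closedBall h)⟩
    have h2 : Ω ⊆ closedBall c R := sdiff_eq_empty.1 h1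
    have h3 : Ω ⊆ interior (closedBall c R) := interior_maximal h2 hΩ
    rwa [interior_closedBall c hR.ne'] at h3
  · have h1 : ball c R \ closure Ω = ∅ := by
      rw [← (isOpen_ball.sdiff isClosed_closure).measure_eq_zero_iff volume]
      refine measure_mono_null ?_ hz
      intro x hx
      exact Or.inr ⟨hx.1, fun h => hx.2 (subset_closure h)⟩
    have h2 : ball c R ⊆ closure Ω := sdiff_eq_empty.1 h1
    have h3 : ball c R ⊆ interior (closure Ω) := interior_maximal h2 isOpen_ball
    rwa [hint] at h3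

end Pool.Agent.Helper876.JI
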