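import Pool.Agent.Helper876_Robin.Defs
import Pool.Agent.Helper876_Robin.JIso
import Pool.Agent.Helper88.Weyl.SetStab

/-!
# The isoperimetric inequality for regular domains
-/

set_option autoImplicit false

open MeasureTheory Set Metric Filter Topology
open scoped ENNReal NNReal InnerProductSpace

namespace Pool.Agent.Helper876.Rob

theorem continuous_dvg' {n : ℕ} {V : E n → E n} (hV : ContDiff ℝ 1 V) : Continuous (dvg V) := by
  unfold dvg
  refine continuous_finsetSum _ fun i _ => ?_
  have h1 : Continuous fun x => fderiv ℝ V x (EuclideanSpace.single i 1) :=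
    (hV.continuous_fderiv one_ne_zero).clm_apply continuous_const
  exact (EuclideanSpace.proj (𝕜 := ℝ) i).continuous.comp h1

/-- The perimeter of a regular domain is at most the surface measure of its boundary. -/
theorem per_le {n : ℕ} {Ω : Set (E n)} {ν : E n → E n} (hΩ : IsRegularDomain Ω ν) :
    Pool.Agent.Helper88.Weyl.perimeter Ω ≤ ENNReal.ofReal (surf n (frontier Ω)).toReal := by
  unfold Pool.Agent.Helper88.Weyl.perimeter
  refine iSup_le fun T => iSup_le fun hT => iSup_le fun _ => iSup_le fun hT1 => ?_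
  apply ENNReal.ofReal_le_ofReal
  have h1 := hΩ.gauss_green T hT
  have h2 : ∫ x in Ω, Pool.Agent.Helper88.Weyl.dvg T x = ∫ x in Ω, dvg T x := rfl
  rw [h2, h1]
  have hfin : IsFiniteMeasure ((surf n).restrict (frontier Ω)) :=
    ⟨by rw [Measure.restrict_apply_univ]; exact hΩ.surf_finite⟩
  have h3 : ∫ _ in frontier Ω, (1:ℝ) ∂(surf n) = (surf n (frontier Ω)).toReal := by
    rw [setIntegral_const, smul_eq_mul, mul_one]
    rfl
  rw [← h3]
  have hle : ∀ x ∈ frontier Ω, ‖⟪T x, ν x⟫_ℝ‖ ≤ 1 := by
    intro x hx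
    refine (norm_inner_le_norm _ _).trans ?_
    rw [hΩ.norm_normal x hx, mul_one]
    exact hT1 x
  refine setIntegral_mono_on ?_ (integrable_const _) isClosed_frontier.measurableSet fun x hx => ?_
  · refine Integrable.mono' (integrable_const 1) ?_ ?_
    · exact (hT.continuous.aestronglyMeasurable).inner hΩ.normal_meas
    · exact (ae_restrict_iff' isClosed_frontier.measurableSet).mpr
        (Eventually.of_forall fun x hx => hle x hx)
  · exact (le_abs_self _).trans (hle x hx)

theorem vol_ball_eq {n : ℕ} (hn : 2 ≤ n) {R : ℝ} (hR : 0 < R) (c : E n) :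
    volume.real (ball c R) = volume.real (ball (0 : E n) 1) * R ^ n := by
  have h1 := Pool.Agent.Helper88.Weyl.vol_ball (V := E n) (n := n) (by simp) (by omega) c hR.le
  have h2 := Pool.Agent.Helper88.Weyl.vol_ball (V := E n) (n := n) (by simp) (by omega) 0
    (zero_le_one (α := ℝ))
  rw [h1, h2]
  ring

theorem vol_one_pos {n : ℕ} : 0 < volume.real (ball (0 : E n) 1) := by
  rw [measureReal_def]
  exact ENNReal.toReal_pos (measure_ball_pos _ _ one_pos).ne' measure_ball_lt_top.ne

/-- The isoperimetric inequality. -/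
theorem isoper_ball {n : ℕ} (hn : 2 ≤ n) {Ω : Set (E n)} {ν : E n → E n}
    (hΩ : IsRegularDomain Ω ν) {R : ℝ} (hR : 0 < R)
    (hv : volume.real Ω = volume.real (ball (0 : E n) R)) :
    n * volume.real (ball (0 : E n) 1) * R ^ (n - 1) ≤ (surf n (frontier Ω)).toReal := by
  have hω := vol_one_pos (n := n)
  have hv' := vol_ball_eq hn hR (0 : E n)
  rw [hv'] at hv
  have hpos : 0 < volume.real Ω := by rw [hv]; positivity
  have h1 := Pool.Agent.Helper88.Weyl.isoper (N := n) (by omega) (E := Ω)
    hΩ.isOpen.measurableSet.nullMeasurableSet hΩ.isBounded.measure_lt_top.ne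
    ENNReal.toReal_nonneg (per_le hΩ) hpos
  have h2 : Pool.Agent.Helper88.Weyl.om n = volume.real (ball (0 : E n) 1) := by
    have := Pool.Agent.Helper88.Weyl.vol_ball (V := E n) (n := n) (by simp) (by omega) 0
      (zero_le_one (α := ℝ))
    rw [this]
    ring
  rw [h2, hv] at h1
  have h3 : volume.real (ball (0 : E n) 1) / (volume.real (ball (0 : E n) 1) * R ^ n) =
      (R⁻¹) ^ n := by
    rw [← div_div, div_self hω.ne', one_div, inv_pow]
  rw [h3, Real.pow_rpow_inv_natCast (by positivity) (by omega)] at h1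
  refine le_trans (le_of_eq ?_) h1
  obtain ⟨m, rfl⟩ : ∃ m, n = m + 1 := ⟨n - 1, by omega⟩
  rw [Nat.add_sub_cancel, pow_succ]
  field_simp

theorem ball_of_surf_le {n : ℕ} (hn : 2 ≤ n) {Ω : Set (E n)} {ν : E n → E n}
    (hΩ : IsRegularDomain Ω ν) {R : ℝ} (hR : 0 < R)
    (hv : volume.real Ω = volume.real (ball (0 : E n) R))
    (h : (surf n (frontier Ω)).toReal ≤ n * volume.real (ball (0 : E n) 1) * R ^ (n - 1)) :
    ∃ c : E n, Ω = ball c R :=
  JI.ball_of_per n hn Ω hΩ.isOpen hΩ.isBounded hΩ.interior_closure R hR hv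
    ((per_le hΩ).trans (ENNReal.ofReal_le_ofReal h))

end Pool.Agent.Helper876.Rob
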