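import Mathlib

set_option autoImplicit false

open MeasureTheory Set Metric
open scoped ENNReal NNReal

namespace Pool.Agent.Helper876.JL

/-- Euclidean space -/
abbrev E (n : ℕ) := EuclideanSpace ℝ (Fin n)

theorem polar_aux (m : ℕ) (f : E (m + 1) → ℝ) :
    ∫ z, f z = ∫ y : sphere (0 : E (m + 1)) 1 × Ioi (0 : ℝ), f ((y.2 : ℝ) • (y.1 : E (m + 1)))
      ∂((volume : Measure (E (m + 1))).toSphere.prod (.volumeIoiPow m)) := by
  have hdim : Module.finrank ℝ (E (m + 1)) - 1 = m := by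
    rw [finrank_euclideanSpace_fin]; rfl
  have h1 : ∫ z, f z = ∫ z : ({(0 : E (m + 1))}ᶜ : Set (E (m + 1))), f z.1
      ∂((volume : Measure (E (m + 1))).comap (↑)) := by
    rw [integral_subtype_comap (measurableSet_singleton _).compl fun z ↦ f z,
      restrict_compl_singleton]
  have h2 := (volume : Measure (E (m + 1))).measurePreserving_homeomorphUnitSphereProd.integral_comp
    (Homeomorph.measurableEmbedding _)
    (fun y : sphere (0 : E (m + 1)) 1 × Ioi (0 : ℝ) => f ((y.2 : ℝ) • (y.1 : E (m + 1))))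
  rw [hdim] at h2
  rw [h1, ← h2]
  congr 1
  funext z
  congr 1
  have hz : z.1 ≠ 0 := z.2
  have hz' : ‖z.1‖ ≠ 0 := norm_ne_zero_iff.2 hz
  simp [homeomorphUnitSphereProd, smul_smul, hz']

theorem polar_int (m : ℕ) (f : E (m + 1) → ℝ) (hf : Integrable f) :
    Integrable (fun y : sphere (0 : E (m + 1)) 1 × Ioi (0 : ℝ) => f ((y.2 : ℝ) • (y.1 : E (m + 1))))
      ((volume : Measure (E (m + 1))).toSphere.prod (.volumeIoiPow m)) := by
  have hdim : Module.finrank ℝ (E (m + 1)) - 1 = m := by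
    rw [finrank_euclideanSpace_fin]; rfl
  have h2 := (volume : Measure (E (m + 1))).measurePreserving_homeomorphUnitSphereProd
  rw [hdim] at h2
  rw [← h2.integrable_comp_emb (Homeomorph.measurableEmbedding _)]
  have h3 : ((fun y : sphere (0 : E (m + 1)) 1 × Ioi (0 : ℝ) => f ((y.2 : ℝ) • (y.1 : E (m + 1)))) ∘
      (homeomorphUnitSphereProd (E (m + 1)))) = fun z => f z.1 := by
    funext z
    simp only [Function.comp]
    congr 1
    have hz : z.1 ≠ 0 := z.2
    have hz' : ‖z.1‖ ≠ 0 := norm_ne_zero_iff.2 hz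
    simp [homeomorphUnitSphereProd, smul_smul, hz']
  rw [h3]
  have h4 := (integrableOn_iff_comap_subtypeVal (μ := (volume : Measure (E (m + 1)))) (f := f)
    (measurableSet_singleton (0 : E (m + 1))).compl).1 hf.integrableOn
  exact h4

theorem radial_aux (m : ℕ) (g : ℝ → ℝ) :
    ∫ r : Ioi (0 : ℝ), g (r : ℝ) ∂(Measure.volumeIoiPow m) = ∫ r in Ioi (0 : ℝ), r ^ m * g r := by
  simp only [Measure.volumeIoiPow, ENNReal.ofReal]
  rw [integral_withDensity_eq_integral_smul,
    integral_subtype_comap measurableSet_Ioi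
      fun a ↦ Real.toNNReal (a ^ m) • g a,
    setIntegral_congr_fun measurableSet_Ioi fun x hx ↦ ?_]
  · rw [NNReal.smul_def, Real.coe_toNNReal _ (pow_nonneg (le_of_lt hx) _), smul_eq_mul]
  · exact (measurable_subtype_coe.pow_const _).real_toNNReal

/-- the shell -/
def Sh (m : ℕ) (c : E (m + 1)) (a R : ℝ) : Set (E (m + 1)) := {x | a < dist x c ∧ dist x c < R}

theorem Sh_meas (m : ℕ) (c : E (m + 1)) (a R : ℝ) : MeasurableSet (Sh m c a R) :=
  (measurableSet_lt measurable_const (measurable_id.dist measurable_const)).inter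
    (measurableSet_lt (measurable_id.dist measurable_const) measurable_const)

theorem cont_int (m : ℕ) (c : E (m + 1)) (a R : ℝ) (G : E (m + 1) → ℝ) (hG : Continuous G) :
    IntegrableOn G (Sh m c a R) := by
  have h1 : IntegrableOn G (closedBall c R) :=
    hG.continuousOn.integrableOn_compact (isCompact_closedBall c R)
  exact h1.mono_set fun x hx => mem_closedBall.2 hx.2.le

theorem shell (m : ℕ) (c : E (m + 1)) (a R : ℝ) (ha : 0 ≤ a) (G : E (m + 1) → ℝ)
    (hG : Continuous G) :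
    Integrable (fun θ : sphere (0 : E (m + 1)) 1 =>
      ∫ r in Ioo a R, r ^ m * G (c + r • (θ : E (m + 1)))) (volume : Measure (E (m + 1))).toSphere ∧
    ∫ x in Sh m c a R, G x = ∫ θ : sphere (0 : E (m + 1)) 1,
      (∫ r in Ioo a R, r ^ m * G (c + r • (θ : E (m + 1)))) ∂(volume : Measure (E (m + 1))).toSphere := by
  set f : E (m + 1) → ℝ := fun z => (Sh m c a R).indicator G (c + z) with hf
  have hfi : Integrable f := by
    have h1 : Integrable ((Sh m c a R).indicator G) :=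
      (cont_int m c a R G hG).integrable_indicator (Sh_meas m c a R)
    exact h1.comp_add_left c
  have hfe : ∫ z, f z = ∫ x in Sh m c a R, G x := by
    rw [hf, integral_add_left_eq_self (fun z => (Sh m c a R).indicator G z) c,
      integral_indicator (Sh_meas m c a R)]
  have h1 := polar_int m f hfi
  have h2 := h1.integral_prod_left
  have h3 : ∀ θ : sphere (0 : E (m + 1)) 1,
      ∫ r : Ioi (0 : ℝ), f ((r : ℝ) • (θ : E (m + 1))) ∂(Measure.volumeIoiPow m) =
        ∫ r in Ioo a R, r ^ m * G (c + r • (θ : E (m + 1))) := by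
    intro θ
    rw [radial_aux m (fun r => f (r • (θ : E (m + 1))))]
    have hθ : ‖(θ : E (m + 1))‖ = 1 := by
      have := θ.2
      rwa [mem_sphere_zero_iff_norm] at this
    have e : ∀ r ∈ Ioi (0 : ℝ), r ^ m * f (r • (θ : E (m + 1))) =
        (Ioo a R).indicator (fun r => r ^ m * G (c + r • (θ : E (m + 1)))) r := by
      intro r hr
      have hr' : (0 : ℝ) < r := hr
      have hd : dist (c + r • (θ : E (m + 1))) c = r := by
        rw [dist_eq_norm, add_sub_cancel_left, norm_smul, hθ, mul_one, Real.norm_of_nonneg hr'.le]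
      by_cases h : r ∈ Ioo a R
      · rw [indicator_of_mem h, hf]
        simp only
        rw [indicator_of_mem]
        exact ⟨by rw [hd]; exact h.1, by rw [hd]; exact h.2⟩
      · rw [indicator_of_notMem h, hf]
        simp only
        rw [indicator_of_notMem, mul_zero]
        intro h'
        refine h ⟨?_, ?_⟩
        · have := h'.1; rwa [hd] at this
        · have := h'.2; rwa [hd] at this
    rw [setIntegral_congr_fun measurableSet_Ioi e, setIntegral_indicator measurableSet_Ioo]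
    congr 2
    ext r
    exact ⟨fun h => h.2, fun h => ⟨lt_of_le_of_lt ha h.1, h⟩⟩
  constructor
  · refine h2.congr (Filter.Eventually.of_forall fun θ => ?_)
    exact h3 θ
  · rw [← hfe, polar_aux m f, integral_prod _ h1]
    exact integral_congr_ae (Filter.Eventually.of_forall fun θ => h3 θ)

/-- the inequality along a ray -/
theorem ray (m : ℕ) (c : E (m + 1)) (a R : ℝ) (ha : 0 ≤ a) (hR : a < R) (p : ℝ → ℝ)
    (hp : ContinuousOn p (Icc a R)) (K : ℝ)
    (hd : ∀ r ∈ Ioo a R, ∃ p' : ℝ, HasDerivAt p p' r ∧ p' + (m : ℝ) / r * p r + p r ^ 2 ≤ K)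
    (u : E (m + 1) → ℝ) (hu : ContDiff ℝ 1 u) (θ : E (m + 1)) (hθ : ‖θ‖ = 1) :
    R ^ m * p R * u (c + R • θ) ^ 2 - a ^ m * p a * u (c + a • θ) ^ 2 ≤
      ∫ r in Ioo a R, r ^ m * (‖fderiv ℝ u (c + r • θ)‖ ^ 2 + K * u (c + r • θ) ^ 2) := by
  have hud : Differentiable ℝ u := hu.differentiable one_ne_zero
  have huc : Continuous u := hu.continuous
  have hfc : Continuous (fderiv ℝ u) := hu.continuous_fderiv one_ne_zero
  have hray : Continuous fun r : ℝ => c + r • θ := by fun_prop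
  set g : ℝ → ℝ := fun r => r ^ m * p r * u (c + r • θ) ^ 2 with hg
  set φ : ℝ → ℝ := fun r => r ^ m * (‖fderiv ℝ u (c + r • θ)‖ ^ 2 + K * u (c + r • θ) ^ 2) with hφ
  have hφc : Continuous φ := by
    have h1 : Continuous fun r : ℝ => fderiv ℝ u (c + r • θ) := hfc.comp hray
    have h2 : Continuous fun r : ℝ => u (c + r • θ) := huc.comp hray
    rw [hφ]
    fun_prop
  have hgc : ContinuousOn g (Icc a R) := by
    have h2 : Continuous fun r : ℝ => u (c + r • θ) := huc.comp hray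
    exact (((continuous_pow m).continuousOn.mul hp).mul (h2.pow 2).continuousOn)
  choose! p' hp' using hd
  have hder : ∀ r ∈ Ioo a R, HasDerivAt g
      ((m * r ^ (m - 1) * p r + r ^ m * p' r) * u (c + r • θ) ^ 2 +
        r ^ m * p r * (2 * u (c + r • θ) * fderiv ℝ u (c + r • θ) θ)) r := by
    intro r hr
    have h1 : HasDerivAt (fun r : ℝ => c + r • θ) θ r := by
      have := ((hasDerivAt_id r).smul_const θ).const_add c
      simpa using this
    have h2 : HasDerivAt (fun r : ℝ => u (c + r • θ)) (fderiv ℝ u (c + r • θ) θ) r :=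
      (hud (c + r • θ)).hasFDerivAt.comp_hasDerivAt r h1
    have h3 := ((hasDerivAt_pow m r).mul (hp' r hr).1).mul (h2.pow 2)
    have h4 : HasDerivAt g _ r := h3
    refine h4.congr_deriv ?_
    simp
  have key := intervalIntegral.sub_le_integral_of_hasDeriv_right_of_le hR.le hgc
    (fun r hr => (hder r hr).hasDerivWithinAt) (φ := φ)
    (hφc.continuousOn.integrableOn_compact isCompact_Icc) ?_
  · rw [intervalIntegral.integral_of_le hR.le, integral_Ioc_eq_integral_Ioo] at key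
    exact key
  · intro r hr
    have hr0 : 0 < r := lt_of_le_of_lt ha hr.1
    have h1 := (hp' r hr).2
    have h2 : (m : ℝ) * r ^ (m - 1) = r ^ m * ((m : ℝ) / r) := by
      cases m with
      | zero => simp
      | succ k =>
        rw [Nat.succ_sub_one, pow_succ]
        field_simp
    have h3 : |fderiv ℝ u (c + r • θ) θ| ≤ ‖fderiv ℝ u (c + r • θ)‖ := by
      have := (fderiv ℝ u (c + r • θ)).le_opNorm θ
      rwa [hθ, mul_one, Real.norm_eq_abs] at this
    have h4 : (fderiv ℝ u (c + r • θ) θ) ^ 2 ≤ ‖fderiv ℝ u (c + r • θ)‖ ^ 2 :=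
      sq_le_sq' (by linarith [neg_abs_le (fderiv ℝ u (c + r • θ) θ)]) ((le_abs_self _).trans h3)
    have h5 : 0 < r ^ m := pow_pos hr0 m
    rw [hφ]
    simp only
    rw [h2]
    set v := u (c + r • θ)
    set w := fderiv ℝ u (c + r • θ) θ
    set N := ‖fderiv ℝ u (c + r • θ)‖
    have h6 : (m / r * p r + p' r) * v ^ 2 + p r * (2 * v * w) ≤ N ^ 2 + K * v ^ 2 := by
      nlinarith [sq_nonneg (p r * v - w), sq_nonneg v]
    calc (r ^ m * (m / r) * p r + r ^ m * p' r) * v ^ 2 + r ^ m * p r * (2 * v * w)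
        = r ^ m * ((m / r * p r + p' r) * v ^ 2 + p r * (2 * v * w)) := by ring
      _ ≤ _ := mul_le_mul_of_nonneg_left h6 h5.le

theorem sph_int (m : ℕ) (c : E (m + 1)) (R : ℝ) (g : E (m + 1) → ℝ) (hg : Continuous g) :
    Integrable (fun θ : sphere (0 : E (m + 1)) 1 => g (c + R • (θ : E (m + 1))))
      (volume : Measure (E (m + 1))).toSphere := by
  have h1 : Continuous (fun θ : sphere (0 : E (m + 1)) 1 => g (c + R • (θ : E (m + 1)))) := by
    fun_prop
  exact h1.integrable_of_hasCompactSupport (HasCompactSupport.of_compactSpace _)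

theorem lb_main (m : ℕ) (c : E (m + 1)) (a R : ℝ) (ha : 0 ≤ a) (hR : a < R) (p : ℝ → ℝ)
    (hp : ContinuousOn p (Icc a R)) (K : ℝ)
    (hd : ∀ r ∈ Ioo a R, ∃ p' : ℝ, HasDerivAt p p' r ∧ p' + (m : ℝ) / r * p r + p r ^ 2 ≤ K)
    (u : E (m + 1) → ℝ) (hu : ContDiff ℝ 1 u) :
    p R * (R ^ m * ∫ θ : sphere (0 : E (m + 1)) 1, u (c + R • (θ : E (m + 1))) ^ 2
        ∂(volume : Measure (E (m + 1))).toSphere) -
      p a * (a ^ m * ∫ θ : sphere (0 : E (m + 1)) 1, u (c + a • (θ : E (m + 1))) ^ 2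
        ∂(volume : Measure (E (m + 1))).toSphere) ≤
      (∫ x in Sh m c a R, ‖fderiv ℝ u x‖ ^ 2) + K * ∫ x in Sh m c a R, u x ^ 2 := by
  have huc : Continuous u := hu.continuous
  have hfc : Continuous (fderiv ℝ u) := hu.continuous_fderiv one_ne_zero
  have hG : Continuous (fun x => ‖fderiv ℝ u x‖ ^ 2 + K * u x ^ 2) := by fun_prop
  have h1 : (∫ x in Sh m c a R, ‖fderiv ℝ u x‖ ^ 2) + K * ∫ x in Sh m c a R, u x ^ 2 =
      ∫ x in Sh m c a R, (‖fderiv ℝ u x‖ ^ 2 + K * u x ^ 2) := by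
    rw [integral_add, integral_const_mul]
    · exact cont_int m c a R _ (by fun_prop)
    · exact cont_int m c a R _ (by fun_prop)
  obtain ⟨h2, h3⟩ := shell m c a R ha _ hG
  rw [h1, h3]
  have h4 := sph_int m c R (fun x => u x ^ 2) (by fun_prop)
  have h5 := sph_int m c a (fun x => u x ^ 2) (by fun_prop)
  have h6 : p R * (R ^ m * ∫ θ : sphere (0 : E (m + 1)) 1, u (c + R • (θ : E (m + 1))) ^ 2
        ∂(volume : Measure (E (m + 1))).toSphere) -
      p a * (a ^ m * ∫ θ : sphere (0 : E (m + 1)) 1, u (c + a • (θ : E (m + 1))) ^ 2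
        ∂(volume : Measure (E (m + 1))).toSphere) =
      ∫ θ : sphere (0 : E (m + 1)) 1, (R ^ m * p R * u (c + R • (θ : E (m + 1))) ^ 2 -
        a ^ m * p a * u (c + a • (θ : E (m + 1))) ^ 2) ∂(volume : Measure (E (m + 1))).toSphere := by
    rw [integral_sub (h4.const_mul _) (h5.const_mul _), integral_const_mul, integral_const_mul]
    ring
  rw [h6]
  refine integral_mono ((h4.const_mul _).sub (h5.const_mul _)) h2 fun θ => ?_
  have hθ : ‖(θ : E (m + 1))‖ = 1 := by
    have := θ.2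
    rwa [mem_sphere_zero_iff_norm] at this
  exact ray m c a R ha hR p hp K hd u hu θ hθ

theorem lb_ball (n : ℕ) (hn : 2 ≤ n) (σ : Measure (E n))
    (hS : ∀ (c : E n) (R : ℝ), 0 < R → ∀ g : E n → ℝ, Continuous g →
      ∫ x in sphere c R, g x ∂σ =
        R ^ (n - 1) * ∫ θ : sphere (0 : E n) 1, g (c + R • (θ : E n)) ∂(volume : Measure (E n)).toSphere)
    (c : E n) (R : ℝ) (hR : 0 < R) (p : ℝ → ℝ) (hp : ContinuousOn p (Icc 0 R)) (K A : ℝ)
    (hd : ∀ r ∈ Ioo 0 R, ∃ p' : ℝ, HasDerivAt p p' r ∧ p' + ((n : ℝ) - 1) / r * p r + p r ^ 2 ≤ K)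
    (hA : A ≤ p R) (u : E n → ℝ) (hu : ContDiff ℝ 1 u) :
    A * ∫ x in sphere c R, u x ^ 2 ∂σ ≤
      (∫ x in ball c R, ‖fderiv ℝ u x‖ ^ 2) + K * ∫ x in ball c R, u x ^ 2 := by
  obtain ⟨m, rfl⟩ : ∃ m, n = m + 1 := ⟨n - 1, by omega⟩
  have huc : Continuous u := hu.continuous
  have hcast : (((m + 1 : ℕ) : ℝ) - 1) = m := by push_cast; ring
  rw [hcast] at hd
  have h1 := lb_main m c 0 R le_rfl hR p hp K hd u hu
  have h0 : (0 : ℝ) ^ m = 0 := zero_pow (by omega)
  rw [h0, zero_mul, mul_zero, sub_zero] at h1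
  have hae : (ball c R : Set (E (m + 1))) =ᵐ[volume] Sh m c 0 R := by
    have h2 : ∀ᵐ x : E (m + 1) ∂volume, x ≠ c := by
      rw [ae_iff]
      simp
    filter_upwards [h2] with x hx
    apply propext
    constructor
    · intro h
      exact ⟨dist_pos.2 hx, mem_ball.1 h⟩
    · intro h
      exact mem_ball.2 h.2
  rw [setIntegral_congr_set hae, setIntegral_congr_set hae]
  refine le_trans ?_ h1
  rw [hS c R hR (fun x => u x ^ 2) (by fun_prop)]
  rw [Nat.add_sub_cancel]
  refine mul_le_mul_of_nonneg_right hA ?_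
  exact mul_nonneg (pow_nonneg hR.le _) (integral_nonneg fun θ => sq_nonneg _)

theorem lb_shell (n : ℕ) (hn : 2 ≤ n) (σ : Measure (E n))
    (hS : ∀ (c : E n) (R : ℝ), 0 < R → ∀ g : E n → ℝ, Continuous g →
      ∫ x in sphere c R, g x ∂σ =
        R ^ (n - 1) * ∫ θ : sphere (0 : E n) 1, g (c + R • (θ : E n)) ∂(volume : Measure (E n)).toSphere)
    (c : E n) (r₁ R : ℝ) (hr : 0 < r₁) (hR : r₁ < R) (p : ℝ → ℝ) (hp : ContinuousOn p (Icc r₁ R))
    (K A : ℝ)
    (hd : ∀ r ∈ Ioo r₁ R, ∃ p' : ℝ, HasDerivAt p p' r ∧ p' + ((n : ℝ) - 1) / r * p r + p r ^ 2 ≤ K)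
    (hA : A ≤ p R) (hA1 : A ≤ - p r₁) (u : E n → ℝ) (hu : ContDiff ℝ 1 u) :
    A * ((∫ x in sphere c r₁, u x ^ 2 ∂σ) + ∫ x in sphere c R, u x ^ 2 ∂σ) ≤
      (∫ x in {x : E n | r₁ < dist x c ∧ dist x c < R}, ‖fderiv ℝ u x‖ ^ 2) +
        K * ∫ x in {x : E n | r₁ < dist x c ∧ dist x c < R}, u x ^ 2 := by
  obtain ⟨m, rfl⟩ : ∃ m, n = m + 1 := ⟨n - 1, by omega⟩
  have huc : Continuous u := hu.continuous
  have hcast : (((m + 1 : ℕ) : ℝ) - 1) = m := by push_cast; ring
  rw [hcast] at hd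
  have h1 := lb_main m c r₁ R hr.le hR p hp K hd u hu
  refine le_trans ?_ h1
  rw [hS c R (hr.trans hR) (fun x => u x ^ 2) (by fun_prop),
    hS c r₁ hr (fun x => u x ^ 2) (by fun_prop), Nat.add_sub_cancel]
  set I1 := ∫ θ : sphere (0 : E (m + 1)) 1, u (c + r₁ • (θ : E (m + 1))) ^ 2
        ∂(volume : Measure (E (m + 1))).toSphere
  set I2 := ∫ θ : sphere (0 : E (m + 1)) 1, u (c + R • (θ : E (m + 1))) ^ 2
        ∂(volume : Measure (E (m + 1))).toSphere
  have h2 : 0 ≤ r₁ ^ m * I1 :=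
    mul_nonneg (pow_nonneg hr.le _) (integral_nonneg fun θ => sq_nonneg _)
  have h3 : 0 ≤ R ^ m * I2 :=
    mul_nonneg (pow_nonneg (hr.trans hR).le _) (integral_nonneg fun θ => sq_nonneg _)
  have h4 := mul_le_mul_of_nonneg_right hA h3
  have h5 := mul_le_mul_of_nonneg_right hA1 h2
  linarith

end Pool.Agent.Helper876.JL
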