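import Mathlib
import Pool.Agent.W533.Iso.Sphere

set_option autoImplicit false

open MeasureTheory Set Metric
open scoped ENNReal NNReal

namespace Pool.Agent.Helper876.JS

/-- Euclidean space -/
abbrev E (n : ℕ) := EuclideanSpace ℝ (Fin n)

section aux

open Module
open scoped Pointwise RealInnerProductSpace
open Pool.Agent.W533.Iso (cone measurableSet_cone patch_le)

variable {V : Type*} [NormedAddCommGroup V] [InnerProductSpace ℝ V]

/-- the Lipschitz constant of the central projection of a small patch to the tangent plane -/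
noncomputable def js_K (c : ℝ) : ℝ := √((2 - 2 * c) / c ^ 4 + 1 / c ^ 2)

theorem js_lip {p x y : V} (hp : ‖p‖ = 1) (hx : ‖x‖ = 1) (hy : ‖y‖ = 1) {c : ℝ} (hc : 0 < c)
    (hc1 : c ≤ 1) (hpx : c ≤ ⟪p, x⟫) (hpy : c ≤ ⟪p, y⟫) :
    ‖(⟪p, x⟫)⁻¹ • x - (⟪p, y⟫)⁻¹ • y‖ ≤ js_K c * ‖x - y‖ := by
  have ha : 0 < ⟪p, x⟫ := hc.trans_le hpx
  have hb : 0 < ⟪p, y⟫ := hc.trans_le hpy
  set a := ⟪p, x⟫ with had
  set b := ⟪p, y⟫ with hbd
  have hpn : ∀ z : V, ‖z‖ = 1 → ‖p - z‖ ^ 2 = 2 - 2 * ⟪p, z⟫ := by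
    intro z hz
    rw [@norm_sub_sq_real, hp, hz]; ring
  have hxy : ‖x - y‖ ^ 2 = 2 - 2 * ⟪x, y⟫ := by
    rw [@norm_sub_sq_real, hx, hy]; ring
  -- the difference of the heights
  have hab : (a - b) ^ 2 ≤ (2 - 2 * c) * ‖x - y‖ ^ 2 := by
    have e1 : a - b = ⟪p - (1 / 2 : ℝ) • (x + y), x - y⟫ := by
      rw [inner_sub_left, real_inner_smul_left, inner_sub_right, inner_sub_right, inner_add_left,
        inner_add_left, real_inner_self_eq_norm_sq, real_inner_self_eq_norm_sq, hx, hy,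
        real_inner_comm x y]
      ring
    have e2 : ‖p - (1 / 2 : ℝ) • (x + y)‖ ^ 2 ≤ 2 - 2 * c := by
      have e3 : p - (1 / 2 : ℝ) • (x + y) = (1 / 2 : ℝ) • (p - x) + (1 / 2 : ℝ) • (p - y) := by
        module
      have e4 : ‖p - (1 / 2 : ℝ) • (x + y)‖ ≤ 1 / 2 * ‖p - x‖ + 1 / 2 * ‖p - y‖ := by
        rw [e3]
        refine (norm_add_le _ _).trans ?_
        rw [norm_smul, norm_smul]
        norm_num
      have e5 := hpn x hx
      have e6 := hpn y hy
      have e7 : ‖p - x‖ ^ 2 ≤ 2 - 2 * c := by rw [e5]; linarith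
      have e8 : ‖p - y‖ ^ 2 ≤ 2 - 2 * c := by rw [e6]; linarith
      have e9 := norm_nonneg (p - (1 / 2 : ℝ) • (x + y))
      calc ‖p - (1 / 2 : ℝ) • (x + y)‖ ^ 2 ≤ (1 / 2 * ‖p - x‖ + 1 / 2 * ‖p - y‖) ^ 2 := by
            gcongr
        _ ≤ 2 - 2 * c := by nlinarith [sq_nonneg (‖p - x‖ - ‖p - y‖)]
    rw [e1, ← sq_abs]
    calc |⟪p - (1 / 2 : ℝ) • (x + y), x - y⟫| ^ 2
        ≤ (‖p - (1 / 2 : ℝ) • (x + y)‖ * ‖x - y‖) ^ 2 := by
          gcongr
          exact abs_real_inner_le_norm _ _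
      _ = ‖p - (1 / 2 : ℝ) • (x + y)‖ ^ 2 * ‖x - y‖ ^ 2 := by ring
      _ ≤ (2 - 2 * c) * ‖x - y‖ ^ 2 := by gcongr
  have hsq : ‖a⁻¹ • x - b⁻¹ • y‖ ^ 2 = (a - b) ^ 2 / (a * b) ^ 2 + ‖x - y‖ ^ 2 / (a * b) := by
    rw [@norm_sub_sq_real, norm_smul, norm_smul, real_inner_smul_left, real_inner_smul_right, hxy,
      hx, hy, norm_inv, norm_inv, Real.norm_eq_abs, Real.norm_eq_abs, abs_of_pos ha, abs_of_pos hb]
    field_simp
    ring
  have hK : 0 ≤ js_K c := Real.sqrt_nonneg _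
  have hK2 : js_K c ^ 2 = (2 - 2 * c) / c ^ 4 + 1 / c ^ 2 := by
    rw [js_K, Real.sq_sqrt]
    have : 0 ≤ 2 - 2 * c := by linarith
    positivity
  have habc : c ^ 2 ≤ a * b := by nlinarith
  rw [← pow_le_pow_iff_left₀ (norm_nonneg _) (mul_nonneg hK (norm_nonneg _)) two_ne_zero, hsq,
    mul_pow (js_K c), hK2, add_mul]
  have h0 : 0 ≤ 2 - 2 * c := by linarith
  have t1 : (a - b) ^ 2 / (a * b) ^ 2 ≤ (2 - 2 * c) / c ^ 4 * ‖x - y‖ ^ 2 := by
    calc (a - b) ^ 2 / (a * b) ^ 2 ≤ ((2 - 2 * c) * ‖x - y‖ ^ 2) / (c ^ 2) ^ 2 := by gcongr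
      _ = (2 - 2 * c) / c ^ 4 * ‖x - y‖ ^ 2 := by ring
  have t2 : ‖x - y‖ ^ 2 / (a * b) ≤ 1 / c ^ 2 * ‖x - y‖ ^ 2 := by
    calc ‖x - y‖ ^ 2 / (a * b) ≤ ‖x - y‖ ^ 2 / c ^ 2 := by gcongr
      _ = 1 / c ^ 2 * ‖x - y‖ ^ 2 := by ring
  exact add_le_add t1 t2

variable [MeasurableSpace V] [BorelSpace V] [FiniteDimensional ℝ V]

omit [InnerProductSpace ℝ V] [FiniteDimensional ℝ V] in
theorem js_lipi {n : ℕ} {f : V → V} {s : Set V} {K : ℝ≥0}
    (hf : LipschitzOnWith K f s) : μHE[n] (f '' s) ≤ (K : ℝ≥0∞) ^ n * μHE[n] s := by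
  have h := hf.hausdorffMeasure_image_le (d := (n : ℝ)) (by positivity)
  rw [ENNReal.rpow_natCast] at h
  rw [Measure.euclideanHausdorffMeasure_def, Measure.smul_apply, Measure.smul_apply,
    ENNReal.smul_def, ENNReal.smul_def, smul_eq_mul, smul_eq_mul, mul_left_comm]
  gcongr

theorem js_patch (n : ℕ) (hn : finrank ℝ V = n + 1) {p : V} (hp : ‖p‖ = 1) {c : ℝ} (hc : 0 < c)
    (hc1 : c ≤ 1) {P : Set V} (hPm : MeasurableSet P) (hP : P ⊆ sphere 0 1)
    (hPc : ∀ x ∈ P, c ≤ ⟪p, x⟫) :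
    volume (cone P) ≤ ENNReal.ofReal (js_K c ^ n / (n + 1)) * μHE[n] P := by
  have hnorm : ∀ x ∈ P, ‖x‖ = 1 := fun x hx => by simpa using hP hx
  have hK : 0 ≤ js_K c := Real.sqrt_nonneg _
  set T : Set V := (fun x => (⟪p, x⟫)⁻¹ • x) '' P with hT
  have h1 : μHE[n] T ≤ ENNReal.ofReal (js_K c ^ n) * μHE[n] P := by
    have hl : LipschitzOnWith (Real.toNNReal (js_K c)) (fun x : V => (⟪p, x⟫)⁻¹ • x) P := by
      rw [lipschitzOnWith_iff_norm_sub_le]
      intro x hx y hy
      rw [Real.coe_toNNReal _ hK]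
      exact js_lip hp (hnorm x hx) (hnorm y hy) hc hc1 (hPc x hx) (hPc y hy)
    have := js_lipi (n := n) hl
    rw [ENNReal.ofReal_pow hK]
    exact this
  have hp0 : p ≠ 0 := by
    rintro rfl
    simp at hp
  have h5 := EuclideanGeometry.euclideanHausdorffMeasure_eq_lintegral (V := V) (0 : V) hp0
    (measurableSet_cone hPm)
  rw [InnerProductSpace.euclideanHausdorffMeasure_eq_volume] at h5
  have hp1 : ‖p‖ₑ = 1 := by rw [← ofReal_norm, hp]; simp
  rw [hp1, one_mul] at h5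
  rw [h5]
  have hmem : ∀ h : ℝ, ∀ z ∈ cone P ∩ AffineSubspace.mk' (h • p +ᵥ (0 : V)) (ℝ ∙ p)ᗮ,
      h ∈ Ioo (0 : ℝ) 1 ∧ z ∈ h • T := by
    rintro h z ⟨⟨hz0, hz1, hzP⟩, hz⟩
    rw [SetLike.mem_coe, AffineSubspace.mem_mk',
      Submodule.mem_orthogonal_singleton_iff_inner_right] at hz
    simp only [vadd_eq_add, add_zero, vsub_eq_sub, inner_sub_right, real_inner_smul_right,
      real_inner_self_eq_norm_sq, hp] at hz
    have hzh : ⟪p, z⟫ = h := by linarith
    have hPz := hPc _ hzP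
    rw [real_inner_smul_right, hzh] at hPz
    have hh0 : 0 < h := by
      have h2 : 0 < ‖z‖⁻¹ * h := hc.trans_le hPz
      exact (pos_iff_pos_of_mul_pos h2).1 (inv_pos.2 hz0)
    have hh1 : h < 1 := by
      have := real_inner_le_norm p z
      rw [hp, hzh, one_mul] at this
      linarith
    refine ⟨⟨hh0, hh1⟩, ?_⟩
    refine ⟨_, ⟨_, hzP, rfl⟩, ?_⟩
    simp only [real_inner_smul_right, hzh, smul_smul]
    have : h * ((‖z‖⁻¹ * h)⁻¹ * ‖z‖⁻¹) = 1 := by field_simp
    rw [this, one_smul]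
  have h2 : ∀ h : ℝ, μHE[finrank ℝ V - 1]
      (cone P ∩ AffineSubspace.mk' (h • p +ᵥ (0 : V)) (ℝ ∙ p)ᗮ) ≤
      (Ioo (0 : ℝ) 1).indicator (fun h => ENNReal.ofReal (h ^ n) * μHE[n] T) h := by
    intro h
    by_cases hh : h ∈ Ioo (0 : ℝ) 1
    · rw [indicator_of_mem hh]
      have h4 : μHE[n] (h • T) = ENNReal.ofReal (h ^ n) * μHE[n] T := by
        rw [Measure.euclideanHausdorffMeasure_smul₀ n hh.1.ne']
        rw [ENNReal.smul_def, smul_eq_mul]
        congr 1
        have h6 : ((‖h‖₊ : ℝ≥0) : ℝ≥0∞) = ENNReal.ofReal h := by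
          rw [← enorm_eq_nnnorm, ← ofReal_norm, Real.norm_eq_abs, abs_of_pos hh.1]
        rw [ENNReal.ofReal_pow hh.1.le, ENNReal.coe_pow, h6]
      rw [← h4, hn]
      exact measure_mono fun z hz => (hmem h z hz).2
    · have : cone P ∩ AffineSubspace.mk' (h • p +ᵥ (0 : V)) (ℝ ∙ p)ᗮ = ∅ := by
        rw [Set.eq_empty_iff_forall_notMem]
        intro z hz
        exact hh (hmem h z hz).1
      rw [this]
      simp
  calc ∫⁻ h, μHE[finrank ℝ V - 1] (cone P ∩ AffineSubspace.mk' (h • p +ᵥ (0 : V)) (ℝ ∙ p)ᗮ)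
      ≤ ∫⁻ h, (Ioo (0 : ℝ) 1).indicator (fun h => ENNReal.ofReal (h ^ n) * μHE[n] T) h :=
        lintegral_mono h2
    _ = ∫⁻ h in Ioo (0 : ℝ) 1, ENNReal.ofReal (h ^ n) * μHE[n] T := by
        rw [lintegral_indicator measurableSet_Ioo]
    _ = ENNReal.ofReal (1 / (n + 1)) * μHE[n] T := by
        rw [lintegral_mul_const _ (by fun_prop)]
        congr 1
        rw [← ofReal_integral_eq_lintegral_ofReal]
        · rw [← integral_Ioc_eq_integral_Ioo,
            ← intervalIntegral.integral_of_le zero_le_one, integral_pow]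
          simp
        · exact ((continuous_pow n).integrableOn_Icc).mono_set Ioo_subset_Icc_self
        · filter_upwards [ae_restrict_mem measurableSet_Ioo] with x hx
          exact pow_nonneg hx.1.le _
    _ ≤ ENNReal.ofReal (1 / (n + 1)) * (ENNReal.ofReal (js_K c ^ n) * μHE[n] P) := by gcongr
    _ = _ := by
        rw [← mul_assoc, ← ENNReal.ofReal_mul (by positivity)]
        congr 2
        ring

theorem js_aux (n : ℕ) (hn : finrank ℝ V = n + 1) {c : ℝ} (hc : 0 < c) (hc1 : c < 1)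
    {A : Set V} (hAm : MeasurableSet A) (hA : A ⊆ sphere 0 1) :
    ENNReal.ofReal (c ^ (n + 1) / (n + 1)) * μHE[n] A ≤ volume (cone A) ∧
    volume (cone A) ≤ ENNReal.ofReal (js_K c ^ n / (n + 1)) * μHE[n] A := by
  have : Nontrivial V := Module.nontrivial_of_finrank_pos (R := ℝ) (by omega)
  have : Nonempty (sphere (0 : V) 1) := (NormedSpace.sphere_nonempty.2 zero_le_one).to_subtype
  set u : ℕ → sphere (0 : V) 1 := TopologicalSpace.denseSeq _ with hu
  set U : ℕ → Set V := fun i => {y | c < ⟪(u i : V), y⟫} with hU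
  have hUm : ∀ i, MeasurableSet (U i) := fun i =>
    measurableSet_lt measurable_const (by fun_prop)
  set P : ℕ → Set V := fun i => A ∩ disjointed U i with hP
  have hPm : ∀ i, MeasurableSet (P i) := fun i =>
    hAm.inter (MeasurableSet.disjointed hUm i)
  have hPd : Pairwise (Function.onFun Disjoint P) := by
    intro i j hij
    exact (disjoint_disjointed U hij).mono inter_subset_right inter_subset_right
  have hcover : A = ⋃ i, P i := by
    rw [hP, ← inter_iUnion, iUnion_disjointed]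
    refine (inter_eq_left.2 ?_).symm
    intro x hxA
    have hx := hA hxA
    have hopen : IsOpen {y : sphere (0 : V) 1 | c < ⟪(y : V), x⟫} :=
      isOpen_lt continuous_const (by fun_prop)
    have hne : ({y : sphere (0 : V) 1 | c < ⟪(y : V), x⟫}).Nonempty := by
      refine ⟨⟨x, hx⟩, ?_⟩
      have : ‖x‖ = 1 := by simpa using hx
      simp only [mem_ofPred_eq, real_inner_self_eq_norm_sq, this]
      simpa using hc1
    obtain ⟨i, hi⟩ := (TopologicalSpace.denseRange_denseSeq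
      (sphere (0 : V) 1)).exists_mem_open hopen hne
    exact mem_iUnion.2 ⟨i, hi⟩
  have hconed : Pairwise (Function.onFun Disjoint (fun i => cone (P i))) := by
    intro i j hij
    refine Set.disjoint_left.2 ?_
    rintro x ⟨_, _, h1⟩ ⟨_, _, h2⟩
    exact Set.disjoint_left.1 (hPd hij) h1 h2
  have hPs : ∀ i, P i ⊆ sphere 0 1 := fun i => inter_subset_left.trans hA
  have hPc : ∀ i, ∀ x ∈ P i, c ≤ ⟪(u i : V), x⟫ := by
    rintro i x ⟨_, hx⟩
    exact (disjointed_subset U i hx).le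
  have hcu : cone A = ⋃ i, cone (P i) := by
    ext x
    simp only [mem_iUnion]
    constructor
    · rintro ⟨h1, h2, h3⟩
      rw [hcover, mem_iUnion] at h3
      obtain ⟨i, hi⟩ := h3
      exact ⟨i, h1, h2, hi⟩
    · rintro ⟨i, h1, h2, h3⟩
      exact ⟨h1, h2, h3.1⟩
  have hvol : volume (cone A) = ∑' i, volume (cone (P i)) := by
    rw [hcu]
    exact measure_iUnion hconed fun i => measurableSet_cone (hPm i)
  have hμ : ∀ t : ℝ≥0∞, t * μHE[n] A = ∑' i, t * μHE[n] (P i) := by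
    intro t
    conv_lhs => rw [hcover]
    rw [measure_iUnion hPd hPm, ENNReal.tsum_mul_left]
  rw [hvol, hμ, hμ]
  constructor
  · exact ENNReal.tsum_le_tsum fun i =>
      patch_le n hn (p := (u i : V)) (by simp) hc (hPm i) (hPs i) (hPc i)
  · exact ENNReal.tsum_le_tsum fun i =>
      js_patch n hn (p := (u i : V)) (by simp) hc hc1.le (hPm i) (hPs i) (hPc i)

theorem js_cone (n : ℕ) (hn : finrank ℝ V = n + 1) {A : Set V} (hAm : MeasurableSet A)
    (hA : A ⊆ sphere 0 1) : μHE[n] A = (n + 1) * volume (cone A) := by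
  have h0 : ENNReal.ofReal ((1 : ℝ) ^ (n + 1) / (n + 1)) = (((n : ℝ≥0∞) + 1))⁻¹ := by
    rw [one_pow, one_div, ENNReal.ofReal_inv_of_pos (by positivity)]
    congr 1
    rw [ENNReal.ofReal_add (by positivity) zero_le_one]
    simp
  have h0' : ENNReal.ofReal (js_K 1 ^ n / (n + 1)) = (((n : ℝ≥0∞) + 1))⁻¹ := by
    rw [← h0]
    have : js_K 1 = 1 := by simp [js_K]
    rw [this, one_pow, one_pow]
  have h1 : Filter.Tendsto (fun c : ℝ => ENNReal.ofReal (c ^ (n + 1) / (n + 1)))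
      (nhdsWithin 1 (Iio 1)) (nhds (((n : ℝ≥0∞) + 1))⁻¹) := by
    rw [← h0]
    refine Filter.Tendsto.mono_left ?_ nhdsWithin_le_nhds
    refine (ENNReal.continuous_ofReal.comp (by fun_prop)).tendsto _
  have h1' : Filter.Tendsto (fun c : ℝ => ENNReal.ofReal (js_K c ^ n / (n + 1)))
      (nhdsWithin 1 (Iio 1)) (nhds (((n : ℝ≥0∞) + 1))⁻¹) := by
    rw [← h0']
    refine Filter.Tendsto.mono_left ?_ nhdsWithin_le_nhds
    refine (ENNReal.continuous_ofReal.tendsto _).comp ?_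
    refine Filter.Tendsto.div_const ?_ _
    refine Filter.Tendsto.pow ?_ _
    unfold js_K
    refine (Real.continuous_sqrt.tendsto _).comp ?_
    have c1 : ContinuousAt (fun c : ℝ => (2 - 2 * c) / c ^ 4 + 1 / c ^ 2) 1 := by
      apply ContinuousAt.add
      · apply ContinuousAt.div (by fun_prop) (by fun_prop) (by norm_num)
      · apply ContinuousAt.div (by fun_prop) (by fun_prop) (by norm_num)
    exact c1
  have h2 : Filter.Tendsto (fun c : ℝ => ENNReal.ofReal (c ^ (n + 1) / (n + 1)) * μHE[n] A)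
      (nhdsWithin 1 (Iio 1)) (nhds ((((n : ℝ≥0∞) + 1))⁻¹ * μHE[n] A)) :=
    ENNReal.Tendsto.mul_const h1 (Or.inl (by simp))
  have h2' : Filter.Tendsto (fun c : ℝ => ENNReal.ofReal (js_K c ^ n / (n + 1)) * μHE[n] A)
      (nhdsWithin 1 (Iio 1)) (nhds ((((n : ℝ≥0∞) + 1))⁻¹ * μHE[n] A)) :=
    ENNReal.Tendsto.mul_const h1' (Or.inl (by simp))
  have h3 : (((n : ℝ≥0∞) + 1))⁻¹ * μHE[n] A ≤ volume (cone A) := by
    refine le_of_tendsto h2 ?_
    filter_upwards [Ioo_mem_nhdsLT (show (0 : ℝ) < 1 by norm_num)] with c hc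
    exact (js_aux n hn hc.1 hc.2 hAm hA).1
  have h3' : volume (cone A) ≤ (((n : ℝ≥0∞) + 1))⁻¹ * μHE[n] A := by
    refine ge_of_tendsto h2' ?_
    filter_upwards [Ioo_mem_nhdsLT (show (0 : ℝ) < 1 by norm_num)] with c hc
    exact (js_aux n hn hc.1 hc.2 hAm hA).2
  have h4 := le_antisymm h3 h3'
  rw [← h4, ← mul_assoc, ENNReal.mul_inv_cancel (by simp) (by simp), one_mul]

theorem js_comap (n : ℕ) (hn : finrank ℝ V = n + 1) :
    (μHE[n] : Measure V).comap (Subtype.val : sphere (0 : V) 1 → V) =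
      (volume : Measure V).toSphere := by
  ext s hs
  have hms : MeasurableSet (sphere (0 : V) 1) := isClosed_sphere.measurableSet
  rw [(MeasurableEmbedding.subtype_coe hms).comap_apply, Measure.toSphere_apply' _ hs,
    js_cone n hn ((MeasurableEmbedding.subtype_coe hms).measurableSet_image.2 hs)
      (by rintro _ ⟨x, _, rfl⟩; exact x.2), hn]
  push_cast
  congr 2
  ext z
  constructor
  · rintro ⟨h0, h1, x, hx, hxz⟩
    refine ⟨‖z‖, ⟨h0, h1⟩, x, ⟨x, hx, rfl⟩, ?_⟩
    simp only [hxz, smul_smul]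
    rw [mul_inv_cancel₀ h0.ne', one_smul]
  · rintro ⟨t, ht, _, ⟨x, hx, rfl⟩, rfl⟩
    have hxn : ‖(x : V)‖ = 1 := mem_sphere_zero_iff_norm.1 x.2
    have hn' : ‖t • (x : V)‖ = t := by
      rw [norm_smul, hxn, mul_one, Real.norm_of_nonneg ht.1.le]
    refine ⟨?_, ?_, ?_⟩
    · simp only [hn']; exact ht.1
    · simp only [hn']; exact ht.2
    · simp only [hn', smul_smul]
      rw [inv_mul_cancel₀ ht.1.ne', one_smul]
      exact ⟨x, hx, rfl⟩

omit [FiniteDimensional ℝ V] in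
theorem js_restrict (n : ℕ) (c : V) {R : ℝ} (hR : 0 < R) :
    (μHE[n] : Measure V).restrict (sphere c R) =
      ENNReal.ofReal (R ^ n) • ((μHE[n] : Measure V).restrict (sphere 0 1)).map
        (fun x => c + R • x) := by
  have hφ : MeasurableEmbedding (fun x : V => c + R • x) :=
    ((Homeomorph.smulOfNeZero R hR.ne').trans (Homeomorph.addLeft c)).measurableEmbedding
  ext s hs
  rw [Measure.restrict_apply hs, Measure.smul_apply, Measure.map_apply hφ.measurable hs,
    Measure.restrict_apply (hφ.measurable hs)]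
  set X : Set V := (fun x => c + R • x) ⁻¹' s ∩ sphere 0 1 with hX
  have h1 : s ∩ sphere c R = (fun y => c + y) '' (R • X) := by
    ext z
    constructor
    · rintro ⟨hz, hzR⟩
      rw [mem_sphere, dist_eq_norm] at hzR
      refine ⟨z - c, ⟨R⁻¹ • (z - c), ⟨?_, ?_⟩, ?_⟩, ?_⟩
      · show c + R • R⁻¹ • (z - c) ∈ s
        rw [smul_smul, mul_inv_cancel₀ hR.ne', one_smul]
        simpa using hz
      · rw [mem_sphere_zero_iff_norm, norm_smul, norm_inv, Real.norm_of_nonneg hR.le, hzR,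
          inv_mul_cancel₀ hR.ne']
      · simp only [smul_smul]
        rw [mul_inv_cancel₀ hR.ne', one_smul]
      · simp
    · rintro ⟨_, ⟨x, ⟨hx, hx1⟩, rfl⟩, rfl⟩
      refine ⟨hx, ?_⟩
      rw [mem_sphere_zero_iff_norm] at hx1
      rw [mem_sphere, dist_eq_norm]
      simp only [add_sub_cancel_left]
      rw [norm_smul, hx1, mul_one, Real.norm_of_nonneg hR.le]
  have h2 : Isometry (fun y : V => c + y) := isometry_add_left c
  rw [h1, h2.euclideanHausdorffMeasure_image, Measure.euclideanHausdorffMeasure_smul₀ n hR.ne',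
    ENNReal.smul_def, smul_eq_mul, smul_eq_mul]
  have h6 : ((‖R‖₊ : ℝ≥0) : ℝ≥0∞) = ENNReal.ofReal R := by
    rw [← enorm_eq_nnnorm, ← ofReal_norm, Real.norm_eq_abs, abs_of_pos hR]
  rw [ENNReal.ofReal_pow hR.le, ENNReal.coe_pow, h6]

theorem js_unit (n : ℕ) (hn : finrank ℝ V = n + 1) :
    (μHE[n] : Measure V) (sphere 0 1) = (n + 1) * (volume : Measure V) (ball 0 1) := by
  have hms : MeasurableSet (sphere (0 : V) 1) := isClosed_sphere.measurableSet
  have h : (μHE[n] : Measure V).comap (Subtype.val : sphere (0 : V) 1 → V) univ =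
      (volume : Measure V).toSphere univ := by rw [js_comap n hn]
  rw [(MeasurableEmbedding.subtype_coe hms).comap_apply, Measure.toSphere_apply_univ, hn,
    image_univ, Subtype.range_coe] at h
  rw [h]
  push_cast
  rfl

end aux

/- PLAIN PROOF (job of helper876, MP_1b807b_an).
Translation and scaling (euclideanHausdorffMeasure_smul₀, isometries) reduce to c = 0, R = 1. For a Borel subset A of the unit sphere
μHE[n-1] A = n * volume (cone A): cut A into patches close to a point p, compare with the central projection to the tangent plane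
at p (Lipschitz constants tending to 1) and slice the cone. -/
theorem sphere_integral (n : ℕ) (hn : 2 ≤ n) (c : E n) (R : ℝ) (hR : 0 < R) (g : E n → ℝ)
    (hg : Continuous g) :
    ∫ x in sphere c R, g x ∂(μHE[n - 1] : Measure (E n)) =
      R ^ (n - 1) * ∫ θ : sphere (0 : E n) 1, g (c + R • (θ : E n)) ∂(volume : Measure (E n)).toSphere := by
  have hfr : Module.finrank ℝ (E n) = (n - 1) + 1 := by
    rw [finrank_euclideanSpace_fin]; omega
  have hms : MeasurableSet (sphere (0 : E n) 1) := isClosed_sphere.measurableSet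
  have hφ : MeasurableEmbedding (fun x : E n => c + R • x) :=
    ((Homeomorph.smulOfNeZero R hR.ne').trans (Homeomorph.addLeft c)).measurableEmbedding
  rw [js_restrict (n - 1) c hR, integral_smul_measure, hφ.integral_map,
    ENNReal.toReal_ofReal (by positivity), smul_eq_mul, ← js_comap (n - 1) hfr]
  congr 1
  exact (integral_subtype_comap hms (fun x : E n => g (c + R • x))).symm

/- total mass -/
theorem sphere_mass (n : ℕ) (hn : 2 ≤ n) (c : E n) (R : ℝ) (hR : 0 < R) :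
    (μHE[n - 1] : Measure (E n)) (sphere c R) =
      ENNReal.ofReal (R ^ (n - 1)) * (n * (volume : Measure (E n)) (ball 0 1)) := by
  have hfr : Module.finrank ℝ (E n) = (n - 1) + 1 := by
    rw [finrank_euclideanSpace_fin]; omega
  have hφ : MeasurableEmbedding (fun x : E n => c + R • x) :=
    ((Homeomorph.smulOfNeZero R hR.ne').trans (Homeomorph.addLeft c)).measurableEmbedding
  have h : (μHE[n - 1] : Measure (E n)).restrict (sphere c R) univ =
      (ENNReal.ofReal (R ^ (n - 1)) • ((μHE[n - 1] : Measure (E n)).restrict (sphere 0 1)).map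
        (fun x => c + R • x)) univ := by rw [← js_restrict (n - 1) c hR]
  rw [Measure.restrict_apply_univ, Measure.smul_apply, Measure.map_apply hφ.measurable .univ,
    preimage_univ, Measure.restrict_apply_univ, js_unit (n - 1) hfr, smul_eq_mul] at h
  rw [h]
  congr 2
  have : n = (n - 1) + 1 := by omega
  conv_rhs => rw [this]
  push_cast
  rfl

end Pool.Agent.Helper876.JS
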