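import Pool.Agent.Helper876_Robin.Main2
import Pool.Agent.Helper876_Robin.Iso
import Pool.Agent.Helper876_Robin.JLB
import Pool.Agent.Helper876_Robin.JSphere

/-!
# The first eigenvalue
-/

set_option autoImplicit false

open MeasureTheory Set Metric Filter Topology
open scoped ENNReal NNReal InnerProductSpace

namespace Pool.Agent.Helper876.Rob

theorem inner_gradient {n : ℕ} (w : E n → ℝ) (x v : E n) : ⟪gradient w x, v⟫_ℝ = fderiv ℝ w x v := by
  unfold gradient
  exact InnerProductSpace.toDual_symm_apply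

theorem norm_gradient {n : ℕ} (w : E n → ℝ) (x : E n) : ‖gradient w x‖ = ‖fderiv ℝ w x‖ := by
  unfold gradient
  exact LinearIsometryEquiv.norm_map _ _

/-- The Gauss-Green formula tested with `φ² ∇w`. -/
theorem robin_id {n : ℕ} {Ω : Set (E n)} {ν : E n → E n} (hΩ : IsRegularDomain Ω ν)
    {w : E n → ℝ} (hw : ContDiff ℝ 2 w) {κ A : ℝ}
    (hpde : ∀ x ∈ Ω, dvg (gradient w) x + ‖gradient w x‖ ^ 2 = κ)
    (hbc : ∀ x ∈ frontier Ω, ⟪gradient w x, ν x⟫_ℝ = A) {φ : E n → ℝ} (hφ : ContDiff ℝ 1 φ) :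
    ∫ x in Ω, (2 * φ x * fderiv ℝ φ x (gradient w x) + φ x ^ 2 * (κ - ‖gradient w x‖ ^ 2)) =
      A * ∫ x in frontier Ω, φ x ^ 2 ∂(surf n) := by
  have hVc : ContDiff ℝ 1 (gradient w) := contDiff_gradient (k := 1) (by exact_mod_cast hw)
  have hX : ContDiff ℝ 1 (fun x => (φ x ^ 2) • gradient w x) := (hφ.pow 2).smul hVc
  have h1 := hΩ.gauss_green _ hX
  have h2 : ∫ x in frontier Ω, ⟪(φ x ^ 2) • gradient w x, ν x⟫_ℝ ∂(surf n) =
      A * ∫ x in frontier Ω, φ x ^ 2 ∂(surf n) := by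
    rw [← integral_const_mul]
    apply setIntegral_congr_fun isClosed_frontier.measurableSet
    intro x hx
    simp only
    rw [real_inner_smul_left, hbc x hx]
    ring
  rw [← h2, ← h1]
  apply setIntegral_congr_fun hΩ.isOpen.measurableSet
  intro x hx
  simp only
  have h3 : dvg (fun x => (φ x ^ 2) • gradient w x) x =
      fderiv ℝ (fun x => φ x ^ 2) x (gradient w x) + φ x ^ 2 * dvg (gradient w) x :=
    JG.dvg_smul ((hφ.pow 2).differentiable one_ne_zero x) (hVc.differentiable one_ne_zero x)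
  rw [h3]
  have h4 : HasFDerivAt (fun x => φ x ^ 2) ((2 * φ x) • fderiv ℝ φ x) x := by
    have := (hφ.differentiable one_ne_zero x).hasFDerivAt.pow 2
    refine this.congr_fderiv ?_
    simp
  rw [h4.fderiv]
  have h5 := hpde x hx
  have h6 : dvg (gradient w) x = κ - ‖gradient w x‖ ^ 2 := by linarith
  rw [h6]
  simp

theorem cont_norm_fderiv {n : ℕ} {φ : E n → ℝ} (hφ : ContDiff ℝ 1 φ) :
    Continuous (fun x => ‖fderiv ℝ φ x‖ ^ 2) :=
  ((hφ.continuous_fderiv one_ne_zero).norm).pow 2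

theorem intOn {n : ℕ} {Ω : Set (E n)} (hb : Bornology.IsBounded Ω) {f : E n → ℝ}
    (hf : Continuous f) : IntegrableOn f Ω :=
  (hf.continuousOn.integrableOn_compact hb.isCompact_closure).mono_set subset_closure

/-- The trace inequality given by the logarithm of the eigenfunction. -/
theorem robin_ge {n : ℕ} {Ω : Set (E n)} {ν : E n → E n} (hΩ : IsRegularDomain Ω ν)
    {w : E n → ℝ} (hw : ContDiff ℝ 2 w) {κ A : ℝ}
    (hpde : ∀ x ∈ Ω, dvg (gradient w) x + ‖gradient w x‖ ^ 2 = κ)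
    (hbc : ∀ x ∈ frontier Ω, ⟪gradient w x, ν x⟫_ℝ = A) {φ : E n → ℝ} (hφ : ContDiff ℝ 1 φ) :
    A * ∫ x in frontier Ω, φ x ^ 2 ∂(surf n) ≤
      (∫ x in Ω, ‖fderiv ℝ φ x‖ ^ 2) + κ * ∫ x in Ω, φ x ^ 2 := by
  have hVc : ContDiff ℝ 1 (gradient w) := contDiff_gradient (k := 1) (by exact_mod_cast hw)
  rw [← robin_id hΩ hw hpde hbc hφ]
  have hi1 := intOn hΩ.isBounded (cont_norm_fderiv hφ)
  have hi2 : IntegrableOn (fun x => φ x ^ 2) Ω := intOn hΩ.isBounded (hφ.continuous.pow 2)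
  have hi3 : IntegrableOn (fun x => ‖fderiv ℝ φ x‖ ^ 2 + κ * φ x ^ 2) Ω :=
    hi1.add (hi2.const_mul κ)
  have h1 : (∫ x in Ω, ‖fderiv ℝ φ x‖ ^ 2) + κ * ∫ x in Ω, φ x ^ 2 =
      ∫ x in Ω, (‖fderiv ℝ φ x‖ ^ 2 + κ * φ x ^ 2) := by
    rw [← integral_const_mul]
    exact (integral_add hi1 (hi2.const_mul κ)).symm
  rw [h1]
  apply setIntegral_mono_on _ hi3 hΩ.isOpen.measurableSet
  · intro x _
    have h2 : |fderiv ℝ φ x (gradient w x)| ≤ ‖fderiv ℝ φ x‖ * ‖gradient w x‖ := by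
      have := (fderiv ℝ φ x).le_opNorm (gradient w x)
      rwa [Real.norm_eq_abs] at this
    have h3 : φ x * fderiv ℝ φ x (gradient w x) ≤ |φ x| * (‖fderiv ℝ φ x‖ * ‖gradient w x‖) := by
      calc φ x * fderiv ℝ φ x (gradient w x) ≤ |φ x * fderiv ℝ φ x (gradient w x)| := le_abs_self _
        _ = |φ x| * |fderiv ℝ φ x (gradient w x)| := abs_mul _ _
        _ ≤ _ := mul_le_mul_of_nonneg_left h2 (abs_nonneg _)
    have h4 := sq_nonneg (‖fderiv ℝ φ x‖ - |φ x| * ‖gradient w x‖)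
    have h5 : |φ x| ^ 2 = φ x ^ 2 := sq_abs _
    nlinarith
  · apply intOn hΩ.isBounded
    have c1 : Continuous (fun x => fderiv ℝ φ x (gradient w x)) :=
      (hφ.continuous_fderiv one_ne_zero).clm_apply hVc.continuous
    have c2 := hVc.continuous
    have c3 := hφ.continuous
    fun_prop

/-- The first eigenvalue of a regular domain with a positive eigenfunction. -/
theorem lam1_eq {n : ℕ} {Ω : Set (E n)} {ν : E n → E n} (hΩ : IsRegularDomain Ω ν)
    {w : E n → ℝ} (hw : ContDiff ℝ 2 w) {κ A : ℝ}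
    (hpde : ∀ x ∈ Ω, dvg (gradient w) x + ‖gradient w x‖ ^ 2 = κ)
    (hbc : ∀ x ∈ frontier Ω, ⟪gradient w x, ν x⟫_ℝ = A) :
    lam1 Ω (-A) = ((-κ : ℝ) : EReal) := by
  have hw1 : ContDiff ℝ 1 w := hw.of_le (by norm_num)
  set u : E n → ℝ := fun x => Real.exp (w x) with hu
  have huc : ContDiff ℝ 1 u := hw1.exp
  have hupos : ∀ x, 0 < u x := fun x => Real.exp_pos _
  have hvol : 0 < volume Ω := hΩ.isOpen.measure_pos volume hΩ.isConnected.nonempty
  have hpos : 0 < ∫ x in Ω, u x ^ 2 := by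
    rw [setIntegral_pos_iff_support_of_nonneg_ae]
    · have : Function.support (fun x => u x ^ 2) ∩ Ω = Ω := by
        rw [inter_eq_right]
        intro x _
        exact (pow_pos (hupos x) 2).ne'
      rw [this]
      exact hvol
    · exact Eventually.of_forall fun x => sq_nonneg _
    · exact intOn hΩ.isBounded (huc.continuous.pow 2)
  apply le_antisymm
  · unfold lam1
    refine iInf_le_of_le ⟨u, huc, hpos⟩ ?_
    apply EReal.coe_le_coe_iff.2
    simp only
    unfold rayleigh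
    rw [div_le_iff₀ hpos]
    have h1 := robin_id hΩ hw hpde hbc huc
    have h2 : ∫ x in Ω, (2 * u x * fderiv ℝ u x (gradient w x) +
        u x ^ 2 * (κ - ‖gradient w x‖ ^ 2)) =
        ∫ x in Ω, (‖fderiv ℝ u x‖ ^ 2 + κ * u x ^ 2) := by
      apply setIntegral_congr_fun hΩ.isOpen.measurableSet
      intro x _
      simp only
      have h3 : fderiv ℝ u x = u x • fderiv ℝ w x :=
        ((hw1.differentiable one_ne_zero x).hasFDerivAt.exp).fderiv
      have h4 : fderiv ℝ w x (gradient w x) = ‖gradient w x‖ ^ 2 := by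
        rw [← inner_gradient, real_inner_self_eq_norm_sq]
      rw [h3, norm_smul, ← norm_gradient]
      simp only [smul_apply, smul_eq_mul, h4, Real.norm_eq_abs]
      rw [mul_pow, sq_abs]
      ring
    have hi1 := intOn hΩ.isBounded (cont_norm_fderiv huc)
    have hi2 : IntegrableOn (fun x => u x ^ 2) Ω := intOn hΩ.isBounded (huc.continuous.pow 2)
    have h5 : ∫ x in Ω, (‖fderiv ℝ u x‖ ^ 2 + κ * u x ^ 2) =
        (∫ x in Ω, ‖fderiv ℝ u x‖ ^ 2) + κ * ∫ x in Ω, u x ^ 2 := by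
      rw [← integral_const_mul]
      exact integral_add hi1 (hi2.const_mul κ)
    rw [h2, h5] at h1
    linarith
  · unfold lam1
    refine le_iInf fun φ => ?_
    apply EReal.coe_le_coe_iff.2
    unfold rayleigh
    rw [le_div_iff₀ φ.2.2]
    have h1 := robin_ge hΩ hw hpde hbc φ.2.1
    linarith

/-- The lower bound for the first eigenvalue of a ball. -/
theorem lam1_ball_ge {n : ℕ} (hn : 2 ≤ n) {κ : ℝ} {p : ℝ → ℝ} (hp : Prof n κ p)
    {R : ℝ} (hR : 0 < R) {A : ℝ} (hA : A ≤ p R) (c : E n) :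
    ((-κ : ℝ) : EReal) ≤ lam1 (ball c R) (-A) := by
  have : Nontrivial (E n) := by
    have : Nonempty (Fin n) := ⟨⟨0, by omega⟩⟩
    infer_instance
  unfold lam1
  refine le_iInf fun φ => ?_
  apply EReal.coe_le_coe_iff.2
  unfold rayleigh
  rw [le_div_iff₀ φ.2.2]
  have h1 := JL.lb_ball n hn (surf n) (fun c R hR g hg => JS.sphere_integral n hn c R hR g hg)
    c R hR p hp.cont.continuousOn κ A (fun r hr => ⟨_, hp.deriv r hr.1, by
      apply le_of_eq; ring⟩) hA φ.1 φ.2.1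
  rw [frontier_ball c hR.ne']
  linarith

end Pool.Agent.Helper876.Rob
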