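import Pool.Agent.Helper876_Robin.Cert2

/-!
# An explicit range of parameters
-/

set_option autoImplicit false

open MeasureTheory Set Filter Topology intervalIntegral
open scoped NNReal

namespace Pool.Agent.Helper876.Rob

/-- A barrier argument on the line. -/
theorem barrier {h h' : ℝ → ℝ} {x : ℝ} (hd : ∀ r ∈ Ioc 0 x, HasDerivAt h (h' r) r)
    (hlim : Tendsto h (𝓝[>] 0) (𝓝 0)) (hbar : ∀ r ∈ Ioc 0 x, h r < 0 → 0 < h' r) :
    ∀ r ∈ Ioc 0 x, 0 ≤ h r := by
  intro r₁ hr₁
  by_contra hcon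
  push Not at hcon
  have h1 : ∀ᶠ r in 𝓝[>] (0:ℝ), h r₁ < h r := hlim.eventually (lt_mem_nhds hcon)
  have h2 : ∀ᶠ r in 𝓝[>] (0:ℝ), r < r₁ := nhdsWithin_le_nhds (gt_mem_nhds hr₁.1)
  obtain ⟨δ, ⟨hδ1, hδ2⟩, hδ3⟩ := ((h1.and h2).and self_mem_nhdsWithin).exists
  have hδ0 : 0 < δ := hδ3
  have hc : ContinuousOn h (Icc δ r₁) := fun r hr =>
    (hd r ⟨hδ0.trans_le hr.1, hr.2.trans hr₁.2⟩).continuousAt.continuousWithinAt
  obtain ⟨r₂, hr₂, hmin⟩ := isCompact_Icc.exists_isMinOn ⟨r₁, right_mem_Icc.2 hδ2.le⟩ hc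
  have h3 : h r₂ ≤ h r₁ := hmin (right_mem_Icc.2 hδ2.le)
  have h4 : δ < r₂ := by
    rcases hr₂.1.eq_or_lt with h | h
    · rw [← h] at h3
      linarith
    · exact h
  have hr₂' : r₂ ∈ Ioc 0 x := ⟨hδ0.trans h4, hr₂.2.trans hr₁.2⟩
  have h5 := hbar r₂ hr₂' (by linarith)
  have h6 := (hd r₂ hr₂').hasDerivWithinAt (s := Iio r₂)
  rw [hasDerivWithinAt_iff_tendsto_slope' (by simp)] at h6
  have h7 : h' r₂ ≤ 0 := by
    apply le_of_tendsto h6
    have h8 : ∀ᶠ r in 𝓝[<] r₂, δ < r := nhdsWithin_le_nhds (lt_mem_nhds h4)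
    filter_upwards [h8, self_mem_nhdsWithin] with r hr8 hr9
    have hr9' : r < r₂ := hr9
    rw [slope_def_field]
    apply div_nonpos_of_nonneg_of_nonpos
    · have := hmin (show r ∈ Icc δ r₁ from ⟨hr8.le, hr9'.le.trans hr₂.2⟩)
      have h9 : h r₂ ≤ h r := this
      linarith
    · linarith
  linarith

section

variable {n : ℕ} {p : ℝ → ℝ}

/-- the logarithmic slope of the profile -/
noncomputable def ee (n : ℕ) (p : ℝ → ℝ) (r : ℝ) : ℝ := r * dp n 1 p r / p r

/-- the normalised parameter -/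
noncomputable def ss (n : ℕ) (p : ℝ → ℝ) (r : ℝ) : ℝ := 2 * (r * p r) / ((n : ℝ) + 2)

theorem Prof.ss_deriv (hp : Prof n 1 p) {r : ℝ} (hr : 0 < r) :
    HasDerivAt (ss n p) (ss n p r * (1 + ee n p r) / r) r := by
  have hd : HasDerivAt p (dp n 1 p r) r := hp.deriv r hr
  have h1 := (((hasDerivAt_id r).fun_mul hd).const_mul 2).div_const ((n : ℝ) + 2)
  have h2 : HasDerivAt (ss n p) _ r := h1
  refine h2.congr_deriv ?_
  have h0 := (hp.pos r hr).ne'
  unfold ss ee
  simp only [id]
  field_simp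

theorem Prof.ee_deriv (hp : Prof n 1 p) {r : ℝ} (hr : 0 < r) :
    HasDerivAt (ee n p) ((((n : ℝ) - 1 + ee n p r) * (1 - ee n p r) -
      2 * (r * p r) * ee n p r) / r) r := by
  have hd : HasDerivAt p (dp n 1 p r) r := hp.deriv r hr
  have h0 := (hp.pos r hr).ne'
  have h1 := ((hasDerivAt_id r).fun_mul (hp.dp_deriv hr)).fun_div hd h0
  have h2 : HasDerivAt (ee n p) _ r := h1
  refine h2.congr_deriv ?_
  unfold ee
  simp only [id]
  field_simp
  ring

theorem Prof.ss_cont (hp : Prof n 1 p) : Continuous (ss n p) := by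
  have := hp.cont
  unfold ss
  fun_prop

theorem ss_zero : ss n p 0 = 0 := by simp [ss]

theorem Prof.ee_tendsto (hp : Prof n 1 p) (hn : 2 ≤ n) : Tendsto (ee n p) (𝓝[>] 0) (𝓝 1) := by
  have hn0 : (2:ℝ) ≤ n := by exact_mod_cast hn
  have h1 : Tendsto (fun r => 1 - n * p r ^ 2) (𝓝[>] 0) (𝓝 1) := by
    have hc : Continuous (fun r => 1 - n * p r ^ 2) := by
      have := hp.cont
      fun_prop
    have h3 := hc.tendsto 0
    simp only [hp.zero] at h3
    norm_num at h3
    exact h3.mono_left nhdsWithin_le_nhds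
  apply tendsto_of_tendsto_of_tendsto_of_le_of_le' h1 (tendsto_const_nhds (x := (1:ℝ)))
  · filter_upwards [self_mem_nhdsWithin] with r hr
    have hr0 : 0 < r := hr
    have e1 := hp.dp_ge hn hr0
    have e2 := hp.pos r hr0
    have e3 := hp.le' hn hr0
    have e4 : 0 < dp n 1 p r := hp.dpos r hr0
    unfold ee
    rw [le_div_iff₀ e2]
    -- r D ≥ p (1 - n p^2)
    have e5 : (1 - n * p r ^ 2) ≤ n * dp n 1 p r := by
      have : (1 / (n:ℝ) - p r ^ 2) * n ≤ dp n 1 p r * n := mul_le_mul_of_nonneg_right e1 (by positivity)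
      have h : (1 / (n:ℝ) - p r ^ 2) * n = 1 - n * p r ^ 2 := by field_simp
      linarith
    by_cases hcase : 0 ≤ 1 - n * p r ^ 2
    · have e6 : p r ≤ r / n := by
        rw [le_div_iff₀ (by positivity)]
        linarith
      calc (1 - n * p r ^ 2) * p r ≤ (1 - n * p r ^ 2) * (r / n) :=
            mul_le_mul_of_nonneg_left e6 hcase
        _ ≤ (n * dp n 1 p r) * (r / n) := mul_le_mul_of_nonneg_right e5 (by positivity)
        _ = r * dp n 1 p r := by field_simp
    · push Not at hcase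
      have e6 : (1 - n * p r ^ 2) * p r ≤ 0 := mul_nonpos_of_nonpos_of_nonneg hcase.le e2.le
      have e7 : 0 ≤ r * dp n 1 p r := by positivity
      linarith
  · filter_upwards [self_mem_nhdsWithin] with r hr
    have hr0 : 0 < r := hr
    have e1 := hp.dp_le hr0
    have e2 := hp.pos r hr0
    unfold ee
    rw [div_le_one e2]
    rw [le_div_iff₀ hr0] at e1
    linarith

/-- A lower bound for the logarithmic slope. -/
theorem Prof.ee_ge (hp : Prof n 1 p) (hn : 2 ≤ n) {x : ℝ} (hx : ∀ r ∈ Ioc 0 x, ss n p r ≤ 1) :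
    ∀ r ∈ Ioc 0 x, 1 / (1 + ss n p r + ss n p r ^ 2) ≤ ee n p r := by
  have hn0 : (2:ℝ) ≤ n := by exact_mod_cast hn
  have hspos : ∀ r, 0 < r → 0 < ss n p r := by
    intro r hr
    have := hp.pos r hr
    unfold ss
    positivity
  set h : ℝ → ℝ := fun r => ee n p r - 1 / (1 + ss n p r + ss n p r ^ 2) with hh
  have hb := barrier (h := h) (x := x)
    (h' := fun r => (((n : ℝ) - 1 + ee n p r) * (1 - ee n p r) - 2 * (r * p r) * ee n p r) / r +
      (1 + 2 * ss n p r) * (ss n p r * (1 + ee n p r) / r) /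
        (1 + ss n p r + ss n p r ^ 2) ^ 2) ?_ ?_ ?_
  · intro r hr
    have := hb r hr
    rw [hh] at this
    simp only at this
    linarith
  · intro r hr
    have hr0 := hr.1
    have hs0 := hspos r hr0
    have h1 : HasDerivAt (fun r => 1 + ss n p r + ss n p r ^ 2)
        ((1 + 2 * ss n p r) * (ss n p r * (1 + ee n p r) / r)) r := by
      have h2 := ((hp.ss_deriv hr0).const_add 1).fun_add ((hp.ss_deriv hr0).fun_pow 2)
      refine h2.congr_deriv ?_
      simp only [Nat.cast_ofNat, Nat.add_one_sub_one, pow_one]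
      ring
    have hD : (1 + ss n p r + ss n p r ^ 2) ≠ 0 := by positivity
    have h3 := (hp.ee_deriv hr0).fun_sub ((hasDerivAt_const r (1:ℝ)).fun_div h1 hD)
    refine h3.congr_deriv ?_
    simp only [zero_mul, zero_sub, one_mul]
    ring
  · have h1 := hp.ee_tendsto hn
    have h2 : Tendsto (fun r => 1 / (1 + ss n p r + ss n p r ^ 2)) (𝓝[>] 0) (𝓝 1) := by
      have hc : ContinuousAt (fun r => 1 / (1 + ss n p r + ss n p r ^ 2)) 0 := by
        have := hp.ss_cont.continuousAt (x := 0)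
        apply ContinuousAt.div continuousAt_const
        · exact (continuousAt_const.add this).add (this.pow 2)
        · rw [ss_zero]; norm_num
      have h3 := hc.tendsto
      simp only [ss_zero] at h3
      norm_num at h3
      simpa using h3.mono_left nhdsWithin_le_nhds
    have h3 := h1.sub h2
    rw [sub_self] at h3
    exact h3
  · intro r hr hneg
    have hr0 := hr.1
    have hs0 := hspos r hr0
    have hs1 := hx r hr
    have hp0 := hp.pos r hr0
    have hD0 : 0 < dp n 1 p r := hp.dpos r hr0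
    have he0 : 0 < ee n p r := by unfold ee; positivity
    rw [hh] at hneg
    simp only at hneg
    set e := ee n p r with he
    set s := ss n p r with hs
    have hw : 2 * (r * p r) = s * (n + 2) := by rw [hs]; unfold ss; field_simp
    rw [hw]
    set D := 1 + s + s ^ 2 with hD
    have hDpos : 0 < D := by positivity
    have h1 : ((((n : ℝ) - 1 + e) * (1 - e) - s * (n + 2) * e) / r +
        (1 + 2 * s) * (s * (1 + e) / r) / D ^ 2) =
        ((((n : ℝ) - 1 + e) * (1 - e) - s * (n + 2) * e) * D ^ 2 + (1 + 2 * s) * s * (1 + e)) /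
          (r * D ^ 2) := by
      field_simp
    rw [h1]
    apply div_pos _ (by positivity)
    have h2 : e * D < 1 := by
      have : e < 1 / D := by linarith
      rwa [lt_div_iff₀ hDpos] at this
    set m := (n : ℝ) - 2 with hm
    have hm0 : 0 ≤ m := by linarith
    have hnm : (n : ℝ) = m + 2 := by rw [hm]; ring
    rw [hnm]
    -- write `1 = e D + d` with `d > 0`
    set d := 1 - e * D with hd
    have hd0 : 0 < d := by linarith
    have h3 : 0 ≤ 1 - s := by linarith
    have key : (((m + 2 - 1 + e) * (1 - e) - s * (m + 2 + 2) * e) * D ^ 2 +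
        (1 + 2 * s) * s * (1 + e)) * D =
        s ^ 2 * ((m + 1) * D ^ 2 + 1 - 4 * s - 3 * s ^ 2 - 3 * s ^ 3) +
          d * (D ^ 2 * (m + e + s * (m + 4)) + D - (1 + 2 * s) * s) := by
      rw [hd, hD]
      ring
    have h4 : 0 ≤ (m + 1) * D ^ 2 + 1 - 4 * s - 3 * s ^ 2 - 3 * s ^ 3 := by
      have e1 : 0 ≤ m * D ^ 2 := by positivity
      have e2 : 0 ≤ D ^ 2 + 1 - 4 * s - 3 * s ^ 2 - 3 * s ^ 3 := by
        have : D ^ 2 + 1 - 4 * s - 3 * s ^ 2 - 3 * s ^ 3 = (1 - s) * (2 - s ^ 3) := by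
          rw [hD]; ring
        rw [this]
        apply mul_nonneg h3
        have : s ^ 3 ≤ 1 := pow_le_one₀ hs0.le hs1
        linarith
      linarith
    have h5 : 0 < D ^ 2 * (m + e + s * (m + 4)) + D - (1 + 2 * s) * s := by
      have e1 : 4 * s ≤ D ^ 2 * (m + e + s * (m + 4)) := by
        have e2 : 1 ≤ D := by rw [hD]; nlinarith
        have e3 : 1 ≤ D ^ 2 := one_le_pow₀ e2
        have e4 : 4 * s ≤ m + e + s * (m + 4) := by nlinarith
        calc 4 * s ≤ m + e + s * (m + 4) := e4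
          _ ≤ D ^ 2 * (m + e + s * (m + 4)) := le_mul_of_one_le_left (by positivity) e3
      rw [hD] at e1 ⊢
      nlinarith
    have h6 : 0 < (((m + 2 - 1 + e) * (1 - e) - s * (m + 2 + 2) * e) * D ^ 2 +
        (1 + 2 * s) * s * (1 + e)) * D := by
      rw [key]
      have := mul_pos hd0 h5
      have := mul_nonneg (sq_nonneg s) h4
      linarith
    exact pos_of_mul_pos_left h6 hDpos.le


/-- the exponent of the explicit bound -/
noncomputable def LL (n : ℕ) (s : ℝ) : ℝ := ((n : ℝ) - 1) * (s / 2 + 3 * s ^ 2 / 8 + s ^ 3 / 8)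

/-- The explicit bound for `T`. -/
theorem Prof.TT_le (hp : Prof n 1 p) (hn : 2 ≤ n) {x : ℝ} (hx0 : 0 < x)
    (hx : ∀ r ∈ Ioc 0 x, ss n p r ≤ 1) : TT n 1 p x ≤ 1 / n * Real.exp (LL n (ss n p x)) := by
  have hn0 : (2:ℝ) ≤ n := by exact_mod_cast hn
  have hspos : ∀ r, 0 < r → 0 < ss n p r := by
    intro r hr
    have := hp.pos r hr
    unfold ss
    positivity
  set Θ : ℝ → ℝ := fun r => TT n 1 p r * Real.exp (-LL n (ss n p r)) with hΘ
  have hd : ∀ r, 0 < r → HasDerivAt Θ (Real.exp (-LL n (ss n p r)) * (((n : ℝ) - 1) * sqEig p r *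
      (p r / r - dp n 1 p r) / r - TT n 1 p r * (((n : ℝ) - 1) * (1 / 2 + 3 * ss n p r / 4 +
        3 * ss n p r ^ 2 / 8) * (ss n p r * (1 + ee n p r) / r)))) r := by
    intro r hr
    have h1 : HasDerivAt (fun t => LL n t) (((n : ℝ) - 1) * (1 / 2 + 3 * ss n p r / 4 +
        3 * ss n p r ^ 2 / 8)) (ss n p r) := by
      have e1 := (hasDerivAt_id (ss n p r)).div_const 2
      have e2 := (((hasDerivAt_id (ss n p r)).fun_pow 2).const_mul 3).div_const 8
      have e3 := ((hasDerivAt_id (ss n p r)).fun_pow 3).div_const 8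
      have e4 := ((e1.fun_add e2).fun_add e3).const_mul ((n : ℝ) - 1)
      refine e4.congr_deriv ?_
      simp only [id, Nat.cast_ofNat, Nat.add_one_sub_one, pow_one]
      ring
    have h2 := h1.comp r (hp.ss_deriv hr)
    have h3 := (hp.TT_deriv hr).fun_mul h2.fun_neg.exp
    refine h3.congr_deriv ?_
    simp only [Function.comp]
    ring
  have hanti : AntitoneOn Θ (Ioc 0 x) := by
    apply antitoneOn_of_deriv_nonpos (convex_Ioc 0 x)
    · intro t ht
      exact (hd t ht.1).continuousAt.continuousWithinAt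
    · intro t ht
      rw [interior_Ioc] at ht
      exact (hd t ht.1).differentiableAt.differentiableWithinAt
    · intro t ht
      rw [interior_Ioc] at ht
      have ht0 := ht.1
      rw [(hd t ht0).deriv]
      have hp0 := hp.pos t ht0
      have hD0 : 0 < dp n 1 p t := hp.dpos t ht0
      have he0 : 0 < ee n p t := by unfold ee; positivity
      have hge := hp.ee_ge hn hx t ⟨ht0, ht.2.le⟩
      have hs0 := hspos t ht0
      have hs1 := hx t ⟨ht0, ht.2.le⟩
      have hU := sqEig_pos (p := p) t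
      set e := ee n p t with he
      set s := ss n p t with hs
      have hpt : p t / t = dp n 1 p t / e := by
        rw [he]; unfold ee; field_simp
      apply mul_nonpos_of_nonneg_of_nonpos (Real.exp_pos _).le
      have h1 : TT n 1 p t = dp n 1 p t * sqEig p t := rfl
      rw [h1, hpt]
      have h2 : ((n : ℝ) - 1) * sqEig p t * (dp n 1 p t / e - dp n 1 p t) / t -
          dp n 1 p t * sqEig p t * (((n : ℝ) - 1) * (1 / 2 + 3 * s / 4 + 3 * s ^ 2 / 8) *
            (s * (1 + e) / t)) =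
          (((n : ℝ) - 1) * sqEig p t * dp n 1 p t / t) *
            (1 / e - 1 - (1 / 2 + 3 * s / 4 + 3 * s ^ 2 / 8) * (s * (1 + e))) := by
        field_simp
      rw [h2]
      apply mul_nonpos_of_nonneg_of_nonpos
      · have : 0 ≤ (n : ℝ) - 1 := by linarith
        positivity
      · set D := 1 + s + s ^ 2 with hD
        have hDpos : 0 < D := by positivity
        have h3 : 1 / e ≤ D := by
          rw [div_le_iff₀ he0]
          rw [div_le_iff₀ hDpos] at hge
          linarith
        have h4 : (1 / 2 + 3 * s / 4 + 3 * s ^ 2 / 8) * (s * (1 + 1 / D)) ≤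
            (1 / 2 + 3 * s / 4 + 3 * s ^ 2 / 8) * (s * (1 + e)) := by
          apply mul_le_mul_of_nonneg_left _ (by positivity)
          apply mul_le_mul_of_nonneg_left _ hs0.le
          linarith
        have h5 : s + s ^ 2 ≤ (1 / 2 + 3 * s / 4 + 3 * s ^ 2 / 8) * (s * (1 + 1 / D)) := by
          have e1 : (1 / 2 + 3 * s / 4 + 3 * s ^ 2 / 8) * (s * (1 + 1 / D)) =
              s * ((1 / 2 + 3 * s / 4 + 3 * s ^ 2 / 8) * (D + 1)) / D := by
            field_simp
          rw [e1, le_div_iff₀ hDpos]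
          have e2 : (s + s ^ 2) * D = s * ((1 + s) * D) := by ring
          rw [e2]
          apply mul_le_mul_of_nonneg_left _ hs0.le
          rw [hD]
          have e3 : (1 / 2 + 3 * s / 4 + 3 * s ^ 2 / 8) * (1 + s + s ^ 2 + 1) -
              (1 + s) * (1 + s + s ^ 2) = s ^ 3 / 8 + 3 * s ^ 4 / 8 := by ring
          have e4 : 0 ≤ s ^ 3 / 8 + 3 * s ^ 4 / 8 := by positivity
          linarith
        linarith
  -- the limit at the origin
  have hlim : Tendsto (fun r => 1 / (n : ℝ) * sqEig p r) (𝓝[>] 0) (𝓝 (1 / n)) := by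
    have hc : Continuous (fun r => 1 / (n : ℝ) * sqEig p r) := by
      have := hp.sqEig_cont
      fun_prop
    have h3 := hc.tendsto 0
    simp only [sqEig_zero, mul_one] at h3
    exact h3.mono_left nhdsWithin_le_nhds
  have h1 : Θ x ≤ 1 / n := by
    apply ge_of_tendsto hlim
    have h2 : ∀ᶠ r in 𝓝[>] (0:ℝ), r ≤ x := nhdsWithin_le_nhds (Iic_mem_nhds hx0)
    filter_upwards [self_mem_nhdsWithin, h2] with r hr hrx
    have hr0 : 0 < r := hr
    have h3 := hanti (show r ∈ Ioc 0 x from ⟨hr0, hrx⟩) ⟨hx0, le_rfl⟩ hrx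
    have h4 : Θ r ≤ TT n 1 p r := by
      have h5 : 0 ≤ TT n 1 p r := (by positivity : (0:ℝ) ≤ 1 / n).trans (hp.TT_ge hn hr0)
      have h6 : Real.exp (-LL n (ss n p r)) ≤ 1 := by
        rw [Real.exp_le_one_iff]
        have := hspos r hr0
        have h7 : 0 ≤ (n : ℝ) - 1 := by linarith
        unfold LL
        have : 0 ≤ ((n : ℝ) - 1) * (ss n p r / 2 + 3 * ss n p r ^ 2 / 8 + ss n p r ^ 3 / 8) := by
          positivity
        linarith
      calc Θ r ≤ TT n 1 p r * 1 := mul_le_mul_of_nonneg_left h6 h5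
        _ = _ := mul_one _
    have h5 : TT n 1 p r ≤ 1 / n * sqEig p r := by
      have e1 := (hp.dp_le hr0).trans (hp.le r hr0)
      exact mul_le_mul_of_nonneg_right e1 (sqEig_pos _).le
    linarith
  rw [hΘ] at h1
  simp only at h1
  have h2 := Real.exp_pos (LL n (ss n p x))
  calc TT n 1 p x = TT n 1 p x * Real.exp (-LL n (ss n p x)) * Real.exp (LL n (ss n p x)) := by
        rw [mul_assoc, ← Real.exp_add]; simp
    _ ≤ 1 / n * Real.exp (LL n (ss n p x)) := mul_le_mul_of_nonneg_right h1 h2.le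

theorem LL_three_halves (hn : 2 ≤ n) : LL n (3 / ((n : ℝ) + 2)) < Real.log n := by
  rcases Nat.lt_or_ge n 5 with h | h
  · interval_cases n
    · unfold LL
      have := Real.log_two_gt_d9
      norm_num
      linarith
    · have h1 : (1 : ℝ) < Real.log (3 : ℕ) := by
        rw [Real.lt_log_iff_exp_lt (by norm_num)]
        have := Real.exp_one_lt_d9
        push_cast
        linarith
      unfold LL
      norm_num at h1 ⊢
      linarith
    · have h1 : Real.log (4 : ℕ) = 2 * Real.log 2 := by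
        have : ((4 : ℕ) : ℝ) = 2 ^ 2 := by norm_num
        rw [this, Real.log_pow]
        norm_num
      have := Real.log_two_gt_d9
      unfold LL
      rw [h1]
      norm_num
      linarith
  · have hn5 : (5:ℝ) ≤ n := by exact_mod_cast h
    have h1 : (3 / 2 : ℝ) < Real.log n := by
      have h2 : (3 / 2 : ℝ) < Real.log 5 := by
        rw [Real.lt_log_iff_exp_lt (by norm_num)]
        have h3 : Real.exp (3 / 2) ^ 2 < 5 ^ 2 := by
          have h4 : Real.exp (3 / 2) ^ 2 = Real.exp 1 ^ 3 := by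
            rw [← Real.exp_nat_mul, ← Real.exp_nat_mul]
            norm_num
          rw [h4]
          have h5 := Real.exp_one_lt_d9
          have h6 := Real.exp_pos 1
          calc Real.exp 1 ^ 3 < 2.72 ^ 3 := by
                apply pow_lt_pow_left₀ (by linarith) h6.le (by norm_num)
            _ < 5 ^ 2 := by norm_num
        exact lt_of_pow_lt_pow_left₀ 2 (by norm_num) h3
      exact h2.trans_le (Real.log_le_log (by norm_num) hn5)
    refine lt_of_le_of_lt ?_ h1
    unfold LL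
    set s := 3 / ((n : ℝ) + 2) with hs
    have hs0 : 0 < s := by positivity
    have hs1 : s ≤ 1 := by
      rw [hs, div_le_one (by positivity)]
      linarith
    have h2 : ((n : ℝ) - 1) = 3 * (1 - s) / s := by
      rw [hs]; field_simp; ring
    rw [h2]
    have h3 : 3 * (1 - s) / s * (s / 2 + 3 * s ^ 2 / 8 + s ^ 3 / 8) =
        3 / 2 * ((1 - s) * (1 + 3 * s / 4 + s ^ 2 / 4)) := by
      field_simp
      ring
    rw [h3]
    have h4 : (1 - s) * (1 + 3 * s / 4 + s ^ 2 / 4) ≤ 1 := by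
      have h5 : (1 - s) * (1 + 3 * s / 4 + s ^ 2 / 4) ≤ (1 - s) * (1 + s) := by
        apply mul_le_mul_of_nonneg_left _ (by linarith)
        nlinarith
      have h6 : (1 - s) * (1 + s) = 1 - s ^ 2 := by ring
      nlinarith [sq_nonneg s]
    linarith

theorem LL_mono (hn : 2 ≤ n) {s t : ℝ} (hs : 0 ≤ s) (hst : s ≤ t) : LL n s ≤ LL n t := by
  have hn0 : (2:ℝ) ≤ n := by exact_mod_cast hn
  unfold LL
  apply mul_le_mul_of_nonneg_left _ (by linarith)
  have h1 : s ^ 2 ≤ t ^ 2 := pow_le_pow_left₀ hs hst 2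
  have h2 : s ^ 3 ≤ t ^ 3 := pow_le_pow_left₀ hs hst 3
  linarith

/-- **Explicit range**: `x p(x) ≤ 3/2` implies `T(x) < 1`. -/
theorem Prof.TT_lt (hp : Prof n 1 p) (hn : 2 ≤ n) {x : ℝ} (hx0 : 0 < x)
    (hx : x * p x ≤ 3 / 2) : TT n 1 p x < 1 := by
  have hn0 : (2:ℝ) ≤ n := by exact_mod_cast hn
  have hmono : ∀ r ∈ Ioc 0 x, r * p r ≤ x * p x := by
    intro r hr
    have h1 : p r ≤ p x := hp.mono.monotoneOn (a := r) (b := x) hr.1.le hx0.le hr.2
    exact mul_le_mul hr.2 h1 (hp.pos r hr.1).le hx0.le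
  have hss : ∀ r ∈ Ioc 0 x, ss n p r ≤ 3 / ((n : ℝ) + 2) := by
    intro r hr
    unfold ss
    apply div_le_div_of_nonneg_right _ (by positivity)
    linarith [hmono r hr]
  have h1 := hp.TT_le hn hx0 (fun r hr => (hss r hr).trans (by
    rw [div_le_one (by positivity)]
    linarith))
  have h2 : LL n (ss n p x) < Real.log n := by
    refine lt_of_le_of_lt (LL_mono hn ?_ (hss x ⟨hx0, le_rfl⟩)) (LL_three_halves hn)
    have := hp.pos x hx0
    unfold ss
    positivity
  have h3 : Real.exp (LL n (ss n p x)) < n := by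
    rwa [← Real.lt_log_iff_exp_lt (by positivity)]
  calc TT n 1 p x ≤ 1 / n * Real.exp (LL n (ss n p x)) := h1
    _ < 1 / n * n := mul_lt_mul_of_pos_left h3 (by positivity)
    _ = 1 := by field_simp

end

end Pool.Agent.Helper876.Rob
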