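import Pool.Agent.Helper876_Robin.SMDefs

set_option autoImplicit false

open MeasureTheory Set Metric Filter Topology
open scoped ENNReal NNReal InnerProductSpace

namespace Pool.Agent.Helper876.SM

theorem taskA1_le_of_local {X : Type} [TopologicalSpace X] [MeasurableSpace X] [BorelSpace X]
    [SecondCountableTopology X] (ν ρ : Measure X) (C : ℝ≥0∞)
    (h : ∀ x : X, ∃ U ∈ 𝓝 x, ∀ s ⊆ U, MeasurableSet s → ν s ≤ C * ρ s) (s : Set X)
    (hs : MeasurableSet s) : ν s ≤ C * ρ s := by
  choose U hU hle using h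
  obtain ⟨T, hT, hcov⟩ := TopologicalSpace.countable_cover_nhds (fun x => interior_mem_nhds.2 (hU x))
  rcases T.eq_empty_or_nonempty with hTe | hTne
  · subst hTe
    have : (univ : Set X) = ∅ := by rw [← hcov]; simp
    have hs0 : s = ∅ := by
      apply Set.eq_empty_of_forall_notMem
      intro x hx
      have : x ∈ (univ : Set X) := mem_univ x
      rw [‹(univ : Set X) = ∅›] at this
      exact this
    rw [hs0]; simp
  obtain ⟨e, he⟩ := hT.exists_eq_range hTne
  set V : ℕ → Set X := fun n => interior (U (e n)) with hV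
  have hVm : ∀ n, MeasurableSet (V n) := fun n => isOpen_interior.measurableSet
  have hVc : (⋃ n, V n) = univ := by
    rw [← hcov, he]
    simp [hV]
  set D := disjointed V with hD
  have hDm : ∀ n, MeasurableSet (D n) := fun n => MeasurableSet.disjointed hVm n
  have hDc : (⋃ n, D n) = univ := by rw [hD, iUnion_disjointed, hVc]
  have hDd : Pairwise (Function.onFun Disjoint fun n => s ∩ D n) := by
    intro i j hij
    exact ((disjoint_disjointed V) hij).mono inter_subset_right inter_subset_right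
  have hsplit : ∀ m : Measure X, m s = ∑' n, m (s ∩ D n) := by
    intro m
    rw [← measure_iUnion hDd (fun n => hs.inter (hDm n)), ← inter_iUnion, hDc, inter_univ]
  rw [hsplit ν, hsplit ρ, ← ENNReal.tsum_mul_left]
  refine ENNReal.tsum_le_tsum fun n => ?_
  refine hle (e n) _ ?_ (hs.inter (hDm n))
  exact (inter_subset_right.trans (disjointed_subset V n)).trans interior_subset

section

variable {m : ℕ}

theorem taskA1_Gr_castSucc (f : E m → ℝ) (u : E m) (i : Fin m) : Gr f u (Fin.castSucc i) = u i := by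
  change (Fin.snoc (fun i => u i) (f u) : Fin (m + 1) → ℝ) (Fin.castSucc i) = u i
  rw [Fin.snoc_castSucc (α := fun _ => ℝ)]

theorem taskA1_Gr_last (f : E m → ℝ) (u : E m) : Gr f u (Fin.last m) = f u := by
  change (Fin.snoc (fun i => u i) (f u) : Fin (m + 1) → ℝ) (Fin.last m) = f u
  rw [Fin.snoc_last (α := fun _ => ℝ)]

theorem taskA1_pr_apply (z : E (m + 1)) (i : Fin m) : pr z i = z (Fin.castSucc i) := rfl

theorem taskA1_pr_Gr (f : E m → ℝ) (u : E m) : pr (Gr f u) = u := by
  ext i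
  rw [taskA1_pr_apply, taskA1_Gr_castSucc]

theorem taskA1_ext {z w : E (m + 1)} (h1 : pr z = pr w) (h2 : z (Fin.last m) = w (Fin.last m)) :
    z = w := by
  ext i
  induction i using Fin.lastCases with
  | last => exact h2
  | cast i =>
    rw [← taskA1_pr_apply, h1, taskA1_pr_apply]

theorem taskA1_contDiff_Gr {f : E m → ℝ} (hf : ContDiff ℝ 1 f) : ContDiff ℝ 1 (Gr f) := by
  rw [contDiff_euclidean]
  intro i
  induction i using Fin.lastCases with
  | last =>
    have : (fun x => Gr f x (Fin.last m)) = f := funext fun x => taskA1_Gr_last f x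
    rw [this]
    exact hf
  | cast i =>
    have : (fun x => Gr f x (Fin.castSucc i)) = fun x => x i :=
      funext fun x => taskA1_Gr_castSucc f x i
    rw [this]
    exact contDiff_euclidean.1 contDiff_id i

theorem taskA1_Gr_inj (f : E m → ℝ) : Function.Injective (Gr f) := by
  intro u v h
  rw [← taskA1_pr_Gr f u, ← taskA1_pr_Gr f v, h]

theorem taskA1_range_Gr (f : E m → ℝ) : range (Gr f) = {z : E (m + 1) | z (Fin.last m) = f (pr z)} := by
  ext z
  constructor
  · rintro ⟨u, rfl⟩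
    show Gr f u (Fin.last m) = f (pr (Gr f u))
    rw [taskA1_pr_Gr, taskA1_Gr_last]
  · intro hz
    refine ⟨pr z, ?_⟩
    apply taskA1_ext
    · rw [taskA1_pr_Gr]
    · rw [taskA1_Gr_last]
      exact hz.symm

theorem taskA1_nsq (z : E (m + 1)) : ‖z‖ ^ 2 = ‖pr z‖ ^ 2 + z (Fin.last m) ^ 2 := by
  rw [EuclideanSpace.norm_sq_eq, EuclideanSpace.norm_sq_eq, Fin.sum_univ_castSucc]
  simp only [taskA1_pr_apply, Real.norm_eq_abs, sq_abs]

/-- the Jacobian -/
noncomputable def taskA1_J (f : E m → ℝ) (u : E m) : ℝ := Real.sqrt (1 + ‖gradient f u‖ ^ 2)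

theorem taskA1_one_le_J (f : E m → ℝ) (u : E m) : 1 ≤ taskA1_J f u := by
  unfold taskA1_J
  rw [Real.one_le_sqrt]
  nlinarith [sq_nonneg ‖gradient f u‖]

theorem taskA1_cont_J {f : E m → ℝ} (hf : ContDiff ℝ 1 f) : Continuous (taskA1_J f) := by
  unfold taskA1_J
  have h1 : Continuous (gradient f) := by
    have h2 : Continuous (fderiv ℝ f) := hf.continuous_fderiv (by norm_num)
    exact (InnerProductSpace.toDual ℝ (E m)).symm.continuous.comp h2
  fun_prop

theorem taskA1_grad_coord (f : E m → ℝ) (u : E m) (i : Fin m) :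
    gradient f u i = fderiv ℝ f u (EuclideanSpace.single i 1) := by
  have h : inner ℝ (gradient f u) (EuclideanSpace.single i (1 : ℝ)) =
      fderiv ℝ f u (EuclideanSpace.single i 1) := by
    unfold gradient
    rw [InnerProductSpace.toDual_symm_apply]
  rw [← h, EuclideanSpace.inner_single_right]
  simp

section
variable {f : E m → ℝ} (hf : ContDiff ℝ 1 f) (x : E m)
include hf

theorem taskA1_strict : HasStrictFDerivAt (Gr f) (fderiv ℝ (Gr f) x) x :=
  (taskA1_contDiff_Gr hf).contDiffAt.hasStrictFDerivAt (by norm_num)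

theorem taskA1_Ac (w : E m) (i : Fin m) : fderiv ℝ (Gr f) x w (Fin.castSucc i) = w i := by
  have h1 := (hasStrictFDerivAt_euclidean.1 (taskA1_strict hf x) (Fin.castSucc i)).hasFDerivAt
  have h2 : HasFDerivAt (fun u : E m => Gr f u (Fin.castSucc i))
      (EuclideanSpace.proj (𝕜 := ℝ) i : E m →L[ℝ] ℝ) x := by
    have : (fun u : E m => Gr f u (Fin.castSucc i)) = fun u => u i :=
      funext fun u => taskA1_Gr_castSucc f u i
    rw [this]
    exact (EuclideanSpace.proj (𝕜 := ℝ) i : E m →L[ℝ] ℝ).hasFDerivAt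
  have h3 := h1.unique h2
  have h4 := DFunLike.congr_fun h3 w
  exact h4

theorem taskA1_Al (w : E m) : fderiv ℝ (Gr f) x w (Fin.last m) = fderiv ℝ f x w := by
  have h1 := (hasStrictFDerivAt_euclidean.1 (taskA1_strict hf x) (Fin.last m)).hasFDerivAt
  have h2 : HasFDerivAt (fun u : E m => Gr f u (Fin.last m)) (fderiv ℝ f x) x := by
    have : (fun u : E m => Gr f u (Fin.last m)) = f :=
      funext fun u => taskA1_Gr_last f u
    rw [this]
    exact (hf.differentiable (by norm_num) x).hasFDerivAt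
  have h3 := h1.unique h2
  have h4 := DFunLike.congr_fun h3 w
  exact h4

theorem taskA1_pr_A (w : E m) : pr (fderiv ℝ (Gr f) x w) = w := by
  ext i
  exact taskA1_Ac hf x w i

theorem taskA1_le_A (w : E m) : ‖w‖ ≤ ‖fderiv ℝ (Gr f) x w‖ := by
  have h2 := taskA1_nsq (fderiv ℝ (Gr f) x w)
  rw [taskA1_pr_A hf] at h2
  have h3 : ‖w‖ ^ 2 ≤ ‖fderiv ℝ (Gr f) x w‖ ^ 2 := by
    rw [h2]
    nlinarith [sq_nonneg (fderiv ℝ (Gr f) x w (Fin.last m))]
  exact le_of_sq_le_sq h3 (norm_nonneg _)

theorem taskA1_normDet_A : (fderiv ℝ (Gr f) x : E m →ₗ[ℝ] E (m + 1)).normDet = taskA1_J f x := by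
  have h := LinearMap.normDet_sq_eq_det_gram (fderiv ℝ (Gr f) x : E m →ₗ[ℝ] E (m + 1))
    (EuclideanSpace.basisFun (Fin m) ℝ)
  have hin : ∀ a b : E m, inner ℝ (fderiv ℝ (Gr f) x a) (fderiv ℝ (Gr f) x b) =
      inner ℝ a b + fderiv ℝ f x a * fderiv ℝ f x b := by
    intro a b
    rw [PiLp.inner_apply, Fin.sum_univ_castSucc, PiLp.inner_apply]
    simp only [taskA1_Ac hf, taskA1_Al hf]
    congr 1
    simp only [RCLike.inner_apply, conj_trivial]
    ring
  have hG : (Matrix.gram ℝ fun i => (fderiv ℝ (Gr f) x : E m →ₗ[ℝ] E (m + 1))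
      (EuclideanSpace.basisFun (Fin m) ℝ i)) =
      1 + Matrix.replicateCol Unit (fun i => gradient f x i) *
        Matrix.replicateRow Unit (fun i => gradient f x i) := by
    ext i j
    rw [Matrix.gram_apply, Matrix.add_apply, Matrix.mul_apply]
    simp only [ContinuousLinearMap.coe_coe, hin, EuclideanSpace.basisFun_apply,
      Finset.univ_unique, Finset.sum_singleton, Matrix.replicateCol_apply,
      Matrix.replicateRow_apply, taskA1_grad_coord]
    congr 1
    rw [EuclideanSpace.inner_single_left, Matrix.one_apply]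
    simp
  have hJ : taskA1_J f x ^ 2 = 1 + ∑ i, gradient f x i * gradient f x i := by
    unfold taskA1_J
    rw [Real.sq_sqrt (by positivity), EuclideanSpace.norm_sq_eq]
    congr 1
    refine Finset.sum_congr rfl fun i _ => ?_
    rw [Real.norm_eq_abs, sq_abs, sq]
  have h0 := LinearMap.normDet_nonneg (fderiv ℝ (Gr f) x : E m →ₗ[ℝ] E (m + 1))
  have h1 : 0 ≤ taskA1_J f x := le_trans zero_le_one (taskA1_one_le_J f x)
  have h2 : ((fderiv ℝ (Gr f) x : E m →ₗ[ℝ] E (m + 1)).normDet) ^ 2 = taskA1_J f x ^ 2 := by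
    rw [hJ]
    have h3 : (((fderiv ℝ (Gr f) x : E m →ₗ[ℝ] E (m + 1)).normDet ^ 2 : ℝ) : ℝ) = _ := h
    rw [h3, hG, Matrix.det_one_add_replicateCol_mul_replicateRow]
    rfl
  exact (sq_eq_sq₀ h0 h1).1 h2

/-- the image under the derivative -/
theorem taskA1_haus_A (s : Set (E m)) : (μHE[m] : Measure (E (m + 1))) (fderiv ℝ (Gr f) x '' s) =
    ENNReal.ofReal (taskA1_J f x) * (volume : Measure (E m)) s := by
  have h := LinearMap.euclideanHausdorffMeasure_image_eq_normDet_mul_volume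
    (fderiv ℝ (Gr f) x : E m →ₗ[ℝ] E (m + 1)) s
  rw [taskA1_normDet_A hf x] at h
  rw [← h]
  have h2 : Module.finrank ℝ (E m) = m := finrank_euclideanSpace_fin
  rw [h2]
  rfl

/-- local comparison of distances -/
theorem taskA1_local_dist {K : ℝ} (hK : 1 < K) : ∃ U ∈ 𝓝 x,
    (∀ u ∈ U, taskA1_J f u ≤ K * taskA1_J f x ∧ taskA1_J f x ≤ K * taskA1_J f u) ∧
    ∀ u ∈ U, ∀ v ∈ U, ‖Gr f u - Gr f v‖ ≤ K * ‖fderiv ℝ (Gr f) x (u - v)‖ ∧
      ‖fderiv ℝ (Gr f) x (u - v)‖ ≤ K * ‖Gr f u - Gr f v‖ := by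
  have hK0 : 0 < K := by linarith
  have hJx := taskA1_one_le_J f x
  -- neighbourhood for the Jacobian
  have e1 : ∀ᶠ u in 𝓝 x, taskA1_J f u < K * taskA1_J f x := by
    have : taskA1_J f x < K * taskA1_J f x := by nlinarith
    exact (taskA1_cont_J hf).continuousAt.eventually_lt_const this
  have e2 : ∀ᶠ u in 𝓝 x, taskA1_J f x < K * taskA1_J f u := by
    have : taskA1_J f x < K * taskA1_J f x := by nlinarith
    have hc : Continuous (fun u => K * taskA1_J f u) := continuous_const.mul (taskA1_cont_J hf)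
    exact hc.continuousAt.eventually_const_lt this
  set ε : ℝ := 1 - 1 / K with hε
  have hε0 : 0 < ε := by
    have : 1 / K < 1 := by rw [div_lt_one hK0]; exact hK
    linarith
  have hst := (taskA1_strict hf x).isLittleO.def hε0
  rw [nhds_prod_eq] at hst
  obtain ⟨U1, hU1, hU1'⟩ := Filter.eventually_prod_self_iff'.1 hst
  refine ⟨{u | taskA1_J f u < K * taskA1_J f x} ∩ {u | taskA1_J f x < K * taskA1_J f u} ∩ U1,
    Filter.inter_mem (Filter.inter_mem e1 e2) hU1, ?_, ?_⟩
  · rintro u ⟨⟨h1, h2⟩, -⟩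
    exact ⟨h1.le, h2.le⟩
  · rintro u ⟨-, hu⟩ v ⟨-, hv⟩
    have h1 : ‖Gr f u - Gr f v - fderiv ℝ (Gr f) x (u - v)‖ ≤ ε * ‖u - v‖ := hU1' u hu v hv
    have h2 : ‖u - v‖ ≤ ‖fderiv ℝ (Gr f) x (u - v)‖ := taskA1_le_A hf x _
    set a := ‖fderiv ℝ (Gr f) x (u - v)‖ with ha
    set b := ‖Gr f u - Gr f v‖ with hb
    have h3 : b ≤ a + ε * a := by
      have h4 : b ≤ a + ‖Gr f u - Gr f v - fderiv ℝ (Gr f) x (u - v)‖ := by
        have := norm_add_le (fderiv ℝ (Gr f) x (u - v))
          (Gr f u - Gr f v - fderiv ℝ (Gr f) x (u - v))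
        rwa [add_sub_cancel] at this
      nlinarith
    have h5 : a ≤ b + ε * a := by
      have h6 : a ≤ b + ‖Gr f u - Gr f v - fderiv ℝ (Gr f) x (u - v)‖ := by
        have := norm_sub_le (Gr f u - Gr f v)
          (Gr f u - Gr f v - fderiv ℝ (Gr f) x (u - v))
        rwa [sub_sub_cancel] at this
      nlinarith
    have ha0 : 0 ≤ a := norm_nonneg _
    have hb0 : 0 ≤ b := norm_nonneg _
    have hKi : K * (1 / K) = 1 := by field_simp
    have hKpos : 0 < 1 / K := by positivity
    constructor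
    · have h7 : 2 - 1 / K ≤ K := by
        have h8 : 0 ≤ (K - 1) ^ 2 / K := by positivity
        have h9 : K + 1 / K - 2 = (K - 1) ^ 2 / K := by
          field_simp
          ring
        linarith
      have h10 : b ≤ (2 - 1 / K) * a := by
        rw [hε] at h3
        linarith
      exact h10.trans (mul_le_mul_of_nonneg_right h7 ha0)
    · have h7 : 1 / K * a ≤ b := by
        rw [hε] at h5
        linarith
      calc a = K * (1 / K * a) := by rw [← mul_assoc, hKi, one_mul]
        _ ≤ K * b := mul_le_mul_of_nonneg_left h7 hK0.le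

end

/-- Lipschitz maps and the normalised Hausdorff measure -/
theorem taskA1_lip {X Y : Type} [EMetricSpace X] [EMetricSpace Y] [MeasurableSpace X]
    [BorelSpace X] [MeasurableSpace Y] [BorelSpace Y] {K : ℝ≥0} {g : X → Y} {s : Set X}
    (h : LipschitzOnWith K g s) (m : ℕ) :
    (μHE[m] : Measure Y) (g '' s) ≤ (K : ℝ≥0∞) ^ m * (μHE[m] : Measure X) s := by
  have h1 := h.hausdorffMeasure_image_le (d := (m : ℝ)) (Nat.cast_nonneg m)
  rw [ENNReal.rpow_natCast] at h1
  simp_rw [Measure.euclideanHausdorffMeasure_def, Measure.smul_apply, Measure.nnreal_smul_coe_apply]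
  rw [mul_left_comm]
  exact mul_le_mul_right h1 _

section
variable {f : E m → ℝ} (hf : ContDiff ℝ 1 f) (x : E m)
include hf

/-- local comparison of measures -/
theorem taskA1_local_meas {K : ℝ≥0} (hK : 1 < K) : ∃ U ∈ 𝓝 x,
    (∀ s ⊆ U, (μHE[m] : Measure (E (m + 1))) (Gr f '' s) ≤
      (K : ℝ≥0∞) ^ m * (ENNReal.ofReal (taskA1_J f x) * (volume : Measure (E m)) s)) ∧
    (∀ s ⊆ U, ENNReal.ofReal (taskA1_J f x) * (volume : Measure (E m)) s ≤
      (K : ℝ≥0∞) ^ m * (μHE[m] : Measure (E (m + 1))) (Gr f '' s)) ∧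
    (∀ s ⊆ U, MeasurableSet s → ENNReal.ofReal (taskA1_J f x) * (volume : Measure (E m)) s ≤
      K * ∫⁻ u in s, ENNReal.ofReal (taskA1_J f u) ∂(volume : Measure (E m))) ∧
    (∀ s ⊆ U, MeasurableSet s →
      ∫⁻ u in s, ENNReal.ofReal (taskA1_J f u) ∂(volume : Measure (E m)) ≤
      K * (ENNReal.ofReal (taskA1_J f x) * (volume : Measure (E m)) s)) := by
  have hK' : (1 : ℝ) < K := by exact_mod_cast hK
  obtain ⟨U, hU, hJ, hd⟩ := taskA1_local_dist hf x hK'
  have hJx := taskA1_one_le_J f x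
  refine ⟨U, hU, ?_, ?_, ?_, ?_⟩
  · intro s hs
    rw [← taskA1_haus_A hf x s]
    have hl : LipschitzOnWith K (fun z => Gr f (pr z)) (fderiv ℝ (Gr f) x '' s) := by
      refine LipschitzOnWith.of_dist_le_mul ?_
      rintro _ ⟨u, hu, rfl⟩ _ ⟨v, hv, rfl⟩
      simp only [taskA1_pr_A hf]
      rw [dist_eq_norm, dist_eq_norm, ← map_sub]
      exact (hd u (hs hu) v (hs hv)).1
    have h := taskA1_lip hl m
    have himg : (fun z => Gr f (pr z)) '' (fderiv ℝ (Gr f) x '' s) = Gr f '' s := by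
      rw [image_image]
      simp only [taskA1_pr_A hf]
    rwa [himg] at h
  · intro s hs
    rw [← taskA1_haus_A hf x s]
    have hl : LipschitzOnWith K (fun z => fderiv ℝ (Gr f) x (pr z)) (Gr f '' s) := by
      refine LipschitzOnWith.of_dist_le_mul ?_
      rintro _ ⟨u, hu, rfl⟩ _ ⟨v, hv, rfl⟩
      simp only [taskA1_pr_Gr]
      rw [dist_eq_norm, dist_eq_norm, ← map_sub]
      exact (hd u (hs hu) v (hs hv)).2
    have h := taskA1_lip hl m
    have himg : (fun z => fderiv ℝ (Gr f) x (pr z)) '' (Gr f '' s) =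
        fderiv ℝ (Gr f) x '' s := by
      rw [image_image]
      simp only [taskA1_pr_Gr]
    rwa [himg] at h
  · intro s hs hsm
    have h1 : ∫⁻ _ in s, ENNReal.ofReal (taskA1_J f x) ∂(volume : Measure (E m)) ≤
        ∫⁻ u in s, K * ENNReal.ofReal (taskA1_J f u) ∂(volume : Measure (E m)) := by
      refine setLIntegral_mono' hsm fun u hu => ?_
      have h2 := (hJ u (hs hu)).2
      calc ENNReal.ofReal (taskA1_J f x) ≤ ENNReal.ofReal (K * taskA1_J f u) :=
            ENNReal.ofReal_le_ofReal h2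
        _ = K * ENNReal.ofReal (taskA1_J f u) := by
          rw [ENNReal.ofReal_mul K.coe_nonneg, ENNReal.ofReal_coe_nnreal]
    rw [setLIntegral_const, lintegral_const_mul' _ _ ENNReal.coe_ne_top] at h1
    exact h1
  · intro s hs hsm
    have h1 : ∫⁻ u in s, ENNReal.ofReal (taskA1_J f u) ∂(volume : Measure (E m)) ≤
        ∫⁻ _ in s, K * ENNReal.ofReal (taskA1_J f x) ∂(volume : Measure (E m)) := by
      refine setLIntegral_mono' hsm fun u hu => ?_
      have h2 := (hJ u (hs hu)).1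
      calc ENNReal.ofReal (taskA1_J f u) ≤ ENNReal.ofReal (K * taskA1_J f x) :=
            ENNReal.ofReal_le_ofReal h2
        _ = K * ENNReal.ofReal (taskA1_J f x) := by
          rw [ENNReal.ofReal_mul K.coe_nonneg, ENNReal.ofReal_coe_nnreal]
    rw [setLIntegral_const, mul_assoc] at h1
    exact h1

theorem taskA1_emb : MeasurableEmbedding (Gr f) :=
  (taskA1_contDiff_Gr hf).continuous.measurableEmbedding (taskA1_Gr_inj f)

/-- the area formula, as an equality of measures -/
theorem taskA1_area : Measure.comap (Gr f) (μHE[m] : Measure (E (m + 1))) =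
    (volume : Measure (E m)).withDensity (fun u => ENNReal.ofReal (taskA1_J f u)) := by
  set ν := Measure.comap (Gr f) (μHE[m] : Measure (E (m + 1))) with hν
  set ρ := (volume : Measure (E m)).withDensity (fun u => ENNReal.ofReal (taskA1_J f u)) with hρ
  have hνs : ∀ s, ν s = (μHE[m] : Measure (E (m + 1))) (Gr f '' s) :=
    fun s => (taskA1_emb hf).comap_apply _ _
  have hρs : ∀ s, MeasurableSet s →
      ρ s = ∫⁻ u in s, ENNReal.ofReal (taskA1_J f u) ∂(volume : Measure (E m)) :=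
    fun s hs => withDensity_apply _ hs
  have key1 : ∀ K : ℝ≥0, 1 < K → ∀ s, MeasurableSet s →
      ν s ≤ ((K ^ (m + 1) : ℝ≥0) : ℝ≥0∞) * ρ s := by
    intro K hK
    refine taskA1_le_of_local ν ρ _ fun y => ?_
    obtain ⟨U, hU, h1, h2, h3, h4⟩ := taskA1_local_meas hf y hK
    refine ⟨U, hU, fun s hs hsm => ?_⟩
    rw [hνs, hρs s hsm]
    calc (μHE[m] : Measure (E (m + 1))) (Gr f '' s) ≤
          (K : ℝ≥0∞) ^ m * (ENNReal.ofReal (taskA1_J f y) * (volume : Measure (E m)) s) := h1 s hs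
      _ ≤ (K : ℝ≥0∞) ^ m *
          (K * ∫⁻ u in s, ENNReal.ofReal (taskA1_J f u) ∂(volume : Measure (E m))) :=
        mul_le_mul_right (h3 s hs hsm) _
      _ = _ := by
        rw [← mul_assoc]
        congr 1
  have key2 : ∀ K : ℝ≥0, 1 < K → ∀ s, MeasurableSet s →
      ρ s ≤ ((K ^ (m + 1) : ℝ≥0) : ℝ≥0∞) * ν s := by
    intro K hK
    refine taskA1_le_of_local ρ ν _ fun y => ?_
    obtain ⟨U, hU, h1, h2, h3, h4⟩ := taskA1_local_meas hf y hK
    refine ⟨U, hU, fun s hs hsm => ?_⟩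
    rw [hνs, hρs s hsm]
    calc ∫⁻ u in s, ENNReal.ofReal (taskA1_J f u) ∂(volume : Measure (E m)) ≤
          K * (ENNReal.ofReal (taskA1_J f y) * (volume : Measure (E m)) s) := h4 s hs hsm
      _ ≤ K * ((K : ℝ≥0∞) ^ m * (μHE[m] : Measure (E (m + 1))) (Gr f '' s)) :=
        mul_le_mul_right (h2 s hs) _
      _ = _ := by
        rw [← mul_assoc]
        congr 1
        rw [ENNReal.coe_pow, pow_succ']
  have lim : ∀ a b : ℝ≥0∞, (∀ K : ℝ≥0, 1 < K → a ≤ ((K ^ (m + 1) : ℝ≥0) : ℝ≥0∞) * b) →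
      a ≤ b := by
    intro a b h
    have ht : Tendsto (fun K : ℝ≥0 => ((K ^ (m + 1) : ℝ≥0) : ℝ≥0∞) * b) (𝓝[>] 1) (𝓝 (1 * b)) := by
      refine ENNReal.Tendsto.mul_const ?_ (Or.inl one_ne_zero)
      have hc : Continuous (fun K : ℝ≥0 => ((K ^ (m + 1) : ℝ≥0) : ℝ≥0∞)) :=
        ENNReal.continuous_coe.comp (continuous_pow (m + 1))
      have := hc.tendsto 1
      simp only [one_pow, ENNReal.coe_one] at this
      exact this.mono_left nhdsWithin_le_nhds
    rw [one_mul] at ht
    refine ge_of_tendsto ht ?_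
    filter_upwards [self_mem_nhdsWithin] with K hK using h K hK
  ext s hs
  exact le_antisymm (lim _ _ fun K hK => key1 K hK s hs) (lim _ _ fun K hK => key2 K hK s hs)

end

end

theorem taskA1 : TaskA1 := by
  intro m f hf h hh _
  rw [← taskA1_range_Gr f, ← (taskA1_emb hf).map_comap, (taskA1_emb hf).integral_map,
    taskA1_area hf]
  have hJm : Measurable (fun u => (taskA1_J f u).toNNReal) :=
    (taskA1_cont_J hf).measurable.real_toNNReal
  have e1 : (volume : Measure (E m)).withDensity (fun u => ENNReal.ofReal (taskA1_J f u)) =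
      (volume : Measure (E m)).withDensity (fun u => ((taskA1_J f u).toNNReal : ℝ≥0∞)) := rfl
  rw [e1, integral_withDensity_eq_integral_smul hJm]
  refine integral_congr_ae (Eventually.of_forall fun u => ?_)
  simp only
  rw [NNReal.smul_def, smul_eq_mul,
    Real.coe_toNNReal _ (le_trans zero_le_one (taskA1_one_le_J f u)), mul_comm]
  rfl

end Pool.Agent.Helper876.SM
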