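import Pool.Agent.Helper876_Robin.SMDefs

set_option autoImplicit false

open MeasureTheory Set Metric Filter Topology
open scoped ENNReal NNReal InnerProductSpace

namespace Pool.Agent.Helper876.SM

/-- the linear map `(w, s) ↦ (w, s)` -/
noncomputable def Psi (m : ℕ) : E m × ℝ →L[ℝ] E (m + 1) := LinearMap.toContinuousLinearMap
  { toFun := fun p => WithLp.toLp 2 (Fin.snoc (α := fun _ => ℝ) (fun i => p.1 i) p.2)
    map_add' := by
      intro p q
      ext i
      refine Fin.lastCases ?_ (fun j => ?_) i <;> simp
    map_smul' := by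
      intro c p
      ext i
      refine Fin.lastCases ?_ (fun j => ?_) i <;> simp }

theorem Psi_apply {m : ℕ} (p : E m × ℝ) :
    Psi m p = WithLp.toLp 2 (Fin.snoc (α := fun _ => ℝ) (fun i => p.1 i) p.2) := rfl

theorem Psi_last {m : ℕ} (p : E m × ℝ) : (Psi m p) (Fin.last m) = p.2 := by
  rw [Psi_apply]; simp

theorem pr_Psi {m : ℕ} (p : E m × ℝ) : pr (Psi m p) = p.1 := by
  rw [Psi_apply, pr]
  ext i
  simp

theorem Psi_pr {m : ℕ} (z : E (m + 1)) : Psi m (pr z, z (Fin.last m)) = z := by
  rw [Psi_apply, pr]
  ext i
  refine Fin.lastCases ?_ (fun j => ?_) i <;> simp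

theorem continuous_pr {m : ℕ} : Continuous (pr : E (m + 1) → E m) := by
  unfold pr
  fun_prop

theorem Psi_mp (m : ℕ) : MeasurePreserving (Psi m : E m × ℝ → E (m + 1)) (volume.prod volume) volume := by
  have h1 : MeasurePreserving (fun p : E m × ℝ => (p.2, (WithLp.ofLp p.1 : Fin m → ℝ)))
      (volume.prod volume) (volume.prod volume) := by
    have := (MeasurePreserving.id (volume : Measure ℝ)).prod (PiLp.volume_preserving_ofLp (Fin m))
    exact this.comp Measure.measurePreserving_swap
  have h2 := (volume_preserving_piFinSuccAbove (fun _ : Fin (m + 1) => ℝ) (Fin.last m)).symm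
  have h3 := (PiLp.volume_preserving_toLp (Fin (m + 1))).comp (h2.comp h1)
  have h4 : (Psi m : E m × ℝ → E (m + 1)) = (@WithLp.toLp 2 (Fin (m + 1) → ℝ)) ∘
      (MeasurableEquiv.piFinSuccAbove (fun _ : Fin (m + 1) => ℝ) (Fin.last m)).symm ∘
      (fun p : E m × ℝ => (p.2, (WithLp.ofLp p.1 : Fin m → ℝ))) := by
    funext p
    simp only [Function.comp, Psi_apply]
    congr 1
    change _ = (Fin.last m).insertNth (α := fun _ => ℝ) p.2 (WithLp.ofLp p.1)
    rw [Fin.insertNth_last']
  rw [h4]
  exact h3

section
variable {m : ℕ} {f : E m → ℝ}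

/-- the sheared parametrisation as a homeomorphism -/
noncomputable def Ph (f : E m → ℝ) (hf : Continuous f) : E m × ℝ ≃ₜ E (m + 1) where
  toFun p := Psi m (p.1, f p.1 + p.2)
  invFun z := (pr z, z (Fin.last m) - f (pr z))
  left_inv p := by
    simp only [pr_Psi, Psi_last]
    ext <;> simp
  right_inv z := by
    simp only
    rw [add_sub_cancel, Psi_pr]
  continuous_toFun := by
    refine (Psi m).continuous.comp ?_
    fun_prop
  continuous_invFun := by
    have := continuous_pr (m := m)
    fun_prop

theorem Ph_mp (hf : Continuous f) :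
    MeasurePreserving (Ph f hf : E m × ℝ → E (m + 1)) (volume.prod volume) volume := by
  have h1 : MeasurePreserving (fun p : E m × ℝ => (p.1, f p.1 + p.2))
      (volume.prod volume) (volume.prod volume) := by
    refine (MeasurePreserving.id (volume : Measure (E m))).skew_product (g := fun u s => f u + s) ?_ ?_
    · exact (by fun_prop : Continuous fun p : E m × ℝ => f p.1 + p.2).measurable
    · refine Eventually.of_forall fun u => ?_
      exact (measurePreserving_add_left volume (f u)).map_eq
  exact (Psi_mp m).comp h1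

end

/-- the integral of a directional derivative of a compactly supported `C¹` function vanishes -/
theorem integral_fderiv_zero {m : ℕ} {H : E m → ℝ} (hH : ContDiff ℝ 1 H) (hc : HasCompactSupport H)
    (w : E m) : ∫ u, fderiv ℝ H u w = 0 := by
  have h1 : Integrable (fun u => fderiv ℝ H u w) := by
    refine Continuous.integrable_of_hasCompactSupport ?_ ?_
    · exact (hH.continuous_fderiv one_ne_zero).clm_apply continuous_const
    · refine (hc.fderiv (𝕜 := ℝ)).mono' ?_
      intro u hu
      refine subset_tsupport _ ?_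
      intro h0
      apply hu
      change fderiv ℝ H u w = 0
      rw [show fderiv ℝ H u = 0 from h0]
      rfl
  have h2 := integral_mul_fderiv_eq_neg_fderiv_mul_of_integrable (μ := (volume : Measure (E m)))
    (f := fun _ : E m => (1 : ℝ)) (g := H) (v := w) (by simp) (by simpa using h1)
    (by simpa using hH.continuous.integrable_of_hasCompactSupport hc)
    (fun x _ => differentiableAt_const _) (fun x _ => (hH.differentiable one_ne_zero) x)
  simpa using h2

theorem taskA2 : TaskA2 := by
  intro m f hf F hF hFc v
  have hfc : Continuous f := hf.continuous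
  have hFd : Differentiable ℝ F := hF.differentiable one_ne_zero
  have hfd : Differentiable ℝ f := hf.differentiable one_ne_zero
  set Φ := Ph f hfc with hΦ
  have hΦa : ∀ p, Φ p = Psi m (p.1, f p.1 + p.2) := fun p => rfl
  set e3 : E (m + 1) := Psi m (0, 1) with he3
  have hv : ∀ u : E m, v = Psi m (pr v, fderiv ℝ f u (pr v)) + (v (Fin.last m) - fderiv ℝ f u (pr v)) • e3 := by
    intro u
    rw [he3, ← map_smul, ← map_add]
    conv_lhs => rw [← Psi_pr v]
    congr 1
    ext <;> simp
  -- continuity of the derivative
  have hDF : Continuous fun z => fderiv ℝ F z := hF.continuous_fderiv one_ne_zero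
  have hDf : Continuous fun u => fderiv ℝ f u := hf.continuous_fderiv one_ne_zero
  have hcs : HasCompactSupport (fun z => fderiv ℝ F z) := hFc.fderiv (𝕜 := ℝ)
  -- the two parts
  let A : E m × ℝ → ℝ := fun p => fderiv ℝ F (Φ p) (Psi m (pr v, fderiv ℝ f p.1 (pr v)))
  let B : E m × ℝ → ℝ := fun p => (v (Fin.last m) - fderiv ℝ f p.1 (pr v)) * fderiv ℝ F (Φ p) e3
  have hsplit : ∀ p, fderiv ℝ F (Φ p) v = A p + B p := by
    intro p
    conv_lhs => rw [hv p.1]
    rw [map_add, map_smul, smul_eq_mul]
  have hcsΦ : HasCompactSupport (fun p => fderiv ℝ F (Φ p)) := hcs.comp_homeomorph Φ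
  have hAc : Continuous A := by
    have h1 : Continuous fun p => fderiv ℝ F (Φ p) := hDF.comp Φ.continuous
    have h2 : Continuous fun p : E m × ℝ => Psi m (pr v, fderiv ℝ f p.1 (pr v)) := by
      refine (Psi m).continuous.comp ?_
      have := hDf.comp (continuous_fst : Continuous (Prod.fst : E m × ℝ → E m))
      exact continuous_const.prodMk (this.clm_apply continuous_const)
    exact h1.clm_apply h2
  have hBc : Continuous B := by
    have h1 : Continuous fun p => fderiv ℝ F (Φ p) := hDF.comp Φ.continuous
    have := hDf.comp (continuous_fst : Continuous (Prod.fst : E m × ℝ → E m))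
    exact (continuous_const.sub (this.clm_apply continuous_const)).mul
      (h1.clm_apply continuous_const)
  have hAs : HasCompactSupport A := by
    refine hcsΦ.mono' ?_
    intro p hp
    refine subset_tsupport _ ?_
    intro h0
    apply hp
    change fderiv ℝ F (Φ p) _ = 0
    rw [show fderiv ℝ F (Φ p) = 0 from h0]
    rfl
  have hBs : HasCompactSupport B := by
    refine hcsΦ.mono' ?_
    intro p hp
    refine subset_tsupport _ ?_
    intro h0
    apply hp
    change _ * fderiv ℝ F (Φ p) _ = 0
    rw [show fderiv ℝ F (Φ p) = 0 from h0]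
    simp
  have hAi : Integrable A (volume.prod volume) := hAc.integrable_of_hasCompactSupport hAs
  have hBi : Integrable B (volume.prod volume) := hBc.integrable_of_hasCompactSupport hBs
  have hpre : (Φ : E m × ℝ → E (m + 1)) ⁻¹' {z : E (m + 1) | z (Fin.last m) < f (pr z)} = univ ×ˢ Iio (0 : ℝ) := by
    ext p
    simp only [mem_preimage, mem_setOf_eq, hΦa, Psi_last, pr_Psi, mem_prod, mem_univ, true_and,
      mem_Iio]
    constructor <;> intro h <;> linarith
  have e1 : ∫ z in {z : E (m + 1) | z (Fin.last m) < f (pr z)}, fderiv ℝ F z v =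
      ∫ p in (univ : Set (E m)) ×ˢ Iio (0 : ℝ), fderiv ℝ F (Φ p) v ∂(volume.prod volume) := by
    rw [← hpre]
    exact ((Ph_mp hfc).setIntegral_preimage_emb Φ.measurableEmbedding
      (fun z => fderiv ℝ F z v) _).symm
  rw [e1]
  simp_rw [hsplit]
  rw [integral_add hAi.integrableOn hBi.integrableOn]
  -- first part vanishes
  have hA0 : ∫ p in (univ : Set (E m)) ×ˢ Iio (0 : ℝ), A p ∂(volume.prod volume) = 0 := by
    have hi : Integrable A ((volume.restrict univ).prod (volume.restrict (Iio (0 : ℝ)))) := by
      rw [Measure.prod_restrict]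
      exact hAi.integrableOn
    rw [← Measure.prod_restrict, integral_prod_symm _ hi, Measure.restrict_univ]
    have h0 : ∀ s : ℝ, ∫ u : E m, A (u, s) = 0 := by
      intro s
      have hH : ContDiff ℝ 1 (fun u : E m => F (Φ (u, s))) := by
        have : ContDiff ℝ 1 (fun u : E m => Psi m (u, f u + s)) := by
          refine (Psi m).contDiff.comp ?_
          exact contDiff_id.prodMk (hf.add contDiff_const)
        exact hF.comp this
      have hHc : HasCompactSupport (fun u : E m => F (Φ (u, s))) := by
        refine HasCompactSupport.intro (K := pr '' tsupport F) (hFc.isCompact.image continuous_pr) ?_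
        intro u hu
        by_contra h
        apply hu
        refine ⟨Φ (u, s), subset_tsupport _ h, ?_⟩
        rw [hΦa, pr_Psi]
      have hd : ∀ u : E m, fderiv ℝ (fun u : E m => F (Φ (u, s))) u (pr v) = A (u, s) := by
        intro u
        have d1 : HasFDerivAt (fun u : E m => (u, f u + s))
            ((ContinuousLinearMap.id ℝ (E m)).prod (fderiv ℝ f u)) u := by
          refine (hasFDerivAt_id u).prodMk ?_
          exact (hfd u).hasFDerivAt.add_const s
        have d2 : HasFDerivAt (fun u : E m => Psi m (u, f u + s))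
            (Psi m ∘L ((ContinuousLinearMap.id ℝ (E m)).prod (fderiv ℝ f u))) u :=
          (Psi m).hasFDerivAt.comp u d1
        have d3 : HasFDerivAt (fun u : E m => F (Psi m (u, f u + s)))
            ((fderiv ℝ F (Psi m (u, f u + s))) ∘L
              (Psi m ∘L ((ContinuousLinearMap.id ℝ (E m)).prod (fderiv ℝ f u)))) u :=
          HasFDerivAt.comp u (hFd _).hasFDerivAt d2
        have d4 : fderiv ℝ (fun u : E m => F (Φ (u, s))) u = _ := d3.fderiv
        rw [d4]
        rfl
      rw [← integral_fderiv_zero hH hHc (pr v)]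
      exact integral_congr_ae (Eventually.of_forall fun u => (hd u).symm)
    simp [h0]
  have hB0 : ∫ p in (univ : Set (E m)) ×ˢ Iio (0 : ℝ), B p ∂(volume.prod volume) =
      ∫ u : E m, F (Gr f u) * (v (Fin.last m) - fderiv ℝ f u (pr v)) := by
    have hi : Integrable B ((volume.restrict univ).prod (volume.restrict (Iio (0 : ℝ)))) := by
      rw [Measure.prod_restrict]
      exact hBi.integrableOn
    rw [← Measure.prod_restrict, integral_prod _ hi, Measure.restrict_univ]
    refine integral_congr_ae (Eventually.of_forall fun u => ?_)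
    change ∫ s in Iio (0 : ℝ), (v (Fin.last m) - fderiv ℝ f u (pr v)) * fderiv ℝ F (Φ (u, s)) e3 = _
    rw [integral_const_mul, mul_comm]
    congr 1
    have hH : ContDiff ℝ 1 (fun s : ℝ => F (Φ (u, s))) := by
      have : ContDiff ℝ 1 (fun s : ℝ => Psi m (u, f u + s)) := by
        refine (Psi m).contDiff.comp ?_
        exact contDiff_const.prodMk (contDiff_const.add contDiff_id)
      exact hF.comp this
    have hHc : HasCompactSupport (fun s : ℝ => F (Φ (u, s))) := by
      refine HasCompactSupport.intro (K := (fun z : E (m + 1) => z (Fin.last m) - f (pr z)) '' tsupport F)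
        (hFc.isCompact.image ?_) ?_
      · have := continuous_pr (m := m)
        fun_prop
      intro s hs
      by_contra h
      apply hs
      refine ⟨Φ (u, s), subset_tsupport _ h, ?_⟩
      simp only [hΦa, pr_Psi, Psi_last]
      ring
    have hd : ∀ s : ℝ, deriv (fun s : ℝ => F (Φ (u, s))) s = fderiv ℝ F (Φ (u, s)) e3 := by
      intro s
      have d1 : HasDerivAt (fun s : ℝ => (u, f u + s)) ((0 : E m), (1 : ℝ)) s := by
        refine (hasDerivAt_const s u).prodMk ?_
        exact (hasDerivAt_id s).const_add (f u)
      have d2 : HasDerivAt (fun s : ℝ => Psi m (u, f u + s)) (Psi m ((0 : E m), (1 : ℝ))) s :=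
        (Psi m).hasFDerivAt.comp_hasDerivAt s d1
      have d3 : HasDerivAt (fun s : ℝ => F (Psi m (u, f u + s)))
          (fderiv ℝ F (Psi m (u, f u + s)) (Psi m ((0 : E m), (1 : ℝ)))) s :=
        HasFDerivAt.comp_hasDerivAt s (hFd _).hasFDerivAt d2
      exact d3.deriv
    simp_rw [← hd]
    rw [← integral_Iic_eq_integral_Iio, hHc.integral_Iic_deriv_eq hH 0, hΦa]
    congr 1
    rw [Psi_apply, Gr]
    simp
  rw [hA0, hB0, zero_add]

end Pool.Agent.Helper876.SM
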