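import Pool.Agent.Helper876_Robin.SMDefs

set_option autoImplicit false

open MeasureTheory Set Metric Filter Topology
open scoped ENNReal NNReal InnerProductSpace

namespace Pool.Agent.Helper876.SM

/-- the linear map `(u, s) ↦ (u, s)` -/
noncomputable def h877Jl {m : ℕ} : (E m × ℝ) →ₗ[ℝ] E (m + 1) where
  toFun w := WithLp.toLp 2 (Fin.snoc (fun i => w.1 i) w.2)
  map_add' a b := by
    ext i
    refine Fin.lastCases ?_ (fun i => ?_) i <;> simp
  map_smul' c a := by
    ext i
    refine Fin.lastCases ?_ (fun i => ?_) i <;> simp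

noncomputable def h877J {m : ℕ} : (E m × ℝ) →L[ℝ] E (m + 1) :=
  LinearMap.toContinuousLinearMap h877Jl

theorem h877_J_apply {m : ℕ} (w : E m × ℝ) :
    h877J w = WithLp.toLp 2 (Fin.snoc (fun i => w.1 i) w.2) := rfl

theorem h877_J_pr {m : ℕ} (z : E (m + 1)) : h877J (pr z, z (Fin.last m)) = z := by
  rw [h877_J_apply]
  ext i
  refine Fin.lastCases ?_ (fun i => ?_) i <;> simp [pr]

theorem h877_pr_J {m : ℕ} (w : E m × ℝ) : pr (h877J w) = w.1 := by
  rw [h877_J_apply]
  ext i
  simp [pr]

theorem h877_J_last {m : ℕ} (w : E m × ℝ) : (h877J w) (Fin.last m) = w.2 := by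
  rw [h877_J_apply]
  simp

theorem h877_cont_pr {m : ℕ} : Continuous (pr : E (m + 1) → E m) := by
  unfold pr
  fun_prop

theorem h877_cont_last {m : ℕ} : Continuous (fun z : E (m + 1) => z (Fin.last m)) := by
  fun_prop

theorem h877_inner_J {m : ℕ} (w : E m × ℝ) (v : E (m + 1)) :
    inner ℝ (h877J w) v = inner ℝ w.1 (pr v) + w.2 * v (Fin.last m) := by
  rw [h877_J_apply]
  simp only [PiLp.inner_apply, Fin.sum_univ_castSucc, Fin.snoc_castSucc, Fin.snoc_last, pr]
  congr 1
  simp [mul_comm]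

theorem h877_norm_J_sq {m : ℕ} (w : E m × ℝ) : ‖h877J w‖ ^ 2 = ‖w.1‖ ^ 2 + w.2 ^ 2 := by
  rw [← real_inner_self_eq_norm_sq, h877_inner_J, h877_pr_J, h877_J_last,
    real_inner_self_eq_norm_sq]
  ring

theorem h877_inner_grad {F : Type*} [NormedAddCommGroup F] [InnerProductSpace ℝ F]
    [CompleteSpace F] (f : F → ℝ) (x v : F) : inner ℝ (gradient f x) v = fderiv ℝ f x v := by
  unfold gradient
  rw [InnerProductSpace.toDual_symm_apply]

theorem h877_exists_isom {m : ℕ} (n : E (m + 1)) (hn : ‖n‖ = 1) :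
    ∃ A : E (m + 1) ≃ₗᵢ[ℝ] E (m + 1), A n = h877J (0, 1) := by
  have h1 : ‖(h877J (0, 1) : E (m + 1))‖ = 1 := by
    have := h877_norm_J_sq (m := m) (0, 1)
    simp only [norm_zero] at this
    have h2 : ‖(h877J (0, 1) : E (m + 1))‖ ^ 2 = 1 := by
      rw [this]; norm_num
    have h3 : 0 ≤ ‖(h877J (0, 1) : E (m + 1))‖ := norm_nonneg _
    nlinarith
  refine ⟨Submodule.reflection (ℝ ∙ (n - h877J (0, 1)))ᗮ, ?_⟩
  exact Submodule.reflection_sub (by rw [hn, h1])

/-- a nonzero linear form on `ℝ` is invertible -/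
theorem h877_invertible (L : ℝ →L[ℝ] ℝ) (h : L 1 ≠ 0) : L.IsInvertible := by
  refine ⟨ContinuousLinearEquiv.unitsEquivAut ℝ (Units.mk0 (L 1) h), ?_⟩
  ext
  simp

/-- unit normal -/
noncomputable def h877nu {m : ℕ} (g : E (m + 1) → ℝ) (x : E (m + 1)) : E (m + 1) :=
  ‖gradient g x‖⁻¹ • gradient g x

theorem taskA3 : TaskA3 := by
  intro m g hgC p hgp hgrad
  have hgpos : 0 < ‖gradient g p‖ := norm_pos_iff.2 hgrad
  have hn : ‖h877nu g p‖ = 1 := by
    unfold h877nu
    rw [norm_smul, norm_inv, norm_norm, inv_mul_cancel₀ hgpos.ne']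
  obtain ⟨A, hA⟩ := h877_exists_isom (h877nu g p) hn
  -- the function in the coordinates
  set H : E m × ℝ → ℝ := fun w => g (A.symm (h877J w)) with hH
  have hJA : ContDiff ℝ 1 (fun w : E m × ℝ => A.symm (h877J w)) :=
    A.symm.contDiff.comp h877J.contDiff
  have hHC : ContDiff ℝ 1 H := hgC.comp hJA
  have hgd : Differentiable ℝ g := hgC.differentiable (by norm_num)
  have hHd : Differentiable ℝ H := hHC.differentiable (by norm_num)
  have hfd : ∀ w q : E m × ℝ, fderiv ℝ H w q = fderiv ℝ g (A.symm (h877J w)) (A.symm (h877J q)) := by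
    intro w q
    have h1 : HasFDerivAt (fun w : E m × ℝ => A.symm (h877J w))
        ((A.symm : E (m + 1) ≃L[ℝ] E (m + 1)).toContinuousLinearMap.comp h877J) w :=
      ((A.symm : E (m + 1) ≃L[ℝ] E (m + 1)).toContinuousLinearMap.comp h877J).hasFDerivAt
    have h2 : HasFDerivAt H _ w := (hgd (A.symm (h877J w))).hasFDerivAt.comp w h1
    rw [h2.fderiv]
    rfl
  -- base point
  set u0 : E m := pr (A p) with hu0
  set s0 : ℝ := (A p) (Fin.last m) with hs0
  have hJ0 : h877J (u0, s0) = A p := h877_J_pr (A p)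
  have hAJ : ∀ z : E (m + 1), A.symm (h877J (pr (A z), (A z) (Fin.last m))) = z := by
    intro z
    rw [h877_J_pr, LinearIsometryEquiv.symm_apply_apply]
  have hH0 : H (u0, s0) = 0 := by
    rw [hH]
    change g (A.symm (h877J (pr (A p), (A p) (Fin.last m)))) = 0
    rw [hAJ, hgp]
  have hsymm : A.symm (h877J ((0 : E m), (1 : ℝ))) = h877nu g p := by
    rw [← hA, LinearIsometryEquiv.symm_apply_apply]
  have ha0 : 0 < fderiv ℝ H (u0, s0) ((0 : E m), (1 : ℝ)) := by
    rw [hfd, hsymm]
    have h1 : A.symm (h877J (u0, s0)) = p := hAJ p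
    rw [h1, ← h877_inner_grad]
    unfold h877nu
    rw [real_inner_smul_right, real_inner_self_eq_norm_sq]
    positivity
  have hinv : (fderiv ℝ H (u0, s0) ∘L .inr ℝ (E m) ℝ).IsInvertible := by
    apply h877_invertible
    change fderiv ℝ H (u0, s0) ((0 : E m), (1 : ℝ)) ≠ 0
    exact ha0.ne'
  have hcd : ContDiffAt ℝ 1 H (u0, s0) := hHC.contDiffAt
  set ψ := hcd.implicitFunction one_ne_zero hinv with hψ
  have hψ0 : ψ u0 = s0 := hcd.implicitFunction_apply_self one_ne_zero hinv
  have hψ1 : ∀ᶠ x in 𝓝 u0, H (x, ψ x) = H (u0, s0) :=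
    hcd.eventually_apply_implicitFunction one_ne_zero hinv
  have hψ2 : ContDiffAt ℝ 1 ψ u0 := hcd.contDiffAt_implicitFunction one_ne_zero hinv
  have hψ3 : ∀ᶠ x in 𝓝 u0, ContDiffAt ℝ 1 ψ x := hψ2.eventually (by simp)
  have hpos : ∀ᶠ w in 𝓝 (u0, s0), 0 < fderiv ℝ H w ((0 : E m), (1 : ℝ)) := by
    have hcont : Continuous (fun w => fderiv ℝ H w ((0 : E m), (1 : ℝ))) :=
      (hHC.continuous_fderiv (by norm_num)).clm_apply continuous_const
    exact hcont.continuousAt.eventually (lt_mem_nhds ha0)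
  rw [Metric.eventually_nhds_iff_ball] at hψ1 hψ3 hpos
  obtain ⟨r1, hr1, hψ1⟩ := hψ1
  obtain ⟨r3, hr3, hψ3⟩ := hψ3
  obtain ⟨r, hr, hpos⟩ := hpos
  have hψ4 : ∀ᶠ x in 𝓝 u0, ψ x ∈ Metric.ball s0 r := by
    have h1 : Tendsto ψ (𝓝 u0) (𝓝 (ψ u0)) := hψ2.continuousAt
    rw [hψ0] at h1
    exact h1 (Metric.ball_mem_nhds s0 hr)
  rw [Metric.eventually_nhds_iff_ball] at hψ4
  obtain ⟨r4, hr4, hψ4⟩ := hψ4
  set ρ : ℝ := min (min r1 r3) (min r r4) with hρ
  have hρ0 : 0 < ρ := lt_min (lt_min hr1 hr3) (lt_min hr hr4)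
  have hρ1 : ρ ≤ r1 := le_trans (min_le_left _ _) (min_le_left _ _)
  have hρ3 : ρ ≤ r3 := le_trans (min_le_left _ _) (min_le_right _ _)
  have hρr : ρ ≤ r := le_trans (min_le_right _ _) (min_le_left _ _)
  have hρ4 : ρ ≤ r4 := le_trans (min_le_right _ _) (min_le_right _ _)
  let χ : ContDiffBump u0 := ⟨ρ / 4, ρ / 2, by positivity, by linarith⟩
  set f : E m → ℝ := fun u => χ u * ψ u with hf
  have hfC : ContDiff ℝ 1 f := by
    rw [contDiff_iff_contDiffAt]
    intro u
    by_cases hu : u ∈ Metric.ball u0 ρ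
    · exact (χ.contDiff.contDiffAt).mul (hψ3 u (Metric.ball_subset_ball hρ3 hu))
    · have hz : f =ᶠ[𝓝 u] fun _ => 0 := by
        have hopen : IsOpen (Metric.closedBall u0 (ρ / 2))ᶜ := Metric.isClosed_closedBall.isOpen_compl
        have hmem : u ∈ (Metric.closedBall u0 (ρ / 2))ᶜ := by
          intro h
          apply hu
          rw [Metric.mem_closedBall] at h
          rw [Metric.mem_ball]
          linarith
        filter_upwards [hopen.mem_nhds hmem] with x hx
        have : χ x = 0 := by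
          apply χ.zero_of_le_dist
          change ρ / 2 ≤ dist x u0
          have hx' : ¬ dist x u0 ≤ ρ / 2 := hx
          linarith
        rw [hf]
        change χ x * ψ x = 0
        rw [this, zero_mul]
      exact contDiffAt_const.congr_of_eventuallyEq hz
  have hfψ : ∀ u ∈ Metric.ball u0 (ρ / 4), f u = ψ u := by
    intro u hu
    have : χ u = 1 := χ.one_of_mem_closedBall (Metric.ball_subset_closedBall hu)
    rw [hf]
    change χ u * ψ u = ψ u
    rw [this, one_mul]
  refine ⟨A, f, {z | pr (A z) ∈ Metric.ball u0 (ρ / 4) ∧ (A z) (Fin.last m) ∈ Metric.ball s0 r}, hfC, ?_, ?_,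
    ?_⟩
  · apply IsOpen.inter
    · exact Metric.isOpen_ball.preimage (h877_cont_pr.comp A.continuous)
    · exact Metric.isOpen_ball.preimage (h877_cont_last.comp A.continuous)
  · exact ⟨Metric.mem_ball_self (by positivity), Metric.mem_ball_self hr⟩
  · rintro z ⟨hz1, hz2⟩
    set u : E m := pr (A z) with hu
    set s : ℝ := (A z) (Fin.last m) with hs
    have hzeq : A.symm (h877J (u, s)) = z := hAJ z
    have hgH : g z = H (u, s) := by
      rw [hH]
      change g z = g (A.symm (h877J (u, s)))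
      rw [hzeq]
    have huρ : u ∈ Metric.ball u0 ρ := Metric.ball_subset_ball (by linarith) hz1
    have hfu : f u = ψ u := hfψ u hz1
    have hψu : ψ u ∈ Metric.ball s0 r := hψ4 u (Metric.ball_subset_ball hρ4 huρ)
    have hψz : H (u, ψ u) = 0 := by
      rw [hψ1 u (Metric.ball_subset_ball hρ1 huρ), hH0]
    have hmono : StrictMonoOn (fun t : ℝ => H (u, t)) (Metric.ball s0 r) := by
      apply strictMonoOn_of_deriv_pos (convex_ball s0 r)
      · exact (hHC.continuous.comp (by fun_prop)).continuousOn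
      · intro t ht
        rw [Metric.isOpen_ball.interior_eq] at ht
        have h1 : HasFDerivAt H (fderiv ℝ H (u, t)) (u, t) := (hHd (u, t)).hasFDerivAt
        have h2 : HasDerivAt (fun t : ℝ => (u, t)) ((0 : E m), (1 : ℝ)) t :=
          (hasDerivAt_const t u).prodMk (hasDerivAt_id t)
        have h3 : HasDerivAt (fun t : ℝ => H (u, t)) (fderiv ℝ H (u, t) ((0 : E m), (1 : ℝ))) t :=
          h1.comp_hasDerivAt t h2
        rw [h3.deriv]
        apply hpos
        rw [Metric.mem_ball, Prod.dist_eq]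
        apply max_lt
        · exact lt_of_lt_of_le huρ hρr
        · exact ht
    refine ⟨?_, ?_, ?_⟩
    · rw [hgH, hfu, ← hψz]
      exact hmono.lt_iff_lt hz2 hψu
    · rw [hgH, hfu, ← hψz]
      exact hmono.eq_iff_eq hz2 hψu
    · intro hgz v
      have hsψ : s = ψ u := by
        rw [hgH, ← hψz] at hgz
        exact (hmono.eq_iff_eq hz2 hψu).1 hgz
      set a : ℝ := fderiv ℝ H (u, s) ((0 : E m), (1 : ℝ)) with ha
      have hapos : 0 < a := by
        apply hpos
        rw [Metric.mem_ball, Prod.dist_eq]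
        apply max_lt
        · exact lt_of_lt_of_le huρ hρr
        · exact hz2
      have hψd : DifferentiableAt ℝ ψ u :=
        (hψ3 u (Metric.ball_subset_ball hρ3 huρ)).differentiableAt (by norm_num)
      have hfde : fderiv ℝ f u = fderiv ℝ ψ u := by
        apply Filter.EventuallyEq.fderiv_eq
        filter_upwards [Metric.isOpen_ball.mem_nhds hz1] with x hx
        exact hfψ x hx
      have hzero : ∀ w : E m, fderiv ℝ H (u, s) (w, fderiv ℝ f u w) = 0 := by
        intro w
        have h1 : HasFDerivAt H (fderiv ℝ H (u, ψ u)) (u, ψ u) := (hHd (u, ψ u)).hasFDerivAt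
        have h2 : HasFDerivAt (fun x : E m => (x, ψ x))
            ((ContinuousLinearMap.id ℝ (E m)).prod (fderiv ℝ ψ u)) u :=
          (hasFDerivAt_id u).prodMk hψd.hasFDerivAt
        have h3 : HasFDerivAt (fun x : E m => H (x, ψ x)) ((fderiv ℝ H (u, ψ u)).comp
            ((ContinuousLinearMap.id ℝ (E m)).prod (fderiv ℝ ψ u))) u :=
          HasFDerivAt.comp (g := H) u h1 h2
        have h4 : (fun x : E m => H (x, ψ x)) =ᶠ[𝓝 u] fun _ => (0 : ℝ) := by
          filter_upwards [Metric.isOpen_ball.mem_nhds (Metric.ball_subset_ball hρ1 huρ)] with x hx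
          rw [hψ1 x hx, hH0]
        have h5 : HasFDerivAt (fun x : E m => H (x, ψ x)) (0 : E m →L[ℝ] ℝ) u :=
          (hasFDerivAt_const (0 : ℝ) u).congr_of_eventuallyEq h4
        have h6 := h3.unique h5
        have h7 := congrArg (fun L : E m →L[ℝ] ℝ => L w) h6
        simp only [ContinuousLinearMap.comp_apply, ContinuousLinearMap.prod_apply,
          ContinuousLinearMap.id_apply, ContinuousLinearMap.zero_apply] at h7
        rw [hfde, hsψ]
        exact h7
      have hsplit : ∀ (w : E m) (t : ℝ), fderiv ℝ H (u, s) (w, t) = a * (t - fderiv ℝ f u w) := by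
        intro w t
        have h1 : ((w, t) : E m × ℝ) = (w, fderiv ℝ f u w) + (t - fderiv ℝ f u w) • ((0 : E m), (1 : ℝ)) := by
          ext i
          · simp
          · simp
        rw [h1, map_add, map_smul, hzero w, zero_add, smul_eq_mul, ha]
        ring
      have hgv : ∀ v : E (m + 1), fderiv ℝ g z v = a * ((A v) (Fin.last m) - fderiv ℝ f u (pr (A v))) := by
        intro v
        rw [← hsplit, hfd, hzeq, hAJ]
      set N : E (m + 1) := A.symm (h877J (-gradient f u, 1)) with hN
      have hNv : ∀ v : E (m + 1), inner ℝ N v = (A v) (Fin.last m) - fderiv ℝ f u (pr (A v)) := by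
        intro v
        have h1 : inner ℝ N v = inner ℝ (h877J (-gradient f u, 1)) (A v) := by
          rw [hN]
          conv_lhs => rw [← LinearIsometryEquiv.symm_apply_apply A v]
          rw [LinearIsometryEquiv.inner_map_map]
        rw [h1, h877_inner_J, inner_neg_left, h877_inner_grad]
        ring
      have hgN : gradient g z = a • N := by
        apply ext_inner_right ℝ
        intro v
        rw [h877_inner_grad, hgv, real_inner_smul_left, hNv]
      have hNn : ‖N‖ = Real.sqrt (1 + ‖gradient f u‖ ^ 2) := by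
        have h1 : ‖N‖ ^ 2 = 1 + ‖gradient f u‖ ^ 2 := by
          rw [hN, LinearIsometryEquiv.norm_map, h877_norm_J_sq, norm_neg]
          ring
        rw [← h1, Real.sqrt_sq (norm_nonneg _)]
      have hNpos : 0 < ‖N‖ := by
        rw [hNn]
        positivity
      rw [hgN, norm_smul, Real.norm_eq_abs, abs_of_pos hapos, smul_smul, real_inner_smul_left, hNv,
        ← hNn]
      field_simp

end Pool.Agent.Helper876.SM
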