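import Pool.Agent.Helper876_Robin.SMDefs

set_option autoImplicit false

open MeasureTheory Set Metric Filter Topology
open scoped ENNReal NNReal InnerProductSpace

namespace Pool.Agent.Helper876.SM

/-- region below the graph of `f` -/
def gg_LS {m : ℕ} (f : E m → ℝ) : Set (E (m + 1)) := {z | z (Fin.last m) < f (pr z)}

/-- graph of `f` -/
def gg_GS {m : ℕ} (f : E m → ℝ) : Set (E (m + 1)) := {z | z (Fin.last m) = f (pr z)}

/-- the unit normal -/
noncomputable def gg_nu {m : ℕ} (g : E (m + 1) → ℝ) (y : E (m + 1)) : E (m + 1) :=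
  ‖gradient g y‖⁻¹ • gradient g y

/-- the zero set -/
def gg_Sg {m : ℕ} (g : E (m + 1) → ℝ) : Set (E (m + 1)) := {x | g x = 0}

/-- the negativity set -/
def gg_Om {m : ℕ} (g : E (m + 1) → ℝ) : Set (E (m + 1)) := {x | g x < 0}

theorem gg_pr_Gr {m : ℕ} (f : E m → ℝ) (u : E m) : pr (Gr f u) = u := by
  ext i
  simp [pr, Gr]

theorem gg_Gr_mem {m : ℕ} (f : E m → ℝ) (u : E m) : Gr f u ∈ gg_GS f := by
  show (Gr f u) (Fin.last m) = f (pr (Gr f u))
  rw [gg_pr_Gr]
  simp [Gr]

theorem gg_Gr_pr {m : ℕ} {f : E m → ℝ} {z : E (m + 1)} (hz : z ∈ gg_GS f) : Gr f (pr z) = z := by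
  have h : z (Fin.last m) = f (pr z) := hz
  ext i
  refine Fin.lastCases ?_ (fun i => ?_) i
  · simp only [Gr, ← h]
    simp
  · simp [pr, Gr]

theorem gg_continuous_pr {m : ℕ} : Continuous (pr (m := m)) := by
  unfold pr
  exact (PiLp.continuous_toLp 2 _).comp (continuous_pi fun i => by fun_prop)

theorem gg_continuous_Gr {m : ℕ} {f : E m → ℝ} (hf : Continuous f) : Continuous (Gr f) := by
  unfold Gr
  refine (PiLp.continuous_toLp 2 _).comp (continuous_pi fun i => ?_)
  refine Fin.lastCases ?_ (fun i => ?_) i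
  · simp only [Fin.snoc_last]
    exact hf
  · simp only [Fin.snoc_castSucc]
    fun_prop

theorem gg_isClosed_GS {m : ℕ} {f : E m → ℝ} (hf : Continuous f) : IsClosed (gg_GS f) :=
  isClosed_eq (by fun_prop) (hf.comp gg_continuous_pr)

theorem gg_isOpen_LS {m : ℕ} {f : E m → ℝ} (hf : Continuous f) : IsOpen (gg_LS f) :=
  isOpen_lt (by fun_prop) (hf.comp gg_continuous_pr)

theorem gg_continuous_grad {m : ℕ} {f : E m → ℝ} (hf : ContDiff ℝ 1 f) :
    Continuous (gradient f) := by
  have h1 : Continuous (fderiv ℝ f) := hf.continuous_fderiv (by norm_num)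
  have : gradient f = fun x => (InnerProductSpace.toDual ℝ (E m)).symm (fderiv ℝ f x) := rfl
  rw [this]
  exact (InnerProductSpace.toDual ℝ (E m)).symm.continuous.comp h1

/-- the surface measure -/
noncomputable abbrev gg_H (m : ℕ) : Measure (E (m + 1)) := μHE[m]

theorem gg_intg (h1 : TaskA1) {m : ℕ} {f : E m → ℝ} (hf : ContDiff ℝ 1 f) {h : E (m + 1) → ℝ}
    (hh : Continuous h) (hs : HasCompactSupport h) : IntegrableOn h (gg_GS f) (gg_H m) := by
  have key : IntegrableOn (fun z => |h z|) (gg_GS f) (gg_H m) := by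
    by_contra hcon
    have hk : Continuous (fun z => |h z|) := hh.abs
    have hks : HasCompactSupport (fun z => |h z|) := hs.comp_left (g := fun x : ℝ => |x|) abs_zero
    have e1 := h1 m f hf _ hk hks
    have e2 : ∫ z in {z : E (m + 1) | z (Fin.last m) = f (pr z)}, |h z| ∂(gg_H m) = 0 :=
      integral_undef hcon
    have e3 : ∫ u : E m, |h (Gr f u)| * Real.sqrt (1 + ‖gradient f u‖ ^ 2) = 0 := by
      rw [← e1]
      exact e2
    apply hcon
    have e4 : ∀ u, h (Gr f u) = 0 := by
      by_contra hne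
      push Not at hne
      obtain ⟨u, hu⟩ := hne
      have hcont : Continuous (fun u : E m => |h (Gr f u)| * Real.sqrt (1 + ‖gradient f u‖ ^ 2)) := by
        have := gg_continuous_grad hf
        have := gg_continuous_Gr hf.continuous
        fun_prop
      have hcs : HasCompactSupport
          (fun u : E m => |h (Gr f u)| * Real.sqrt (1 + ‖gradient f u‖ ^ 2)) := by
        refine HasCompactSupport.intro (hs.isCompact.image gg_continuous_pr) ?_
        intro x hx
        have : h (Gr f x) = 0 := by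
          by_contra hne'
          exact hx ⟨Gr f x, subset_tsupport _ hne', gg_pr_Gr f x⟩
        simp [this]
      have hpos := hcont.integral_pos_of_hasCompactSupport_nonneg_nonzero (μ := volume) (x := u)
        hcs (fun x => by positivity) (by
          have : 0 < Real.sqrt (1 + ‖gradient f u‖ ^ 2) := by positivity
          exact mul_ne_zero (abs_ne_zero.mpr hu) this.ne')
      rw [e3] at hpos
      exact lt_irrefl _ hpos
    have e5 : EqOn (fun z => |h z|) (fun _ => (0:ℝ)) (gg_GS f) := by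
      intro z hz
      have := e4 (pr z)
      rw [gg_Gr_pr hz] at this
      simp [this]
    exact (integrableOn_zero).congr_fun e5.symm (gg_isClosed_GS hf.continuous).measurableSet
  have hm : AEStronglyMeasurable h ((gg_H m).restrict (gg_GS f)) :=
    hh.aestronglyMeasurable
  refine Integrable.mono' key hm ?_
  filter_upwards with z
  simp

/-- the chart property -/
def gg_Ch {m : ℕ} (g : E (m + 1) → ℝ) (A : E (m + 1) ≃ₗᵢ[ℝ] E (m + 1)) (f : E m → ℝ)
    (U : Set (E (m + 1))) : Prop :=
  ∀ z ∈ U, (g z < 0 ↔ (A z) (Fin.last m) < f (pr (A z))) ∧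
      (g z = 0 ↔ (A z) (Fin.last m) = f (pr (A z))) ∧
      (g z = 0 → ∀ v : E (m + 1), ⟪‖gradient g z‖⁻¹ • gradient g z, v⟫_ℝ *
          Real.sqrt (1 + ‖gradient f (pr (A z))‖ ^ 2) =
        (A v) (Fin.last m) - fderiv ℝ f (pr (A z)) (pr (A v)))

theorem gg_mp {m : ℕ} (A : E (m + 1) ≃ₗᵢ[ℝ] E (m + 1)) :
    MeasurePreserving (A : E (m + 1) → E (m + 1)) (gg_H m) (gg_H m) :=
  A.toIsometryEquiv.measurePreserving_euclideanHausdorffMeasure m

/-- integrability of continuous functions supported in a chart -/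
theorem gg_int (h1 : TaskA1) {m : ℕ} {g : E (m + 1) → ℝ} {A : E (m + 1) ≃ₗᵢ[ℝ] E (m + 1)}
    {f : E m → ℝ} {U : Set (E (m + 1))} (hgc : Continuous g) (hf : ContDiff ℝ 1 f)
    (hU : gg_Ch g A f U) {F : E (m + 1) → ℝ} (hF : Continuous F) (hFc : HasCompactSupport F)
    (hFU : tsupport F ⊆ U) : IntegrableOn F (gg_Sg g) (gg_H m) := by
  have hFA : HasCompactSupport (fun z => F (A.symm z)) :=
    hFc.comp_homeomorph A.symm.toHomeomorph
  have hFAc : Continuous (fun z => F (A.symm z)) := hF.comp A.symm.continuous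
  have hkint := gg_intg h1 hf hFAc hFA
  have hmp := gg_mp A
  have hemb : MeasurableEmbedding (A : E (m + 1) → E (m + 1)) := A.toHomeomorph.measurableEmbedding
  have hGSm : MeasurableSet (gg_GS f) := (gg_isClosed_GS hf.continuous).measurableSet
  have hSgm : MeasurableSet (gg_Sg g) := (isClosed_eq hgc continuous_const).measurableSet
  have hAm : Measurable (A : E (m + 1) → E (m + 1)) := A.continuous.measurable
  have hind : (A ⁻¹' gg_GS f).indicator (fun y => F (A.symm (A y))) = (gg_Sg g).indicator F := by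
    funext y
    by_cases hy : y ∈ U
    · obtain ⟨-, h2, -⟩ := hU y hy
      by_cases hg0 : g y = 0
      · have hyG : y ∈ A ⁻¹' gg_GS f := h2.mp hg0
        have hyS : y ∈ gg_Sg g := hg0
        rw [indicator_of_mem hyG, indicator_of_mem hyS, A.symm_apply_apply]
      · have hyG : y ∉ A ⁻¹' gg_GS f := fun h => hg0 (h2.mpr h)
        have hyS : y ∉ gg_Sg g := hg0
        rw [indicator_of_notMem hyG, indicator_of_notMem hyS]
    · have h0 : F y = 0 := by
        by_contra hne
        exact hy (hFU (subset_tsupport _ hne))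
      have e1 : (A ⁻¹' gg_GS f).indicator (fun y => F (A.symm (A y))) y = 0 := by
        apply indicator_apply_eq_zero.mpr
        intro _
        simp [h0]
      have e2 : (gg_Sg g).indicator F y = 0 := by
        apply indicator_apply_eq_zero.mpr
        intro _
        simp [h0]
      rw [e1, e2]
  have hint1 : IntegrableOn (fun y => F (A.symm (A y))) (A ⁻¹' gg_GS f) (gg_H m) := by
    have := (hmp.integrableOn_comp_preimage hemb (f := fun z => F (A.symm z)) (s := gg_GS f)).mpr
      hkint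
    exact this
  rw [← integrable_indicator_iff hSgm, ← hind, integrable_indicator_iff (hAm hGSm)]
  exact hint1

theorem gg_local (h1 : TaskA1) (h2 : TaskA2) {m : ℕ} {g : E (m + 1) → ℝ}
    {A : E (m + 1) ≃ₗᵢ[ℝ] E (m + 1)} {f : E m → ℝ} {U : Set (E (m + 1))}
    (hgc : Continuous g) (hf : ContDiff ℝ 1 f) (hU : gg_Ch g A f U)
    {F : E (m + 1) → ℝ} (hF : ContDiff ℝ 1 F) (hFc : HasCompactSupport F) (hFU : tsupport F ⊆ U)
    (v : E (m + 1)) :
    IntegrableOn (fun y => F y * ⟪gg_nu g y, v⟫_ℝ) (gg_Sg g) (gg_H m) ∧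
      ∫ z in gg_Om g, fderiv ℝ F z v = ∫ y in gg_Sg g, F y * ⟪gg_nu g y, v⟫_ℝ ∂(gg_H m) := by
  set k : E (m + 1) → ℝ := fun z => F (A.symm z) *
    (((A v) (Fin.last m) - fderiv ℝ f (pr z) (pr (A v))) /
      Real.sqrt (1 + ‖gradient f (pr z)‖ ^ 2)) with hkdef
  have hsq : ∀ u : E m, 0 < Real.sqrt (1 + ‖gradient f u‖ ^ 2) := fun u => by positivity
  have hFA : HasCompactSupport (fun z => F (A.symm z)) :=
    hFc.comp_homeomorph A.symm.toHomeomorph
  have hFAd : ContDiff ℝ 1 (fun z => F (A.symm z)) := hF.comp A.symm.contDiff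
  have hkc : Continuous k := by
    have h1 := gg_continuous_grad hf
    have h2 := gg_continuous_pr (m := m)
    have h3 : Continuous (fderiv ℝ f) := hf.continuous_fderiv (by norm_num)
    have h4 : Continuous (fun z => fderiv ℝ f (pr z) (pr (A v))) :=
      (h3.comp h2).clm_apply continuous_const
    have h5 : Continuous (fun z => Real.sqrt (1 + ‖gradient f (pr z)‖ ^ 2)) := by
      have := h1.comp h2
      exact (continuous_const.add (this.norm.pow 2)).sqrt
    exact hFAd.continuous.mul ((continuous_const.sub h4).div h5 (fun z => (hsq _).ne'))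
  have hks : HasCompactSupport k := hFA.mul_right
  have hkint := gg_intg h1 hf hkc hks
  have hmp := gg_mp A
  have hemb : MeasurableEmbedding (A : E (m + 1) → E (m + 1)) := A.toHomeomorph.measurableEmbedding
  have hmv : MeasurePreserving (A : E (m + 1) → E (m + 1)) volume volume := A.measurePreserving
  have hGSm : MeasurableSet (gg_GS f) := (gg_isClosed_GS hf.continuous).measurableSet
  have hLSm : MeasurableSet (gg_LS f) := (gg_isOpen_LS hf.continuous).measurableSet
  have hSgm : MeasurableSet (gg_Sg g) := (isClosed_eq hgc continuous_const).measurableSet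
  have hOmm : MeasurableSet (gg_Om g) := (isOpen_lt hgc continuous_const).measurableSet
  have hAm : Measurable (A : E (m + 1) → E (m + 1)) := A.continuous.measurable
  -- surface side
  have hind : (A ⁻¹' gg_GS f).indicator (fun y => k (A y)) =
      (gg_Sg g).indicator (fun y => F y * ⟪gg_nu g y, v⟫_ℝ) := by
    funext y
    by_cases hy : y ∈ U
    · obtain ⟨-, h2, h3⟩ := hU y hy
      by_cases hg0 : g y = 0
      · have hyG : y ∈ A ⁻¹' gg_GS f := h2.mp hg0
        have hyS : y ∈ gg_Sg g := hg0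
        rw [indicator_of_mem hyG, indicator_of_mem hyS]
        have h4 := h3 hg0 v
        simp only [hkdef, A.symm_apply_apply]
        rw [← h4]
        have h5 := (hsq (pr (A y))).ne'
        unfold gg_nu
        field_simp
      · have hyG : y ∉ A ⁻¹' gg_GS f := fun h => hg0 (h2.mpr h)
        have hyS : y ∉ gg_Sg g := hg0
        rw [indicator_of_notMem hyG, indicator_of_notMem hyS]
    · have h0 : F y = 0 := by
        by_contra hne
        exact hy (hFU (subset_tsupport _ hne))
      have e1 : (A ⁻¹' gg_GS f).indicator (fun y => k (A y)) y = 0 := by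
        apply indicator_apply_eq_zero.mpr
        intro _
        simp [hkdef, h0]
      have e2 : (gg_Sg g).indicator (fun y => F y * ⟪gg_nu g y, v⟫_ℝ) y = 0 := by
        apply indicator_apply_eq_zero.mpr
        intro _
        simp [h0]
      rw [e1, e2]
  have hint1 : IntegrableOn (fun y => k (A y)) (A ⁻¹' gg_GS f) (gg_H m) := by
    have := (hmp.integrableOn_comp_preimage hemb (f := k) (s := gg_GS f)).mpr hkint
    exact this
  have hint2 : IntegrableOn (fun y => F y * ⟪gg_nu g y, v⟫_ℝ) (gg_Sg g) (gg_H m) := by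
    rw [← integrable_indicator_iff hSgm, ← hind, integrable_indicator_iff (hAm hGSm)]
    exact hint1
  refine ⟨hint2, ?_⟩
  have e1 : ∫ y in gg_Sg g, F y * ⟪gg_nu g y, v⟫_ℝ ∂(gg_H m) = ∫ z in gg_GS f, k z ∂(gg_H m) := by
    rw [← hmp.setIntegral_preimage_emb hemb k (gg_GS f), ← integral_indicator hSgm,
      ← integral_indicator (hAm hGSm), hind]
  have e2 : ∫ z in gg_GS f, k z ∂(gg_H m) = ∫ u : E m, F (A.symm (Gr f u)) *
      ((A v) (Fin.last m) - fderiv ℝ f u (pr (A v))) := by
    have := h1 m f hf k hkc hks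
    rw [show (∫ z in gg_GS f, k z ∂(gg_H m)) = ∫ z in {z : E (m + 1) | z (Fin.last m) = f (pr z)}, k z
      ∂(μHE[m] : Measure (E (m + 1))) from rfl, this]
    congr 1
    funext u
    simp only [hkdef, gg_pr_Gr]
    have := (hsq u).ne'
    field_simp
  have e3 := h2 m f hf (fun z => F (A.symm z)) hFAd hFA (A v)
  have e4 : ∀ z, fderiv ℝ (fun z => F (A.symm z)) z (A v) = fderiv ℝ F (A.symm z) v := by
    intro z
    have h1 : HasFDerivAt F (fderiv ℝ F (A.symm z)) (A.symm z) :=
      ((hF.differentiable (by norm_num)) _).hasFDerivAt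
    have h2 : HasFDerivAt (fun z => A.symm z) (A.symm : E (m + 1) →L[ℝ] E (m + 1)) z :=
      (A.symm : E (m + 1) ≃L[ℝ] E (m + 1)).hasFDerivAt
    have h3 := (h1.comp z h2).fderiv
    have h4 : (F ∘ fun z => A.symm z) = fun z => F (A.symm z) := rfl
    rw [h4] at h3
    rw [h3]
    simp
  have e5 : ∫ z in gg_LS f, fderiv ℝ F (A.symm z) v = ∫ z in gg_Om g, fderiv ℝ F z v := by
    rw [← hmv.setIntegral_preimage_emb hemb (fun z => fderiv ℝ F (A.symm z) v) (gg_LS f),
      ← integral_indicator hOmm, ← integral_indicator (hAm hLSm)]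
    congr 1
    funext y
    by_cases hy : y ∈ U
    · obtain ⟨h1, -, -⟩ := hU y hy
      by_cases hg0 : g y < 0
      · have hyG : y ∈ A ⁻¹' gg_LS f := h1.mp hg0
        have hyS : y ∈ gg_Om g := hg0
        rw [indicator_of_mem hyG, indicator_of_mem hyS, A.symm_apply_apply]
      · have hyG : y ∉ A ⁻¹' gg_LS f := fun h => hg0 (h1.mpr h)
        have hyS : y ∉ gg_Om g := hg0
        rw [indicator_of_notMem hyG, indicator_of_notMem hyS]
    · have h0 : fderiv ℝ F y = 0 := by
        by_contra hne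
        exact hy (hFU (support_fderiv_subset ℝ hne))
      have e1 : (A ⁻¹' gg_LS f).indicator (fun y => fderiv ℝ F (A.symm (A y)) v) y = 0 := by
        apply indicator_apply_eq_zero.mpr
        intro _
        simp [h0]
      have e2 : (gg_Om g).indicator (fun y => fderiv ℝ F y v) y = 0 := by
        apply indicator_apply_eq_zero.mpr
        intro _
        simp [h0]
      rw [e1, e2]
  have e6 : ∫ z in gg_LS f, fderiv ℝ F (A.symm z) v =
      ∫ u : E m, F (A.symm (Gr f u)) * ((A v) (Fin.last m) - fderiv ℝ f u (pr (A v))) := by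
    rw [← e3]
    show _ = ∫ z in gg_LS f, _
    congr 1
    funext z
    exact (e4 z).symm
  rw [e1, e2, ← e5, e6]

theorem gg_off {m : ℕ} {g : E (m + 1) → ℝ} (hgc : Continuous g) {F : E (m + 1) → ℝ}
    (hF : ContDiff ℝ 1 F) (hFc : HasCompactSupport F) (hd : tsupport F ⊆ (gg_Sg g)ᶜ)
    (v : E (m + 1)) :
    IntegrableOn (fun y => F y * ⟪gg_nu g y, v⟫_ℝ) (gg_Sg g) (gg_H m) ∧
      ∫ z in gg_Om g, fderiv ℝ F z v = ∫ y in gg_Sg g, F y * ⟪gg_nu g y, v⟫_ℝ ∂(gg_H m) := by
  have hSgm : MeasurableSet (gg_Sg g) := (isClosed_eq hgc continuous_const).measurableSet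
  have hOmm : MeasurableSet (gg_Om g) := (isOpen_lt hgc continuous_const).measurableSet
  have h0 : EqOn (fun y => F y * ⟪gg_nu g y, v⟫_ℝ) (fun _ => (0:ℝ)) (gg_Sg g) := by
    intro y hy
    have : F y = 0 := by
      by_contra hne
      exact hd (subset_tsupport _ hne) hy
    simp [this]
  refine ⟨integrableOn_zero.congr_fun h0.symm hSgm, ?_⟩
  rw [setIntegral_congr_fun hSgm h0]
  simp only [integral_zero]
  -- the extended function
  set K : E (m + 1) → ℝ := (gg_Om g).indicator F with hK
  have hloc : ∀ z, (g z < 0 → K =ᶠ[𝓝 z] F) ∧ (0 ≤ g z → K =ᶠ[𝓝 z] fun _ => (0:ℝ)) := by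
    intro z
    constructor
    · intro hz
      have : ∀ᶠ w in 𝓝 z, g w < 0 := (isOpen_lt hgc continuous_const).mem_nhds hz
      filter_upwards [this] with w hw
      exact indicator_of_mem (show w ∈ gg_Om g from hw) F
    · intro hz
      rcases hz.lt_or_eq with hz | hz
      · have : ∀ᶠ w in 𝓝 z, 0 < g w := (isOpen_lt continuous_const hgc).mem_nhds hz
        filter_upwards [this] with w hw
        exact indicator_of_notMem (show w ∉ gg_Om g from not_lt.mpr hw.le) F
      · have hzn : z ∉ tsupport F := fun h => hd h hz.symm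
        have : ∀ᶠ w in 𝓝 z, w ∉ tsupport F := (isClosed_tsupport F).isOpen_compl.mem_nhds hzn
        filter_upwards [this] with w hw
        have h1 : F w = 0 := by
          by_contra hne
          exact hw (subset_tsupport _ hne)
        exact indicator_apply_eq_zero.mpr (fun _ => h1)
  have hKd : ContDiff ℝ 1 K := by
    rw [contDiff_iff_contDiffAt]
    intro z
    rcases lt_or_ge (g z) 0 with hz | hz
    · exact (hF.contDiffAt).congr_of_eventuallyEq ((hloc z).1 hz)
    · exact (contDiffAt_const).congr_of_eventuallyEq ((hloc z).2 hz)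
  have hKc : HasCompactSupport K := by
    refine HasCompactSupport.intro hFc.isCompact ?_
    intro x hx
    have h1 : F x = 0 := by
      by_contra hne
      exact hx (subset_tsupport _ hne)
    exact indicator_apply_eq_zero.mpr (fun _ => h1)
  have e1 : (gg_Om g).indicator (fun z => fderiv ℝ F z v) = fun z => fderiv ℝ K z v := by
    funext z
    by_cases hz : g z < 0
    · rw [indicator_of_mem (show z ∈ gg_Om g from hz), ((hloc z).1 hz).fderiv_eq]
    · rw [indicator_of_notMem (show z ∉ gg_Om g from hz), ((hloc z).2 (not_lt.mp hz)).fderiv_eq]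
      simp
  rw [← integral_indicator hOmm, e1]
  have hKfd : Continuous (fun z => fderiv ℝ K z v) :=
    (hKd.continuous_fderiv (by norm_num)).clm_apply continuous_const
  have hKfs : HasCompactSupport (fun z => fderiv ℝ K z v) := hKc.fderiv_apply ℝ v
  have h1 := integral_mul_fderiv_eq_neg_fderiv_mul_of_integrable (μ := (volume : Measure (E (m + 1))))
    (f := fun _ : E (m + 1) => (1:ℝ)) (g := K) (v := v) (by simp)
    (by simpa using hKfd.integrable_of_hasCompactSupport hKfs)
    (by simpa using hKd.continuous.integrable_of_hasCompactSupport hKc)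
    (fun x _ => differentiableAt_const _)
    (fun x _ => (hKd.differentiable (by norm_num)) x)
  simpa using h1

theorem gg_closure {m : ℕ} {g : E (m + 1) → ℝ} (hreg : ∀ x, g x = 0 → gradient g x ≠ 0)
    {x : E (m + 1)} (hx : g x = 0) : x ∈ closure {x | g x < 0} := by
  by_contra hcon
  have h1 : ∀ᶠ y in 𝓝 x, y ∉ {x | g x < 0} := by
    rw [mem_closure_iff_frequently] at hcon
    exact Filter.not_frequently.1 hcon
  have h2 : IsLocalMin g x := by
    filter_upwards [h1] with y hy
    rw [hx]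
    exact not_lt.1 hy
  have h3 := h2.fderiv_eq_zero
  apply hreg x hx
  unfold gradient
  rw [h3, map_zero]

theorem gg_closure_pos {m : ℕ} {g : E (m + 1) → ℝ} (hreg : ∀ x, g x = 0 → gradient g x ≠ 0)
    {x : E (m + 1)} (hx : g x = 0) : ¬ ∀ᶠ y in 𝓝 x, g y ≤ 0 := by
  intro h1
  have h2 : IsLocalMax g x := by
    filter_upwards [h1] with y hy
    rw [hx]
    exact hy
  have h3 := h2.fderiv_eq_zero
  apply hreg x hx
  unfold gradient
  rw [h3, map_zero]

theorem gg_scalar (h1 : TaskA1) (h2 : TaskA2) (h3 : TaskA3) {m : ℕ} {g : E (m + 1) → ℝ}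
    (hg : ContDiff ℝ 1 g) (hreg : ∀ x, g x = 0 → gradient g x ≠ 0)
    (hb : Bornology.IsBounded {x | g x < 0}) (F0 : E (m + 1) → ℝ) (hF0 : ContDiff ℝ 1 F0)
    (v : E (m + 1)) :
    IntegrableOn (fun y => F0 y * ⟪gg_nu g y, v⟫_ℝ) (gg_Sg g) (gg_H m) ∧
      IntegrableOn (fun z => fderiv ℝ F0 z v) (gg_Om g) ∧
      ∫ z in gg_Om g, fderiv ℝ F0 z v = ∫ y in gg_Sg g, F0 y * ⟪gg_nu g y, v⟫_ℝ ∂(gg_H m) := by
  have hgc : Continuous g := hg.continuous
  have hSgm : MeasurableSet (gg_Sg g) := (isClosed_eq hgc continuous_const).measurableSet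
  have hOmm : MeasurableSet (gg_Om g) := (isOpen_lt hgc continuous_const).measurableSet
  obtain ⟨R, hR⟩ := hb.closure.subset_closedBall (0 : E (m + 1))
  have hRle : ∀ z, g z ≤ 0 → ‖z‖ ≤ R := by
    intro z hz
    have h4 : z ∈ closure {x | g x < 0} := by
      rcases hz.lt_or_eq with h | h
      · exact subset_closure h
      · exact gg_closure hreg h
    have h5 := hR h4
    rwa [mem_closedBall_zero_iff] at h5
  -- cutoff
  let b : ContDiffBump (0 : E (m + 1)) := ⟨max R 0 + 1, max R 0 + 2, by positivity, by linarith⟩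
  set F : E (m + 1) → ℝ := fun z => b z * F0 z with hFdef
  have hF : ContDiff ℝ 1 F := b.contDiff.mul hF0
  have hFc : HasCompactSupport F := b.hasCompactSupport.mul_right
  have hin : ∀ z, g z ≤ 0 → z ∈ Metric.ball (0 : E (m + 1)) (max R 0 + 1) := by
    intro z hz
    rw [mem_ball_zero_iff]
    have h6 := hRle z hz
    have h7 := le_max_left R 0
    linarith
  have hb1 : ∀ z, g z ≤ 0 → F =ᶠ[𝓝 z] F0 := by
    intro z hz
    filter_upwards [Metric.isOpen_ball.mem_nhds (hin z hz)] with w hw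
    have : b w = 1 := b.one_of_mem_closedBall (Metric.ball_subset_closedBall hw)
    simp [hFdef, this]
  have c1 : EqOn (fun z => fderiv ℝ F0 z v) (fun z => fderiv ℝ F z v) (gg_Om g) := by
    intro z hz
    have hz' : g z < 0 := hz
    simp only [(hb1 z hz'.le).fderiv_eq]
  have e1 : ∫ z in gg_Om g, fderiv ℝ F0 z v = ∫ z in gg_Om g, fderiv ℝ F z v :=
    setIntegral_congr_fun hOmm c1
  have c2 : EqOn (fun y => F0 y * ⟪gg_nu g y, v⟫_ℝ) (fun y => F y * ⟪gg_nu g y, v⟫_ℝ)
      (gg_Sg g) := by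
    intro z hz
    have hz' : g z = 0 := hz
    simp only [(hb1 z hz'.le).eq_of_nhds]
  have e2 : ∫ y in gg_Sg g, F0 y * ⟪gg_nu g y, v⟫_ℝ ∂(gg_H m) =
      ∫ y in gg_Sg g, F y * ⟪gg_nu g y, v⟫_ℝ ∂(gg_H m) := setIntegral_congr_fun hSgm c2
  rw [e1, e2, integrableOn_congr_fun c1 hOmm, integrableOn_congr_fun c2 hSgm]
  -- the cover
  have h3' : ∀ p : E (m + 1), g p = 0 → ∃ (A : E (m + 1) ≃ₗᵢ[ℝ] E (m + 1)) (f : E m → ℝ)
      (U : Set (E (m + 1))), ContDiff ℝ 1 f ∧ IsOpen U ∧ p ∈ U ∧ gg_Ch g A f U := fun p hp =>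
    h3 m g hg p hp (hreg p hp)
  choose! A f U hf hUo hpU hU using h3'
  let V : Option (gg_Sg g) → Set (E (m + 1)) := fun o => o.elim ((gg_Sg g)ᶜ) (fun p => U p.1)
  have hVo : ∀ o, IsOpen (V o) := by
    intro o
    cases o with
    | none => exact (isClosed_eq hgc continuous_const).isOpen_compl
    | some p => exact hUo p.1 p.2
  have hVc : (univ : Set (E (m + 1))) ⊆ ⋃ o, V o := by
    intro z _
    by_cases hz : z ∈ gg_Sg g
    · exact mem_iUnion.mpr ⟨some ⟨z, hz⟩, hpU z hz⟩
    · exact mem_iUnion.mpr ⟨none, hz⟩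
  obtain ⟨ρ, hρ⟩ := SmoothPartitionOfUnity.exists_isSubordinate
    (I := modelWithCornersSelf ℝ (E (m + 1))) isClosed_univ V hVo hVc
  have hρd : ∀ o, ContDiff ℝ 1 (fun z => ρ o z) := by
    intro o
    have := (ρ o).contMDiff.contDiff
    exact this.of_le (by exact_mod_cast le_top)
  have hpiece : ∀ o, IntegrableOn (fun y => (ρ o y * F y) * ⟪gg_nu g y, v⟫_ℝ) (gg_Sg g) (gg_H m) ∧
      ∫ z in gg_Om g, fderiv ℝ (fun z => ρ o z * F z) z v =
        ∫ y in gg_Sg g, (ρ o y * F y) * ⟪gg_nu g y, v⟫_ℝ ∂(gg_H m) := by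
    intro o
    have hd1 : ContDiff ℝ 1 (fun z => ρ o z * F z) := (hρd o).mul hF
    have hc1 : HasCompactSupport (fun z => ρ o z * F z) := hFc.mul_left
    have hs1 : tsupport (fun z => ρ o z * F z) ⊆ V o :=
      (tsupport_mul_subset_left).trans (hρ o)
    cases o with
    | none => exact gg_off hgc hd1 hc1 hs1 v
    | some p => exact gg_local h1 h2 hgc (hf p.1 p.2) (hU p.1 p.2) hd1 hc1 hs1 v
  have hfin : {o | (Function.support (ρ o) ∩ tsupport F).Nonempty}.Finite :=
    ρ.locallyFinite.finite_nonempty_inter_compact hFc.isCompact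
  set I0 := hfin.toFinset with hI0
  have hsum : ∀ z, F z = ∑ o ∈ I0, ρ o z * F z := by
    intro z
    by_cases hz : F z = 0
    · simp [hz]
    · have h1 : ∑ᶠ o, ρ o z = 1 := ρ.sum_eq_one (mem_univ z)
      have h2 : ∑ᶠ o, ρ o z = ∑ o ∈ I0, ρ o z := by
        apply finsum_eq_sum_of_support_subset
        intro o ho
        rw [hI0, Finite.coe_toFinset]
        exact ⟨z, ho, subset_tsupport _ hz⟩
      rw [← Finset.sum_mul, ← h2, h1, one_mul]
  have hFsum : F = fun z => ∑ o ∈ I0, ρ o z * F z := funext hsum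
  have e3 : ∀ z, fderiv ℝ F z v = ∑ o ∈ I0, fderiv ℝ (fun z => ρ o z * F z) z v := by
    intro z
    have h1 : HasFDerivAt (fun z => ∑ o ∈ I0, ρ o z * F z)
        (∑ o ∈ I0, fderiv ℝ (fun z => ρ o z * F z) z) z := by
      apply HasFDerivAt.fun_sum
      intro o _
      exact ((((hρd o).mul hF).differentiable (by norm_num)) z).hasFDerivAt
    rw [← hFsum] at h1
    rw [h1.fderiv]
    simp
  have hint : ∀ o ∈ I0, IntegrableOn (fun z => fderiv ℝ (fun z => ρ o z * F z) z v) (gg_Om g) := by
    intro o _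
    have hd1 : ContDiff ℝ 1 (fun z => ρ o z * F z) := (hρd o).mul hF
    have hc1 : HasCompactSupport (fun z => ρ o z * F z) := hFc.mul_left
    exact (((hd1.continuous_fderiv (by norm_num)).clm_apply
      continuous_const).integrable_of_hasCompactSupport (hc1.fderiv_apply ℝ v)).integrableOn
  refine ⟨?_, ?_, ?_⟩
  · have e4 : (fun y => F y * ⟪gg_nu g y, v⟫_ℝ) =
        fun y => ∑ o ∈ I0, (ρ o y * F y) * ⟪gg_nu g y, v⟫_ℝ := by
      funext y
      rw [← Finset.sum_mul, ← hsum y]
    rw [e4]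
    exact integrable_finsetSum I0 fun o _ => (hpiece o).1
  · exact (((hF.continuous_fderiv (by norm_num)).clm_apply
      continuous_const).integrable_of_hasCompactSupport (hFc.fderiv_apply ℝ v)).integrableOn
  · calc ∫ z in gg_Om g, fderiv ℝ F z v
        = ∫ z in gg_Om g, ∑ o ∈ I0, fderiv ℝ (fun z => ρ o z * F z) z v := by simp only [← e3]
      _ = ∑ o ∈ I0, ∫ z in gg_Om g, fderiv ℝ (fun z => ρ o z * F z) z v :=
          integral_finsetSum _ hint
      _ = ∑ o ∈ I0, ∫ y in gg_Sg g, (ρ o y * F y) * ⟪gg_nu g y, v⟫_ℝ ∂(gg_H m) :=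
          Finset.sum_congr rfl (fun o _ => (hpiece o).2)
      _ = ∫ y in gg_Sg g, ∑ o ∈ I0, (ρ o y * F y) * ⟪gg_nu g y, v⟫_ℝ ∂(gg_H m) := by
          rw [integral_finsetSum _ (fun o _ => (hpiece o).1)]
      _ = ∫ y in gg_Sg g, F y * ⟪gg_nu g y, v⟫_ℝ ∂(gg_H m) := by
          congr 1
          funext y
          rw [← Finset.sum_mul, ← hsum y]

theorem gg_finite (h1 : TaskA1) (h3 : TaskA3) {m : ℕ} {g : E (m + 1) → ℝ}
    (hg : ContDiff ℝ 1 g) (hreg : ∀ x, g x = 0 → gradient g x ≠ 0)
    (hb : Bornology.IsBounded {x | g x < 0}) : gg_H m (gg_Sg g) < ⊤ := by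
  have hgc : Continuous g := hg.continuous
  have hcl : IsClosed (gg_Sg g) := isClosed_eq hgc continuous_const
  have hcpt : IsCompact (gg_Sg g) := by
    refine Metric.isCompact_of_isClosed_isBounded hcl (hb.closure.subset fun x hx => ?_)
    exact gg_closure hreg hx
  refine hcpt.measure_lt_top_of_nhdsWithin fun p hp => ?_
  obtain ⟨A, f, U, hf, hUo, hpU, hU⟩ := h3 m g hg p hp (hreg p hp)
  obtain ⟨ε, hε, hball⟩ := Metric.isOpen_iff.1 hUo p hpU
  let b : ContDiffBump p := ⟨ε / 4, ε / 2, by positivity, by linarith⟩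
  have hbU : tsupport b ⊆ U := by
    rw [b.tsupport_eq]
    refine subset_trans (Metric.closedBall_subset_ball ?_) hball
    show ε / 2 < ε
    linarith
  have hint := gg_int h1 hgc hf hU b.continuous b.hasCompactSupport hbU
  have h4 := hint.measure_norm_ge_lt_top (ε := 1) one_pos
  refine ⟨{x | 1 ≤ ‖b x‖} ∩ gg_Sg g, ?_, ?_⟩
  · refine inter_mem (mem_nhdsWithin_of_mem_nhds ?_) self_mem_nhdsWithin
    have h5 : Metric.ball p (ε / 4) ∈ 𝓝 p := Metric.ball_mem_nhds p (by positivity)
    filter_upwards [h5] with y hy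
    have h6 : b y = 1 := b.one_of_mem_closedBall (Metric.ball_subset_closedBall hy)
    show 1 ≤ ‖b y‖
    rw [h6, norm_one]
  · rwa [Measure.restrict_apply' hcl.measurableSet] at h4

theorem gauss_green (h1 : TaskA1) (h2 : TaskA2) (h3 : TaskA3) (m : ℕ) (g : E (m + 1) → ℝ)
    (hg : ContDiff ℝ 1 g) (hreg : ∀ x, g x = 0 → gradient g x ≠ 0)
    (hb : Bornology.IsBounded {x | g x < 0}) :
    frontier {x | g x < 0} = {x | g x = 0} ∧ interior (closure {x | g x < 0}) = {x | g x < 0} ∧
      (μHE[m] : Measure (E (m + 1))) {x | g x = 0} < ⊤ ∧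
      ∀ X : E (m + 1) → E (m + 1), ContDiff ℝ 1 X →
        ∫ x in {x | g x < 0}, ∑ i : Fin (m + 1), (fderiv ℝ X x (EuclideanSpace.single i 1)) i =
          ∫ x in {x | g x = 0}, ⟪X x, ‖gradient g x‖⁻¹ • gradient g x⟫_ℝ
            ∂(μHE[m] : Measure (E (m + 1))) := by
  have hgc : Continuous g := hg.continuous
  have hO : IsOpen {x | g x < 0} := isOpen_lt hgc continuous_const
  have hcl : closure {x | g x < 0} ⊆ {x | g x ≤ 0} :=
    closure_minimal (fun x hx => show g x ≤ 0 from le_of_lt hx) (isClosed_le hgc continuous_const)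
  refine ⟨?_, ?_, gg_finite h1 h3 hg hreg hb, ?_⟩
  · rw [hO.frontier_eq]
    ext x
    constructor
    · rintro ⟨h4, h5⟩
      exact le_antisymm (hcl h4) (not_lt.1 h5)
    · intro h4
      have h4' : g x = 0 := h4
      refine ⟨gg_closure hreg h4', fun h5 => ?_⟩
      have h5' : g x < 0 := h5
      linarith
  · apply subset_antisymm
    · intro x hx
      have h4 : g x ≤ 0 := hcl (interior_subset hx)
      refine lt_of_le_of_ne h4 fun h5 => ?_
      refine gg_closure_pos hreg h5 ?_
      filter_upwards [isOpen_interior.mem_nhds hx] with y hy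
      exact hcl (interior_subset hy)
    · exact interior_maximal subset_closure hO
  · intro X hX
    have hXi : ∀ i : Fin (m + 1), ContDiff ℝ 1 (fun x => X x i) := by
      intro i
      exact (contDiff_piLp_apply (p := 2)).comp hX
    have hS := fun i : Fin (m + 1) => gg_scalar h1 h2 h3 hg hreg hb (fun x => X x i) (hXi i)
      (EuclideanSpace.single i 1)
    have hder : ∀ x (i : Fin (m + 1)), (fderiv ℝ X x (EuclideanSpace.single i 1)) i =
        fderiv ℝ (fun x => X x i) x (EuclideanSpace.single i 1) := by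
      intro x i
      have h4 : HasFDerivAt X (fderiv ℝ X x) x := ((hX.differentiable (by norm_num)) x).hasFDerivAt
      have h5 : HasFDerivAt (fun x => X x i)
          ((EuclideanSpace.proj i : E (m + 1) →L[ℝ] ℝ).comp (fderiv ℝ X x)) x :=
        (EuclideanSpace.proj i : E (m + 1) →L[ℝ] ℝ).hasFDerivAt.comp x h4
      rw [h5.fderiv]
      rfl
    have e1 : ∫ x in {x | g x < 0}, ∑ i : Fin (m + 1), (fderiv ℝ X x (EuclideanSpace.single i 1)) i =
        ∑ i : Fin (m + 1), ∫ x in gg_Om g, fderiv ℝ (fun x => X x i) x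
          (EuclideanSpace.single i 1) := by
      simp only [hder]
      exact integral_finsetSum _ fun i _ => (hS i).2.1
    rw [e1, Finset.sum_congr rfl fun i _ => (hS i).2.2,
      ← integral_finsetSum _ fun i _ => (hS i).1]
    show ∫ x in gg_Sg g, _ ∂(gg_H m) = ∫ x in gg_Sg g, _ ∂(gg_H m)
    congr 1
    funext x
    show ∑ i, X x i * ⟪gg_nu g x, EuclideanSpace.single i 1⟫_ℝ = ⟪X x, gg_nu g x⟫_ℝ
    rw [PiLp.inner_apply]
    refine Finset.sum_congr rfl fun i _ => ?_
    rw [real_inner_comm, EuclideanSpace.inner_single_left]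
    simp [mul_comm]

end Pool.Agent.Helper876.SM
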