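import Pool.Agent.Helper876_Robin.Defs
import Pool.Agent.Helper876_Robin.JSM1
import Pool.Agent.Helper876_Robin.JSM2
import Pool.Agent.Helper876_Robin.JSM3
import Pool.Agent.Helper876_Robin.JSM4

/-!
# Bounded domains with boundary of class `C¹` are regular
-/

set_option autoImplicit false

open MeasureTheory Set Metric Filter Topology
open scoped ENNReal NNReal InnerProductSpace

namespace Pool.Agent.Helper876.Rob

theorem regular_of_C1 {n : ℕ} (hn : 2 ≤ n) {g : E n → ℝ} (hg : ContDiff ℝ 1 g)
    (hreg : ∀ x, g x = 0 → gradient g x ≠ 0) (hb : Bornology.IsBounded {x | g x < 0})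
    (hc : IsConnected {x | g x < 0}) :
    IsRegularDomain {x | g x < 0} (fun x => ‖gradient g x‖⁻¹ • gradient g x) := by
  obtain ⟨m, rfl⟩ : ∃ m, n = m + 1 := ⟨n - 1, by omega⟩
  obtain ⟨h1, h2, h3, h4⟩ := SM.gauss_green SM.taskA1 SM.taskA2 SM.taskA3 m g hg hreg hb
  have hgc : Continuous (gradient g) := by
    have h5 : Continuous (fderiv ℝ g) := hg.continuous_fderiv one_ne_zero
    exact (InnerProductSpace.toDual ℝ (E (m + 1))).symm.continuous.comp h5
  refine ⟨isOpen_lt hg.continuous continuous_const, hc, hb, h2, ?_, ?_, ?_, ?_, ?_⟩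
  · rw [h1]
    exact h3
  · intro x hx
    rw [h1] at hx
    have h5 := norm_pos_iff.2 (hreg x hx)
    rw [norm_smul, norm_inv, norm_norm]
    exact inv_mul_cancel₀ h5.ne'
  · apply Measurable.aestronglyMeasurable
    exact hgc.measurable.norm.inv.smul hgc.measurable
  · intro x hx
    rw [h1] at hx
    have hx0 : g x = 0 := hx
    have h5 := norm_pos_iff.2 (hreg x hx)
    set ν := ‖gradient g x‖⁻¹ • gradient g x with hν
    have h6 : HasDerivAt (fun t : ℝ => g (x - t • ν)) (-‖gradient g x‖) 0 := by
      have h7 : HasDerivAt (fun t : ℝ => x - t • ν) (-ν) 0 := by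
        have := ((hasDerivAt_id (0:ℝ)).smul_const ν).const_sub x
        simpa using this
      have h8 : HasFDerivAt g (fderiv ℝ g x) (x - (0:ℝ) • ν) := by
        simpa using (hg.differentiable one_ne_zero x).hasFDerivAt
      have h9 := h8.comp_hasDerivAt (0:ℝ) h7
      refine h9.congr_deriv ?_
      have h10 : fderiv ℝ g x (gradient g x) = ‖gradient g x‖ ^ 2 := by
        have : ⟪gradient g x, gradient g x⟫_ℝ = fderiv ℝ g x (gradient g x) := by
          unfold gradient
          exact InnerProductSpace.toDual_symm_apply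
        rw [← this, real_inner_self_eq_norm_sq]
      rw [map_neg, hν, map_smul, h10, smul_eq_mul]
      field_simp
    have h7 := h6.hasDerivWithinAt (s := Ioi 0)
    rw [hasDerivWithinAt_iff_tendsto_slope' (by simp)] at h7
    have h8 : ∀ᶠ t in 𝓝[>] (0:ℝ), slope (fun t : ℝ => g (x - t • ν)) 0 t < 0 :=
      h7.eventually (gt_mem_nhds (by linarith))
    filter_upwards [h8, self_mem_nhdsWithin] with t ht ht0
    have ht0' : 0 < t := ht0
    rw [slope_def_field] at ht
    simp only [zero_smul, sub_zero, hx0] at ht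
    rw [div_neg_iff] at ht
    rcases ht with ht | ht
    · linarith [ht.2]
    · exact ht.1
  · intro X hX
    have h5 := h4 X hX
    rw [h1]
    exact h5

end Pool.Agent.Helper876.Rob
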