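import Pool.Agent.Helper876_Robin.Core
import Pool.Agent.Helper876_Robin.Numeric
import Pool.Agent.Helper876_Robin.Smooth

/-!
# The ball maximises the first Robin eigenvalue for moderate parameters
-/

set_option autoImplicit false

open MeasureTheory Set Metric Filter Topology
open scoped ENNReal NNReal InnerProductSpace

namespace Pool.Agent.Helper876.Rob

/-- The ball of radius `R` is the unique maximiser of `λ₁(·; α)` among the regular domains of its
volume with a positive eigenfunction of class `C²`. -/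
def BallOptimal (n : ℕ) (R α : ℝ) : Prop :=
  ∀ (Ω : Set (E n)) (ν : E n → E n) (lam : ℝ) (u : E n → ℝ), IsRegularDomain Ω ν →
    IsPositiveEigenfunction Ω ν α lam u → volume Ω = volume (ball (0 : E n) R) →
    lam1 Ω α = (lam : EReal) ∧ lam1 Ω α ≤ lam1 (ball (0 : E n) R) α ∧
      (lam1 Ω α = lam1 (ball (0 : E n) R) α → ∃ c : E n, Ω = ball c R)

/-- The criterion in terms of the normalised profile. -/
theorem ballOptimal_of {n : ℕ} (hn : 2 ≤ n) {p : ℝ → ℝ}
    (hP : ∀ κ : ℝ, 0 < κ → Prof n κ (fun r => Real.sqrt κ * p (Real.sqrt κ * r)))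
    {R κ α : ℝ} (hR : 0 < R) (hκ : 0 < κ)
    (hα : Real.sqrt κ * p (Real.sqrt κ * R) = -α) (hT : TT n 1 p (Real.sqrt κ * R) < 1) :
    BallOptimal n R α := by
  intro Ω ν lam u hΩ hu hvol
  have hp1 : Prof n 1 p := by
    have := hP 1 one_pos
    simpa using this
  have hsκ : 0 < Real.sqrt κ := Real.sqrt_pos.2 hκ
  have hA : 0 < -α := by
    rw [← hα]
    exact mul_pos hsκ (hp1.pos _ (by positivity))
  have hv : volume.real Ω = volume.real (ball (0 : E n) R) := by
    rw [measureReal_def, measureReal_def, hvol]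
  obtain ⟨w, hw, hpde, hbc⟩ := exists_w hΩ hu
  have hlam := lam1_eq hΩ hw hpde hbc
  rw [neg_neg, neg_neg] at hlam
  have hk := kappa_pos hn hΩ hw hA hpde hbc hR hv
  have hball := lam1_ball_ge hn (hP κ hκ) hR hα.ge (0 : E n)
  rw [neg_neg] at hball
  -- the key comparison
  have key : -lam ≤ κ → κ ≤ -lam ∧ ∃ c : E n, Ω = ball c R := by
    intro hle
    have hs : Real.sqrt (-lam) ≤ Real.sqrt κ := Real.sqrt_le_sqrt hle
    have hs0 : 0 < Real.sqrt (-lam) := Real.sqrt_pos.2 hk
    have hxx : Real.sqrt (-lam) * R ≤ Real.sqrt κ * R := mul_le_mul_of_nonneg_right hs hR.le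
    have hx0 : 0 < Real.sqrt (-lam) * R := by positivity
    have hT1 : TT n 1 p (Real.sqrt (-lam) * R) < 1 :=
      lt_of_le_of_lt (hp1.TT_mono hn hx0 (show (0:ℝ) < Real.sqrt κ * R by positivity) hxx) hT
    have hT2 : TT n (-lam) (fun r => Real.sqrt (-lam) * p (Real.sqrt (-lam) * r)) R < -lam := by
      rw [TT_scale hk]
      nlinarith
    have hpp : p (Real.sqrt (-lam) * R) ≤ p (Real.sqrt κ * R) :=
      hp1.mono.monotoneOn (a := Real.sqrt (-lam) * R) (b := Real.sqrt κ * R) hx0.le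
        (show (0:ℝ) ≤ Real.sqrt κ * R by positivity) hxx
    have hpA : Real.sqrt (-lam) * p (Real.sqrt (-lam) * R) ≤ -α := by
      rw [← hα]
      exact mul_le_mul hs hpp (hp1.pos _ hx0).le hsκ.le
    obtain ⟨h1, h2⟩ := main_kappa hn hΩ hw hk hpde hbc hR hv (hP _ hk) hT2 hpA
    refine ⟨?_, h2⟩
    by_contra hcon
    push Not at hcon
    have hs' : Real.sqrt (-lam) < Real.sqrt κ := Real.sqrt_lt_sqrt hk.le hcon
    have h3 : Real.sqrt (-lam) * p (Real.sqrt (-lam) * R) < Real.sqrt κ * p (Real.sqrt κ * R) := by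
      apply mul_lt_mul hs' hpp (hp1.pos _ hx0) hsκ.le
    rw [hα] at h3
    linarith
  have hle : lam ≤ -κ := by
    rcases le_total (-lam) κ with h | h
    · have := (key h).1
      linarith
    · linarith
  refine ⟨hlam, ?_, ?_⟩
  · rw [hlam]
    refine le_trans ?_ hball
    exact EReal.coe_le_coe_iff.2 hle
  · intro heq
    rw [hlam] at heq
    rw [← heq] at hball
    have h1 : -κ ≤ lam := EReal.coe_le_coe_iff.1 hball
    exact (key (by linarith)).2

/-- existence of the eigenvalue of the ball in terms of the profile -/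
theorem exists_kappa {n : ℕ} {p : ℝ → ℝ} (hn : 2 ≤ n) (hp : Prof n 1 p) {R A : ℝ} (hR : 0 < R)
    (hA : 0 < A) : ∃ κ : ℝ, 0 < κ ∧ Real.sqrt κ * p (Real.sqrt κ * R) = A := by
  have hn0 : (2:ℝ) ≤ n := by exact_mod_cast hn
  have hc : Continuous (fun k => k * p (k * R)) := by
    have := hp.cont
    fun_prop
  -- a large value
  have hp1 : 0 < p R := hp.pos R hR
  set K := max 1 (A / p R) with hK
  have hK1 : 1 ≤ K := le_max_left _ _
  have hK2 : A / p R ≤ K := le_max_right _ _
  have hKR : R ≤ K * R := by nlinarith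
  have h1 : A ≤ K * p (K * R) := by
    have h2 : p R ≤ p (K * R) :=
      hp.mono.monotoneOn (a := R) (b := K * R) hR.le (show (0:ℝ) ≤ K * R by positivity) hKR
    rw [div_le_iff₀ hp1] at hK2
    calc A ≤ K * p R := hK2
      _ ≤ K * p (K * R) := mul_le_mul_of_nonneg_left h2 (by positivity)
  have h0 : (0:ℝ) * p (0 * R) ≤ A := by rw [zero_mul]; exact hA.le
  obtain ⟨k, hk, hk'⟩ := intermediate_value_Icc (by positivity : (0:ℝ) ≤ K) hc.continuousOn
    (show A ∈ Icc ((0:ℝ) * p (0 * R)) (K * p (K * R)) from ⟨h0, h1⟩)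
  simp only at hk'
  have hk0 : 0 < k := by
    rcases hk.1.eq_or_lt with h | h
    · rw [← h, zero_mul] at hk'
      linarith
    · exact h
  refine ⟨k ^ 2, by positivity, ?_⟩
  rw [Real.sqrt_sq hk0.le]
  exact hk'

/-- **Explicit range.** -/
theorem ballOptimal_explicit {n : ℕ} (hn : 2 ≤ n) {R α : ℝ} (hR : 0 < R) (hα : α < 0)
    (h : -(3 / 2) ≤ α * R) : BallOptimal n R α := by
  obtain ⟨p, -, hP⟩ := prof_exists n hn
  have hp1 : Prof n 1 p := by
    have := hP 1 one_pos
    simpa using this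
  obtain ⟨κ, hκ, hκ'⟩ := exists_kappa hn hp1 hR (show 0 < -α by linarith)
  refine ballOptimal_of hn hP hR hκ hκ' ?_
  have hsκ : 0 < Real.sqrt κ := Real.sqrt_pos.2 hκ
  apply hp1.TT_lt hn (by positivity)
  have h1 : Real.sqrt κ * R * p (Real.sqrt κ * R) = -α * R := by
    rw [← hκ']; ring
  rw [h1]
  linarith

end Pool.Agent.Helper876.Rob
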