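import Mathlib

/-!
# Inverse functions and linear differential equations on the line
-/

set_option autoImplicit false

open MeasureTheory Set Filter Topology intervalIntegral

namespace Pool.Agent.Helper876.Rob

/-- A continuous function on `[0, ∞)` vanishing at `0` with positive derivative and limit `L` has a
differentiable inverse on `(0, L)`. -/
theorem exists_inv {p p' : ℝ → ℝ} {L : ℝ} (h0 : p 0 = 0) (hc : Continuous p)
    (hd : ∀ r, 0 < r → HasDerivAt p (p' r) r) (hpos : ∀ r, 0 < r → 0 < p' r)
    (hlim : Tendsto p atTop (𝓝 L)) :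
    ∃ ρ : ℝ → ℝ, ρ 0 = 0 ∧ (∀ s ∈ Ioo 0 L, 0 < ρ s ∧ p (ρ s) = s ∧
      HasDerivAt ρ (p' (ρ s))⁻¹ s) ∧ ContinuousOn ρ (Ico 0 L) ∧ (∀ r, 0 ≤ r → ρ (p r) = r) ∧
      (∀ r, 0 ≤ r → p r < L) := by
  have hmono : StrictMonoOn p (Ici 0) := by
    apply strictMonoOn_of_deriv_pos (convex_Ici 0) hc.continuousOn
    intro r hr
    rw [interior_Ici] at hr
    rw [(hd r hr).deriv]
    exact hpos r hr
  have hlt : ∀ r, 0 ≤ r → p r < L := by
    intro r hr
    have h1 : p r < p (r + 1) := hmono hr (by simpa using by linarith) (by linarith)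
    have h2 : p (r + 1) ≤ L := by
      apply ge_of_tendsto hlim
      filter_upwards [eventually_ge_atTop (r + 1)] with x hx
      exact hmono.monotoneOn (by simpa using by linarith) (by simpa using by linarith) hx
    linarith
  have hex : ∀ s ∈ Ico 0 L, ∃ r, 0 ≤ r ∧ p r = s := by
    intro s hs
    obtain ⟨b, hb, hb'⟩ : ∃ b, 0 ≤ b ∧ s < p b := by
      have h := (hlim.eventually (lt_mem_nhds hs.2)).and (eventually_ge_atTop (0:ℝ))
      obtain ⟨b, hb⟩ := h.exists
      exact ⟨b, hb.2, hb.1⟩
    have h := intermediate_value_Icc hb hc.continuousOn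
    obtain ⟨r, hr, hr'⟩ := h ⟨by rw [h0]; exact hs.1, hb'.le⟩
    exact ⟨r, hr.1, hr'⟩
  have hchoice : ∀ s : ℝ, ∃ r : ℝ, s ∈ Ico 0 L → 0 ≤ r ∧ p r = s := by
    intro s
    by_cases hs : s ∈ Ico 0 L
    · obtain ⟨r, hr⟩ := hex s hs
      exact ⟨r, fun _ => hr⟩
    · exact ⟨0, fun h => absurd h hs⟩
  choose ρ hρ using hchoice
  have hinj : ∀ r, 0 ≤ r → ρ (p r) = r := by
    intro r hr
    have hm : p r ∈ Ico 0 L := by
      refine ⟨?_, hlt r hr⟩
      rw [← h0]
      exact hmono.monotoneOn (by simp) hr hr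
    obtain ⟨h1, h2⟩ := hρ (p r) hm
    exact hmono.injOn h1 hr h2
  have hρ0 : ρ 0 = 0 := by
    have := hinj 0 le_rfl
    rwa [h0] at this
  have hρpos : ∀ s ∈ Ioo 0 L, 0 < ρ s := by
    intro s hs
    obtain ⟨h1, h2⟩ := hρ s ⟨hs.1.le, hs.2⟩
    rcases h1.eq_or_lt with h | h
    · rw [← h, h0] at h2
      exact absurd h2 hs.1.ne
    · exact h
  have hcont : ∀ s ∈ Ico 0 L, ContinuousWithinAt ρ (Ico 0 L) s := by
    intro s hs
    obtain ⟨h1, h2⟩ := hρ s hs
    rw [Metric.continuousWithinAt_iff]
    intro ε hε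
    -- upper bound
    have hup : s < p (ρ s + ε) := by
      have := hmono (a := ρ s) (b := ρ s + ε) h1 (by simpa using by linarith) (by linarith)
      linarith
    by_cases hlow : ρ s - ε < 0
    · refine ⟨p (ρ s + ε) - s, by linarith, ?_⟩
      intro y hy hyd
      obtain ⟨g1, g2⟩ := hρ y hy
      rw [Real.dist_eq, abs_lt] at hyd ⊢
      constructor
      · linarith
      · by_contra hcon
        push Not at hcon
        have := hmono.monotoneOn (a := ρ s + ε) (b := ρ y) (by simpa using by linarith) g1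
          (by linarith)
        linarith [hyd.2]
    · push Not at hlow
      have hlo : p (ρ s - ε) < s := by
        have := hmono (a := ρ s - ε) (b := ρ s) hlow h1 (by linarith)
        linarith
      refine ⟨min (p (ρ s + ε) - s) (s - p (ρ s - ε)), lt_min (by linarith) (by linarith), ?_⟩
      intro y hy hyd
      obtain ⟨g1, g2⟩ := hρ y hy
      rw [Real.dist_eq, abs_lt] at hyd ⊢
      have e1 := min_le_left (p (ρ s + ε) - s) (s - p (ρ s - ε))
      have e2 := min_le_right (p (ρ s + ε) - s) (s - p (ρ s - ε))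
      constructor
      · by_contra hcon
        push Not at hcon
        have := hmono.monotoneOn (a := ρ y) (b := ρ s - ε) g1 hlow (by linarith)
        linarith [hyd.1]
      · by_contra hcon
        push Not at hcon
        have := hmono.monotoneOn (a := ρ s + ε) (b := ρ y) (by simpa using by linarith) g1
          (by linarith)
        linarith [hyd.2]
  refine ⟨ρ, hρ0, ?_, hcont, hinj, hlt⟩
  intro s hs
  obtain ⟨h1, h2⟩ := hρ s ⟨hs.1.le, hs.2⟩
  refine ⟨hρpos s hs, h2, ?_⟩
  have hca : ContinuousAt ρ s := (hcont s ⟨hs.1.le, hs.2⟩).continuousAt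
    (mem_of_superset (Ioo_mem_nhds hs.1 hs.2) Ioo_subset_Ico_self)
  apply HasDerivAt.of_local_left_inverse hca (hd _ (hρpos s hs)) (hpos _ (hρpos s hs)).ne'
  filter_upwards [Ioo_mem_nhds hs.1 hs.2] with y hy
  exact (hρ y ⟨hy.1.le, hy.2⟩).2

/-- Linear first order equations. -/
theorem exists_linODE {f h : ℝ → ℝ} (hf : Continuous f) (hh : Continuous h) (R b : ℝ) :
    ∃ β : ℝ → ℝ, β R = b ∧ (∀ r, HasDerivAt β (f r + h r * β r) r) ∧
      ((∀ r, 0 ≤ f r) → (∀ r, 0 ≤ h r) → b ≤ 0 → ∀ r ≤ R, b - ∫ t in r..R, f t ≤ β r) := by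
  set H : ℝ → ℝ := fun r => ∫ t in R..r, h t with hH
  have hHd : ∀ r, HasDerivAt H (h r) r := fun r =>
    intervalIntegral.integral_hasDerivAt_right (hh.intervalIntegrable _ _)
      (hh.stronglyMeasurableAtFilter _ _) hh.continuousAt
  have hHc : Continuous H := by
    rw [continuous_iff_continuousAt]
    exact fun r => (hHd r).continuousAt
  set F : ℝ → ℝ := fun r => ∫ t in R..r, f t * Real.exp (-H t) with hF
  have hcf : Continuous (fun t => f t * Real.exp (-H t)) := by fun_prop
  have hFd : ∀ r, HasDerivAt F (f r * Real.exp (-H r)) r := fun r =>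
    intervalIntegral.integral_hasDerivAt_right (hcf.intervalIntegrable _ _)
      (hcf.stronglyMeasurableAtFilter _ _) hcf.continuousAt
  refine ⟨fun r => Real.exp (H r) * (b + F r), ?_, ?_, ?_⟩
  · simp [hH, hF]
  · intro r
    have h1 := ((hHd r).exp.mul ((hFd r).const_add b))
    have h2 : Real.exp (H r) * (f r * Real.exp (-H r)) = f r := by
      rw [mul_comm (f r), ← mul_assoc, ← Real.exp_add]
      simp
    rw [h2] at h1
    refine h1.congr_deriv ?_
    ring
  · intro hf0 hh0 hb r hr
    have hmono : ∀ t, r ≤ t → H r ≤ H t := by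
      intro t ht
      have : H t - H r = ∫ x in r..t, h x := by
        rw [hH]
        simp only
        rw [intervalIntegral.integral_interval_sub_left (hh.intervalIntegrable _ _)
          (hh.intervalIntegrable _ _)]
      have h2 : 0 ≤ ∫ x in r..t, h x := intervalIntegral.integral_nonneg ht fun x _ => hh0 x
      linarith
    have hHR : H R = 0 := by simp [hH]
    have hHr : H r ≤ 0 := by rw [← hHR]; exact hmono R hr
    have he : Real.exp (H r) ≤ 1 := Real.exp_le_one_iff.2 hHr
    have h1 : F r = - ∫ t in r..R, f t * Real.exp (-H t) := by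
      rw [hF]
      simp only
      rw [intervalIntegral.integral_symm]
    have h2 : Real.exp (H r) * ∫ t in r..R, f t * Real.exp (-H t) ≤ ∫ t in r..R, f t := by
      rw [← intervalIntegral.integral_const_mul]
      apply intervalIntegral.integral_mono_on hr
      · exact (by fun_prop : Continuous fun t => Real.exp (H r) * (f t * Real.exp (-H t))).intervalIntegrable _ _
      · exact hf.intervalIntegrable _ _
      · intro t ht
        have h3 : Real.exp (H r) * Real.exp (-H t) ≤ 1 := by
          rw [← Real.exp_add]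
          apply Real.exp_le_one_iff.2
          linarith [hmono t ht.1]
        calc Real.exp (H r) * (f t * Real.exp (-H t))
            = f t * (Real.exp (H r) * Real.exp (-H t)) := by ring
          _ ≤ f t * 1 := mul_le_mul_of_nonneg_left h3 (hf0 t)
          _ = f t := mul_one _
    show b - ∫ t in r..R, f t ≤ Real.exp (H r) * (b + F r)
    rw [h1]
    have h4 : b ≤ Real.exp (H r) * b := by nlinarith [Real.exp_pos (H r)]
    linarith

end Pool.Agent.Helper876.Rob
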