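import Mathlib

set_option autoImplicit false

open MeasureTheory Set
open scoped ENNReal NNReal

namespace Pool.Agent.Helper876.JA

/-- Euclidean space -/
abbrev E (n : ℕ) := EuclideanSpace ℝ (Fin n)

/-- Lipschitz maps preserve null sets. -/
theorem null_image (n : ℕ) (q : E n → E n) (C : ℝ≥0) (hq : LipschitzWith C q) (s : Set (E n))
    (hs : volume s = 0) : volume (q '' s) = 0 := by
  have h1 : (volume : Measure (E n)) ≪ Measure.hausdorffMeasure (Module.finrank ℝ (E n) : ℝ) :=
    Measure.absolutelyContinuous_isAddHaarMeasure _ _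
  have h2 : Measure.hausdorffMeasure (Module.finrank ℝ (E n) : ℝ) ≪ (volume : Measure (E n)) :=
    Measure.absolutelyContinuous_isAddHaarMeasure _ _
  apply h1
  have h3 := hq.hausdorffMeasure_image_le (d := (Module.finrank ℝ (E n) : ℝ)) (by positivity) s
  rw [h2 hs, mul_zero] at h3
  exact le_antisymm h3 zero_le

theorem image_le (n : ℕ) (q : E n → E n) (C : ℝ≥0) (hq : LipschitzWith C q) (s : Set (E n))
    (hs : MeasurableSet s) :
    volume (q '' s) ≤ ∫⁻ x in s, ENNReal.ofReal |(fderiv ℝ q x).det| := by
  set D : Set (E n) := {x | DifferentiableAt ℝ q x} with hD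
  have hDm : MeasurableSet D := measurableSet_of_differentiableAt ℝ q
  have h1 : q '' s ⊆ q '' (s ∩ D) ∪ q '' (s \ D) := by
    rw [← image_union, inter_union_sdiff]
  have h2 : volume (q '' (s \ D)) = 0 := by
    apply null_image n q C hq
    have h3 : volume (Dᶜ) = 0 := by
      have := hq.ae_differentiableAt (μ := (volume : Measure (E n)))
      exact this
    exact measure_mono_null (fun x hx => hx.2) h3
  calc volume (q '' s) ≤ volume (q '' (s ∩ D) ∪ q '' (s \ D)) := measure_mono h1
    _ ≤ volume (q '' (s ∩ D)) + volume (q '' (s \ D)) := measure_union_le _ _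
    _ = volume (q '' (s ∩ D)) := by rw [h2, add_zero]
    _ ≤ ∫⁻ x in s ∩ D, ENNReal.ofReal |(fderiv ℝ q x).det| :=
        addHaar_image_le_lintegral_abs_det_fderiv volume (hs.inter hDm) fun x hx =>
          (show DifferentiableAt ℝ q x from hx.2).hasFDerivAt.hasFDerivWithinAt
    _ ≤ ∫⁻ x in s, ENNReal.ofReal |(fderiv ℝ q x).det| :=
        lintegral_mono_set inter_subset_left

/- PLAIN PROOF (job of helper876, MP_1b807b_an).
q is differentiable a.e. (Rademacher, LipschitzWith.ae_differentiableAt) and maps null sets to null sets (Lipschitz).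
For measurable s the set q '' s is null-measurable (s is a union of compact sets and a null set), and
volume (q '' s) <= ∫⁻ x in s, |det Dq x| (MeasureTheory.addHaar_image_le_lintegral_abs_det_fderiv applied to the points of
differentiability). Apply it to s ∩ q⁻¹' B for measurable B: q '' (s ∩ q⁻¹' B) = (q '' s) ∩ B, so the measure B -> volume (q '' s ∩ B) is at
most the measure B -> ∫⁻ x in s ∩ q⁻¹' B, |det Dq x| = (map q of the measure with density |det Dq| on s) B. Integrate J (lintegral_mono', lintegral_map). -/
theorem area (n : ℕ) (q : E n → E n) (C : ℝ≥0) (hq : LipschitzWith C q) (s : Set (E n))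
    (hs : MeasurableSet s) (J : E n → ℝ≥0∞) (hJ : Measurable J) :
    ∫⁻ y in q '' s, J y ≤ ∫⁻ x in s, J (q x) * ENNReal.ofReal |(fderiv ℝ q x).det| := by
  have hqm : Measurable q := hq.continuous.measurable
  have hdet : Measurable fun x => ENNReal.ofReal |(fderiv ℝ q x).det| := by
    have h1 : Measurable (fderiv ℝ q) := measurable_fderiv ℝ q
    have h2 : Continuous fun A : E n →L[ℝ] E n => A.det := ContinuousLinearMap.continuous_det
    exact ENNReal.measurable_ofReal.comp ((continuous_abs.measurable).comp (h2.measurable.comp h1))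
  have hle : (volume.restrict (q '' s) : Measure (E n)) ≤
      Measure.map q ((volume.restrict s).withDensity fun x =>
        ENNReal.ofReal |(fderiv ℝ q x).det|) := by
    rw [Measure.le_iff]
    intro B hB
    rw [Measure.restrict_apply hB, Measure.map_apply hqm hB,
      withDensity_apply _ (hqm hB), Measure.restrict_restrict (hqm hB), inter_comm B,
      image_inter_preimage q s B |>.symm, inter_comm (q ⁻¹' B) s]
    exact image_le n q C hq _ (hs.inter (hqm hB))
  calc ∫⁻ y in q '' s, J y
      ≤ ∫⁻ y, J y ∂(Measure.map q ((volume.restrict s).withDensity fun x =>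
        ENNReal.ofReal |(fderiv ℝ q x).det|)) := lintegral_mono' hle le_rfl
    _ = ∫⁻ x, J (q x) ∂((volume.restrict s).withDensity fun x =>
        ENNReal.ofReal |(fderiv ℝ q x).det|) := lintegral_map hJ hqm
    _ = ∫⁻ x in s, J (q x) * ENNReal.ofReal |(fderiv ℝ q x).det| := by
        refine (lintegral_withDensity_eq_lintegral_mul _ hdet (hJ.comp hqm)).trans ?_
        refine lintegral_congr fun x => ?_
        rw [Pi.mul_apply, mul_comm, Function.comp_apply]

end Pool.Agent.Helper876.JA
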