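import Mathlib

set_option autoImplicit false

open Set Filter Topology Metric
open scoped NNReal InnerProductSpace

namespace Pool.Agent.Helper876.JC

/-- Euclidean space -/
abbrev E (n : ℕ) := EuclideanSpace ℝ (Fin n)

/-- the inner product as a bilinear map -/
noncomputable def J (n : ℕ) : E n →L[ℝ] E n →L[ℝ] ℝ := innerSL ℝ

theorem J_apply {n : ℕ} (x y : E n) : J n x y = ⟪x, y⟫_ℝ := rfl

/-- second order necessary condition -/
theorem sd_nonneg {h h' : ℝ → ℝ} {c : ℝ} (h1 : ∀ᶠ t in 𝓝 (0 : ℝ), HasDerivAt h (h' t) t)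
    (h2 : HasDerivAt h' c 0) (hmin : IsLocalMin h 0) : 0 ≤ c := by
  by_contra hc
  push Not at hc
  have e1 : deriv h =ᶠ[𝓝 0] h' := h1.mono fun t ht => ht.deriv
  have e2 : deriv (deriv h) 0 = c := (h2.congr_of_eventuallyEq e1).deriv
  have e3 : deriv h 0 = 0 := hmin.deriv_eq_zero
  have e4 : ContinuousAt h 0 := h1.self_of_nhds.continuousAt
  have hmax : IsLocalMax h 0 := isLocalMax_of_deriv_deriv_neg (by rw [e2]; exact hc) e3 e4
  have e5 : h =ᶠ[𝓝 0] fun _ => h 0 := by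
    filter_upwards [hmin, hmax] with t h3 h4
    exact le_antisymm h4 h3
  have e6 : deriv h =ᶠ[𝓝 0] fun _ => 0 := by
    refine e5.deriv.trans (Filter.Eventually.of_forall fun t => ?_)
    simp
  have e7 : deriv (deriv h) 0 = 0 := by
    rw [e6.deriv_eq]
    simp
  rw [e2] at e7
  exact hc.ne e7

/-- second order sufficient condition -/
theorem sd_pos {h h' : ℝ → ℝ} {c : ℝ} (h1 : ∀ᶠ t in 𝓝 (0 : ℝ), HasDerivAt h (h' t) t)
    (h2 : HasDerivAt h' c 0) (h0 : h' 0 = 0) (hc : 0 < c) : IsLocalMin h 0 := by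
  have e1 : deriv h =ᶠ[𝓝 0] h' := h1.mono fun t ht => ht.deriv
  have e2 : deriv (deriv h) 0 = c := (h2.congr_of_eventuallyEq e1).deriv
  have e3 : deriv h 0 = 0 := by rw [h1.self_of_nhds.deriv, h0]
  exact isLocalMin_of_deriv_deriv_pos (by rw [e2]; exact hc) e3 h1.self_of_nhds.continuousAt

theorem line_tendsto {n : ℕ} (x u : E n) : Tendsto (fun t : ℝ => x + t • u) (𝓝 0) (𝓝 x) := by
  have : Continuous (fun t : ℝ => x + t • u) := by fun_prop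
  have h := this.tendsto 0
  simpa using h

theorem line_deriv {n : ℕ} (x u : E n) (t : ℝ) : HasDerivAt (fun t : ℝ => x + t • u) u t := by
  have h := ((hasDerivAt_id t).smul_const u).const_add x
  simpa using h

theorem line_phi {n : ℕ} {φ : E n → ℝ} {g : E n → E n} {x : E n} (u : E n)
    (hφ : ∀ᶠ y in 𝓝 x, HasFDerivAt φ (J n (g y)) y) :
    ∀ᶠ t in 𝓝 (0 : ℝ), HasDerivAt (fun t : ℝ => φ (x + t • u)) (⟪g (x + t • u), u⟫_ℝ) t := by
  filter_upwards [(line_tendsto x u).eventually hφ] with t ht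
  exact ht.comp_hasDerivAt t (line_deriv x u t)

theorem line_g {n : ℕ} {g : E n → E n} {x : E n} {H : E n →L[ℝ] E n} (u : E n)
    (hg : HasFDerivAt g H x) :
    HasDerivAt (fun t : ℝ => ⟪g (x + t • u), u⟫_ℝ) (⟪H u, u⟫_ℝ) 0 := by
  have h1 : HasFDerivAt g H (x + (0 : ℝ) • u) := by simpa using hg
  have h2 : HasDerivAt (fun t : ℝ => g (x + t • u)) (H u) 0 :=
    h1.comp_hasDerivAt (0 : ℝ) (line_deriv x u 0)
  have h3 := h2.inner ℝ (hasDerivAt_const (0 : ℝ) u)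
  simpa using h3

/-- Hessian at a local minimum -/
theorem hess_nonneg {n : ℕ} {φ : E n → ℝ} {g : E n → E n} {x : E n} {H : E n →L[ℝ] E n}
    (hφ : ∀ᶠ y in 𝓝 x, HasFDerivAt φ (J n (g y)) y) (hg : HasFDerivAt g H x)
    (hmin : IsLocalMin φ x) (u : E n) : 0 ≤ ⟪H u, u⟫_ℝ := by
  refine sd_nonneg (line_phi u hφ) (line_g u hg) ?_
  have h1 : IsLocalMin φ (x + (0 : ℝ) • u) := by simpa using hmin
  have h2 := line_tendsto x u
  have h3 : ∀ᶠ t in 𝓝 (0 : ℝ), φ x ≤ φ (x + t • u) := h2.eventually hmin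
  filter_upwards [h3] with t ht
  simpa using ht

/-- Taylor upper bound along a line -/
theorem taylor_line {n : ℕ} {φ : E n → ℝ} {g : E n → E n} {x : E n} {H : E n →L[ℝ] E n}
    (hφ : ∀ᶠ y in 𝓝 x, HasFDerivAt φ (J n (g y)) y) (hg : HasFDerivAt g H x) (u : E n) {c : ℝ}
    (hc : ⟪H u, u⟫_ℝ < c) :
    ∀ᶠ t in 𝓝 (0 : ℝ), φ (x + t • u) ≤ φ x + t * ⟪g x, u⟫_ℝ + c / 2 * t ^ 2 := by
  have h1 : ∀ᶠ t in 𝓝 (0 : ℝ), HasDerivAt
      (fun t : ℝ => φ x + t * ⟪g x, u⟫_ℝ + c / 2 * t ^ 2 - φ (x + t • u))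
      (⟪g x, u⟫_ℝ + c * t - ⟪g (x + t • u), u⟫_ℝ) t := by
    filter_upwards [line_phi u hφ] with t ht
    have h2 : HasDerivAt (fun t : ℝ => φ x + t * ⟪g x, u⟫_ℝ + c / 2 * t ^ 2)
        (⟪g x, u⟫_ℝ + c * t) t := by
      have h3 := (((hasDerivAt_id t).mul_const ⟪g x, u⟫_ℝ).const_add (φ x)).add
        (((hasDerivAt_id t).pow 2).const_mul (c / 2))
      refine (h3.congr_deriv ?_)
      simp
      ring
    exact h2.sub ht
  have h2 : HasDerivAt (fun t : ℝ => ⟪g x, u⟫_ℝ + c * t - ⟪g (x + t • u), u⟫_ℝ)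
      (c - ⟪H u, u⟫_ℝ) 0 := by
    have h3 : HasDerivAt (fun t : ℝ => ⟪g x, u⟫_ℝ + c * t) c 0 := by
      have h4 := ((hasDerivAt_id (0 : ℝ)).const_mul c).const_add (⟪g x, u⟫_ℝ)
      simpa using h4
    exact h3.sub (line_g u hg)
  have h3 := sd_pos h1 h2 (by simp) (by linarith)
  filter_upwards [h3] with t ht
  simp at ht
  linarith

theorem psd_le_trace {n : ℕ} {H : E n →L[ℝ] E n} (hs : ∀ u v : E n, ⟪H u, v⟫_ℝ = ⟪u, H v⟫_ℝ)
    (hp : ∀ u : E n, 0 ≤ ⟪H u, u⟫_ℝ) (u : E n) :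
    ⟪H u, u⟫_ℝ ≤ (∑ i : Fin n, (H (EuclideanSpace.single i 1)) i) * ‖u‖ ^ 2 := by
  set e : Fin n → E n := fun i => EuclideanSpace.single i (1 : ℝ) with he
  have hcoord : ∀ (v : E n) i, ⟪v, e i⟫_ℝ = v i := by
    intro v i
    simp [he, EuclideanSpace.inner_single_right]
  have hdec : ∀ v : E n, v = ∑ i, v i • e i := by
    intro v
    ext j
    simp [he, Finset.sum_apply, Pi.single_apply]
  set B : LinearMap.BilinForm ℝ (E n) :=
    LinearMap.mk₂ ℝ (fun x y => ⟪H x, y⟫_ℝ)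
      (fun x y z => by simp [inner_add_left]) (fun c x y => by simp [inner_smul_left])
      (fun x y z => by simp [inner_add_right]) (fun c x y => by simp [inner_smul_right]) with hB
  have hBa : ∀ x y, B x y = ⟪H x, y⟫_ℝ := fun x y => rfl
  have hCS : ∀ i j, (B (e i) (e j)) ^ 2 ≤ B (e i) (e i) * B (e j) (e j) := by
    intro i j
    have h1 := LinearMap.BilinForm.apply_mul_apply_le_of_forall_zero_le B (fun x => hp x) (e i) (e j)
    have h2 : B (e j) (e i) = B (e i) (e j) := by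
      rw [hBa, hBa, hs, real_inner_comm]
    rw [h2] at h1
    rw [sq]
    exact h1
  set b : Fin n → ℝ := fun i => B (e i) (e i) with hb
  have hb0 : ∀ i, 0 ≤ b i := fun i => hp _
  have hCS' : ∀ i j, |B (e i) (e j)| ≤ √(b i) * √(b j) := by
    intro i j
    rw [← Real.sqrt_mul (hb0 i)]
    exact Real.abs_le_sqrt (hCS i j)
  have h1 : ⟪H u, u⟫_ℝ = ∑ i, ∑ j, u i * u j * B (e i) (e j) := by
    have : ⟪H u, u⟫_ℝ = B u u := rfl
    rw [this]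
    conv_lhs => rw [hdec u]
    simp only [map_sum, LinearMap.sum_apply, map_smul, LinearMap.smul_apply, smul_eq_mul,
      Finset.mul_sum]
    rw [Finset.sum_comm]
    refine Finset.sum_congr rfl fun i _ => Finset.sum_congr rfl fun j _ => ?_
    ring
  have h2 : ⟪H u, u⟫_ℝ ≤ (∑ i, |u i| * √(b i)) ^ 2 := by
    rw [h1, sq, Finset.sum_mul_sum]
    refine Finset.sum_le_sum fun i _ => Finset.sum_le_sum fun j _ => ?_
    calc u i * u j * B (e i) (e j) ≤ |u i * u j * B (e i) (e j)| := le_abs_self _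
      _ = |u i| * |u j| * |B (e i) (e j)| := by rw [abs_mul, abs_mul]
      _ ≤ |u i| * |u j| * (√(b i) * √(b j)) :=
        mul_le_mul_of_nonneg_left (hCS' i j) (by positivity)
      _ = |u i| * √(b i) * (|u j| * √(b j)) := by ring
  have h3 : (∑ i, |u i| * √(b i)) ^ 2 ≤ (∑ i, |u i| ^ 2) * ∑ i, √(b i) ^ 2 :=
    Finset.sum_mul_sq_le_sq_mul_sq _ _ _
  have h4 : ∑ i, |u i| ^ 2 = ‖u‖ ^ 2 := by
    rw [EuclideanSpace.norm_sq_eq]
    rfl
  have h5 : ∑ i, √(b i) ^ 2 = ∑ i : Fin n, (H (EuclideanSpace.single i 1)) i := by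
    refine Finset.sum_congr rfl fun i _ => ?_
    rw [Real.sq_sqrt (hb0 i)]
    exact hcoord _ _
  rw [h4, h5] at h3
  calc ⟪H u, u⟫_ℝ ≤ _ := h2
    _ ≤ _ := h3
    _ = _ := mul_comm _ _

/-- gradient fields have symmetric derivatives -/
theorem grad_symm {n : ℕ} {φ : E n → ℝ} {g : E n → E n} {x : E n} {H : E n →L[ℝ] E n}
    (hφ : ∀ᶠ y in 𝓝 x, HasFDerivAt φ (J n (g y)) y) (hg : HasFDerivAt g H x) (u v : E n) :
    ⟪H u, v⟫_ℝ = ⟪u, H v⟫_ℝ := by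
  have h1 : HasFDerivAt (fun y => J n (g y)) ((J n).comp H) x :=
    (J n).hasFDerivAt.comp x hg
  have h2 := second_derivative_symmetric_of_eventually hφ h1 u v
  simp only [ContinuousLinearMap.comp_apply, J_apply] at h2
  rw [h2, real_inner_comm]

/-- the function `w` near a point -/
theorem w_facts {n : ℕ} {U : Set (E n)} (hU : IsOpen U) {w : E n → ℝ} (hw : ContDiffOn ℝ 2 w U)
    {x : E n} (hx : x ∈ U) :
    (∀ᶠ y in 𝓝 x, HasFDerivAt w (J n (gradient w y)) y) ∧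
      HasFDerivAt (gradient w) (fderiv ℝ (gradient w) x) x := by
  have h1 : ∀ᶠ y in 𝓝 x, HasFDerivAt w (J n (gradient w y)) y := by
    filter_upwards [hU.mem_nhds hx] with y hy
    have h2 : DifferentiableAt ℝ w y :=
      (hw.differentiableOn (by norm_num)).differentiableAt (hU.mem_nhds hy)
    exact h2.hasGradientAt.hasFDerivAt
  refine ⟨h1, ?_⟩
  have h2 : ContDiffAt ℝ 2 w x := hw.contDiffAt (hU.mem_nhds hx)
  have h3 : ContDiffAt ℝ 1 (fderiv ℝ w) x := h2.fderiv_right (by norm_num)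
  have h4 : DifferentiableAt ℝ (fderiv ℝ w) x := h3.differentiableAt (by norm_num)
  have h5 : DifferentiableAt ℝ (gradient w) x := by
    let L : StrongDual ℝ (E n) ≃ₗᵢ[ℝ] E n := (InnerProductSpace.toDual ℝ (E n)).symm
    have h6 : DifferentiableAt ℝ (fun y => L (fderiv ℝ w y)) x :=
      L.differentiable.differentiableAt.comp x h4
    exact h6
  exact h5.hasFDerivAt

theorem fderiv_coord {n : ℕ} {g : E n → E n} {x : E n} {H : E n →L[ℝ] E n}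
    (hg : HasFDerivAt g H x) (i : Fin n) (u : E n) :
    fderiv ℝ (fun y => g y i) x u = (H u) i := by
  have h1 : HasFDerivAt (fun y => g y i) ((EuclideanSpace.proj i).comp H) x :=
    (EuclideanSpace.proj (𝕜 := ℝ) i : E n →L[ℝ] ℝ).hasFDerivAt.comp x hg
  rw [h1.fderiv]
  rfl

/-- one-dimensional convexity from strict local supports -/
theorem conv_of_support {φ : ℝ → ℝ} (hc : ContinuousOn φ (Icc 0 1))
    (h : ∀ t ∈ Ioo (0 : ℝ) 1, ∃ m : ℝ, ∀ᶠ s in 𝓝 t, s ≠ t → φ t + m * (s - t) < φ s)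
    {t : ℝ} (ht : t ∈ Icc (0 : ℝ) 1) : φ t ≤ (1 - t) * φ 0 + t * φ 1 := by
  set ψ : ℝ → ℝ := fun s => φ s - ((1 - s) * φ 0 + s * φ 1) with hψ
  have hψc : ContinuousOn ψ (Icc 0 1) := by
    refine hc.sub ?_
    fun_prop
  obtain ⟨t0, ht0, hmax⟩ := isCompact_Icc.exists_isMaxOn (nonempty_Icc.2 zero_le_one) hψc
  have hle : ψ t ≤ ψ t0 := hmax ht
  suffices hs : ψ t0 ≤ 0 by
    have : ψ t ≤ 0 := hle.trans hs
    simp only [hψ] at this
    linarith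
  by_contra hpos
  push Not at hpos
  have h0 : t0 ≠ 0 := by
    rintro rfl
    simp [hψ] at hpos
  have h1 : t0 ≠ 1 := by
    rintro rfl
    simp [hψ] at hpos
  have hI : t0 ∈ Ioo (0 : ℝ) 1 :=
    ⟨lt_of_le_of_ne ht0.1 (Ne.symm h0), lt_of_le_of_ne ht0.2 h1⟩
  obtain ⟨m, hm⟩ := h t0 hI
  have hm' : ∀ᶠ s in 𝓝 t0, s ≠ t0 → ψ t0 + (m - (φ 1 - φ 0)) * (s - t0) < ψ s ∧
      ψ s ≤ ψ t0 := by
    filter_upwards [hm, Icc_mem_nhds hI.1 hI.2] with s hs hs2 hne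
    refine ⟨?_, hmax hs2⟩
    have := hs hne
    simp only [hψ]
    nlinarith
  set k := m - (φ 1 - φ 0) with hk
  rcases le_total 0 k with hk0 | hk0
  · have h2 : ∀ᶠ s in 𝓝[>] t0, s ≠ t0 → ψ t0 + k * (s - t0) < ψ s ∧ ψ s ≤ ψ t0 :=
      nhdsWithin_le_nhds hm'
    obtain ⟨s, hs, hs'⟩ := (h2.and self_mem_nhdsWithin).exists
    have hs'' : t0 < s := hs'
    obtain ⟨h3, h4⟩ := hs hs''.ne'
    nlinarith
  · have h2 : ∀ᶠ s in 𝓝[<] t0, s ≠ t0 → ψ t0 + k * (s - t0) < ψ s ∧ ψ s ≤ ψ t0 :=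
      nhdsWithin_le_nhds hm'
    obtain ⟨s, hs, hs'⟩ := (h2.and self_mem_nhdsWithin).exists
    have hs'' : s < t0 := hs'
    obtain ⟨h3, h4⟩ := hs hs''.ne
    nlinarith

theorem exists_max {n : ℕ} {K : Set (E n)} (hK : IsCompact K) (hne : K.Nonempty) {w : E n → ℝ}
    (hw : ContinuousOn w K) :
    ∃ X : E n → E n, ∀ p, X p ∈ K ∧ ∀ x ∈ K, ⟪p, x⟫_ℝ - w x ≤ ⟪p, X p⟫_ℝ - w (X p) := by
  have h : ∀ p : E n, ∃ y, y ∈ K ∧ ∀ x ∈ K, ⟪p, x⟫_ℝ - w x ≤ ⟪p, y⟫_ℝ - w y := by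
    intro p
    have hc : ContinuousOn (fun x => ⟪p, x⟫_ℝ - w x) K := by
      refine ContinuousOn.sub ?_ hw
      fun_prop
    obtain ⟨y, hy, hmax⟩ := hK.exists_isMaxOn hne hc
    exact ⟨y, hy, fun x hx => hmax hx⟩
  choose X hX using h
  exact ⟨X, hX⟩

theorem f_cont {n : ℕ} {K : Set (E n)} {R : ℝ} (hR : K ⊆ closedBall 0 R) {w : E n → ℝ}
    {X : E n → E n}
    (hX : ∀ p, X p ∈ K ∧ ∀ x ∈ K, ⟪p, x⟫_ℝ - w x ≤ ⟪p, X p⟫_ℝ - w (X p)) :
    Continuous (fun p => ⟪p, X p⟫_ℝ - w (X p)) := by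
  have key : ∀ p p' : E n, (⟪p, X p⟫_ℝ - w (X p)) - (⟪p', X p'⟫_ℝ - w (X p')) ≤ R * ‖p - p'‖ := by
    intro p p'
    have h1 := (hX p').2 (X p) (hX p).1
    have h2 : ⟪p, X p⟫_ℝ = ⟪p', X p⟫_ℝ + ⟪p - p', X p⟫_ℝ := by
      rw [← inner_add_left]; congr 1; abel
    have h3 : ⟪p - p', X p⟫_ℝ ≤ ‖p - p'‖ * ‖X p‖ := real_inner_le_norm _ _
    have h4 : ‖X p‖ ≤ R := by simpa using hR (hX p).1
    have h5 : ‖p - p'‖ * ‖X p‖ ≤ ‖p - p'‖ * R := mul_le_mul_of_nonneg_left h4 (norm_nonneg _)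
    rw [h2]
    linarith
  have hR0 : 0 ≤ R := by
    have h4 : ‖X 0‖ ≤ R := by simpa using hR (hX 0).1
    exact (norm_nonneg _).trans h4
  have : LipschitzWith ⟨R, hR0⟩ (fun p => ⟪p, X p⟫_ℝ - w (X p)) := by
    refine LipschitzWith.of_dist_le_mul fun p p' => ?_
    rw [Real.dist_eq, dist_eq_norm, abs_le]
    constructor
    · have := key p' p
      rw [norm_sub_rev] at this
      show -(R * ‖p - p'‖) ≤ _
      linarith
    · exact key p p'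
  exact this.continuous

theorem max_interior {n : ℕ} {Ω U : Set (E n)} (hΩ : IsOpen Ω) (hU : IsOpen U)
    (hΩU : closure Ω ⊆ U) {w : E n → ℝ}
    (hw : ContDiffOn ℝ 2 w U) {ν : E n → E n} (hν : ∀ x ∈ frontier Ω, ‖ν x‖ = 1)
    (hin : ∀ x ∈ frontier Ω, ∀ᶠ t in 𝓝[>] (0 : ℝ), x - t • ν x ∈ Ω) {A : ℝ}
    (hbc : ∀ x ∈ frontier Ω, A ≤ ⟪gradient w x, ν x⟫_ℝ) {p x0 : E n} (hp : ‖p‖ < A)
    (hx0 : x0 ∈ closure Ω) (hmax : ∀ x ∈ closure Ω, ⟪p, x⟫_ℝ - w x ≤ ⟪p, x0⟫_ℝ - w x0) :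
    x0 ∈ Ω := by
  by_contra hx
  have hf : x0 ∈ frontier Ω := by
    rw [frontier, hΩ.interior_eq]
    exact ⟨hx0, hx⟩
  obtain ⟨h1, -⟩ := w_facts hU hw (hΩU hx0)
  have h2 := (line_phi (-ν x0) h1).self_of_nhds
  have h3 : HasDerivAt (fun t : ℝ => ⟪p, x0 + t • (-ν x0)⟫_ℝ) (⟪p, -ν x0⟫_ℝ) 0 := by
    have := (hasDerivAt_const (0 : ℝ) p).inner ℝ (line_deriv x0 (-ν x0) 0)
    simpa using this
  have h4 := (h3.sub h2).tendsto_slope_zero_right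
  have h5 : ⟪p, -ν x0⟫_ℝ - ⟪gradient w (x0 + (0 : ℝ) • (-ν x0)), -ν x0⟫_ℝ ≤ 0 := by
    refine le_of_tendsto h4 ?_
    filter_upwards [hin x0 hf, self_mem_nhdsWithin] with t ht ht0
    have ht0' : 0 < t := ht0
    have h6 := hmax _ (subset_closure ht)
    have h7 : x0 + t • (-ν x0) = x0 - t • ν x0 := by rw [smul_neg, sub_eq_add_neg]
    simp only [zero_add, Pi.sub_apply, zero_smul, add_zero, smul_eq_mul]
    rw [h7]
    exact mul_nonpos_of_nonneg_of_nonpos (inv_nonneg.2 ht0'.le) (by linarith)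
  rw [zero_smul, add_zero, inner_neg_right, inner_neg_right] at h5
  have h6 := hbc x0 hf
  have h7 := real_inner_le_norm p (ν x0)
  rw [hν x0 hf, mul_one] at h7
  linarith

theorem at_max {n : ℕ} {Ω U : Set (E n)} (hΩ : IsOpen Ω) (hU : IsOpen U)
    (hΩU : closure Ω ⊆ U) {w : E n → ℝ} (hw : ContDiffOn ℝ 2 w U) {κ : ℝ}
    (hpde : ∀ x ∈ Ω, (∑ i : Fin n, (fderiv ℝ (fun y => gradient w y i) x) (EuclideanSpace.single i 1)) +
      ‖gradient w x‖ ^ 2 ≤ κ) {p x0 : E n} (hx0 : x0 ∈ Ω)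
    (hmax : ∀ x ∈ closure Ω, ⟪p, x⟫_ℝ - w x ≤ ⟪p, x0⟫_ℝ - w x0) :
    gradient w x0 = p ∧ ∀ u, ⟪fderiv ℝ (gradient w) x0 u, u⟫_ℝ ≤ κ * ‖u‖ ^ 2 := by
  obtain ⟨h1, h2⟩ := w_facts hU hw (hΩU (subset_closure hx0))
  have h3 : ∀ᶠ y in 𝓝 x0, HasFDerivAt (fun y => w y - ⟪p, y⟫_ℝ) (J n (gradient w y - p)) y := by
    filter_upwards [h1] with y hy
    rw [map_sub]
    exact hy.sub (J n p).hasFDerivAt
  have h4 : HasFDerivAt (fun y => gradient w y - p) (fderiv ℝ (gradient w) x0) x0 :=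
    h2.sub_const p
  have hmin : IsLocalMin (fun y => w y - ⟪p, y⟫_ℝ) x0 := by
    filter_upwards [hΩ.mem_nhds hx0] with y hy
    have := hmax y (subset_closure hy)
    linarith
  have h5 : gradient w x0 = p := by
    have h6 := hmin.hasFDerivAt_eq_zero h3.self_of_nhds
    have h7 := DFunLike.congr_fun h6 (gradient w x0 - p)
    rw [J_apply] at h7
    have h8 : ⟪gradient w x0 - p, gradient w x0 - p⟫_ℝ = 0 := h7
    exact sub_eq_zero.1 (inner_self_eq_zero.1 h8)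
  refine ⟨h5, fun u => ?_⟩
  have h6 := hess_nonneg h3 h4 hmin
  have h7 := psd_le_trace (grad_symm h3 h4) h6 u
  refine h7.trans (mul_le_mul_of_nonneg_right ?_ (sq_nonneg _))
  have h8 := hpde x0 hx0
  have h9 : ∑ i : Fin n, (fderiv ℝ (fun y => gradient w y i) x0) (EuclideanSpace.single i 1) =
      ∑ i : Fin n, (fderiv ℝ (gradient w) x0 (EuclideanSpace.single i 1)) i :=
    Finset.sum_congr rfl fun i _ => fderiv_coord h2 i _
  rw [h9] at h8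
  have h10 := sq_nonneg ‖gradient w x0‖
  linarith

/-- uniform convexity of the conjugate, with a slightly worse constant -/
theorem conv_aux {n : ℕ} {Ω U : Set (E n)} (hΩ : IsOpen Ω) (hU : IsOpen U)
    (hΩU : closure Ω ⊆ U) {w : E n → ℝ} (hw : ContDiffOn ℝ 2 w U) {κ κ' : ℝ} (hκ : 0 < κ)
    (hκ' : κ < κ') {X : E n → E n}
    (hX : ∀ p, X p ∈ closure Ω ∧ ∀ x ∈ closure Ω, ⟪p, x⟫_ℝ - w x ≤ ⟪p, X p⟫_ℝ - w (X p))
    (hfc : Continuous (fun p => ⟪p, X p⟫_ℝ - w (X p))) {A : ℝ}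
    (hXi : ∀ p, ‖p‖ < A → X p ∈ Ω ∧ gradient w (X p) = p ∧
      ∀ u, ⟪fderiv ℝ (gradient w) (X p) u, u⟫_ℝ ≤ κ * ‖u‖ ^ 2)
    {p1 p2 : E n} (h1 : ‖p1‖ < A) (h2 : ‖p2‖ < A) {t : ℝ} (ht : t ∈ Icc (0 : ℝ) 1) :
    ⟪p1 + t • (p2 - p1), X (p1 + t • (p2 - p1))⟫_ℝ - w (X (p1 + t • (p2 - p1))) ≤
      (1 - t) * (⟪p1, X p1⟫_ℝ - w (X p1)) + t * (⟪p2, X p2⟫_ℝ - w (X p2)) -
        t * (1 - t) * ‖p2 - p1‖ ^ 2 / (2 * κ') := by
  have hκ'0 : 0 < κ' := hκ.trans hκ'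
  by_cases hv0 : p2 = p1
  · subst hv0
    simp
    linarith
  set v := p2 - p1 with hv
  have hvn : 0 < ‖v‖ := norm_pos_iff.2 (sub_ne_zero.2 hv0)
  set f : E n → ℝ := fun p => ⟪p, X p⟫_ℝ - w (X p) with hf
  set φ : ℝ → ℝ := fun t => f (p1 + t • v) - ‖p1 + t • v‖ ^ 2 / (2 * κ') with hφ
  have hline : Continuous (fun t : ℝ => p1 + t • v) := by fun_prop
  have hφc : ContinuousOn φ (Icc 0 1) := by
    refine Continuous.continuousOn ?_
    exact (hfc.comp hline).sub ((hline.norm.pow 2).div_const _)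
  have hball : ∀ s ∈ Icc (0 : ℝ) 1, ‖p1 + s • v‖ < A := by
    intro s hs
    have h3 : p1 + s • v = (1 - s) • p1 + s • p2 := by
      rw [hv, smul_sub, sub_smul, one_smul]; abel
    have h4 := (convex_ball (0 : E n) A) (x := p1) (by simpa using h1) (y := p2)
      (by simpa using h2) (sub_nonneg.2 hs.2) hs.1 (by ring)
    rw [← h3] at h4
    simpa using h4
  have hnorm : ∀ s r : ℝ, ‖p1 + s • v‖ ^ 2 = ‖p1 + r • v‖ ^ 2 +
      2 * (s - r) * ⟪p1 + r • v, v⟫_ℝ + (s - r) ^ 2 * ‖v‖ ^ 2 := by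
    intro s r
    have h3 : p1 + s • v = (p1 + r • v) + (s - r) • v := by
      rw [sub_smul]; abel
    rw [h3, norm_add_sq_real, inner_smul_right, norm_smul, mul_pow, Real.norm_eq_abs, sq_abs]
    ring
  have key := conv_of_support hφc (by
    intro r hr
    have hrI : r ∈ Icc (0 : ℝ) 1 := ⟨hr.1.le, hr.2.le⟩
    set p := p1 + r • v with hp
    obtain ⟨hx0, hgr, hH⟩ := hXi p (hball r hrI)
    set x0 := X p with hx0d
    obtain ⟨w1, w2⟩ := w_facts hU hw (hΩU (subset_closure hx0))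
    set κ2 : ℝ := (κ + κ') / 2 with hκ2
    have hκ2a : κ < κ2 := by rw [hκ2]; linarith
    have hκ2b : κ2 < κ' := by rw [hκ2]; linarith
    set c : ℝ := κ2 * ‖v‖ ^ 2 with hc
    have hcH : ⟪fderiv ℝ (gradient w) x0 v, v⟫_ℝ < c :=
      (hH v).trans_lt (mul_lt_mul_of_pos_right hκ2a (by positivity))
    have htay := taylor_line w1 w2 v hcH
    have hten : Tendsto (fun s : ℝ => (s - r) / κ') (𝓝 r) (𝓝 0) := by
      have : Continuous (fun s : ℝ => (s - r) / κ') := by fun_prop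
      have h3 := this.tendsto r
      simpa using h3
    have hline2 : Tendsto (fun s : ℝ => x0 + ((s - r) / κ') • v) (𝓝 r) (𝓝 x0) :=
      (line_tendsto x0 v).comp hten
    refine ⟨⟪v, x0⟫_ℝ - ⟪p, v⟫_ℝ / κ', ?_⟩
    filter_upwards [hten.eventually htay, hline2.eventually (hΩ.mem_nhds hx0)] with s hs1 hs2 hne
    have h3 := (hX (p1 + s • v)).2 _ (subset_closure hs2)
    have h4 : p1 + s • v = p + (s - r) • v := by
      rw [hp, sub_smul]; abel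
    have hns := hnorm s r
    rw [← hp] at hns
    simp only [hφ]
    rw [← hp]
    have h5 : f (p1 + s • v) = ⟪p1 + s • v, X (p1 + s • v)⟫_ℝ - w (X (p1 + s • v)) := rfl
    have h6 : f p = ⟪p, x0⟫_ℝ - w x0 := rfl
    rw [h5, h6, hns]
    rw [hgr] at hs1
    have h7 : ⟪p1 + s • v, x0 + ((s - r) / κ') • v⟫_ℝ =
        ⟪p, x0⟫_ℝ + (s - r) * ⟪v, x0⟫_ℝ + (s - r) / κ' * ⟪p, v⟫_ℝ +
          (s - r) * ((s - r) / κ') * ‖v‖ ^ 2 := by
      rw [h4, inner_add_left, inner_add_right, inner_add_right, inner_smul_left,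
        inner_smul_right, inner_smul_left, inner_smul_right, real_inner_self_eq_norm_sq]
      simp only [conj_trivial]
      ring
    have hd : s - r ≠ 0 := sub_ne_zero.2 hne
    have h8 : 0 < (s - r) ^ 2 * ‖v‖ ^ 2 := by positivity
    have h9 : (⟪p, x0⟫_ℝ - w x0 - ‖p‖ ^ 2 / (2 * κ')) +
        (⟪v, x0⟫_ℝ - ⟪p, v⟫_ℝ / κ') * (s - r) + (s - r) ^ 2 * ‖v‖ ^ 2 *
          ((κ' - κ2) / (2 * κ' ^ 2)) ≤
        ⟪p1 + s • v, x0 + ((s - r) / κ') • v⟫_ℝ - w (x0 + ((s - r) / κ') • v) -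
          (‖p‖ ^ 2 + 2 * (s - r) * ⟪p, v⟫_ℝ + (s - r) ^ 2 * ‖v‖ ^ 2) / (2 * κ') := by
      rw [h7]
      have e1 : (⟪p, x0⟫_ℝ + (s - r) * ⟪v, x0⟫_ℝ + (s - r) / κ' * ⟪p, v⟫_ℝ +
          (s - r) * ((s - r) / κ') * ‖v‖ ^ 2) -
          (w x0 + (s - r) / κ' * ⟪p, v⟫_ℝ + c / 2 * ((s - r) / κ') ^ 2) -
          (‖p‖ ^ 2 + 2 * (s - r) * ⟪p, v⟫_ℝ + (s - r) ^ 2 * ‖v‖ ^ 2) / (2 * κ') =
          (⟪p, x0⟫_ℝ - w x0 - ‖p‖ ^ 2 / (2 * κ')) +
        (⟪v, x0⟫_ℝ - ⟪p, v⟫_ℝ / κ') * (s - r) + (s - r) ^ 2 * ‖v‖ ^ 2 *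
          ((κ' - κ2) / (2 * κ' ^ 2)) := by
        rw [hc]
        field_simp
        ring
      rw [← e1]
      linarith
    have h10 : 0 < (s - r) ^ 2 * ‖v‖ ^ 2 * ((κ' - κ2) / (2 * κ' ^ 2)) := by
      refine mul_pos h8 (div_pos (by linarith) (by positivity))
    linarith) ht
  have e2 := hnorm t 0
  have e3 := hnorm 1 0
  simp only [hφ, zero_smul, add_zero, one_smul, sub_zero, one_pow, one_mul, mul_one] at key e2 e3
  have e4 : p1 + v = p2 := by rw [hv]; abel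
  rw [e4] at key e3
  rw [e2, e3] at key
  have e5 : (1 - t) * (f p1 - ‖p1‖ ^ 2 / (2 * κ')) +
      t * (f p2 - (‖p1‖ ^ 2 + 2 * ⟪p1, v⟫_ℝ + ‖v‖ ^ 2) / (2 * κ')) +
      (‖p1‖ ^ 2 + 2 * t * ⟪p1, v⟫_ℝ + t ^ 2 * ‖v‖ ^ 2) / (2 * κ') =
      (1 - t) * f p1 + t * f p2 - t * (1 - t) * ‖v‖ ^ 2 / (2 * κ') := by
    field_simp
    ring
  have e6 : f (p1 + t • v) ≤ (1 - t) * f p1 + t * f p2 - t * (1 - t) * ‖v‖ ^ 2 / (2 * κ') := by
    rw [← e5]
    linarith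
  exact e6

theorem conv_lim {n : ℕ} {f : E n → ℝ} {κ A : ℝ} (hκ : 0 < κ)
    (h : ∀ κ', κ < κ' → ∀ p1 p2 : E n, ‖p1‖ < A → ‖p2‖ < A → ∀ t ∈ Icc (0 : ℝ) 1,
      f (p1 + t • (p2 - p1)) ≤ (1 - t) * f p1 + t * f p2 -
        t * (1 - t) * ‖p2 - p1‖ ^ 2 / (2 * κ')) {p1 p2 : E n} (h1 : ‖p1‖ < A) (h2 : ‖p2‖ < A)
    {t : ℝ} (ht : t ∈ Icc (0 : ℝ) 1) :
      f (p1 + t • (p2 - p1)) ≤ (1 - t) * f p1 + t * f p2 -
        t * (1 - t) * ‖p2 - p1‖ ^ 2 / (2 * κ) := by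
  have hc : ContinuousAt (fun κ' : ℝ => (1 - t) * f p1 + t * f p2 -
        t * (1 - t) * ‖p2 - p1‖ ^ 2 / (2 * κ')) κ := by
    refine ContinuousAt.sub continuousAt_const ?_
    refine ContinuousAt.div continuousAt_const (by fun_prop) (by positivity)
  have h3 := (hc.tendsto.mono_left (nhdsWithin_le_nhds (s := Ioi κ)))
  refine ge_of_tendsto h3 ?_
  filter_upwards [self_mem_nhdsWithin] with κ' hκ'
  exact h κ' hκ' p1 p2 h1 h2 t ht

/-- the maximiser of the dual problem -/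
theorem exists_q {n : ℕ} {f : E n → ℝ} (hf : Continuous f) {κ A' : ℝ} (hκ : 0 < κ)
    (hA' : 0 < A')
    (hconv : ∀ p1 p2 : E n, ‖p1‖ ≤ A' → ‖p2‖ ≤ A' → ∀ t ∈ Icc (0 : ℝ) 1,
      f (p1 + t • (p2 - p1)) ≤ (1 - t) * f p1 + t * f p2 -
        t * (1 - t) * ‖p2 - p1‖ ^ 2 / (2 * κ)) :
    ∃ q : E n → E n, (∀ x, ‖q x‖ ≤ A') ∧ ∀ x p, ‖p‖ ≤ A' →
      ⟪p, x⟫_ℝ - f p + ‖p - q x‖ ^ 2 / (2 * κ) ≤ ⟪q x, x⟫_ℝ - f (q x) := by
  have h : ∀ x : E n, ∃ y : E n, ‖y‖ ≤ A' ∧ ∀ p, ‖p‖ ≤ A' → ⟪p, x⟫_ℝ - f p ≤ ⟪y, x⟫_ℝ - f y := by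
    intro x
    have hc : ContinuousOn (fun p => ⟪p, x⟫_ℝ - f p) (closedBall 0 A') := by
      refine Continuous.continuousOn (Continuous.sub ?_ hf)
      fun_prop
    obtain ⟨y, hy, hmax⟩ := (isCompact_closedBall (0 : E n) A').exists_isMaxOn
      ⟨0, by simpa using hA'.le⟩ hc
    exact ⟨y, by simpa using hy, fun p hp => hmax (by simpa using hp)⟩
  choose q hq1 hq2 using h
  refine ⟨q, hq1, fun x p hp => ?_⟩
  have key : ∀ t ∈ Ioo (0 : ℝ) 1, ⟪p, x⟫_ℝ - f p + (1 - t) * (‖p - q x‖ ^ 2 / (2 * κ)) ≤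
      ⟪q x, x⟫_ℝ - f (q x) := by
    intro t ht
    have h1 := hconv (q x) p (hq1 x) hp t ⟨ht.1.le, ht.2.le⟩
    have h2 : ‖q x + t • (p - q x)‖ ≤ A' := by
      have h3 : q x + t • (p - q x) = (1 - t) • q x + t • p := by
        rw [smul_sub, sub_smul, one_smul]; abel
      have h4 := (convex_closedBall (0 : E n) A') (x := q x) (by simpa using hq1 x) (y := p)
        (by simpa using hp) (sub_nonneg.2 ht.2.le) ht.1.le (by ring)
      rw [← h3] at h4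
      simpa using h4
    have h3 := hq2 x _ h2
    rw [inner_add_left, inner_smul_left, inner_sub_left] at h3
    simp only [conj_trivial] at h3
    have h4 : t * (⟪p, x⟫_ℝ - f p + (1 - t) * (‖p - q x‖ ^ 2 / (2 * κ))) ≤
        t * (⟪q x, x⟫_ℝ - f (q x)) := by
      have h5 : t * (1 - t) * ‖p - q x‖ ^ 2 / (2 * κ) =
        t * ((1 - t) * (‖p - q x‖ ^ 2 / (2 * κ))) := by ring
      rw [h5] at h1
      nlinarith
    exact le_of_mul_le_mul_left h4 ht.1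
  have hc : ContinuousAt (fun t : ℝ => ⟪p, x⟫_ℝ - f p +
      (1 - t) * (‖p - q x‖ ^ 2 / (2 * κ))) 0 := by fun_prop
  have h3 := (hc.tendsto.mono_left (nhdsWithin_le_nhds (s := Ioi 0)))
  simp only [sub_zero, one_mul] at h3
  refine le_of_tendsto h3 ?_
  filter_upwards [Ioo_mem_nhdsGT (zero_lt_one (α := ℝ))] with t ht
  exact key t ht

theorem q_mono {n : ℕ} {f : E n → ℝ} {q : E n → E n} {κ A' : ℝ} (hκ : 0 < κ)
    (hq1 : ∀ x, ‖q x‖ ≤ A') (hq : ∀ x p, ‖p‖ ≤ A' →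
      ⟪p, x⟫_ℝ - f p + ‖p - q x‖ ^ 2 / (2 * κ) ≤ ⟪q x, x⟫_ℝ - f (q x)) (x y : E n) :
    ‖q x - q y‖ ^ 2 ≤ κ * ⟪q x - q y, x - y⟫_ℝ := by
  have h1 := hq x (q y) (hq1 y)
  have h2 := hq y (q x) (hq1 x)
  rw [norm_sub_rev] at h1
  have h3 : ⟪q x - q y, x - y⟫_ℝ = ⟪q x, x⟫_ℝ - ⟪q x, y⟫_ℝ - ⟪q y, x⟫_ℝ + ⟪q y, y⟫_ℝ := by
    rw [inner_sub_left, inner_sub_right, inner_sub_right]; ring
  have h4 : ‖q x - q y‖ ^ 2 / κ ≤ ⟪q x - q y, x - y⟫_ℝ := by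
    have h5 : ‖q x - q y‖ ^ 2 / κ = ‖q x - q y‖ ^ 2 / (2 * κ) + ‖q x - q y‖ ^ 2 / (2 * κ) := by
      field_simp; ring
    rw [h3, h5]
    linarith
  rw [div_le_iff₀ hκ] at h4
  linarith

theorem q_lip {n : ℕ} {f : E n → ℝ} {q : E n → E n} {κ A' : ℝ} (hκ : 0 < κ)
    (hq1 : ∀ x, ‖q x‖ ≤ A') (hq : ∀ x p, ‖p‖ ≤ A' →
      ⟪p, x⟫_ℝ - f p + ‖p - q x‖ ^ 2 / (2 * κ) ≤ ⟪q x, x⟫_ℝ - f (q x)) (x y : E n) :
    ‖q x - q y‖ ≤ κ * ‖x - y‖ := by
  have h1 := q_mono hκ hq1 hq x y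
  have h2 : ⟪q x - q y, x - y⟫_ℝ ≤ ‖q x - q y‖ * ‖x - y‖ := real_inner_le_norm _ _
  rcases (norm_nonneg (q x - q y)).eq_or_lt with h0 | h0
  · rw [← h0]; positivity
  · have h3 : ‖q x - q y‖ * ‖q x - q y‖ ≤ ‖q x - q y‖ * (κ * ‖x - y‖) := by
      have h4 : κ * ⟪q x - q y, x - y⟫_ℝ ≤ κ * (‖q x - q y‖ * ‖x - y‖) :=
        mul_le_mul_of_nonneg_left h2 hκ.le
      nlinarith
    exact le_of_mul_le_mul_left h3 h0

theorem W_grad {n : ℕ} {f : E n → ℝ} {q : E n → E n} {κ A' : ℝ} (hκ : 0 < κ)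
    (hq1 : ∀ x, ‖q x‖ ≤ A') (hq : ∀ x p, ‖p‖ ≤ A' →
      ⟪p, x⟫_ℝ - f p + ‖p - q x‖ ^ 2 / (2 * κ) ≤ ⟪q x, x⟫_ℝ - f (q x)) (x : E n) :
    HasFDerivAt (fun y => ⟪q y, y⟫_ℝ - f (q y)) (J n (q x)) x := by
  have hq' : ∀ x p, ‖p‖ ≤ A' → ⟪p, x⟫_ℝ - f p ≤ ⟪q x, x⟫_ℝ - f (q x) := by
    intro x p hp
    have h1 := hq x p hp
    have h2 : 0 ≤ ‖p - q x‖ ^ 2 / (2 * κ) := by positivity
    linarith
  rw [hasFDerivAt_iff_isLittleO_nhds_zero, Asymptotics.isLittleO_iff]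
  intro c hc
  have h1 : ∀ᶠ h in 𝓝 (0 : E n), ‖h‖ < c / κ := by
    have : Tendsto (fun h : E n => ‖h‖) (𝓝 0) (𝓝 0) := by
      have h := (continuous_norm (E := E n)).tendsto 0
      simpa using h
    exact this.eventually (gt_mem_nhds (by positivity))
  filter_upwards [h1] with h hh
  rw [J_apply, Real.norm_eq_abs, abs_le]
  have e1 := hq' (x + h) (q x) (hq1 x)
  have e2 := hq' x (q (x + h)) (hq1 _)
  have e3 : ⟪q x, x + h⟫_ℝ = ⟪q x, x⟫_ℝ + ⟪q x, h⟫_ℝ := inner_add_right _ _ _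
  have e4 : ⟪q (x + h), x + h⟫_ℝ = ⟪q (x + h), x⟫_ℝ + ⟪q (x + h), h⟫_ℝ := inner_add_right _ _ _
  have e5 : ⟪q (x + h), h⟫_ℝ - ⟪q x, h⟫_ℝ ≤ c * ‖h‖ := by
    rw [← inner_sub_left]
    have e6 := q_lip hκ hq1 hq (x + h) x
    rw [add_sub_cancel_left] at e6
    have e7 : ‖q (x + h) - q x‖ ≤ c := by
      have : κ * ‖h‖ ≤ c := by
        have := (lt_div_iff₀ hκ).1 hh
        linarith
      linarith
    exact (real_inner_le_norm _ _).trans (mul_le_mul_of_nonneg_right e7 (norm_nonneg _))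
  have e6 : 0 ≤ c * ‖h‖ := by positivity
  constructor <;> linarith

theorem contact (n : ℕ) (Ω U : Set (E n)) (hΩ : IsOpen Ω) (hne : Ω.Nonempty)
    (hb : Bornology.IsBounded Ω) (hU : IsOpen U) (hΩU : closure Ω ⊆ U) (w : E n → ℝ)
    (hw : ContDiffOn ℝ 2 w U) (ν : E n → E n) (hν : ∀ x ∈ frontier Ω, ‖ν x‖ = 1)
    (hin : ∀ x ∈ frontier Ω, ∀ᶠ t in 𝓝[>] (0 : ℝ), x - t • ν x ∈ Ω)
    (κ : ℝ≥0) (A A' : ℝ) (hκ : 0 < κ) (hA' : 0 < A') (hA : A' < A)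
    (hpde : ∀ x ∈ Ω, (∑ i : Fin n, (fderiv ℝ (fun y => gradient w y i) x) (EuclideanSpace.single i 1)) +
      ‖gradient w x‖ ^ 2 ≤ κ)
    (hbc : ∀ x ∈ frontier Ω, A ≤ ⟪gradient w x, ν x⟫_ℝ) :
    ∃ (q : E n → E n) (G : Set (E n)), LipschitzWith κ q ∧ (∀ x, ‖q x‖ ≤ A') ∧
      G ⊆ Ω ∧ MeasurableSet G ∧ ball 0 A' ⊆ q '' G ∧
      (∀ x ∈ G, gradient w x = q x) ∧
      (∀ x, DifferentiableAt ℝ q x → (∀ u v : E n, ⟪fderiv ℝ q x u, v⟫_ℝ = ⟪u, fderiv ℝ q x v⟫_ℝ) ∧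
        ∀ u : E n, 0 ≤ ⟪fderiv ℝ q x u, u⟫_ℝ) ∧
      (∀ x ∈ G, DifferentiableAt ℝ q x →
        (∑ i : Fin n, (fderiv ℝ q x (EuclideanSpace.single i 1)) i) ≤ κ - ‖q x‖ ^ 2) := by
  have hκ0 : (0 : ℝ) < κ := hκ
  have hK : IsCompact (closure Ω) := hb.isCompact_closure
  have hwc : ContinuousOn w (closure Ω) := hw.continuousOn.mono hΩU
  obtain ⟨X, hX⟩ := exists_max hK hne.closure hwc
  obtain ⟨R, hR⟩ := hK.isBounded.subset_closedBall (0 : E n)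
  have hfc := f_cont hR hX
  set f : E n → ℝ := fun p => ⟪p, X p⟫_ℝ - w (X p) with hf
  have hXi : ∀ p, ‖p‖ < A → X p ∈ Ω ∧ gradient w (X p) = p ∧
      ∀ u, ⟪fderiv ℝ (gradient w) (X p) u, u⟫_ℝ ≤ κ * ‖u‖ ^ 2 := by
    intro p hp
    have h1 := max_interior hΩ hU hΩU hw hν hin hbc hp (hX p).1 (hX p).2
    exact ⟨h1, at_max hΩ hU hΩU hw hpde h1 (hX p).2⟩
  have hconv : ∀ p1 p2 : E n, ‖p1‖ ≤ A' → ‖p2‖ ≤ A' → ∀ t ∈ Icc (0 : ℝ) 1,
      f (p1 + t • (p2 - p1)) ≤ (1 - t) * f p1 + t * f p2 -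
        t * (1 - t) * ‖p2 - p1‖ ^ 2 / (2 * κ) := by
    intro p1 p2 h1 h2 t ht
    refine conv_lim (A := A) hκ0 ?_ (h1.trans_lt hA) (h2.trans_lt hA) ht
    intro κ' hκ' p1 p2 h1 h2 t ht
    exact conv_aux hΩ hU hΩU hw hκ0 hκ' hX hfc hXi h1 h2 ht
  obtain ⟨q, hq1, hq⟩ := exists_q hfc hκ0 hA' hconv
  set W : E n → ℝ := fun y => ⟪q y, y⟫_ℝ - f (q y) with hW
  have hWg : ∀ x, HasFDerivAt W (J n (q x)) x := fun x => W_grad hκ0 hq1 hq x
  have hWc : Continuous W := continuous_iff_continuousAt.2 fun x => (hWg x).continuousAt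
  have hWle : ∀ x ∈ closure Ω, W x ≤ w x := by
    intro x hx
    have h1 := (hX (q x)).2 x hx
    have h2 : W x = ⟪q x, x⟫_ℝ - (⟪q x, X (q x)⟫_ℝ - w (X (q x))) := rfl
    linarith
  have hWsup : ∀ x y, W x + ⟪q x, y - x⟫_ℝ ≤ W y := by
    intro x y
    have h1 := hq y (q x) (hq1 x)
    have h2 : 0 ≤ ‖q x - q y‖ ^ 2 / (2 * (κ : ℝ)) := by positivity
    rw [inner_sub_right]
    simp only [hW]
    linarith
  set G : Set (E n) := {x | x ∈ Ω ∧ W x = w x} with hG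
  have hmin : ∀ x ∈ G, IsLocalMin (fun y => w y - W y) x := by
    intro x hx
    filter_upwards [hΩ.mem_nhds hx.1] with y hy
    have h1 := hWle y (subset_closure hy)
    have h2 := hx.2
    linarith
  have hgrad : ∀ x ∈ G, (∀ᶠ y in 𝓝 x, HasFDerivAt (fun y => w y - W y)
      (J n (gradient w y - q y)) y) := by
    intro x hx
    obtain ⟨h1, -⟩ := w_facts hU hw (hΩU (subset_closure hx.1))
    filter_upwards [h1] with y hy
    rw [map_sub]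
    exact hy.sub (hWg y)
  have hGq : ∀ x ∈ G, gradient w x = q x := by
    intro x hx
    have h6 := (hmin x hx).hasFDerivAt_eq_zero (hgrad x hx).self_of_nhds
    have h7 := DFunLike.congr_fun h6 (gradient w x - q x)
    rw [J_apply] at h7
    have h8 : ⟪gradient w x - q x, gradient w x - q x⟫_ℝ = 0 := h7
    exact sub_eq_zero.1 (inner_self_eq_zero.1 h8)
  refine ⟨q, G, ?_, hq1, fun x hx => hx.1, ?_, ?_, hGq, ?_, ?_⟩
  · refine LipschitzWith.of_dist_le_mul fun x y => ?_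
    rw [dist_eq_norm, dist_eq_norm]
    exact q_lip hκ0 hq1 hq x y
  · have hc : ContinuousOn (fun x => W x - w x) Ω :=
      hWc.continuousOn.sub (hwc.mono subset_closure)
    have ho : IsOpen (Ω ∩ (fun x => W x - w x) ⁻¹' {0}ᶜ) :=
      hc.isOpen_inter_preimage hΩ isOpen_compl_singleton
    have h1 : G = Ω \ (Ω ∩ (fun x => W x - w x) ⁻¹' {0}ᶜ) := by
      ext x
      simp only [hG, mem_setOf_eq, mem_diff, mem_inter_iff, mem_preimage, mem_compl_iff,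
        mem_singleton_iff, not_and, not_not, sub_eq_zero]
      constructor
      · rintro ⟨h1, h2⟩
        exact ⟨h1, fun _ => h2⟩
      · rintro ⟨h1, h2⟩
        exact ⟨h1, h2 h1⟩
    rw [h1]
    exact hΩ.measurableSet.diff ho.measurableSet
  · intro p hp
    have hp' : ‖p‖ < A' := by simpa using hp
    obtain ⟨h1, h2, h3⟩ := hXi p (hp'.trans hA)
    have h4 := hq (X p) p hp'.le
    have h5 : f p = ⟪p, X p⟫_ℝ - w (X p) := rfl
    have h6 := hWle (X p) (subset_closure h1)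
    have h7 : W (X p) = ⟪q (X p), X p⟫_ℝ - f (q (X p)) := rfl
    have h8 : 0 ≤ ‖p - q (X p)‖ ^ 2 / (2 * (κ : ℝ)) := by positivity
    have h9 : W (X p) = w (X p) := by linarith
    have h10 : ‖p - q (X p)‖ ^ 2 / (2 * (κ : ℝ)) = 0 := by linarith
    have h11 : ‖p - q (X p)‖ ^ 2 = 0 := by
      rcases div_eq_zero_iff.1 h10 with h | h
      · exact h
      · linarith
    have h12 : p - q (X p) = 0 := by
      rw [← norm_eq_zero]
      exact pow_eq_zero_iff (two_ne_zero) |>.1 h11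
    exact ⟨X p, ⟨h1, h9⟩, (sub_eq_zero.1 h12).symm⟩
  · intro x hx
    refine ⟨fun u v => grad_symm (Filter.Eventually.of_forall hWg) hx.hasFDerivAt u v, ?_⟩
    intro u
    refine hess_nonneg (φ := fun y => W y - ⟪q x, y⟫_ℝ) (g := fun y => q y - q x) ?_
      (hx.hasFDerivAt.sub_const (q x)) ?_ u
    · refine Filter.Eventually.of_forall fun y => ?_
      show HasFDerivAt _ (J n (q y - q x)) y
      rw [map_sub]
      exact (hWg y).sub (J n (q x)).hasFDerivAt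
    · refine Filter.Eventually.of_forall fun y => ?_
      have := hWsup x y
      rw [inner_sub_right] at this
      show W x - ⟪q x, x⟫_ℝ ≤ W y - ⟪q x, y⟫_ℝ
      linarith
  · intro x hx hd
    obtain ⟨-, h2⟩ := w_facts hU hw (hΩU (subset_closure hx.1))
    have h3 : HasFDerivAt (fun y => gradient w y - q y)
        (fderiv ℝ (gradient w) x - fderiv ℝ q x) x := h2.sub hd.hasFDerivAt
    have h4 := hess_nonneg (hgrad x hx) h3 (hmin x hx)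
    have h5 := hpde x hx.1
    rw [hGq x hx] at h5
    have h6 : ∑ i : Fin n, (fderiv ℝ q x (EuclideanSpace.single i 1)) i ≤
        ∑ i : Fin n, (fderiv ℝ (fun y => gradient w y i) x) (EuclideanSpace.single i 1) := by
      refine Finset.sum_le_sum fun i _ => ?_
      rw [fderiv_coord h2 i]
      have h7 := h4 (EuclideanSpace.single i 1)
      rw [ContinuousLinearMap.sub_apply, inner_sub_left, EuclideanSpace.inner_single_right,
        EuclideanSpace.inner_single_right] at h7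
      simp at h7
      exact h7
    linarith

end Pool.Agent.Helper876.JC
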