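import Mathlib

set_option autoImplicit false

open scoped InnerProductSpace

namespace Pool.Agent.Helper876.JD

/-- Euclidean space -/
abbrev E (n : ℕ) := EuclideanSpace ℝ (Fin n)

/-- the inequality between the geometric and the arithmetic mean -/
theorem det_le_amgm {ι : Type*} (s : Finset ι) (z : ι → ℝ) (hz : ∀ i ∈ s, 0 ≤ z i) :
    ∏ i ∈ s, z i ≤ ((∑ i ∈ s, z i) / (s.card : ℝ)) ^ s.card := by
  rcases s.eq_empty_or_nonempty with rfl | hs
  · simp
  have hc : 0 < s.card := Finset.card_pos.2 hs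
  have hc' : (0 : ℝ) < s.card := by exact_mod_cast hc
  have h := Real.geom_mean_le_arith_mean_weighted s (fun _ => (s.card : ℝ)⁻¹) z
    (fun _ _ => by positivity) (by simp [hc'.ne']) hz
  have h0 : 0 ≤ ∏ i ∈ s, z i := Finset.prod_nonneg hz
  have e1 : ∏ i ∈ s, z i ^ (s.card : ℝ)⁻¹ = (∏ i ∈ s, z i) ^ (s.card : ℝ)⁻¹ :=
    Real.finsetProd_rpow s z hz _
  have e2 : ∑ i ∈ s, (s.card : ℝ)⁻¹ * z i = (∑ i ∈ s, z i) / s.card := by
    rw [← Finset.mul_sum, div_eq_inv_mul]
  rw [e1, e2] at h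
  have h2 := pow_le_pow_left₀ (Real.rpow_nonneg h0 _) h s.card
  rwa [← Real.rpow_natCast, ← Real.rpow_mul h0, inv_mul_cancel₀ hc'.ne', Real.rpow_one] at h2

/-- the determinant of a positive semidefinite matrix with trace at most its size -/
theorem det_le_trace {n : ℕ} (N : Matrix (Fin n) (Fin n) ℝ) (hN : N.PosSemidef)
    (ht : N.trace = n) : N.det ≤ 1 := by
  have hH := hN.isHermitian
  have e1 := hH.det_eq_prod_eigenvalues
  have e2 := hH.trace_eq_sum_eigenvalues
  simp only [RCLike.ofReal_real_eq_id, id_eq] at e1 e2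
  rw [e1]
  refine (det_le_amgm Finset.univ _ fun i _ => hN.eigenvalues_nonneg i).trans ?_
  rw [← e2, ht, Finset.card_univ, Fintype.card_fin]
  rcases Nat.eq_zero_or_pos n with rfl | hn
  · simp
  · rw [div_self (by exact_mod_cast hn.ne'), one_pow]

/-- Hadamard's inequality -/
theorem det_le_hadamard {n : ℕ} (M : Matrix (Fin n) (Fin n) ℝ) (hM : M.PosSemidef) :
    M.det ≤ ∏ i, M i i := by
  have hd : ∀ i, 0 ≤ M i i := fun i => hM.diag_nonneg
  by_cases h0 : ∀ i, 0 < M i i
  · set D : Matrix (Fin n) (Fin n) ℝ := Matrix.diagonal fun i => (Real.sqrt (M i i))⁻¹ with hD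
    have hN : (D * M * D.conjTranspose).PosSemidef := hM.mul_mul_conjTranspose_same D
    have hDc : D.conjTranspose = D := by
      rw [hD, Matrix.diagonal_conjTranspose]
      simp
    rw [hDc] at hN
    have ht : (D * M * D).trace = n := by
      rw [Matrix.trace]
      have : ∀ i, (D * M * D).diag i = 1 := by
        intro i
        rw [Matrix.diag_apply, hD, Matrix.mul_diagonal, Matrix.diagonal_mul]
        have h1 : Real.sqrt (M i i) ≠ 0 := (Real.sqrt_pos.2 (h0 i)).ne'
        have h2 : Real.sqrt (M i i) * Real.sqrt (M i i) = M i i := Real.mul_self_sqrt (hd i)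
        field_simp
        rw [sq, h2]
      rw [Finset.sum_congr rfl fun i _ => this i]
      simp
    have h1 := det_le_trace _ hN ht
    rw [Matrix.det_mul, Matrix.det_mul, hD, Matrix.det_diagonal] at h1
    have h2 : (∏ i, (Real.sqrt (M i i))⁻¹) * (∏ i, (Real.sqrt (M i i))⁻¹) = (∏ i, M i i)⁻¹ := by
      rw [← Finset.prod_mul_distrib, ← Finset.prod_inv_distrib]
      refine Finset.prod_congr rfl fun i _ => ?_
      rw [← mul_inv, Real.mul_self_sqrt (hd i)]
    have h3 : 0 < ∏ i, M i i := Finset.prod_pos fun i _ => h0 i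
    have h4 : (∏ i, M i i)⁻¹ * M.det ≤ 1 := by
      rw [← h2]
      calc _ = _ := by ring
        _ ≤ 1 := h1
    rwa [inv_mul_le_iff₀ h3, mul_one] at h4
  · push Not at h0
    obtain ⟨i, hi⟩ := h0
    have hi0 : M i i = 0 := le_antisymm hi (hd i)
    have hv : M.mulVec (Pi.single i 1) = 0 := by
      refine (hM.dotProduct_mulVec_zero_iff (Pi.single i 1)).1 ?_
      simp [hi0]
    have hdet : M.det = 0 := by
      refine Matrix.exists_mulVec_eq_zero_iff.1 ⟨Pi.single i 1, ?_, hv⟩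
      intro h
      have := congrFun h i
      simp at this
    rw [hdet]
    exact Finset.prod_nonneg fun j _ => hd j

theorem det_le (n : ℕ) (hn : 2 ≤ n) (H : E n →L[ℝ] E n)
    (hs : ∀ u v : E n, ⟪H u, v⟫_ℝ = ⟪u, H v⟫_ℝ) (hp : ∀ u : E n, 0 ≤ ⟪H u, u⟫_ℝ)
    (e : E n) (he : ‖e‖ = 1) :
    0 ≤ H.det ∧ 0 ≤ (∑ i : Fin n, (H (EuclideanSpace.single i 1)) i) - ⟪H e, e⟫_ℝ ∧
      H.det ≤ ⟪H e, e⟫_ℝ *
        (((∑ i : Fin n, (H (EuclideanSpace.single i 1)) i) - ⟪H e, e⟫_ℝ) / ((n : ℝ) - 1)) ^ (n - 1) := by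
  obtain ⟨m, rfl⟩ : ∃ m, n = m + 1 := ⟨n - 1, by omega⟩
  -- an orthonormal basis starting with `e`
  have hv : Orthonormal ℝ (Set.domRestrict ({0} : Set (Fin (m + 1))) (fun _ : Fin (m + 1) => e)) := by
    refine ⟨fun i => he, fun i j hij => ?_⟩
    exact absurd (Subsingleton.elim i j) hij
  obtain ⟨b, hb⟩ := hv.exists_orthonormalBasis_extension_of_card_eq
    (by rw [finrank_euclideanSpace_fin, Fintype.card_fin])
  have hb0 : b 0 = e := hb 0 rfl
  set M : Matrix (Fin (m + 1)) (Fin (m + 1)) ℝ :=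
    LinearMap.toMatrix b.toBasis b.toBasis (H : E (m + 1) →ₗ[ℝ] E (m + 1)) with hM
  have hMa : ∀ i j, M i j = ⟪b i, H (b j)⟫_ℝ := by
    intro i j
    rw [hM, LinearMap.toMatrix_apply]
    simp [OrthonormalBasis.repr_apply_apply]
  have hdet : M.det = H.det := by
    rw [hM, LinearMap.det_toMatrix, ContinuousLinearMap.det]
  have htr : M.trace = ∑ i, (H (EuclideanSpace.single i 1)) i := by
    have e1 : M.trace = LinearMap.trace ℝ _ (H : E (m + 1) →ₗ[ℝ] E (m + 1)) := by
      rw [hM, LinearMap.trace_eq_matrix_trace ℝ b.toBasis]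
    rw [e1, LinearMap.trace_eq_matrix_trace ℝ (EuclideanSpace.basisFun (Fin (m + 1)) ℝ).toBasis,
      Matrix.trace]
    refine Finset.sum_congr rfl fun i _ => ?_
    rw [Matrix.diag_apply, LinearMap.toMatrix_apply]
    simp
  have hPS : M.PosSemidef := by
    refine Matrix.PosSemidef.of_dotProduct_mulVec_nonneg ?_ ?_
    · ext i j
      rw [Matrix.conjTranspose_apply, hMa, hMa, star_trivial, real_inner_comm]
      exact hs _ _
    · intro x
      have h1 : star x ⬝ᵥ M.mulVec x = ⟪H (∑ j, x j • b j), ∑ j, x j • b j⟫_ℝ := by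
        rw [real_inner_comm, map_sum, sum_inner]
        simp only [dotProduct, Matrix.mulVec, star_trivial]
        refine Finset.sum_congr rfl fun i _ => ?_
        rw [inner_sum, Finset.mul_sum]
        refine Finset.sum_congr rfl fun j _ => ?_
        rw [hMa, map_smul, inner_smul_left, inner_smul_right]
        simp only [conj_trivial]
        ring
      rw [h1]
      exact hp _
  have h00 : M 0 0 = ⟪H e, e⟫_ℝ := by
    rw [hMa, hb0, real_inner_comm]
  have hsplit : M.trace = M 0 0 + ∑ i : Fin m, M i.succ i.succ := by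
    rw [Matrix.trace, Fin.sum_univ_succ]
    rfl
  have hd : ∀ i, 0 ≤ M i i := fun i => hPS.diag_nonneg
  rw [← hdet, ← htr, ← h00, hsplit]
  have e3 : M 0 0 + ∑ i : Fin m, M i.succ i.succ - M 0 0 = ∑ i : Fin m, M i.succ i.succ := by ring
  rw [e3]
  refine ⟨hPS.det_nonneg, Finset.sum_nonneg fun i _ => hd _, ?_⟩
  refine (det_le_hadamard M hPS).trans ?_
  rw [Fin.prod_univ_succ]
  refine mul_le_mul_of_nonneg_left ?_ (hd 0)
  have h := det_le_amgm Finset.univ (fun i : Fin m => M i.succ i.succ) fun i _ => hd _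
  rw [Finset.card_univ, Fintype.card_fin] at h
  have e4 : ((m + 1 : ℕ) : ℝ) - 1 = m := by push_cast; ring
  rw [e4]
  exact h

end Pool.Agent.Helper876.JD
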