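import Mathlib

set_option autoImplicit false

open MeasureTheory Set Metric
open scoped ENNReal NNReal InnerProductSpace

namespace Pool.Agent.Helper876.JG

/-- Euclidean space -/
abbrev E (n : ℕ) := EuclideanSpace ℝ (Fin n)

/-- divergence -/
noncomputable def dvg {n : ℕ} (X : E n → E n) (x : E n) : ℝ :=
  ∑ i : Fin n, (fderiv ℝ X x (EuclideanSpace.single i 1)) i

section moll

open Filter Topology
open scoped Convolution

variable {n : ℕ} {F : Type} [NormedAddCommGroup F] [NormedSpace ℝ F] [CompleteSpace F]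

/-- the mollification -/
noncomputable def mol (φ : ContDiffBump (0 : E n)) (g : E n → F) (x : E n) : F :=
  ∫ t, φ.normed volume t • g (x - t)

omit [CompleteSpace F] in
theorem mol_eq (φ : ContDiffBump (0 : E n)) (g : E n → F) :
    mol φ g = (φ.normed volume ⋆[ContinuousLinearMap.lsmul ℝ ℝ, volume] g) := rfl

omit [CompleteSpace F] in
theorem norm_mol_le (φ : ContDiffBump (0 : E n)) (g : E n → F) (B : ℝ) (hg : ∀ y, ‖g y‖ ≤ B)
    (x : E n) : ‖mol φ g x‖ ≤ B := by
  have h1 : ∫ t, φ.normed volume t * B = B := by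
    rw [integral_mul_const, φ.integral_normed, one_mul]
  refine (norm_integral_le_of_norm_le (φ.integrable_normed.mul_const B) ?_).trans_eq h1
  refine Eventually.of_forall fun t => ?_
  rw [norm_smul, Real.norm_of_nonneg (φ.nonneg_normed t)]
  exact mul_le_mul_of_nonneg_left (hg _) (φ.nonneg_normed t)

theorem integrable_mol (φ : ContDiffBump (0 : E n)) {g : E n → ℝ} (hg : Continuous g) (x : E n) :
    Integrable (fun t => φ.normed volume t • g (x - t)) := by
  apply Continuous.integrable_of_hasCompactSupport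
  · exact φ.continuous_normed.smul (hg.comp (continuous_const.sub continuous_id))
  · exact φ.hasCompactSupport_normed.smul_right

theorem mol_le (φ : ContDiffBump (0 : E n)) {g : E n → ℝ} (hg : Continuous g) {c : ℝ}
    (h : ∀ y, g y ≤ c) (x : E n) : mol φ g x ≤ c := by
  have h1 : ∫ t, φ.normed volume t * c = c := by
    rw [integral_mul_const, φ.integral_normed, one_mul]
  rw [← h1]
  refine integral_mono (integrable_mol φ hg x) (φ.integrable_normed.mul_const c) fun t => ?_
  exact mul_le_mul_of_nonneg_left (h _) (φ.nonneg_normed t)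

theorem norm_fderiv_le' {g : E n → ℝ} {C : ℝ≥0} (hg : LipschitzWith C g) (x : E n) :
    ‖fderiv ℝ g x‖ ≤ C := norm_fderiv_le_of_lipschitz ℝ hg

theorem hasFDerivAt_mol (φ : ContDiffBump (0 : E n)) {g : E n → ℝ} {C : ℝ≥0}
    (hg : LipschitzWith C g) (x : E n) : HasFDerivAt (mol φ g) (mol φ (fderiv ℝ g) x) x := by
  have hdiff : ∀ᵐ t : E n, DifferentiableAt ℝ g (x - t) :=
    (Measure.measurePreserving_sub_left volume x).quasiMeasurePreserving.ae hg.ae_differentiableAt
  refine (hasFDerivAt_integral_of_dominated_loc_of_lip (μ := volume) (s := univ)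
    (F := fun x t => φ.normed volume t • g (x - t))
    (F' := fun t => φ.normed volume t • fderiv ℝ g (x - t))
    (bound := fun t => φ.normed volume t * C) univ_mem ?_ ?_ ?_ ?_ ?_ ?_).2
  · exact Eventually.of_forall fun y => (integrable_mol φ hg.continuous y).aestronglyMeasurable
  · exact integrable_mol φ hg.continuous x
  · apply Measurable.aestronglyMeasurable
    exact φ.continuous_normed.measurable.smul
      ((measurable_fderiv ℝ g).comp (measurable_const.sub measurable_id))
  · refine Eventually.of_forall fun t => ?_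
    rw [lipschitzOnWith_univ]
    apply LipschitzWith.of_dist_le_mul
    intro y z
    rw [dist_smul₀, Real.norm_of_nonneg (φ.nonneg_normed t)]
    have h1 := hg.dist_le_mul (y - t) (z - t)
    rw [dist_sub_right] at h1
    have h2 : ((Real.nnabs (φ.normed volume t * C) : ℝ≥0) : ℝ) = φ.normed volume t * C := by
      have h3 : 0 ≤ φ.normed volume t * C := mul_nonneg (φ.nonneg_normed t) C.2
      rw [Real.coe_nnabs, abs_of_nonneg h3]
    rw [h2, mul_assoc]
    exact mul_le_mul_of_nonneg_left h1 (φ.nonneg_normed t)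
  · exact φ.integrable_normed.mul_const _
  · filter_upwards [hdiff] with t ht
    have h1 : HasFDerivAt (fun y => g (y - t)) (fderiv ℝ g (x - t)) x := by
      have h2 := HasFDerivAt.comp (g := g) x ht.hasFDerivAt ((hasFDerivAt_id x).sub_const t)
      rw [ContinuousLinearMap.comp_id] at h2
      exact h2
    exact h1.fun_const_smul _

theorem contDiff_mol (φ : ContDiffBump (0 : E n)) {g : E n → ℝ} (hg : Continuous g) :
    ContDiff ℝ 1 (mol φ g) := by
  rw [mol_eq]
  exact φ.hasCompactSupport_normed.contDiff_convolution_left _ φ.contDiff_normed hg.locallyIntegrable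

theorem dvg_smul {ζ : E n → ℝ} {V : E n → E n} {x : E n} (hζ : DifferentiableAt ℝ ζ x)
    (hV : DifferentiableAt ℝ V x) :
    dvg (fun y => ζ y • V y) x = fderiv ℝ ζ x (V x) + ζ x * dvg V x := by
  have h1 : V x = ∑ i, (V x) i • EuclideanSpace.single i (1 : ℝ) := by
    ext j
    simp [Pi.single_apply]
  have h2 : fderiv ℝ ζ x (V x) = ∑ i, (V x) i * fderiv ℝ ζ x (EuclideanSpace.single i (1 : ℝ)) := by
    conv_lhs => rw [h1]
    rw [map_sum]
    simp only [map_smul, smul_eq_mul]
  rw [dvg, dvg, h2, Finset.mul_sum, ← Finset.sum_add_distrib]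
  refine Finset.sum_congr rfl fun i _ => ?_
  rw [fderiv_fun_smul hζ hV]
  simp
  ring

end moll

open Filter Topology in
/-- the Gauss-Green inequality for Lipschitz weights -/
theorem gg_lip (n : ℕ) (Ω : Set (E n)) (hΩ : IsOpen Ω) (hb : Bornology.IsBounded Ω) (ν : E n → E n)
    (σ : Measure (E n)) (hσ : σ (frontier Ω) < ⊤) (hν : ∀ x ∈ frontier Ω, ‖ν x‖ = 1)
    (hmeas : AEStronglyMeasurable ν (σ.restrict (frontier Ω)))
    (hGG : ∀ X : E n → E n, ContDiff ℝ 1 X →
      ∫ x in Ω, dvg X x = ∫ x in frontier Ω, ⟪X x, ν x⟫_ℝ ∂σ)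
    (V : E n → E n) (hV : ContDiff ℝ 1 V) (ζ : E n → ℝ) (C : ℝ≥0) (hζ : LipschitzWith C ζ)
    (c a : ℝ) (hc : c ≤ 0) (ha : 0 ≤ a) (hζc : ∀ x, ζ x ≤ c)
    (hVν : ∀ x ∈ frontier Ω, a ≤ ⟪V x, ν x⟫_ℝ) :
    ∫ x in Ω, (fderiv ℝ ζ x (V x) + ζ x * dvg V x) ≤ c * a * (σ (frontier Ω)).toReal := by
  have hcomp : IsCompact (closure Ω) := hb.isCompact_closure
  have hcf : IsCompact (frontier Ω) := hcomp.of_isClosed_subset isClosed_frontier frontier_subset_closure
  have hvol : volume Ω < ⊤ := hb.measure_lt_top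
  -- bounds
  have hVd : Differentiable ℝ V := hV.differentiable one_ne_zero
  have hdv : Continuous (dvg V) := by
    unfold dvg
    refine continuous_finsetSum _ fun i _ => ?_
    have h1 : Continuous fun x => fderiv ℝ V x (EuclideanSpace.single i 1) :=
      (hV.continuous_fderiv one_ne_zero).clm_apply continuous_const
    exact (EuclideanSpace.proj (𝕜 := ℝ) i).continuous.comp h1
  obtain ⟨MV, hMV⟩ := hcomp.exists_bound_of_continuousOn hV.continuous.continuousOn
  obtain ⟨MD, hMD⟩ := hcomp.exists_bound_of_continuousOn hdv.continuousOn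
  -- mollifiers
  let φ : ℕ → ContDiffBump (0 : E n) := fun k =>
    ⟨1 / (2 * ((k : ℝ) + 1)), 1 / ((k : ℝ) + 1), by positivity, by
      apply one_div_lt_one_div_of_lt (by positivity)
      nlinarith [(Nat.cast_nonneg k : (0 : ℝ) ≤ k)]⟩
  have hφ0 : Tendsto (fun k => (φ k).rOut) atTop (𝓝 0) := tendsto_one_div_add_atTop_nhds_zero_nat
  have hφ1 : ∀ k, (φ k).rOut ≤ 2 * (φ k).rIn := by
    intro k
    change 1 / ((k : ℝ) + 1) ≤ 2 * (1 / (2 * ((k : ℝ) + 1)))
    apply le_of_eq
    field_simp
  have hφ2 : ∀ k, (φ k).rOut ≤ 1 := by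
    intro k
    change 1 / ((k : ℝ) + 1) ≤ 1
    rw [div_le_one (by positivity)]
    linarith [(Nat.cast_nonneg k : (0 : ℝ) ≤ k)]
  -- the mollified functions
  have hdist : ∀ k x, |mol (φ k) ζ x - ζ x| ≤ C := by
    intro k x
    rw [← Real.dist_eq, mol_eq]
    apply (φ k).dist_normed_convolution_le hζ.continuous.aestronglyMeasurable
    intro y hy
    refine (hζ.dist_le_mul y x).trans ?_
    have h1 : dist y x ≤ 1 := (mem_ball.mp hy).le.trans (hφ2 k)
    exact (mul_le_mul_of_nonneg_left h1 C.2).trans_eq (mul_one _)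
  obtain ⟨Mζ, hMζ⟩ := hcomp.exists_bound_of_continuousOn hζ.continuous.continuousOn
  have hfd : ∀ k x, fderiv ℝ (mol (φ k) ζ) x = mol (φ k) (fderiv ℝ ζ) x :=
    fun k x => (hasFDerivAt_mol (φ k) hζ x).fderiv
  have hfdn : ∀ k x, ‖fderiv ℝ (mol (φ k) ζ) x‖ ≤ C := by
    intro k x
    rw [hfd]
    exact norm_mol_le _ _ _ (norm_fderiv_le' hζ) _
  -- the inequality for the mollified functions
  have hk : ∀ k, ∫ x in Ω, (fderiv ℝ (mol (φ k) ζ) x (V x) + mol (φ k) ζ x * dvg V x)
      ≤ c * a * (σ (frontier Ω)).toReal := by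
    intro k
    have hsm : ContDiff ℝ 1 (mol (φ k) ζ) := contDiff_mol (φ k) hζ.continuous
    have h1 := hGG (fun y => mol (φ k) ζ y • V y) (hsm.smul hV)
    have h2 : ∀ x, dvg (fun y => mol (φ k) ζ y • V y) x
        = fderiv ℝ (mol (φ k) ζ) x (V x) + mol (φ k) ζ x * dvg V x :=
      fun x => dvg_smul (hsm.differentiable one_ne_zero x) (hVd x)
    simp only [h2] at h1
    rw [h1]
    have h3 : ∫ _ in frontier Ω, c * a ∂σ = c * a * (σ (frontier Ω)).toReal := by
      rw [setIntegral_const, smul_eq_mul, mul_comm]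
      rfl
    rw [← h3]
    obtain ⟨MX, hMX⟩ := hcf.exists_bound_of_continuousOn
      (hsm.continuous.smul hV.continuous).continuousOn
    have : IsFiniteMeasure (σ.restrict (frontier Ω)) := ⟨by rwa [Measure.restrict_apply_univ]⟩
    refine setIntegral_mono_on ?_ (integrable_const _) isClosed_frontier.measurableSet fun x hx => ?_
    · refine Integrable.mono' (integrable_const MX) ?_ ?_
      · exact ((hsm.continuous.smul hV.continuous).aestronglyMeasurable).inner hmeas
      · refine (ae_restrict_iff' isClosed_frontier.measurableSet).mpr (Eventually.of_forall fun x hx => ?_)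
        refine (norm_inner_le_norm _ _).trans ?_
        rw [hν x hx, mul_one]
        exact hMX x hx
    · rw [real_inner_smul_left]
      have h4 : mol (φ k) ζ x ≤ c := mol_le (φ k) hζ.continuous hζc x
      have h5 := hVν x hx
      nlinarith
  -- the limit
  refine le_of_tendsto' (tendsto_integral_of_dominated_convergence
    (μ := volume.restrict Ω) (F := fun k x => fderiv ℝ (mol (φ k) ζ) x (V x) + mol (φ k) ζ x * dvg V x)
    (fun _ => (C : ℝ) * |MV| + (|Mζ| + C) * |MD|) ?_ ?_ ?_ ?_) hk
  · intro k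
    have hsm : ContDiff ℝ 1 (mol (φ k) ζ) := contDiff_mol (φ k) hζ.continuous
    exact (((hsm.continuous_fderiv one_ne_zero).clm_apply hV.continuous).add
      (hsm.continuous.mul hdv)).aestronglyMeasurable
  · have : IsFiniteMeasure (volume.restrict Ω) := ⟨by rwa [Measure.restrict_apply_univ]⟩
    exact integrable_const _
  · intro k
    refine (ae_restrict_iff' hΩ.measurableSet).mpr (Eventually.of_forall fun x hx => ?_)
    have hx' : x ∈ closure Ω := subset_closure hx
    have e1 : ‖fderiv ℝ (mol (φ k) ζ) x (V x)‖ ≤ C * |MV| :=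
      (ContinuousLinearMap.le_opNorm _ _).trans (mul_le_mul (hfdn k x)
        ((hMV x hx').trans (le_abs_self _)) (norm_nonneg _) C.2)
    have e2 : ‖mol (φ k) ζ x‖ ≤ |Mζ| + C := by
      have h1 := hdist k x
      have h2 := hMζ x hx'
      rw [Real.norm_eq_abs] at h2 ⊢
      have h3 := abs_sub_abs_le_abs_sub (mol (φ k) ζ x) (ζ x)
      have h4 := le_abs_self Mζ
      linarith
    refine (norm_add_le _ _).trans (add_le_add e1 ?_)
    rw [norm_mul]
    exact mul_le_mul e2 ((hMD x hx').trans (le_abs_self _)) (norm_nonneg _) (by positivity)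
  · have h1 : ∀ᵐ x : E n, Tendsto (fun k => mol (φ k) (fderiv ℝ ζ) x) atTop (𝓝 (fderiv ℝ ζ x)) := by
      have hli : LocallyIntegrable (fderiv ℝ ζ) (volume : Measure (E n)) := by
        intro x
        refine ⟨ball x 1, ball_mem_nhds x one_pos, ?_⟩
        refine Measure.integrableOn_of_bounded measure_ball_lt_top.ne
          (measurable_fderiv ℝ ζ).aestronglyMeasurable (M := C) ?_
        exact Eventually.of_forall fun y => norm_fderiv_le' hζ y
      exact ContDiffBump.ae_convolution_tendsto_right_of_locallyIntegrable hφ0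
        (Eventually.of_forall hφ1) hli
    refine ae_restrict_of_ae ?_
    filter_upwards [h1] with x hx
    simp only [hfd]
    refine Tendsto.add ?_ ?_
    · exact ((ContinuousLinearMap.apply ℝ ℝ (V x)).continuous.tendsto _).comp hx
    · refine Tendsto.mul_const _ ?_
      exact ContDiffBump.convolution_tendsto_right_of_continuous hφ0 hζ.continuous x

end Pool.Agent.Helper876.JG
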