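import Mathlib

set_option autoImplicit false

open MeasureTheory Set Metric
open scoped ENNReal NNReal InnerProductSpace

namespace Pool.Agent.Helper876.JV

/-- Euclidean space -/
abbrev E (n : ℕ) := EuclideanSpace ℝ (Fin n)

/-- divergence -/
noncomputable def dvg {n : ℕ} (X : E n → E n) (x : E n) : ℝ :=
  ∑ i : Fin n, (fderiv ℝ X x (EuclideanSpace.single i 1)) i

section moll

open Filter Topology
open scoped Convolution

variable {n : ℕ} {F : Type} [NormedAddCommGroup F] [NormedSpace ℝ F] [CompleteSpace F]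

/-- the mollification -/
noncomputable def gg_vec_mol (φ : ContDiffBump (0 : E n)) (g : E n → F) (x : E n) : F :=
  ∫ t, φ.normed volume t • g (x - t)

omit [CompleteSpace F] in
theorem gg_vec_mol_eq (φ : ContDiffBump (0 : E n)) (g : E n → F) :
    gg_vec_mol φ g = (φ.normed volume ⋆[ContinuousLinearMap.lsmul ℝ ℝ, volume] g) := rfl

omit [CompleteSpace F] in
theorem gg_vec_norm_mol_le (φ : ContDiffBump (0 : E n)) (g : E n → F) (B : ℝ) (hg : ∀ y, ‖g y‖ ≤ B)
    (x : E n) : ‖gg_vec_mol φ g x‖ ≤ B := by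
  have h1 : ∫ t, φ.normed volume t * B = B := by
    rw [integral_mul_const, φ.integral_normed, one_mul]
  refine (norm_integral_le_of_norm_le (φ.integrable_normed.mul_const B) ?_).trans_eq h1
  refine Eventually.of_forall fun t => ?_
  rw [norm_smul, Real.norm_of_nonneg (φ.nonneg_normed t)]
  exact mul_le_mul_of_nonneg_left (hg _) (φ.nonneg_normed t)

theorem gg_vec_integrable_mol (φ : ContDiffBump (0 : E n)) {g : E n → E n} (hg : Continuous g) (x : E n) :
    Integrable (fun t => φ.normed volume t • g (x - t)) := by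
  apply Continuous.integrable_of_hasCompactSupport
  · exact φ.continuous_normed.smul (hg.comp (continuous_const.sub continuous_id))
  · exact φ.hasCompactSupport_normed.smul_right

theorem gg_vec_norm_fderiv_le {g : E n → E n} {C : ℝ≥0} (hg : LipschitzWith C g) (x : E n) :
    ‖fderiv ℝ g x‖ ≤ C := norm_fderiv_le_of_lipschitz ℝ hg

theorem gg_vec_hasFDerivAt_mol (φ : ContDiffBump (0 : E n)) {g : E n → E n} {C : ℝ≥0}
    (hg : LipschitzWith C g) (x : E n) :
    HasFDerivAt (gg_vec_mol φ g) (gg_vec_mol φ (fderiv ℝ g) x) x := by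
  have hdiff : ∀ᵐ t : E n, DifferentiableAt ℝ g (x - t) :=
    (Measure.measurePreserving_sub_left volume x).quasiMeasurePreserving.ae hg.ae_differentiableAt
  refine (hasFDerivAt_integral_of_dominated_loc_of_lip (μ := volume) (s := univ)
    (F := fun x t => φ.normed volume t • g (x - t))
    (F' := fun t => φ.normed volume t • fderiv ℝ g (x - t))
    (bound := fun t => φ.normed volume t * C) univ_mem ?_ ?_ ?_ ?_ ?_ ?_).2
  · exact Eventually.of_forall fun y => (gg_vec_integrable_mol φ hg.continuous y).aestronglyMeasurable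
  · exact gg_vec_integrable_mol φ hg.continuous x
  · apply Measurable.aestronglyMeasurable
    exact φ.continuous_normed.measurable.smul
      ((measurable_fderiv ℝ g).comp (measurable_const.sub measurable_id))
  · refine Eventually.of_forall fun t => ?_
    rw [lipschitzOnWith_univ]
    apply LipschitzWith.of_dist_le_mul
    intro y z
    rw [dist_smul₀, Real.norm_of_nonneg (φ.nonneg_normed t)]
    have h1 := hg.dist_le_mul (y - t) (z - t)
    rw [dist_sub_right] at h1
    have h2 : ((Real.nnabs (φ.normed volume t * C) : ℝ≥0) : ℝ) = φ.normed volume t * C := by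
      have h3 : 0 ≤ φ.normed volume t * C := mul_nonneg (φ.nonneg_normed t) C.2
      rw [Real.coe_nnabs, abs_of_nonneg h3]
    rw [h2, mul_assoc]
    exact mul_le_mul_of_nonneg_left h1 (φ.nonneg_normed t)
  · exact φ.integrable_normed.mul_const _
  · filter_upwards [hdiff] with t ht
    have h1 : HasFDerivAt (fun y => g (y - t)) (fderiv ℝ g (x - t)) x := by
      have h2 := HasFDerivAt.comp (g := g) x ht.hasFDerivAt ((hasFDerivAt_id x).sub_const t)
      rw [ContinuousLinearMap.comp_id] at h2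
      exact h2
    exact h1.fun_const_smul _

theorem gg_vec_contDiff_mol (φ : ContDiffBump (0 : E n)) {g : E n → E n} (hg : Continuous g) :
    ContDiff ℝ 1 (gg_vec_mol φ g) := by
  rw [gg_vec_mol_eq]
  exact φ.hasCompactSupport_normed.contDiff_convolution_left _ φ.contDiff_normed hg.locallyIntegrable

/-- the trace -/
noncomputable def gg_vec_tr (n : ℕ) (L : E n →L[ℝ] E n) : ℝ :=
  ∑ i : Fin n, (L (EuclideanSpace.single i 1)) i

theorem gg_vec_tr_cont (n : ℕ) : Continuous (gg_vec_tr n) := by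
  unfold gg_vec_tr
  refine continuous_finsetSum _ fun i _ => ?_
  have h1 : Continuous fun L : E n →L[ℝ] E n => L (EuclideanSpace.single i 1) :=
    continuous_id.clm_apply continuous_const
  exact (EuclideanSpace.proj (𝕜 := ℝ) i).continuous.comp h1

theorem gg_vec_tr_le {n : ℕ} (L : E n →L[ℝ] E n) {C : ℝ} (h : ‖L‖ ≤ C) : ‖gg_vec_tr n L‖ ≤ n * C := by
  unfold gg_vec_tr
  refine (norm_sum_le _ _).trans ?_
  have : ∀ i ∈ (Finset.univ : Finset (Fin n)), ‖(L (EuclideanSpace.single i 1)) i‖ ≤ C := by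
    intro i _
    refine (PiLp.norm_apply_le _ i).trans ((L.le_opNorm _).trans ?_)
    rw [EuclideanSpace.norm_single, norm_one, mul_one]
    exact h
  refine (Finset.sum_le_sum this).trans_eq ?_
  simp

theorem gg_vec_dvg (X : E n → E n) (x : E n) : dvg X x = gg_vec_tr n (fderiv ℝ X x) := rfl

end moll

/- PLAIN PROOF (job of helper876, MP_1b807b_an).
A scalar version is proved in the result of job 2873 (Pool/Agent/Helper876_Robin/JGG.lean once landed; see the jobs table: SELECT result FROM jobs WHERE id=2873),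
copy its mollification lemmas. Let Q_ε = φ_ε ⋆ Q (ContDiffBump). Q_ε is C^1, ‖Q_ε‖ <= b, fderiv Q_ε = φ_ε ⋆ (fderiv Q) (do it for the coordinates Q_i, which are Lipschitz),
bounded by C, and converges a.e. to fderiv Q (Lebesgue points: ContDiffBump.ae_convolution_tendsto_right_of_locallyIntegrable). hGG for X = Q_ε:
∫_Ω dvg Q_ε = ∫_∂Ω <Q_ε, ν> <= b σ(∂Ω). Let ε -> 0 by dominated convergence. -/
theorem gg_vec (n : ℕ) (Ω : Set (E n)) (hΩ : IsOpen Ω) (hb : Bornology.IsBounded Ω) (ν : E n → E n)
    (σ : Measure (E n)) (hσ : σ (frontier Ω) < ⊤) (hν : ∀ x ∈ frontier Ω, ‖ν x‖ = 1)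
    (hmeas : AEStronglyMeasurable ν (σ.restrict (frontier Ω)))
    (hGG : ∀ X : E n → E n, ContDiff ℝ 1 X →
      ∫ x in Ω, dvg X x = ∫ x in frontier Ω, ⟪X x, ν x⟫_ℝ ∂σ)
    (Q : E n → E n) (C : ℝ≥0) (hQ : LipschitzWith C Q) (b : ℝ) (hQb : ∀ x, ‖Q x‖ ≤ b) :
    ∫ x in Ω, dvg Q x ≤ b * (σ (frontier Ω)).toReal := by
  have hvol : volume Ω < ⊤ := hb.measure_lt_top
  -- mollifiers
  let φ : ℕ → ContDiffBump (0 : E n) := fun k =>
    ⟨1 / (2 * ((k : ℝ) + 1)), 1 / ((k : ℝ) + 1), by positivity, by
      apply one_div_lt_one_div_of_lt (by positivity)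
      nlinarith [(Nat.cast_nonneg k : (0 : ℝ) ≤ k)]⟩
  have hφ0 : Filter.Tendsto (fun k => (φ k).rOut) Filter.atTop (nhds 0) :=
    tendsto_one_div_add_atTop_nhds_zero_nat
  have hφ1 : ∀ k, (φ k).rOut ≤ 2 * (φ k).rIn := by
    intro k
    change 1 / ((k : ℝ) + 1) ≤ 2 * (1 / (2 * ((k : ℝ) + 1)))
    apply le_of_eq
    field_simp
  have hfd : ∀ k x, fderiv ℝ (gg_vec_mol (φ k) Q) x = gg_vec_mol (φ k) (fderiv ℝ Q) x :=
    fun k x => (gg_vec_hasFDerivAt_mol (φ k) hQ x).fderiv
  have hfdn : ∀ k x, ‖fderiv ℝ (gg_vec_mol (φ k) Q) x‖ ≤ C := by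
    intro k x
    rw [hfd]
    exact gg_vec_norm_mol_le _ _ _ (gg_vec_norm_fderiv_le hQ) _
  -- the inequality for the mollified fields
  have hk : ∀ k, ∫ x in Ω, dvg (gg_vec_mol (φ k) Q) x ≤ b * (σ (frontier Ω)).toReal := by
    intro k
    have hsm : ContDiff ℝ 1 (gg_vec_mol (φ k) Q) := gg_vec_contDiff_mol (φ k) hQ.continuous
    rw [hGG _ hsm]
    refine (le_abs_self _).trans ?_
    rw [← Real.norm_eq_abs]
    refine norm_setIntegral_le_of_norm_le_const hσ fun x hx => ?_
    refine (norm_inner_le_norm _ _).trans ?_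
    rw [hν x hx, mul_one]
    exact gg_vec_norm_mol_le _ _ _ hQb _
  -- the limit
  refine le_of_tendsto' (tendsto_integral_of_dominated_convergence
    (μ := volume.restrict Ω) (F := fun k x => dvg (gg_vec_mol (φ k) Q) x)
    (fun _ => (n : ℝ) * C) ?_ ?_ ?_ ?_) hk
  · intro k
    have hsm : ContDiff ℝ 1 (gg_vec_mol (φ k) Q) := gg_vec_contDiff_mol (φ k) hQ.continuous
    exact ((gg_vec_tr_cont n).comp (hsm.continuous_fderiv one_ne_zero)).aestronglyMeasurable
  · have : IsFiniteMeasure (volume.restrict Ω) := ⟨by rwa [Measure.restrict_apply_univ]⟩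
    exact integrable_const _
  · intro k
    exact Filter.Eventually.of_forall fun x => gg_vec_tr_le _ (hfdn k x)
  · have h1 : ∀ᵐ x : E n, Filter.Tendsto (fun k => gg_vec_mol (φ k) (fderiv ℝ Q) x) Filter.atTop
        (nhds (fderiv ℝ Q x)) := by
      have hli : LocallyIntegrable (fderiv ℝ Q) (volume : Measure (E n)) := by
        intro x
        refine ⟨ball x 1, ball_mem_nhds x one_pos, ?_⟩
        refine Measure.integrableOn_of_bounded measure_ball_lt_top.ne
          (measurable_fderiv ℝ Q).aestronglyMeasurable (M := C) ?_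
        exact Filter.Eventually.of_forall fun y => gg_vec_norm_fderiv_le hQ y
      exact ContDiffBump.ae_convolution_tendsto_right_of_locallyIntegrable hφ0
        (Filter.Eventually.of_forall hφ1) hli
    refine ae_restrict_of_ae ?_
    filter_upwards [h1] with x hx
    simp only [gg_vec_dvg, hfd]
    exact ((gg_vec_tr_cont n).tendsto _).comp hx

end Pool.Agent.Helper876.JV

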