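import Pool.Agent.Helper876_Robin.LDefs
import Pool.Agent.Helper876_Robin.JContact

set_option autoImplicit false

open MeasureTheory Set Metric Filter Topology
open scoped ENNReal NNReal InnerProductSpace

namespace Pool.Agent.Helper876.LCont

open Pool.Agent.Helper876.Rob

/-- first and second order conditions at a maximiser, with the differential inequality at that
point only -/
theorem at_max_pt {n : ℕ} {Ω U : Set (E n)} (hΩ : IsOpen Ω) (hU : IsOpen U)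
    (hΩU : closure Ω ⊆ U) {w : E n → ℝ} (hw : ContDiffOn ℝ 2 w U) {κ : ℝ} {p x0 : E n}
    (hpde : gradient w x0 = p → dvg (gradient w) x0 + ‖gradient w x0‖ ^ 2 ≤ κ) (hx0 : x0 ∈ Ω)
    (hmax : ∀ x ∈ closure Ω, ⟪p, x⟫_ℝ - w x ≤ ⟪p, x0⟫_ℝ - w x0) :
    gradient w x0 = p ∧ ∀ u, ⟪fderiv ℝ (gradient w) x0 u, u⟫_ℝ ≤ κ * ‖u‖ ^ 2 := by
  obtain ⟨h1, h2⟩ := JC.w_facts hU hw (hΩU (subset_closure hx0))
  have h3 : ∀ᶠ y in 𝓝 x0, HasFDerivAt (fun y => w y - ⟪p, y⟫_ℝ) (JC.J n (gradient w y - p)) y := by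
    filter_upwards [h1] with y hy
    rw [map_sub]
    exact hy.sub (JC.J n p).hasFDerivAt
  have h4 : HasFDerivAt (fun y => gradient w y - p) (fderiv ℝ (gradient w) x0) x0 :=
    h2.sub_const p
  have hmin : IsLocalMin (fun y => w y - ⟪p, y⟫_ℝ) x0 := by
    filter_upwards [hΩ.mem_nhds hx0] with y hy
    have := hmax y (subset_closure hy)
    linarith
  have h5 : gradient w x0 = p := by
    have h6 := hmin.hasFDerivAt_eq_zero h3.self_of_nhds
    have h7 := DFunLike.congr_fun h6 (gradient w x0 - p)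
    rw [JC.J_apply] at h7
    have h8 : ⟪gradient w x0 - p, gradient w x0 - p⟫_ℝ = 0 := h7
    exact sub_eq_zero.1 (inner_self_eq_zero.1 h8)
  refine ⟨h5, fun u => ?_⟩
  have h6 := JC.hess_nonneg h3 h4 hmin
  have h7 := JC.psd_le_trace (JC.grad_symm h3 h4) h6 u
  refine h7.trans (mul_le_mul_of_nonneg_right ?_ (sq_nonneg _))
  have h8 := hpde h5
  unfold dvg at h8
  have h10 := sq_nonneg ‖gradient w x0‖
  linarith

theorem contact_free (n : ℕ) (v : E n → ℝ) (hv : ContDiff ℝ 2 v) (κ : ℝ≥0) (A A' L0 : ℝ)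
    (hκ : 0 < κ) (hA' : 0 < A') (hA : A' < A) (hL0 : 0 < L0)
    (hloc : ∀ p : E n, ‖p‖ < A → ∀ x ∉ ball (0 : E n) L0, ∃ y ∈ ball (0 : E n) L0,
      v y - ⟪p, y⟫_ℝ < v x - ⟪p, x⟫_ℝ)
    (hpde : ∀ x ∈ ball (0 : E n) L0, ‖gradient v x‖ < A →
      dvg (gradient v) x + ‖gradient v x‖ ^ 2 ≤ κ) :
    ∃ (q : E n → E n) (G : Set (E n)), LipschitzWith κ q ∧ (∀ x, ‖q x‖ ≤ A') ∧
      G ⊆ ball 0 L0 ∧ MeasurableSet G ∧ ball 0 A' ⊆ q '' G ∧
      (∀ x ∈ G, gradient v x = q x) ∧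
      (∀ x, DifferentiableAt ℝ q x → (∀ u w : E n, ⟪fderiv ℝ q x u, w⟫_ℝ = ⟪u, fderiv ℝ q x w⟫_ℝ) ∧
        ∀ u : E n, 0 ≤ ⟪fderiv ℝ q x u, u⟫_ℝ) ∧
      (∀ x ∈ G, DifferentiableAt ℝ q x →
        (∑ i : Fin n, (fderiv ℝ q x (EuclideanSpace.single i 1)) i) ≤ dvg (gradient v) x) := by
  obtain ⟨Ω, hΩd⟩ : ∃ Ω : Set (E n), Ω = ball (0 : E n) L0 := ⟨_, rfl⟩
  obtain ⟨U, hUd⟩ : ∃ U : Set (E n), U = univ := ⟨_, rfl⟩
  have hΩ : IsOpen Ω := by rw [hΩd]; exact isOpen_ball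
  have hne : Ω.Nonempty := by rw [hΩd]; exact ⟨0, mem_ball_self hL0⟩
  have hb : Bornology.IsBounded Ω := by rw [hΩd]; exact isBounded_ball
  have hU : IsOpen U := by rw [hUd]; exact isOpen_univ
  have hΩU : closure Ω ⊆ U := by rw [hUd]; exact subset_univ _
  have hw : ContDiffOn ℝ 2 v U := hv.contDiffOn
  rw [← hΩd]
  rw [← hΩd] at hloc hpde
  have hκ0 : (0 : ℝ) < κ := hκ
  have hK : IsCompact (closure Ω) := hb.isCompact_closure
  have hwc : ContinuousOn v (closure Ω) := hw.continuousOn.mono hΩU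
  obtain ⟨X, hX⟩ := JC.exists_max hK hne.closure hwc
  obtain ⟨R, hR⟩ := hK.isBounded.subset_closedBall (0 : E n)
  have hfc := JC.f_cont hR hX
  set f : E n → ℝ := fun p => ⟪p, X p⟫_ℝ - v (X p) with hf
  have hXi : ∀ p, ‖p‖ < A → X p ∈ Ω ∧ gradient v (X p) = p ∧
      ∀ u, ⟪fderiv ℝ (gradient v) (X p) u, u⟫_ℝ ≤ κ * ‖u‖ ^ 2 := by
    intro p hp
    have h1 : X p ∈ Ω := by
      by_contra hno
      obtain ⟨y, hy, hlt⟩ := hloc p hp (X p) hno
      have h2 := (hX p).2 y (subset_closure hy)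
      linarith
    exact ⟨h1, at_max_pt hΩ hU hΩU hw (fun hgr => hpde _ h1 (by rw [hgr]; exact hp)) h1 (hX p).2⟩
  have hconv : ∀ p1 p2 : E n, ‖p1‖ ≤ A' → ‖p2‖ ≤ A' → ∀ t ∈ Icc (0 : ℝ) 1,
      f (p1 + t • (p2 - p1)) ≤ (1 - t) * f p1 + t * f p2 -
        t * (1 - t) * ‖p2 - p1‖ ^ 2 / (2 * κ) := by
    intro p1 p2 h1 h2 t ht
    refine JC.conv_lim (A := A) hκ0 ?_ (h1.trans_lt hA) (h2.trans_lt hA) ht
    intro κ' hκ' p1 p2 h1 h2 t ht
    exact JC.conv_aux hΩ hU hΩU hw hκ0 hκ' hX hfc hXi h1 h2 ht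
  obtain ⟨q, hq1, hq⟩ := JC.exists_q hfc hκ0 hA' hconv
  set W : E n → ℝ := fun y => ⟪q y, y⟫_ℝ - f (q y) with hW
  have hWg : ∀ x, HasFDerivAt W (JC.J n (q x)) x := fun x => JC.W_grad hκ0 hq1 hq x
  have hWc : Continuous W := continuous_iff_continuousAt.2 fun x => (hWg x).continuousAt
  have hWle : ∀ x ∈ closure Ω, W x ≤ v x := by
    intro x hx
    have h1 := (hX (q x)).2 x hx
    have h2 : W x = ⟪q x, x⟫_ℝ - (⟪q x, X (q x)⟫_ℝ - v (X (q x))) := rfl
    linarith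
  have hWsup : ∀ x y, W x + ⟪q x, y - x⟫_ℝ ≤ W y := by
    intro x y
    have h1 := hq y (q x) (hq1 x)
    have h2 : 0 ≤ ‖q x - q y‖ ^ 2 / (2 * (κ : ℝ)) := by positivity
    rw [inner_sub_right]
    simp only [hW]
    linarith
  set G : Set (E n) := {x | x ∈ Ω ∧ W x = v x} with hG
  have hmin : ∀ x ∈ G, IsLocalMin (fun y => v y - W y) x := by
    intro x hx
    filter_upwards [hΩ.mem_nhds hx.1] with y hy
    have h1 := hWle y (subset_closure hy)
    have h2 := hx.2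
    linarith
  have hgrad : ∀ x ∈ G, (∀ᶠ y in 𝓝 x, HasFDerivAt (fun y => v y - W y)
      (JC.J n (gradient v y - q y)) y) := by
    intro x hx
    obtain ⟨h1, -⟩ := JC.w_facts hU hw (hΩU (subset_closure hx.1))
    filter_upwards [h1] with y hy
    rw [map_sub]
    exact hy.sub (hWg y)
  have hGq : ∀ x ∈ G, gradient v x = q x := by
    intro x hx
    have h6 := (hmin x hx).hasFDerivAt_eq_zero (hgrad x hx).self_of_nhds
    have h7 := DFunLike.congr_fun h6 (gradient v x - q x)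
    rw [JC.J_apply] at h7
    have h8 : ⟪gradient v x - q x, gradient v x - q x⟫_ℝ = 0 := h7
    exact sub_eq_zero.1 (inner_self_eq_zero.1 h8)
  refine ⟨q, G, ?_, hq1, fun x hx => hx.1, ?_, ?_, hGq, ?_, ?_⟩
  · refine LipschitzWith.of_dist_le_mul fun x y => ?_
    rw [dist_eq_norm, dist_eq_norm]
    exact JC.q_lip hκ0 hq1 hq x y
  · have hc : ContinuousOn (fun x => W x - v x) Ω :=
      hWc.continuousOn.sub (hwc.mono subset_closure)
    have ho : IsOpen (Ω ∩ (fun x => W x - v x) ⁻¹' {0}ᶜ) :=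
      hc.isOpen_inter_preimage hΩ isOpen_compl_singleton
    have h1 : G = Ω \ (Ω ∩ (fun x => W x - v x) ⁻¹' {0}ᶜ) := by
      ext x
      simp only [hG, mem_setOf_eq, mem_diff, mem_inter_iff, mem_preimage, mem_compl_iff,
        mem_singleton_iff, not_and, not_not, sub_eq_zero]
      constructor
      · rintro ⟨h1, h2⟩
        exact ⟨h1, fun _ => h2⟩
      · rintro ⟨h1, h2⟩
        exact ⟨h1, h2 h1⟩
    rw [h1]
    exact hΩ.measurableSet.diff ho.measurableSet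
  · intro p hp
    have hp' : ‖p‖ < A' := by simpa using hp
    obtain ⟨h1, h2, h3⟩ := hXi p (hp'.trans hA)
    have h4 := hq (X p) p hp'.le
    have h5 : f p = ⟪p, X p⟫_ℝ - v (X p) := rfl
    have h6 := hWle (X p) (subset_closure h1)
    have h7 : W (X p) = ⟪q (X p), X p⟫_ℝ - f (q (X p)) := rfl
    have h8 : 0 ≤ ‖p - q (X p)‖ ^ 2 / (2 * (κ : ℝ)) := by positivity
    have h9 : W (X p) = v (X p) := by linarith
    have h10 : ‖p - q (X p)‖ ^ 2 / (2 * (κ : ℝ)) = 0 := by linarith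
    have h11 : ‖p - q (X p)‖ ^ 2 = 0 := by
      rcases div_eq_zero_iff.1 h10 with h | h
      · exact h
      · linarith
    have h12 : p - q (X p) = 0 := by
      rw [← norm_eq_zero]
      exact pow_eq_zero_iff (two_ne_zero) |>.1 h11
    exact ⟨X p, ⟨h1, h9⟩, (sub_eq_zero.1 h12).symm⟩
  · intro x hx
    refine ⟨fun u v => JC.grad_symm (Filter.Eventually.of_forall hWg) hx.hasFDerivAt u v, ?_⟩
    intro u
    refine JC.hess_nonneg (φ := fun y => W y - ⟪q x, y⟫_ℝ) (g := fun y => q y - q x) ?_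
      (hx.hasFDerivAt.sub_const (q x)) ?_ u
    · refine Filter.Eventually.of_forall fun y => ?_
      show HasFDerivAt _ (JC.J n (q y - q x)) y
      rw [map_sub]
      exact (hWg y).sub (JC.J n (q x)).hasFDerivAt
    · refine Filter.Eventually.of_forall fun y => ?_
      have := hWsup x y
      rw [inner_sub_right] at this
      show W x - ⟪q x, x⟫_ℝ ≤ W y - ⟪q x, y⟫_ℝ
      linarith
  · intro x hx hd
    obtain ⟨-, h2⟩ := JC.w_facts hU hw (hΩU (subset_closure hx.1))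
    have h3 : HasFDerivAt (fun y => gradient v y - q y)
        (fderiv ℝ (gradient v) x - fderiv ℝ q x) x := h2.sub hd.hasFDerivAt
    have h4 := JC.hess_nonneg (hgrad x hx) h3 (hmin x hx)
    unfold dvg
    refine Finset.sum_le_sum fun i _ => ?_
    have h7 := h4 (EuclideanSpace.single i 1)
    rw [ContinuousLinearMap.sub_apply, inner_sub_left, EuclideanSpace.inner_single_right,
      EuclideanSpace.inner_single_right] at h7
    simp at h7
    exact h7

end Pool.Agent.Helper876.LCont
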