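import Pool.Agent.Helper876_Robin.Defs

/-!
# Weighted problems on `ℝ^n`: definitions

The boundary of a bounded open set is smoothed by averaging over translations: `ρ = 1_Ω * g` and
`S = σ * g` for a Gaussian density `g`.
-/

set_option autoImplicit false

open MeasureTheory Set Metric Filter Topology
open scoped ENNReal NNReal InnerProductSpace

namespace Pool.Agent.Helper876.Rob

/-- Bounded test functions of class `C¹` with bounded derivative. -/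
def Tst {n : ℕ} (φ : E n → ℝ) : Prop :=
  ContDiff ℝ 1 φ ∧ ∃ C : ℝ, ∀ x, |φ x| ≤ C ∧ ‖fderiv ℝ φ x‖ ≤ C

/-- The weighted energy distance of `(u, G)` and `(v, F)`. -/
noncomputable def nd {n : ℕ} (ρ S : E n → ℝ) (u : E n → ℝ) (G : E n → E n) (v : E n → ℝ)
    (F : E n → E n) : ℝ≥0∞ :=
  ∫⁻ x, ENNReal.ofReal ((ρ x + S x) * (u x - v x) ^ 2 + ρ x * ‖G x - F x‖ ^ 2)

/-- `u` belongs to the weighted Sobolev space, with weak gradient `G`: the pair `(u, G)` is a limit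
of test functions and their gradients. -/
def InH {n : ℕ} (ρ S : E n → ℝ) (u : E n → ℝ) (G : E n → E n) : Prop :=
  Measurable u ∧ Measurable G ∧ ∃ φ : ℕ → E n → ℝ, (∀ k, Tst (φ k)) ∧
    Tendsto (fun k => nd ρ S (φ k) (gradient (φ k)) u G) atTop (𝓝 0)

/-- A smooth weight `ρ` and a density `S` which dominates its gradient. -/
structure IsWgt {n : ℕ} (ρ S : E n → ℝ) : Prop where
  contDiff : ContDiff ℝ 2 ρ
  pos : ∀ x, 0 < ρ x
  cont : Continuous S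
  grad_le : ∀ x, ‖fderiv ℝ ρ x‖ ≤ S x
  mom : ∀ c : ℝ, Integrable (fun x => Real.exp (c * ‖x‖) * (ρ x + S x))
  far : ∀ C : ℝ, ∃ L : ℝ, ∀ x, L ≤ ‖x‖ → C * ρ x ≤ S x

/-- The weighted Robin form with parameters `A` and `κ` is nonnegative. -/
def Coer {n : ℕ} (ρ S : E n → ℝ) (A κ : ℝ) : Prop :=
  ∀ φ : E n → ℝ, Tst φ → A * ∫ x, S x * φ x ^ 2 ≤
    (∫ x, ρ x * ‖fderiv ℝ φ x‖ ^ 2) + κ * ∫ x, ρ x * φ x ^ 2

/-- `w`, with weak gradient `W`, is a weak supersolution of the logarithmic equation. -/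
structure IsWeak {n : ℕ} (ρ S : E n → ℝ) (κ A : ℝ) (w : E n → ℝ) (W : E n → E n) : Prop where
  loc : LocallyIntegrable w volume
  locW : LocallyIntegrable W volume
  int : Integrable (fun x => ρ x * ‖W x‖ ^ 2)
  weak : ∀ φ : E n → ℝ, ContDiff ℝ 1 φ → HasCompactSupport φ → ∀ v : E n,
    ∫ x, w x * fderiv ℝ φ x v = - ∫ x, φ x * ⟪W x, v⟫_ℝ
  ineq : ∀ φ : E n → ℝ, ContDiff ℝ 1 φ → HasCompactSupport φ → (∀ x, 0 ≤ φ x) →
    (∫ x, ρ x * ‖W x‖ ^ 2 * φ x) + A * (∫ x, S x * φ x) ≤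
      (∫ x, ρ x * fderiv ℝ φ x (W x)) + κ * ∫ x, ρ x * φ x
  total : ∫ x, ρ x * ‖W x‖ ^ 2 ≤ κ * (∫ x, ρ x) - A * ∫ x, S x

/-- The Gaussian density of standard deviation `ε`. -/
noncomputable def gk (n : ℕ) (ε : ℝ) (z : E n) : ℝ :=
  ((Real.sqrt (2 * Real.pi) * ε)⁻¹) ^ n * Real.exp (-‖z‖ ^ 2 / (2 * ε ^ 2))

/-- The convolution of a measure with the Gaussian density. -/
noncomputable def cv (n : ℕ) (ε : ℝ) (μ : Measure (E n)) (x : E n) : ℝ :=
  ∫ y, gk n ε (x - y) ∂μ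

/-- The one-sided Gauss-Green inequality in every fixed direction, for the measure `σ`. -/
def HalfGG {n : ℕ} (Ω : Set (E n)) (σ : Measure (E n)) : Prop :=
  ∀ φ : E n → ℝ, ContDiff ℝ 1 φ → ∀ e : E n, ‖e‖ = 1 →
    |∫ x in Ω, fderiv ℝ φ x e| ≤ ∫ x, |φ x| ∂σ

end Pool.Agent.Helper876.Rob
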