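import Pool.Agent.Helper876_Robin.LDefs

set_option autoImplicit false

open MeasureTheory Set Metric Filter Topology
open scoped ENNReal NNReal InnerProductSpace

namespace Pool.Agent.Helper876.LIbp

open Pool.Agent.Helper876.Rob

variable {n : ℕ}

theorem coord_lip {Q : E n → E n} {C : ℝ≥0} (hQ : LipschitzWith C Q) (i : Fin n) :
    LipschitzWith C (fun x => Q x i) := by
  refine LipschitzWith.of_dist_le_mul fun x y => ?_
  have h1 : ‖(Q x - Q y) i‖ ≤ ‖Q x - Q y‖ := PiLp.norm_apply_le _ i
  have h2 := hQ.dist_le_mul x y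
  rw [dist_eq_norm] at h2
  rw [dist_eq_norm]
  exact h1.trans h2

theorem comp_bound {Q : E n → E n} {C : ℝ≥0} (hQ : LipschitzWith C Q) (x : E n) (i : Fin n) :
    ‖(fderiv ℝ Q x (EuclideanSpace.single i 1)) i‖ ≤ C := by
  refine (PiLp.norm_apply_le _ i).trans ?_
  refine ((fderiv ℝ Q x).le_opNorm _).trans ?_
  have h1 : ‖(EuclideanSpace.single i (1 : ℝ) : E n)‖ = 1 := by simp
  rw [h1, mul_one]
  exact norm_fderiv_le_of_lipschitz ℝ hQ

theorem comp_meas (Q : E n → E n) (i : Fin n) :
    Measurable (fun x => (fderiv ℝ Q x (EuclideanSpace.single i 1)) i) := by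
  have h1 : Measurable (fun x => fderiv ℝ Q x (EuclideanSpace.single i (1 : ℝ))) :=
    measurable_fderiv_apply_const ℝ Q _
  have h2 : Continuous (fun v : E n => v i) := by fun_prop
  exact h2.measurable.comp h1

theorem dvg_bound {Q : E n → E n} {C : ℝ≥0} (hQ : LipschitzWith C Q) (x : E n) :
    ‖dvg Q x‖ ≤ n * C := by
  unfold dvg
  refine (norm_sum_le _ _).trans ?_
  refine (Finset.sum_le_sum fun i _ => comp_bound hQ x i).trans ?_
  simp

theorem dvg_meas (Q : E n → E n) : Measurable (dvg Q) := by
  unfold dvg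
  exact Finset.measurable_sum _ fun i _ => comp_meas Q i

/-- integration by parts against a function with compact support -/
theorem ibp_cpt (g : E n → ℝ) (hg : ContDiff ℝ 1 g) (hc : HasCompactSupport g) (Q : E n → E n)
    (C : ℝ≥0) (hQ : LipschitzWith C Q) :
    ∫ x, g x * dvg Q x = - ∫ x, fderiv ℝ g x (Q x) := by
  obtain ⟨D, hD⟩ := hg.lipschitzWith_of_hasCompactSupport hc one_ne_zero
  have hgi : Integrable g := hg.continuous.integrable_of_hasCompactSupport hc
  have hQd : ∀ᵐ x : E n, DifferentiableAt ℝ Q x := hQ.ae_differentiableAt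
  have e1 : ∫ x, g x * dvg Q x =
      ∑ i : Fin n, ∫ x, g x * (fderiv ℝ Q x (EuclideanSpace.single i 1)) i := by
    rw [← integral_finsetSum]
    · refine integral_congr_ae (Eventually.of_forall fun x => ?_)
      change g x * dvg Q x = _
      rw [dvg, Finset.mul_sum]
    · intro i _
      exact hgi.mul_bdd (c := (C : ℝ)) (comp_meas Q i).aestronglyMeasurable
        (Eventually.of_forall fun x => comp_bound hQ x i)
  have hfd : Continuous (fderiv ℝ g) := hg.continuous_fderiv one_ne_zero
  have hfc : HasCompactSupport (fderiv ℝ g) := hc.fderiv ℝ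
  have e2 : ∀ i : Fin n, ∫ x, g x * (fderiv ℝ Q x (EuclideanSpace.single i 1)) i =
      - ∫ x, fderiv ℝ g x (EuclideanSpace.single i 1) * Q x i := by
    intro i
    have h1 : ∫ x, g x * (fderiv ℝ Q x (EuclideanSpace.single i 1)) i =
        ∫ x, lineDeriv ℝ (fun x => Q x i) x (EuclideanSpace.single i 1) * g x := by
      refine integral_congr_ae ?_
      filter_upwards [hQd] with x hx
      have h2 : HasFDerivAt (fun x => Q x i)
          ((EuclideanSpace.proj i : E n →L[ℝ] ℝ).comp (fderiv ℝ Q x)) x :=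
        (EuclideanSpace.proj i : E n →L[ℝ] ℝ).hasFDerivAt.comp x hx.hasFDerivAt
      have h3 := (h2.hasLineDerivAt (EuclideanSpace.single i 1)).lineDeriv
      rw [h3, mul_comm]
      rfl
    rw [h1, (coord_lip hQ i).integral_lineDeriv_mul_eq hD hc, ← integral_neg]
    refine integral_congr_ae (Eventually.of_forall fun x => ?_)
    change lineDeriv ℝ g x (-EuclideanSpace.single i 1) * Q x i =
      -(fderiv ℝ g x (EuclideanSpace.single i 1) * Q x i)
    have h4 : DifferentiableAt ℝ g x := (hg.differentiable one_ne_zero) x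
    rw [h4.lineDeriv_eq_fderiv, map_neg, neg_mul]
  rw [e1, Finset.sum_congr rfl (fun i _ => e2 i), Finset.sum_neg_distrib, ← integral_finsetSum]
  · congr 1
    refine integral_congr_ae (Eventually.of_forall fun x => ?_)
    change ∑ i : Fin n, fderiv ℝ g x (EuclideanSpace.single i 1) * Q x i = fderiv ℝ g x (Q x)
    have h5 : Q x = ∑ i : Fin n, (Q x i) • (EuclideanSpace.single i (1 : ℝ) : E n) := by
      ext j
      simp [Finset.sum_apply, Pi.single_apply]
    conv_rhs => rw [h5, map_sum]
    refine Finset.sum_congr rfl fun i _ => ?_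
    rw [map_smul, smul_eq_mul, mul_comm]
  · intro i _
    have h6 : Continuous (fun x => fderiv ℝ g x (EuclideanSpace.single i 1) * Q x i) := by
      have h7 : Continuous (fun x => Q x i) := (coord_lip hQ i).continuous
      exact (hfd.clm_apply continuous_const).mul h7
    refine h6.integrable_of_hasCompactSupport ?_
    refine hfc.mono' ?_
    intro x hx
    rw [Function.mem_support] at hx
    apply subset_tsupport
    rw [Function.mem_support]
    intro h0
    apply hx
    rw [h0]
    simp

theorem ibp_lip {n : ℕ} {ρ S : E n → ℝ} (h : IsWgt ρ S) (Q : E n → E n) (C : ℝ≥0)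
    (hQ : LipschitzWith C Q) (b : ℝ) (hQb : ∀ x, ‖Q x‖ ≤ b) :
    Integrable (fun x => ρ x * dvg Q x) ∧ ∫ x, ρ x * dvg Q x ≤ b * ∫ x, S x := by
  have hb : 0 ≤ b := (norm_nonneg _).trans (hQb 0)
  have hS0 : ∀ x, 0 ≤ S x := fun x => (norm_nonneg _).trans (h.grad_le x)
  have hρc : Continuous ρ := h.contDiff.continuous
  have hsum : Integrable (fun x => ρ x + S x) := by
    have := h.mom 0
    simpa using this
  have hρi : Integrable ρ := by
    refine hsum.mono' hρc.aestronglyMeasurable (Eventually.of_forall fun x => ?_)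
    rw [Real.norm_of_nonneg (h.pos x).le]
    linarith [hS0 x]
  have hSi : Integrable S := by
    refine hsum.mono' h.cont.aestronglyMeasurable (Eventually.of_forall fun x => ?_)
    rw [Real.norm_of_nonneg (hS0 x)]
    linarith [h.pos x]
  have hint : Integrable (fun x => ρ x * dvg Q x) :=
    hρi.mul_bdd (c := (n * C : ℝ)) (dvg_meas Q).aestronglyMeasurable
      (Eventually.of_forall fun x => dvg_bound hQ x)
  refine ⟨hint, ?_⟩
  -- the cutoff function
  let χ : ContDiffBump (0 : E n) := ⟨1, 2, one_pos, one_lt_two⟩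
  have hχc : ContDiff ℝ 1 χ := χ.contDiff
  have hχs : HasCompactSupport χ := χ.hasCompactSupport
  obtain ⟨D, hD⟩ : ∃ D : ℝ, ∀ x, ‖fderiv ℝ χ x‖ ≤ D :=
    (hχs.fderiv ℝ).exists_bound_of_continuous (hχc.continuous_fderiv one_ne_zero)
  have hstep : ∀ t : ℝ, 0 < t → ∫ x, (χ (t • x) * ρ x) * dvg Q x ≤
      b * (∫ x, S x) + b * (t * D * ∫ x, ρ x) := by
    intro t ht
    have hg : ContDiff ℝ 1 (fun x => χ (t • x) * ρ x) := by
      refine ContDiff.mul ?_ (h.contDiff.of_le (by norm_num))
      exact hχc.comp (contDiff_const_smul t)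
    have hgc : HasCompactSupport (fun x => χ (t • x) * ρ x) := by
      have h1 : HasCompactSupport (fun x : E n => χ (t • x)) :=
        hχs.comp_homeomorph (Homeomorph.smulOfNeZero t ht.ne')
      exact h1.mul_right
    rw [ibp_cpt _ hg hgc Q C hQ]
    have hgd : ∀ x, ‖fderiv ℝ (fun x => χ (t • x) * ρ x) x‖ ≤ S x + t * D * ρ x := by
      intro x
      have h1 : HasFDerivAt (fun x : E n => χ (t • x)) (t • fderiv ℝ χ (t • x)) x := by
        have h2 : HasFDerivAt χ (fderiv ℝ χ (t • x)) (t • x) :=
          ((hχc.differentiable one_ne_zero) _).hasFDerivAt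
        have h3 : HasFDerivAt (fun x : E n => t • x) (t • ContinuousLinearMap.id ℝ (E n)) x :=
          (hasFDerivAt_id x).const_smul t
        have h4 := h2.comp x h3
        rw [ContinuousLinearMap.comp_smul, ContinuousLinearMap.comp_id] at h4
        exact h4
      have h2 : HasFDerivAt ρ (fderiv ℝ ρ x) x :=
        ((h.contDiff.differentiable (by norm_num)) x).hasFDerivAt
      have h6 : HasFDerivAt (fun x => χ (t • x) * ρ x)
          (χ (t • x) • fderiv ℝ ρ x + ρ x • (t • fderiv ℝ χ (t • x))) x := h1.mul h2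
      rw [h6.fderiv]
      refine (norm_add_le _ _).trans ?_
      rw [norm_smul, norm_smul, norm_smul, Real.norm_of_nonneg χ.nonneg,
        Real.norm_of_nonneg (h.pos x).le, Real.norm_of_nonneg ht.le]
      have h3 : χ (t • x) * ‖fderiv ℝ ρ x‖ ≤ 1 * S x :=
        mul_le_mul χ.le_one (h.grad_le x) (norm_nonneg _) zero_le_one
      have h4 : ρ x * (t * ‖fderiv ℝ χ (t • x)‖) ≤ ρ x * (t * D) :=
        mul_le_mul_of_nonneg_left (mul_le_mul_of_nonneg_left (hD _) ht.le) (h.pos x).le
      linarith
    have h5 : -∫ x, fderiv ℝ (fun x => χ (t • x) * ρ x) x (Q x) ≤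
        ∫ x, (S x + t * D * ρ x) * b := by
      rw [← integral_neg]
      have hfd : Continuous (fun x => fderiv ℝ (fun x => χ (t • x) * ρ x) x (Q x)) :=
        (hg.continuous_fderiv one_ne_zero).clm_apply hQ.continuous
      have hfc : HasCompactSupport (fun x => fderiv ℝ (fun x => χ (t • x) * ρ x) x (Q x)) := by
        refine (hgc.fderiv ℝ).mono' ?_
        intro x hx
        rw [Function.mem_support] at hx
        apply subset_tsupport
        rw [Function.mem_support]
        intro h0
        apply hx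
        rw [h0]
        simp
      refine integral_mono (hfd.integrable_of_hasCompactSupport hfc).neg
        ((hSi.add (hρi.const_mul _)).mul_const b) fun x => ?_
      refine (neg_le_abs _).trans ?_
      rw [← Real.norm_eq_abs]
      refine ((fderiv ℝ (fun x => χ (t • x) * ρ x) x).le_opNorm (Q x)).trans ?_
      refine mul_le_mul (hgd x) (hQb x) (norm_nonneg _) ?_
      exact (norm_nonneg _).trans (hgd x)
    refine h5.trans (le_of_eq ?_)
    rw [integral_mul_const, integral_add hSi (hρi.const_mul _), integral_const_mul]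
    ring
  -- the limit
  have hlim : Tendsto (fun k : ℕ => ∫ x, (χ ((1 / ((k : ℝ) + 1)) • x) * ρ x) * dvg Q x) atTop
      (𝓝 (∫ x, ρ x * dvg Q x)) := by
    refine tendsto_integral_of_dominated_convergence (fun x => ‖ρ x * dvg Q x‖) ?_ hint.norm ?_ ?_
    · intro k
      refine (((χ.continuous.comp (continuous_const_smul _)).mul hρc).aestronglyMeasurable.mul
        (dvg_meas Q).aestronglyMeasurable)
    · intro k
      refine Eventually.of_forall fun x => ?_
      rw [norm_mul, norm_mul, norm_mul, Real.norm_of_nonneg χ.nonneg]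
      refine mul_le_mul_of_nonneg_right ?_ (norm_nonneg _)
      exact mul_le_of_le_one_left (norm_nonneg _) χ.le_one
    · refine Eventually.of_forall fun x => ?_
      have h1 : Tendsto (fun k : ℕ => (1 / ((k : ℝ) + 1)) • x) atTop (𝓝 ((0 : ℝ) • x)) :=
        (tendsto_one_div_add_atTop_nhds_zero_nat (𝕜 := ℝ)).smul_const x
      have h2 : Tendsto (fun k : ℕ => χ ((1 / ((k : ℝ) + 1)) • x)) atTop (𝓝 (χ ((0 : ℝ) • x))) :=
        (χ.continuous.tendsto _).comp h1
      have h3 : χ ((0 : ℝ) • x) = 1 := by
        rw [zero_smul]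
        exact χ.one_of_mem_closedBall (mem_closedBall_self (by norm_num [χ]))
      rw [h3] at h2
      have h4 := (h2.mul_const (ρ x)).mul_const (dvg Q x)
      rw [one_mul] at h4
      exact h4
  have hlim2 : Tendsto (fun k : ℕ => b * (∫ x, S x) + b * ((1 / ((k : ℝ) + 1)) * D * ∫ x, ρ x))
      atTop (𝓝 (b * ∫ x, S x)) := by
    have h1 := (((tendsto_one_div_add_atTop_nhds_zero_nat (𝕜 := ℝ)).mul_const D).mul_const
      (∫ x, ρ x)).const_mul b
    have h2 := h1.const_add (b * ∫ x, S x)
    simpa using h2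
  exact le_of_tendsto_of_tendsto' hlim hlim2 fun k => hstep _ (by positivity)

end Pool.Agent.Helper876.LIbp
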