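import Pool.Agent.Helper876_Robin.Main2
import Pool.Agent.Helper876_Robin.Cert3
import Pool.Agent.Helper876_Robin.LDefs
import Pool.Agent.Helper876_Robin.LCont
import Pool.Agent.Helper876_Robin.LIbp

/-!
# The calibrated contact set estimate with a weight
-/

set_option autoImplicit false

open MeasureTheory Set Metric Filter Topology
open scoped ENNReal NNReal InnerProductSpace

namespace Pool.Agent.Helper876.Rob

set_option maxHeartbeats 4000000 in
/-- **The calibrated contact set estimate with a weight.** -/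
theorem calib3 {n : ℕ} (hn : 2 ≤ n) {κ : ℝ} (hκ : 0 < κ) {p : ℝ → ℝ} (hp : Prof n κ p) {R : ℝ}
    (hR : 0 < R) : ∃ CJ : ℝ, 0 ≤ CJ ∧ ∀ (ρ S : E n → ℝ), IsWgt ρ S → (∀ x, ρ x ≤ 1) →
      ∀ (v e : E n → ℝ) (L0 A : ℝ) (T : Set (E n)), ContDiff ℝ 2 v → Continuous e →
      (∀ x, ‖gradient v x‖ ^ 2 ≤ e x) → 0 < L0 → p R < A →
      (∀ p : E n, ‖p‖ < A → ∀ x ∉ ball (0 : E n) L0, ∃ y ∈ ball (0 : E n) L0,
        v y - ⟪p, y⟫_ℝ < v x - ⟪p, x⟫_ℝ) →
      (∀ x ∈ ball (0 : E n) L0, ‖gradient v x‖ < A →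
        dvg (gradient v) x + ‖gradient v x‖ ^ 2 ≤ κ) →
      MeasurableSet T → Bornology.IsBounded T →
      (∀ x ∈ ball (0 : E n) L0, ‖gradient v x‖ ≤ p R → 0 ≤ dvg (gradient v) x → x ∈ T) →
      volume.real (ball (0 : E n) 1) *
        (n * (R ^ n / n - R ^ n / ((n : ℝ) - 1) * (1 - TT n κ p R / κ))) ≤
      (∫ x in ball (0 : E n) L0, ρ x * e x) / κ +
        (p R / κ - R / ((n : ℝ) - 1) * (1 - TT n κ p R / κ)) * (∫ x, S x) +
        CJ * ∫ x in T, (1 - ρ x) := by
  have hn0 : (2:ℝ) ≤ n := by exact_mod_cast hn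
  have hA' : 0 < p R := hp.pos R hR
  obtain ⟨Y, Y', j, M, hM, hY0, hYb, hYR, hYl, hYd, hj0, hjm, hjz, hjp, hji, hjv⟩ :=
    cert3 hn hκ hp hR
  have hYR0 : 0 ≤ Y (p R) := (hYb (p R) ⟨hA'.le, le_rfl⟩).1
  set CJ : ℝ := (p R) ^ 2 / κ + Y (p R) * κ + p R * M * κ with hCJ
  have hCJ0 : 0 ≤ CJ := by positivity
  refine ⟨CJ, hCJ0, ?_⟩
  intro ρ S hW hρ1 v e L0 A T hv he hve hL0 hRA hloc hpde hTm hTb hT
  set V := gradient v with hV
  have hVc : ContDiff ℝ 1 V := contDiff_gradient (k := 1) (by exact_mod_cast hv)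
  have hVd : Differentiable ℝ V := hVc.differentiable one_ne_zero
  have hρ0 : ∀ x, 0 ≤ ρ x := fun x => (hW.pos x).le
  have hρc : Continuous ρ := hW.contDiff.continuous
  -- the contact set
  obtain ⟨q, G, hql, hqA, hGΩ, hGm, hGq, hGV, hqs, hqt⟩ :=
    LCont.contact_free n v hv ⟨κ, hκ.le⟩ A (p R) L0 (by exact_mod_cast hκ) hA' hRA hL0 hloc
      (fun x hx h => hpde x hx h)
  have hqmem : ∀ x, ‖q x‖ ∈ Icc 0 (p R) := fun x => ⟨norm_nonneg _, hqA x⟩
  -- the vector field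
  set Q : E n → E n := fun x => Y ‖q x‖ • q x with hQ
  have hQl : LipschitzWith ⟨(M * p R + Y (p R)) * κ, by positivity⟩ Q := by
    apply LipschitzWith.of_dist_le_mul
    intro x y
    have h1 : ‖q x - q y‖ ≤ κ * dist x y := by
      have h3 := hql.dist_le_mul x y
      rw [dist_eq_norm] at h3
      exact h3
    have h2 : |‖q x‖ - ‖q y‖| ≤ ‖q x - q y‖ := abs_norm_sub_norm_le _ _
    have h3 := hYl _ (hqmem x) _ (hqmem y)
    have h4 : Q x - Q y = (Y ‖q x‖ - Y ‖q y‖) • q x + Y ‖q y‖ • (q x - q y) := by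
      rw [hQ]
      simp only
      module
    rw [dist_eq_norm, h4]
    have h5 : |Y ‖q y‖| ≤ Y (p R) := by
      rw [abs_of_nonneg (hYb _ (hqmem y)).1]
      exact (hYb _ (hqmem y)).2
    calc ‖(Y ‖q x‖ - Y ‖q y‖) • q x + Y ‖q y‖ • (q x - q y)‖
        ≤ |Y ‖q x‖ - Y ‖q y‖| * ‖q x‖ + |Y ‖q y‖| * ‖q x - q y‖ := by
          refine (norm_add_le _ _).trans ?_
          rw [norm_smul, norm_smul, Real.norm_eq_abs, Real.norm_eq_abs]
      _ ≤ (M * ‖q x - q y‖) * p R + Y (p R) * ‖q x - q y‖ := by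
          apply add_le_add
          · apply mul_le_mul _ (hqA x) (norm_nonneg _) (by positivity)
            exact h3.trans (mul_le_mul_of_nonneg_left h2 hM)
          · exact mul_le_mul_of_nonneg_right h5 (norm_nonneg _)
      _ = (M * p R + Y (p R)) * ‖q x - q y‖ := by ring
      _ ≤ (M * p R + Y (p R)) * (κ * dist x y) := mul_le_mul_of_nonneg_left h1 (by positivity)
      _ = (M * p R + Y (p R)) * κ * dist x y := by ring
  have hQb : ∀ x, ‖Q x‖ ≤ Y (p R) * p R := by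
    intro x
    rw [hQ]
    simp only
    rw [norm_smul, Real.norm_eq_abs, abs_of_nonneg (hYb _ (hqmem x)).1]
    exact mul_le_mul (hYb _ (hqmem x)).2 (hqA x) (norm_nonneg _) hYR0
  obtain ⟨hQi, hQle⟩ := LIbp.ibp_lip hW Q _ hQl _ hQb
  -- the divergence of the field
  have hQ0 : ∀ x, DifferentiableAt ℝ q x → 0 ≤ dvg Q x := by
    intro x hqx
    by_cases h0 : q x = 0
    · rw [hQ, dvg_zero hql h0 hM hqA hY0 hYl]
    · obtain ⟨hs, hpd⟩ := hqs x hqx
      have hs0 : 0 < ‖q x‖ := norm_pos_iff.2 h0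
      obtain ⟨hd, hd0, -⟩ := hYd ‖q x‖ ⟨hs0, hqA x⟩
      set e : E n := ‖q x‖⁻¹ • q x with he
      have hen : ‖e‖ = 1 := by
        rw [he, norm_smul, norm_inv, Real.norm_of_nonneg hs0.le]
        exact inv_mul_cancel₀ hs0.ne'
      have hqe : q x = ‖q x‖ • e := by
        rw [he, smul_smul, mul_inv_cancel₀ hs0.ne', one_smul]
      rw [hQ, dvg_radial hqx h0 hd hqe]
      obtain ⟨hd1, ht0, hdet⟩ := JD.det_le n hn (fderiv ℝ q x) hs hpd e hen
      have h1 := hpd e
      have h2 := (hYb _ (hqmem x)).1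
      apply add_nonneg
      · apply mul_nonneg h2
        linarith
      · exact mul_nonneg (mul_nonneg hs0.le hd0) h1
  set Φ : E n → ℝ := fun x => ‖q x‖ ^ 2 / κ + dvg Q x with hΦ
  have hΦ0 : ∀ x, DifferentiableAt ℝ q x → 0 ≤ Φ x := by
    intro x hqx
    have h2 := hQ0 x hqx
    have h4 : 0 ≤ ‖q x‖ ^ 2 / κ := by positivity
    rw [hΦ]
    simp only
    linarith
  -- the contact set
  have hΦG : ∀ x ∈ G, DifferentiableAt ℝ q x → j ‖q x‖ * |(fderiv ℝ q x).det| ≤ Φ x ∧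
      j ‖q x‖ * |(fderiv ℝ q x).det| ≤ CJ := by
    intro x hx hqx
    by_cases hmem : ‖q x‖ ∈ Ioo 0 (p R)
    · obtain ⟨hs, hpd⟩ := hqs x hqx
      have htr0 := hqt x hx hqx
      have hVq : V x = q x := hGV x hx
      have hs0 : 0 < ‖q x‖ := hmem.1
      have h0 : q x ≠ 0 := norm_pos_iff.1 hs0
      obtain ⟨hd, hd0, hdM⟩ := hYd ‖q x‖ ⟨hs0, hqA x⟩
      have hpx := hpde x (hGΩ hx) (by rw [hVq]; exact (hqA x).trans_lt hRA)
      rw [hVq] at hpx
      set e : E n := ‖q x‖⁻¹ • q x with he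
      have hen : ‖e‖ = 1 := by
        rw [he, norm_smul, norm_inv, Real.norm_of_nonneg hs0.le]
        exact inv_mul_cancel₀ hs0.ne'
      have hqe : q x = ‖q x‖ • e := by
        rw [he, smul_smul, mul_inv_cancel₀ hs0.ne', one_smul]
      have hdiv := dvg_radial hqx h0 hd hqe
      obtain ⟨hd1, ht0, hdet⟩ := JD.det_le n hn (fderiv ℝ q x) hs hpd e hen
      set s := ‖q x‖ with hs'
      set H := fderiv ℝ q x with hH
      set h := ⟪H e, e⟫_ℝ with hh
      set t := (∑ i : Fin n, (H (EuclideanSpace.single i 1)) i) with ht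
      have hh0 : 0 ≤ h := hpd e
      have hnm : (0:ℝ) < (n : ℝ) - 1 := by linarith
      have hx0 : 0 ≤ (t - h) / ((n : ℝ) - 1) := div_nonneg ht0 hnm.le
      have hx1 : h + ((n : ℝ) - 1) * ((t - h) / ((n : ℝ) - 1)) = t := by
        rw [mul_div_cancel₀ _ hnm.ne']
        ring
      have htr' : t ≤ κ - s ^ 2 := by linarith
      have h1 := hjp s hmem h ((t - h) / ((n : ℝ) - 1)) hh0 hx0 (by rw [hx1]; exact htr')
      rw [hx1] at h1
      rw [abs_of_nonneg hd1]
      have h6 : Φ x = 1 - (κ - s ^ 2) / κ + Y s * t + s * Y' s * h := by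
        rw [hΦ]
        simp only
        rw [hQ, hdiv]
        field_simp
        ring
      have h7 := (mul_le_mul_of_nonneg_left hdet (hj0 s)).trans h1
      refine ⟨by rw [h6]; exact h7, h7.trans ?_⟩
      have b1 : s ≤ p R := hqA x
      have b2 : t ≤ κ := by nlinarith [sq_nonneg s]
      have b3 : h ≤ κ := by linarith
      have b4 := hYb s (hqmem x)
      have b5 : 1 - (κ - s ^ 2) / κ = s ^ 2 / κ := by
        field_simp
        ring
      have b6 : s ^ 2 / κ ≤ (p R) ^ 2 / κ :=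
        div_le_div_of_nonneg_right (pow_le_pow_left₀ hs0.le b1 2) hκ.le
      have b7 : Y s * t ≤ Y (p R) * κ := by
        calc Y s * t ≤ Y s * κ := mul_le_mul_of_nonneg_left b2 b4.1
          _ ≤ Y (p R) * κ := mul_le_mul_of_nonneg_right b4.2 hκ.le
      have b8 : s * Y' s * h ≤ p R * M * κ := by
        apply mul_le_mul _ b3 hh0 (by positivity)
        exact mul_le_mul b1 hdM hd0 hA'.le
      rw [b5, hCJ]
      linarith
    · rw [hjz _ hmem, zero_mul]
      exact ⟨hΦ0 x hqx, hCJ0⟩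
  -- the contact set is inside `T`, up to a null set
  have hGT : ∀ x ∈ G, DifferentiableAt ℝ q x → x ∈ T := by
    intro x hx hqx
    have hVq : V x = q x := hGV x hx
    refine hT x (hGΩ hx) (by rw [hVq]; exact hqA x) ?_
    refine le_trans ?_ (hqt x hx hqx)
    obtain ⟨hs, hpd⟩ := hqs x hqx
    refine Finset.sum_nonneg fun i _ => ?_
    have := hpd (EuclideanSpace.single i 1)
    rw [EuclideanSpace.inner_single_right] at this
    simpa using this
  have hdiff := hql.ae_differentiableAt (μ := (volume : Measure (E n)))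
  -- the area formula
  have harea := JA.area n q _ hql G hGm (fun y => ENNReal.ofReal (j ‖y‖)) (by
    exact (hjm.comp measurable_norm).ennreal_ofReal)
  have hmass := ball_mass (n := n) hj0 hjz hji hn
  have h1 : ∫⁻ y in ball (0 : E n) (p R), ENNReal.ofReal (j ‖y‖) ≤
      ∫⁻ y in q '' G, ENNReal.ofReal (j ‖y‖) := lintegral_mono_set hGq
  have h2 : ∫⁻ x in G, ENNReal.ofReal (j ‖q x‖) * ENNReal.ofReal |(fderiv ℝ q x).det| ≤
      (∫⁻ x in G, ENNReal.ofReal (ρ x * Φ x)) + ∫⁻ x in G, ENNReal.ofReal (CJ * (1 - ρ x)) := by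
    have hm2 : Measurable fun x => ENNReal.ofReal (CJ * (1 - ρ x)) := by
      have := hρc.measurable
      fun_prop
    rw [← lintegral_add_right _ hm2]
    apply lintegral_mono_ae
    rw [ae_restrict_iff' hGm]
    filter_upwards [hdiff] with x hx hxG
    rw [← ENNReal.ofReal_mul (hj0 _), ← ENNReal.ofReal_add (mul_nonneg (hρ0 x) (hΦ0 x hx))
      (mul_nonneg hCJ0 (by linarith [hρ1 x]))]
    apply ENNReal.ofReal_le_ofReal
    obtain ⟨g1, g2⟩ := hΦG x hxG hx
    have g3 := mul_le_mul_of_nonneg_left g1 (hρ0 x)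
    have g4 := mul_le_mul_of_nonneg_left g2 (show (0:ℝ) ≤ 1 - ρ x by linarith [hρ1 x])
    linarith
  -- first term
  have hball : IsCompact (closedBall (0 : E n) L0) := isCompact_closedBall _ _
  have hei : IntegrableOn (fun x => ρ x * e x) (ball (0 : E n) L0) :=
    ((hρc.mul he).continuousOn.integrableOn_compact hball).mono_set ball_subset_closedBall
  have h3 : ∫⁻ x in G, ENNReal.ofReal (ρ x * Φ x) ≤
      ENNReal.ofReal ((∫ x in ball (0 : E n) L0, ρ x * e x) / κ) +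
        ENNReal.ofReal (∫ x, ρ x * dvg Q x) := by
    have g0 : ∀ᵐ x, 0 ≤ ρ x * dvg Q x := by
      filter_upwards [hdiff] with x hx
      exact mul_nonneg (hρ0 x) (hQ0 x hx)
    have g1 : ENNReal.ofReal (∫ x, ρ x * dvg Q x) = ∫⁻ x, ENNReal.ofReal (ρ x * dvg Q x) :=
      ofReal_integral_eq_lintegral_ofReal hQi g0
    have e0 : ∀ x, 0 ≤ ρ x * e x := fun x => mul_nonneg (hρ0 x) ((sq_nonneg _).trans (hve x))
    have g2 : ENNReal.ofReal ((∫ x in ball (0 : E n) L0, ρ x * e x) / κ) =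
        ∫⁻ x in ball (0 : E n) L0, ENNReal.ofReal (ρ x * e x / κ) := by
      rw [← integral_div]
      exact ofReal_integral_eq_lintegral_ofReal (hei.div_const κ)
        (Eventually.of_forall fun x => div_nonneg (e0 x) hκ.le)
    rw [g1, g2]
    have g3 : ∫⁻ x in G, ENNReal.ofReal (ρ x * dvg Q x) ≤ ∫⁻ x, ENNReal.ofReal (ρ x * dvg Q x) :=
      setLIntegral_le_lintegral _ _
    have g4 : ∫⁻ x in G, ENNReal.ofReal (ρ x * e x / κ) ≤
        ∫⁻ x in ball (0 : E n) L0, ENNReal.ofReal (ρ x * e x / κ) := lintegral_mono_set hGΩ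
    refine le_trans ?_ (add_le_add g4 g3)
    have hm2 : Measurable fun x => ENNReal.ofReal (ρ x * e x / κ) := by
      have := hρc.measurable
      have := he.measurable
      fun_prop
    rw [← lintegral_add_left hm2]
    apply lintegral_mono_ae
    rw [ae_restrict_iff' hGm]
    filter_upwards [hdiff] with x hx hxG
    rw [← ENNReal.ofReal_add (div_nonneg (e0 x) hκ.le) (mul_nonneg (hρ0 x) (hQ0 x hx))]
    apply ENNReal.ofReal_le_ofReal
    have hVq : V x = q x := hGV x hxG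
    have k1 : ‖q x‖ ^ 2 ≤ e x := by rw [← hVq]; exact hve x
    rw [hΦ]
    simp only
    have k2 : ρ x * (‖q x‖ ^ 2 / κ) ≤ ρ x * (e x / κ) :=
      mul_le_mul_of_nonneg_left (div_le_div_of_nonneg_right k1 hκ.le) (hρ0 x)
    calc ρ x * (‖q x‖ ^ 2 / κ + dvg Q x) = ρ x * (‖q x‖ ^ 2 / κ) + ρ x * dvg Q x := by ring
      _ ≤ ρ x * (e x / κ) + ρ x * dvg Q x := by linarith
      _ = ρ x * e x / κ + ρ x * dvg Q x := by ring
  -- second term
  have hTi : IntegrableOn (fun x => CJ * (1 - ρ x)) T := by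
    have : IntegrableOn (fun x => CJ * (1 - ρ x)) (closure T) :=
      (by fun_prop : Continuous fun x => CJ * (1 - ρ x)).continuousOn.integrableOn_compact
        hTb.isCompact_closure
    exact this.mono_set subset_closure
  have h4 : ∫⁻ x in G, ENNReal.ofReal (CJ * (1 - ρ x)) ≤
      ENNReal.ofReal (CJ * ∫ x in T, (1 - ρ x)) := by
    have g1 : ENNReal.ofReal (CJ * ∫ x in T, (1 - ρ x)) =
        ∫⁻ x in T, ENNReal.ofReal (CJ * (1 - ρ x)) := by
      rw [← integral_const_mul]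
      exact ofReal_integral_eq_lintegral_ofReal hTi
        (Eventually.of_forall fun x => mul_nonneg hCJ0 (by linarith [hρ1 x]))
    rw [g1]
    have g2 : ∫⁻ x in G, ENNReal.ofReal (CJ * (1 - ρ x)) ≤
        ∫⁻ x in G ∩ T, ENNReal.ofReal (CJ * (1 - ρ x)) := by
      have k0 : ∀ᵐ x, x ∈ G → x ∈ G ∩ T := by
        filter_upwards [hdiff] with x hx hxG
        exact ⟨hxG, hGT x hxG hx⟩
      exact lintegral_mono' (Measure.restrict_mono_ae k0) le_rfl
    exact g2.trans (lintegral_mono_set inter_subset_right)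
  have h6 := (h1.trans harea).trans (h2.trans (add_le_add h3 h4))
  have i1 : 0 ≤ (∫ x in ball (0 : E n) L0, ρ x * e x) / κ :=
    div_nonneg (setIntegral_nonneg measurableSet_ball fun x _ =>
      mul_nonneg (hρ0 x) ((sq_nonneg _).trans (hve x))) hκ.le
  have i2 : 0 ≤ ∫ x, ρ x * dvg Q x := by
    apply integral_nonneg_of_ae
    filter_upwards [hdiff] with x hx
    exact mul_nonneg (hρ0 x) (hQ0 x hx)
  have i3 : 0 ≤ CJ * ∫ x in T, (1 - ρ x) :=
    mul_nonneg hCJ0 (setIntegral_nonneg hTm fun x _ => by linarith [hρ1 x])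
  rw [hmass, ← ENNReal.ofReal_add i1 i2, ← ENNReal.ofReal_add (add_nonneg i1 i2) i3,
    ENNReal.ofReal_le_ofReal_iff (by positivity), hjv] at h6
  have h7 : ∫ x, ρ x * dvg Q x ≤
      (p R / κ - R / ((n : ℝ) - 1) * (1 - TT n κ p R / κ)) * ∫ x, S x := by
    rw [← hYR]
    exact hQle
  linarith

end Pool.Agent.Helper876.Rob
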