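import Pool.Agent.Helper876_Robin.LDefs

set_option autoImplicit false

open MeasureTheory Set Metric Filter Topology
open scoped ENNReal NNReal InnerProductSpace

namespace Pool.Agent.Helper876.LCoer

open Pool.Agent.Helper876.Rob

variable {n : ℕ}

theorem gk_eq {ε : ℝ} (z : E n) : gk n ε z =
    ((Real.sqrt (2 * Real.pi) * ε)⁻¹) ^ n * Real.exp (-(1 / (2 * ε ^ 2)) * ‖z‖ ^ 2) := by
  unfold gk
  congr 2
  ring

theorem gk_nonneg {ε : ℝ} (hε : 0 < ε) (z : E n) : 0 ≤ gk n ε z := by
  unfold gk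
  positivity

theorem gk_cont (ε : ℝ) : Continuous (gk n ε) := by
  unfold gk
  fun_prop

theorem gk_integrable {ε : ℝ} (hε : 0 < ε) : Integrable (gk n ε) (volume : Measure (E n)) := by
  have hb : 0 < 1 / (2 * ε ^ 2) := by positivity
  have h1 : ∫ v : E n, Real.exp (-(1 / (2 * ε ^ 2)) * ‖v‖ ^ 2) ≠ 0 := by
    rw [GaussianFourier.integral_rexp_neg_mul_sq_norm hb]
    have : 0 < Real.pi / (1 / (2 * ε ^ 2)) := by positivity
    positivity
  have h2 := (Integrable.of_integral_ne_zero h1).const_mul (((Real.sqrt (2 * Real.pi) * ε)⁻¹) ^ n)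
  refine h2.congr ?_
  filter_upwards with z
  rw [gk_eq]

theorem gk_integral {ε : ℝ} (hε : 0 < ε) : ∫ z : E n, gk n ε z = 1 := by
  have hb : 0 < 1 / (2 * ε ^ 2) := by positivity
  simp only [gk_eq]
  rw [integral_const_mul, GaussianFourier.integral_rexp_neg_mul_sq_norm hb,
    finrank_euclideanSpace_fin]
  have h1 : Real.pi / (1 / (2 * ε ^ 2)) = (2 * Real.pi) * ε ^ 2 := by field_simp
  have h2 : Real.sqrt (2 * Real.pi * ε ^ 2) = Real.sqrt (2 * Real.pi) * ε := by
    rw [Real.sqrt_mul (by positivity), Real.sqrt_sq hε.le]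
  have h3 : Real.sqrt (2 * Real.pi) * ε ≠ 0 := by positivity
  rw [h1, Real.rpow_div_two_eq_sqrt _ (by positivity), h2, Real.rpow_natCast, ← mul_pow,
    inv_mul_cancel₀ h3, one_pow]

/-- integrability for the shifted integral -/
theorem int_shift {ε : ℝ} (hε : 0 < ε) (μ : Measure (E n)) [IsFiniteMeasure μ] {f : E n → ℝ}
    (hf : Continuous f) {C : ℝ} (hC : ∀ x, |f x| ≤ C) :
    Integrable (fun p : E n × E n => gk n ε p.2 * f (p.1 + p.2)) (μ.prod volume) := by
  have h1 : Integrable (fun p : E n × E n => C * gk n ε p.2) (μ.prod volume) :=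
    ((gk_integrable hε).comp_snd μ).const_mul C
  refine h1.mono' ?_ ?_
  · apply Continuous.aestronglyMeasurable
    exact ((gk_cont ε).comp continuous_snd).mul (hf.comp (continuous_fst.add continuous_snd))
  · filter_upwards with p
    rw [Real.norm_eq_abs, abs_mul, abs_of_nonneg (gk_nonneg hε _), mul_comm]
    exact mul_le_mul_of_nonneg_right (hC _) (gk_nonneg hε _)

theorem cv_int {ε : ℝ} (hε : 0 < ε) (μ : Measure (E n)) [IsFiniteMeasure μ] {f : E n → ℝ}
    (hf : Continuous f) {C : ℝ} (hC : ∀ x, |f x| ≤ C) :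
    ∫ x, cv n ε μ x * f x = ∫ z, gk n ε z * ∫ y, f (y + z) ∂μ := by
  have h1 := int_shift hε μ hf hC
  have hmp : MeasurePreserving (fun z : E n × E n => (z.1, z.1 + z.2)) (μ.prod volume)
      (μ.prod volume) := measurePreserving_prod_add μ volume
  have hme : MeasurableEmbedding (fun z : E n × E n => (z.1, z.1 + z.2)) :=
    (MeasurableEquiv.shearAddRight (E n)).measurableEmbedding
  have e1 : (fun p : E n × E n => gk n ε p.2 * f (p.1 + p.2)) =
      (fun p : E n × E n => gk n ε (p.2 - p.1) * f p.2) ∘ (fun z : E n × E n => (z.1, z.1 + z.2)) := by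
    funext p
    simp
  have h2 : Integrable (fun p : E n × E n => gk n ε (p.2 - p.1) * f p.2) (μ.prod volume) := by
    rw [← hmp.integrable_comp_emb hme, ← e1]
    exact h1
  have h3 : ∫ p : E n × E n, gk n ε (p.2 - p.1) * f p.2 ∂(μ.prod volume) =
      ∫ p : E n × E n, gk n ε p.2 * f (p.1 + p.2) ∂(μ.prod volume) := by
    rw [e1]
    exact (hmp.integral_comp hme _).symm
  rw [integral_prod_symm _ h2, integral_prod_symm _ h1] at h3
  simp only [integral_mul_const, integral_const_mul] at h3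
  exact h3

theorem int_right {ε : ℝ} (hε : 0 < ε) (μ : Measure (E n)) [IsFiniteMeasure μ] {f : E n → ℝ}
    (hf : Continuous f) {C : ℝ} (hC : ∀ x, |f x| ≤ C) :
    Integrable (fun z => gk n ε z * ∫ y, f (y + z) ∂μ) (volume : Measure (E n)) := by
  have h1 := (int_shift hε μ hf hC).integral_prod_right
  simp only [integral_const_mul] at h1
  exact h1

theorem coer_cv {ε : ℝ} (hε : 0 < ε) (Ω : Set (E n)) (hΩ : IsOpen Ω)
    (hb : Bornology.IsBounded Ω) (σ : Measure (E n)) [IsFiniteMeasure σ] {L : ℝ}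
    (hL : σ (closedBall 0 L)ᶜ = 0) {A κ : ℝ}
    (hco : ∀ u : E n → ℝ, ContDiff ℝ 1 u → A * (∫ x, u x ^ 2 ∂σ) ≤
      (∫ x in Ω, ‖fderiv ℝ u x‖ ^ 2) + κ * ∫ x in Ω, u x ^ 2) :
    Coer (cv n ε (volume.restrict Ω)) (cv n ε σ) A κ := by
  intro φ hφ
  obtain ⟨hφ1, C, hC⟩ := hφ
  have : IsFiniteMeasure (volume.restrict Ω : Measure (E n)) :=
    ⟨by rw [Measure.restrict_apply_univ]; exact hb.measure_lt_top⟩
  have hC0 : 0 ≤ C := le_trans (abs_nonneg _) (hC 0).1
  have c1 : Continuous (fun x => φ x ^ 2) := hφ1.continuous.pow 2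
  have c2 : Continuous (fun x => ‖fderiv ℝ φ x‖ ^ 2) :=
    ((hφ1.continuous_fderiv one_ne_zero).norm).pow 2
  have b1 : ∀ x, |φ x ^ 2| ≤ C ^ 2 := by
    intro x
    rw [abs_pow]
    exact pow_le_pow_left₀ (abs_nonneg _) (hC x).1 2
  have b2 : ∀ x, |‖fderiv ℝ φ x‖ ^ 2| ≤ C ^ 2 := by
    intro x
    rw [abs_pow, abs_norm]
    exact pow_le_pow_left₀ (norm_nonneg _) (hC x).2 2
  rw [cv_int hε σ c1 b1, cv_int hε (volume.restrict Ω) c2 b2, cv_int hε (volume.restrict Ω) c1 b1,
    ← integral_const_mul, ← integral_const_mul,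
    ← integral_add (int_right hε (volume.restrict Ω) c2 b2)
      ((int_right hε (volume.restrict Ω) c1 b1).const_mul κ)]
  refine integral_mono ((int_right hε σ c1 b1).const_mul A)
    ((int_right hε (volume.restrict Ω) c2 b2).add
      ((int_right hε (volume.restrict Ω) c1 b1).const_mul κ)) ?_
  intro z
  have h1 := hco (fun y => φ (y + z)) (hφ1.comp (contDiff_id.add contDiff_const))
  have h2 : ∀ y, fderiv ℝ (fun y => φ (y + z)) y = fderiv ℝ φ (y + z) := by
    intro y
    rw [fderiv_comp_add_right]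
  simp only [h2] at h1
  have h3 := mul_le_mul_of_nonneg_left h1 (gk_nonneg hε z)
  calc A * (gk n ε z * ∫ y, φ (y + z) ^ 2 ∂σ) = gk n ε z * (A * ∫ y, φ (y + z) ^ 2 ∂σ) := by ring
    _ ≤ _ := h3
    _ = _ := by ring

theorem gk_scale {ε : ℝ} (hε : 0 < ε) (w : E n) : gk n ε (ε • w) = (ε⁻¹) ^ n * gk n 1 w := by
  unfold gk
  have h1 : -‖ε • w‖ ^ 2 / (2 * ε ^ 2) = -‖w‖ ^ 2 / (2 * 1 ^ 2) := by
    rw [norm_smul, Real.norm_eq_abs, abs_of_pos hε]
    field_simp
  rw [h1, mul_one, mul_inv, mul_pow]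
  ring

theorem cv_scale {ε : ℝ} (hε : 0 < ε) (Ω : Set (E n)) (hΩ : IsOpen Ω) (x : E n) :
    cv n ε (volume.restrict Ω) x = ∫ w : E n, (indicator Ω (fun _ => (1 : ℝ)) (x - ε • w)) * gk n 1 w := by
  have h1 : cv n ε (volume.restrict Ω) x =
      ∫ y : E n, (indicator Ω (fun _ => (1 : ℝ)) y) * gk n ε (x - y) := by
    unfold cv
    rw [← integral_indicator hΩ.measurableSet]
    congr 1
    funext y
    by_cases hy : y ∈ Ω
    · rw [indicator_of_mem hy, indicator_of_mem hy, one_mul]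
    · rw [indicator_of_notMem hy, indicator_of_notMem hy, zero_mul]
  have h2 : ∫ y : E n, (indicator Ω (fun _ => (1 : ℝ)) y) * gk n ε (x - y) =
      ∫ z : E n, (indicator Ω (fun _ => (1 : ℝ)) (x - z)) * gk n ε z := by
    rw [← integral_sub_left_eq_self
      (fun z : E n => (indicator Ω (fun _ => (1 : ℝ)) (x - z)) * gk n ε z) volume x]
    congr 1
    funext y
    rw [sub_sub_cancel]
  have h3 := Measure.integral_comp_smul (volume : Measure (E n))
    (fun z : E n => (indicator Ω (fun _ => (1 : ℝ)) (x - z)) * gk n ε z) ε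
  rw [finrank_euclideanSpace_fin, abs_of_pos (by positivity), smul_eq_mul] at h3
  have h4 : ∫ z : E n, (indicator Ω (fun _ => (1 : ℝ)) (x - z)) * gk n ε z =
      ε ^ n * ∫ w : E n, (indicator Ω (fun _ => (1 : ℝ)) (x - ε • w)) * gk n ε (ε • w) := by
    rw [h3, ← mul_assoc, mul_inv_cancel₀ (by positivity), one_mul]
  rw [h1, h2, h4, ← integral_const_mul]
  congr 1
  funext w
  rw [gk_scale hε]
  have h5 : ε ^ n * (ε⁻¹) ^ n = 1 := by rw [← mul_pow, mul_inv_cancel₀ hε.ne', one_pow]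
  calc ε ^ n * (indicator Ω (fun _ => (1 : ℝ)) (x - ε • w) * ((ε⁻¹) ^ n * gk n 1 w))
      = (ε ^ n * (ε⁻¹) ^ n) * (indicator Ω (fun _ => (1 : ℝ)) (x - ε • w) * gk n 1 w) := by ring
    _ = _ := by rw [h5, one_mul]

theorem ind_le (Ω : Set (E n)) (y : E n) : |indicator Ω (fun _ => (1 : ℝ)) y| ≤ 1 := by
  by_cases hy : y ∈ Ω
  · rw [indicator_of_mem hy, abs_one]
  · rw [indicator_of_notMem hy, abs_zero]; exact zero_le_one

theorem ind_meas (Ω : Set (E n)) (hΩ : IsOpen Ω) (ε : ℝ) (x : E n) :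
    AEStronglyMeasurable (fun w : E n => (indicator Ω (fun _ => (1 : ℝ)) (x - ε • w)) * gk n 1 w)
      volume := by
  apply Measurable.aestronglyMeasurable
  apply Measurable.mul
  · exact (measurable_const.indicator hΩ.measurableSet).comp
      ((measurable_const.sub (measurable_id.const_smul ε)))
  · exact (gk_cont 1).measurable

theorem cv_bound {ε : ℝ} (hε : 0 < ε) (Ω : Set (E n)) (hΩ : IsOpen Ω) (x : E n) :
    0 ≤ cv n ε (volume.restrict Ω) x ∧ cv n ε (volume.restrict Ω) x ≤ 1 := by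
  constructor
  · unfold cv
    exact integral_nonneg fun y => gk_nonneg hε _
  · rw [cv_scale hε Ω hΩ x]
    refine le_trans ?_ (gk_integral (n := n) zero_lt_one).le
    have h1 : ∀ w : E n, ‖(indicator Ω (fun _ => (1 : ℝ)) (x - ε • w)) * gk n 1 w‖ ≤ gk n 1 w := by
      intro w
      rw [norm_mul, Real.norm_eq_abs, Real.norm_eq_abs, abs_of_nonneg (gk_nonneg zero_lt_one w)]
      exact mul_le_of_le_one_left (gk_nonneg zero_lt_one w) (ind_le _ _)
    refine integral_mono ((gk_integrable zero_lt_one).mono' (ind_meas Ω hΩ ε x)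
      (Filter.Eventually.of_forall h1)) (gk_integrable zero_lt_one) ?_
    intro w
    exact le_trans (le_abs_self _) (h1 w)

theorem cv_lim (Ω : Set (E n)) (hΩ : IsOpen Ω) {x : E n} (hx : x ∈ Ω) :
    Tendsto (fun ε => cv n ε (volume.restrict Ω) x) (𝓝[>] 0) (𝓝 1) := by
  have h0 : Tendsto (fun ε : ℝ => ∫ w : E n, (indicator Ω (fun _ => (1 : ℝ)) (x - ε • w)) * gk n 1 w)
      (𝓝[>] 0) (𝓝 (∫ w : E n, gk n 1 w)) := by
    refine tendsto_integral_filter_of_dominated_convergence (gk n 1) ?_ ?_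
      (gk_integrable zero_lt_one) ?_
    · exact Filter.Eventually.of_forall fun ε => ind_meas Ω hΩ ε x
    · refine Filter.Eventually.of_forall fun ε => Filter.Eventually.of_forall fun w => ?_
      rw [norm_mul, Real.norm_eq_abs, Real.norm_eq_abs, abs_of_nonneg (gk_nonneg zero_lt_one w)]
      exact mul_le_of_le_one_left (gk_nonneg zero_lt_one w) (ind_le _ _)
    · refine Filter.Eventually.of_forall fun w => ?_
      have h1 : Tendsto (fun ε : ℝ => x - ε • w) (𝓝[>] 0) (𝓝 x) := by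
        have h2 : Tendsto (fun ε : ℝ => x - ε • w) (𝓝 0) (𝓝 (x - (0 : ℝ) • w)) := by
          apply Continuous.tendsto
          fun_prop
        rw [zero_smul, sub_zero] at h2
        exact h2.mono_left nhdsWithin_le_nhds
      have h3 : ∀ᶠ ε : ℝ in 𝓝[>] 0, x - ε • w ∈ Ω := h1.eventually (hΩ.mem_nhds hx)
      refine tendsto_const_nhds.congr' ?_
      filter_upwards [h3] with ε hε
      rw [indicator_of_mem hε, one_mul]
  rw [gk_integral zero_lt_one] at h0
  refine h0.congr' ?_
  filter_upwards [self_mem_nhdsWithin] with ε hε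
  exact (cv_scale hε Ω hΩ x).symm

theorem l1_lim (Ω : Set (E n)) (hΩ : IsOpen Ω) (hb : Bornology.IsBounded Ω) :
    Tendsto (fun ε => ∫ x in Ω, (1 - cv n ε (volume.restrict Ω) x)) (𝓝[>] 0) (𝓝 0) := by
  have hfin : IsFiniteMeasure (volume.restrict Ω : Measure (E n)) :=
    ⟨by rw [Measure.restrict_apply_univ]; exact hb.measure_lt_top⟩
  have h0 : Tendsto (fun ε => ∫ x in Ω, (1 - cv n ε (volume.restrict Ω) x)) (𝓝[>] 0)
      (𝓝 (∫ x in Ω, (0 : ℝ))) := by
    refine tendsto_integral_filter_of_dominated_convergence (fun _ => 1) ?_ ?_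
      (integrable_const 1) ?_
    · refine Filter.Eventually.of_forall fun ε => ?_
      apply StronglyMeasurable.aestronglyMeasurable
      apply StronglyMeasurable.sub stronglyMeasurable_const
      unfold cv
      apply StronglyMeasurable.integral_prod_right
      apply Continuous.stronglyMeasurable
      exact (gk_cont ε).comp (continuous_fst.sub continuous_snd)
    · filter_upwards [self_mem_nhdsWithin] with ε hε
      refine Filter.Eventually.of_forall fun x => ?_
      have h1 := cv_bound hε Ω hΩ x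
      rw [Real.norm_eq_abs, abs_le]
      constructor <;> linarith [h1.1, h1.2]
    · filter_upwards [ae_restrict_mem hΩ.measurableSet] with x hx
      have h1 := (cv_lim Ω hΩ hx).const_sub 1
      rw [sub_self] at h1
      exact h1
  rw [integral_zero] at h0
  exact h0

end Pool.Agent.Helper876.LCoer
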