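import Pool.Agent.Helper876_Robin.LDefs

set_option autoImplicit false

open MeasureTheory Set Metric Filter Topology
open scoped ENNReal NNReal InnerProductSpace

namespace Pool.Agent.Helper876.LGauss

open Pool.Agent.Helper876.Rob

variable {n : ℕ} {ε : ℝ}

theorem gk_pos (hε : 0 < ε) (z : E n) : 0 < gk n ε z := by
  unfold gk
  have : 0 < Real.sqrt (2 * Real.pi) := Real.sqrt_pos.mpr (by positivity)
  positivity

theorem gk_contDiff_top {m : ℕ∞} : ContDiff ℝ m (gk n ε) := by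
  unfold gk
  have h : ContDiff ℝ m (fun z : E n => ‖z‖ ^ 2) := contDiff_norm_sq ℝ
  exact contDiff_const.mul ((h.neg.div_const _).exp)

theorem gk_contDiff : ContDiff ℝ 3 (gk n ε) := by
  exact_mod_cast gk_contDiff_top (n := n) (ε := ε) (m := 3)

theorem gk_cont : Continuous (gk n ε) := (gk_contDiff (n := n) (ε := ε)).continuous

theorem gk_mass (hε : 0 < ε) : Integrable (gk n ε) ∧ ∫ z, gk n ε z = 1 := by
  have h1 : ∫ z, gk n ε z = 1 := by
    unfold gk
    rw [integral_const_mul]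
    have hb : 0 < 1 / (2 * ε ^ 2) := by positivity
    have h2 := GaussianFourier.integral_rexp_neg_mul_sq_norm (V := E n) hb
    have h3 : (fun z : E n => Real.exp (-‖z‖ ^ 2 / (2 * ε ^ 2))) =
        fun v : E n => Real.exp (-(1 / (2 * ε ^ 2)) * ‖v‖ ^ 2) := by
      funext z
      congr 1
      ring
    rw [h3, h2, finrank_euclideanSpace_fin]
    have h4 : Real.pi / (1 / (2 * ε ^ 2)) = (Real.sqrt (2 * Real.pi) * ε) ^ 2 := by
      rw [mul_pow, Real.sq_sqrt (by positivity)]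
      field_simp
    have h5 : 0 < Real.sqrt (2 * Real.pi) * ε := by
      have : 0 < Real.sqrt (2 * Real.pi) := Real.sqrt_pos.mpr (by positivity)
      positivity
    rw [h4, ← Real.rpow_natCast (Real.sqrt (2 * Real.pi) * ε) 2, ← Real.rpow_mul h5.le]
    have h6 : ((2 : ℕ) : ℝ) * ((n : ℝ) / 2) = (n : ℝ) := by push_cast; ring
    rw [h6, Real.rpow_natCast, inv_pow]
    field_simp
  exact ⟨integrable_of_integral_eq_one h1, h1⟩

theorem gk_scale (hε : 0 < ε) (c : ℝ) (z : E n) :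
    Real.exp (c * ‖z‖) * gk n ε z ≤
      (Real.exp (c ^ 2 * ε ^ 2) * Real.sqrt 2 ^ n) * gk n (Real.sqrt 2 * ε) z := by
  unfold gk
  have h2 : 0 < Real.sqrt 2 := Real.sqrt_pos.mpr (by norm_num)
  have hp : 0 < Real.sqrt (2 * Real.pi) := Real.sqrt_pos.mpr (by positivity)
  have e1 : (Real.exp (c ^ 2 * ε ^ 2) * Real.sqrt 2 ^ n) *
      (((Real.sqrt (2 * Real.pi) * (Real.sqrt 2 * ε))⁻¹) ^ n *
        Real.exp (-‖z‖ ^ 2 / (2 * (Real.sqrt 2 * ε) ^ 2))) =
      ((Real.sqrt (2 * Real.pi) * ε)⁻¹) ^ n *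
        (Real.exp (c ^ 2 * ε ^ 2) * Real.exp (-‖z‖ ^ 2 / (2 * (Real.sqrt 2 * ε) ^ 2))) := by
    have : Real.sqrt 2 ^ n * ((Real.sqrt (2 * Real.pi) * (Real.sqrt 2 * ε))⁻¹) ^ n =
        ((Real.sqrt (2 * Real.pi) * ε)⁻¹) ^ n := by
      rw [← mul_pow]
      congr 1
      field_simp
    rw [← this]
    ring
  rw [e1]
  have e2 : Real.exp (c * ‖z‖) * (((Real.sqrt (2 * Real.pi) * ε)⁻¹) ^ n *
      Real.exp (-‖z‖ ^ 2 / (2 * ε ^ 2))) = ((Real.sqrt (2 * Real.pi) * ε)⁻¹) ^ n *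
      (Real.exp (c * ‖z‖) * Real.exp (-‖z‖ ^ 2 / (2 * ε ^ 2))) := by ring
  rw [e2]
  apply mul_le_mul_of_nonneg_left _ (by positivity)
  rw [← Real.exp_add, ← Real.exp_add]
  apply Real.exp_le_exp.mpr
  rw [mul_pow, Real.sq_sqrt (by norm_num)]
  have h3 : c ^ 2 * ε ^ 2 + -‖z‖ ^ 2 / (2 * (2 * ε ^ 2)) - (c * ‖z‖ + -‖z‖ ^ 2 / (2 * ε ^ 2)) =
      (c * ε - ‖z‖ / (2 * ε)) ^ 2 := by
    field_simp
    ring
  nlinarith [sq_nonneg (c * ε - ‖z‖ / (2 * ε))]

theorem gk_mom (hε : 0 < ε) (c : ℝ) : Integrable (fun z => Real.exp (c * ‖z‖) * gk n ε z) := by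
  have h2 : 0 < Real.sqrt 2 := Real.sqrt_pos.mpr (by norm_num)
  have hi := (gk_mass (n := n) (ε := Real.sqrt 2 * ε) (by positivity)).1
  refine (hi.const_mul (Real.exp (c ^ 2 * ε ^ 2) * Real.sqrt 2 ^ n)).mono'
    ?_ (Eventually.of_forall fun z => ?_)
  · have : Continuous (fun z : E n => Real.exp (c * ‖z‖) * gk n ε z) :=
      (Real.continuous_exp.comp (continuous_const.mul continuous_norm)).mul gk_cont
    exact this.aestronglyMeasurable
  · rw [Real.norm_of_nonneg (mul_nonneg (Real.exp_pos _).le (gk_pos hε z).le)]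
    exact gk_scale hε c z

theorem gk_fderiv (hε : 0 < ε) (z v : E n) :
    fderiv ℝ (gk n ε) z v = - (⟪z, v⟫_ℝ / ε ^ 2) * gk n ε z := by
  have h1 : HasFDerivAt (fun z : E n => ‖z‖ ^ 2) (2 • innerSL ℝ z) z :=
    (hasStrictFDerivAt_norm_sq z).hasFDerivAt
  have h2 : HasFDerivAt (gk n ε) ((((Real.sqrt (2 * Real.pi) * ε)⁻¹) ^ n : ℝ) •
      (Real.exp (-‖z‖ ^ 2 / (2 * ε ^ 2)) • (((2 * ε ^ 2)⁻¹ : ℝ) • (-(2 • innerSL ℝ z) : E n →L[ℝ] ℝ)))) z := by
    have h3 : gk n ε = fun z : E n => (((Real.sqrt (2 * Real.pi) * ε)⁻¹) ^ n : ℝ) *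
        Real.exp (((2 * ε ^ 2)⁻¹ : ℝ) * (-‖z‖ ^ 2)) := by
      funext w
      unfold gk
      congr 2
      ring
    have h4 : Real.exp (-‖z‖ ^ 2 / (2 * ε ^ 2)) = Real.exp (((2 * ε ^ 2)⁻¹ : ℝ) * (-‖z‖ ^ 2)) := by
      congr 1
      ring
    rw [h3, h4]
    exact ((h1.neg.const_mul ((2 * ε ^ 2)⁻¹ : ℝ)).exp).const_mul
      (((Real.sqrt (2 * Real.pi) * ε)⁻¹) ^ n)
  rw [h2.fderiv]
  unfold gk
  simp only [smul_apply, neg_apply, innerSL_apply_apply,
    smul_eq_mul, nsmul_eq_mul]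
  push_cast
  field_simp

theorem gk_bdd (hε : 0 < ε) : ∃ C : ℝ, ∀ (z : E n) (k : ℕ), k ≤ 3 →
    ‖iteratedFDeriv ℝ k (gk n ε) z‖ ≤ C := by
  have hf : Function.HasTemperateGrowth (fun z : E n => (-(2 * ε ^ 2)⁻¹ : ℝ) * ‖z‖ ^ 2) :=
    (Function.HasTemperateGrowth.const _).mul (Function.hasTemperateGrowth_norm_sq (E n))
  obtain ⟨m, C, hC0, hC⟩ := hf.norm_iteratedFDeriv_le_uniform 3
  set f : E n → ℝ := fun z : E n => (-(2 * ε ^ 2)⁻¹ : ℝ) * ‖z‖ ^ 2 with hfdef
  set c : ℝ := ((Real.sqrt (2 * Real.pi) * ε)⁻¹) ^ n with hc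
  have hgk : gk n ε = c • (Real.exp ∘ f) := by
    funext z
    simp only [gk, Pi.smul_apply, Function.comp, smul_eq_mul, hfdef, hc]
    congr 2
    ring
  have hcd : ContDiff ℝ 3 f := by
    have h0 : ContDiff ℝ 3 (fun z : E n => ‖z‖ ^ 2) := contDiff_norm_sq ℝ
    exact contDiff_const.mul h0
  refine ⟨|c| * (6 * (C + 1) ^ 3 * ((3 * m).factorial * Real.exp (1 + ε ^ 2 / 2))), fun z k hk => ?_⟩
  rw [hgk, iteratedFDeriv_const_smul_apply (Real.contDiff_exp.comp (hcd.of_le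
    (by exact_mod_cast hk))).contDiffAt, norm_smul, Real.norm_eq_abs]
  apply mul_le_mul_of_nonneg_left _ (abs_nonneg c)
  have hz : 1 ≤ (1 + ‖z‖) ^ m := one_le_pow₀ (by linarith [norm_nonneg z])
  have hD1 : 1 ≤ (C + 1) * (1 + ‖z‖) ^ m := by nlinarith
  have h1 := norm_iteratedFDeriv_comp_le (𝕜 := ℝ) (g := Real.exp) (f := f) (n := k) (N := 3)
    Real.contDiff_exp hcd (by exact_mod_cast hk) z (C := Real.exp (f z))
    (D := (C + 1) * (1 + ‖z‖) ^ m)
    (fun i _ => by
      rw [norm_iteratedFDeriv_eq_norm_iteratedDeriv, iteratedDeriv_eq_iterate,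
        Real.iter_deriv_exp, Real.norm_of_nonneg (Real.exp_pos _).le])
    (fun i hi hik => by
      refine (hC i (hik.trans hk) z).trans ?_
      have h2 : C * (1 + ‖z‖) ^ m ≤ (C + 1) * (1 + ‖z‖) ^ m := by nlinarith
      refine h2.trans ?_
      exact le_self_pow₀ hD1 (by omega))
  refine h1.trans ?_
  have h3 : ((k.factorial : ℕ) : ℝ) ≤ 6 := by
    have : k.factorial ≤ Nat.factorial 3 := Nat.factorial_le hk
    exact_mod_cast this
  have h4 : ((C + 1) * (1 + ‖z‖) ^ m) ^ k ≤ ((C + 1) * (1 + ‖z‖) ^ m) ^ 3 :=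
    pow_le_pow_right₀ hD1 hk
  have h5 : (1 + ‖z‖) ^ (3 * m) ≤ (3 * m).factorial * Real.exp (1 + ‖z‖) := by
    have := Real.pow_div_factorial_le_exp (1 + ‖z‖) (by positivity) (3 * m)
    rw [div_le_iff₀ (by positivity)] at this
    linarith
  have h6 : Real.exp (f z) * Real.exp (1 + ‖z‖) ≤ Real.exp (1 + ε ^ 2 / 2) := by
    rw [← Real.exp_add]
    apply Real.exp_le_exp.mpr
    have : 1 + ε ^ 2 / 2 - (f z + (1 + ‖z‖)) = (ε - ‖z‖ / ε) ^ 2 / 2 := by
      rw [hfdef]
      field_simp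
      ring
    nlinarith [sq_nonneg (ε - ‖z‖ / ε)]
  calc (k.factorial : ℝ) * Real.exp (f z) * ((C + 1) * (1 + ‖z‖) ^ m) ^ k
      ≤ 6 * Real.exp (f z) * ((C + 1) * (1 + ‖z‖) ^ m) ^ 3 := by gcongr
    _ = 6 * (C + 1) ^ 3 * (Real.exp (f z) * (1 + ‖z‖) ^ (3 * m)) := by ring
    _ ≤ 6 * (C + 1) ^ 3 * (Real.exp (f z) * ((3 * m).factorial * Real.exp (1 + ‖z‖))) := by
        gcongr
    _ = 6 * (C + 1) ^ 3 * ((3 * m).factorial * (Real.exp (f z) * Real.exp (1 + ‖z‖))) := by ring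
    _ ≤ _ := by gcongr

theorem conv_hasFDerivAt {F : Type} [NormedAddCommGroup F] [NormedSpace ℝ F]
    (μ : Measure (E n)) [IsFiniteMeasure μ] (h : E n → F) (hh : ContDiff ℝ 1 h) {C0 C1 : ℝ}
    (h0 : ∀ z, ‖h z‖ ≤ C0) (h1 : ∀ z, ‖fderiv ℝ h z‖ ≤ C1) (x : E n) :
    HasFDerivAt (fun x => ∫ y, h (x - y) ∂μ) (∫ y, fderiv ℝ h (x - y) ∂μ) x := by
  have hc : Continuous (fderiv ℝ h) := hh.continuous_fderiv one_ne_zero
  refine hasFDerivAt_integral_of_dominated_of_fderiv_le (𝕜 := ℝ) (bound := fun _ => C1)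
    (F := fun x y => h (x - y)) (F' := fun x y => fderiv ℝ h (x - y)) (s := univ)
    univ_mem (Eventually.of_forall fun x => ?_) ?_ ?_ ?_ (integrable_const _) ?_
  · exact (hh.continuous.comp (continuous_const.sub continuous_id)).aestronglyMeasurable
  · refine (integrable_const C0).mono'
      (hh.continuous.comp (continuous_const.sub continuous_id)).aestronglyMeasurable
      (Eventually.of_forall fun y => h0 _)
  · exact (hc.comp (continuous_const.sub continuous_id)).aestronglyMeasurable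
  · exact Eventually.of_forall fun y x _ => h1 _
  · refine Eventually.of_forall fun y x _ => ?_
    have := ((hh.differentiable one_ne_zero (x - y)).hasFDerivAt).comp x
      ((hasFDerivAt_id x).sub_const y)
    simpa [Function.comp_def] using this

theorem conv_contDiff (μ : Measure (E n)) [IsFiniteMeasure μ] (k : ℕ) :
    ∀ {F : Type} [NormedAddCommGroup F] [NormedSpace ℝ F] (h : E n → F)
      (_ : ContDiff ℝ k h) (_ : ∃ C : ℝ, ∀ (z : E n) (j : ℕ), j ≤ k →
        ‖iteratedFDeriv ℝ j h z‖ ≤ C), ContDiff ℝ k (fun x => ∫ y, h (x - y) ∂μ) := by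
  induction k with
  | zero =>
    intro F _ _ h hh ⟨C, hC⟩
    have hh0 : Continuous h := hh.continuous
    have : Continuous (fun x => ∫ y, h (x - y) ∂μ) := by
      refine continuous_of_dominated (bound := fun _ => C)
        (fun x => (hh0.comp (continuous_const.sub continuous_id)).aestronglyMeasurable)
        (fun x => Eventually.of_forall fun y => ?_) (integrable_const _)
        (Eventually.of_forall fun y => hh0.comp (continuous_id.sub continuous_const))
      have := hC (x - y) 0 le_rfl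
      rwa [norm_iteratedFDeriv_zero] at this
    exact_mod_cast contDiff_zero.mpr this
  | succ k ih =>
    intro F _ _ h hh ⟨C, hC⟩
    have hh1 : ContDiff ℝ 1 h := hh.of_le (by exact_mod_cast Nat.le_add_left 1 k)
    have hfd : ContDiff ℝ k (fderiv ℝ h) := hh.fderiv_right (by push_cast; exact le_rfl)
    have key : ∀ x, HasFDerivAt (fun x => ∫ y, h (x - y) ∂μ) (∫ y, fderiv ℝ h (x - y) ∂μ) x :=
      conv_hasFDerivAt μ h hh1 (C0 := C) (C1 := C)
        (fun z => by
          have := hC z 0 (Nat.zero_le _)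
          rwa [norm_iteratedFDeriv_zero] at this)
        (fun z => by
          have := hC z 1 (by omega)
          rwa [norm_iteratedFDeriv_one] at this)
    have hk : ContDiff ℝ k (fun x => ∫ y, fderiv ℝ h (x - y) ∂μ) :=
      ih (fderiv ℝ h) hfd ⟨C, fun z j hj => by
        rw [norm_iteratedFDeriv_fderiv]
        exact hC z (j + 1) (by omega)⟩
    have := contDiff_succ_iff_hasFDerivAt.mpr ⟨_, hk, key⟩
    exact_mod_cast this

theorem cv_C2 (hε : 0 < ε) (μ : Measure (E n)) [IsFiniteMeasure μ] : ContDiff ℝ 2 (cv n ε μ) := by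
  obtain ⟨C, hC⟩ := gk_bdd (n := n) hε
  have := conv_contDiff μ 2 (gk n ε) (gk_contDiff.of_le (by norm_num))
    ⟨C, fun z j hj => hC z j (by omega)⟩
  exact_mod_cast this

theorem cv_deriv (hε : 0 < ε) (μ : Measure (E n)) [IsFiniteMeasure μ] (x v : E n) :
    Integrable (fun y => fderiv ℝ (gk n ε) (x - y) v) μ ∧
    fderiv ℝ (cv n ε μ) x v = ∫ y, fderiv ℝ (gk n ε) (x - y) v ∂μ := by
  obtain ⟨C, hC⟩ := gk_bdd (n := n) hε
  have hd : ContDiff ℝ 1 (gk n ε) := gk_contDiff.of_le (by norm_num)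
  have h0 : ∀ z, ‖gk n ε z‖ ≤ C := fun z => by
    have := hC z 0 (by omega)
    rwa [norm_iteratedFDeriv_zero] at this
  have h1 : ∀ z, ‖fderiv ℝ (gk n ε) z‖ ≤ C := fun z => by
    have := hC z 1 (by omega)
    rwa [norm_iteratedFDeriv_one] at this
  have hi : Integrable (fun y => fderiv ℝ (gk n ε) (x - y)) μ :=
    (integrable_const C).mono' (((hd.continuous_fderiv one_ne_zero).comp
      (continuous_const.sub continuous_id)).aestronglyMeasurable)
      (Eventually.of_forall fun y => h1 _)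
  have hk : HasFDerivAt (cv n ε μ) (∫ y, fderiv ℝ (gk n ε) (x - y) ∂μ) x :=
    conv_hasFDerivAt μ (gk n ε) hd h0 h1 x
  refine ⟨hi.apply_continuousLinearMap v, ?_⟩
  rw [hk.fderiv, ContinuousLinearMap.integral_apply hi]

theorem gk_sub_integrable (hε : 0 < ε) (μ : Measure (E n)) [IsFiniteMeasure μ] (x : E n) :
    Integrable (fun y => gk n ε (x - y)) μ := by
  obtain ⟨C, hC⟩ := gk_bdd (n := n) hε
  refine (integrable_const C).mono' ((gk_cont.comp
      (continuous_const.sub continuous_id)).aestronglyMeasurable)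
      (Eventually.of_forall fun y => ?_)
  have := hC (x - y) 0 (by omega)
  rwa [norm_iteratedFDeriv_zero] at this

theorem cv_pos (hε : 0 < ε) (μ : Measure (E n)) [IsFiniteMeasure μ] (hμ : μ ≠ 0) (x : E n) :
    0 < cv n ε μ x := by
  unfold cv
  rw [integral_pos_iff_support_of_nonneg (fun y => (gk_pos hε _).le) (gk_sub_integrable hε μ x)]
  have : Function.support (fun y => gk n ε (x - y)) = univ := by
    ext y
    simp [(gk_pos hε (x - y)).ne']
  rw [this]
  exact Measure.measure_univ_pos.mpr hμ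

theorem cv_nonneg (hε : 0 < ε) (μ : Measure (E n)) (x : E n) : 0 ≤ cv n ε μ x :=
  integral_nonneg fun _ => (gk_pos hε _).le

theorem conv_int (μ : Measure (E n)) [IsFiniteMeasure μ] {G : E n → ℝ} (hG : Integrable G) :
    Integrable (fun p : E n × E n => G (p.1 - p.2)) ((volume : Measure (E n)).prod μ) := by
  have h1 : Integrable (fun _ : E n => (1 : ℝ)) μ := integrable_const 1
  have := h1.convolution_integrand (ContinuousLinearMap.mul ℝ ℝ) hG
  simpa using this

theorem cv_mom (hε : 0 < ε) (μ : Measure (E n)) [IsFiniteMeasure μ] {L : ℝ}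
    (hL : μ (closedBall 0 L)ᶜ = 0) (c : ℝ) :
    Integrable (fun x => Real.exp (c * ‖x‖) * cv n ε μ x) := by
  have h1 := conv_int μ (gk_mom (n := n) hε |c|)
  have h2 : Integrable (fun p : E n × E n => Real.exp (c * ‖p.1‖) * gk n ε (p.1 - p.2))
      ((volume : Measure (E n)).prod μ) := by
    refine (h1.const_mul (Real.exp (|c| * L))).mono' ?_ ?_
    · have : Continuous (fun p : E n × E n => Real.exp (c * ‖p.1‖) * gk n ε (p.1 - p.2)) :=
        (Real.continuous_exp.comp (continuous_const.mul continuous_fst.norm)).mul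
          (gk_cont.comp (continuous_fst.sub continuous_snd))
      exact this.aestronglyMeasurable
    · have h3 : ∀ᵐ y ∂μ, y ∈ closedBall (0 : E n) L := by
        rw [ae_iff]
        exact hL
      have h4 : ∀ᵐ p : E n × E n ∂((volume : Measure (E n)).prod μ), p.2 ∈ closedBall (0 : E n) L :=
        Measure.quasiMeasurePreserving_snd.ae h3
      filter_upwards [h4] with p hp
      rw [Real.norm_of_nonneg (mul_nonneg (Real.exp_pos _).le (gk_pos hε _).le), ← mul_assoc,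
        ← Real.exp_add]
      apply mul_le_mul_of_nonneg_right _ (gk_pos hε _).le
      apply Real.exp_le_exp.mpr
      have h5 : ‖p.1‖ ≤ L + ‖p.1 - p.2‖ := by
        have h6 : ‖p.2‖ ≤ L := by simpa using hp
        have h7 : ‖p.1‖ ≤ ‖p.2‖ + ‖p.1 - p.2‖ := by
          have := norm_add_le p.2 (p.1 - p.2)
          simpa using this
        linarith
      calc c * ‖p.1‖ ≤ |c| * ‖p.1‖ := mul_le_mul_of_nonneg_right (le_abs_self c) (norm_nonneg _)
        _ ≤ |c| * (L + ‖p.1 - p.2‖) := mul_le_mul_of_nonneg_left h5 (abs_nonneg c)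
        _ = |c| * L + |c| * ‖p.1 - p.2‖ := by ring
  have h8 := h2.integral_prod_left
  refine h8.congr (Eventually.of_forall fun x => ?_)
  simp only [cv]
  rw [integral_const_mul]

theorem cv_mass (hε : 0 < ε) (μ : Measure (E n)) [IsFiniteMeasure μ] :
    Integrable (cv n ε μ) ∧ ∫ x, cv n ε μ x = μ.real univ := by
  have h1 := conv_int μ (gk_mass (n := n) hε).1
  refine ⟨h1.integral_prod_left, ?_⟩
  unfold cv
  rw [integral_integral_swap (f := fun x y => gk n ε (x - y)) h1]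
  have : ∀ y : E n, ∫ x, gk n ε (x - y) = 1 := fun y => by
    rw [integral_sub_right_eq_self (gk n ε) y]
    exact (gk_mass hε).2
  simp [this]

theorem cv_le_one (hε : 0 < ε) (Ω : Set (E n)) (hΩ : MeasurableSet Ω) (x : E n) :
    cv n ε (volume.restrict Ω) x ≤ 1 := by
  unfold cv
  have hi : Integrable (fun y => gk n ε (x - y)) := (gk_mass hε).1.comp_sub_left x
  refine (setIntegral_le_integral hi (Eventually.of_forall fun y => (gk_pos hε _).le)).trans ?_
  rw [integral_sub_left_eq_self (gk n ε) volume x]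
  exact (gk_mass hε).2.le

end Pool.Agent.Helper876.LGauss
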