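import Pool.Agent.Helper876_Robin.LDefs

set_option autoImplicit false

open MeasureTheory Set Metric Filter Topology
open scoped ENNReal NNReal InnerProductSpace

namespace Pool.Agent.Helper876.LGrad

open Pool.Agent.Helper876.Rob

variable {n : ℕ} {ε : ℝ}

theorem gk_contDiff (n : ℕ) (ε : ℝ) : ContDiff ℝ (⊤ : ℕ∞) (gk n ε) := by
  unfold gk
  exact contDiff_const.mul (((contDiff_norm_sq ℝ).neg.div_const _).exp)

theorem gk_nonneg (hε : 0 < ε) (z : E n) : 0 ≤ gk n ε z := by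
  unfold gk
  positivity

theorem gk_le (hε : 0 < ε) (z : E n) : gk n ε z ≤ ((Real.sqrt (2 * Real.pi) * ε)⁻¹) ^ n := by
  unfold gk
  have h1 : Real.exp (-‖z‖ ^ 2 / (2 * ε ^ 2)) ≤ 1 := by
    rw [Real.exp_le_one_iff]
    apply div_nonpos_of_nonpos_of_nonneg
    · exact neg_nonpos.mpr (by positivity)
    · positivity
  have h2 : 0 ≤ ((Real.sqrt (2 * Real.pi) * ε)⁻¹) ^ n := by positivity
  calc _ ≤ ((Real.sqrt (2 * Real.pi) * ε)⁻¹) ^ n * 1 := mul_le_mul_of_nonneg_left h1 h2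
    _ = _ := mul_one _

theorem gk_neg (z : E n) : gk n ε (-z) = gk n ε z := by
  unfold gk
  rw [norm_neg]

theorem gk_hasFDerivAt (hε : 0 < ε) (z : E n) :
    HasFDerivAt (gk n ε) (-(gk n ε z / ε ^ 2) • innerSL ℝ z) z := by
  have h1 : HasFDerivAt (fun z : E n => ‖z‖ ^ 2) (2 • innerSL ℝ z) z :=
    (hasStrictFDerivAt_norm_sq z).hasFDerivAt
  have h2 : HasFDerivAt (fun z : E n => -‖z‖ ^ 2 / (2 * ε ^ 2))
      ((2 * ε ^ 2)⁻¹ • (-(2 • innerSL ℝ z) : E n →L[ℝ] ℝ)) z := by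
    have h := h1.neg.const_mul ((2 * ε ^ 2)⁻¹)
    refine h.congr_of_eventuallyEq (Filter.Eventually.of_forall fun y => ?_)
    change -‖y‖ ^ 2 / (2 * ε ^ 2) = (2 * ε ^ 2)⁻¹ * -(‖y‖ ^ 2)
    rw [div_eq_inv_mul]
  have h3 := h2.exp.const_mul (((Real.sqrt (2 * Real.pi) * ε)⁻¹) ^ n)
  refine h3.congr_fderiv ?_
  ext v
  simp only [gk, smul_apply, neg_apply, innerSL_apply_apply,
    smul_eq_mul, nsmul_eq_mul]
  push_cast
  field_simp

theorem integrable_gk_sub (hε : 0 < ε) (μ : Measure (E n)) [IsFiniteMeasure μ] (x : E n) :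
    Integrable (fun y => gk n ε (x - y)) μ := by
  have hc : Continuous fun y : E n => gk n ε (x - y) :=
    (gk_contDiff n ε).continuous.comp (continuous_const.sub continuous_id)
  refine Integrable.of_bound hc.aestronglyMeasurable (((Real.sqrt (2 * Real.pi) * ε)⁻¹) ^ n) ?_
  refine Filter.Eventually.of_forall fun y => ?_
  rw [Real.norm_eq_abs, abs_of_nonneg (gk_nonneg hε _)]
  exact gk_le hε _

theorem cv_nonneg (hε : 0 < ε) (μ : Measure (E n)) (x : E n) : 0 ≤ cv n ε μ x :=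
  integral_nonneg fun y => gk_nonneg hε _

theorem grad_le (hε : 0 < ε) (Ω : Set (E n)) (hΩ : IsOpen Ω) (hb : Bornology.IsBounded Ω)
    (σ : Measure (E n)) [IsFiniteMeasure σ] (hG : HalfGG Ω σ)
    (hder : ∀ x v : E n, fderiv ℝ (cv n ε (volume.restrict Ω)) x v =
      ∫ y in Ω, fderiv ℝ (gk n ε) (x - y) v) (x : E n) :
    ‖fderiv ℝ (cv n ε (volume.restrict Ω)) x‖ ≤ cv n ε σ x := by
  refine ContinuousLinearMap.opNorm_le_of_unit_norm (cv_nonneg hε σ x) ?_
  intro e he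
  have hφ : ContDiff ℝ 1 fun y : E n => gk n ε (x - y) :=
    ((gk_contDiff n ε).of_le (by exact_mod_cast le_top)).comp (contDiff_const.sub contDiff_id)
  have h1 := hG _ hφ e he
  have hd : ∀ y : E n, fderiv ℝ (fun y : E n => gk n ε (x - y)) y e =
      -(fderiv ℝ (gk n ε) (x - y) e) := by
    intro y
    have hg : HasFDerivAt (gk n ε) (fderiv ℝ (gk n ε) (x - y)) (x - y) :=
      (((gk_contDiff n ε).differentiable (by simp)) (x - y)).hasFDerivAt
    have hs : HasFDerivAt (fun y : E n => x - y) (-(ContinuousLinearMap.id ℝ (E n))) y := by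
      simpa using (hasFDerivAt_id y).const_sub x
    have h2 := hg.comp y hs
    have h3 : fderiv ℝ (fun y : E n => gk n ε (x - y)) y =
        (fderiv ℝ (gk n ε) (x - y)).comp (-(ContinuousLinearMap.id ℝ (E n))) := h2.fderiv
    rw [h3]
    simp
  rw [hder, Real.norm_eq_abs]
  have h4 : ∫ y in Ω, fderiv ℝ (fun y : E n => gk n ε (x - y)) y e =
      -∫ y in Ω, fderiv ℝ (gk n ε) (x - y) e := by
    rw [← integral_neg]
    exact integral_congr_ae (Filter.Eventually.of_forall hd)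
  rw [h4, abs_neg] at h1
  refine h1.trans (le_of_eq ?_)
  unfold cv
  exact integral_congr_ae (Filter.Eventually.of_forall fun y => abs_of_nonneg (gk_nonneg hε _))

/-- the radial part -/
noncomputable def rr (t : ℝ) (z : E n) : ℝ := Real.sqrt (‖z‖ ^ 2 + t ^ 2)

theorem rr_pos {t : ℝ} (ht : 0 < t) (z : E n) : 0 < rr t z := Real.sqrt_pos.mpr (by positivity)

theorem rr_sq {t : ℝ} (z : E n) : rr t z ^ 2 = ‖z‖ ^ 2 + t ^ 2 := Real.sq_sqrt (by positivity)

theorem rr_contDiff {t : ℝ} (ht : 0 < t) : ContDiff ℝ (⊤ : ℕ∞) (rr (n := n) t) := by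
  unfold rr
  exact ((contDiff_norm_sq ℝ).add contDiff_const).sqrt (fun z => by positivity)

/-- the components of the vector field -/
noncomputable def ps (ε t : ℝ) (i : Fin n) (z : E n) : ℝ := gk n ε z * (z i * (rr t z)⁻¹)

theorem ps_contDiff {t : ℝ} (ht : 0 < t) (i : Fin n) : ContDiff ℝ (⊤ : ℕ∞) (ps ε t i) := by
  unfold ps
  have h1 : ContDiff ℝ (⊤ : ℕ∞) fun z : E n => z i :=
    (EuclideanSpace.proj (𝕜 := ℝ) i).contDiff
  exact (gk_contDiff n ε).mul (h1.mul ((rr_contDiff ht).inv fun z => (rr_pos ht z).ne'))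

theorem ps_deriv (hε : 0 < ε) {t : ℝ} (ht : 0 < t) (i : Fin n) (z : E n) :
    fderiv ℝ (ps ε t i) z (EuclideanSpace.single i 1) =
      gk n ε z * (-(z i ^ 2) / (ε ^ 2 * rr t z) + 1 / rr t z - z i ^ 2 / rr t z ^ 3) := by
  have hr0 := rr_pos (n := n) ht z
  have h1 := gk_hasFDerivAt (n := n) hε z
  have h2 : HasFDerivAt (fun z : E n => z i) (EuclideanSpace.proj (𝕜 := ℝ) i) z :=
    (EuclideanSpace.proj (𝕜 := ℝ) i).hasFDerivAt
  have h3 : HasFDerivAt (rr (n := n) t) ((1 / (2 * rr t z)) • (2 • innerSL ℝ z)) z := by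
    have h4 : HasFDerivAt (fun z : E n => ‖z‖ ^ 2 + t ^ 2) (2 • innerSL ℝ z) z :=
      ((hasStrictFDerivAt_norm_sq z).hasFDerivAt).add_const _
    exact h4.sqrt (by positivity)
  have h5 : HasFDerivAt (fun z : E n => (rr t z)⁻¹)
      ((-(rr t z ^ 2)⁻¹) • ((1 / (2 * rr t z)) • (2 • innerSL ℝ z))) z :=
    (hasDerivAt_inv hr0.ne').comp_hasFDerivAt z h3
  have h6 := h1.fun_mul (h2.fun_mul h5)
  have h7 : fderiv ℝ (ps ε t i) z = _ := h6.fderiv
  rw [h7]
  have hin : ⟪z, EuclideanSpace.single i (1 : ℝ)⟫_ℝ = z i := by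
    rw [EuclideanSpace.inner_single_right]; simp
  simp only [add_apply, smul_apply, innerSL_apply_apply,
    smul_eq_mul, nsmul_eq_mul, hin]
  have hp : (EuclideanSpace.proj (𝕜 := ℝ) i) (EuclideanSpace.single i (1 : ℝ)) = 1 := by
    simp
  rw [hp]
  push_cast
  field_simp
  ring

theorem dist_le (hε : 0 < ε) (Ω : Set (E n)) (hΩ : IsOpen Ω) (hb : Bornology.IsBounded Ω)
    (σ : Measure (E n)) [IsFiniteMeasure σ] (hG : HalfGG Ω σ) (x : E n) {t : ℝ} (ht : 0 < t)
    (hx : ∀ y ∈ Ω, t ≤ ‖x - y‖) :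
    (t / (Real.sqrt 2 * ε ^ 2) - n / t) * cv n ε (volume.restrict Ω) x ≤ n * cv n ε σ x := by
  have hfin : volume Ω < ⊤ := hb.measure_lt_top
  have : IsFiniteMeasure (volume.restrict Ω) := ⟨by simpa using hfin⟩
  have hφ : ∀ i, ContDiff ℝ (⊤ : ℕ∞) fun y : E n => ps ε t i (y - x) := fun i =>
    (ps_contDiff ht i).comp (contDiff_id.sub contDiff_const)
  have hd : ∀ (i : Fin n) (y : E n), fderiv ℝ (fun y : E n => ps ε t i (y - x)) y
      (EuclideanSpace.single i 1) = gk n ε (y - x) * (-((y - x) i ^ 2) / (ε ^ 2 * rr t (y - x)) +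
        1 / rr t (y - x) - (y - x) i ^ 2 / rr t (y - x) ^ 3) := by
    intro i y
    rw [fderiv_comp_sub, ps_deriv hε ht i (y - x)]
  have hi : ∀ i : Fin n, IntegrableOn (fun y => fderiv ℝ (fun y : E n => ps ε t i (y - x)) y
      (EuclideanSpace.single i 1)) Ω := by
    intro i
    have hc : Continuous fun y => fderiv ℝ (fun y : E n => ps ε t i (y - x)) y
        (EuclideanSpace.single i (1 : ℝ)) :=
      ((hφ i).continuous_fderiv (by simp)).clm_apply continuous_const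
    exact (hc.continuousOn.integrableOn_compact hb.isCompact_closure).mono_set subset_closure
  have h1 : ∀ i : Fin n, |∫ y in Ω, fderiv ℝ (fun y : E n => ps ε t i (y - x)) y
      (EuclideanSpace.single i 1)| ≤ cv n ε σ x := by
    intro i
    have h2 := hG _ ((hφ i).of_le (by exact_mod_cast le_top)) (EuclideanSpace.single i (1 : ℝ))
      (by simp)
    refine h2.trans ?_
    unfold cv
    refine integral_mono_of_nonneg (Filter.Eventually.of_forall fun y => abs_nonneg _)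
      (integrable_gk_sub hε σ x) (Filter.Eventually.of_forall fun y => ?_)
    have hr0 := rr_pos (n := n) ht (y - x)
    have hle : |(y - x) i| ≤ rr t (y - x) := by
      have h3 : ‖(y - x) i‖ ≤ ‖y - x‖ := PiLp.norm_apply_le (y - x) i
      rw [Real.norm_eq_abs] at h3
      refine h3.trans ?_
      unfold rr
      apply Real.le_sqrt_of_sq_le
      nlinarith [sq_nonneg t]
    change |gk n ε (y - x) * ((y - x) i * (rr t (y - x))⁻¹)| ≤ gk n ε (x - y)
    rw [abs_mul, abs_mul, abs_of_nonneg (gk_nonneg hε _), abs_inv, abs_of_pos hr0]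
    have h4 : gk n ε (x - y) = gk n ε (y - x) := by
      rw [← neg_sub y x, gk_neg]
    rw [h4]
    have h5 : |(y - x) i| * (rr t (y - x))⁻¹ ≤ 1 := by
      rw [← div_eq_mul_inv, div_le_one hr0]
      exact hle
    calc gk n ε (y - x) * (|(y - x) i| * (rr t (y - x))⁻¹) ≤ gk n ε (y - x) * 1 :=
          mul_le_mul_of_nonneg_left h5 (gk_nonneg hε _)
      _ = _ := mul_one _
  have h6 : -(∑ i : Fin n, ∫ y in Ω, fderiv ℝ (fun y : E n => ps ε t i (y - x)) y
      (EuclideanSpace.single i 1)) ≤ n * cv n ε σ x := by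
    rw [← Finset.sum_neg_distrib]
    calc ∑ i : Fin n, -(∫ y in Ω, fderiv ℝ (fun y : E n => ps ε t i (y - x)) y
          (EuclideanSpace.single i 1)) ≤ ∑ _i : Fin n, cv n ε σ x :=
          Finset.sum_le_sum fun i _ => (neg_le_abs _).trans (h1 i)
      _ = n * cv n ε σ x := by simp
  refine le_trans ?_ h6
  rw [← integral_finsetSum _ (fun i _ => hi i), ← integral_neg]
  unfold cv
  rw [← integral_const_mul]
  refine setIntegral_mono_on ((integrable_gk_sub hε _ x).const_mul _) ?_ hΩ.measurableSet ?_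
  · exact (integrable_finsetSum _ fun i _ => hi i).neg
  · intro y hy
    have hr0 := rr_pos (n := n) ht (y - x)
    have hr2 := rr_sq (t := t) (y - x)
    have h4 : gk n ε (x - y) = gk n ε (y - x) := by
      rw [← neg_sub y x, gk_neg]
    have hnz : t ≤ ‖y - x‖ := by
      rw [norm_sub_rev]; exact hx y hy
    simp only [hd]
    rw [← Finset.mul_sum, h4]
    have hsum : ∑ i : Fin n, (-((y - x) i ^ 2) / (ε ^ 2 * rr t (y - x)) +
        1 / rr t (y - x) - (y - x) i ^ 2 / rr t (y - x) ^ 3) =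
        -(‖y - x‖ ^ 2 / (ε ^ 2 * rr t (y - x))) + n / rr t (y - x) -
          ‖y - x‖ ^ 2 / rr t (y - x) ^ 3 := by
      rw [EuclideanSpace.real_norm_sq_eq, Finset.sum_sub_distrib, Finset.sum_add_distrib]
      have e1 : ∑ i : Fin n, -((y - x) i ^ 2) / (ε ^ 2 * rr t (y - x)) =
          -((∑ i : Fin n, (y - x) i ^ 2) / (ε ^ 2 * rr t (y - x))) := by
        rw [Finset.sum_div, ← Finset.sum_neg_distrib]
        exact Finset.sum_congr rfl fun i _ => neg_div _ _
      have e2 : ∑ _i : Fin n, 1 / rr t (y - x) = n / rr t (y - x) := by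
        simp [div_eq_mul_inv]
      have e3 : ∑ i : Fin n, (y - x) i ^ 2 / rr t (y - x) ^ 3 =
          (∑ i : Fin n, (y - x) i ^ 2) / rr t (y - x) ^ 3 := by
        rw [Finset.sum_div]
      rw [e1, e2, e3]
    rw [hsum]
    set r := rr t (y - x) with hr
    set N := ‖y - x‖ with hN
    have hs2 : Real.sqrt 2 ^ 2 = 2 := Real.sq_sqrt (by norm_num)
    have hs0 : 0 < Real.sqrt 2 := Real.sqrt_pos.mpr (by norm_num)
    have hN0 : 0 < N := lt_of_lt_of_le ht hnz
    have hrN : r ≤ Real.sqrt 2 * N := by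
      apply le_of_sq_le_sq _ (by positivity)
      rw [mul_pow, hs2, hr2]
      nlinarith
    have hrt : t ≤ r := by
      apply le_of_sq_le_sq _ hr0.le
      rw [hr2]
      nlinarith [sq_nonneg N]
    have k1 : t / (Real.sqrt 2 * ε ^ 2) ≤ N ^ 2 / (ε ^ 2 * r) := by
      rw [div_le_div_iff₀ (by positivity) (by positivity)]
      have : t * r ≤ N ^ 2 * Real.sqrt 2 := by
        calc t * r ≤ N * (Real.sqrt 2 * N) := mul_le_mul hnz hrN hr0.le hN0.le
          _ = N ^ 2 * Real.sqrt 2 := by ring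
      nlinarith [sq_nonneg ε, mul_le_mul_of_nonneg_right this (sq_nonneg ε)]
    have k2 : (n : ℝ) / r ≤ n / t := div_le_div_of_nonneg_left (Nat.cast_nonneg n) ht hrt
    have k3 : 0 ≤ N ^ 2 / r ^ 3 := by positivity
    have hg := gk_nonneg hε (y - x)
    have : (t / (Real.sqrt 2 * ε ^ 2) - n / t) ≤ -(-(N ^ 2 / (ε ^ 2 * r)) + n / r - N ^ 2 / r ^ 3) := by
      linarith
    calc (t / (Real.sqrt 2 * ε ^ 2) - n / t) * gk n ε (y - x)
        ≤ -(-(N ^ 2 / (ε ^ 2 * r)) + n / r - N ^ 2 / r ^ 3) * gk n ε (y - x) :=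
          mul_le_mul_of_nonneg_right this hg
      _ = _ := by ring

theorem far (hn : 1 ≤ n) (hε : 0 < ε) (Ω : Set (E n)) (hΩ : IsOpen Ω)
    (hb : Bornology.IsBounded Ω) (σ : Measure (E n)) [IsFiniteMeasure σ] (hG : HalfGG Ω σ)
    (C : ℝ) : ∃ L : ℝ, ∀ x : E n, L ≤ ‖x‖ → C * cv n ε (volume.restrict Ω) x ≤ cv n ε σ x := by
  obtain ⟨L1, hL1⟩ := hb.subset_closedBall (0 : E n)
  have hs0 : 0 < Real.sqrt 2 := Real.sqrt_pos.mpr (by norm_num)
  set T := max 1 (Real.sqrt 2 * ε ^ 2 * (n * (C + 1))) with hT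
  refine ⟨L1 + T, fun x hx => ?_⟩
  have hT1 : 1 ≤ T := le_max_left _ _
  have hT2 : Real.sqrt 2 * ε ^ 2 * (n * (C + 1)) ≤ T := le_max_right _ _
  set t := ‖x‖ - L1 with ht
  have htT : T ≤ t := by rw [ht]; linarith
  have ht0 : 0 < t := by linarith
  have hd : ∀ y ∈ Ω, t ≤ ‖x - y‖ := by
    intro y hy
    have h1 : ‖y‖ ≤ L1 := by simpa using hL1 hy
    have h2 := norm_sub_norm_le x y
    rw [ht]; linarith
  have h3 := dist_le hε Ω hΩ hb σ hG x ht0 hd
  have hρ := cv_nonneg hε (volume.restrict Ω) x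
  have hn0 : (0 : ℝ) < n := by exact_mod_cast hn
  have h4 : (n : ℝ) * C ≤ t / (Real.sqrt 2 * ε ^ 2) - n / t := by
    have k1 : (n : ℝ) * (C + 1) ≤ t / (Real.sqrt 2 * ε ^ 2) := by
      rw [le_div_iff₀ (by positivity)]
      calc (n : ℝ) * (C + 1) * (Real.sqrt 2 * ε ^ 2) = Real.sqrt 2 * ε ^ 2 * (n * (C + 1)) := by ring
        _ ≤ T := hT2
        _ ≤ t := htT
    have k2 : (n : ℝ) / t ≤ n := div_le_self hn0.le (by linarith)
    linarith
  have h5 : n * C * cv n ε (volume.restrict Ω) x ≤ n * cv n ε σ x :=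
    (mul_le_mul_of_nonneg_right h4 hρ).trans h3
  have h6 : (n : ℝ) * (C * cv n ε (volume.restrict Ω) x) ≤ n * cv n ε σ x := by
    rw [← mul_assoc]; exact h5
  exact le_of_mul_le_mul_left h6 hn0

end Pool.Agent.Helper876.LGrad
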