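import Pool.Agent.Helper876_Robin.LDefs

set_option autoImplicit false

open MeasureTheory Set Metric Filter Topology
open scoped ENNReal NNReal InnerProductSpace

namespace Pool.Agent.Helper876.LMol

open Pool.Agent.Helper876.Rob
open scoped Convolution

/-- The convolution with a kernel, in the swapped form. -/
noncomputable def M {n : ℕ} {F : Type*} [NormedAddCommGroup F] [NormedSpace ℝ F]
    (ζ : E n → ℝ) (f : E n → F) (x : E n) : F := ∫ y, ζ (x - y) • f y

section gen

variable {n : ℕ} {F : Type*} [NormedAddCommGroup F] [NormedSpace ℝ F]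
  {ζ : E n → ℝ} {f g : E n → F}

theorem iadd {f g : E n → ℝ} (hf : Integrable f) (hg : Integrable g) :
    Integrable (fun x => f x + g x) := hf.add hg

theorem M_eq (ζ : E n → ℝ) (f : E n → F) :
    M ζ f = convolution ζ f (ContinuousLinearMap.lsmul ℝ ℝ) volume := by
  funext x
  exact (convolution_lsmul_swap (μ := (volume : Measure (E n)))).symm

theorem ker_cpt (hc : HasCompactSupport ζ) (x : E n) :
    HasCompactSupport (fun y => ζ (x - y)) :=
  hc.comp_homeomorph (Homeomorph.subLeft x)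

theorem M_int (hζ : Continuous ζ) (hc : HasCompactSupport ζ) (hf : LocallyIntegrable f volume)
    (x : E n) : Integrable (fun y => ζ (x - y) • f y) :=
  hf.integrable_smul_left_of_hasCompactSupport
    (hζ.comp (continuous_const.sub continuous_id)) (ker_cpt hc x)

theorem M_cont [CompleteSpace F] (hζ : Continuous ζ) (hc : HasCompactSupport ζ)
    (hf : LocallyIntegrable f volume) : Continuous (M ζ f) := by
  rw [M_eq]
  exact hc.continuous_convolution_left _ hζ hf

theorem M_contDiff [CompleteSpace F] (hζ : ContDiff ℝ 2 ζ) (hc : HasCompactSupport ζ)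
    (hf : LocallyIntegrable f volume) : ContDiff ℝ 2 (M ζ f) := by
  rw [M_eq]
  exact hc.contDiff_convolution_left (n := 2) _ hζ hf

theorem M_hasFDerivAt [CompleteSpace F] (hζ : ContDiff ℝ 2 ζ) (hc : HasCompactSupport ζ)
    (hf : LocallyIntegrable f volume) (x : E n) :
    ∃ D : E n →L[ℝ] F, HasFDerivAt (M ζ f) D x ∧
      ∀ u, D u = ∫ y, (fderiv ℝ ζ (x - y) u) • f y := by
  have h1 : ContDiff ℝ 1 ζ := hζ.of_le (by norm_num)
  have h := hc.hasFDerivAt_convolution_left (ContinuousLinearMap.lsmul ℝ ℝ (E := F))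
    h1 hf x
  rw [← M_eq] at h
  refine ⟨_, h, fun u => ?_⟩
  rw [convolution_eq_swap]
  rw [ContinuousLinearMap.integral_apply]
  · rfl
  · exact ((hc.fderiv ℝ).convolutionExists_left _ (h1.continuous_fderiv one_ne_zero)
      hf x).integrable_swap

theorem M_total [CompleteSpace F] (hζ : Continuous ζ) (hc : HasCompactSupport ζ)
    (h1 : ∫ x, ζ x = 1) (hf : Integrable f) :
    Integrable (M ζ f) ∧ ∫ x, M ζ f x = ∫ x, f x := by
  have hi : Integrable ζ := hζ.integrable_of_hasCompactSupport hc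
  rw [M_eq]
  refine ⟨hi.integrable_convolution _ hf, ?_⟩
  rw [integral_convolution _ hi hf, h1]
  simp

end gen


/-- A smooth kernel of total mass one, supported in the ball of radius `τ`. -/
structure Ker {n : ℕ} (ζ : E n → ℝ) (τ : ℝ) : Prop where
  smooth : ContDiff ℝ 2 ζ
  cpt : HasCompactSupport ζ
  nonneg : ∀ x, 0 ≤ ζ x
  supp : ∀ x, ζ x ≠ 0 → ‖x‖ < τ
  one : ∫ x, ζ x = 1

theorem exists_ker (n : ℕ) {τ : ℝ} (hτ : 0 < τ) : ∃ ζ : E n → ℝ, Ker ζ τ := by
  let f : ContDiffBump (0 : E n) := ⟨τ / 2, τ, by positivity, by linarith⟩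
  refine ⟨f.normed volume, f.contDiff_normed (n := 2), f.hasCompactSupport_normed,
    f.nonneg_normed, fun x hx => ?_, f.integral_normed⟩
  have : x ∈ Function.support (f.normed volume) := hx
  rw [f.support_normed_eq] at this
  exact mem_ball_zero_iff.mp this

section ker

variable {n : ℕ} {ζ : E n → ℝ} {τ : ℝ}

theorem Ker.near (k : Ker ζ τ) {x y : E n} (h : ζ (x - y) ≠ 0) : dist x y < τ := by
  rw [dist_eq_norm]; exact k.supp _ h

theorem Ker.one_sub (k : Ker ζ τ) (x : E n) : ∫ y, ζ (x - y) = 1 := by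
  rw [integral_sub_left_eq_self ζ volume x, k.one]

theorem Ker.avg_const (k : Ker ζ τ) (x : E n) (c : ℝ) : ∫ y, ζ (x - y) * c = c := by
  rw [integral_mul_const, k.one_sub, one_mul]

theorem Ker.int {f : E n → ℝ} (k : Ker ζ τ) (hf : LocallyIntegrable f volume) (x : E n) :
    Integrable (fun y => ζ (x - y) * f y) := M_int k.smooth.continuous k.cpt hf x

/-- Comparison of two averages. -/
theorem Ker.mono {f g : E n → ℝ} (k : Ker ζ τ) (hf : LocallyIntegrable f volume)
    (hg : LocallyIntegrable g volume) (x : E n)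
    (h : ∀ᵐ y, dist x y < τ → f y ≤ g y) :
    ∫ y, ζ (x - y) * f y ≤ ∫ y, ζ (x - y) * g y := by
  refine integral_mono_ae (k.int hf x) (k.int hg x) ?_
  filter_upwards [h] with y hy
  by_cases h0 : ζ (x - y) = 0
  · simp [h0]
  · exact mul_le_mul_of_nonneg_left (hy (k.near h0)) (k.nonneg _)

theorem Ker.le_avg {f : E n → ℝ} (k : Ker ζ τ) (hf : LocallyIntegrable f volume) (x : E n)
    {c : ℝ} (h : ∀ᵐ y, dist x y < τ → c ≤ f y) : c ≤ ∫ y, ζ (x - y) * f y := by
  have := k.mono (f := fun _ => c) (continuous_const.locallyIntegrable) hf x h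
  rwa [k.avg_const] at this

/-- The reflected kernel as a test function. -/
theorem Ker.fderiv_refl (k : Ker ζ τ) (x y : E n) :
    HasFDerivAt (fun z => ζ (x - z)) (-(fderiv ℝ ζ (x - y))) y := by
  have h := ((k.smooth.differentiable (by norm_num)) (x - y)).hasFDerivAt
  have h2 : HasFDerivAt (fun z : E n => x - z) (-(ContinuousLinearMap.id ℝ (E n))) y := by
    simpa using (hasFDerivAt_id y).const_sub x
  have h3 := h.comp y h2
  have he : -(fderiv ℝ ζ (x - y)) = fderiv ℝ ζ (x - y) ∘SL (-(ContinuousLinearMap.id ℝ (E n))) := by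
    ext u
    simp
  rw [he]
  exact h3

theorem Ker.contDiff_refl (k : Ker ζ τ) (x : E n) : ContDiff ℝ 1 (fun z => ζ (x - z)) :=
  (k.smooth.of_le (by norm_num)).comp (contDiff_const.sub contDiff_id)

end ker

section weak

variable {n : ℕ} {ζ : E n → ℝ} {τ : ℝ} {w : E n → ℝ} {W : E n → E n}

theorem avg_inner (k : Ker ζ τ) (hW : LocallyIntegrable W volume) (x u : E n) :
    ∫ y, ζ (x - y) * ⟪W y, u⟫_ℝ = ⟪M ζ W x, u⟫_ℝ := by
  have h := integral_inner (𝕜 := ℝ) (M_int k.smooth.continuous k.cpt hW x) u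
  rw [real_inner_comm]
  unfold M
  rw [← h]
  refine integral_congr_ae (Filter.Eventually.of_forall fun y => ?_)
  simp only
  rw [inner_smul_right, real_inner_comm]

theorem gradient_M (k : Ker ζ τ) (hw : LocallyIntegrable w volume)
    (hW : LocallyIntegrable W volume)
    (weak : ∀ φ : E n → ℝ, ContDiff ℝ 1 φ → HasCompactSupport φ → ∀ v : E n,
      ∫ x, w x * fderiv ℝ φ x v = - ∫ x, φ x * ⟪W x, v⟫_ℝ) (x : E n) :
    gradient (M ζ w) x = M ζ W x := by
  obtain ⟨D, hD, hu⟩ := M_hasFDerivAt k.smooth k.cpt hw x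
  refine ext_inner_right ℝ fun u => ?_
  rw [inner_gradient_left, hD.fderiv, hu u, ← avg_inner k hW x u]
  have h := weak _ (k.contDiff_refl x) (ker_cpt k.cpt x) u
  rw [← neg_eq_iff_eq_neg] at h
  rw [← h, ← integral_neg]
  refine integral_congr_ae (Filter.Eventually.of_forall fun y => ?_)
  simp only [(k.fderiv_refl x y).fderiv, neg_apply, smul_eq_mul]
  ring

theorem dvg_M (k : Ker ζ τ) (hW : LocallyIntegrable W volume) (x : E n) :
    dvg (M ζ W) x = ∫ y, fderiv ℝ ζ (x - y) (W y) := by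
  obtain ⟨D, hD, hu⟩ := M_hasFDerivAt k.smooth k.cpt hW x
  have hcd : Continuous (fun z => fderiv ℝ ζ z) := k.smooth.continuous_fderiv (by norm_num)
  have hint : ∀ u : E n, Integrable (fun y => (fderiv ℝ ζ (x - y) u) • W y) := by
    intro u
    refine M_int (ζ := fun z => fderiv ℝ ζ z u) (hcd.clm_apply continuous_const) ?_ hW x
    exact (k.cpt.fderiv ℝ).comp_left (g := fun L : E n →L[ℝ] ℝ => L u) (by simp)
  unfold dvg
  rw [hD.fderiv]
  have h1 : ∀ i : Fin n, (D (EuclideanSpace.single i 1)) i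
      = ∫ y, (fderiv ℝ ζ (x - y) (EuclideanSpace.single i 1)) * (W y) i := by
    intro i
    rw [hu]
    have := (EuclideanSpace.proj i : E n →L[ℝ] ℝ).integral_comp_comm
      (hint (EuclideanSpace.single i 1))
    simpa using this.symm
  simp_rw [h1]
  rw [← integral_finsetSum]
  · refine integral_congr_ae (Filter.Eventually.of_forall fun y => ?_)
    simp only
    have hy : W y = ∑ i : Fin n, (W y) i • (EuclideanSpace.single i (1 : ℝ) : E n) := by
      ext j
      simp [Finset.sum_apply, Pi.single_apply]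
    conv_rhs => rw [hy, map_sum]
    refine Finset.sum_congr rfl fun i _ => ?_
    rw [map_smul, smul_eq_mul, mul_comm]
  · intro i _
    have := (EuclideanSpace.proj i : E n →L[ℝ] ℝ).integrable_comp
      (hint (EuclideanSpace.single i 1))
    simpa using this

end weak


section key

variable {n : ℕ} {ζ : E n → ℝ} {τ : ℝ}

/-- The logarithmic gradient of the weight. -/
noncomputable def lg {n : ℕ} (ρ : E n → ℝ) (y : E n) : E n →L[ℝ] ℝ := (ρ y)⁻¹ • fderiv ℝ ρ y

theorem lg_cont {ρ : E n → ℝ} (hρ : ContDiff ℝ 2 ρ) (pos : ∀ x, 0 < ρ x) :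
    Continuous (lg ρ) :=
  (hρ.continuous.inv₀ fun x => (pos x).ne').smul (hρ.continuous_fderiv (by norm_num))

/-- The pointwise inequality. -/
theorem pointwise {ρ S : E n → ℝ} (h : IsWgt ρ S) {a η : ℝ} {p X : E n} (hp : ‖p‖ ≤ a)
    {x y : E n} (hη : ‖lg ρ y - lg ρ x‖ ≤ η) :
    ‖p‖ ^ 2 + (2 * ⟪X - p, p⟫_ℝ + lg ρ x (X - p)) ≤
      ‖X‖ ^ 2 + lg ρ y X + a * (S y / ρ y) + η ^ 2 / 4 := by
  have h1 : ‖X‖ ^ 2 = ‖p‖ ^ 2 + 2 * ⟪X - p, p⟫_ℝ + ‖X - p‖ ^ 2 := by
    have := norm_add_sq_real (X - p) p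
    rw [sub_add_cancel] at this
    rw [this]; ring
  have h2 : lg ρ y X = lg ρ y p + lg ρ x (X - p) + (lg ρ y - lg ρ x) (X - p) := by
    simp only [map_sub, sub_apply]
    ring
  have h3 : -(a * (S y / ρ y)) ≤ lg ρ y p := by
    have h4 : |lg ρ y p| ≤ ‖lg ρ y‖ * ‖p‖ := by
      simpa using (lg ρ y).le_opNorm p
    have h5 : ‖lg ρ y‖ ≤ S y / ρ y := by
      unfold lg
      rw [norm_smul, norm_inv, Real.norm_eq_abs, abs_of_pos (h.pos y), inv_mul_eq_div]
      exact div_le_div_of_nonneg_right (h.grad_le y) (h.pos y).le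
    have h6 : ‖lg ρ y‖ * ‖p‖ ≤ (S y / ρ y) * a :=
      mul_le_mul h5 hp (norm_nonneg _) ((norm_nonneg _).trans h5)
    have h7 := (abs_le.mp h4).1
    linarith [mul_comm a (S y / ρ y)]
  have h8 : -(η * ‖X - p‖) ≤ (lg ρ y - lg ρ x) (X - p) := by
    have h4 : |(lg ρ y - lg ρ x) (X - p)| ≤ ‖lg ρ y - lg ρ x‖ * ‖X - p‖ := by
      simpa using (lg ρ y - lg ρ x).le_opNorm (X - p)
    have h5 : ‖lg ρ y - lg ρ x‖ * ‖X - p‖ ≤ η * ‖X - p‖ :=
      mul_le_mul_of_nonneg_right hη (norm_nonneg _)
    have h7 := (abs_le.mp h4).1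
    linarith
  have h9 : 0 ≤ (‖X - p‖ - η / 2) ^ 2 := sq_nonneg _
  rw [h1, h2]
  nlinarith

theorem lg_int {ρ : E n → ℝ} (hρ : ContDiff ℝ 2 ρ) (pos : ∀ x, 0 < ρ x) {W : E n → E n}
    (k : Ker ζ τ) (hW : LocallyIntegrable W volume) (x : E n) :
    Integrable (fun y => ζ (x - y) * lg ρ y (W y)) := by
  have hc : HasCompactSupport (fun z => ζ z • lg ρ (x - z)) := k.cpt.smul_right
  have hcont : Continuous (fun z => ζ z • lg ρ (x - z)) :=
    k.smooth.continuous.smul ((lg_cont hρ pos).comp (continuous_const.sub continuous_id))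
  have h := (hc.convolutionExists_left (ContinuousLinearMap.id ℝ (E n →L[ℝ] ℝ)) hcont
    hW x).integrable_swap
  refine h.congr (Filter.Eventually.of_forall fun y => ?_)
  simp

/-- The differential inequality for the mollified supersolution. -/
theorem key {ρ S : E n → ℝ} (h : IsWgt ρ S) {κ A : ℝ} {w : E n → ℝ}
    {W : E n → E n} (hw : IsWeak ρ S κ A w W) (hW2 : LocallyIntegrable (fun y => ‖W y‖ ^ 2) volume)
    (k : Ker ζ τ) {a η m : ℝ} (haA : a ≤ A)
    {x : E n} (hp : ‖M ζ W x‖ ≤ a) (hη : ∀ y, dist x y < τ → ‖lg ρ y - lg ρ x‖ ≤ η)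
    (hm : ∀ y, dist x y < τ → m * ρ y ≤ S y) :
    (∫ y, fderiv ℝ ζ (x - y) (W y)) + ‖M ζ W x‖ ^ 2 ≤ κ + η ^ 2 / 4 - (A - a) * m := by
  have hρi : Continuous (fun y => (ρ y)⁻¹) := h.contDiff.continuous.inv₀ fun x => (h.pos x).ne'
  have hSρ : LocallyIntegrable (fun y => S y / ρ y) volume :=
    (h.cont.div h.contDiff.continuous fun x => (h.pos x).ne').locallyIntegrable
  set p := M ζ W x with hpdef
  set φ : E n → ℝ := fun y => ζ (x - y) * (ρ y)⁻¹ with hφdef
  have hφ1 : ContDiff ℝ 1 φ :=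
    (k.contDiff_refl x).mul ((h.contDiff.of_le (by norm_num)).inv fun y => (h.pos y).ne')
  have hφ2 : HasCompactSupport φ := (ker_cpt k.cpt x).mul_right
  have hφ3 : ∀ y, 0 ≤ φ y := fun y => mul_nonneg (k.nonneg _) (inv_nonneg.mpr (h.pos y).le)
  have hineq := hw.ineq φ hφ1 hφ2 hφ3
  have hd : ∀ y, ρ y * fderiv ℝ φ y (W y)
      = -(fderiv ℝ ζ (x - y) (W y)) - ζ (x - y) * lg ρ y (W y) := by
    intro y
    have d1 := k.fderiv_refl x y
    have d2 : HasFDerivAt (fun y => (ρ y)⁻¹) (-((ρ y) ^ 2)⁻¹ • fderiv ℝ ρ y) y := by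
      have := ((h.contDiff.differentiable (by norm_num)) y).hasFDerivAt
      exact (hasDerivAt_inv (h.pos y).ne').comp_hasFDerivAt y this
    have d3 := d1.mul d2
    rw [show fderiv ℝ φ y = _ from d3.fderiv]
    have hne := (h.pos y).ne'
    simp only [lg, add_apply, smul_apply,
      neg_apply, smul_eq_mul]
    field_simp
    ring
  have e1 : (∫ y, ρ y * ‖W y‖ ^ 2 * φ y) = ∫ y, ζ (x - y) * ‖W y‖ ^ 2 := by
    refine integral_congr_ae (Filter.Eventually.of_forall fun y => ?_)
    have hne := (h.pos y).ne'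
    simp only [hφdef]
    field_simp
  have e2 : (∫ y, S y * φ y) = ∫ y, ζ (x - y) * (S y / ρ y) := by
    refine integral_congr_ae (Filter.Eventually.of_forall fun y => ?_)
    have hne := (h.pos y).ne'
    simp only [hφdef]
    field_simp
  have e3 : (∫ y, ρ y * φ y) = 1 := by
    rw [← k.one_sub x]
    refine integral_congr_ae (Filter.Eventually.of_forall fun y => ?_)
    have hne := (h.pos y).ne'
    simp only [hφdef]
    field_simp
  have hcd : Continuous (fun z => fderiv ℝ ζ z) := k.smooth.continuous_fderiv (by norm_num)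
  have i1 : Integrable (fun y => fderiv ℝ ζ (x - y) (W y)) := by
    have := ((k.cpt.fderiv ℝ).convolutionExists_left
      (ContinuousLinearMap.id ℝ (E n →L[ℝ] ℝ)) hcd hw.locW x).integrable_swap
    simpa using this
  have i2 := lg_int h.contDiff h.pos k hw.locW x
  have e4 : (∫ y, ρ y * fderiv ℝ φ y (W y))
      = -(∫ y, fderiv ℝ ζ (x - y) (W y)) - ∫ y, ζ (x - y) * lg ρ y (W y) := by
    have i1n : Integrable (fun y => -(fderiv ℝ ζ (x - y) (W y))) := i1.neg
    rw [← integral_neg, ← integral_sub i1n i2]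
    exact integral_congr_ae (Filter.Eventually.of_forall hd)
  rw [e1, e2, e3, e4] at hineq
  -- the averaged pointwise inequality
  have hWp : LocallyIntegrable (fun y => W y - p) volume :=
    hw.locW.sub continuous_const.locallyIntegrable
  have hMp : M ζ (fun y => W y - p) x = 0 := by
    have : ∀ y, ζ (x - y) • (W y - p) = ζ (x - y) • W y - ζ (x - y) • p :=
      fun y => smul_sub _ _ _
    unfold M
    simp_rw [this]
    rw [integral_sub (M_int k.smooth.continuous k.cpt hw.locW x)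
      (M_int (f := fun _ => p) k.smooth.continuous k.cpt continuous_const.locallyIntegrable x)]
    rw [integral_smul_const, k.one_sub, one_smul]
    exact sub_self _
  have iWp := M_int k.smooth.continuous k.cpt hWp x
  have l1 : ∫ y, ζ (x - y) * ⟪W y - p, p⟫_ℝ = 0 := by
    rw [avg_inner k hWp x p, hMp, inner_zero_left]
  have l1i : Integrable (fun y => ζ (x - y) * ⟪W y - p, p⟫_ℝ) := by
    have := iWp.inner_const (𝕜 := ℝ) p
    refine this.congr (Filter.Eventually.of_forall fun y => ?_)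
    simp [inner_smul_left]
  have l2 : ∫ y, ζ (x - y) * lg ρ x (W y - p) = 0 := by
    have := (lg ρ x).integral_comp_comm iWp
    have h0 : ∫ y, ζ (x - y) • (W y - p) = 0 := hMp
    rw [h0, map_zero] at this
    rw [← this]
    refine integral_congr_ae (Filter.Eventually.of_forall fun y => ?_)
    simp only
    rw [map_smul, smul_eq_mul]
  have l2i : Integrable (fun y => ζ (x - y) * lg ρ x (W y - p)) := by
    have := (lg ρ x).integrable_comp iWp
    refine this.congr (Filter.Eventually.of_forall fun y => ?_)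
    simp only
    rw [map_smul, smul_eq_mul]
  have iS := k.int hSρ x
  have iW2 := k.int hW2 x
  have iζ : Integrable (fun y => ζ (x - y)) := by
    simpa using k.int (f := fun _ => (1 : ℝ)) continuous_const.locallyIntegrable x
  have hav : ∫ y, (ζ (x - y) * ‖p‖ ^ 2 + (2 * (ζ (x - y) * ⟪W y - p, p⟫_ℝ)
      + ζ (x - y) * lg ρ x (W y - p))) ≤
      ∫ y, (ζ (x - y) * ‖W y‖ ^ 2 + ζ (x - y) * lg ρ y (W y) + a * (ζ (x - y) * (S y / ρ y))
        + ζ (x - y) * (η ^ 2 / 4)) := by
    refine integral_mono (iadd (iζ.mul_const _) (iadd (l1i.const_mul 2) l2i))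
      (iadd (iadd (iadd iW2 i2) (iS.const_mul a)) (iζ.mul_const _)) fun y => ?_
    simp only
    by_cases h0 : ζ (x - y) = 0
    · simp [h0]
    · have h1 := mul_le_mul_of_nonneg_left
        (pointwise (X := W y) h hp (hη y (k.near h0))) (k.nonneg (x - y))
      nlinarith
  rw [integral_add (iζ.mul_const _) (iadd (l1i.const_mul 2) l2i),
    integral_add (l1i.const_mul 2) l2i,
    integral_add (iadd (iadd iW2 i2) (iS.const_mul a)) (iζ.mul_const _),
    integral_add (iadd iW2 i2) (iS.const_mul a), integral_add iW2 i2,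
    integral_const_mul, integral_const_mul, l1, l2, k.avg_const, k.avg_const] at hav
  have hSm : m ≤ ∫ y, ζ (x - y) * (S y / ρ y) := by
    refine k.le_avg hSρ x (Filter.Eventually.of_forall fun y hy => ?_)
    rw [le_div_iff₀ (h.pos y)]
    exact hm y hy
  have hfin := mul_le_mul_of_nonneg_left hSm (sub_nonneg.mpr haA)
  nlinarith

end key


theorem unif {n : ℕ} {X : Type*} [PseudoMetricSpace X] {f : E n → X} (hf : Continuous f)
    (L0 : ℝ) {ε : ℝ} (hε : 0 < ε) :
    ∃ δ > 0, ∀ x ∈ ball (0 : E n) L0, ∀ y, dist x y < δ → dist (f y) (f x) < ε := by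
  have hK : IsCompact (closedBall (0 : E n) (|L0| + 1)) := isCompact_closedBall _ _
  have hu := hK.uniformContinuousOn_of_continuous hf.continuousOn
  rw [Metric.uniformContinuousOn_iff] at hu
  obtain ⟨δ, hδ, h⟩ := hu ε hε
  refine ⟨min δ 1, lt_min hδ one_pos, fun x hx y hy => ?_⟩
  have hx' : ‖x‖ < L0 := mem_ball_zero_iff.mp hx
  have h1 : dist x y < 1 := hy.trans_le (min_le_right _ _)
  have h2 : dist y x < δ := by rw [dist_comm]; exact hy.trans_le (min_le_left _ _)
  refine h y ?_ x ?_ h2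
  · rw [mem_closedBall_zero_iff]
    have h3 : ‖y‖ ≤ ‖x‖ + ‖y - x‖ := by
      simpa using norm_add_le x (y - x)
    rw [← dist_eq_norm, dist_comm] at h3
    linarith [le_abs_self L0]
  · rw [mem_closedBall_zero_iff]
    linarith [le_abs_self L0]

theorem mollify {n : ℕ} (hn : 2 ≤ n) {ρ S : E n → ℝ} (h : IsWgt ρ S) {κ A : ℝ} {w : E n → ℝ}
    {W : E n → E n} (hw : IsWeak ρ S κ A w W) {a b L : ℝ} (ha : 0 ≤ a) (haA : a ≤ A) (hb : 0 ≤ b)
    (hgr : ∀ᵐ x, b * (‖x‖ - L) ≤ w x) :
    ∃ C0 : ℝ, ∀ (L0 θ : ℝ), 0 < θ → ∃ (v e : E n → ℝ),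
      ContDiff ℝ 2 v ∧ Continuous e ∧ (∀ x, ‖gradient v x‖ ^ 2 ≤ e x) ∧
      (∫ x in ball (0 : E n) L0, ρ x * e x) ≤ (1 + θ) * (∫ x, ρ x * ‖W x‖ ^ 2) ∧
      (∀ x, b * (‖x‖ - L) - θ ≤ v x) ∧
      (∃ x ∈ closedBall (0 : E n) 1, v x ≤ C0) ∧
      (∀ x ∈ ball (0 : E n) L0, ‖gradient v x‖ ≤ a → ∀ m : ℝ, (∀ y ∈ ball x θ, m * ρ y ≤ S y) →
        dvg (gradient v) x + ‖gradient v x‖ ^ 2 ≤ κ + θ - (A - a) * m) := by
  set B1 : ℝ := volume.real (closedBall (0 : E n) 1) with hB1
  have hB1pos : 0 < B1 := by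
    rw [hB1]
    exact ENNReal.toReal_pos (measure_closedBall_pos _ _ one_pos).ne' measure_closedBall_lt_top.ne
  set I2 : ℝ := ∫ x in closedBall (0 : E n) 2, |w x| with hI2
  refine ⟨I2 / B1 + 1, fun L0 θ hθ => ?_⟩
  have hρc : Continuous ρ := h.contDiff.continuous
  have hρi : Continuous (fun y => (ρ y)⁻¹) := hρc.inv₀ fun x => (h.pos x).ne'
  have hW2 : LocallyIntegrable (fun y => ‖W y‖ ^ 2) volume := by
    have h2 := (hw.int.locallyIntegrable).continuous_mul hρi
    have h3 : (fun y => ‖W y‖ ^ 2) = fun y => (ρ y)⁻¹ * (ρ y * ‖W y‖ ^ 2) := by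
      funext y
      rw [inv_mul_cancel_left₀ (h.pos y).ne']
    rw [h3]; exact h2
  have hsq : 0 < Real.sqrt θ := Real.sqrt_pos.mpr hθ
  obtain ⟨δ1, hδ1, hu1⟩ := unif (lg_cont h.contDiff h.pos) L0 hsq
  have hlogc : Continuous (fun y => Real.log (ρ y)) := hρc.log fun x => (h.pos x).ne'
  have hlog : 0 < Real.log (1 + θ) := Real.log_pos (by linarith)
  obtain ⟨δ2, hδ2, hu2⟩ := unif hlogc L0 hlog
  obtain ⟨τ, hτ, t1, t2, t3, t4, t5⟩ : ∃ τ : ℝ, 0 < τ ∧ τ ≤ δ1 ∧ τ ≤ δ2 ∧ τ ≤ 1 ∧ τ ≤ θ ∧
      b * τ ≤ θ := by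
    refine ⟨min (min δ1 δ2) (min (min 1 θ) (θ / (b + 1))), ?_, ?_, ?_, ?_, ?_, ?_⟩
    · have : 0 < θ / (b + 1) := by positivity
      exact lt_min (lt_min hδ1 hδ2) (lt_min (lt_min one_pos hθ) this)
    · exact (min_le_left _ _).trans (min_le_left _ _)
    · exact (min_le_left _ _).trans (min_le_right _ _)
    · exact (min_le_right _ _).trans ((min_le_left _ _).trans (min_le_left _ _))
    · exact (min_le_right _ _).trans ((min_le_left _ _).trans (min_le_right _ _))
    · have h1 : min (min δ1 δ2) (min (min 1 θ) (θ / (b + 1))) ≤ θ / (b + 1) :=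
        (min_le_right _ _).trans (min_le_right _ _)
      have h2 := mul_le_mul_of_nonneg_left h1 hb
      have h3 : b * (θ / (b + 1)) ≤ θ := by
        rw [← mul_div_assoc, div_le_iff₀ (by linarith)]
        nlinarith
      linarith
  obtain ⟨ζ, k⟩ := exists_ker n hτ
  have hgrad : gradient (M ζ w) = M ζ W :=
    funext fun x => gradient_M k hw.loc hw.locW hw.weak x
  refine ⟨M ζ w, M ζ (fun y => ‖W y‖ ^ 2), M_contDiff k.smooth k.cpt hw.loc,
    M_cont k.smooth.continuous k.cpt hW2, ?_, ?_, ?_, ?_, ?_⟩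
  · -- Jensen
    intro x
    rw [hgrad]
    set p := M ζ W x with hp
    have h1 := M_int k.smooth.continuous k.cpt hw.locW x
    have i1 : Integrable (fun y => ζ (x - y) * ⟪W y, p⟫_ℝ) := by
      have := h1.inner_const (𝕜 := ℝ) p
      refine this.congr (Filter.Eventually.of_forall fun y => ?_)
      simp [inner_smul_left]
    have iζ : Integrable (fun y => ζ (x - y)) := by
      simpa using k.int (f := fun _ => (1 : ℝ)) continuous_const.locallyIntegrable x
    have hle : ∫ y, (2 * (ζ (x - y) * ⟪W y, p⟫_ℝ) - ζ (x - y) * ‖p‖ ^ 2) ≤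
        ∫ y, ζ (x - y) * ‖W y‖ ^ 2 := by
      refine integral_mono ((i1.const_mul 2).sub (iζ.mul_const _)) (k.int hW2 x) fun y => ?_
      simp only
      have h2 := norm_sub_sq_real (W y) p
      have h3 := sq_nonneg ‖W y - p‖
      have h4 := mul_nonneg (k.nonneg (x - y)) h3
      rw [h2] at h4
      nlinarith
    rw [integral_sub (i1.const_mul 2) (iζ.mul_const _), integral_const_mul,
      avg_inner k hw.locW, k.avg_const, ← hp, real_inner_self_eq_norm_sq] at hle
    have : M ζ (fun y => ‖W y‖ ^ 2) x = ∫ y, ζ (x - y) * ‖W y‖ ^ 2 := rfl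
    rw [this]
    linarith
  · -- weighted energy
    have hg : Integrable (fun y => (1 + θ) * (ρ y * ‖W y‖ ^ 2)) := hw.int.const_mul _
    obtain ⟨hMi, hMt⟩ := M_total k.smooth.continuous k.cpt k.one hg
    have hle : ∀ x ∈ ball (0 : E n) L0, ρ x * M ζ (fun y => ‖W y‖ ^ 2) x ≤
        M ζ (fun y => (1 + θ) * (ρ y * ‖W y‖ ^ 2)) x := by
      intro x hx
      have e1 : ρ x * M ζ (fun y => ‖W y‖ ^ 2) x = ∫ y, ζ (x - y) * (ρ x * ‖W y‖ ^ 2) := by
        unfold M
        rw [← integral_const_mul]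
        refine integral_congr_ae (Filter.Eventually.of_forall fun y => ?_)
        simp only [smul_eq_mul]
        ring
      rw [e1]
      refine k.mono (hW2.continuous_mul continuous_const) hg.locallyIntegrable x
        (Filter.Eventually.of_forall fun y hy => ?_)
      have h1 := hu2 x hx y (hy.trans_le t2)
      rw [Real.dist_eq] at h1
      have h2 := (abs_lt.mp h1).1
      have h3 : Real.log (ρ x) < Real.log ((1 + θ) * ρ y) := by
        rw [Real.log_mul (by linarith) (h.pos y).ne']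
        linarith
      have h4 := (Real.log_lt_log_iff (h.pos x) (by have := h.pos y; positivity)).mp h3
      have h5 := mul_le_mul_of_nonneg_right h4.le (sq_nonneg ‖W y‖)
      linarith
    have hint1 : IntegrableOn (fun x => ρ x * M ζ (fun y => ‖W y‖ ^ 2) x) (ball (0 : E n) L0) :=
      (((hρc.mul (M_cont k.smooth.continuous k.cpt hW2)).continuousOn.integrableOn_compact
        (isCompact_closedBall (0 : E n) L0))).mono_set ball_subset_closedBall
    calc (∫ x in ball (0 : E n) L0, ρ x * M ζ (fun y => ‖W y‖ ^ 2) x)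
        ≤ ∫ x in ball (0 : E n) L0, M ζ (fun y => (1 + θ) * (ρ y * ‖W y‖ ^ 2)) x :=
          setIntegral_mono_on hint1 hMi.integrableOn measurableSet_ball hle
      _ ≤ ∫ x, M ζ (fun y => (1 + θ) * (ρ y * ‖W y‖ ^ 2)) x := by
          refine setIntegral_le_integral hMi (Filter.Eventually.of_forall fun x => ?_)
          refine integral_nonneg fun y => ?_
          have := (h.pos y).le
          have := k.nonneg (x - y)
          simp only [smul_eq_mul, Pi.zero_apply]
          positivity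
      _ = (1 + θ) * (∫ x, ρ x * ‖W x‖ ^ 2) := by rw [hMt, integral_const_mul]
  · -- lower bound
    intro x
    have : M ζ w x = ∫ y, ζ (x - y) * w y := rfl
    rw [this]
    refine k.le_avg hw.loc x ?_
    filter_upwards [hgr] with y hy hd
    have h3 : ‖x‖ ≤ ‖y‖ + dist x y := by
      rw [dist_eq_norm]; simpa using norm_add_le y (x - y)
    have h4 : b * (‖x‖ - L) - b * τ ≤ b * (‖y‖ - L) := by
      have := mul_le_mul_of_nonneg_left (show ‖x‖ - L - τ ≤ ‖y‖ - L by linarith) hb
      linarith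
    linarith
  · -- upper bound somewhere in the unit ball
    by_contra hcon
    push Not at hcon
    set g : E n → ℝ := (closedBall (0 : E n) 2).indicator (fun y => |w y|) with hg
    have hgi : Integrable g := by
      rw [hg, integrable_indicator_iff measurableSet_closedBall]
      exact (hw.loc.integrableOn_isCompact (isCompact_closedBall _ _)).abs
    obtain ⟨hMi, hMt⟩ := M_total k.smooth.continuous k.cpt k.one hgi
    have hgt : ∫ x, g x = I2 := by
      rw [hg, integral_indicator measurableSet_closedBall]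
    have hle : ∀ x ∈ closedBall (0 : E n) 1, I2 / B1 + 1 ≤ M ζ g x := by
      intro x hx
      refine (hcon x hx).le.trans ?_
      have : M ζ w x = ∫ y, ζ (x - y) * w y := rfl
      rw [this]
      refine k.mono hw.loc hgi.locallyIntegrable x (Filter.Eventually.of_forall fun y hy => ?_)
      have h1 : y ∈ closedBall (0 : E n) 2 := by
        rw [mem_closedBall_zero_iff] at hx ⊢
        have h3 : ‖y‖ ≤ ‖x‖ + ‖y - x‖ := by
          simpa using norm_add_le x (y - x)
        rw [← dist_eq_norm, dist_comm] at h3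
        linarith
      rw [hg, indicator_of_mem h1]
      exact le_abs_self _
    have h1 : (I2 / B1 + 1) * B1 ≤ I2 := by
      calc (I2 / B1 + 1) * B1 = ∫ x in closedBall (0 : E n) 1, (I2 / B1 + 1) := by
            rw [setIntegral_const, smul_eq_mul, mul_comm]
        _ ≤ ∫ x in closedBall (0 : E n) 1, M ζ g x :=
            setIntegral_mono_on (integrableOn_const measure_closedBall_lt_top.ne)
              hMi.integrableOn measurableSet_closedBall hle
        _ ≤ ∫ x, M ζ g x := by
            refine setIntegral_le_integral hMi (Filter.Eventually.of_forall fun x => ?_)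
            refine integral_nonneg fun y => ?_
            have h1 := k.nonneg (x - y)
            have h2 : 0 ≤ g y := indicator_nonneg (fun _ _ => abs_nonneg _) y
            simp only [smul_eq_mul, Pi.zero_apply]
            positivity
        _ = I2 := by rw [hMt, hgt]
    rw [add_mul, div_mul_cancel₀ _ hB1pos.ne', one_mul] at h1
    linarith
  · -- differential inequality
    intro x hx hxa m hm
    rw [hgrad] at hxa ⊢
    rw [dvg_M k hw.locW]
    have h1 := key h hw hW2 k haA hxa (η := Real.sqrt θ)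
      (fun y hy => by
        have := hu1 x hx y (hy.trans_le t1)
        rw [dist_eq_norm] at this
        exact this.le)
      (fun y hy => hm y (by rw [mem_ball, dist_comm]; exact hy.trans_le t4))
    rw [Real.sq_sqrt hθ.le] at h1
    linarith

end Pool.Agent.Helper876.LMol
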