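import Pool.Agent.Helper876_Robin.LWeak3
import Pool.Agent.Helper876_Robin.LMol
import Pool.Agent.Helper876_Robin.LGauss
import Pool.Agent.Helper876_Robin.LGrad
import Pool.Agent.Helper876_Robin.LCoer
import Pool.Agent.Helper876_Robin.LIbp
import Pool.Agent.Helper876_Robin.LCal
import Pool.Agent.Helper876_Robin.Iso

/-!
# Bounded open sets whose boundary has finite measure
-/

set_option autoImplicit false

open MeasureTheory Set Metric Filter Topology
open scoped ENNReal NNReal InnerProductSpace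

namespace Pool.Agent.Helper876.Rob

section

variable {n : ℕ} {Ω : Set (E n)} {σ : Measure (E n)} [IsFiniteMeasure σ]

theorem bdd_restrict {L : ℝ} (hL : Ω ⊆ closedBall 0 L) :
    (volume.restrict Ω) (closedBall (0 : E n) L)ᶜ = 0 := by
  rw [Measure.restrict_apply (measurableSet_closedBall.compl)]
  have : (closedBall (0 : E n) L)ᶜ ∩ Ω = ∅ := by
    ext x
    simp only [mem_inter_iff, mem_compl_iff, mem_empty_iff_false, iff_false, not_and, not_not]
    intro h1 h2
    exact h1 (hL h2)
  rw [this, measure_empty]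

/-- the smoothed weights -/
theorem wgt_cv (hn : 1 ≤ n) (hΩ : IsOpen Ω) (hne : Ω.Nonempty) (hb : Bornology.IsBounded Ω)
    (hG : HalfGG Ω σ) {L : ℝ} (hL : σ (closedBall 0 L)ᶜ = 0) {ε : ℝ} (hε : 0 < ε) :
    IsWgt (cv n ε (volume.restrict Ω)) (cv n ε σ) := by
  have hfin : IsFiniteMeasure (volume.restrict Ω) :=
    ⟨by rw [Measure.restrict_apply_univ]; exact hb.measure_lt_top⟩
  have hne0 : volume.restrict Ω ≠ 0 := by
    rw [Ne, Measure.restrict_eq_zero]
    exact (hΩ.measure_pos volume hne).ne'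
  obtain ⟨L', hL'⟩ := hb.subset_closedBall (0 : E n)
  refine ⟨LGauss.cv_C2 hε _, LGauss.cv_pos hε _ hne0, (LGauss.cv_C2 hε σ).continuous, ?_, ?_,
    LGrad.far hn hε Ω hΩ hb σ hG⟩
  · exact LGrad.grad_le hε Ω hΩ hb σ hG fun x v => (LGauss.cv_deriv hε _ x v).2
  · intro c
    have h1 := LGauss.cv_mom hε (volume.restrict Ω) (bdd_restrict hL') c
    have h2 := LGauss.cv_mom hε σ hL c
    refine (h1.add h2).congr (Eventually.of_forall fun x => ?_)
    simp only [Pi.add_apply]
    ring

theorem int_cv_vol (hb : Bornology.IsBounded Ω) {ε : ℝ} (hε : 0 < ε) :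
    Integrable (cv n ε (volume.restrict Ω)) ∧
      ∫ x, cv n ε (volume.restrict Ω) x = volume.real Ω := by
  have hfin : IsFiniteMeasure (volume.restrict Ω) :=
    ⟨by rw [Measure.restrict_apply_univ]; exact hb.measure_lt_top⟩
  have h1 := LGauss.cv_mass hε (volume.restrict Ω)
  refine ⟨h1.1, ?_⟩
  rw [h1.2, measureReal_restrict_apply_univ]

/-- the mass of the smoothed set outside the set -/
theorem out_mass (hΩ : IsOpen Ω) (hb : Bornology.IsBounded Ω) {ε : ℝ} (hε : 0 < ε) :
    ∫ x in Ωᶜ, cv n ε (volume.restrict Ω) x =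
      ∫ x in Ω, (1 - cv n ε (volume.restrict Ω) x) := by
  obtain ⟨h1, h2⟩ := int_cv_vol hb hε (Ω := Ω)
  have h3 := integral_add_compl hΩ.measurableSet h1
  rw [h2] at h3
  have h4 : IntegrableOn (fun _ : E n => (1:ℝ)) Ω := integrableOn_const hb.measure_lt_top.ne
  have h5 : ∫ x in Ω, (1 - cv n ε (volume.restrict Ω) x) =
      (∫ _ in Ω, (1:ℝ)) - ∫ x in Ω, cv n ε (volume.restrict Ω) x :=
    integral_sub h4 h1.integrableOn
  rw [h5, setIntegral_const]
  simp only [smul_eq_mul, mul_one]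
  linarith

/-- The perimeter is at most the total mass of `σ`. -/
theorem per_le' (hn : 1 ≤ n) (hΩ : IsOpen Ω) (hne : Ω.Nonempty) (hb : Bornology.IsBounded Ω)
    (hG : HalfGG Ω σ) {L : ℝ} (hL : σ (closedBall 0 L)ᶜ = 0) :
    Pool.Agent.Helper88.Weyl.perimeter Ω ≤ ENNReal.ofReal (σ.real univ) := by
  unfold Pool.Agent.Helper88.Weyl.perimeter
  refine iSup_le fun T => iSup_le fun hT => iSup_le fun hTc => iSup_le fun hT1 => ?_
  apply ENNReal.ofReal_le_ofReal
  have h2 : ∫ x in Ω, Pool.Agent.Helper88.Weyl.dvg T x = ∫ x in Ω, dvg T x := rfl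
  rw [h2]
  obtain ⟨C, hC⟩ := hT.lipschitzWith_of_hasCompactSupport hTc one_ne_zero
  have hdc := continuous_dvg' hT
  have hds : HasCompactSupport (dvg T) := by
    refine HasCompactSupport.mono' hTc ?_
    intro x hx
    by_contra hcon
    apply hx
    have h3 : T =ᶠ[𝓝 x] 0 := by
      rw [notMem_tsupport_iff_eventuallyEq] at hcon
      exact hcon
    have h4 : fderiv ℝ T x = 0 := by
      rw [h3.fderiv_eq]
      simp
    unfold dvg
    rw [h4]
    simp
  obtain ⟨M, hM⟩ := hdc.bounded_above_of_compact_support hds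
  have hM0 : 0 ≤ M := (norm_nonneg _).trans (hM 0)
  have hdi : Integrable (dvg T) := hdc.integrable_of_hasCompactSupport hds
  have key : ∀ ε : ℝ, 0 < ε → ∫ x in Ω, dvg T x ≤ σ.real univ +
      2 * M * ∫ x in Ω, (1 - cv n ε (volume.restrict Ω) x) := by
    intro ε hε
    have hW := wgt_cv hn hΩ hne hb hG hL hε
    set ρ := cv n ε (volume.restrict Ω) with hρ
    obtain ⟨i1, i2⟩ := LIbp.ibp_lip hW T C hC 1 hT1
    rw [(LGauss.cv_mass hε σ).2, one_mul] at i2
    obtain ⟨j1, -⟩ := int_cv_vol hb hε (Ω := Ω)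
    have e1 : ∫ x, ρ x * dvg T x = (∫ x in Ω, ρ x * dvg T x) + ∫ x in Ωᶜ, ρ x * dvg T x :=
      (integral_add_compl hΩ.measurableSet i1).symm
    have e2 : - (M * ∫ x in Ω, (1 - ρ x)) ≤ ∫ x in Ωᶜ, ρ x * dvg T x := by
      rw [← out_mass hΩ hb hε, ← integral_const_mul, ← integral_neg]
      refine setIntegral_mono_on (j1.const_mul M).neg.integrableOn i1.integrableOn
        hΩ.measurableSet.compl fun x _ => ?_
      have h3 := hM x
      rw [Real.norm_eq_abs] at h3
      have h4 := neg_abs_le (dvg T x)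
      have h5 : 0 ≤ ρ x := LGauss.cv_nonneg hε _ x
      have h6 : ρ x * (-M) ≤ ρ x * dvg T x := mul_le_mul_of_nonneg_left (by linarith) h5
      simp only [← hρ]
      linarith
    have e3 : (∫ x in Ω, dvg T x) - M * ∫ x in Ω, (1 - ρ x) ≤ ∫ x in Ω, ρ x * dvg T x := by
      have k1 : IntegrableOn (fun x => M * (1 - ρ x)) Ω := by
        have : IntegrableOn (fun _ : E n => (1:ℝ)) Ω := integrableOn_const hb.measure_lt_top.ne
        exact (this.sub j1.integrableOn).const_mul M
      rw [← integral_const_mul, ← integral_sub hdi.integrableOn k1]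
      refine setIntegral_mono_on (hdi.integrableOn.sub k1) i1.integrableOn
        hΩ.measurableSet fun x _ => ?_
      have h3 := hM x
      rw [Real.norm_eq_abs] at h3
      have h4 := le_abs_self (dvg T x)
      have h5 : ρ x ≤ 1 := LGauss.cv_le_one hε Ω hΩ.measurableSet x
      have h6 : (1 - ρ x) * dvg T x ≤ (1 - ρ x) * M :=
        mul_le_mul_of_nonneg_left (by linarith) (by linarith)
      linarith
    linarith
  have hlim := (LCoer.l1_lim Ω hΩ hb).const_mul (2 * M)
  have hlim2 := hlim.const_add (σ.real univ)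
  rw [mul_zero, add_zero] at hlim2
  refine ge_of_tendsto hlim2 ?_
  filter_upwards [self_mem_nhdsWithin] with ε hε
  exact key ε hε

end

end Pool.Agent.Helper876.Rob
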