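import Pool.Agent.Helper876_Robin.LDefs

set_option autoImplicit false

open MeasureTheory Set Metric Filter Topology
open scoped ENNReal NNReal InnerProductSpace

namespace Pool.Agent.Helper876.LCalc

open Pool.Agent.Helper876.Rob

variable {n : ℕ} {ρ S : E n → ℝ}

/-! ### auxiliary facts -/

/-- the integrand of `nd` -/
noncomputable def ig (ρ S : E n → ℝ) (u : E n → ℝ) (G : E n → E n) (v : E n → ℝ)
    (F : E n → E n) (x : E n) : ℝ :=
  (ρ x + S x) * (u x - v x) ^ 2 + ρ x * ‖G x - F x‖ ^ 2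

theorem nd_eq (u : E n → ℝ) (G : E n → E n) (v : E n → ℝ) (F : E n → E n) :
    nd ρ S u G v F = ∫⁻ x, ENNReal.ofReal (ig ρ S u G v F x) := rfl

theorem ig_nonneg (hρ0 : ∀ x, 0 < ρ x) (hS0 : ∀ x, 0 ≤ S x) (u : E n → ℝ) (G : E n → E n)
    (v : E n → ℝ) (F : E n → E n) (x : E n) : 0 ≤ ig ρ S u G v F x := by
  have h1 := hρ0 x
  have h2 := hS0 x
  unfold ig
  positivity

theorem ig_meas (hρ : Continuous ρ) (hS : Continuous S) {u v : E n → ℝ} {G F : E n → E n}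
    (hu : Measurable u) (hG : Measurable G) (hv : Measurable v) (hF : Measurable F) :
    Measurable (ig ρ S u G v F) := by
  have m1 := hρ.measurable
  have m2 := hS.measurable
  exact ((m1.add m2).mul ((hu.sub hv).pow_const 2)).add
    (m1.mul (((hG.sub hF).norm).pow_const 2))

theorem le2 {f g h : E n → ℝ} (hg : Measurable g) (g0 : ∀ x, 0 ≤ g x) (h0 : ∀ x, 0 ≤ h x)
    {c d : ℝ} (hc : 0 ≤ c) (hd : 0 ≤ d) (hle : ∀ x, f x ≤ c * g x + d * h x) :
    ∫⁻ x, ENNReal.ofReal (f x) ≤ ENNReal.ofReal c * (∫⁻ x, ENNReal.ofReal (g x)) +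
      ENNReal.ofReal d * ∫⁻ x, ENNReal.ofReal (h x) := by
  rw [← lintegral_const_mul' _ _ ENNReal.ofReal_ne_top,
    ← lintegral_const_mul' _ _ ENNReal.ofReal_ne_top,
    ← lintegral_add_left (hg.ennreal_ofReal.const_mul _)]
  refine lintegral_mono fun x => ?_
  rw [← ENNReal.ofReal_mul hc, ← ENNReal.ofReal_mul hd,
    ← ENNReal.ofReal_add (mul_nonneg hc (g0 x)) (mul_nonneg hd (h0 x))]
  exact ENNReal.ofReal_le_ofReal (hle x)

theorem tend2 {A B D : ℕ → ℝ≥0∞} {c d : ℝ} (hle : ∀ k, A k ≤ ENNReal.ofReal c * B k +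
    ENNReal.ofReal d * D k) (hB : Tendsto B atTop (𝓝 0)) (hD : Tendsto D atTop (𝓝 0)) :
    Tendsto A atTop (𝓝 0) := by
  have h1 : Tendsto (fun k => ENNReal.ofReal c * B k + ENNReal.ofReal d * D k) atTop
      (𝓝 (ENNReal.ofReal c * 0 + ENNReal.ofReal d * 0)) :=
    (ENNReal.Tendsto.const_mul hB (Or.inr ENNReal.ofReal_ne_top)).add
      (ENNReal.Tendsto.const_mul hD (Or.inr ENNReal.ofReal_ne_top))
  simp only [mul_zero, add_zero] at h1
  exact tendsto_of_tendsto_of_tendsto_of_le_of_le tendsto_const_nhds h1 (fun _ => zero_le) hle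

theorem sq_add_le (a b : ℝ) : (a + b) ^ 2 ≤ 2 * a ^ 2 + 2 * b ^ 2 := by
  nlinarith [sq_nonneg (a - b)]

theorem nsq_add_le (a b : E n) : ‖a + b‖ ^ 2 ≤ 2 * ‖a‖ ^ 2 + 2 * ‖b‖ ^ 2 := by
  have h1 := norm_add_le a b
  calc ‖a + b‖ ^ 2 ≤ (‖a‖ + ‖b‖) ^ 2 := by gcongr
    _ ≤ 2 * ‖a‖ ^ 2 + 2 * ‖b‖ ^ 2 := sq_add_le _ _

theorem nd_symm (u : E n → ℝ) (G : E n → E n) (v : E n → ℝ) (F : E n → E n) :
    nd ρ S u G v F = nd ρ S v F u G := by
  rw [nd_eq, nd_eq]
  refine lintegral_congr fun x => ?_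
  unfold ig
  rw [norm_sub_rev, sub_sq_comm]

theorem nd_tri (hρ : Continuous ρ) (hρ0 : ∀ x, 0 < ρ x) (hS : Continuous S) (hS0 : ∀ x, 0 ≤ S x)
    {u v w : E n → ℝ} {G F K : E n → E n} (hu : Measurable u) (hG : Measurable G)
    (hv : Measurable v) (hF : Measurable F) :
    nd ρ S u G w K ≤ ENNReal.ofReal 2 * nd ρ S u G v F + ENNReal.ofReal 2 * nd ρ S v F w K := by
  rw [nd_eq, nd_eq, nd_eq]
  refine le2 (ig_meas hρ hS hu hG hv hF) (ig_nonneg hρ0 hS0 _ _ _ _) (ig_nonneg hρ0 hS0 _ _ _ _)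
    zero_le_two zero_le_two fun x => ?_
  have h1 := hρ0 x
  have h2 := hS0 x
  have e1 := sq_add_le (u x - v x) (v x - w x)
  have e2 := nsq_add_le (G x - F x) (F x - K x)
  rw [sub_add_sub_cancel] at e1 e2
  unfold ig
  have e3 := mul_le_mul_of_nonneg_left e1 (show 0 ≤ ρ x + S x by positivity)
  have e4 := mul_le_mul_of_nonneg_left e2 h1.le
  linarith

theorem grad_norm (φ : E n → ℝ) (x : E n) : ‖gradient φ x‖ = ‖fderiv ℝ φ x‖ := by
  unfold gradient
  exact LinearIsometryEquiv.norm_map _ _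

theorem grad_cont {φ : E n → ℝ} (h : Tst φ) : Continuous (gradient φ) := by
  unfold gradient
  exact (InnerProductSpace.toDual ℝ (E n)).symm.continuous.comp
    (h.1.continuous_fderiv (by simp))

theorem tst_meas {φ : E n → ℝ} (h : Tst φ) : Measurable φ := h.1.continuous.measurable

theorem grad_meas {φ : E n → ℝ} (h : Tst φ) : Measurable (gradient φ) := (grad_cont h).measurable

theorem tst_diff {φ : E n → ℝ} (h : Tst φ) (x : E n) : DifferentiableAt ℝ φ x :=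
  h.1.differentiable (by simp) x

theorem grad_add {φ ψ : E n → ℝ} (h : Tst φ) (h' : Tst ψ) (x : E n) :
    gradient (fun y => φ y + ψ y) x = gradient φ x + gradient ψ x := by
  unfold gradient
  rw [fderiv_fun_add (tst_diff h x) (tst_diff h' x), map_add]

theorem tst_add {φ ψ : E n → ℝ} (h : Tst φ) (h' : Tst ψ) : Tst (fun y => φ y + ψ y) := by
  obtain ⟨C, hC⟩ := h.2
  obtain ⟨C', hC'⟩ := h'.2
  refine ⟨h.1.add h'.1, C + C', fun x => ⟨?_, ?_⟩⟩
  · exact (abs_add_le _ _).trans (add_le_add (hC x).1 (hC' x).1)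
  · rw [fderiv_fun_add (tst_diff h x) (tst_diff h' x)]
    exact (norm_add_le _ _).trans (add_le_add (hC x).2 (hC' x).2)

theorem fderiv_comp' {φ : E n → ℝ} (h : Tst φ) {F : ℝ → ℝ} (hF : ContDiff ℝ 1 F) (x : E n) :
    fderiv ℝ (fun y => F (φ y)) x = deriv F (φ x) • fderiv ℝ φ x := by
  have h1 : HasDerivAt F (deriv F (φ x)) (φ x) :=
    (hF.differentiable (by simp) (φ x)).hasDerivAt
  exact (h1.comp_hasFDerivAt x (tst_diff h x).hasFDerivAt).fderiv

theorem grad_comp {φ : E n → ℝ} (h : Tst φ) {F : ℝ → ℝ} (hF : ContDiff ℝ 1 F) (x : E n) :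
    gradient (fun y => F (φ y)) x = deriv F (φ x) • gradient φ x := by
  unfold gradient
  rw [fderiv_comp' h hF, map_smul]

theorem lip {F : ℝ → ℝ} (hF : ContDiff ℝ 1 F) {C : ℝ} (hC : ∀ t, |deriv F t| ≤ C) (s t : ℝ) :
    |F s - F t| ≤ C * |s - t| := by
  have := Convex.norm_image_sub_le_of_norm_deriv_le (f := F) (s := Set.univ) (x := t) (y := s)
    (fun x _ => hF.differentiable (by simp) x) (fun x _ => hC x) convex_univ
    (Set.mem_univ _) (Set.mem_univ _)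
  simpa using this

theorem tst_comp {φ : E n → ℝ} (h : Tst φ) {F : ℝ → ℝ} (hF : ContDiff ℝ 1 F) {C : ℝ}
    (hC : ∀ t, |deriv F t| ≤ C) : Tst (fun y => F (φ y)) := by
  obtain ⟨C', hC'⟩ := h.2
  have hC0 : 0 ≤ C := (abs_nonneg _).trans (hC 0)
  refine ⟨hF.comp h.1, max (|F 0| + C * C') (C * C'), fun x => ⟨?_, ?_⟩⟩
  · refine le_trans ?_ (le_max_left _ _)
    have h1 := lip hF hC (φ x) 0
    rw [sub_zero] at h1
    have h2 : |F (φ x)| ≤ |F 0| + |F (φ x) - F 0| := by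
      have := abs_add_le (F 0) (F (φ x) - F 0)
      rwa [add_sub_cancel] at this
    have h3 := mul_le_mul_of_nonneg_left (hC' x).1 hC0
    linarith
  · refine le_trans ?_ (le_max_right _ _)
    rw [fderiv_comp' h hF, norm_smul, Real.norm_eq_abs]
    exact mul_le_mul (hC _) (hC' x).2 (norm_nonneg _) hC0

theorem tst_mul {φ ψ : E n → ℝ} (h : Tst φ) (h' : Tst ψ) : Tst (fun y => φ y * ψ y) := by
  obtain ⟨C, hC⟩ := h.2
  obtain ⟨C', hC'⟩ := h'.2
  have hC0 : 0 ≤ C := (abs_nonneg _).trans (hC 0).1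
  have hC0' : 0 ≤ C' := (abs_nonneg _).trans (hC' 0).1
  refine ⟨h.1.mul h'.1, 2 * (C * C'), fun x => ⟨?_, ?_⟩⟩
  · rw [abs_mul]
    have := mul_le_mul (hC x).1 (hC' x).1 (abs_nonneg _) hC0
    nlinarith [mul_nonneg hC0 hC0']
  · rw [fderiv_fun_mul (tst_diff h x) (tst_diff h' x)]
    refine (norm_add_le _ _).trans ?_
    rw [norm_smul, norm_smul, Real.norm_eq_abs, Real.norm_eq_abs]
    have e1 := mul_le_mul (hC x).1 (hC' x).2 (norm_nonneg _) hC0
    have e2 := mul_le_mul (hC' x).1 (hC x).2 (norm_nonneg _) hC0'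
    linarith

theorem grad_mul {φ ψ : E n → ℝ} (h : Tst φ) (h' : Tst ψ) (x : E n) :
    gradient (fun y => φ y * ψ y) x = φ x • gradient ψ x + ψ x • gradient φ x := by
  unfold gradient
  rw [fderiv_fun_mul (tst_diff h x) (tst_diff h' x), map_add, map_smul, map_smul]

theorem tst_smul {φ : E n → ℝ} (h : Tst φ) (c : ℝ) : Tst (fun y => c * φ y) := by
  obtain ⟨C, hC⟩ := h.2
  refine ⟨contDiff_const.mul h.1, |c| * C, fun x => ⟨?_, ?_⟩⟩
  · rw [abs_mul]
    exact mul_le_mul_of_nonneg_left (hC x).1 (abs_nonneg _)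
  · rw [fderiv_const_mul (tst_diff h x), norm_smul, Real.norm_eq_abs]
    exact mul_le_mul_of_nonneg_left (hC x).2 (abs_nonneg _)

theorem grad_smul {φ : E n → ℝ} (h : Tst φ) (c : ℝ) (x : E n) :
    gradient (fun y => c * φ y) x = c • gradient φ x := by
  unfold gradient
  rw [fderiv_const_mul (tst_diff h x), map_smul]

/-- an almost everywhere convergent subsequence -/
theorem ae_subseq (hρ : Continuous ρ) (hρ0 : ∀ x, 0 < ρ x) (hS0 : ∀ x, 0 ≤ S x)
    {u : E n → ℝ} {G : E n → E n} (hu : Measurable u)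
    {φ : ℕ → E n → ℝ} (hφ : ∀ k, Tst (φ k))
    (hlim : Tendsto (fun k => nd ρ S (φ k) (gradient (φ k)) u G) atTop (𝓝 0)) :
    ∃ ns : ℕ → ℕ, StrictMono ns ∧ ∀ᵐ x, Tendsto (fun k => φ (ns k) x) atTop (𝓝 (u x)) := by
  have hm : ∀ k, Measurable (fun x => ρ x * (φ k x - u x) ^ 2) := fun k =>
    hρ.measurable.mul (((tst_meas (hφ k)).sub hu).pow_const 2)
  have h1 : Tendsto (fun k => eLpNorm ((fun x => ρ x * (φ k x - u x) ^ 2) - fun _ => (0 : ℝ)) 1
      (volume : Measure (E n))) atTop (𝓝 0) := by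
    refine tendsto_of_tendsto_of_tendsto_of_le_of_le tendsto_const_nhds hlim
      (fun _ => zero_le) fun k => ?_
    rw [eLpNorm_one_eq_lintegral_enorm, nd_eq]
    refine lintegral_mono fun x => ?_
    have e : ((fun y => ρ y * (φ k y - u y) ^ 2) - (fun _ => (0 : ℝ)) : E n → ℝ) x =
        ρ x * (φ k x - u x) ^ 2 := by simp
    rw [e, Real.enorm_of_nonneg (mul_nonneg (hρ0 x).le (sq_nonneg _))]
    refine ENNReal.ofReal_le_ofReal ?_
    unfold ig
    have a1 := hρ0 x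
    have a2 := hS0 x
    have a3 : 0 ≤ S x * (φ k x - u x) ^ 2 := by positivity
    have a4 : 0 ≤ ρ x * ‖gradient (φ k) x - G x‖ ^ 2 := by positivity
    linarith
  have h2 := tendstoInMeasure_of_tendsto_eLpNorm one_ne_zero
    (fun k => (hm k).aestronglyMeasurable) (aestronglyMeasurable_const) h1
  obtain ⟨ns, hns, hae⟩ := h2.exists_seq_tendsto_ae
  refine ⟨ns, hns, ?_⟩
  filter_upwards [hae] with x hx
  have hx2 : Tendsto (fun k => (φ (ns k) x - u x) ^ 2) atTop (𝓝 0) := by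
    have h3 := hx.const_mul (ρ x)⁻¹
    rw [mul_zero] at h3
    refine h3.congr fun k => ?_
    rw [← mul_assoc, inv_mul_cancel₀ (hρ0 x).ne', one_mul]
  have hx3 : Tendsto (fun k => |φ (ns k) x - u x|) atTop (𝓝 0) := by
    have h4 := (Real.continuous_sqrt.tendsto 0).comp hx2
    rw [Real.sqrt_zero] at h4
    refine h4.congr fun k => ?_
    exact Real.sqrt_sq_eq_abs _
  have hx4 := (tendsto_zero_iff_abs_tendsto_zero _).2 hx3
  have hx5 := hx4.add_const (u x)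
  rw [zero_add] at hx5
  exact hx5.congr fun k => by ring

/-! ### the calculus -/

theorem tst (hρ : Continuous ρ) (hS : Continuous S) {φ : E n → ℝ} (hφ : Tst φ) :
    InH ρ S φ (gradient φ) := by
  refine ⟨tst_meas hφ, grad_meas hφ, fun _ => φ, fun _ => hφ, ?_⟩
  have : nd ρ S φ (gradient φ) φ (gradient φ) = 0 := by
    unfold nd
    simp
  simp only [this]
  exact tendsto_const_nhds

theorem int1 (hρ : Continuous ρ) (hρ0 : ∀ x, 0 < ρ x) (hS : Continuous S) (hS0 : ∀ x, 0 ≤ S x)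
    (hint : Integrable (fun x => ρ x + S x)) {u : E n → ℝ} {G : E n → E n} (h : InH ρ S u G) :
    Integrable (fun x => (ρ x + S x) * u x ^ 2) ∧ Integrable (fun x => ρ x * ‖G x‖ ^ 2) := by
  obtain ⟨hu, hG, φ, hφ, hlim⟩ := h
  obtain ⟨k, hk⟩ := (hlim.eventually (gt_mem_nhds one_pos)).exists
  obtain ⟨C, hC⟩ := (hφ k).2
  have hfin : nd ρ S (φ k) (gradient (φ k)) u G ≠ ⊤ := (hk.trans ENNReal.one_lt_top).ne
  have hfin2 : ∫⁻ x, ENNReal.ofReal (ρ x + S x) ≠ ⊤ := by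
    have := hint.lintegral_lt_top
    exact this.ne
  have hm := ig_meas hρ hS (tst_meas (hφ k)) (grad_meas (hφ k)) hu hG
  have hn : ∀ x, 0 ≤ ρ x + S x := fun x => add_nonneg (hρ0 x).le (hS0 x)
  have key : ∀ f : E n → ℝ, Measurable f → (∀ x, 0 ≤ f x) →
      (∀ x, f x ≤ 2 * ig ρ S (φ k) (gradient (φ k)) u G x + 2 * C ^ 2 * (ρ x + S x)) →
      Integrable f := by
    intro f hf hf0 hfl
    have h1 := le2 hm (ig_nonneg hρ0 hS0 _ _ _ _) hn zero_le_two
      (show 0 ≤ 2 * C ^ 2 by positivity) hfl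
    have h2 : ∫⁻ x, ENNReal.ofReal (f x) ≠ ⊤ := by
      refine ne_top_of_le_ne_top ?_ h1
      exact ENNReal.add_ne_top.2 ⟨ENNReal.mul_ne_top ENNReal.ofReal_ne_top hfin,
        ENNReal.mul_ne_top ENNReal.ofReal_ne_top hfin2⟩
    exact (lintegral_ofReal_ne_top_iff_integrable hf.aestronglyMeasurable
      (Eventually.of_forall hf0)).1 h2
  constructor
  · refine key _ ((hρ.measurable.add hS.measurable).mul (hu.pow_const 2))
      (fun x => mul_nonneg (hn x) (sq_nonneg _)) fun x => ?_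
    have e1 := sq_add_le (u x - φ k x) (φ k x)
    rw [sub_add_cancel] at e1
    have e2 := mul_le_mul_of_nonneg_left e1 (hn x)
    have e3 : (φ k x) ^ 2 ≤ C ^ 2 := by
      rw [← sq_abs]
      exact pow_le_pow_left₀ (abs_nonneg _) (hC x).1 2
    have e4 := mul_le_mul_of_nonneg_left e3 (hn x)
    have e5 : 0 ≤ ρ x * ‖gradient (φ k) x - G x‖ ^ 2 := mul_nonneg (hρ0 x).le (sq_nonneg _)
    have e6 : (u x - φ k x) ^ 2 = (φ k x - u x) ^ 2 := by ring
    unfold ig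
    rw [e6] at e2
    nlinarith
  · refine key _ (hρ.measurable.mul (hG.norm.pow_const 2))
      (fun x => mul_nonneg (hρ0 x).le (sq_nonneg _)) fun x => ?_
    have e1 := nsq_add_le (G x - gradient (φ k) x) (gradient (φ k) x)
    rw [sub_add_cancel, norm_sub_rev] at e1
    have e2 := mul_le_mul_of_nonneg_left e1 (hρ0 x).le
    have e3 : ‖gradient (φ k) x‖ ^ 2 ≤ C ^ 2 := by
      rw [grad_norm]
      exact pow_le_pow_left₀ (norm_nonneg _) (hC x).2 2
    have e4 := mul_le_mul_of_nonneg_left e3 (hρ0 x).le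
    have e5 : 0 ≤ (ρ x + S x) * (φ k x - u x) ^ 2 := mul_nonneg (hn x) (sq_nonneg _)
    have e6 : 0 ≤ S x * C ^ 2 := mul_nonneg (hS0 x) (sq_nonneg _)
    unfold ig
    nlinarith

theorem of_lim (hρ : Continuous ρ) (hρ0 : ∀ x, 0 < ρ x) (hS : Continuous S) (hS0 : ∀ x, 0 ≤ S x)
    {u : E n → ℝ} {G : E n → E n} (hu : Measurable u) (hG : Measurable G)
    (v : ℕ → E n → ℝ) (F : ℕ → E n → E n) (h : ∀ k, InH ρ S (v k) (F k))
    (hlim : Tendsto (fun k => nd ρ S (v k) (F k) u G) atTop (𝓝 0)) : InH ρ S u G := by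
  have hc : ∀ k : ℕ, ∃ φ, Tst φ ∧ nd ρ S φ (gradient φ) (v k) (F k) < ENNReal.ofReal (1 / (k + 1)) := by
    intro k
    obtain ⟨-, -, φ, hφ, hl⟩ := h k
    have hp : (0 : ℝ≥0∞) < ENNReal.ofReal (1 / ((k : ℝ) + 1)) := ENNReal.ofReal_pos.2 (by positivity)
    obtain ⟨j, hj⟩ := (hl.eventually (gt_mem_nhds hp)).exists
    exact ⟨φ j, hφ j, hj⟩
  choose φ hφ hφn using hc
  refine ⟨hu, hG, φ, hφ, ?_⟩
  have hz : Tendsto (fun k => nd ρ S (φ k) (gradient (φ k)) (v k) (F k)) atTop (𝓝 0) := by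
    have h1 : Tendsto (fun k : ℕ => ENNReal.ofReal (1 / ((k : ℝ) + 1))) atTop (𝓝 0) := by
      have := ENNReal.tendsto_ofReal (tendsto_one_div_add_atTop_nhds_zero_nat (𝕜 := ℝ))
      rwa [ENNReal.ofReal_zero] at this
    exact tendsto_of_tendsto_of_tendsto_of_le_of_le tendsto_const_nhds h1 (fun _ => zero_le)
      fun k => (hφn k).le
  exact tend2 (c := 2) (d := 2) (fun k => nd_tri hρ hρ0 hS hS0 (tst_meas (hφ k)) (grad_meas (hφ k))
    (h k).1 (h k).2.1) hz hlim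

theorem add (hρ : Continuous ρ) (hρ0 : ∀ x, 0 < ρ x) (hS : Continuous S) (hS0 : ∀ x, 0 ≤ S x)
    {u v : E n → ℝ} {G F : E n → E n} (h : InH ρ S u G) (h' : InH ρ S v F) :
    InH ρ S (fun x => u x + v x) (fun x => G x + F x) := by
  obtain ⟨hu, hG, φ, hφ, hl⟩ := h
  obtain ⟨hv, hF, ψ, hψ, hl'⟩ := h'
  refine ⟨hu.add hv, hG.add hF, fun k x => φ k x + ψ k x, fun k => tst_add (hφ k) (hψ k), ?_⟩
  refine tend2 (c := 2) (d := 2) (fun k => ?_) hl hl'
  rw [nd_eq, nd_eq, nd_eq]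
  refine le2 (ig_meas hρ hS (tst_meas (hφ k)) (grad_meas (hφ k)) hu hG)
    (ig_nonneg hρ0 hS0 _ _ _ _) (ig_nonneg hρ0 hS0 _ _ _ _) zero_le_two zero_le_two fun x => ?_
  have h1 := hρ0 x
  have h2 := hS0 x
  have e1 := sq_add_le (φ k x - u x) (ψ k x - v x)
  have e2 := nsq_add_le (gradient (φ k) x - G x) (gradient (ψ k) x - F x)
  have e3 := mul_le_mul_of_nonneg_left e1 (show 0 ≤ ρ x + S x by positivity)
  have e4 := mul_le_mul_of_nonneg_left e2 h1.le
  unfold ig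
  rw [grad_add (hφ k) (hψ k), add_sub_add_comm, add_sub_add_comm]
  linarith

theorem smul (hρ : Continuous ρ) (hρ0 : ∀ x, 0 < ρ x) (hS : Continuous S) (hS0 : ∀ x, 0 ≤ S x)
    {u : E n → ℝ} {G : E n → E n} (h : InH ρ S u G) (c : ℝ) :
    InH ρ S (fun x => c * u x) (fun x => c • G x) := by
  obtain ⟨hu, hG, φ, hφ, hl⟩ := h
  refine ⟨hu.const_mul c, hG.const_smul c, fun k x => c * φ k x, fun k => tst_smul (hφ k) c, ?_⟩
  refine tend2 (c := c ^ 2) (d := 0) (fun k => ?_) hl hl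
  rw [nd_eq, nd_eq]
  refine le2 (ig_meas hρ hS (tst_meas (hφ k)) (grad_meas (hφ k)) hu hG)
    (ig_nonneg hρ0 hS0 _ _ _ _) (ig_nonneg hρ0 hS0 _ _ _ _) (sq_nonneg c) le_rfl fun x => ?_
  unfold ig
  rw [grad_smul (hφ k), ← mul_sub, ← smul_sub, norm_smul, mul_pow, mul_pow, Real.norm_eq_abs,
    sq_abs]
  exact le_of_eq (by ring)

theorem comp (hρ : Continuous ρ) (hρ0 : ∀ x, 0 < ρ x) (hS : Continuous S) (hS0 : ∀ x, 0 ≤ S x)
    (hint : Integrable (fun x => ρ x + S x)) {u : E n → ℝ} {G : E n → E n} (h : InH ρ S u G)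
    {F : ℝ → ℝ} (hF : ContDiff ℝ 1 F) {C : ℝ} (hC : ∀ t, |deriv F t| ≤ C) :
    InH ρ S (fun x => F (u x)) (fun x => deriv F (u x) • G x) := by
  have hI := (int1 hρ hρ0 hS hS0 hint h).2
  obtain ⟨hu, hG, φ, hφ, hl⟩ := h
  have hC0 : 0 ≤ C := (abs_nonneg _).trans (hC 0)
  have hdc : Continuous (deriv F) := hF.continuous_deriv (by simp)
  obtain ⟨ns, hns, hae⟩ := ae_subseq hρ hρ0 hS0 hu hφ hl
  refine ⟨hF.continuous.measurable.comp hu, (hdc.measurable.comp hu).smul hG,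
    fun k x => F (φ (ns k) x), fun k => tst_comp (hφ _) hF hC, ?_⟩
  have hl2 : Tendsto (fun k => nd ρ S (φ (ns k)) (gradient (φ (ns k))) u G) atTop (𝓝 0) :=
    hl.comp hns.tendsto_atTop
  have hdom : Tendsto (fun k => ∫⁻ x, ENNReal.ofReal
      (ρ x * (deriv F (φ (ns k) x) - deriv F (u x)) ^ 2 * ‖G x‖ ^ 2)) atTop (𝓝 0) := by
    have h0 : ∫⁻ _ : E n, (0 : ℝ≥0∞) = 0 := by simp
    rw [← h0]
    refine tendsto_lintegral_of_dominated_convergence
      (fun x => ENNReal.ofReal (4 * C ^ 2 * (ρ x * ‖G x‖ ^ 2))) (fun k => ?_) (fun k => ?_) ?_ ?_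
    · exact ((hρ.measurable.mul (((hdc.measurable.comp (tst_meas (hφ _))).sub
        (hdc.measurable.comp hu)).pow_const 2)).mul (hG.norm.pow_const 2)).ennreal_ofReal
    · refine Eventually.of_forall fun x => ENNReal.ofReal_le_ofReal ?_
      have e1 : (deriv F (φ (ns k) x) - deriv F (u x)) ^ 2 ≤ 4 * C ^ 2 := by
        have e2 : |deriv F (φ (ns k) x) - deriv F (u x)| ≤ 2 * C :=
          (abs_sub _ _).trans (by linarith [hC (φ (ns k) x), hC (u x)])
        rw [← sq_abs]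
        calc |deriv F (φ (ns k) x) - deriv F (u x)| ^ 2 ≤ (2 * C) ^ 2 :=
              pow_le_pow_left₀ (abs_nonneg _) e2 2
          _ = 4 * C ^ 2 := by ring
      have e3 : 0 ≤ ρ x * ‖G x‖ ^ 2 := mul_nonneg (hρ0 x).le (sq_nonneg _)
      have e4 := mul_le_mul_of_nonneg_left e1 e3
      linarith
    · exact ((hI.const_mul (4 * C ^ 2)).lintegral_lt_top).ne
    · filter_upwards [hae] with x hx
      have e1 : Tendsto (fun k => deriv F (φ (ns k) x)) atTop (𝓝 (deriv F (u x))) :=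
        (hdc.tendsto _).comp hx
      have e2 : Tendsto (fun k => ρ x * (deriv F (φ (ns k) x) - deriv F (u x)) ^ 2 * ‖G x‖ ^ 2)
          atTop (𝓝 (ρ x * (deriv F (u x) - deriv F (u x)) ^ 2 * ‖G x‖ ^ 2)) :=
        (((e1.sub_const _).pow 2).const_mul _).mul_const _
      have e3 := ENNReal.tendsto_ofReal e2
      simpa using e3
  refine tend2 (c := 2 * C ^ 2) (d := 2) (fun k => ?_) hl2 hdom
  rw [nd_eq, nd_eq]
  refine le2 (ig_meas hρ hS (tst_meas (hφ _)) (grad_meas (hφ _)) hu hG)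
    (ig_nonneg hρ0 hS0 _ _ _ _) (fun x => mul_nonneg (mul_nonneg (hρ0 x).le (sq_nonneg _))
      (sq_nonneg _)) (by positivity) zero_le_two fun x => ?_
  unfold ig
  rw [grad_comp (hφ _) hF]
  have hn : 0 ≤ ρ x + S x := add_nonneg (hρ0 x).le (hS0 x)
  have e1 : (F (φ (ns k) x) - F (u x)) ^ 2 ≤ C ^ 2 * (φ (ns k) x - u x) ^ 2 := by
    rw [← sq_abs, ← sq_abs (φ (ns k) x - u x), ← mul_pow]
    exact pow_le_pow_left₀ (abs_nonneg _) (lip hF hC _ _) 2
  have e2 : deriv F (φ (ns k) x) • gradient (φ (ns k)) x - deriv F (u x) • G x =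
      deriv F (φ (ns k) x) • (gradient (φ (ns k)) x - G x) +
      (deriv F (φ (ns k) x) - deriv F (u x)) • G x := by
    rw [smul_sub, sub_smul]
    abel
  have e3 := nsq_add_le (deriv F (φ (ns k) x) • (gradient (φ (ns k)) x - G x))
    ((deriv F (φ (ns k) x) - deriv F (u x)) • G x)
  rw [← e2, norm_smul, norm_smul, mul_pow, mul_pow, Real.norm_eq_abs, Real.norm_eq_abs, sq_abs,
    sq_abs] at e3
  have e4 : deriv F (φ (ns k) x) ^ 2 ≤ C ^ 2 := by
    rw [← sq_abs]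
    exact pow_le_pow_left₀ (abs_nonneg _) (hC _) 2
  have e5 := mul_le_mul_of_nonneg_left e1 hn
  have e6 := mul_le_mul_of_nonneg_left e3 (hρ0 x).le
  have e7 : deriv F (φ (ns k) x) ^ 2 * ‖gradient (φ (ns k)) x - G x‖ ^ 2 ≤
      C ^ 2 * ‖gradient (φ (ns k)) x - G x‖ ^ 2 := mul_le_mul_of_nonneg_right e4 (sq_nonneg _)
  have e8 := mul_le_mul_of_nonneg_left e7 (hρ0 x).le
  have e9 : 0 ≤ (ρ x + S x) * (C ^ 2 * (φ (ns k) x - u x) ^ 2) := by positivity
  nlinarith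

theorem mul (hρ : Continuous ρ) (hρ0 : ∀ x, 0 < ρ x) (hS : Continuous S) (hS0 : ∀ x, 0 ≤ S x)
    (hint : Integrable (fun x => ρ x + S x)) {u : E n → ℝ} {G : E n → E n} (h : InH ρ S u G)
    {φ : E n → ℝ} (hφ : Tst φ) :
    InH ρ S (fun x => φ x * u x) (fun x => φ x • G x + u x • gradient φ x) := by
  obtain ⟨hu, hG, ψ, hψ, hl⟩ := h
  obtain ⟨C, hC⟩ := hφ.2
  have hC0 : 0 ≤ C := (abs_nonneg _).trans (hC 0).1
  refine ⟨(tst_meas hφ).mul hu, ((tst_meas hφ).smul hG).add (hu.smul (grad_meas hφ)),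
    fun k x => φ x * ψ k x, fun k => tst_mul hφ (hψ k), ?_⟩
  refine tend2 (c := 3 * C ^ 2) (d := 0) (fun k => ?_) hl hl
  rw [nd_eq, nd_eq]
  refine le2 (ig_meas hρ hS (tst_meas (hψ k)) (grad_meas (hψ k)) hu hG)
    (ig_nonneg hρ0 hS0 _ _ _ _) (ig_nonneg hρ0 hS0 _ _ _ _) (by positivity) le_rfl fun x => ?_
  unfold ig
  rw [grad_mul hφ (hψ k)]
  have hn : 0 ≤ ρ x + S x := add_nonneg (hρ0 x).le (hS0 x)
  have e1 : φ x • gradient (ψ k) x + ψ k x • gradient φ x - (φ x • G x + u x • gradient φ x) =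
      φ x • (gradient (ψ k) x - G x) + (ψ k x - u x) • gradient φ x := by
    rw [smul_sub, sub_smul]
    abel
  have e2 := nsq_add_le (φ x • (gradient (ψ k) x - G x)) ((ψ k x - u x) • gradient φ x)
  rw [← e1, norm_smul, norm_smul, mul_pow, mul_pow, Real.norm_eq_abs, Real.norm_eq_abs, sq_abs,
    sq_abs] at e2
  have e3 : φ x ^ 2 ≤ C ^ 2 := by
    rw [← sq_abs]
    exact pow_le_pow_left₀ (abs_nonneg _) (hC x).1 2
  have e4 : ‖gradient φ x‖ ^ 2 ≤ C ^ 2 := by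
    rw [grad_norm]
    exact pow_le_pow_left₀ (norm_nonneg _) (hC x).2 2
  have e5 : (φ x * ψ k x - φ x * u x) ^ 2 ≤ C ^ 2 * (ψ k x - u x) ^ 2 := by
    rw [← mul_sub, mul_pow]
    exact mul_le_mul_of_nonneg_right e3 (sq_nonneg _)
  have e6 : φ x ^ 2 * ‖gradient (ψ k) x - G x‖ ^ 2 ≤ C ^ 2 * ‖gradient (ψ k) x - G x‖ ^ 2 :=
    mul_le_mul_of_nonneg_right e3 (sq_nonneg _)
  have e7 : (ψ k x - u x) ^ 2 * ‖gradient φ x‖ ^ 2 ≤ (ψ k x - u x) ^ 2 * C ^ 2 :=
    mul_le_mul_of_nonneg_left e4 (sq_nonneg _)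
  have f5 := mul_le_mul_of_nonneg_left e5 hn
  have f2 := mul_le_mul_of_nonneg_left e2 (hρ0 x).le
  have f6 := mul_le_mul_of_nonneg_left e6 (hρ0 x).le
  have f7 := mul_le_mul_of_nonneg_left e7 (hρ0 x).le
  have f8 : 0 ≤ S x * (C ^ 2 * (ψ k x - u x) ^ 2) := mul_nonneg (hS0 x) (by positivity)
  have f9 : 0 ≤ ρ x * (C ^ 2 * ‖gradient (ψ k) x - G x‖ ^ 2) := mul_nonneg (hρ0 x).le (by positivity)
  nlinarith

/-- the smoothed negative part -/
noncomputable def Fj (j : ℕ) (t : ℝ) : ℝ := (-t) * expNegInvGlue (-(((j : ℝ) + 1) * t))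

theorem Fj_cd (j : ℕ) : ContDiff ℝ 1 (Fj j) := by
  unfold Fj
  exact contDiff_neg.mul (expNegInvGlue.contDiff.comp (contDiff_const.mul contDiff_id).neg)

theorem glue_deriv (x : ℝ) : HasDerivAt expNegInvGlue (x⁻¹ ^ 2 * expNegInvGlue x) x := by
  have h := expNegInvGlue.hasDerivAt_polynomial_eval_inv_mul (1 : Polynomial ℝ) x
  simpa using h

theorem Fj_deriv_neg (j : ℕ) {t : ℝ} (ht : t < 0) :
    deriv (Fj j) t = -(Real.exp (-(((j : ℝ) + 1) * -t)⁻¹) * (1 + (((j : ℝ) + 1) * -t)⁻¹)) := by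
  have hJ : (0 : ℝ) < (j : ℝ) + 1 := by positivity
  have h1 : HasDerivAt (fun t : ℝ => -(((j : ℝ) + 1) * t)) (-((j : ℝ) + 1)) t := by
    have h := (hasDerivAt_id t).const_mul (-((j : ℝ) + 1))
    have e : (fun t : ℝ => -(((j : ℝ) + 1) * t)) = fun t => -((j : ℝ) + 1) * id t := by
      funext t
      simp only [id]
      ring
    rw [e]
    exact h.congr_deriv (mul_one _)
  have h2 := (glue_deriv (-(((j : ℝ) + 1) * t))).comp t h1
  have h3 := (hasDerivAt_neg t).mul h2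
  have h4 : deriv (Fj j) t = _ := h3.deriv
  rw [h4]
  have hpos : 0 < -(((j : ℝ) + 1) * t) := by nlinarith
  have e : expNegInvGlue (-(((j : ℝ) + 1) * t)) = Real.exp (-(-(((j : ℝ) + 1) * t))⁻¹) := by
    unfold expNegInvGlue
    rw [if_neg (not_le.2 hpos)]
  simp only [Function.comp_apply]
  rw [e]
  have e2 : ((j : ℝ) + 1) * -t = -(((j : ℝ) + 1) * t) := by ring
  rw [e2]
  have ht0 : t ≠ 0 := ht.ne
  field_simp
  ring

theorem Fj_deriv_nonneg (j : ℕ) {t : ℝ} (ht : 0 ≤ t) : deriv (Fj j) t = 0 := by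
  have hJ : (0 : ℝ) < (j : ℝ) + 1 := by positivity
  have h1 : HasDerivAt (fun t : ℝ => -(((j : ℝ) + 1) * t)) (-((j : ℝ) + 1)) t := by
    have h := (hasDerivAt_id t).const_mul (-((j : ℝ) + 1))
    have e : (fun t : ℝ => -(((j : ℝ) + 1) * t)) = fun t => -((j : ℝ) + 1) * id t := by
      funext t
      simp only [id]
      ring
    rw [e]
    exact h.congr_deriv (mul_one _)
  have h2 := (glue_deriv (-(((j : ℝ) + 1) * t))).comp t h1
  have h3 := (hasDerivAt_neg t).mul h2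
  have h4 : deriv (Fj j) t = _ := h3.deriv
  rw [h4]
  have e : expNegInvGlue (-(((j : ℝ) + 1) * t)) = 0 :=
    expNegInvGlue.zero_of_nonpos (by nlinarith [mul_nonneg hJ.le ht])
  simp only [Function.comp_apply]
  rw [e]
  simp

theorem one_add_exp {x : ℝ} (hx : 0 ≤ x) : 0 ≤ Real.exp (-x) * (1 + x) ∧
    Real.exp (-x) * (1 + x) ≤ 1 := by
  refine ⟨by positivity, ?_⟩
  have h1 := Real.add_one_le_exp x
  calc Real.exp (-x) * (1 + x) ≤ Real.exp (-x) * Real.exp x := by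
        gcongr
        linarith
    _ = 1 := by rw [← Real.exp_add]; simp

theorem Fj_bd (j : ℕ) (t : ℝ) : |deriv (Fj j) t| ≤ 1 := by
  rcases lt_or_ge t 0 with ht | ht
  · rw [Fj_deriv_neg j ht, abs_neg]
    have hx : 0 ≤ (((j : ℝ) + 1) * -t)⁻¹ := by
      have : 0 < -t := by linarith
      positivity
    obtain ⟨h1, h2⟩ := one_add_exp hx
    rw [abs_of_nonneg h1]
    exact h2
  · rw [Fj_deriv_nonneg j ht]
    simp

theorem Fj_close (j : ℕ) (t : ℝ) : |Fj j t - max (-t) 0| ≤ 1 / ((j : ℝ) + 1) := by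
  have hJ : (0 : ℝ) < (j : ℝ) + 1 := by positivity
  rcases lt_or_ge t 0 with ht | ht
  · have hpos : 0 < -(((j : ℝ) + 1) * t) := by nlinarith
    have e : expNegInvGlue (-(((j : ℝ) + 1) * t)) = Real.exp (-(-(((j : ℝ) + 1) * t))⁻¹) := by
      unfold expNegInvGlue
      rw [if_neg (not_le.2 hpos)]
    unfold Fj
    rw [e, max_eq_left (by linarith)]
    set x : ℝ := (-(((j : ℝ) + 1) * t))⁻¹ with hx
    have hx0 : 0 ≤ x := by positivity
    have h1 := Real.add_one_le_exp (-x)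
    have h2 : Real.exp (-x) ≤ 1 := Real.exp_le_one_iff.2 (by linarith)
    have h3 : -t * x = 1 / ((j : ℝ) + 1) := by
      rw [hx]
      have ht0 : t ≠ 0 := ht.ne
      field_simp
    rw [abs_le]
    constructor <;> nlinarith
  · have e : expNegInvGlue (-(((j : ℝ) + 1) * t)) = 0 :=
      expNegInvGlue.zero_of_nonpos (by nlinarith [mul_nonneg hJ.le ht])
    unfold Fj
    rw [e, max_eq_right (by linarith), mul_zero, sub_zero, abs_zero]
    positivity

theorem Fj_lim (t : ℝ) : Tendsto (fun j => deriv (Fj j) t) atTop (𝓝 (if t < 0 then -1 else 0)) := by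
  by_cases ht : t < 0
  · rw [if_pos ht]
    simp only [Fj_deriv_neg _ ht]
    have hx : Tendsto (fun j : ℕ => (((j : ℝ) + 1) * -t)⁻¹) atTop (𝓝 0) := by
      have h1 : Tendsto (fun j : ℕ => (j : ℝ) + 1) atTop atTop :=
        tendsto_atTop_add_const_right _ _ tendsto_natCast_atTop_atTop
      exact (h1.atTop_mul_const (by linarith : 0 < -t)).inv_tendsto_atTop
    have h2 : Tendsto (fun x : ℝ => -(Real.exp (-x) * (1 + x))) (𝓝 0) (𝓝 (-(Real.exp (-0) * (1 + 0)))) := by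
      have : Continuous fun x : ℝ => -(Real.exp (-x) * (1 + x)) := by fun_prop
      exact this.tendsto 0
    have h3 := h2.comp hx
    have e : -(Real.exp (-0) * (1 + 0)) = (-1 : ℝ) := by simp
    rw [e] at h3
    exact h3
  · rw [if_neg ht]
    simp only [Fj_deriv_nonneg _ (not_lt.1 ht)]
    exact tendsto_const_nhds

theorem neg_part (hρ : Continuous ρ) (hρ0 : ∀ x, 0 < ρ x) (hS : Continuous S)
    (hS0 : ∀ x, 0 ≤ S x) (hint : Integrable (fun x => ρ x + S x)) {u : E n → ℝ}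
    {G : E n → E n} (h : InH ρ S u G) :
    InH ρ S (fun x => max (-u x) 0) (fun x => if u x < 0 then -G x else 0) := by
  have hI := (int1 hρ hρ0 hS hS0 hint h).2
  have hu := h.1
  have hG := h.2.1
  have hmt : MeasurableSet {x | u x < 0} := measurableSet_lt hu measurable_const
  have hmG : Measurable (fun x => if u x < 0 then -G x else 0) :=
    Measurable.ite hmt hG.neg measurable_const
  have hmu : Measurable (fun x => max (-u x) 0) := hu.neg.max measurable_const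
  refine of_lim hρ hρ0 hS hS0 hmu hmG
    (fun j x => Fj j (u x)) (fun j x => deriv (Fj j) (u x) • G x)
    (fun j => comp hρ hρ0 hS hS0 hint h (Fj_cd j) (Fj_bd j)) ?_
  have hn : ∀ x, 0 ≤ ρ x + S x := fun x => add_nonneg (hρ0 x).le (hS0 x)
  have hval : ∀ x, (if u x < 0 then -G x else 0) = (if u x < 0 then (-1 : ℝ) else 0) • G x := by
    intro x
    split_ifs <;> simp
  have h0 : ∫⁻ _ : E n, (0 : ℝ≥0∞) = 0 := by simp
  rw [← h0]
  simp only [nd_eq]
  refine tendsto_lintegral_of_dominated_convergence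
    (fun x => ENNReal.ofReal ((ρ x + S x) + 4 * (ρ x * ‖G x‖ ^ 2))) (fun k => ?_) (fun k => ?_)
    ?_ ?_
  · exact (ig_meas hρ hS ((Fj_cd k).continuous.measurable.comp hu)
      ((((Fj_cd k).continuous_deriv (by simp)).measurable.comp hu).smul hG) hmu hmG).ennreal_ofReal
  · refine Eventually.of_forall fun x => ENNReal.ofReal_le_ofReal ?_
    show (ρ x + S x) * (Fj k (u x) - max (-u x) 0) ^ 2 +
      ρ x * ‖deriv (Fj k) (u x) • G x - (if u x < 0 then -G x else 0)‖ ^ 2 ≤ _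
    rw [hval, ← sub_smul, norm_smul, mul_pow, Real.norm_eq_abs, sq_abs]
    have e1 : (Fj k (u x) - max (-u x) 0) ^ 2 ≤ 1 := by
      have h1 := Fj_close k (u x)
      have h2 : (1 : ℝ) / ((k : ℝ) + 1) ≤ 1 := by
        rw [div_le_one (by positivity)]
        have : (0 : ℝ) ≤ k := by positivity
        linarith
      rw [← sq_abs]
      exact pow_le_one₀ (abs_nonneg _) (h1.trans h2)
    have e2 : (deriv (Fj k) (u x) - (if u x < 0 then (-1 : ℝ) else 0)) ^ 2 ≤ 4 := by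
      have h1 := Fj_bd k (u x)
      have h2 : |(if u x < 0 then (-1 : ℝ) else 0)| ≤ 1 := by split_ifs <;> simp
      have h3 : |deriv (Fj k) (u x) - (if u x < 0 then (-1 : ℝ) else 0)| ≤ 2 :=
        (abs_sub _ _).trans (by linarith)
      rw [← sq_abs]
      calc |deriv (Fj k) (u x) - (if u x < 0 then (-1 : ℝ) else 0)| ^ 2 ≤ 2 ^ 2 :=
            pow_le_pow_left₀ (abs_nonneg _) h3 2
        _ = 4 := by norm_num
    have e3 := mul_le_mul_of_nonneg_left e1 (hn x)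
    have e4 := mul_le_mul_of_nonneg_left e2 (mul_nonneg (hρ0 x).le (sq_nonneg ‖G x‖))
    nlinarith
  · exact ((hint.add (hI.const_mul 4)).lintegral_lt_top).ne
  · refine Eventually.of_forall fun x => ?_
    have l1 : Tendsto (fun j => Fj j (u x) - max (-u x) 0) atTop (𝓝 0) := by
      rw [tendsto_zero_iff_abs_tendsto_zero]
      exact tendsto_of_tendsto_of_tendsto_of_le_of_le tendsto_const_nhds
        (tendsto_one_div_add_atTop_nhds_zero_nat (𝕜 := ℝ)) (fun _ => abs_nonneg _)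
        fun j => Fj_close j (u x)
    have l2 : Tendsto (fun j => deriv (Fj j) (u x) - (if u x < 0 then (-1 : ℝ) else 0)) atTop
        (𝓝 0) := by
      have := (Fj_lim (u x)).sub_const (if u x < 0 then (-1 : ℝ) else 0)
      rwa [sub_self] at this
    have l3 : Tendsto (fun j => (ρ x + S x) * (Fj j (u x) - max (-u x) 0) ^ 2 +
        ρ x * ((deriv (Fj j) (u x) - (if u x < 0 then (-1 : ℝ) else 0)) ^ 2 * ‖G x‖ ^ 2)) atTop
        (𝓝 ((ρ x + S x) * 0 ^ 2 + ρ x * (0 ^ 2 * ‖G x‖ ^ 2))) :=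
      ((l1.pow 2).const_mul _).add (((l2.pow 2).mul_const _).const_mul _)
    have l4 := ENNReal.tendsto_ofReal l3
    have l5 : ENNReal.ofReal ((ρ x + S x) * 0 ^ 2 + ρ x * (0 ^ 2 * ‖G x‖ ^ 2)) = 0 := by simp
    rw [l5] at l4
    refine l4.congr fun j => ?_
    show _ = ENNReal.ofReal ((ρ x + S x) * (Fj j (u x) - max (-u x) 0) ^ 2 +
      ρ x * ‖deriv (Fj j) (u x) • G x - (if u x < 0 then -G x else 0)‖ ^ 2)
    rw [hval, ← sub_smul, norm_smul, mul_pow, Real.norm_eq_abs, sq_abs]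

end Pool.Agent.Helper876.LCalc
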