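import Pool.Agent.Helper876_Robin.Numeric

/-!
# The explicit range grows logarithmically with the dimension
-/

set_option autoImplicit false

open MeasureTheory Set Metric Filter Topology
open scoped ENNReal NNReal InnerProductSpace

namespace Pool.Agent.Helper876.Rob

variable {n : ℕ} {p : ℝ → ℝ}

theorem LL_log (hn : 2 ≤ n) {w : ℝ} (hw0 : 3 / 2 ≤ w) (hw : w ≤ 9 / 10 * Real.log n) :
    2 * w / ((n : ℝ) + 2) ≤ 1 ∧ LL n (2 * w / ((n : ℝ) + 2)) < Real.log n := by
  have hn0 : (2:ℝ) ≤ n := by exact_mod_cast hn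
  have h20 : Real.log 20 ≤ 3 := by
    rw [Real.log_le_iff_le_exp (by norm_num)]
    have h1 : Real.exp 3 = Real.exp 1 ^ 3 := by
      rw [← Real.exp_nat_mul]; norm_num
    have h2 := Real.exp_one_gt_d9
    rw [h1]
    calc (20:ℝ) ≤ 2.7182818283 ^ 3 := by norm_num
      _ ≤ Real.exp 1 ^ 3 := pow_le_pow_left₀ (by norm_num) h2.le 3
  have hlog : Real.log n ≤ n / 20 + 2 := by
    have h1 := Real.log_le_sub_one_of_pos (show (0:ℝ) < n / 20 by positivity)
    rw [Real.log_div (by positivity) (by norm_num)] at h1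
    linarith
  have hwn : w ≤ 9 / 200 * n + 9 / 5 := by linarith
  have hL : 5 / 3 ≤ Real.log n := by linarith
  have hn5 : (5:ℝ) < n := by
    by_contra hcon
    push Not at hcon
    have h1 : Real.log n ≤ Real.log 5 := Real.log_le_log (by positivity) hcon
    have h2 : Real.log 5 < 5 / 3 := by
      rw [Real.log_lt_iff_lt_exp (by norm_num)]
      have h3 : Real.exp (5 / 3) ^ 3 = Real.exp 1 ^ 5 := by
        rw [← Real.exp_nat_mul, ← Real.exp_nat_mul]
        norm_num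
      have h4 : (5:ℝ) ^ 3 < Real.exp (5 / 3) ^ 3 := by
        rw [h3]
        calc (5:ℝ) ^ 3 < 2.7182818283 ^ 5 := by norm_num
          _ ≤ Real.exp 1 ^ 5 := pow_le_pow_left₀ (by norm_num) Real.exp_one_gt_d9.le 5
      exact lt_of_pow_lt_pow_left₀ 3 (Real.exp_pos _).le h4
    linarith
  have hn6 : (6:ℝ) ≤ n := by
    have : 5 < n := by exact_mod_cast hn5
    exact_mod_cast this
  have hm : 0 < (n : ℝ) + 2 := by linarith
  refine ⟨by rw [div_le_one hm]; linarith, ?_⟩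
  have hwL : w * (10 / 9) ≤ Real.log n := by linarith
  refine lt_of_lt_of_le ?_ hwL
  unfold LL
  set m := (n : ℝ) + 2 with hmdef
  have hnm : (n : ℝ) = m - 2 := by rw [hmdef]; ring
  rw [hnm] at hwn ⊢
  have hm8 : 8 ≤ m := by linarith
  have e1 : (m - 2 - 1) * (2 * w / m / 2 + 3 * (2 * w / m) ^ 2 / 8 + (2 * w / m) ^ 3 / 8) =
      w * ((m - 3) * (m ^ 2 + 3 / 2 * (w * m) + w ^ 2)) / m ^ 3 := by
    field_simp
    ring
  rw [e1, div_lt_iff₀ (by positivity), mul_assoc]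
  apply mul_lt_mul_of_pos_left _ (by linarith)
  set U := 9 / 200 * m + 171 / 100 with hU
  have hwU : w ≤ U := by rw [hU]; linarith
  have hw00 : 0 ≤ w := by linarith
  have h1 : m ^ 2 + 3 / 2 * (w * m) + w ^ 2 ≤ m ^ 2 + 3 / 2 * (U * m) + U ^ 2 := by
    have h2 : w * m ≤ U * m := mul_le_mul_of_nonneg_right hwU (by linarith)
    have h3 : w ^ 2 ≤ U ^ 2 := pow_le_pow_left₀ hw00 hwU 2
    linarith
  calc (m - 3) * (m ^ 2 + 3 / 2 * (w * m) + w ^ 2)
      ≤ (m - 3) * (m ^ 2 + 3 / 2 * (U * m) + U ^ 2) :=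
        mul_le_mul_of_nonneg_left h1 (by linarith)
    _ < 10 / 9 * m ^ 3 := by
        rw [hU]
        have h2 : 0 ≤ m - 8 := by linarith
        have h3 : 0 ≤ (m - 8) ^ 2 := sq_nonneg _
        have h4 : 0 ≤ (m - 8) ^ 3 := by positivity
        nlinarith

/-- **Explicit range**: `x p(x) ≤ max (3/2) (9/10 log n)` implies `T(x) < 1`. -/
theorem Prof.TT_lt_log (hp : Prof n 1 p) (hn : 2 ≤ n) {x : ℝ} (hx0 : 0 < x)
    (hx : x * p x ≤ 3 / 2 ∨ x * p x ≤ 9 / 10 * Real.log n) : TT n 1 p x < 1 := by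
  rcases hx with hx | hx
  · exact hp.TT_lt hn hx0 hx
  rcases le_total (x * p x) (3 / 2) with h32 | h32
  · exact hp.TT_lt hn hx0 h32
  have hn0 : (2:ℝ) ≤ n := by exact_mod_cast hn
  have hmono : ∀ r ∈ Ioc 0 x, r * p r ≤ x * p x := by
    intro r hr
    have h1 : p r ≤ p x := hp.mono.monotoneOn (a := r) (b := x) hr.1.le hx0.le hr.2
    exact mul_le_mul hr.2 h1 (hp.pos r hr.1).le hx0.le
  obtain ⟨hs1, hs2⟩ := LL_log hn h32 hx
  have hss : ∀ r ∈ Ioc 0 x, ss n p r ≤ 2 * (x * p x) / ((n : ℝ) + 2) := by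
    intro r hr
    unfold ss
    apply div_le_div_of_nonneg_right _ (by positivity)
    linarith [hmono r hr]
  have h1 := hp.TT_le hn hx0 (fun r hr => (hss r hr).trans hs1)
  have h2 : LL n (ss n p x) < Real.log n := by
    refine lt_of_le_of_lt (LL_mono hn ?_ (hss x ⟨hx0, le_rfl⟩)) hs2
    have := hp.pos x hx0
    unfold ss
    positivity
  have h3 : Real.exp (LL n (ss n p x)) < n := by
    rwa [← Real.lt_log_iff_exp_lt (by positivity)]
  calc TT n 1 p x ≤ 1 / n * Real.exp (LL n (ss n p x)) := h1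
    _ < 1 / n * n := mul_lt_mul_of_pos_left h3 (by positivity)
    _ = 1 := by field_simp

end Pool.Agent.Helper876.Rob
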