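import Pool.Agent.Helper876_Robin.LVol
import Pool.Agent.Helper876_Robin.LLog
import Pool.Agent.Helper876_Robin.JEig

/-!
# The criterion in terms of the eigenfunction of the ball
-/

set_option autoImplicit false

open MeasureTheory Set Metric Filter Topology
open scoped ENNReal NNReal InnerProductSpace

namespace Pool.Agent.Helper876.Rob

theorem crit_TT {n : ℕ} (hn : 2 ≤ n) {R α κ : ℝ} {φ φ' : ℝ → ℝ} (hR : 0 < R)
    (hα : α < 0) (hφ : IsRadialEigenfunction n R α κ φ φ')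
    (hcrit : φ R * (κ * φ R - ((n : ℝ) - 1) / R * φ' R) - φ' R ^ 2 < κ * φ 0 ^ 2) {p₁ : ℝ → ℝ}
    (hP : ∀ κ : ℝ, 0 < κ → Prof n κ (fun r => Real.sqrt κ * p₁ (Real.sqrt κ * r))) :
    0 < κ ∧ Real.sqrt κ * p₁ (Real.sqrt κ * R) = -α ∧ TT n 1 p₁ (Real.sqrt κ * R) < 1 := by
  have hn0 : (2:ℝ) ≤ n := by exact_mod_cast hn
  obtain ⟨m, rfl⟩ : ∃ m, n = m + 2 := ⟨n - 2, by omega⟩
  have hφR := hφ.pos R ⟨hR.le, le_rfl⟩
  have hφ'R : 0 < φ' R := by rw [hφ.bc]; exact mul_pos (by linarith) hφR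
  -- bounds for `φ`
  obtain ⟨M, hM⟩ := isCompact_Icc.exists_bound_of_continuousOn hφ.cont
  -- `κ > 0`
  have hκ : 0 < κ := by
    by_contra hcon
    push Not at hcon
    have hanti : AntitoneOn (fun r => r ^ (m + 1) * φ' r) (Ioc 0 R) := by
      have hd : ∀ r ∈ Ioc 0 R, HasDerivAt (fun r => r ^ (m + 1) * φ' r) (κ * r ^ (m + 1) * φ r) r := by
        intro r hr
        have hr0 := hr.1
        have h1 := ((hasDerivAt_id r).fun_pow (m + 1)).fun_mul (hφ.ode r hr)
        refine h1.congr_deriv ?_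
        simp only [id]
        push_cast
        field_simp
        ring_nf
      apply antitoneOn_of_deriv_nonpos (convex_Ioc 0 R)
      · intro t ht
        exact (hd t ht).continuousAt.continuousWithinAt
      · intro t ht
        rw [interior_Ioc] at ht
        exact (hd t ⟨ht.1, ht.2.le⟩).differentiableAt.differentiableWithinAt
      · intro t ht
        rw [interior_Ioc] at ht
        rw [(hd t ⟨ht.1, ht.2.le⟩).deriv]
        have h1 := hφ.pos t ⟨ht.1.le, ht.2.le⟩
        have h2 := ht.1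
        have h3 : 0 ≤ t ^ (m + 1) * φ t := by positivity
        nlinarith
    have hlim : Tendsto (fun r : ℝ => r ^ (m + 1) * φ' r) (𝓝[>] 0) (𝓝 0) := by
      have h1 : Tendsto (fun r : ℝ => r ^ (m + 1)) (𝓝[>] 0) (𝓝 0) := by
        have := (continuous_pow (M := ℝ) (m + 1)).tendsto 0
        rw [zero_pow (Nat.succ_ne_zero m)] at this
        exact this.mono_left nhdsWithin_le_nhds
      simpa using h1.mul hφ.origin
    have h2 : R ^ (m + 1) * φ' R ≤ 0 := by
      apply ge_of_tendsto hlim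
      filter_upwards [self_mem_nhdsWithin, nhdsWithin_le_nhds (Iic_mem_nhds hR)] with r hr hrR
      exact hanti (show r ∈ Ioc 0 R from ⟨hr, hrR⟩) ⟨hR, le_rfl⟩ hrR
    have h3 : 0 < R ^ (m + 1) * φ' R := by positivity
    linarith
  have hp := hP κ hκ
  set p : ℝ → ℝ := fun r => Real.sqrt κ * p₁ (Real.sqrt κ * r) with hpdef
  -- the regular solution
  set u : ℝ → ℝ := fun r => Real.exp (∫ t in (0:ℝ)..r, p t) with hu
  have hud : ∀ r, HasDerivAt u (p r * u r) r := by
    intro r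
    have h1 : HasDerivAt (fun r => ∫ t in (0:ℝ)..r, p t) (p r) r :=
      intervalIntegral.integral_hasDerivAt_right (hp.cont.intervalIntegrable _ _)
        (hp.cont.stronglyMeasurableAtFilter _ _) hp.cont.continuousAt
    refine h1.exp.congr_deriv ?_
    rw [hu]
    ring
  have huc : Continuous u := by
    rw [continuous_iff_continuousAt]
    exact fun r => (hud r).continuousAt
  have hupos : ∀ r, 0 < u r := fun r => Real.exp_pos _
  -- the Wronskian
  set F : ℝ → ℝ := fun r => r ^ (m + 1) * (φ' r * u r - φ r * (p r * u r)) with hF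
  have hFd : ∀ r ∈ Ioc 0 R, HasDerivAt F 0 r := by
    intro r hr
    have hr0 := hr.1
    have h1 := ((hφ.ode r hr).fun_mul (hud r)).fun_sub
      ((hφ.deriv r hr).fun_mul ((hp.deriv r hr0).fun_mul (hud r)))
    have h2 := ((hasDerivAt_id r).fun_pow (m + 1)).fun_mul h1
    refine h2.congr_deriv ?_
    simp only [id]
    push_cast
    field_simp
    ring_nf
  have hFconst : ∀ r ∈ Ioc 0 R, F r = F R := by
    intro r hr
    rcases hr.2.eq_or_lt with h | h
    · rw [h]
    · have h3 : ∀ x ∈ Icc r R, HasDerivWithinAt F 0 (Icc r R) x := fun x hx =>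
        (hFd x ⟨hr.1.trans_le hx.1, hx.2⟩).hasDerivWithinAt
      have hc : ContinuousOn F (Icc r R) := fun x hx => (h3 x hx).continuousWithinAt
      have h4 := constant_of_has_deriv_right_zero hc (fun x hx =>
        (hFd x ⟨hr.1.trans_le hx.1, hx.2.le⟩).hasDerivWithinAt) R (right_mem_Icc.2 h.le)
      exact h4.symm
  have hφ0 : ContinuousWithinAt φ (Ioi 0) 0 := by
    have h1 := hφ.cont 0 (left_mem_Icc.2 hR.le)
    have h2 : ContinuousWithinAt φ (Ioc 0 R) 0 := h1.mono Ioc_subset_Icc_self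
    rwa [ContinuousWithinAt, nhdsWithin_Ioc_eq_nhdsGT hR] at h2
  have hF0 : Tendsto F (𝓝[>] 0) (𝓝 0) := by
    have h1 : Tendsto (fun r : ℝ => r ^ (m + 1)) (𝓝[>] 0) (𝓝 0) := by
      have := (continuous_pow (M := ℝ) (m + 1)).tendsto 0
      rw [zero_pow (Nat.succ_ne_zero m)] at this
      exact this.mono_left nhdsWithin_le_nhds
    have h2 : Tendsto u (𝓝[>] 0) (𝓝 (u 0)) := (huc.tendsto 0).mono_left nhdsWithin_le_nhds
    have h3 : Tendsto p (𝓝[>] 0) (𝓝 (p 0)) := (hp.cont.tendsto 0).mono_left nhdsWithin_le_nhds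
    have h4 := h1.mul ((hφ.origin.mul h2).sub (hφ0.tendsto.mul (h3.mul h2)))
    simpa using h4
  have hFR : F R = 0 := by
    have h1 : Tendsto F (𝓝[>] 0) (𝓝 (F R)) := by
      apply tendsto_const_nhds.congr'
      filter_upwards [self_mem_nhdsWithin, nhdsWithin_le_nhds (Iic_mem_nhds hR)] with r hr hrR
      exact (hFconst r ⟨hr, hrR⟩).symm
    exact tendsto_nhds_unique h1 hF0
  have hq : ∀ r ∈ Ioc 0 R, φ' r = p r * φ r := by
    intro r hr
    have h1 : F r = 0 := by rw [hFconst r hr, hFR]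
    rw [hF] at h1
    simp only at h1
    have h2 : r ^ (m + 1) * u r ≠ 0 := (mul_pos (pow_pos hr.1 _) (hupos r)).ne'
    have h3 : r ^ (m + 1) * u r * (φ' r - p r * φ r) = 0 := by
      rw [← h1]; ring
    have h4 := (mul_eq_zero.1 h3).resolve_left h2
    linarith
  -- `φ² = φ(0)² sqEig`
  have hsq : φ R ^ 2 = φ 0 ^ 2 * sqEig p R := by
    set G : ℝ → ℝ := fun r => φ r ^ 2 / sqEig p r with hG
    have hc : ContinuousOn G (Icc 0 R) :=
      (hφ.cont.pow 2).div hp.sqEig_cont.continuousOn fun r _ => (sqEig_pos r).ne'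
    have hGd : ∀ r ∈ Ioc 0 R, HasDerivAt G 0 r := by
      intro r hr
      have h1 := ((hφ.deriv r hr).fun_pow 2).fun_div (hp.sqEig_deriv r) (sqEig_pos r).ne'
      refine h1.congr_deriv ?_
      rw [hq r hr]
      simp only [Nat.cast_ofNat, Nat.add_one_sub_one, pow_one]
      have := (sqEig_pos (p := p) r).ne'
      field_simp
      ring
    have h1 : ∀ r ∈ Ioc 0 R, G r = G R := by
      intro r hr
      rcases hr.2.eq_or_lt with h | h
      · rw [h]
      · have h4 := constant_of_has_deriv_right_zero (hc.mono (Icc_subset_Icc_left hr.1.le))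
          (fun x hx => (hGd x ⟨hr.1.trans_le hx.1, hx.2.le⟩).hasDerivWithinAt) R
          (right_mem_Icc.2 h.le)
        exact h4.symm
    have h2 : G 0 = G R := by
      have h3 : Tendsto G (𝓝[>] 0) (𝓝 (G 0)) := by
        have h4 : ContinuousWithinAt G (Ioc 0 R) 0 :=
          (hc 0 (left_mem_Icc.2 hR.le)).mono Ioc_subset_Icc_self
        rwa [ContinuousWithinAt, nhdsWithin_Ioc_eq_nhdsGT hR] at h4
      have h5 : Tendsto G (𝓝[>] 0) (𝓝 (G R)) := by
        apply tendsto_const_nhds.congr'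
        filter_upwards [self_mem_nhdsWithin, nhdsWithin_le_nhds (Iic_mem_nhds hR)] with r hr hrR
        exact (h1 r ⟨hr, hrR⟩).symm
      exact tendsto_nhds_unique h3 h5
    rw [hG] at h2
    simp only [sqEig_zero, div_one] at h2
    have := (sqEig_pos (p := p) R).ne'
    rw [h2]
    field_simp
  have hqR := hq R ⟨hR, le_rfl⟩
  have hpR : p R = -α := by
    have h1 : p R * φ R = -α * φ R := by rw [← hqR, hφ.bc]
    exact mul_right_cancel₀ hφR.ne' h1
  refine ⟨hκ, hpR, ?_⟩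
  have h1 : TT (m + 2) κ p R < κ := by
    have h2 : φ 0 ^ 2 * TT (m + 2) κ p R < φ 0 ^ 2 * κ := by
      have h3 : φ 0 ^ 2 * TT (m + 2) κ p R =
          φ R * (κ * φ R - (((m + 2 : ℕ) : ℝ) - 1) / R * φ' R) - φ' R ^ 2 := by
        unfold TT dp
        rw [hqR]
        calc φ 0 ^ 2 * ((κ - p R ^ 2 - (((m + 2 : ℕ) : ℝ) - 1) / R * p R) * sqEig p R)
            = (κ - p R ^ 2 - (((m + 2 : ℕ) : ℝ) - 1) / R * p R) * (φ 0 ^ 2 * sqEig p R) := by ring
          _ = (κ - p R ^ 2 - (((m + 2 : ℕ) : ℝ) - 1) / R * p R) * φ R ^ 2 := by rw [← hsq]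
          _ = _ := by ring
      rw [h3]
      linarith
    have h4 := hφ.pos 0 (left_mem_Icc.2 hR.le)
    exact lt_of_mul_lt_mul_left h2 (by positivity)
  rw [hpdef, TT_scale hκ] at h1
  nlinarith


/-- **The volume constrained theorem.** -/
theorem vol_final {n : ℕ} (hn : 2 ≤ n) {R α : ℝ} (hR : 0 < R) (hα : α < 0)
    (h : -α * R ≤ 3 / 2 ∨ -α * R ≤ 9 / 10 * Real.log n ∨ ∃ (κ : ℝ) (φ φ' : ℝ → ℝ), IsRadialEigenfunction n R α κ φ φ' ∧
      φ R * (κ * φ R - ((n : ℝ) - 1) / R * φ' R) - φ' R ^ 2 < κ * φ 0 ^ 2)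
    {Ω : Set (E n)} (hΩ : IsOpen Ω) (hb : Bornology.IsBounded Ω)
    (hfin : surf n (frontier Ω) < ⊤) (hvol : volume Ω = volume (ball (0 : E n) R)) :
    lam1 Ω α ≤ lam1 (ball (0 : E n) R) α ∧
      (lam1 Ω α = lam1 (ball (0 : E n) R) α → interior (closure Ω) = Ω →
        ∃ c : E n, Ω = ball c R) := by
  obtain ⟨p, hpc, hP⟩ := prof_exists n hn
  have hp1 : Prof n 1 p := by simpa using hP 1 one_pos
  have hlow : -α * R ≤ 3 / 2 ∨ -α * R ≤ 9 / 10 * Real.log n →
      lam1 Ω α ≤ lam1 (ball (0 : E n) R) α ∧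
      (lam1 Ω α = lam1 (ball (0 : E n) R) α → interior (closure Ω) = Ω →
        ∃ c : E n, Ω = ball c R) := by
    intro h
    obtain ⟨κ, hκ, hκ'⟩ := exists_kappa hn hp1 hR (show 0 < -α by linarith)
    refine vol_main hn hpc hP hR hκ hκ' ?_ hΩ hb hfin hvol
    have hsκ : 0 < Real.sqrt κ := Real.sqrt_pos.2 hκ
    apply hp1.TT_lt_log hn (by positivity)
    have h1 : Real.sqrt κ * R * p (Real.sqrt κ * R) = -α * R := by
      rw [← hκ']; ring
    rw [h1]
    exact h
  rcases h with h | h | ⟨κ, φ, φ', hφ, hcrit⟩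
  · exact hlow (Or.inl h)
  · exact hlow (Or.inr h)
  · obtain ⟨hκ, hκ', hT⟩ := crit_TT hn hR hα hφ hcrit hP
    exact vol_main hn hpc hP hR hκ hκ' hT hΩ hb hfin hvol

end Pool.Agent.Helper876.Rob
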