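import Mathlib

set_option autoImplicit false

open MeasureTheory Set Metric Filter Topology
open scoped ENNReal NNReal InnerProductSpace

namespace Pool.Agent.Helper876.LLipG

theorem graph_cont {n : ℕ} (e : EuclideanSpace ℝ (Fin n)) {K : ℝ≥0}
    {g : EuclideanSpace ℝ (Fin n) → ℝ} (hg : LipschitzWith K g) :
    Continuous (fun y : EuclideanSpace ℝ (Fin n) => g (y - ⟪y, e⟫_ℝ • e)) := by
  have h1 : Continuous (fun y : EuclideanSpace ℝ (Fin n) => y - ⟪y, e⟫_ℝ • e) := by fun_prop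
  exact hg.continuous.comp h1

theorem inner_cont {n : ℕ} (e : EuclideanSpace ℝ (Fin n)) :
    Continuous (fun y : EuclideanSpace ℝ (Fin n) => ⟪y, e⟫_ℝ) := by fun_prop

/-- on the frontier the graph equation holds -/
theorem graph_eq {n : ℕ} (Ω : Set (EuclideanSpace ℝ (Fin n))) (x : EuclideanSpace ℝ (Fin n))
    (r : ℝ) (e : EuclideanSpace ℝ (Fin n)) (K : ℝ≥0) (g : EuclideanSpace ℝ (Fin n) → ℝ)
    (hg : LipschitzWith K g)
    (h : ∀ y ∈ ball x r, (y ∈ Ω ↔ ⟪y, e⟫_ℝ < g (y - ⟪y, e⟫_ℝ • e)))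
    (y : EuclideanSpace ℝ (Fin n)) (hy : y ∈ frontier Ω) (hyr : y ∈ ball x r) :
    ⟪y, e⟫_ℝ = g (y - ⟪y, e⟫_ℝ • e) := by
  rcases lt_trichotomy ⟪y, e⟫_ℝ (g (y - ⟪y, e⟫_ℝ • e)) with h1 | h1 | h1
  · exfalso
    have hopen : IsOpen (ball x r ∩ {z : EuclideanSpace ℝ (Fin n) |
        ⟪z, e⟫_ℝ < g (z - ⟪z, e⟫_ℝ • e)}) :=
      isOpen_ball.inter (isOpen_lt (inner_cont e) (graph_cont e hg))
    have hsub : (ball x r ∩ {z : EuclideanSpace ℝ (Fin n) |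
        ⟪z, e⟫_ℝ < g (z - ⟪z, e⟫_ℝ • e)}) ⊆ Ω := fun z hz => (h z hz.1).2 hz.2
    exact hy.2 (interior_maximal hsub hopen ⟨hyr, h1⟩)
  · exact h1
  · exfalso
    have hopen : IsOpen (ball x r ∩ {z : EuclideanSpace ℝ (Fin n) |
        g (z - ⟪z, e⟫_ℝ • e) < ⟪z, e⟫_ℝ}) :=
      isOpen_ball.inter (isOpen_lt (graph_cont e hg) (inner_cont e))
    obtain ⟨z, hz, hzΩ⟩ := mem_closure_iff.1 hy.1 _ hopen ⟨hyr, h1⟩
    exact absurd ((h z hz.1).1 hzΩ) (not_lt.2 (le_of_lt hz.2))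

/-- a bounded piece of a Lipschitz graph has finite measure -/
theorem graph_fin (n : ℕ) (hn : 1 ≤ n) (e : EuclideanSpace ℝ (Fin n)) (he : ‖e‖ = 1) (K : ℝ≥0)
    (g : EuclideanSpace ℝ (Fin n) → ℝ) (hg : LipschitzWith K g) (ρ : ℝ) :
    (μHE[n - 1] : Measure (EuclideanSpace ℝ (Fin n)))
      {y | ⟪y, e⟫_ℝ = g (y - ⟪y, e⟫_ℝ • e) ∧ ‖y‖ ≤ ρ} < ⊤ := by
  classical
  have hfr : Module.finrank ℝ ((ℝ ∙ e)ᗮ : Submodule ℝ (EuclideanSpace ℝ (Fin n))) = n - 1 := by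
    have : Fact (Module.finrank ℝ (EuclideanSpace ℝ (Fin n)) = (n - 1) + 1) :=
      ⟨by rw [finrank_euclideanSpace_fin]; omega⟩
    refine Submodule.finrank_orthogonal_span_singleton (n := n - 1) ?_
    intro h0
    rw [h0, norm_zero] at he
    exact zero_ne_one he
  let b := (stdOrthonormalBasis ℝ ((ℝ ∙ e)ᗮ : Submodule ℝ (EuclideanSpace ℝ (Fin n)))).reindex
    (finCongr hfr)
  let L := b.repr.symm
  let Φ : EuclideanSpace ℝ (Fin (n - 1)) → EuclideanSpace ℝ (Fin n) := fun z =>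
    ((L z : ((ℝ ∙ e)ᗮ : Submodule ℝ (EuclideanSpace ℝ (Fin n)))) : EuclideanSpace ℝ (Fin n)) +
      g ((L z : ((ℝ ∙ e)ᗮ : Submodule ℝ (EuclideanSpace ℝ (Fin n)))) :
        EuclideanSpace ℝ (Fin n)) • e
  have hΦ : LipschitzWith (1 + K) Φ := by
    apply LipschitzWith.of_dist_le_mul
    intro z w
    have h1 : dist ((L z : ((ℝ ∙ e)ᗮ : Submodule ℝ (EuclideanSpace ℝ (Fin n)))) :
        EuclideanSpace ℝ (Fin n)) ((L w : ((ℝ ∙ e)ᗮ : Submodule ℝ (EuclideanSpace ℝ (Fin n)))) :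
        EuclideanSpace ℝ (Fin n)) = dist z w := by
      rw [← L.dist_map z w]; rfl
    have h2 := hg.dist_le_mul ((L z : ((ℝ ∙ e)ᗮ : Submodule ℝ (EuclideanSpace ℝ (Fin n)))) :
        EuclideanSpace ℝ (Fin n)) ((L w : ((ℝ ∙ e)ᗮ : Submodule ℝ (EuclideanSpace ℝ (Fin n)))) :
        EuclideanSpace ℝ (Fin n))
    rw [h1] at h2
    calc dist (Φ z) (Φ w) ≤ dist ((L z : ((ℝ ∙ e)ᗮ : Submodule ℝ (EuclideanSpace ℝ (Fin n)))) :
        EuclideanSpace ℝ (Fin n)) ((L w : ((ℝ ∙ e)ᗮ : Submodule ℝ (EuclideanSpace ℝ (Fin n)))) :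
        EuclideanSpace ℝ (Fin n)) + dist
          (g ((L z : ((ℝ ∙ e)ᗮ : Submodule ℝ (EuclideanSpace ℝ (Fin n)))) :
        EuclideanSpace ℝ (Fin n)) • e) (g ((L w : ((ℝ ∙ e)ᗮ :
          Submodule ℝ (EuclideanSpace ℝ (Fin n)))) : EuclideanSpace ℝ (Fin n)) • e) :=
          dist_add_add_le _ _ _ _
      _ ≤ dist z w + K * dist z w := by
          rw [h1]
          gcongr
          rw [dist_eq_norm, ← sub_smul, norm_smul, he, mul_one, ← dist_eq_norm]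
          exact h2
      _ = ((1 + K : ℝ≥0) : ℝ) * dist z w := by push_cast; ring
  have hsub : {y : EuclideanSpace ℝ (Fin n) | ⟪y, e⟫_ℝ = g (y - ⟪y, e⟫_ℝ • e) ∧ ‖y‖ ≤ ρ} ⊆
      Φ '' (closedBall 0 (2 * ρ)) := by
    rintro y ⟨hy, hyρ⟩
    have hmem : y - ⟪y, e⟫_ℝ • e ∈ ((ℝ ∙ e)ᗮ : Submodule ℝ (EuclideanSpace ℝ (Fin n))) := by
      rw [Submodule.mem_orthogonal_singleton_iff_inner_left, inner_sub_left, inner_smul_left,
        real_inner_self_eq_norm_sq, he]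
      simp
    refine ⟨b.repr ⟨y - ⟪y, e⟫_ℝ • e, hmem⟩, ?_, ?_⟩
    · rw [mem_closedBall_zero_iff, LinearIsometryEquiv.norm_map]
      have h3 : ‖y - ⟪y, e⟫_ℝ • e‖ ≤ ‖y‖ + ‖y‖ := by
        refine (norm_sub_le _ _).trans ?_
        rw [norm_smul, he, mul_one]
        have h4 := norm_inner_le_norm (𝕜 := ℝ) y e
        rw [he, mul_one] at h4
        linarith
      calc ‖(⟨y - ⟪y, e⟫_ℝ • e, hmem⟩ : ((ℝ ∙ e)ᗮ : Submodule ℝ (EuclideanSpace ℝ (Fin n))))‖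
          = ‖y - ⟪y, e⟫_ℝ • e‖ := rfl
        _ ≤ 2 * ρ := by linarith
    · show ((L _ : ((ℝ ∙ e)ᗮ : Submodule ℝ (EuclideanSpace ℝ (Fin n)))) :
        EuclideanSpace ℝ (Fin n)) + g ((L _ : ((ℝ ∙ e)ᗮ :
          Submodule ℝ (EuclideanSpace ℝ (Fin n)))) : EuclideanSpace ℝ (Fin n)) • e = y
      rw [LinearIsometryEquiv.symm_apply_apply]
      show (y - ⟪y, e⟫_ℝ • e) + g (y - ⟪y, e⟫_ℝ • e) • e = y
      rw [← hy]
      abel
  have hball : (μH[((n - 1 : ℕ) : ℝ)] : Measure (EuclideanSpace ℝ (Fin (n - 1))))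
      (closedBall 0 (2 * ρ)) < ⊤ := by
    have hinst : (μH[((Module.finrank ℝ (EuclideanSpace ℝ (Fin (n - 1))) : ℕ) : ℝ)] :
        Measure (EuclideanSpace ℝ (Fin (n - 1)))).IsAddHaarMeasure := inferInstance
    rw [finrank_euclideanSpace_fin] at hinst
    exact (isCompact_closedBall _ _).measure_lt_top
  refine lt_of_le_of_lt (measure_mono hsub) ?_
  rw [Measure.euclideanHausdorffMeasure_def, Measure.smul_apply]
  have h5 := hΦ.hausdorffMeasure_image_le (d := ((n - 1 : ℕ) : ℝ)) (by positivity)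
    (closedBall 0 (2 * ρ))
  have h6 : (μH[((n - 1 : ℕ) : ℝ)] : Measure (EuclideanSpace ℝ (Fin n)))
      (Φ '' (closedBall 0 (2 * ρ))) < ⊤ := by
    refine lt_of_le_of_lt h5 ?_
    apply ENNReal.mul_lt_top _ hball
    exact ENNReal.rpow_lt_top_of_nonneg (by positivity) ENNReal.coe_ne_top
  exact ENNReal.mul_lt_top ENNReal.coe_lt_top h6

theorem lip_fin (n : ℕ) (hn : 1 ≤ n) (Ω : Set (EuclideanSpace ℝ (Fin n)))
    (hb : Bornology.IsBounded Ω)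
    (hlip : ∀ x ∈ frontier Ω, ∃ r : ℝ, 0 < r ∧ ∃ e : EuclideanSpace ℝ (Fin n), ‖e‖ = 1 ∧
      ∃ (K : ℝ≥0) (g : EuclideanSpace ℝ (Fin n) → ℝ), LipschitzWith K g ∧
        ∀ y ∈ ball x r, (y ∈ Ω ↔ ⟪y, e⟫_ℝ < g (y - ⟪y, e⟫_ℝ • e))) :
    (μHE[n - 1] : Measure (EuclideanSpace ℝ (Fin n))) (frontier Ω) < ⊤ := by
  have hcomp : IsCompact (frontier Ω) :=
    hb.isCompact_closure.of_isClosed_subset isClosed_frontier frontier_subset_closure
  refine hcomp.induction_on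
    (p := fun s => (μHE[n - 1] : Measure (EuclideanSpace ℝ (Fin n))) s < ⊤) ?_ ?_ ?_ ?_
  · simp
  · intro s t hst ht
    exact lt_of_le_of_lt (measure_mono hst) ht
  · intro s t hs ht
    exact lt_of_le_of_lt (measure_union_le s t) (ENNReal.add_lt_top.2 ⟨hs, ht⟩)
  · intro x hx
    obtain ⟨r, hr, e, he, K, g, hg, h⟩ := hlip x hx
    refine ⟨ball x r ∩ frontier Ω, ?_, ?_⟩
    · exact inter_mem (mem_nhdsWithin_of_mem_nhds (ball_mem_nhds x hr)) self_mem_nhdsWithin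
    · refine lt_of_le_of_lt (measure_mono ?_) (graph_fin n hn e he K g hg (‖x‖ + r))
      rintro y ⟨hyr, hy⟩
      refine ⟨graph_eq Ω x r e K g hg h y hy hyr, ?_⟩
      have h1 : ‖y - x‖ < r := by rw [← dist_eq_norm]; exact hyr
      have h2 : ‖y‖ ≤ ‖y - x‖ + ‖x‖ := by
        have := norm_add_le (y - x) x
        rwa [sub_add_cancel] at this
      linarith

theorem lip_int (n : ℕ) (Ω : Set (EuclideanSpace ℝ (Fin n))) (hΩ : IsOpen Ω)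
    (hlip : ∀ x ∈ frontier Ω, ∃ r : ℝ, 0 < r ∧ ∃ e : EuclideanSpace ℝ (Fin n), ‖e‖ = 1 ∧
      ∃ (K : ℝ≥0) (g : EuclideanSpace ℝ (Fin n) → ℝ), LipschitzWith K g ∧
        ∀ y ∈ ball x r, (y ∈ Ω ↔ ⟪y, e⟫_ℝ < g (y - ⟪y, e⟫_ℝ • e))) :
    interior (closure Ω) = Ω := by
  apply Set.Subset.antisymm _ hΩ.subset_interior_closure
  intro x hx
  by_contra hxΩ
  have hfr : x ∈ frontier Ω := by
    rw [hΩ.frontier_eq]
    exact ⟨interior_subset hx, hxΩ⟩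
  obtain ⟨r, hr, e, he, K, g, hg, h⟩ := hlip x hfr
  have hgx := graph_eq Ω x r e K g hg h x hfr (mem_ball_self hr)
  have hcont : Continuous (fun t : ℝ => x + t • e) := by fun_prop
  have hev : ∀ᶠ t : ℝ in 𝓝 0, x + t • e ∈ interior (closure Ω) ∩ ball x r := by
    apply hcont.continuousAt
    show interior (closure Ω) ∩ ball x r ∈ 𝓝 (x + (0 : ℝ) • e)
    rw [zero_smul, add_zero]
    exact inter_mem (isOpen_interior.mem_nhds hx) (ball_mem_nhds x hr)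
  have hev2 : ∀ᶠ t : ℝ in 𝓝[>] 0, x + t • e ∈ interior (closure Ω) ∩ ball x r :=
    hev.filter_mono nhdsWithin_le_nhds
  obtain ⟨t, ht, ht0⟩ := (hev2.and self_mem_nhdsWithin).exists
  have ht0' : 0 < t := ht0
  have h1 : ⟪x + t • e, e⟫_ℝ = ⟪x, e⟫_ℝ + t := by
    rw [inner_add_left, inner_smul_left, real_inner_self_eq_norm_sq, he]
    simp
  have h2 : (x + t • e) - ⟪x + t • e, e⟫_ℝ • e = x - ⟪x, e⟫_ℝ • e := by
    rw [h1, add_smul]
    abel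
  have hopen : IsOpen (ball x r ∩ {z : EuclideanSpace ℝ (Fin n) |
      g (z - ⟪z, e⟫_ℝ • e) < ⟪z, e⟫_ℝ}) :=
    isOpen_ball.inter (isOpen_lt (graph_cont e hg) (inner_cont e))
  have hmem : (x + t • e) ∈ (ball x r ∩ {z : EuclideanSpace ℝ (Fin n) |
      g (z - ⟪z, e⟫_ℝ • e) < ⟪z, e⟫_ℝ}) := by
    refine ⟨ht.2, ?_⟩
    show g ((x + t • e) - ⟪x + t • e, e⟫_ℝ • e) < ⟪x + t • e, e⟫_ℝ
    rw [h2, h1, ← hgx]
    linarith
  obtain ⟨z, hz, hzΩ⟩ := mem_closure_iff.1 (interior_subset ht.1) _ hopen hmem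
  exact absurd ((h z hz.1).1 hzΩ) (not_lt.2 (le_of_lt hz.2))

end Pool.Agent.Helper876.LLipG
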