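import Pool.Agent.Helper876_Robin.LCrit
import Pool.Agent.Helper876_Robin.LLipG

/-!
# Lipschitz domains
-/

set_option autoImplicit false

open MeasureTheory Set Metric Filter Topology
open scoped ENNReal NNReal InnerProductSpace

namespace Pool.Agent.Helper876.Rob

/-- A bounded Lipschitz domain: a bounded connected open set which, near each of its boundary
points, is the part of space below the graph of a Lipschitz function `g` over the hyperplane
orthogonal to a unit vector `e`. -/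
structure IsLipschitzDomain {n : ℕ} (Ω : Set (E n)) : Prop where
  isOpen : IsOpen Ω
  isConnected : IsConnected Ω
  isBounded : Bornology.IsBounded Ω
  graph : ∀ x ∈ frontier Ω, ∃ r : ℝ, 0 < r ∧ ∃ e : E n, ‖e‖ = 1 ∧
    ∃ (K : ℝ≥0) (g : E n → ℝ), LipschitzWith K g ∧
      ∀ y ∈ ball x r, (y ∈ Ω ↔ ⟪y, e⟫_ℝ < g (y - ⟪y, e⟫_ℝ • e))

/-- The ball is a Lipschitz domain. -/
theorem ball_lipschitz {n : ℕ} (hn : 2 ≤ n) {R : ℝ} (hR : 0 < R) :
    IsLipschitzDomain (ball (0 : E n) R) := by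
  have : Nontrivial (E n) := by
    have : Nonempty (Fin n) := ⟨⟨0, by omega⟩⟩
    infer_instance
  refine ⟨isOpen_ball, (convex_ball 0 R).isConnected (nonempty_ball.2 hR), isBounded_ball, ?_⟩
  intro x hx
  rw [frontier_ball _ hR.ne', mem_sphere_zero_iff_norm] at hx
  set e : E n := R⁻¹ • x with he
  have hee : ‖e‖ = 1 := by
    rw [he, norm_smul, norm_inv, Real.norm_eq_abs, abs_of_pos hR, hx, inv_mul_cancel₀ hR.ne']
  set h : ℝ → ℝ := fun t => Real.sqrt (R ^ 2 - (max 0 (min t (R / 2))) ^ 2) with hh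
  have hhl : LipschitzWith 1 h := by
    apply LipschitzWith.of_dist_le_mul
    intro s t
    rw [Real.dist_eq, Real.dist_eq, NNReal.coe_one, one_mul]
    set a := max 0 (min s (R / 2)) with ha
    set b := max 0 (min t (R / 2)) with hb
    have ha0 : 0 ≤ a := le_max_left _ _
    have hb0 : 0 ≤ b := le_max_left _ _
    have ha1 : a ≤ R / 2 := max_le (by positivity) (min_le_right _ _)
    have hb1 : b ≤ R / 2 := max_le (by positivity) (min_le_right _ _)
    have hab : |a - b| ≤ |s - t| := by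
      refine (abs_max_sub_max_le_max _ _ _ _).trans ?_
      rw [sub_self, abs_zero]
      apply max_le (abs_nonneg _)
      refine (abs_min_sub_min_le_max _ _ _ _).trans ?_
      rw [sub_self, abs_zero]
      exact max_le le_rfl (abs_nonneg _)
    have hsa : R / 2 ≤ Real.sqrt (R ^ 2 - a ^ 2) := by
      apply Real.le_sqrt_of_sq_le
      nlinarith
    have hsb : R / 2 ≤ Real.sqrt (R ^ 2 - b ^ 2) := by
      apply Real.le_sqrt_of_sq_le
      nlinarith
    have e1 : Real.sqrt (R ^ 2 - a ^ 2) ^ 2 = R ^ 2 - a ^ 2 := Real.sq_sqrt (by nlinarith)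
    have e2 : Real.sqrt (R ^ 2 - b ^ 2) ^ 2 = R ^ 2 - b ^ 2 := Real.sq_sqrt (by nlinarith)
    have e3 : (Real.sqrt (R ^ 2 - a ^ 2) - Real.sqrt (R ^ 2 - b ^ 2)) *
        (Real.sqrt (R ^ 2 - a ^ 2) + Real.sqrt (R ^ 2 - b ^ 2)) = (b - a) * (a + b) := by
      linear_combination e1 - e2
    have e4 : |Real.sqrt (R ^ 2 - a ^ 2) - Real.sqrt (R ^ 2 - b ^ 2)| * R ≤ |a - b| * R := by
      calc |Real.sqrt (R ^ 2 - a ^ 2) - Real.sqrt (R ^ 2 - b ^ 2)| * R
          ≤ |Real.sqrt (R ^ 2 - a ^ 2) - Real.sqrt (R ^ 2 - b ^ 2)| *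
            (Real.sqrt (R ^ 2 - a ^ 2) + Real.sqrt (R ^ 2 - b ^ 2)) :=
              mul_le_mul_of_nonneg_left (by linarith) (abs_nonneg _)
        _ = |Real.sqrt (R ^ 2 - a ^ 2) - Real.sqrt (R ^ 2 - b ^ 2)| *
            |Real.sqrt (R ^ 2 - a ^ 2) + Real.sqrt (R ^ 2 - b ^ 2)| := by
              rw [abs_of_nonneg (show 0 ≤ Real.sqrt (R ^ 2 - a ^ 2) + Real.sqrt (R ^ 2 - b ^ 2) by
                linarith)]
        _ = |b - a| * |a + b| := by rw [← abs_mul, e3, abs_mul]
        _ ≤ |a - b| * R := by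
              rw [abs_sub_comm b a, abs_of_nonneg (show 0 ≤ a + b by linarith)]
              exact mul_le_mul_of_nonneg_left (by linarith) (abs_nonneg _)
    exact (le_of_mul_le_mul_right e4 hR).trans hab
  refine ⟨R / 2, by positivity, e, hee, 1, fun z => h ‖z‖, ?_, ?_⟩
  · apply LipschitzWith.of_dist_le_mul
    intro s t
    have h1 := hhl.dist_le_mul ‖s‖ ‖t‖
    rw [NNReal.coe_one, one_mul] at h1 ⊢
    refine h1.trans ?_
    rw [Real.dist_eq, dist_eq_norm]
    exact abs_norm_sub_norm_le s t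
  · intro y hy
    have hy' : ‖y - x‖ < R / 2 := by rwa [mem_ball, dist_eq_norm] at hy
    have hxe : x = R • e := by rw [he, smul_smul, mul_inv_cancel₀ hR.ne', one_smul]
    have hee2 : ⟪e, e⟫_ℝ = 1 := by rw [real_inner_self_eq_norm_sq, hee, one_pow]
    set c := ⟪y, e⟫_ℝ with hc
    set z := y - c • e with hz
    have hyz : y = z + c • e := by rw [hz, sub_add_cancel]
    have hze : ⟪z, e⟫_ℝ = 0 := by
      rw [hz, inner_sub_left, real_inner_smul_left, hee2, mul_one, ← hc, sub_self]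
    have hn2 : ‖y‖ ^ 2 = ‖z‖ ^ 2 + c ^ 2 := by
      rw [hyz, norm_add_sq_real, real_inner_smul_right, hze, norm_smul, hee, mul_one,
        Real.norm_eq_abs, sq_abs]
      ring
    have hn3 : ‖y - x‖ ^ 2 = ‖z‖ ^ 2 + (c - R) ^ 2 := by
      have : y - x = z + (c - R) • e := by
        rw [hyz, hxe, sub_smul]
        abel
      rw [this, norm_add_sq_real, real_inner_smul_right, hze, norm_smul, hee, mul_one,
        Real.norm_eq_abs, sq_abs]
      ring
    have hn4 : ‖y - x‖ ^ 2 < (R / 2) ^ 2 := pow_lt_pow_left₀ hy' (norm_nonneg _) (by norm_num)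
    have hc0 : 0 < c := by nlinarith [sq_nonneg ‖z‖]
    have hz1 : ‖z‖ < R / 2 := by
      apply lt_of_pow_lt_pow_left₀ 2 (by positivity)
      nlinarith [sq_nonneg (c - R)]
    have hhz : h ‖z‖ = Real.sqrt (R ^ 2 - ‖z‖ ^ 2) := by
      rw [hh]
      simp only
      rw [min_eq_left hz1.le, max_eq_right (norm_nonneg _)]
    show y ∈ ball (0 : E n) R ↔ c < h ‖z‖
    rw [hhz, Real.lt_sqrt hc0.le, mem_ball, dist_zero_right]
    constructor
    · intro h1
      have h2 := pow_lt_pow_left₀ h1 (norm_nonneg _) (two_ne_zero)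
      linarith
    · intro h1
      apply lt_of_pow_lt_pow_left₀ 2 hR.le
      linarith

end Pool.Agent.Helper876.Rob
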