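import Pool.Agent.Helper876_Robin.LDefs

set_option autoImplicit false

open MeasureTheory Set Metric Filter Topology
open scoped ENNReal NNReal InnerProductSpace

namespace Pool.Agent.Helper876.LExist

open Pool.Agent.Helper876.Rob

lemma lax {H : Type*} [NormedAddCommGroup H] [InnerProductSpace ℝ H] [CompleteSpace H]
    (V : Submodule ℝ H) (hV : IsClosed (V : Set H)) (T : H →L[ℝ] H) (c : ℝ) (hc : 0 < c)
    (hco : ∀ v ∈ V, c * ‖v‖ ^ 2 ≤ ⟪T v, v⟫_ℝ) (z : H) :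
    ∃ v ∈ V, ∀ w ∈ V, ⟪T v, w⟫_ℝ = ⟪z, w⟫_ℝ := by
  have : CompleteSpace V := hV.completeSpace_coe
  let B : V →L[ℝ] V →L[ℝ] ℝ :=
    LinearMap.mkContinuous₂ (LinearMap.mk₂ ℝ (fun v w : V => ⟪T v, (w : H)⟫_ℝ)
      (by intro a b c; simp [inner_add_left]) (by intro a b c; simp [inner_smul_left])
      (by intro a b c; simp [inner_add_right]) (by intro a b c; simp [inner_smul_right])) ‖T‖ (by
        intro v w
        simp only [LinearMap.mk₂_apply]
        calc ‖⟪T v, (w : H)⟫_ℝ‖ ≤ ‖T v‖ * ‖(w : H)‖ := norm_inner_le_norm _ _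
          _ ≤ (‖T‖ * ‖(v : H)‖) * ‖(w : H)‖ :=
              mul_le_mul_of_nonneg_right (T.le_opNorm _) (norm_nonneg _)
          _ = ‖T‖ * ‖v‖ * ‖w‖ := rfl)
  have hB : ∀ v w : V, B v w = ⟪T v, (w : H)⟫_ℝ := fun v w => rfl
  have hcoer : IsCoercive B := ⟨c, hc, fun v => by
    rw [hB]
    have := hco v v.2
    calc c * ‖v‖ * ‖v‖ = c * ‖(v : H)‖ ^ 2 := by rw [Submodule.norm_coe]; ring
      _ ≤ _ := this⟩
  let zV : V := (InnerProductSpace.toDual ℝ V).symm ((innerSL ℝ z).comp V.subtypeL)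
  have hz : ∀ w : V, ⟪zV, w⟫_ℝ = ⟪z, (w : H)⟫_ℝ := by
    intro w
    have := InnerProductSpace.toDual_symm_apply (𝕜 := ℝ) (x := w)
      (y := (innerSL ℝ z).comp V.subtypeL)
    exact this
  let v := hcoer.continuousLinearEquivOfBilin.symm zV
  refine ⟨v, v.2, fun w hw => ?_⟩
  have h1 := hcoer.continuousLinearEquivOfBilin_apply v ⟨w, hw⟩
  rw [ContinuousLinearEquiv.apply_symm_apply] at h1
  rw [hz, hB] at h1
  exact h1.symm

lemma gradient_cont {n : ℕ} {φ : E n → ℝ} (h : ContDiff ℝ 1 φ) : Continuous (gradient φ) := by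
  have := h.continuous_fderiv (by norm_num)
  exact (InnerProductSpace.toDual ℝ (E n)).symm.continuous.comp this

lemma norm_grad {n : ℕ} (φ : E n → ℝ) (x : E n) : ‖gradient φ x‖ = ‖fderiv ℝ φ x‖ := by
  unfold gradient
  exact LinearIsometryEquiv.norm_map _ _

lemma tst_add {n : ℕ} {φ ψ : E n → ℝ} (h1 : Tst φ) (h2 : Tst ψ) : Tst (φ + ψ) := by
  obtain ⟨c1, C1, hC1⟩ := h1
  obtain ⟨c2, C2, hC2⟩ := h2
  refine ⟨c1.add c2, C1 + C2, fun x => ⟨?_, ?_⟩⟩
  · exact (abs_add_le _ _).trans (add_le_add (hC1 x).1 (hC2 x).1)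
  · rw [fderiv_add (c1.differentiable (by norm_num) x) (c2.differentiable (by norm_num) x)]
    exact (norm_add_le _ _).trans (add_le_add (hC1 x).2 (hC2 x).2)

lemma tst_smul {n : ℕ} {φ : E n → ℝ} (a : ℝ) (h1 : Tst φ) : Tst (a • φ) := by
  obtain ⟨c1, C1, hC1⟩ := h1
  refine ⟨c1.const_smul a, |a| * C1, fun x => ⟨?_, ?_⟩⟩
  · simp only [Pi.smul_apply, smul_eq_mul, abs_mul]
    exact mul_le_mul_of_nonneg_left (hC1 x).1 (abs_nonneg _)
  · rw [fderiv_const_smul (c1.differentiable (by norm_num) x), norm_smul, Real.norm_eq_abs]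
    exact mul_le_mul_of_nonneg_left (hC1 x).2 (abs_nonneg _)

lemma grad_add {n : ℕ} {φ ψ : E n → ℝ} (h1 : Tst φ) (h2 : Tst ψ) :
    gradient (φ + ψ) = gradient φ + gradient ψ := by
  ext1 x
  unfold gradient
  rw [fderiv_add (h1.1.differentiable (by norm_num) x) (h2.1.differentiable (by norm_num) x),
    map_add]
  rfl

lemma grad_smul {n : ℕ} {φ : E n → ℝ} (a : ℝ) (h1 : Tst φ) :
    gradient (a • φ) = a • gradient φ := by
  ext1 x
  unfold gradient
  rw [fderiv_const_smul (h1.1.differentiable (by norm_num) x)]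
  simp

/-- The measure with density `ρ + S`. -/
noncomputable def m1 {n : ℕ} (ρ S : E n → ℝ) : Measure (E n) :=
  volume.withDensity (fun x => ENNReal.ofReal (ρ x + S x))

/-- The measure with density `ρ`. -/
noncomputable def m2 {n : ℕ} (ρ : E n → ℝ) : Measure (E n) :=
  volume.withDensity (fun x => ENNReal.ofReal (ρ x))

lemma fin_wd {n : ℕ} (f : E n → ℝ) (hf : Integrable f) :
    IsFiniteMeasure (volume.withDensity (fun x => ENNReal.ofReal (f x)) : Measure (E n)) :=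
  isFiniteMeasure_withDensity_ofReal hf.2

lemma wd_integral {n : ℕ} (f : E n → ℝ) (hf : Measurable f) (h0 : ∀ x, 0 ≤ f x)
    (g : E n → ℝ) :
    ∫ x, g x ∂(volume.withDensity (fun x => ENNReal.ofReal (f x)) : Measure (E n)) =
      ∫ x, f x * g x := by
  rw [integral_withDensity_eq_integral_toReal_smul hf.ennreal_ofReal
    (Eventually.of_forall fun x => ENNReal.ofReal_lt_top)]
  refine integral_congr_ae (Eventually.of_forall fun x => ?_)
  simp only [smul_eq_mul]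
  rw [ENNReal.toReal_ofReal (h0 x)]

lemma wd_integrable {n : ℕ} (f : E n → ℝ) (hf : Measurable f) (h0 : ∀ x, 0 ≤ f x)
    (g : E n → ℝ) :
    Integrable g (volume.withDensity (fun x => ENNReal.ofReal (f x)) : Measure (E n)) ↔
      Integrable (fun x => f x * g x) := by
  rw [integrable_withDensity_iff_integrable_smul' hf.ennreal_ofReal
    (Eventually.of_forall fun x => ENNReal.ofReal_lt_top)]
  refine integrable_congr (Eventually.of_forall fun x => ?_)
  simp only [smul_eq_mul]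
  rw [ENNReal.toReal_ofReal (h0 x)]

/-- From integrability for `ρ + S` to integrability for `a` with `|a| ≤ C (ρ + S)`. -/
lemma int_part {n : ℕ} (f a : E n → ℝ) (hf : Continuous f) (hf0 : ∀ x, 0 < f x)
    (ha : Continuous a) (C : ℝ) (haC : ∀ x, |a x| ≤ C * f x) (g : E n → ℝ)
    (hg : Integrable (fun x => f x * g x)) : Integrable (fun x => a x * g x) := by
  have h1 : Integrable (fun x => (a x / f x) * (f x * g x)) := by
    refine hg.bdd_mul (c := C) (ha.div hf fun x => (hf0 x).ne').aestronglyMeasurable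
      (Eventually.of_forall fun x => ?_)
    rw [Real.norm_eq_abs, abs_div, abs_of_pos (hf0 x), div_le_iff₀ (hf0 x)]
    exact haC x
  refine h1.congr (Eventually.of_forall fun x => ?_)
  have := (hf0 x).ne'
  simp only
  field_simp

lemma sq_enorm_lp {n : ℕ} {F : Type*} [NormedAddCommGroup F] (μ : Measure (E n)) (f g : Lp F 2 μ)
    (f' : E n → F) (hf : ⇑f =ᵐ[μ] f') :
    ∫⁻ x, ENNReal.ofReal (‖f' x - g x‖ ^ 2) ∂μ = ‖f - g‖ₑ ^ 2 := by
  have h1 : ‖f - g‖ₑ = eLpNorm (fun x => f' x - g x) 2 μ := by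
    rw [Lp.enorm_def]
    apply eLpNorm_congr_ae
    filter_upwards [Lp.coeFn_sub f g, hf] with x h1 h2
    rw [h1, Pi.sub_apply, h2]
  rw [h1, eLpNorm_eq_lintegral_rpow_enorm_toReal (by norm_num) (by norm_num)]
  rw [← ENNReal.rpow_natCast, ← ENNReal.rpow_mul]
  simp only [ENNReal.toReal_ofNat, Nat.cast_ofNat]
  rw [show (1 / 2 * 2 : ℝ) = 1 by norm_num, ENNReal.rpow_one]
  refine lintegral_congr fun x => ?_
  rw [← ofReal_norm, ENNReal.ofReal_pow (norm_nonneg _)]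
  exact (ENNReal.rpow_natCast _ 2).symm

/-- The Hilbert space of pairs. -/
abbrev XX {n : ℕ} (ρ S : E n → ℝ) := WithLp 2 (Lp ℝ 2 (m1 ρ S) × Lp (E n) 2 (m2 ρ))

lemma tst_zero {n : ℕ} : Tst (0 : E n → ℝ) := by
  refine ⟨contDiff_const, 0, fun x => ⟨?_, ?_⟩⟩
  · simp
  · simp

lemma grad_zero {n : ℕ} : gradient (0 : E n → ℝ) = 0 := by
  ext1 x
  unfold gradient
  simp

/-- Pairs of a test function and its gradient. -/
def KK {n : ℕ} (ρ S : E n → ℝ) : Submodule ℝ (XX ρ S) where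
  carrier := {x | ∃ φ : E n → ℝ, Tst φ ∧ (⇑x.fst =ᵐ[m1 ρ S] φ) ∧ (⇑x.snd =ᵐ[m2 ρ] gradient φ)}
  add_mem' := by
    rintro x y ⟨φ, hφ, h1, h2⟩ ⟨ψ, hψ, h3, h4⟩
    refine ⟨φ + ψ, tst_add hφ hψ, ?_, ?_⟩
    · rw [WithLp.add_fst]
      filter_upwards [Lp.coeFn_add x.fst y.fst, h1, h3] with z a b c
      rw [a, Pi.add_apply, b, c]; rfl
    · rw [WithLp.add_snd, grad_add hφ hψ]
      filter_upwards [Lp.coeFn_add x.snd y.snd, h2, h4] with z a b c
      rw [a, Pi.add_apply, b, c]; rfl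
  zero_mem' := by
    refine ⟨0, tst_zero, ?_, ?_⟩
    · exact Lp.coeFn_zero _ _ _
    · rw [grad_zero]; exact Lp.coeFn_zero _ _ _
  smul_mem' := by
    rintro r x ⟨φ, hφ, h1, h2⟩
    refine ⟨r • φ, tst_smul r hφ, ?_, ?_⟩
    · rw [WithLp.smul_fst]
      filter_upwards [Lp.coeFn_smul r x.fst, h1] with z a b
      rw [a, Pi.smul_apply, b]; rfl
    · rw [WithLp.smul_snd, grad_smul r hφ]
      filter_upwards [Lp.coeFn_smul r x.snd, h2] with z a b
      rw [a, Pi.smul_apply, b]; rfl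

section Main

variable {n : ℕ} {ρ S : E n → ℝ}

lemma inner_one (hρ : Continuous ρ) (hρ0 : ∀ x, 0 < ρ x) (hS : Continuous S)
    (hS0 : ∀ x, 0 ≤ S x) (f g : Lp ℝ 2 (m1 ρ S)) (u v : E n → ℝ) (hu : ⇑f =ᵐ[m1 ρ S] u)
    (hv : ⇑g =ᵐ[m1 ρ S] v) :
    Integrable (fun x => (ρ x + S x) * (u x * v x)) ∧
    Integrable (fun x => ρ x * (u x * v x)) ∧ Integrable (fun x => S x * (u x * v x)) ∧
    ⟪f, g⟫_ℝ = (∫ x, ρ x * (u x * v x)) + ∫ x, S x * (u x * v x) := by
  have hf0 : ∀ x, 0 < ρ x + S x := fun x => add_pos_of_pos_of_nonneg (hρ0 x) (hS0 x)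
  have h1 : Integrable (fun x => u x * v x) (m1 ρ S) := by
    have := L2.integrable_inner (𝕜 := ℝ) f g
    refine this.congr ?_
    filter_upwards [hu, hv] with x a b
    rw [a, b]
    simp [mul_comm]
  have h2 : Integrable (fun x => (ρ x + S x) * (u x * v x)) :=
    (wd_integrable (fun x => ρ x + S x) (hρ.add hS).measurable (fun x => (hf0 x).le) _).1 h1
  have h3 : Integrable (fun x => ρ x * (u x * v x)) :=
    int_part (fun x => ρ x + S x) ρ (hρ.add hS) hf0 hρ 1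
      (fun x => by rw [abs_of_pos (hρ0 x)]; linarith [hS0 x]) _ h2
  have h4 : Integrable (fun x => S x * (u x * v x)) :=
    int_part (fun x => ρ x + S x) S (hρ.add hS) hf0 hS 1
      (fun x => by rw [abs_of_nonneg (hS0 x)]; linarith [hρ0 x]) _ h2
  refine ⟨h2, h3, h4, ?_⟩
  rw [L2.inner_def, ← integral_add h3 h4]
  calc ∫ x, ⟪f x, g x⟫_ℝ ∂(m1 ρ S) = ∫ x, u x * v x ∂(m1 ρ S) := by
        refine integral_congr_ae ?_
        filter_upwards [hu, hv] with x a b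
        rw [a, b]
        simp [mul_comm]
    _ = ∫ x, (ρ x + S x) * (u x * v x) :=
        wd_integral (fun x => ρ x + S x) (hρ.add hS).measurable (fun x => (hf0 x).le) _
    _ = _ := by
        refine integral_congr_ae (Eventually.of_forall fun x => ?_)
        simp only
        ring

lemma inner_two (hρ : Continuous ρ) (hρ0 : ∀ x, 0 < ρ x) (f g : Lp (E n) 2 (m2 ρ))
    (u v : E n → E n) (hu : ⇑f =ᵐ[m2 ρ] u) (hv : ⇑g =ᵐ[m2 ρ] v) :
    ⟪f, g⟫_ℝ = ∫ x, ρ x * ⟪u x, v x⟫_ℝ := by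
  rw [L2.inner_def]
  calc ∫ x, ⟪f x, g x⟫_ℝ ∂(m2 ρ) = ∫ x, ⟪u x, v x⟫_ℝ ∂(m2 ρ) := by
        refine integral_congr_ae ?_
        filter_upwards [hu, hv] with x a b
        rw [a, b]
    _ = ∫ x, ρ x * ⟪u x, v x⟫_ℝ :=
        wd_integral ρ hρ.measurable (fun x => (hρ0 x).le) _

end Main

theorem exists_sol {n : ℕ} (ρ S : E n → ℝ) (hρ : Continuous ρ) (hρ0 : ∀ x, 0 < ρ x)
    (hS : Continuous S) (hS0 : ∀ x, 0 ≤ S x) (hint : Integrable (fun x => ρ x + S x))
    {A A' κ : ℝ} (hA' : 0 < A') (hA : A' < A) (hκ : 0 < κ) (hc : Coer ρ S A κ) :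
    ∃ (u : E n → ℝ) (G : E n → E n), InH ρ S u G ∧ ∀ φ : E n → ℝ, Tst φ →
      (∫ x, ρ x * ⟪G x, gradient φ x⟫_ℝ) - A' * (∫ x, S x * u x * φ x) +
        κ * (∫ x, ρ x * u x * φ x) = κ * ∫ x, ρ x * φ x := by
  have hf0 : ∀ x, 0 < ρ x + S x := fun x => add_pos_of_pos_of_nonneg (hρ0 x) (hS0 x)
  have hρi : Integrable ρ := by
    refine hint.mono' hρ.aestronglyMeasurable (Eventually.of_forall fun x => ?_)
    rw [Real.norm_of_nonneg (hρ0 x).le]
    linarith [hS0 x]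
  have hm1 : IsFiniteMeasure (m1 ρ S) := fin_wd _ hint
  have hm2 : IsFiniteMeasure (m2 ρ) := fin_wd _ hρi
  -- the multiplier
  set mm : E n → ℝ := fun x => (κ * ρ x - A' * S x) / (ρ x + S x) with hmm
  have hmmc : Continuous mm :=
    ((continuous_const.mul hρ).sub (continuous_const.mul hS)).div (hρ.add hS)
      fun x => (hf0 x).ne'
  have hmmb : ∀ x, ‖mm x‖ ≤ κ + A' := by
    intro x
    rw [hmm, Real.norm_eq_abs, abs_div, abs_of_pos (hf0 x), div_le_iff₀ (hf0 x), abs_le]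
    have a1 := hρ0 x
    have a2 := hS0 x
    constructor
    · nlinarith [mul_pos hκ a1, mul_nonneg hκ.le a2, mul_pos hA' a1]
    · nlinarith [mul_pos hκ a1, mul_nonneg hκ.le a2, mul_pos hA' a1, mul_nonneg hA'.le a2]
  have hmmL : MemLp mm ∞ (m1 ρ S) :=
    memLp_top_of_bound hmmc.aestronglyMeasurable (κ + A') (Eventually.of_forall hmmb)
  set mI : Lp ℝ ∞ (m1 ρ S) := hmmL.toLp mm with hmI
  let M : Lp ℝ 2 (m1 ρ S) →L[ℝ] Lp ℝ 2 (m1 ρ S) :=
    ((ContinuousLinearMap.mul ℝ ℝ).holderL (m1 ρ S) 2 ∞ 2).flip mI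
  have hM : ∀ f : Lp ℝ 2 (m1 ρ S), ⇑(M f) =ᵐ[m1 ρ S] fun x => f x * mm x := by
    intro f
    have h1 := ContinuousLinearMap.coeFn_holder (r := 2) (ContinuousLinearMap.mul ℝ ℝ) f mI
    filter_upwards [h1, hmmL.coeFn_toLp] with x a b
    have : (M f) x = (ContinuousLinearMap.mul ℝ ℝ).holder 2 f mI x := rfl
    rw [this, a, hmI, b]
    rfl
  let T : XX ρ S →L[ℝ] XX ρ S :=
    ((WithLp.prodContinuousLinearEquiv 2 ℝ (Lp ℝ 2 (m1 ρ S)) (Lp (E n) 2 (m2 ρ))).symm :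
      (Lp ℝ 2 (m1 ρ S) × Lp (E n) 2 (m2 ρ)) →L[ℝ] XX ρ S).comp
      ((M.prodMap (ContinuousLinearMap.id ℝ (Lp (E n) 2 (m2 ρ)))).comp
      ((WithLp.prodContinuousLinearEquiv 2 ℝ (Lp ℝ 2 (m1 ρ S)) (Lp (E n) 2 (m2 ρ))) :
      XX ρ S →L[ℝ] (Lp ℝ 2 (m1 ρ S) × Lp (E n) 2 (m2 ρ))))
  have hT : ∀ x y : XX ρ S, ⟪T x, y⟫_ℝ = ⟪M x.fst, y.fst⟫_ℝ + ⟪x.snd, y.snd⟫_ℝ := fun x y => rfl
  have hTf : ∀ (x y : XX ρ S) (u v : E n → ℝ) (G F : E n → E n), ⇑x.fst =ᵐ[m1 ρ S] u →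
      ⇑y.fst =ᵐ[m1 ρ S] v → ⇑x.snd =ᵐ[m2 ρ] G → ⇑y.snd =ᵐ[m2 ρ] F →
      ⟪T x, y⟫_ℝ = κ * (∫ x, ρ x * (u x * v x)) - A' * (∫ x, S x * (u x * v x)) +
        ∫ x, ρ x * ⟪G x, F x⟫_ℝ := by
    intro x y u v G F hu hv hG hF
    rw [hT, inner_two hρ hρ0 x.snd y.snd G F hG hF]
    congr 1
    have hMu : ⇑(M x.fst) =ᵐ[m1 ρ S] fun z => u z * mm z := by
      filter_upwards [hM x.fst, hu] with z a b
      rw [a, b]
    obtain ⟨-, b2, b3, b4⟩ := inner_one hρ hρ0 hS hS0 (M x.fst) y.fst _ v hMu hv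
    obtain ⟨-, c2, c3, -⟩ := inner_one hρ hρ0 hS hS0 x.fst y.fst u v hu hv
    rw [b4, ← integral_add b2 b3, ← integral_const_mul, ← integral_const_mul,
      ← integral_sub (c2.const_mul κ) (c3.const_mul A')]
    refine integral_congr_ae (Eventually.of_forall fun z => ?_)
    simp only [hmm]
    have := (hf0 z).ne'
    field_simp
  -- coercivity
  have hApos : 0 < A := hA'.trans hA
  set c : ℝ := (1 - A' / A) / (1 + 1 / κ + 1 / A) with hcdef
  have hc0 : 0 < c := by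
    apply div_pos
    · rw [sub_pos, div_lt_one hApos]; exact hA
    · positivity
  have hcoK : ∀ v ∈ (KK ρ S), c * ‖v‖ ^ 2 ≤ ⟪T v, v⟫_ℝ := by
    rintro v ⟨φ, hφ, h1, h2⟩
    rw [hTf v v φ φ _ _ h1 h1 h2 h2]
    have hn : ‖v‖ ^ 2 = (∫ x, ρ x * (φ x * φ x)) + (∫ x, S x * (φ x * φ x)) +
        ∫ x, ρ x * ⟪gradient φ x, gradient φ x⟫_ℝ := by
      rw [← real_inner_self_eq_norm_sq, WithLp.prod_inner_apply]
      rw [← (inner_one hρ hρ0 hS hS0 v.fst v.fst φ φ h1 h1).2.2.2,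
        ← inner_two hρ hρ0 v.snd v.snd _ _ h2 h2]
      rfl
    rw [hn]
    have hcc := hc φ hφ
    set P := ∫ x, ρ x * ⟪gradient φ x, gradient φ x⟫_ℝ with hP
    set Q := ∫ x, ρ x * (φ x * φ x) with hQ
    set R := ∫ x, S x * (φ x * φ x) with hR
    have e1 : (∫ x, S x * φ x ^ 2) = R := by rw [hR]; congr 1; ext x; ring
    have e2 : (∫ x, ρ x * φ x ^ 2) = Q := by rw [hQ]; congr 1; ext x; ring
    have e3 : (∫ x, ρ x * ‖fderiv ℝ φ x‖ ^ 2) = P := by
      rw [hP]; congr 1; ext x; rw [real_inner_self_eq_norm_sq, norm_grad]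
    rw [e1, e2, e3] at hcc
    have hP0 : 0 ≤ P := integral_nonneg fun x => by
      rw [real_inner_self_eq_norm_sq]; exact mul_nonneg (hρ0 x).le (sq_nonneg _)
    have hQ0 : 0 ≤ Q := integral_nonneg fun x => mul_nonneg (hρ0 x).le (mul_self_nonneg _)
    have hR0 : 0 ≤ R := integral_nonneg fun x => mul_nonneg (hS0 x) (mul_self_nonneg _)
    have k1 : Q + R + P ≤ (1 + 1 / κ + 1 / A) * (P + κ * Q) := by
      have a1 : Q ≤ (1 / κ) * (P + κ * Q) := by
        have : (1 / κ) * (P + κ * Q) = P / κ + Q := by field_simp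
        rw [this]
        have := div_nonneg hP0 hκ.le
        linarith
      have a2 : R ≤ (1 / A) * (P + κ * Q) := by
        rw [one_div, inv_mul_eq_div, le_div_iff₀ hApos]
        linarith
      have a3 : P ≤ P + κ * Q := by nlinarith
      nlinarith
    have k2 : (1 - A' / A) * (P + κ * Q) ≤ κ * Q - A' * R + P := by
      have : A' * R ≤ (A' / A) * (P + κ * Q) := by
        rw [div_mul_eq_mul_div, le_div_iff₀ hApos]
        nlinarith
      nlinarith
    calc c * (Q + R + P) ≤ c * ((1 + 1 / κ + 1 / A) * (P + κ * Q)) :=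
          mul_le_mul_of_nonneg_left k1 hc0.le
      _ = (1 - A' / A) * (P + κ * Q) := by
          rw [hcdef]
          have : (1 + 1 / κ + 1 / A) ≠ 0 := by positivity
          rw [← mul_assoc, div_mul_cancel₀ _ this]
      _ ≤ _ := k2
  have hco : ∀ v ∈ (KK ρ S).topologicalClosure, c * ‖v‖ ^ 2 ≤ ⟪T v, v⟫_ℝ := by
    have hcl : IsClosed {v : XX ρ S | c * ‖v‖ ^ 2 ≤ ⟪T v, v⟫_ℝ} :=
      isClosed_le (continuous_const.mul (continuous_norm.pow 2))
        (T.continuous.inner continuous_id)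
    intro v hv
    exact closure_minimal (s := (KK ρ S : Set (XX ρ S))) (fun w hw => hcoK w hw) hcl hv
  -- the right-hand side
  set rr : E n → ℝ := fun x => κ * ρ x / (ρ x + S x) with hrr
  have hrrc : Continuous rr := (continuous_const.mul hρ).div (hρ.add hS) fun x => (hf0 x).ne'
  have hrrL : MemLp rr 2 (m1 ρ S) := by
    refine MemLp.of_bound hrrc.aestronglyMeasurable κ (Eventually.of_forall fun x => ?_)
    have a1 := hρ0 x
    have a2 := hS0 x
    rw [hrr, Real.norm_of_nonneg (by positivity), div_le_iff₀ (hf0 x)]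
    nlinarith [mul_nonneg hκ.le a2]
  set z : XX ρ S := WithLp.toLp 2 (hrrL.toLp rr, 0) with hz
  obtain ⟨v, hv, hvw⟩ := lax (KK ρ S).topologicalClosure
    (KK ρ S).isClosed_topologicalClosure T c hc0 hco z
  refine ⟨⇑v.fst, ⇑v.snd, ⟨(Lp.stronglyMeasurable v.fst).measurable,
    (Lp.stronglyMeasurable v.snd).measurable, ?_⟩, ?_⟩
  · have hv' : v ∈ closure (KK ρ S : Set (XX ρ S)) := hv
    obtain ⟨xs, hxs, hlim⟩ := mem_closure_iff_seq_limit.1 hv'
    choose φ hφ using hxs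
    refine ⟨φ, fun k => (hφ k).1, ?_⟩
    have key : ∀ k, nd ρ S (φ k) (gradient (φ k)) (⇑v.fst) (⇑v.snd) =
        ‖(xs k).fst - v.fst‖ₑ ^ 2 + ‖(xs k).snd - v.snd‖ₑ ^ 2 := by
      intro k
      obtain ⟨ht, h1, h2⟩ := hφ k
      have hcφ : Continuous (φ k) := ht.1.continuous
      have hcg : Continuous (gradient (φ k)) := gradient_cont ht.1
      rw [← sq_enorm_lp (m1 ρ S) (xs k).fst v.fst (φ k) h1,
        ← sq_enorm_lp (m2 ρ) (xs k).snd v.snd (gradient (φ k)) h2]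
      have mA : Measurable fun x => ENNReal.ofReal (‖φ k x - v.fst x‖ ^ 2) :=
        (((hcφ.measurable.sub (Lp.stronglyMeasurable v.fst).measurable).norm).pow_const
          2).ennreal_ofReal
      have mB : Measurable fun x => ENNReal.ofReal (‖gradient (φ k) x - v.snd x‖ ^ 2) :=
        (((hcg.measurable.sub (Lp.stronglyMeasurable v.snd).measurable).norm).pow_const
          2).ennreal_ofReal
      have mC : Measurable fun x => ENNReal.ofReal (ρ x + S x) :=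
        (hρ.add hS).measurable.ennreal_ofReal
      have mD : Measurable fun x => ENNReal.ofReal (ρ x) := hρ.measurable.ennreal_ofReal
      have i1 : ∫⁻ x, ENNReal.ofReal (‖φ k x - v.fst x‖ ^ 2) ∂(m1 ρ S) = _ :=
        lintegral_withDensity_eq_lintegral_mul _ mC mA
      have i2 : ∫⁻ x, ENNReal.ofReal (‖gradient (φ k) x - v.snd x‖ ^ 2) ∂(m2 ρ) = _ :=
        lintegral_withDensity_eq_lintegral_mul _ mD mB
      rw [i1, i2, ← lintegral_add_left (mC.mul mA)]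
      unfold nd
      refine lintegral_congr fun x => ?_
      simp only [Pi.mul_apply]
      rw [← ENNReal.ofReal_mul (hf0 x).le, ← ENNReal.ofReal_mul (hρ0 x).le,
        ← ENNReal.ofReal_add (mul_nonneg (hf0 x).le (sq_nonneg _))
        (mul_nonneg (hρ0 x).le (sq_nonneg _)), Real.norm_eq_abs, sq_abs]
    simp_rw [key]
    have t1 : Tendsto (fun k => ‖(xs k).fst - v.fst‖ₑ) atTop (𝓝 0) := by
      have : Tendsto (fun k => (xs k).fst) atTop (𝓝 v.fst) :=
        ((WithLp.continuous_fst 2 _ _).tendsto v).comp hlim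
      exact tendsto_iff_enorm_sub_tendsto_zero.1 this
    have t2 : Tendsto (fun k => ‖(xs k).snd - v.snd‖ₑ) atTop (𝓝 0) := by
      have : Tendsto (fun k => (xs k).snd) atTop (𝓝 v.snd) :=
        ((WithLp.continuous_snd 2 _ _).tendsto v).comp hlim
      exact tendsto_iff_enorm_sub_tendsto_zero.1 this
    have t3 := (ENNReal.Tendsto.pow t1 (n := 2)).add (ENNReal.Tendsto.pow t2 (n := 2))
    simpa using t3
  · intro φ hφ
    obtain ⟨hφ1, C, hC⟩ := hφ
    have hL1 : MemLp φ 2 (m1 ρ S) :=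
      MemLp.of_bound hφ1.continuous.aestronglyMeasurable C
        (Eventually.of_forall fun x => (hC x).1)
    have hL2 : MemLp (gradient φ) 2 (m2 ρ) :=
      MemLp.of_bound (gradient_cont hφ1).aestronglyMeasurable C
        (Eventually.of_forall fun x => by rw [norm_grad]; exact (hC x).2)
    set w : XX ρ S := WithLp.toLp 2 (hL1.toLp φ, hL2.toLp (gradient φ)) with hw
    have hw1 : ⇑w.fst =ᵐ[m1 ρ S] φ := hL1.coeFn_toLp
    have hw2 : ⇑w.snd =ᵐ[m2 ρ] gradient φ := hL2.coeFn_toLp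
    have hwK : w ∈ (KK ρ S).topologicalClosure :=
      (KK ρ S).le_topologicalClosure ⟨φ, ⟨hφ1, C, hC⟩, hw1, hw2⟩
    have h1 := hvw w hwK
    rw [hTf v w (⇑v.fst) φ (⇑v.snd) (gradient φ) (EventuallyEq.refl _ _) hw1
      (EventuallyEq.refl _ _) hw2] at h1
    have h2 : ⟪z, w⟫_ℝ = κ * ∫ x, ρ x * φ x := by
      have hz1 : ⇑z.fst =ᵐ[m1 ρ S] rr := hrrL.coeFn_toLp
      have e : ⟪z, w⟫_ℝ = ⟪z.fst, w.fst⟫_ℝ + ⟪z.snd, w.snd⟫_ℝ := rfl
      have e0 : z.snd = 0 := rfl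
      obtain ⟨-, b2, b3, b4⟩ := inner_one hρ hρ0 hS hS0 z.fst w.fst rr φ hz1 hw1
      rw [e, e0, inner_zero_left, add_zero, b4, ← integral_add b2 b3, ← integral_const_mul]
      refine integral_congr_ae (Eventually.of_forall fun x => ?_)
      simp only [hrr]
      have := (hf0 x).ne'
      field_simp
    rw [h2] at h1
    have g1 : (∫ x, S x * (v.fst x) * φ x) = ∫ x, S x * (v.fst x * φ x) := by
      congr 1; ext x; ring
    have g2 : (∫ x, ρ x * (v.fst x) * φ x) = ∫ x, ρ x * (v.fst x * φ x) := by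
      congr 1; ext x; ring
    rw [g1, g2, ← h1]
    ring

end Pool.Agent.Helper876.LExist
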