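import Pool.Agent.Helper876_Robin.LDefs

set_option autoImplicit false

open MeasureTheory Set Metric Filter Topology
open scoped ENNReal NNReal InnerProductSpace

namespace Pool.Agent.Helper876.LHalf

open Pool.Agent.Helper876.Rob


/-- the coordinates along `e` and its orthogonal complement -/
noncomputable def Psi (n : ℕ) (e : E n) (he : ‖e‖ = 1) :
    ℝ × ((ℝ ∙ e)ᗮ : Submodule ℝ (E n)) ≃ᵐ E n :=
  (((LinearIsometryEquiv.toSpanUnitSingleton (𝕜 := ℝ) e he).toHomeomorph.toMeasurableEquiv.prodCongr
    (MeasurableEquiv.refl _))).trans ((ℝ ∙ e).measurableEquivProd (0 : E n)).symm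

lemma Psi_apply (n : ℕ) (e : E n) (he : ‖e‖ = 1) (p : ℝ × ((ℝ ∙ e)ᗮ : Submodule ℝ (E n))) :
    Psi n e he p = p.1 • e + (p.2 : E n) := by
  simp only [Psi, MeasurableEquiv.trans_apply, Submodule.measurableEquivProd_symm_apply, vadd_eq_add,
    add_zero]
  rfl

lemma Psi_mp (n : ℕ) (e : E n) (he : ‖e‖ = 1) :
    MeasurePreserving (Psi n e he) (volume.prod volume) volume := by
  have h1 : MeasurePreserving (LinearIsometryEquiv.toSpanUnitSingleton (𝕜 := ℝ) e he)
      volume volume := LinearIsometryEquiv.measurePreserving _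
  have h2 := ((ℝ ∙ e).measurePreserving_measurableEquivProd (0 : E n))
  rw [InnerProductSpace.euclideanHausdorffMeasure_eq_volume] at h2
  have h3 := h1.prod (MeasurePreserving.id (volume : Measure ((ℝ ∙ e)ᗮ : Submodule ℝ (E n))))
  exact (h2.symm _).comp h3

/-- the orthogonal projection onto the complement of `e` -/
noncomputable def Prj (n : ℕ) (e : E n) : E n → ((ℝ ∙ e)ᗮ : Submodule ℝ (E n)) :=
  (((ℝ ∙ e)ᗮ : Submodule ℝ (E n))).orthogonalProjectionOnto

lemma Prj_lip (n : ℕ) (e : E n) : LipschitzWith 1 (Prj n e) :=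
  Submodule.lipschitzWith_orthogonalProjectionOnto _

lemma Prj_apply (n : ℕ) (e : E n) (t : ℝ) (y : ((ℝ ∙ e)ᗮ : Submodule ℝ (E n))) :
    Prj n e (t • e + (y : E n)) = y := by
  have h1 : (((ℝ ∙ e)ᗮ : Submodule ℝ (E n))).orthogonalProjectionOnto (t • e) = 0 := by
    rw [Submodule.orthogonalProjectionOnto_eq_zero_iff, Submodule.orthogonal_orthogonal]
    exact Submodule.smul_mem _ _ (Submodule.mem_span_singleton_self e)
  simp only [Prj, map_add, h1, zero_add]
  exact Submodule.orthogonalProjectionOnto_mem_subspace_eq_self y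

/-- the bound for one line -/
lemma slice_bound (n : ℕ) (Ω : Set (E n)) (hΩ : IsOpen Ω) (hb : Bornology.IsBounded Ω)
    (hone : ∀ (U : Set ℝ), IsOpen U → Bornology.IsBounded U → ∀ (hF : (frontier U).Finite) (g : ℝ → ℝ),
      ContDiff ℝ 1 g → |∫ t in U, deriv g t| ≤ ∑ t ∈ hF.toFinset, |g t|)
    (φ : E n → ℝ) (hφ : ContDiff ℝ 1 φ) (e : E n) (he : ‖e‖ = 1) (c : ℝ) (hc : 0 < c)
    (y : ((ℝ ∙ e)ᗮ : Submodule ℝ (E n))) :
    ENNReal.ofReal |∫ t : ℝ, Ω.indicator (fun x => fderiv ℝ φ x e) (t • e + (y : E n))| ≤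
      ∑' x : {x : E n // x ∈ frontier Ω ∧ Prj n e x = y}, ENNReal.ofReal (|φ x| + c) := by
  by_cases hinf : Infinite {x : E n // x ∈ frontier Ω ∧ Prj n e x = y}
  · have h1 : ∑' x : {x : E n // x ∈ frontier Ω ∧ Prj n e x = y}, ENNReal.ofReal (|φ x| + c) = ⊤ := by
      rw [eq_top_iff, ← ENNReal.tsum_const_eq_top_of_ne_zero
        (α := {x : E n // x ∈ frontier Ω ∧ Prj n e x = y}) (c := ENNReal.ofReal c)
        (ENNReal.ofReal_pos.2 hc).ne']
      refine ENNReal.tsum_le_tsum fun x => ENNReal.ofReal_le_ofReal ?_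
      linarith [abs_nonneg (φ x)]
    rw [h1]
    exact le_top
  · have hfin : Finite {x : E n // x ∈ frontier Ω ∧ Prj n e x = y} := not_infinite_iff_finite.1 hinf
    have hcont : Continuous (fun t : ℝ => t • e + (y : E n)) := by fun_prop
    set U : Set ℝ := (fun t : ℝ => t • e + (y : E n)) ⁻¹' Ω with hU
    have hUo : IsOpen U := hΩ.preimage hcont
    have hUb : Bornology.IsBounded U := by
      obtain ⟨R, hR⟩ := hb.subset_closedBall (0 : E n)
      refine (Metric.isBounded_closedBall (x := (0 : ℝ)) (r := R + ‖(y : E n)‖)).subset ?_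
      intro t ht
      have h1 := hR ht
      rw [mem_closedBall_zero_iff] at h1 ⊢
      calc ‖t‖ = ‖t • e‖ := by rw [norm_smul, he, mul_one]
        _ = ‖(t • e + (y : E n)) - (y : E n)‖ := by rw [add_sub_cancel_right]
        _ ≤ ‖t • e + (y : E n)‖ + ‖(y : E n)‖ := norm_sub_le _ _
        _ ≤ R + ‖(y : E n)‖ := by
          have h1' : ‖t • e + (y : E n)‖ ≤ R := h1
          linarith
    have hfr : frontier U ⊆ (fun t : ℝ => t • e + (y : E n)) ⁻¹' frontier Ω :=
      hcont.frontier_preimage_subset Ω
    let ι : frontier U → {x : E n // x ∈ frontier Ω ∧ Prj n e x = y} :=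
      fun t => ⟨(t : ℝ) • e + (y : E n), hfr t.2, Prj_apply n e t y⟩
    have hι : Function.Injective ι := by
      intro s t hst
      have h1 : (s : ℝ) • e + (y : E n) = (t : ℝ) • e + (y : E n) := congrArg Subtype.val hst
      have h2 : ((s : ℝ) - t) • e = 0 := by
        rw [sub_smul, sub_eq_zero]
        exact add_right_cancel h1
      rcases smul_eq_zero.1 h2 with h3 | h3
      · exact Subtype.ext (sub_eq_zero.1 h3)
      · rw [h3, norm_zero] at he
        exact absurd he (by norm_num)
    have hF : (frontier U).Finite := by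
      have : Finite (frontier U) := Finite.of_injective ι hι
      exact Set.toFinite _
    have hg : ContDiff ℝ 1 (fun t : ℝ => φ (t • e + (y : E n))) :=
      hφ.comp ((contDiff_id.smul contDiff_const).add contDiff_const)
    have hder : ∀ t : ℝ, deriv (fun t : ℝ => φ (t • e + (y : E n))) t =
        fderiv ℝ φ (t • e + (y : E n)) e := by
      intro t
      have h1 : HasDerivAt (fun t : ℝ => t • e + (y : E n)) e t := by
        have := ((hasDerivAt_id t).smul_const e).add_const (y : E n)
        simpa using this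
      have h2 : HasFDerivAt φ (fderiv ℝ φ (t • e + (y : E n))) (t • e + (y : E n)) :=
        ((hφ.differentiable (by norm_num)) _).hasFDerivAt
      exact (h2.comp_hasDerivAt t h1).deriv
    have h1 := hone U hUo hUb hF _ hg
    have h2 : ∫ t : ℝ, Ω.indicator (fun x => fderiv ℝ φ x e) (t • e + (y : E n)) =
        ∫ t in U, deriv (fun t : ℝ => φ (t • e + (y : E n))) t := by
      rw [← integral_indicator hUo.measurableSet]
      refine integral_congr_ae (Filter.Eventually.of_forall fun t => ?_)
      simp only []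
      by_cases ht : t ∈ U
      · rw [Set.indicator_of_mem ht, hder]
        exact Set.indicator_of_mem (show t • e + (y : E n) ∈ Ω from ht) _
      · rw [Set.indicator_of_notMem ht]
        exact Set.indicator_of_notMem (show t • e + (y : E n) ∉ Ω from ht) _
    rw [h2]
    calc ENNReal.ofReal |∫ t in U, deriv (fun t : ℝ => φ (t • e + (y : E n))) t|
        ≤ ENNReal.ofReal (∑ t ∈ hF.toFinset, |φ (t • e + (y : E n))|) := ENNReal.ofReal_le_ofReal h1
      _ = ∑ t ∈ hF.toFinset, ENNReal.ofReal |φ (t • e + (y : E n))| :=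
          ENNReal.ofReal_sum_of_nonneg fun _ _ => abs_nonneg _
      _ = ∑' t : frontier U, ENNReal.ofReal |φ ((t : ℝ) • e + (y : E n))| := by
          have : Fintype (frontier U) := hF.fintype
          rw [tsum_fintype]
          refine (Finset.sum_subtype _ (fun x => by simp) _)
      _ ≤ ∑' t : frontier U, ENNReal.ofReal (|φ (ι t)| + c) := by
          refine ENNReal.tsum_le_tsum fun t => ENNReal.ofReal_le_ofReal ?_
          have : φ (ι t) = φ ((t : ℝ) • e + (y : E n)) := rfl
          rw [this]
          linarith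
      _ ≤ _ := ENNReal.tsum_comp_le_tsum_of_injective hι
          (fun x : {x : E n // x ∈ frontier Ω ∧ Prj n e x = y} => ENNReal.ofReal (|φ x| + c))

lemma finrank_Y (n : ℕ) (hn : 1 ≤ n) (e : E n) (he : ‖e‖ = 1) :
    Module.finrank ℝ ((ℝ ∙ e)ᗮ : Submodule ℝ (E n)) = n - 1 := by
  have h1 := (ℝ ∙ e).finrank_add_finrank_orthogonal
  have h0 : e ≠ 0 := by
    rintro rfl
    rw [norm_zero] at he
    exact absurd he (by norm_num)
  rw [finrank_span_singleton h0, finrank_euclideanSpace_fin] at h1
  omega

/- (Pool/Agent/Helper876_Robin/LDefs.lean and Defs.lean are on origin/main; they hold the definitions E, dvg, surf (= μHE[n-1]), HalfGG, ...)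
The hypotheses hone and hmult are two lemmas proved in other jobs; use them as given.
PLAIN PROOF. Let σ = (surf n).restrict (frontier Ω), K = frontier Ω (compact). Split E n = ℝ e ⊕ (ℝ e)ᗮ with Y = (ℝ ∙ e)ᗮ, of dimension n-1, and
π = orthogonal projection onto Y (1-Lipschitz). Fubini (measure preserving x ↦ (coordinate along e, projection), see
Mathlib.Geometry.Euclidean.Volume.Measure: Submodule.measurePreserving_measurableEquivProd / measurableEquivProd, or any orthonormal
basis with first vector e; on Y, μHE[n-1] = volume by InnerProductSpace.euclideanHausdorffMeasure_eq_volume):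
 ∫_Ω ∂_e φ = ∫_{y ∈ Y} (∫_{t : y + t e ∈ Ω} d/dt φ(y + t e) dt) dy.
For each y the slice Ω_y = {t | y + t e ∈ Ω} is open and bounded in ℝ and frontier Ω_y ⊆ K_y = {t | y + t e ∈ K}.
By hmult with f = 1 and then f = |φ| (μHE[n-1] is a scalar multiple of μH[n-1], on both spaces with the SAME scalar, see
Measure.euclideanHausdorffMeasure_def): ∫⁻_Y #(K_y) dy ≤ surf n K < ⊤, so K_y is finite for a.e. y (a tsum of ones in ENNReal is finite iff the
index type is finite; use lintegral finiteness with the measurable majorant: if the lower integral of a function is finite then the function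
is finite a.e. -- careful: `ae_lt_top'` needs AEMeasurable; instead get from hmult a direct argument, or use `MeasureTheory.exists_measurable_le_lintegral_eq`
... an easier way: |∫_{Ω_y}| inner integral J(y) is a measurable function of y; for y with K_y finite hone gives |J(y)| ≤ Σ_{t ∈ K_y}|φ|; for y with K_y infinite
the count tsum is ⊤. To see that {y | K_y infinite} is null: it is contained in the set where the tsum of f = 1 is ⊤; for the measurable function approach note that
this set is measurable up to the projection of compact pieces; alternatively bound J differently: let c > 0 and apply hmult to f = |φ| + c (ofReal): for EVERY y,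
|J(y)| ≤ tsum_{K_y} (|φ| + c), since for K_y infinite the right side is ⊤ and for K_y finite it is hone. So
 ∫⁻ |J| ≤ ∫⁻_K (|φ| + c) dμHE and let c → 0. This avoids all measurability problems.) -/
theorem half_gg (n : ℕ) (hn : 1 ≤ n) (Ω : Set (E n)) (hΩ : IsOpen Ω) (hb : Bornology.IsBounded Ω)
    (hfin : surf n (frontier Ω) < ⊤)
    (hone : ∀ (U : Set ℝ), IsOpen U → Bornology.IsBounded U → ∀ (hF : (frontier U).Finite) (g : ℝ → ℝ),
      ContDiff ℝ 1 g → |∫ t in U, deriv g t| ≤ ∑ t ∈ hF.toFinset, |g t|)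
    (hmult : ∀ (e : E n) (K : Set (E n)), IsCompact K → ∀ (π : E n → ((ℝ ∙ e)ᗮ : Submodule ℝ (E n))),
      LipschitzWith 1 π → ∀ (f : E n → ℝ≥0∞), Continuous f →
      ∫⁻ y, (∑' x : {x : E n // x ∈ K ∧ π x = y}, f x) ∂(Measure.hausdorffMeasure ((n - 1 : ℕ) : ℝ)) ≤
        ∫⁻ x in K, f x ∂(Measure.hausdorffMeasure ((n - 1 : ℕ) : ℝ))) :
    HalfGG Ω ((surf n).restrict (frontier Ω)) := by
  intro φ hφ e he
  set K := frontier Ω with hK
  have hKc : IsCompact K := by
    refine Metric.isCompact_of_isClosed_isBounded isClosed_frontier ?_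
    exact hb.closure.subset frontier_subset_closure
  have hvolY : (volume : Measure ((ℝ ∙ e)ᗮ : Submodule ℝ (E n))) = μHE[n - 1] := by
    rw [← InnerProductSpace.euclideanHausdorffMeasure_eq_volume, finrank_Y n hn e he]
  have hFc : Continuous (fun x => fderiv ℝ φ x e) :=
    (hφ.continuous_fderiv (by norm_num)).clm_apply continuous_const
  have hint : Integrable (Ω.indicator (fun x => fderiv ℝ φ x e)) := by
    rw [integrable_indicator_iff hΩ.measurableSet]
    have h1 : IntegrableOn (fun x => fderiv ℝ φ x e) (closure Ω) :=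
      hFc.continuousOn.integrableOn_compact hb.isCompact_closure
    exact h1.mono_set subset_closure
  -- Fubini
  have hfub : ∫ x in Ω, fderiv ℝ φ x e =
      ∫ y : ((ℝ ∙ e)ᗮ : Submodule ℝ (E n)), ∫ t : ℝ,
        Ω.indicator (fun x => fderiv ℝ φ x e) (t • e + (y : E n)) := by
    rw [← integral_indicator hΩ.measurableSet, ← (Psi_mp n e he).integral_comp'
      (Ω.indicator (fun x => fderiv ℝ φ x e))]
    have h2 : Integrable (fun p => Ω.indicator (fun x => fderiv ℝ φ x e) (Psi n e he p))
        (volume.prod volume) := (Psi_mp n e he).integrable_comp_of_integrable hint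
    rw [integral_prod_symm _ h2]
    simp only [Psi_apply]
  -- the bound with `c`
  have hbd : ∀ c : ℝ, 0 < c → ENNReal.ofReal |∫ x in Ω, fderiv ℝ φ x e| ≤
      (∫⁻ x in K, ENNReal.ofReal |φ x| ∂(surf n)) + ENNReal.ofReal c * surf n K := by
    intro c hc
    rw [hfub]
    calc ENNReal.ofReal |∫ y : ((ℝ ∙ e)ᗮ : Submodule ℝ (E n)), ∫ t : ℝ,
          Ω.indicator (fun x => fderiv ℝ φ x e) (t • e + (y : E n))|
        = ‖∫ y : ((ℝ ∙ e)ᗮ : Submodule ℝ (E n)), ∫ t : ℝ,
          Ω.indicator (fun x => fderiv ℝ φ x e) (t • e + (y : E n))‖ₑ := by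
          rw [← Real.norm_eq_abs, ofReal_norm]
      _ ≤ ∫⁻ y : ((ℝ ∙ e)ᗮ : Submodule ℝ (E n)), ‖∫ t : ℝ,
          Ω.indicator (fun x => fderiv ℝ φ x e) (t • e + (y : E n))‖ₑ :=
          enorm_integral_le_lintegral_enorm _
      _ ≤ ∫⁻ y : ((ℝ ∙ e)ᗮ : Submodule ℝ (E n)),
          ∑' x : {x : E n // x ∈ K ∧ Prj n e x = y}, ENNReal.ofReal (|φ x| + c) := by
          refine lintegral_mono fun y => ?_
          rw [← ofReal_norm, Real.norm_eq_abs]
          exact slice_bound n Ω hΩ hb hone φ hφ e he c hc y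
      _ ≤ ∫⁻ x in K, ENNReal.ofReal (|φ x| + c) ∂(surf n) := by
          rw [hvolY, surf, Measure.euclideanHausdorffMeasure_def,
            Measure.euclideanHausdorffMeasure_def, Measure.restrict_smul, lintegral_smul_measure,
            lintegral_smul_measure]
          have h3 := hmult e K hKc (Prj n e) (Prj_lip n e) (fun x => ENNReal.ofReal (|φ x| + c))
            (ENNReal.continuous_ofReal.comp (hφ.continuous.abs.add continuous_const))
          gcongr
      _ = _ := by
          have h4 : ∀ x, ENNReal.ofReal (|φ x| + c) = ENNReal.ofReal |φ x| + ENNReal.ofReal c :=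
            fun x => ENNReal.ofReal_add (abs_nonneg _) hc.le
          simp only [h4]
          rw [lintegral_add_right _ measurable_const, setLIntegral_const]
  -- let `c → 0`
  have hlim : ENNReal.ofReal |∫ x in Ω, fderiv ℝ φ x e| ≤
      ∫⁻ x in K, ENNReal.ofReal |φ x| ∂(surf n) := by
    have h5 : Tendsto (fun c : ℝ => (∫⁻ x in K, ENNReal.ofReal |φ x| ∂(surf n)) +
        ENNReal.ofReal c * surf n K) (𝓝[>] 0)
        (𝓝 ((∫⁻ x in K, ENNReal.ofReal |φ x| ∂(surf n)) + ENNReal.ofReal 0 * surf n K)) := by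
      refine Tendsto.mono_left ?_ nhdsWithin_le_nhds
      refine tendsto_const_nhds.add ?_
      exact ENNReal.Tendsto.mul_const (ENNReal.continuous_ofReal.tendsto 0) (Or.inr hfin.ne)
    rw [ENNReal.ofReal_zero, zero_mul, add_zero] at h5
    refine ge_of_tendsto h5 ?_
    filter_upwards [self_mem_nhdsWithin] with c hc
    exact hbd c hc
  have hI : ∫ x, |φ x| ∂((surf n).restrict K) =
      (∫⁻ x in K, ENNReal.ofReal |φ x| ∂(surf n)).toReal := by
    rw [integral_eq_lintegral_of_nonneg_ae (Filter.Eventually.of_forall fun x => abs_nonneg _)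
      hφ.continuous.abs.aestronglyMeasurable]
  have hfinI : ∫⁻ x in K, ENNReal.ofReal |φ x| ∂(surf n) ≠ ⊤ := by
    obtain ⟨C, hC⟩ := hKc.exists_bound_of_continuousOn hφ.continuous.continuousOn
    have h6 : ∫⁻ x in K, ENNReal.ofReal |φ x| ∂(surf n) ≤ ∫⁻ x in K, ENNReal.ofReal C ∂(surf n) := by
      refine setLIntegral_mono' hKc.isClosed.measurableSet fun x hx => ENNReal.ofReal_le_ofReal ?_
      have := hC x hx
      rwa [Real.norm_eq_abs] at this
    rw [setLIntegral_const] at h6
    exact (h6.trans_lt (ENNReal.mul_lt_top ENNReal.ofReal_lt_top hfin)).ne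
  rw [hI]
  have h7 := ENNReal.toReal_mono hfinI hlim
  rwa [ENNReal.toReal_ofReal (abs_nonneg _)] at h7

end Pool.Agent.Helper876.LHalf

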