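import Mathlib

set_option autoImplicit false

open MeasureTheory Set Metric Filter Topology
open scoped ENNReal NNReal

namespace Pool.Agent.Helper876.LMult

/-- countable measurable partition of a compact set into small pieces -/
theorem aux_part {X : Type*} [MetricSpace X] [MeasurableSpace X] [BorelSpace X] {K : Set X}
    (hK : IsCompact K) (e : ℝ) (he : 0 < e) : ∃ A : ℕ → Set X, (∀ i, MeasurableSet (A i)) ∧
      Pairwise (Function.onFun Disjoint A) ∧ (⋃ i, A i) = K ∧
        ∀ i, ∀ a ∈ A i, ∀ b ∈ A i, dist a b ≤ 2 * e := by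
  rcases K.eq_empty_or_nonempty with hE | hN
  · refine ⟨fun _ => ∅, fun _ => MeasurableSet.empty, ?_, by simp [hE], by simp⟩
    intro i j _
    exact disjoint_bot_left
  obtain ⟨t, htK, htf, hcov⟩ := hK.finite_cover_balls he
  have htn : t.Nonempty := by
    obtain ⟨x, hx⟩ := hN
    obtain ⟨z, hz⟩ := mem_iUnion.1 (hcov hx)
    obtain ⟨hz1, _⟩ := mem_iUnion.1 hz
    exact ⟨z, hz1⟩
  obtain ⟨c, hc⟩ := htf.countable.exists_eq_range htn
  refine ⟨fun i => K ∩ disjointed (fun i => ball (c i) e) i, ?_, ?_, ?_, ?_⟩
  · intro i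
    exact hK.isClosed.measurableSet.inter
      (MeasurableSet.disjointed (fun _ => measurableSet_ball) i)
  · intro i j hij
    exact (disjoint_disjointed (fun i => ball (c i) e) hij).mono inter_subset_right
      inter_subset_right
  · rw [← inter_iUnion, iUnion_disjointed, inter_eq_left]
    intro x hx
    obtain ⟨z, hz⟩ := mem_iUnion.1 (hcov hx)
    obtain ⟨hz1, hz2⟩ := mem_iUnion.1 hz
    rw [hc] at hz1
    obtain ⟨i, rfl⟩ := hz1
    exact mem_iUnion.2 ⟨i, hz2⟩
  · intro i a ha b hb
    have h1 : a ∈ ball (c i) e := disjointed_subset (fun i => ball (c i) e) i ha.2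
    have h2 : b ∈ ball (c i) e := disjointed_subset (fun i => ball (c i) e) i hb.2
    rw [mem_ball] at h1 h2
    have := dist_triangle_right a b (c i)
    linarith

theorem aux_inf {X : Type*} [MetricSpace X] (f : X → ℝ≥0∞) (hf : Continuous f) (x : X)
    (e : ℕ → ℝ) (he0 : ∀ k, 0 ≤ e k) (he : Tendsto e atTop (𝓝 0)) :
    Tendsto (fun k => ⨅ a ∈ closedBall x (e k), f a) atTop (𝓝 (f x)) := by
  rw [tendsto_order]
  constructor
  · intro c hc
    obtain ⟨c', hc1, hc2⟩ := exists_between hc
    have h1 : {a | c' < f a} ∈ 𝓝 x := (isOpen_Ioi.preimage hf).mem_nhds hc2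
    obtain ⟨δ, hδ0, hδ⟩ := Metric.mem_nhds_iff.1 h1
    filter_upwards [he.eventually (gt_mem_nhds hδ0)] with k hk
    refine hc1.trans_le (le_iInf₂ fun a ha => ?_)
    have : a ∈ ball x δ := closedBall_subset_ball hk ha
    exact (hδ this).le
  · intro c hc
    refine Eventually.of_forall fun k => ?_
    exact (iInf₂_le x (mem_closedBall_self (he0 k))).trans_lt hc

/- PLAIN PROOF (Eilenberg type inequality, dimension preserving case). The integrand on the left need not be measurable: `lintegral` of a
non measurable function is the supremum over simple functions below it, so it is enough to bound the integrand pointwise by a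
measurable function, or by a liminf of measurable functions.
For each k take a countable measurable partition (A_{k,i})_i of K into sets of diameter ≤ 1/(k+1) which are
sigma-compact (e.g. K is compact metric: cover it by finitely many closed balls B_1..B_N of radius 1/(2k+2), A_{k,i} = (K ∩ B_i) \ (B_1 ∪ ... ∪ B_{i-1});
each is relatively open in the compact set K ∩ B_i, hence sigma-compact (open subsets of a compact metric space are sigma-compact / F_sigma), so its
image under the continuous π is sigma-compact, hence measurable).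
Put F_k(y) = Σ_i (inf_{A_{k,i}} f) * 1_{π(A_{k,i})}(y). Then
 (1) F_k is measurable and ∫ F_k dμH[d] = Σ_i inf f * μH[d](π A_{k,i}) ≤ Σ_i inf f * μH[d](A_{k,i}) ≤ ∫_K f dμH[d]
     (LipschitzWith.hausdorffMeasure_image_le with constant 1; the A_{k,i} are disjoint measurable);
 (2) for every y and every FINITE set T of points of K ∩ π⁻¹(y): for k large the points of T are in different A_{k,i}, so
     F_k(y) ≥ Σ_{x ∈ T} inf_{A_{k,i(x)}} f, and inf_{A_{k,i(x)}} f → f(x) as k → ∞ by continuity. So liminf_k F_k(y) ≥ Σ_{x∈T} f(x), and the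
     tsum in ENNReal is the sup over finite sets T.
Fatou (`lintegral_liminf_le`) gives the claim. -/
theorem mult_le {X Y : Type*} [MetricSpace X] [MeasurableSpace X] [BorelSpace X] [MetricSpace Y]
    [MeasurableSpace Y] [BorelSpace Y] (K : Set X) (hK : IsCompact K) (π : X → Y)
    (hπ : LipschitzWith 1 π) (d : ℝ) (hd : 0 ≤ d) (f : X → ℝ≥0∞) (hf : Continuous f) :
    ∫⁻ y, (∑' x : {x : X // x ∈ K ∧ π x = y}, f x) ∂(Measure.hausdorffMeasure d) ≤
      ∫⁻ x in K, f x ∂(Measure.hausdorffMeasure d) := by
  classical
  set e : ℕ → ℝ := fun k => 1 / ((k : ℝ) + 1) with hedef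
  have hepos : ∀ k, 0 < e k := fun k => by positivity
  have helim : Tendsto e atTop (𝓝 0) := tendsto_one_div_add_atTop_nhds_zero_nat
  choose A hAm hAd hAu hAs using fun k => aux_part hK (e k) (hepos k)
  set μY : Measure Y := Measure.hausdorffMeasure d with hμY
  set μX : Measure X := Measure.hausdorffMeasure d with hμX
  set m : ℕ → ℕ → ℝ≥0∞ := fun k i => ⨅ a ∈ A k i, f a with hm
  set F : ℕ → Y → ℝ≥0∞ := fun k y =>
    ∑' i, (toMeasurable μY (π '' A k i)).indicator (fun _ => m k i) y with hF
  have hFm : ∀ k, Measurable (F k) := fun k =>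
    Measurable.tsum fun i => measurable_const.indicator (measurableSet_toMeasurable _ _)
  have hFi : ∀ k, ∫⁻ y, F k y ∂μY ≤ ∫⁻ x in K, f x ∂μX := by
    intro k
    have h1 : ∫⁻ y, F k y ∂μY = ∑' i, m k i * μY (π '' A k i) := by
      rw [hF, lintegral_tsum fun i =>
        (measurable_const.indicator (measurableSet_toMeasurable _ _)).aemeasurable]
      refine tsum_congr fun i => ?_
      rw [lintegral_indicator_const (measurableSet_toMeasurable _ _), measure_toMeasurable]
    have h2 : ∫⁻ x in K, f x ∂μX = ∑' i, ∫⁻ x in A k i, f x ∂μX := by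
      rw [← hAu k, lintegral_iUnion (hAm k) (hAd k)]
    rw [h1, h2]
    refine ENNReal.tsum_le_tsum fun i => ?_
    calc m k i * μY (π '' A k i) ≤ m k i * μX (A k i) := by
          refine mul_le_mul' le_rfl ?_
          have := hπ.hausdorffMeasure_image_le hd (A k i)
          simpa using this
      _ = ∫⁻ _ in A k i, m k i ∂μX := by rw [setLIntegral_const]
      _ ≤ ∫⁻ x in A k i, f x ∂μX := by
          refine setLIntegral_mono' (hAm k i) fun x hx => ?_
          exact iInf₂_le x hx
  have hpt : ∀ y, (∑' x : {x : X // x ∈ K ∧ π x = y}, f x) ≤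
      liminf (fun k => F k y) atTop := by
    intro y
    rw [ENNReal.tsum_eq_iSup_sum]
    refine iSup_le fun T => ?_
    have hlim : Tendsto (fun k => ∑ x ∈ T, ⨅ a ∈ closedBall (x : X) (2 * e k), f a) atTop
        (𝓝 (∑ x ∈ T, f x)) := by
      refine tendsto_finsetSum T fun x _ => ?_
      refine aux_inf f hf x (fun k => 2 * e k) (fun k => by have := hepos k; positivity) ?_
      have := helim.const_mul 2
      simpa using this
    rw [← hlim.liminf_eq]
    refine liminf_le_liminf ?_
    -- separation
    have hsep : ∀ᶠ k in atTop, ∀ a ∈ T, ∀ b ∈ T, a ≠ b → 2 * e k < dist (a : X) b := by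
      have h2 : Tendsto (fun k => 2 * e k) atTop (𝓝 0) := by
        have := helim.const_mul 2
        simpa using this
      rw [Filter.eventually_all_finset]
      intro a ha
      rw [Filter.eventually_all_finset]
      intro b hb
      by_cases hab : a = b
      · exact Eventually.of_forall fun k h => absurd hab h
      · have h3 : 0 < dist (a : X) b := dist_pos.2 fun h => hab (Subtype.ext h)
        filter_upwards [h2.eventually (gt_mem_nhds h3)] with k hk _
        exact hk
    filter_upwards [hsep] with k hk
    have hidx : ∀ x : {x : X // x ∈ K ∧ π x = y}, ∃ i, (x : X) ∈ A k i := by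
      intro x
      have : (x : X) ∈ ⋃ i, A k i := by
        rw [hAu k]
        exact x.2.1
      exact mem_iUnion.1 this
    choose idx hidx using hidx
    have hinj : Set.InjOn idx T := by
      intro a ha b hb hab
      by_contra hne
      have h1 := hk a ha b hb hne
      have h2 : (b : X) ∈ A k (idx a) := by
        rw [hab]
        exact hidx b
      have h3 := hAs k (idx a) a (hidx a) b h2
      linarith
    calc ∑ x ∈ T, ⨅ a ∈ closedBall (x : X) (2 * e k), f a
        ≤ ∑ x ∈ T, (toMeasurable μY (π '' A k (idx x))).indicator (fun _ => m k (idx x)) y := by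
          refine Finset.sum_le_sum fun x hx => ?_
          have hy : y ∈ toMeasurable μY (π '' A k (idx x)) :=
            subset_toMeasurable _ _ ⟨x, hidx x, x.2.2⟩
          rw [indicator_of_mem hy]
          refine le_iInf₂ fun a ha => ?_
          refine iInf₂_le a ?_
          rw [mem_closedBall]
          exact hAs k (idx x) a ha x (hidx x)
      _ = ∑ i ∈ T.image idx, (toMeasurable μY (π '' A k i)).indicator (fun _ => m k i) y := by
          rw [Finset.sum_image hinj]
      _ ≤ F k y := ENNReal.sum_le_tsum _
  calc ∫⁻ y, (∑' x : {x : X // x ∈ K ∧ π x = y}, f x) ∂μY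
      ≤ ∫⁻ y, liminf (fun k => F k y) atTop ∂μY := lintegral_mono hpt
    _ ≤ liminf (fun k => ∫⁻ y, F k y ∂μY) atTop := lintegral_liminf_le hFm
    _ ≤ liminf (fun _ : ℕ => ∫⁻ x in K, f x ∂μX) atTop :=
        liminf_le_liminf (Eventually.of_forall hFi)
    _ = ∫⁻ x in K, f x ∂μX := liminf_const _


end Pool.Agent.Helper876.LMult

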