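import Mathlib

set_option autoImplicit false

open MeasureTheory Set Metric Filter Topology

namespace Pool.Agent.Helper876.LOne

theorem pre_alt {s U : Set ℝ} (hs : IsPreconnected s) (h : s ∩ frontier U = ∅) :
    s ⊆ U ∨ s ∩ U = ∅ := by
  by_contra hc
  rw [not_or] at hc
  obtain ⟨h1, h2⟩ := hc
  obtain ⟨x, hx, hxU⟩ := Set.not_subset.1 h1
  obtain ⟨y, hy, hyU⟩ := Set.nonempty_iff_ne_empty.2 h2
  have hfr : ∀ z ∈ s, z ∈ interior U ∨ z ∈ (closure U)ᶜ := by
    intro z hz
    by_cases hzc : z ∈ closure U
    · left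
      by_contra hzi
      have hzf : z ∈ s ∩ frontier U := ⟨hz, hzc, hzi⟩
      rw [h] at hzf
      exact hzf
    · right
      exact hzc
  obtain ⟨z, -, hz1, hz2⟩ := hs (interior U) ((closure U)ᶜ) isOpen_interior
    isClosed_closure.isOpen_compl (fun z hz => hfr z hz)
    (by
      refine ⟨y, hy, ?_⟩
      rcases hfr y hy with h3 | h3
      · exact h3
      · exact absurd (subset_closure hyU) h3)
    (by
      refine ⟨x, hx, ?_⟩
      rcases hfr x hx with h3 | h3
      · exact absurd (interior_subset h3) hxU
      · exact h3)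
  exact hz2 (subset_closure (interior_subset hz1))

theorem int_on {g : ℝ → ℝ} (hg : ContDiff ℝ 1 g) {a b : ℝ} {s : Set ℝ} (hs : s ⊆ Icc a b) :
    IntegrableOn (deriv g) s := by
  have h : IntegrableOn (deriv g) (Icc a b) :=
    (hg.continuous_deriv le_rfl).continuousOn.integrableOn_compact isCompact_Icc
  exact h.mono_set hs

theorem main_step (U : Set ℝ) (hU : IsOpen U) (m : ℝ) (hm : U ⊆ Ioi m)
    (g : ℝ → ℝ) (hg : ContDiff ℝ 1 g) (F : Finset ℝ) :
    ∀ x : ℝ, frontier U ∩ Iio x ⊆ F → (∀ t ∈ F, t < x) →
      ∃ c : ℝ, 0 ≤ c ∧ c ≤ 1 ∧ |(∫ t in U ∩ Iio x, deriv g t) - c * g x| ≤ ∑ t ∈ F, |g t| := by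
  induction F using Finset.induction_on_max with
  | empty =>
    intro x hF _
    have h1 : Iio x ∩ frontier U = ∅ := by
      rw [Set.inter_comm]
      exact Set.subset_empty_iff.1 (by simpa using hF)
    rcases pre_alt isPreconnected_Iio h1 with h | h
    · exfalso
      have h2 : min (x - 1) m ∈ U := h (by
        show min (x - 1) m < x
        exact lt_of_le_of_lt (min_le_left _ _) (by linarith))
      have h3 : m < min (x - 1) m := hm h2
      exact absurd h3 (not_lt.2 (min_le_right _ _))
    · refine ⟨0, le_rfl, zero_le_one, ?_⟩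
      rw [Set.inter_comm, h]
      simp
  | insert b F hb ih =>
    intro x hF hx
    have hbx : b < x := hx b (Finset.mem_insert_self _ _)
    obtain ⟨c, hc0, hc1, hc⟩ := ih b (by
      intro y hy
      have h1 : y ∈ (insert b F : Finset ℝ) := by
        have := hF ⟨hy.1, lt_trans hy.2 hbx⟩
        exact_mod_cast this
      rcases Finset.mem_insert.1 h1 with h | h
      · exact absurd hy.2 (by simp [h])
      · exact_mod_cast h) hb
    have hI1 : IntegrableOn (deriv g) (U ∩ Iio b) := int_on hg (a := m) (b := b)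
      (fun y hy => ⟨(hm hy.1).le, (le_of_lt hy.2)⟩)
    have hI2 : IntegrableOn (deriv g) (U ∩ Ico b x) := int_on hg (a := b) (b := x)
      (fun y hy => ⟨hy.2.1, hy.2.2.le⟩)
    have hsplit : U ∩ Iio x = (U ∩ Iio b) ∪ (U ∩ Ico b x) := by
      rw [← Set.inter_union_distrib_left, Set.Iio_union_Ico_eq_Iio hbx.le]
    have hdis : Disjoint (U ∩ Iio b) (U ∩ Ico b x) := by
      rw [Set.disjoint_left]
      intro y hy hy'
      exact absurd hy.2 (not_lt.2 hy'.2.1)
    have hint : (∫ t in U ∩ Iio x, deriv g t) =
        (∫ t in U ∩ Iio b, deriv g t) + ∫ t in U ∩ Ico b x, deriv g t := by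
      rw [hsplit]
      exact setIntegral_union hdis (hU.measurableSet.inter measurableSet_Ico) hI1 hI2
    have h1 : Ioo b x ∩ frontier U = ∅ := by
      ext y
      simp only [Set.mem_inter_iff, Set.mem_empty_iff_false, iff_false, not_and]
      intro hy hyF
      have h2 : y ∈ (insert b F : Finset ℝ) := by
        have := hF ⟨hyF, hy.2⟩
        exact_mod_cast this
      rcases Finset.mem_insert.1 h2 with h | h
      · exact absurd hy.1 (by simp [h])
      · exact absurd (hb y h) (not_lt.2 hy.1.le)
    rw [Finset.sum_insert (fun h => lt_irrefl _ (hb b h))]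
    rcases pre_alt isPreconnected_Ioo h1 with h | h
    · have h3 : (∫ t in U ∩ Ico b x, deriv g t) = g x - g b := by
        have h4 : (U ∩ Ico b x : Set ℝ) =ᵐ[volume] Ioc b x := by
          have h5 : (Ioo b x : Set ℝ) =ᵐ[volume] Ioc b x := Ioo_ae_eq_Ioc
          have h6 : (Ico b x : Set ℝ) =ᵐ[volume] Ioo b x := Ioo_ae_eq_Ico.symm
          have h7 : (U ∩ Ico b x : Set ℝ) =ᵐ[volume] (U ∩ Ioo b x : Set ℝ) :=
            (Filter.EventuallyEq.refl _ U).inter h6
          have h8 : U ∩ Ioo b x = Ioo b x := Set.inter_eq_right.2 h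
          rw [h8] at h7
          exact h7.trans h5
        rw [setIntegral_congr_set h4, ← intervalIntegral.integral_of_le hbx.le]
        refine intervalIntegral.integral_deriv_eq_sub (fun y _ => (hg.differentiable (by simp)) y) ?_
        exact (hg.continuous_deriv le_rfl).intervalIntegrable _ _
      refine ⟨1, zero_le_one, le_rfl, ?_⟩
      rw [hint, h3]
      have e : (∫ t in U ∩ Iio b, deriv g t) + (g x - g b) - 1 * g x =
          ((∫ t in U ∩ Iio b, deriv g t) - c * g b) + (c - 1) * g b := by ring
      rw [e]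
      have h9 : |(c - 1) * g b| ≤ |g b| := by
        rw [abs_mul]
        have : |c - 1| ≤ 1 := by rw [abs_le]; constructor <;> linarith
        nlinarith [abs_nonneg (g b)]
      exact le_trans (abs_add_le _ _) (by linarith)
    · have h3 : (∫ t in U ∩ Ico b x, deriv g t) = 0 := by
        have h4 : (U ∩ Ico b x : Set ℝ) =ᵐ[volume] (∅ : Set ℝ) := by
          have h6 : (Ico b x : Set ℝ) =ᵐ[volume] Ioo b x := Ioo_ae_eq_Ico.symm
          have h7 : (U ∩ Ico b x : Set ℝ) =ᵐ[volume] (U ∩ Ioo b x : Set ℝ) :=
            (Filter.EventuallyEq.refl _ U).inter h6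
          have h8 : U ∩ Ioo b x = ∅ := by rw [Set.inter_comm]; exact h
          rw [h8] at h7
          exact h7
        rw [setIntegral_congr_set h4]
        simp
      refine ⟨0, le_rfl, zero_le_one, ?_⟩
      rw [hint, h3]
      have e : (∫ t in U ∩ Iio b, deriv g t) + 0 - 0 * g x =
          ((∫ t in U ∩ Iio b, deriv g t) - c * g b) + c * g b := by ring
      rw [e]
      have h9 : |c * g b| ≤ |g b| := by
        rw [abs_mul, abs_of_nonneg hc0]
        nlinarith [abs_nonneg (g b)]
      exact le_trans (abs_add_le _ _) (by linarith)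

/-- integral of a derivative over a bounded open set with finite frontier -/
theorem open_integral_le (U : Set ℝ) (hU : IsOpen U) (hb : Bornology.IsBounded U)
    (hF : (frontier U).Finite) (g : ℝ → ℝ) (hg : ContDiff ℝ 1 g) :
    |∫ t in U, deriv g t| ≤ ∑ t ∈ hF.toFinset, |g t| := by
  obtain ⟨m, hm⟩ := hb.bddBelow
  obtain ⟨M, hM⟩ := hb.bddAbove
  have hm' : U ⊆ Ioi (m - 1) := fun x hx => by
    have := hm hx
    show m - 1 < x
    linarith
  rcases hF.toFinset.eq_empty_or_nonempty with he | hne
  · have h1 : frontier U = ∅ := by simpa using he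
    rcases pre_alt (s := Set.univ) isPreconnected_univ (by rw [h1]; simp) with h | h
    · exfalso
      have := hm' (h (Set.mem_univ (m - 2)))
      have h2 : m - 1 < m - 2 := this
      linarith
    · have : U = ∅ := by simpa using h
      subst this
      simp
  · set b := hF.toFinset.max' hne with hbdef
    have hbF : b ∈ frontier U := hF.mem_toFinset.1 (Finset.max'_mem _ hne)
    have hbU : b ∉ U := by
      intro h
      rw [hU.frontier_eq] at hbF
      exact hbF.2 h
    have h1 : Ioi b ∩ frontier U = ∅ := by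
      ext y
      simp only [Set.mem_inter_iff, Set.mem_empty_iff_false, iff_false, not_and]
      intro hy hyF
      exact absurd (Finset.le_max' _ y (hF.mem_toFinset.2 hyF)) (not_le.2 hy)
    have hUb : U ⊆ Iio b := by
      rcases pre_alt isPreconnected_Ioi h1 with h | h
      · exfalso
        have h2 : max (b + 1) (M + 1) ∈ U := h (by
          show b < max (b + 1) (M + 1)
          exact lt_of_lt_of_le (by linarith) (le_max_left _ _))
        have h3 := hM h2
        have h4 : M + 1 ≤ max (b + 1) (M + 1) := le_max_right _ _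
        linarith
      · intro y hy
        rcases lt_trichotomy y b with h2 | h2 | h2
        · exact h2
        · exact absurd (h2 ▸ hy) hbU
        · exfalso
          have : y ∈ Ioi b ∩ U := ⟨h2, hy⟩
          rw [h] at this
          exact this
    obtain ⟨c, hc0, hc1, hc⟩ := main_step U hU (m - 1) hm' g hg (hF.toFinset.erase b) b (by
      intro y hy
      simp only [Finset.coe_erase, Set.mem_sdiff, Set.mem_singleton_iff]
      exact ⟨hF.mem_toFinset.2 hy.1, ne_of_lt hy.2⟩) (by
      intro t ht
      exact lt_of_le_of_ne (Finset.le_max' _ t (Finset.mem_of_mem_erase ht))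
        (Finset.ne_of_mem_erase ht))
    rw [Set.inter_eq_left.2 hUb] at hc
    have hsum : ∑ t ∈ hF.toFinset, |g t| = |g b| + ∑ t ∈ hF.toFinset.erase b, |g t| :=
      (Finset.add_sum_erase _ (fun t => |g t|) (Finset.max'_mem _ hne)).symm
    have e : (∫ t in U, deriv g t) = ((∫ t in U, deriv g t) - c * g b) + c * g b := by ring
    have h9 : |c * g b| ≤ |g b| := by
      rw [abs_mul, abs_of_nonneg hc0]
      nlinarith [abs_nonneg (g b)]
    have h10 : |∫ t in U, deriv g t| ≤ |(∫ t in U, deriv g t) - c * g b| + |c * g b| := by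
      conv_lhs => rw [e]
      exact abs_add_le _ _
    linarith

end Pool.Agent.Helper876.LOne
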