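import Pool.Agent.Helper876_Robin.LMain
import Pool.Agent.Helper876_Robin.LOne
import Pool.Agent.Helper876_Robin.LMult
import Pool.Agent.Helper876_Robin.LHalf
import Pool.Agent.Helper876_Robin.Final

/-!
# The ball maximises the first Robin eigenvalue for given surface area
-/

set_option autoImplicit false

open MeasureTheory Set Metric Filter Topology
open scoped ENNReal NNReal InnerProductSpace

namespace Pool.Agent.Helper876.Rob

/-- The one-sided Gauss-Green inequality for bounded open sets with boundary of finite measure. -/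
theorem half_gg {n : ℕ} (hn : 1 ≤ n) {Ω : Set (E n)} (hΩ : IsOpen Ω)
    (hb : Bornology.IsBounded Ω) (hfin : surf n (frontier Ω) < ⊤) :
    HalfGG Ω ((surf n).restrict (frontier Ω)) :=
  LHalf.half_gg n hn Ω hΩ hb hfin LOne.open_integral_le
    (fun _ K hK π hπ f hf => LMult.mult_le K hK π hπ _ (Nat.cast_nonneg _) f hf)

theorem frontier_null {n : ℕ} (hn : 1 ≤ n) {Ω : Set (E n)} (hfin : surf n (frontier Ω) < ⊤) :
    volume (frontier Ω) = 0 := by
  have h := Measure.euclideanHausdorffMeasure_zero_or_top (show n - 1 < n by omega) (frontier Ω)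
  rcases h with h | h
  · rwa [EuclideanSpace.euclideanHausdorffMeasure_eq_volume] at h
  · exact absurd h hfin.ne

/-- **The surface area constrained estimate.** If the boundary of the bounded open set `Ω` has the
measure of the sphere of radius `R`, then the Robin form on `Ω` with parameters `A` and `κ` takes
a negative value as soon as `κ` is smaller than the value of the ball. -/
theorem perimeter_key {n : ℕ} (hn : 2 ≤ n) {Ω : Set (E n)} (hΩ : IsOpen Ω) (hne : Ω.Nonempty)
    (hb : Bornology.IsBounded Ω) (hfin : surf n (frontier Ω) < ⊤) {R : ℝ} (hR : 0 < R)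
    (hper : (surf n (frontier Ω)).toReal = n * volume.real (ball (0 : E n) 1) * R ^ (n - 1))
    {p : ℝ → ℝ} (hpc : Continuous p)
    (hp : ∀ κ : ℝ, 0 < κ → Prof n κ (fun r => Real.sqrt κ * p (Real.sqrt κ * r)))
    {κ A : ℝ} (hκ : 0 < κ) (hA : Real.sqrt κ * p (Real.sqrt κ * R) < A) :
    ∃ u : E n → ℝ, ContDiff ℝ 1 u ∧ (∫ x in Ω, ‖fderiv ℝ u x‖ ^ 2) + κ * (∫ x in Ω, u x ^ 2) <
      A * ∫ x in frontier Ω, u x ^ 2 ∂(surf n) := by
  by_contra hcon
  push Not at hcon
  have hn0 : (2:ℝ) ≤ n := by exact_mod_cast hn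
  have hfinM : IsFiniteMeasure ((surf n).restrict (frontier Ω)) :=
    ⟨by rw [Measure.restrict_apply_univ]; exact hfin⟩
  have hG := half_gg (by omega) hΩ hb hfin
  obtain ⟨L, hL⟩ := hb.closure.subset_closedBall (0 : E n)
  have hL' : ((surf n).restrict (frontier Ω)) (closedBall (0 : E n) L)ᶜ = 0 := by
    rw [Measure.restrict_apply measurableSet_closedBall.compl]
    have : (closedBall (0 : E n) L)ᶜ ∩ frontier Ω = ∅ := by
      ext x
      simp only [mem_inter_iff, mem_compl_iff, mem_empty_iff_false, iff_false, not_and]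
      intro h1 h2
      exact h1 (hL (frontier_subset_closure h2))
    rw [this, measure_empty]
  -- a larger value of `κ`
  have hc : Continuous fun κ : ℝ => Real.sqrt κ * p (Real.sqrt κ * R) := by fun_prop
  have hev : ∀ᶠ κ' in 𝓝[>] κ, Real.sqrt κ' * p (Real.sqrt κ' * R) < A :=
    nhdsWithin_le_nhds ((hc.tendsto κ).eventually (gt_mem_nhds hA))
  obtain ⟨κ', hκ'A, hκκ'⟩ := (hev.and self_mem_nhdsWithin).exists
  have hκκ'' : κ < κ' := hκκ'
  obtain ⟨A', hA'1, hA'2⟩ := exists_between hκ'A
  have hκ'0 : 0 < κ' := hκ.trans hκκ''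
  have h1 := rough hn hΩ hne hb hG hL' (frontier_null (by omega) hfin) hκ hκκ'' hA'2 hcon
    (hp κ' hκ'0) hR hA'1
  rw [measureReal_restrict_apply_univ] at h1
  have hσ : (surf n).real (frontier Ω) = n * volume.real (ball (0 : E n) 1) * R ^ (n - 1) := hper
  rw [hσ] at h1
  -- the isoperimetric inequality
  have hiso : volume.real Ω ≤ volume.real (ball (0 : E n) 1) * R ^ n := by
    have h2 := per_le' (n := n) (σ := (surf n).restrict (frontier Ω)) (by omega) hΩ hne hb hG hL'
    rw [measureReal_restrict_apply_univ, hσ] at h2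
    obtain ⟨m, rfl⟩ : ∃ m, n = m + 1 := ⟨n - 1, by omega⟩
    have h3 : Pool.Agent.Helper88.Weyl.om (m + 1) = volume.real (ball (0 : E (m + 1)) 1) := by
      have := Pool.Agent.Helper88.Weyl.vol_ball (V := E (m + 1)) (n := m + 1) (by simp) (by omega) 0
        (zero_le_one (α := ℝ))
      rw [this]
      ring
    have h4 := Pool.Agent.Helper88.Weyl.isoper_vol (n := m) (E := Ω)
      hΩ.measurableSet.nullMeasurableSet (by omega) hb.measure_lt_top.ne hR (by
        rw [h3]
        push_cast at h2
        exact h2)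
    rwa [h3] at h4
  -- conclusion
  have hω := vol_one_pos (n := n)
  set ω := volume.real (ball (0 : E n) 1) with hωdef
  set T := 1 - TT n κ' (fun r => Real.sqrt κ' * p (Real.sqrt κ' * r)) R / κ' with hT
  have hRR : R * R ^ (n - 1) = R ^ n := by
    rw [← pow_succ']
    congr 1
    omega
  have e1 : ω * (n * (R ^ n / n - R ^ n / ((n : ℝ) - 1) * T)) =
      ω * R ^ n - R / ((n : ℝ) - 1) * T * (n * ω * R ^ (n - 1)) := by
    rw [← hRR]
    field_simp
  have e2 : 0 < (A' - Real.sqrt κ' * p (Real.sqrt κ' * R)) / κ' * (n * ω * R ^ (n - 1)) := by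
    have : 0 < A' - Real.sqrt κ' * p (Real.sqrt κ' * R) := by linarith
    positivity
  rw [e1] at h1
  nlinarith

/-- **The ball maximises the first Robin eigenvalue for given surface area.** -/
theorem perimeter_main {n : ℕ} (hn : 2 ≤ n) {Ω : Set (E n)} (hΩ : IsOpen Ω) (hne : Ω.Nonempty)
    (hb : Bornology.IsBounded Ω) {α : ℝ} (hα : α < 0) {c : E n} {R : ℝ} (hR : 0 < R)
    (hper : surf n (frontier Ω) = surf n (frontier (ball c R))) :
    lam1 Ω α ≤ lam1 (ball c R) α := by
  have hn0 : (2:ℝ) ≤ n := by exact_mod_cast hn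
  have : Nontrivial (E n) := by
    have : Nonempty (Fin n) := ⟨⟨0, by omega⟩⟩
    infer_instance
  obtain ⟨p, hpc, hp⟩ := prof_exists n hn
  have hp1 : Prof n 1 p := by simpa using hp 1 one_pos
  set A := -α with hA
  have hA0 : 0 < A := by rw [hA]; linarith
  obtain ⟨κB, hκB, hκBA⟩ := exists_kappa hn hp1 hR hA0
  have hsph : surf n (frontier (ball c R)) =
      ENNReal.ofReal (R ^ (n - 1)) * (n * (volume : Measure (E n)) (ball 0 1)) := by
    rw [frontier_ball c hR.ne']
    exact JS.sphere_mass n hn c R hR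
  have hfin : surf n (frontier Ω) < ⊤ := by
    rw [hper, hsph]
    exact ENNReal.mul_lt_top ENNReal.ofReal_lt_top
      (ENNReal.mul_lt_top (ENNReal.natCast_lt_top n) measure_ball_lt_top)
  have hreal : (surf n (frontier Ω)).toReal = n * volume.real (ball (0 : E n) 1) * R ^ (n - 1) := by
    rw [hper, hsph, ENNReal.toReal_mul, ENNReal.toReal_mul,
      ENNReal.toReal_ofReal (by positivity), ENNReal.toReal_natCast, measureReal_def]
    ring
  have hball : ((-κB : ℝ) : EReal) ≤ lam1 (ball c R) α := by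
    have h := lam1_ball_ge hn (hp κB hκB) hR (A := A) (le_of_eq hκBA.symm) c
    rwa [hA, neg_neg] at h
  refine le_trans ?_ hball
  by_contra hcon
  push Not at hcon
  -- a real number between
  obtain ⟨q, hq1, hq2⟩ := EReal.lt_iff_exists_real_btwn.1 hcon
  have hq1' : -κB < q := by exact_mod_cast hq1
  set κ := max (-q) (κB / 2) with hκ
  have hκ0 : 0 < κ := lt_of_lt_of_le (by positivity) (le_max_right _ _)
  have hκB' : κ < κB := max_lt (by linarith) (by linarith)
  have hκA : Real.sqrt κ * p (Real.sqrt κ * R) < A := by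
    rw [← hκBA]
    have h1 : Real.sqrt κ < Real.sqrt κB := Real.sqrt_lt_sqrt hκ0.le hκB'
    have h2 : 0 < Real.sqrt κ := Real.sqrt_pos.2 hκ0
    have h3 : p (Real.sqrt κ * R) < p (Real.sqrt κB * R) := by
      apply hp1.mono
      · exact (mul_pos h2 hR).le
      · exact (mul_pos (h2.trans h1) hR).le
      · exact mul_lt_mul_of_pos_right h1 hR
    have h4 := hp1.pos _ (mul_pos h2 hR)
    exact mul_lt_mul'' h1 h3 h2.le h4.le
  obtain ⟨u, hu, hlt⟩ := perimeter_key hn hΩ hne hb hfin hR hreal hpc hp hκ0 hκA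
  -- the test function does not vanish on `Ω`
  have hi2 : IntegrableOn (fun x => u x ^ 2) Ω := intOn hb (hu.continuous.pow 2)
  have hpos : 0 < ∫ x in Ω, u x ^ 2 := by
    by_contra hc0
    have h0 : ∫ x in Ω, u x ^ 2 = 0 :=
      le_antisymm (not_lt.1 hc0) (integral_nonneg fun x => sq_nonneg _)
    have h1 : ∀ x ∈ Ω, u x = 0 := by
      rw [setIntegral_eq_zero_iff_of_nonneg_ae (Eventually.of_forall fun x => sq_nonneg _) hi2] at h0
      intro x hx
      by_contra hux
      have h2 : ∀ᶠ y in 𝓝 x, u y ^ 2 ≠ 0 := by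
        have : ContinuousAt (fun y => u y ^ 2) x := (hu.continuous.pow 2).continuousAt
        exact this.eventually_ne (pow_ne_zero 2 hux)
      have h3 : ∀ᶠ y in 𝓝 x, y ∈ Ω := hΩ.mem_nhds hx
      obtain ⟨s, hs, hso, hxs⟩ := _root_.eventually_nhds_iff.1 (h2.and h3)
      have h4 : 0 < volume s := hso.measure_pos volume ⟨x, hxs⟩
      have h5 : volume s = 0 := by
        rw [Filter.EventuallyEq, ae_restrict_iff' hΩ.measurableSet, ae_iff] at h0
        refine measure_mono_null ?_ h0
        intro y hy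
        simp only [mem_setOf_eq, Classical.not_imp]
        exact ⟨(hs y hy).2, (hs y hy).1⟩
      exact h4.ne' h5
    have h6 : ∀ x ∈ closure Ω, u x = 0 := by
      intro x hx
      have : closure Ω ⊆ {x | u x = 0} :=
        closure_minimal h1 (isClosed_eq hu.continuous continuous_const)
      exact this hx
    have h7 : ∫ x in frontier Ω, u x ^ 2 ∂(surf n) = 0 := by
      rw [← integral_zero (E n) ℝ (μ := (surf n).restrict (frontier Ω))]
      apply setIntegral_congr_fun isClosed_frontier.measurableSet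
      intro x hx
      simp only
      rw [h6 x (frontier_subset_closure hx)]
      norm_num
    rw [h7, h0] at hlt
    have h8 : 0 ≤ ∫ x in Ω, ‖fderiv ℝ u x‖ ^ 2 := integral_nonneg fun x => sq_nonneg _
    linarith
  have h1 : lam1 Ω α ≤ ((rayleigh Ω α u : ℝ) : EReal) := iInf_le_of_le ⟨u, hu, hpos⟩ le_rfl
  have h2 : rayleigh Ω α u < -κ := by
    unfold rayleigh
    rw [div_lt_iff₀ hpos]
    have : α = -A := by rw [hA, neg_neg]
    rw [this]
    linarith
  have h3 : -κ ≤ q := by
    have := le_max_left (-q) (κB / 2)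
    linarith
  have h4 : ((rayleigh Ω α u : ℝ) : EReal) < (q : EReal) := by
    exact_mod_cast h2.trans_le h3
  exact absurd (hq2.trans_le h1) (not_lt.2 h4.le)

end Pool.Agent.Helper876.Rob
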