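import Pool.Agent.Helper876_Robin.LDefs

set_option autoImplicit false

open MeasureTheory Set Metric Filter Topology
open scoped ENNReal NNReal InnerProductSpace

namespace Pool.Agent.Helper876.LForm

open Pool.Agent.Helper876.Rob

variable {n : ℕ} {ρ S : E n → ℝ}

theorem rin (a b : ℝ) : ⟪a, b⟫_ℝ = a * b := by
  simp [mul_comm]

/-- The measure with density `w`. -/
noncomputable def wm {n : ℕ} (w : E n → ℝ) : Measure (E n) :=
  volume.withDensity (fun x => ENNReal.ofReal (w x))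

theorem wm_integral {w : E n → ℝ} (hw : Continuous w) (hw0 : ∀ x, 0 ≤ w x) (f : E n → ℝ) :
    ∫ x, f x ∂(wm w) = ∫ x, w x * f x := by
  unfold wm
  rw [integral_withDensity_eq_integral_toReal_smul (by fun_prop) (by simp)]
  refine integral_congr_ae (Eventually.of_forall fun x => ?_)
  simp [ENNReal.toReal_ofReal (hw0 x)]

theorem wm_integrable {w : E n → ℝ} (hw : Continuous w) (hw0 : ∀ x, 0 ≤ w x) (f : E n → ℝ) :
    Integrable f (wm w) ↔ Integrable (fun x => w x * f x) := by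
  unfold wm
  rw [integrable_withDensity_iff_integrable_smul' (by fun_prop) (by simp)]
  have : (fun x => (ENNReal.ofReal (w x)).toReal • f x) = fun x => w x * f x := by
    funext x
    simp [ENNReal.toReal_ofReal (hw0 x)]
  rw [this]

theorem wm_finite {w : E n → ℝ} (hw0 : ∀ x, 0 ≤ w x) (hi : Integrable w) :
    IsFiniteMeasure (wm w) := by
  unfold wm
  refine isFiniteMeasure_withDensity ?_
  rw [← ofReal_integral_eq_lintegral_ofReal hi (Eventually.of_forall hw0)]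
  exact ENNReal.ofReal_ne_top

theorem wm_abs {w : E n → ℝ} : wm w ≪ (volume : Measure (E n)) :=
  withDensity_absolutelyContinuous _ _

theorem eL2_le {F : Type*} [NormedAddCommGroup F] {w : E n → ℝ} (hw : Continuous w)
    (hw0 : ∀ x, 0 ≤ w x) (f : E n → F)
    {N : ℝ≥0∞} (h : ∫⁻ x, ENNReal.ofReal (w x * ‖f x‖ ^ 2) ≤ N) :
    eLpNorm f 2 (wm w) ≤ N ^ (1 / 2 : ℝ) := by
  have h2 : eLpNorm f 2 (wm w) ^ (2 : ℝ) = ∫⁻ x, ‖f x‖ₑ ^ (2 : ℝ) ∂(wm w) := by
    have := eLpNorm_nnreal_pow_eq_lintegral (p := 2) (μ := wm w) (f := f) (by norm_num)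
    simpa using this
  have h3 : ∫⁻ x, ‖f x‖ₑ ^ (2 : ℝ) ∂(wm w) = ∫⁻ x, ENNReal.ofReal (w x * ‖f x‖ ^ 2) := by
    unfold wm
    rw [lintegral_withDensity_eq_lintegral_mul_non_measurable _ (by fun_prop)
      (Eventually.of_forall fun x => ENNReal.ofReal_lt_top)]
    refine lintegral_congr fun x => ?_
    simp only [Pi.mul_apply]
    rw [ENNReal.ofReal_mul (hw0 x)]
    congr 1
    rw [← ofReal_norm, ENNReal.ofReal_rpow_of_nonneg (norm_nonneg _) (by norm_num)]
    norm_num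
  calc eLpNorm f 2 (wm w) = (eLpNorm f 2 (wm w) ^ (2 : ℝ)) ^ (1 / 2 : ℝ) := by
        rw [← ENNReal.rpow_mul]; norm_num
    _ ≤ N ^ (1 / 2 : ℝ) := by
        rw [h2, h3]
        exact ENNReal.rpow_le_rpow h (by norm_num)

theorem tin {F : Type*} [NormedAddCommGroup F] [InnerProductSpace ℝ F] {μ : Measure (E n)}
    {f g : ℕ → E n → F} {f' g' : E n → F} (hf : ∀ k, MemLp (f k) 2 μ) (hf' : MemLp f' 2 μ)
    (hg : ∀ k, MemLp (g k) 2 μ) (hg' : MemLp g' 2 μ)
    (h1 : Tendsto (fun k => eLpNorm (f k - f') 2 μ) atTop (𝓝 0))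
    (h2 : Tendsto (fun k => eLpNorm (g k - g') 2 μ) atTop (𝓝 0)) :
    Tendsto (fun k => ∫ x, ⟪f k x, g k x⟫_ℝ ∂μ) atTop (𝓝 (∫ x, ⟪f' x, g' x⟫_ℝ ∂μ)) := by
  have e : ∀ {a b : E n → F} (ha : MemLp a 2 μ) (hb : MemLp b 2 μ),
      ⟪ha.toLp a, hb.toLp b⟫_ℝ = ∫ x, ⟪a x, b x⟫_ℝ ∂μ := by
    intro a b ha hb
    rw [L2.inner_def]
    refine integral_congr_ae ?_
    filter_upwards [ha.coeFn_toLp, hb.coeFn_toLp] with x hx hy
    rw [hx, hy]
  have t1 := (Lp.tendsto_Lp_iff_tendsto_eLpNorm'' f hf f' hf').mpr h1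
  have t2 := (Lp.tendsto_Lp_iff_tendsto_eLpNorm'' g hg g' hg').mpr h2
  have t := t1.inner (𝕜 := ℝ) t2
  simpa only [e] using t

theorem iin {F : Type*} [NormedAddCommGroup F] [InnerProductSpace ℝ F] {μ : Measure (E n)}
    {f g : E n → F} (hf : MemLp f 2 μ) (hg : MemLp g 2 μ) :
    Integrable (fun x => ⟪f x, g x⟫_ℝ) μ := by
  have := L2.integrable_inner (𝕜 := ℝ) (hf.toLp f) (hg.toLp g)
  refine this.congr ?_
  filter_upwards [hf.coeFn_toLp, hg.coeFn_toLp] with x hx hy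
  rw [hx, hy]

theorem grad_meas {φ : E n → ℝ} (h : Tst φ) : Measurable (gradient φ) := by
  have h1 : Continuous (fderiv ℝ φ) := h.1.continuous_fderiv (by norm_num)
  have : gradient φ = fun x => (InnerProductSpace.toDual ℝ (E n)).symm (fderiv ℝ φ x) := rfl
  rw [this]
  exact ((InnerProductSpace.toDual ℝ (E n)).symm.continuous.comp h1).measurable

theorem grad_cont {φ : E n → ℝ} (h : Tst φ) : Continuous (gradient φ) := by
  have h1 : Continuous (fderiv ℝ φ) := h.1.continuous_fderiv (by norm_num)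
  have : gradient φ = fun x => (InnerProductSpace.toDual ℝ (E n)).symm (fderiv ℝ φ x) := rfl
  rw [this]
  exact (InnerProductSpace.toDual ℝ (E n)).symm.continuous.comp h1

theorem grad_norm (φ : E n → ℝ) (x : E n) : ‖gradient φ x‖ = ‖fderiv ℝ φ x‖ := by
  have : gradient φ x = (InnerProductSpace.toDual ℝ (E n)).symm (fderiv ℝ φ x) := rfl
  rw [this, LinearIsometryEquiv.norm_map]

theorem grad_inner (φ : E n → ℝ) (x v : E n) : ⟪gradient φ x, v⟫_ℝ = fderiv ℝ φ x v := by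
  have : gradient φ x = (InnerProductSpace.toDual ℝ (E n)).symm (fderiv ℝ φ x) := rfl
  rw [this, InnerProductSpace.toDual_symm_apply]

/-- Sequence of test functions at finite distance. -/
theorem seqn {u : E n → ℝ} {G : E n → E n} (h : InH ρ S u G) :
    ∃ φ : ℕ → E n → ℝ, (∀ k, Tst (φ k)) ∧ (∀ k, nd ρ S (φ k) (gradient (φ k)) u G < ⊤) ∧
      Tendsto (fun k => nd ρ S (φ k) (gradient (φ k)) u G) atTop (𝓝 0) := by
  obtain ⟨_, _, φ, hφ, ht⟩ := h
  have he : ∀ᶠ k in atTop, nd ρ S (φ k) (gradient (φ k)) u G < ⊤ :=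
    ht.eventually_lt_const ENNReal.zero_lt_top
  obtain ⟨K, hK⟩ := eventually_atTop.mp he
  refine ⟨fun k => φ (k + K), fun k => hφ _, fun k => hK _ (by omega), ?_⟩
  exact ht.comp (tendsto_add_atTop_nat K)

/-- The three convergences. -/
theorem conv (hρ : Continuous ρ) (hρ0 : ∀ x, 0 < ρ x) (hS : Continuous S) (hS0 : ∀ x, 0 ≤ S x)
    {u : E n → ℝ} {G : E n → E n} (h : InH ρ S u G) :
    ∃ φ : ℕ → E n → ℝ, (∀ k, Tst (φ k)) ∧
      (∀ k, MemLp (φ k - u) 2 (wm ρ)) ∧ (∀ k, MemLp (φ k - u) 2 (wm S)) ∧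
      (∀ k, MemLp (gradient (φ k) - G) 2 (wm ρ)) ∧
      Tendsto (fun k => eLpNorm (φ k - u) 2 (wm ρ)) atTop (𝓝 0) ∧
      Tendsto (fun k => eLpNorm (φ k - u) 2 (wm S)) atTop (𝓝 0) ∧
      Tendsto (fun k => eLpNorm (gradient (φ k) - G) 2 (wm ρ)) atTop (𝓝 0) := by
  obtain ⟨φ, hφ, hfin, ht⟩ := seqn h
  have b1 : ∀ k, eLpNorm (φ k - u) 2 (wm ρ) ≤
      (nd ρ S (φ k) (gradient (φ k)) u G) ^ (1 / 2 : ℝ) := by
    intro k
    refine eL2_le hρ (fun x => (hρ0 x).le) _ ?_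
    unfold nd
    refine lintegral_mono fun x => ENNReal.ofReal_le_ofReal ?_
    have h1 : ‖(φ k - u) x‖ ^ 2 = (φ k x - u x) ^ 2 := by
      simp [Pi.sub_apply]
    rw [h1]
    have h2 := mul_nonneg (hS0 x) (sq_nonneg (φ k x - u x))
    have h3 := mul_nonneg (hρ0 x).le (sq_nonneg (‖gradient (φ k) x - G x‖))
    nlinarith
  have b2 : ∀ k, eLpNorm (φ k - u) 2 (wm S) ≤
      (nd ρ S (φ k) (gradient (φ k)) u G) ^ (1 / 2 : ℝ) := by
    intro k
    refine eL2_le hS hS0 _ ?_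
    unfold nd
    refine lintegral_mono fun x => ENNReal.ofReal_le_ofReal ?_
    have h1 : ‖(φ k - u) x‖ ^ 2 = (φ k x - u x) ^ 2 := by
      simp [Pi.sub_apply]
    rw [h1]
    have h2 := mul_nonneg (hρ0 x).le (sq_nonneg (φ k x - u x))
    have h3 := mul_nonneg (hρ0 x).le (sq_nonneg (‖gradient (φ k) x - G x‖))
    nlinarith
  have b3 : ∀ k, eLpNorm (gradient (φ k) - G) 2 (wm ρ) ≤
      (nd ρ S (φ k) (gradient (φ k)) u G) ^ (1 / 2 : ℝ) := by
    intro k
    refine eL2_le hρ (fun x => (hρ0 x).le) _ ?_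
    unfold nd
    refine lintegral_mono fun x => ENNReal.ofReal_le_ofReal ?_
    simp only [Pi.sub_apply]
    have h2 := mul_nonneg (add_nonneg (hρ0 x).le (hS0 x)) (sq_nonneg (φ k x - u x))
    nlinarith
  have hlt : ∀ k, (nd ρ S (φ k) (gradient (φ k)) u G) ^ (1 / 2 : ℝ) < ⊤ :=
    fun k => ENNReal.rpow_lt_top_of_nonneg (by norm_num) (hfin k).ne
  have ht' : Tendsto (fun k => (nd ρ S (φ k) (gradient (φ k)) u G) ^ (1 / 2 : ℝ)) atTop
      (𝓝 0) := by
    have := (ENNReal.continuous_rpow_const (y := (1 / 2 : ℝ))).tendsto 0 |>.comp ht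
    simpa [Function.comp_def] using this
  have mu : Measurable u := h.1
  have mG : Measurable G := h.2.1
  have mφ : ∀ k, Measurable (φ k) := fun k => (hφ k).1.continuous.measurable
  have mg : ∀ k, Measurable (gradient (φ k)) := fun k => grad_meas (hφ k)
  refine ⟨φ, hφ, fun k => ⟨((mφ k).sub mu).aestronglyMeasurable, (b1 k).trans_lt (hlt k)⟩,
    fun k => ⟨((mφ k).sub mu).aestronglyMeasurable, (b2 k).trans_lt (hlt k)⟩,
    fun k => ⟨((mg k).sub mG).aestronglyMeasurable, (b3 k).trans_lt (hlt k)⟩, ?_, ?_, ?_⟩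
  · exact tendsto_of_tendsto_of_tendsto_of_le_of_le tendsto_const_nhds ht' (fun _ => bot_le) b1
  · exact tendsto_of_tendsto_of_tendsto_of_le_of_le tendsto_const_nhds ht' (fun _ => bot_le) b2
  · exact tendsto_of_tendsto_of_tendsto_of_le_of_le tendsto_const_nhds ht' (fun _ => bot_le) b3

theorem int_each (hρ : Continuous ρ) (hρ0 : ∀ x, 0 < ρ x) (hS : Continuous S) (hS0 : ∀ x, 0 ≤ S x)
    (hint : Integrable (fun x => ρ x + S x)) : Integrable ρ ∧ Integrable S := by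
  constructor
  · refine hint.mono hρ.aestronglyMeasurable (Eventually.of_forall fun x => ?_)
    rw [Real.norm_of_nonneg (hρ0 x).le, Real.norm_of_nonneg (add_nonneg (hρ0 x).le (hS0 x))]
    linarith [hS0 x]
  · refine hint.mono hS.aestronglyMeasurable (Eventually.of_forall fun x => ?_)
    rw [Real.norm_of_nonneg (hS0 x), Real.norm_of_nonneg (add_nonneg (hρ0 x).le (hS0 x))]
    linarith [hρ0 x]

/-- The full approximation package in case the weights are integrable. -/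
theorem pack (hρ : Continuous ρ) (hρ0 : ∀ x, 0 < ρ x) (hS : Continuous S) (hS0 : ∀ x, 0 ≤ S x)
    (hint : Integrable (fun x => ρ x + S x)) {u : E n → ℝ} {G : E n → E n} (h : InH ρ S u G) :
    MemLp u 2 (wm ρ) ∧ MemLp u 2 (wm S) ∧ MemLp G 2 (wm ρ) ∧
    ∃ φ : ℕ → E n → ℝ, (∀ k, Tst (φ k)) ∧
      (∀ k, MemLp (φ k) 2 (wm ρ)) ∧ (∀ k, MemLp (φ k) 2 (wm S)) ∧
      (∀ k, MemLp (gradient (φ k)) 2 (wm ρ)) ∧
      Tendsto (fun k => eLpNorm (φ k - u) 2 (wm ρ)) atTop (𝓝 0) ∧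
      Tendsto (fun k => eLpNorm (φ k - u) 2 (wm S)) atTop (𝓝 0) ∧
      Tendsto (fun k => eLpNorm (gradient (φ k) - G) 2 (wm ρ)) atTop (𝓝 0) := by
  obtain ⟨φ, hφ, m1, m2, m3, t1, t2, t3⟩ := conv hρ hρ0 hS hS0 h
  obtain ⟨hiρ, hiS⟩ := int_each hρ hρ0 hS hS0 hint
  have := wm_finite (fun x => (hρ0 x).le) hiρ
  have := wm_finite hS0 hiS
  have n1 : ∀ k, MemLp (φ k) 2 (wm ρ) := fun k => by
    obtain ⟨C, hC⟩ := (hφ k).2
    exact MemLp.of_bound (hφ k).1.continuous.aestronglyMeasurable C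
      (Eventually.of_forall fun x => (hC x).1)
  have n2 : ∀ k, MemLp (φ k) 2 (wm S) := fun k => by
    obtain ⟨C, hC⟩ := (hφ k).2
    exact MemLp.of_bound (hφ k).1.continuous.aestronglyMeasurable C
      (Eventually.of_forall fun x => (hC x).1)
  have n3 : ∀ k, MemLp (gradient (φ k)) 2 (wm ρ) := fun k => by
    obtain ⟨C, hC⟩ := (hφ k).2
    exact MemLp.of_bound (grad_meas (hφ k)).aestronglyMeasurable C
      (Eventually.of_forall fun x => by rw [grad_norm]; exact (hC x).2)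
  refine ⟨?_, ?_, ?_, φ, hφ, n1, n2, n3, t1, t2, t3⟩
  · have := (n1 0).sub (m1 0)
    simpa using this
  · have := (n2 0).sub (m2 0)
    simpa using this
  · have := (n3 0).sub (m3 0)
    simpa using this

theorem coer (hρ : Continuous ρ) (hρ0 : ∀ x, 0 < ρ x) (hS : Continuous S) (hS0 : ∀ x, 0 ≤ S x)
    (hint : Integrable (fun x => ρ x + S x)) {A κ : ℝ} (hA : 0 ≤ A) (hκ : 0 ≤ κ)
    (hc : Coer ρ S A κ) {u : E n → ℝ} {G : E n → E n} (h : InH ρ S u G) :
    A * ∫ x, S x * u x ^ 2 ≤ (∫ x, ρ x * ‖G x‖ ^ 2) + κ * ∫ x, ρ x * u x ^ 2 := by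
  obtain ⟨mu, mS, mG, φ, hφ, n1, n2, n3, t1, t2, t3⟩ := pack hρ hρ0 hS hS0 hint h
  have hρ' : ∀ x, 0 ≤ ρ x := fun x => (hρ0 x).le
  have l1 := tin n1 mu n1 mu t1 t1
  have l2 := tin n2 mS n2 mS t2 t2
  have l3 := tin n3 mG n3 mG t3 t3
  have e1 : ∀ f : E n → ℝ, ∫ x, ⟪f x, f x⟫_ℝ ∂(wm ρ) = ∫ x, ρ x * f x ^ 2 := by
    intro f
    rw [← wm_integral hρ hρ']
    simp [real_inner_self_eq_norm_sq]
  have e2 : ∀ f : E n → ℝ, ∫ x, ⟪f x, f x⟫_ℝ ∂(wm S) = ∫ x, S x * f x ^ 2 := by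
    intro f
    rw [← wm_integral hS hS0]
    simp [real_inner_self_eq_norm_sq]
  have e3 : ∀ f : E n → E n, ∫ x, ⟪f x, f x⟫_ℝ ∂(wm ρ) = ∫ x, ρ x * ‖f x‖ ^ 2 := by
    intro f
    rw [← wm_integral hρ hρ']
    simp [real_inner_self_eq_norm_sq]
  simp only [e1] at l1
  simp only [e2] at l2
  simp only [e3] at l3
  refine le_of_tendsto_of_tendsto (l2.const_mul A) (l3.add (l1.const_mul κ))
    (Eventually.of_forall fun k => ?_)
  have := hc (φ k) (hφ k)
  simp only [grad_norm]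
  exact this

/-- all products of two members are integrable -/
theorem int2 (hρ : Continuous ρ) (hρ0 : ∀ x, 0 < ρ x) (hS : Continuous S) (hS0 : ∀ x, 0 ≤ S x)
    (hint : Integrable (fun x => ρ x + S x)) {u : E n → ℝ} {G : E n → E n} (h : InH ρ S u G)
    {ψ : E n → ℝ} {Ψ : E n → E n} (h' : InH ρ S ψ Ψ) :
    Integrable (fun x => ρ x * ⟪G x, Ψ x⟫_ℝ) ∧ Integrable (fun x => S x * u x * ψ x) ∧
      Integrable (fun x => ρ x * u x * ψ x) ∧ Integrable (fun x => ρ x * u x) ∧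
      Integrable (fun x => S x * u x) := by
  obtain ⟨mu, mS, mG, -⟩ := pack hρ hρ0 hS hS0 hint h
  obtain ⟨mu', mS', mG', -⟩ := pack hρ hρ0 hS hS0 hint h'
  have hρ' : ∀ x, 0 ≤ ρ x := fun x => (hρ0 x).le
  obtain ⟨hiρ, hiS⟩ := int_each hρ hρ0 hS hS0 hint
  have := wm_finite hρ' hiρ
  have := wm_finite hS0 hiS
  refine ⟨?_, ?_, ?_, ?_, ?_⟩
  · exact (wm_integrable hρ hρ' _).mp (iin mG mG')
  · have := (wm_integrable hS hS0 _).mp (iin mS mS')
    refine this.congr (Eventually.of_forall fun x => ?_)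
    simp only [rin]
    ring
  · have := (wm_integrable hρ hρ' _).mp (iin mu mu')
    refine this.congr (Eventually.of_forall fun x => ?_)
    simp only [rin]
    ring
  · exact (wm_integrable hρ hρ' _).mp (mu.integrable (by norm_num))
  · exact (wm_integrable hS hS0 _).mp (mS.integrable (by norm_num))

theorem el (hρ : Continuous ρ) (hρ0 : ∀ x, 0 < ρ x) (hS : Continuous S) (hS0 : ∀ x, 0 ≤ S x)
    (hint : Integrable (fun x => ρ x + S x)) {A κ : ℝ} {u : E n → ℝ} {G : E n → E n}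
    (h : InH ρ S u G)
    (hel : ∀ φ : E n → ℝ, Tst φ → (∫ x, ρ x * ⟪G x, gradient φ x⟫_ℝ) - A * (∫ x, S x * u x * φ x) +
        κ * (∫ x, ρ x * u x * φ x) = κ * ∫ x, ρ x * φ x)
    {ψ : E n → ℝ} {Ψ : E n → E n} (h' : InH ρ S ψ Ψ) :
    (∫ x, ρ x * ⟪G x, Ψ x⟫_ℝ) - A * (∫ x, S x * u x * ψ x) + κ * (∫ x, ρ x * u x * ψ x) =
      κ * ∫ x, ρ x * ψ x := by
  obtain ⟨mu, mS, mG, -⟩ := pack hρ hρ0 hS hS0 hint h
  obtain ⟨mu', mS', mG', φ, hφ, n1, n2, n3, t1, t2, t3⟩ := pack hρ hρ0 hS hS0 hint h'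
  have hρ' : ∀ x, 0 ≤ ρ x := fun x => (hρ0 x).le
  obtain ⟨hiρ, hiS⟩ := int_each hρ hρ0 hS hS0 hint
  have := wm_finite hρ' hiρ
  have := wm_finite hS0 hiS
  have c0 : ∀ {F : Type} [NormedAddCommGroup F] (f : E n → F) (μ : Measure (E n)),
      Tendsto (fun _ : ℕ => eLpNorm (f - f) 2 μ) atTop (𝓝 0) := by
    intro F _ f μ
    simp
  have l1 := tin (fun _ => mu) mu n1 mu' (c0 u _) t1
  have l2 := tin (fun _ => mS) mS n2 mS' (c0 u _) t2
  have l3 := tin (fun _ => mG) mG n3 mG' (c0 G _) t3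
  have mc : MemLp (fun _ : E n => (1 : ℝ)) 2 (wm ρ) := memLp_const _
  have l4 := tin (fun _ => mc) mc n1 mu' (c0 _ _) t1
  have e1 : ∀ f : E n → ℝ, ∫ x, ⟪u x, f x⟫_ℝ ∂(wm ρ) = ∫ x, ρ x * u x * f x := by
    intro f
    rw [wm_integral hρ hρ']
    refine integral_congr_ae (Eventually.of_forall fun x => ?_)
    simp only [rin]
    ring
  have e2 : ∀ f : E n → ℝ, ∫ x, ⟪u x, f x⟫_ℝ ∂(wm S) = ∫ x, S x * u x * f x := by
    intro f
    rw [wm_integral hS hS0]
    refine integral_congr_ae (Eventually.of_forall fun x => ?_)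
    simp only [rin]
    ring
  have e3 : ∀ f : E n → E n, ∫ x, ⟪G x, f x⟫_ℝ ∂(wm ρ) = ∫ x, ρ x * ⟪G x, f x⟫_ℝ := by
    intro f
    rw [wm_integral hρ hρ']
  have e4 : ∀ f : E n → ℝ, ∫ x, ⟪(1 : ℝ), f x⟫_ℝ ∂(wm ρ) = ∫ x, ρ x * f x := by
    intro f
    rw [wm_integral hρ hρ']
    refine integral_congr_ae (Eventually.of_forall fun x => ?_)
    simp only [rin]
    ring
  simp only [e1] at l1
  simp only [e2] at l2
  simp only [e3] at l3
  simp only [e4] at l4
  have L := (l3.sub (l2.const_mul A)).add (l1.const_mul κ)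
  have R := l4.const_mul κ
  have hk : (fun k => (∫ x, ρ x * ⟪G x, gradient (φ k) x⟫_ℝ) - A * (∫ x, S x * u x * φ k x) +
        κ * (∫ x, ρ x * u x * φ k x)) = fun k => κ * ∫ x, ρ x * φ k x := by
    funext k
    exact hel (φ k) (hφ k)
  rw [hk] at L
  exact tendsto_nhds_unique L R


/-- On compact sets the weight is bounded below. -/
theorem loc_aux {F : Type*} [NormedAddCommGroup F] (hρ : Continuous ρ) (hρ0 : ∀ x, 0 < ρ x)
    {f : E n → F} (hfm : AEStronglyMeasurable f (volume : Measure (E n)))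
    (hf : MemLp f 2 (wm ρ)) : LocallyIntegrable f volume := by
  rw [locallyIntegrable_iff]
  intro K hK
  rcases K.eq_empty_or_nonempty with rfl | hne
  · simp
  obtain ⟨x0, hx0, hmin⟩ := hK.exists_isMinOn hne hρ.continuousOn
  have hc : 0 < ρ x0 := hρ0 x0
  have hsq : Integrable (fun x => ρ x * ‖f x‖ ^ 2) := by
    have h1 : Integrable (fun x => ‖f x‖ ^ 2) (wm ρ) := hf.integrable_norm_pow (by norm_num)
    exact (wm_integrable hρ (fun x => (hρ0 x).le) _).mp h1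
  have hdom : IntegrableOn (fun x => (1 + (ρ x0)⁻¹ * (ρ x * ‖f x‖ ^ 2))) K := by
    refine Integrable.add ?_ ?_
    · exact (continuous_const).continuousOn.integrableOn_compact hK
    · exact (hsq.const_mul _).integrableOn
  refine Integrable.mono' hdom hfm.restrict ?_
  rw [ae_restrict_iff' hK.measurableSet]
  refine Eventually.of_forall fun x hx => ?_
  have h1 : ρ x0 ≤ ρ x := hmin hx
  have h2 : ‖f x‖ ^ 2 ≤ (ρ x0)⁻¹ * (ρ x * ‖f x‖ ^ 2) := by
    rw [← mul_assoc]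
    have : 1 ≤ (ρ x0)⁻¹ * ρ x := by
      rw [inv_mul_eq_div, le_div_iff₀ hc]
      linarith
    nlinarith [sq_nonneg ‖f x‖]
  nlinarith [sq_nonneg (‖f x‖ - 1), norm_nonneg (f x)]

theorem loc (hρ : Continuous ρ) (hρ0 : ∀ x, 0 < ρ x) (hS : Continuous S) (hS0 : ∀ x, 0 ≤ S x)
    {u : E n → ℝ} {G : E n → E n} (h : InH ρ S u G) :
    LocallyIntegrable u volume ∧ LocallyIntegrable G volume := by
  obtain ⟨φ, hφ, m1, m2, m3, t1, t2, t3⟩ := conv hρ hρ0 hS hS0 h
  have c1 : LocallyIntegrable (φ 0) (volume : Measure (E n)) :=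
    (hφ 0).1.continuous.locallyIntegrable
  have c2 : LocallyIntegrable (gradient (φ 0)) (volume : Measure (E n)) :=
    (grad_cont (hφ 0)).locallyIntegrable
  have d1 := loc_aux hρ hρ0
    (((hφ 0).1.continuous.measurable.sub h.1).aestronglyMeasurable) (m1 0)
  have d2 := loc_aux hρ hρ0
    (((grad_meas (hφ 0)).sub h.2.1).aestronglyMeasurable) (m3 0)
  constructor
  · have := c1.sub d1
    simpa using this
  · have := c2.sub d2
    simpa using this

/-- pairing with a continuous function of compact support -/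
theorem pair_tendsto {F : Type*} [NormedAddCommGroup F] [InnerProductSpace ℝ F]
    (hρ : Continuous ρ) (hρ0 : ∀ x, 0 < ρ x)
    {f : ℕ → E n → F} (hf : ∀ k, MemLp (f k) 2 (wm ρ))
    (ht : Tendsto (fun k => eLpNorm (f k) 2 (wm ρ)) atTop (𝓝 0))
    {g : E n → F} (hg : Continuous g) (hgc : HasCompactSupport g) :
    (∀ k, Integrable (fun x => ⟪f k x, g x⟫_ℝ)) ∧
    Tendsto (fun k => ∫ x, ⟪f k x, g x⟫_ℝ) atTop (𝓝 0) := by
  have hρ' : ∀ x, 0 ≤ ρ x := fun x => (hρ0 x).le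
  have hg2 : MemLp (fun x => (ρ x)⁻¹ • g x) 2 (wm ρ) := by
    have hcont : Continuous (fun x => (ρ x)⁻¹ • g x) :=
      (hρ.inv₀ (fun x => (hρ0 x).ne')).smul hg
    have hcs : HasCompactSupport (fun x => (ρ x)⁻¹ • g x) := hgc.smul_left
    have : IsLocallyFiniteMeasure (wm ρ) := by
      unfold wm
      exact IsLocallyFiniteMeasure.withDensity_ofReal hρ
    exact hcont.memLp_of_hasCompactSupport hcs
  have hfg : ∀ k, (fun x => ρ x * ⟪f k x, (ρ x)⁻¹ • g x⟫_ℝ) = fun x => ⟪f k x, g x⟫_ℝ := by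
    intro k
    funext x
    rw [inner_smul_right, ← mul_assoc, mul_inv_cancel₀ (hρ0 x).ne', one_mul]
  constructor
  · intro k
    have := (wm_integrable hρ hρ' _).mp (iin (hf k) hg2)
    rwa [hfg k] at this
  · have h0 : MemLp (0 : E n → F) 2 (wm ρ) := MemLp.zero
    have t0 : Tendsto (fun k => eLpNorm (f k - 0) 2 (wm ρ)) atTop (𝓝 0) := by
      simpa using ht
    have t1 : Tendsto (fun _ : ℕ => eLpNorm ((fun x => (ρ x)⁻¹ • g x) -
        (fun x => (ρ x)⁻¹ • g x)) 2 (wm ρ)) atTop (𝓝 0) := by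
      simp
    have := tin hf h0 (fun _ => hg2) hg2 t0 t1
    simp only [wm_integral hρ hρ', Pi.zero_apply, inner_zero_left, mul_zero, integral_zero] at this
    refine this.congr fun k => ?_
    rw [← hfg k]

theorem weak (hρ : Continuous ρ) (hρ0 : ∀ x, 0 < ρ x) (hS : Continuous S) (hS0 : ∀ x, 0 ≤ S x)
    {u : E n → ℝ} {G : E n → E n} (h : InH ρ S u G) {φ : E n → ℝ} (hφ : ContDiff ℝ 1 φ)
    (hφc : HasCompactSupport φ) (v : E n) :
    ∫ x, u x * fderiv ℝ φ x v = - ∫ x, φ x * ⟪G x, v⟫_ℝ := by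
  obtain ⟨w, hw, m1, m2, m3, t1, t2, t3⟩ := conv hρ hρ0 hS hS0 h
  have cd : Continuous (fun x => fderiv ℝ φ x v) :=
    (hφ.continuous_fderiv (by norm_num)).clm_apply continuous_const
  have cds : HasCompactSupport (fun x => fderiv ℝ φ x v) := hφc.fderiv_apply ℝ v
  have cv : Continuous (fun x => φ x • v) := hφ.continuous.smul continuous_const
  have cvs : HasCompactSupport (fun x => φ x • v) := hφc.smul_right
  obtain ⟨i1, s1⟩ := pair_tendsto hρ hρ0 m1 t1 cd cds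
  obtain ⟨i2, s2⟩ := pair_tendsto hρ hρ0 m3 t3 cv cvs
  have key : ∀ k, (∫ x, ⟪(w k - u) x, fderiv ℝ φ x v⟫_ℝ) +
      (∫ x, ⟪(gradient (w k) - G) x, φ x • v⟫_ℝ) =
      - (∫ x, u x * fderiv ℝ φ x v) - ∫ x, φ x * ⟪G x, v⟫_ℝ := by
    intro k
    have j1 : Integrable (fun x => w k x * fderiv ℝ φ x v) :=
      ((hw k).1.continuous.mul cd).integrable_of_hasCompactSupport cds.mul_left
    have cg : Continuous (fun x => ⟪gradient (w k) x, v⟫_ℝ) := (grad_cont (hw k)).inner continuous_const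
    have j2 : Integrable (fun x => φ x * ⟪gradient (w k) x, v⟫_ℝ) :=
      (hφ.continuous.mul cg).integrable_of_hasCompactSupport hφc.mul_right
    have k1 : Integrable (fun x => u x * fderiv ℝ φ x v) := by
      refine (j1.sub (i1 k)).congr (Eventually.of_forall fun x => ?_)
      simp only [Pi.sub_apply, rin]
      ring
    have k2 : Integrable (fun x => φ x * ⟪G x, v⟫_ℝ) := by
      refine (j2.sub (i2 k)).congr (Eventually.of_forall fun x => ?_)
      simp only [Pi.sub_apply, inner_smul_right, inner_sub_left]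
      ring
    have p : ∫ x, w k x * fderiv ℝ φ x v = - ∫ x, φ x * ⟪gradient (w k) x, v⟫_ℝ := by
      have := integral_mul_fderiv_eq_neg_fderiv_mul_of_integrable (μ := (volume : Measure (E n)))
        (f := w k) (g := φ) (v := v) ?_ ?_ ?_ (fun x _ => (hw k).1.differentiable (by norm_num) x)
        (fun x _ => hφ.differentiable (by norm_num) x)
      · rw [this]
        congr 1
        refine integral_congr_ae (Eventually.of_forall fun x => ?_)
        simp only [grad_inner]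
        ring
      · refine j2.congr (Eventually.of_forall fun x => ?_)
        simp only [grad_inner]
        ring
      · exact j1
      · exact ((hw k).1.continuous.mul hφ.continuous).integrable_of_hasCompactSupport hφc.mul_left
    have q1 : ∫ x, ⟪(w k - u) x, fderiv ℝ φ x v⟫_ℝ =
        (∫ x, w k x * fderiv ℝ φ x v) - ∫ x, u x * fderiv ℝ φ x v := by
      rw [← integral_sub j1 k1]
      refine integral_congr_ae (Eventually.of_forall fun x => ?_)
      simp only [Pi.sub_apply, rin]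
      ring
    have q2 : ∫ x, ⟪(gradient (w k) - G) x, φ x • v⟫_ℝ =
        (∫ x, φ x * ⟪gradient (w k) x, v⟫_ℝ) - ∫ x, φ x * ⟪G x, v⟫_ℝ := by
      rw [← integral_sub j2 k2]
      refine integral_congr_ae (Eventually.of_forall fun x => ?_)
      simp only [Pi.sub_apply, inner_smul_right, inner_sub_left]
      ring
    rw [q1, q2, p]
    ring
  have := s1.add s2
  simp only [key, add_zero] at this
  have := tendsto_nhds_unique this tendsto_const_nhds
  linarith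

end Pool.Agent.Helper876.LForm
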