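import Mathlib

set_option autoImplicit false

open MeasureTheory Set Metric Filter Topology
open scoped ENNReal NNReal InnerProductSpace

namespace Pool.Agent.Helper876.LLip

/-- the space of the domain -/
abbrev EE (m : ℕ) := EuclideanSpace ℝ (Fin (m + 1))

section

variable {m : ℕ}

/-- inverse of the coordinates given by `R` -/
noncomputable def psi (R : EE m ≃ₗᵢ[ℝ] EE m) (x : Fin m → ℝ) (t : ℝ) : EE m :=
  R.symm (WithLp.toLp 2 (Fin.insertNth (α := fun _ => ℝ) (Fin.last m) t x))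

/-- the first coordinates -/
noncomputable def frs (R : EE m ≃ₗᵢ[ℝ] EE m) (y : EE m) : Fin m → ℝ :=
  fun i => EuclideanSpace.proj (Fin.castSucc i) (R y)

/-- the last coordinate -/
noncomputable def lst (R : EE m ≃ₗᵢ[ℝ] EE m) (y : EE m) : ℝ := EuclideanSpace.proj (Fin.last m) (R y)

/-- the last direction -/
noncomputable def ev (R : EE m ≃ₗᵢ[ℝ] EE m) : EE m := R.symm (EuclideanSpace.single (Fin.last m) 1)

theorem psi_frs_lst (R : EE m ≃ₗᵢ[ℝ] EE m) (y : EE m) : psi R (frs R y) (lst R y) = y := by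
  unfold psi
  rw [LinearIsometryEquiv.symm_apply_eq]
  ext i
  refine Fin.lastCases ?_ (fun j => ?_) i
  · simp [lst]
  · simp [frs]

theorem frs_psi (R : EE m ≃ₗᵢ[ℝ] EE m) (x : Fin m → ℝ) (t : ℝ) : frs R (psi R x t) = x := by
  ext i
  simp [frs, psi]

theorem lst_psi (R : EE m ≃ₗᵢ[ℝ] EE m) (x : Fin m → ℝ) (t : ℝ) : lst R (psi R x t) = t := by
  simp [lst, psi]

theorem psi_sub (R : EE m ≃ₗᵢ[ℝ] EE m) (x : Fin m → ℝ) (t s : ℝ) :
    psi R x (t - s) = psi R x t - s • ev R := by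
  unfold psi ev
  rw [← map_smul, ← map_sub]
  congr 1
  ext i
  refine Fin.lastCases ?_ (fun j => ?_) i
  · simp
  · simp

theorem norm_ev (R : EE m ≃ₗᵢ[ℝ] EE m) : ‖ev R‖ = 1 := by
  unfold ev
  rw [LinearIsometryEquiv.norm_map]
  simp

theorem cont_frs (R : EE m ≃ₗᵢ[ℝ] EE m) : Continuous (frs R) := by
  unfold frs
  fun_prop

theorem cont_lst (R : EE m ≃ₗᵢ[ℝ] EE m) : Continuous (lst R) := by
  unfold lst
  fun_prop

theorem psi_mp (R : EE m ≃ₗᵢ[ℝ] EE m) :
    MeasurePreserving (fun p : ℝ × (Fin m → ℝ) => psi R p.2 p.1) (volume.prod volume) volume := by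
  have h1 := (volume_preserving_piFinSuccAbove (fun _ : Fin (m + 1) => ℝ) (Fin.last m)).symm
  have h2 := PiLp.volume_preserving_toLp (Fin (m + 1))
  have h3 := R.symm.measurePreserving
  exact h3.comp (h2.comp h1)

/-- the Lipschitz constant -/
noncomputable def LL (m : ℕ) (K : ℝ≥0) : ℝ≥0 :=
  1 * (((Fintype.card (Fin (m + 1)) : ℝ≥0) ^ (1 / (2 : ℝ≥0∞)).toReal) * (max 1 K))

theorem lip_Phi (R : EE m ≃ₗᵢ[ℝ] EE m) (K : ℝ≥0) (g : (Fin m → ℝ) → ℝ) (hg : LipschitzWith K g) :
    LipschitzWith (LL m K) (fun x => psi R x (g x)) := by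
  have h1 : LipschitzWith (max 1 K)
      (fun x : Fin m → ℝ => Fin.insertNth (α := fun _ => ℝ) (Fin.last m) (g x) x) := by
    apply LipschitzWith.of_dist_le_mul
    intro x y
    rw [dist_pi_le_iff (by positivity)]
    intro i
    refine Fin.lastCases ?_ (fun j => ?_) i
    · simp only [Fin.insertNth_apply_same]
      calc dist (g x) (g y) ≤ K * dist x y := hg.dist_le_mul x y
        _ ≤ _ := mul_le_mul_of_nonneg_right (by exact_mod_cast le_max_right _ _) dist_nonneg
    · have e : ∀ z : Fin m → ℝ, ∀ t : ℝ,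
          Fin.insertNth (α := fun _ => ℝ) (Fin.last m) t z (Fin.castSucc j) = z j := by
        intro z t
        simp
      rw [e, e]
      calc dist (x j) (y j) ≤ 1 * dist x y := by rw [one_mul]; exact dist_le_pi_dist x y j
        _ ≤ _ := mul_le_mul_of_nonneg_right (by exact_mod_cast le_max_left _ _) dist_nonneg
  exact R.symm.lipschitz.comp ((PiLp.lipschitzWith_toLp 2 _).comp h1)

theorem haus_le (Φ : (Fin m → ℝ) → EE m) (L : ℝ≥0) (hΦ : LipschitzWith L Φ) (F : Set (EE m))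
    (π : EE m → (Fin m → ℝ)) (h : ∀ y ∈ F, Φ (π y) = y) :
    (Measure.hausdorffMeasure (m : ℝ) : Measure (EE m)).restrict F ≤
      ((L : ℝ≥0∞) ^ (m : ℝ)) • ((volume.restrict (π '' F)).map Φ) := by
  refine Measure.le_iff.2 fun B hB => ?_
  have hm := hΦ.continuous.measurable
  rw [Measure.restrict_apply hB, Measure.smul_apply, Measure.map_apply hm hB,
    Measure.restrict_apply (hm hB)]
  calc (Measure.hausdorffMeasure (m : ℝ) : Measure (EE m)) (B ∩ F)
      ≤ (Measure.hausdorffMeasure (m : ℝ) : Measure (EE m)) (Φ '' (Φ ⁻¹' B ∩ π '' F)) := by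
        apply measure_mono
        rintro y ⟨hyB, hyF⟩
        refine ⟨π y, ⟨?_, mem_image_of_mem π hyF⟩, h y hyF⟩
        rw [mem_preimage, h y hyF]
        exact hyB
    _ ≤ (L : ℝ≥0∞) ^ (m : ℝ) *
        (Measure.hausdorffMeasure (m : ℝ) : Measure (Fin m → ℝ)) (Φ ⁻¹' B ∩ π '' F) :=
        hΦ.hausdorffMeasure_image_le (Nat.cast_nonneg m) _
    _ = _ := by
        have e : (Measure.hausdorffMeasure (m : ℝ) : Measure (Fin m → ℝ)) = volume := by
          have := hausdorffMeasure_pi_real (ι := Fin m)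
          rwa [Fintype.card_fin] at this
        rw [e, smul_eq_mul]

/-- one-dimensional identity -/
theorem one_dim (v v' : ℝ → ℝ) (hv : ∀ s, HasDerivAt v (v' s) s) (hc : Continuous v') (h : ℝ) :
    h * v 0 = ∫ s in (0 : ℝ)..h, (v s - (h - s) * v' s) := by
  have h1 : ∀ s ∈ uIcc 0 h, HasDerivAt (fun s => -((h - s) * v s)) (v s - (h - s) * v' s) s := by
    intro s _
    have h2 := (((hasDerivAt_id s).const_sub h).mul (hv s)).neg
    refine h2.congr_deriv ?_
    simp
    ring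
  have hcv : Continuous v := continuous_iff_continuousAt.2 fun s => (hv s).continuousAt
  rw [intervalIntegral.integral_eq_sub_of_hasDerivAt h1
    ((by fun_prop : Continuous fun s => v s - (h - s) * v' s).intervalIntegrable _ _)]
  ring

/-- the weight function -/
noncomputable def wt (u : EE m → ℝ) (a δ : ℝ) (x : EE m) : ℝ :=
  a * u x ^ 2 + δ * ‖fderiv ℝ u x‖ ^ 2

theorem wt_cont {u : EE m → ℝ} (hu : ContDiff ℝ 1 u) (a δ : ℝ) : Continuous (wt u a δ) := by
  have h1 : Continuous u := hu.continuous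
  have h2 : Continuous (fderiv ℝ u) := hu.continuous_fderiv one_ne_zero
  unfold wt
  fun_prop

theorem wt_nonneg (u : EE m → ℝ) {a δ : ℝ} (ha : 0 ≤ a) (hδ : 0 ≤ δ) (x : EE m) :
    0 ≤ wt u a δ x := by
  unfold wt
  positivity

theorem point {u : EE m → ℝ} (hu : ContDiff ℝ 1 u) (y e : EE m) (he : ‖e‖ ≤ 1) (h δ : ℝ)
    (hh : 0 < h) (hδ : 0 < δ) :
    u y ^ 2 ≤ ∫ s in (0 : ℝ)..h, wt u (1 / h + 1 / δ) δ (y - s • e) := by
  have hd : Differentiable ℝ u := hu.differentiable one_ne_zero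
  have hcu : Continuous u := hu.continuous
  have hcf : Continuous (fderiv ℝ u) := hu.continuous_fderiv one_ne_zero
  have hline : ∀ s : ℝ, HasDerivAt (fun s : ℝ => y - s • e) (-e) s := by
    intro s
    have := ((hasDerivAt_id s).smul_const e).const_sub y
    simpa using this
  have h1 : ∀ s : ℝ, HasDerivAt (fun s : ℝ => u (y - s • e) ^ 2)
      (2 * u (y - s • e) * (fderiv ℝ u (y - s • e) (-e))) s := by
    intro s
    have h2 := ((hd (y - s • e)).hasFDerivAt.comp_hasDerivAt s (hline s)).pow 2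
    refine HasDerivAt.congr_deriv (f := fun s : ℝ => u (y - s • e) ^ 2) h2 ?_
    simp
  have h2 := one_dim _ _ h1 (by fun_prop) h
  simp only [zero_smul, sub_zero] at h2
  have h3 : ∫ s in (0 : ℝ)..h, (u (y - s • e) ^ 2 - (h - s) *
      (2 * u (y - s • e) * (fderiv ℝ u (y - s • e) (-e)))) ≤
      ∫ s in (0 : ℝ)..h, h * wt u (1 / h + 1 / δ) δ (y - s • e) := by
    apply intervalIntegral.integral_mono_on hh.le
    · exact Continuous.intervalIntegrable (by fun_prop) _ _
    · have := wt_cont hu (1 / h + 1 / δ) δ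
      exact Continuous.intervalIntegrable (by fun_prop) _ _
    · intro s hs
      set a := u (y - s • e) with ha
      set b := fderiv ℝ u (y - s • e) (-e) with hb
      set n := ‖fderiv ℝ u (y - s • e)‖ with hn
      have hbn : |b| ≤ n := by
        have := (fderiv ℝ u (y - s • e)).le_opNorm (-e)
        rw [norm_neg, ← hb, ← hn, Real.norm_eq_abs] at this
        exact this.trans (mul_le_of_le_one_right (norm_nonneg _) he)
      have e1 : wt u (1 / h + 1 / δ) δ (y - s • e) = (1 / h + 1 / δ) * a ^ 2 + δ * n ^ 2 := rfl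
      rw [e1]
      have hn0 : 0 ≤ n := norm_nonneg _
      have e2 : h * ((1 / h + 1 / δ) * a ^ 2 + δ * n ^ 2) =
          a ^ 2 + h * ((1 / δ) * a ^ 2 + δ * n ^ 2) := by
        field_simp
        ring
      rw [e2]
      have e3 : 2 * |a| * n ≤ (1 / δ) * a ^ 2 + δ * n ^ 2 := by
        have h5 : 0 ≤ (1 / δ) * (|a| - δ * n) ^ 2 := by positivity
        have h6 : (1 / δ) * (|a| - δ * n) ^ 2 = (1 / δ) * |a| ^ 2 + δ * n ^ 2 - 2 * |a| * n := by
          field_simp
          ring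
        rw [h6, sq_abs] at h5
        linarith
      have e4 : -((h - s) * (2 * a * b)) ≤ h * (2 * |a| * n) := by
        calc -((h - s) * (2 * a * b)) ≤ |(h - s) * (2 * a * b)| := neg_le_abs _
          _ = (h - s) * (2 * |a| * |b|) := by
            rw [abs_mul, abs_mul, abs_mul, abs_of_nonneg (sub_nonneg.2 hs.2), abs_two]
          _ ≤ h * (2 * |a| * n) := by
            apply mul_le_mul (by linarith [hs.1]) _ (by positivity) hh.le
            exact mul_le_mul_of_nonneg_left hbn (by positivity)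
      have e5 := mul_le_mul_of_nonneg_left e3 hh.le
      linarith
  rw [← h2, intervalIntegral.integral_const_mul] at h3
  exact le_of_mul_le_mul_left h3 hh

/-- points of the boundary lie on the graph -/
theorem on_graph {Ω : Set (EE m)} (hΩ : IsOpen Ω) {x0 : EE m} {r : ℝ} (R : EE m ≃ₗᵢ[ℝ] EE m)
    {g : (Fin m → ℝ) → ℝ} (hg : Continuous g)
    (hch : ∀ y ∈ ball x0 r, (y ∈ Ω ↔ lst R y < g (frs R y))) {y : EE m} (hy : y ∈ frontier Ω)
    (hyb : y ∈ ball x0 r) : lst R y = g (frs R y) := by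
  apply le_antisymm
  · by_contra hc
    rw [not_le] at hc
    have h1 : IsOpen {z | g (frs R z) < lst R z} :=
      isOpen_lt (hg.comp (cont_frs R)) (cont_lst R)
    have h2 : y ∈ closure Ω := frontier_subset_closure hy
    obtain ⟨z, ⟨hz1, hz2⟩, hz3⟩ := mem_closure_iff.1 h2 _ (h1.inter isOpen_ball) ⟨hc, hyb⟩
    exact absurd ((hch z hz2).1 hz3) (not_lt.2 (le_of_lt hz1))
  · by_contra hc
    rw [not_le] at hc
    have h1 : y ∈ Ω := (hch y hyb).2 hc
    rw [hΩ.frontier_eq] at hy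
    exact hy.2 h1

/-- the local estimate -/
theorem loc {Ω : Set (EE m)} (hΩ : IsOpen Ω) (x0 : EE m) (r : ℝ) (hr : 0 < r)
    (R : EE m ≃ₗᵢ[ℝ] EE m) (K : ℝ≥0) (g : (Fin m → ℝ) → ℝ) (hg : LipschitzWith K g)
    (hch : ∀ y ∈ ball x0 r, (y ∈ Ω ↔ lst R y < g (frs R y))) (δ : ℝ) (hδ : 0 < δ)
    (u : EE m → ℝ) (hu : ContDiff ℝ 1 u) :
    ∫⁻ x in frontier Ω ∩ ball x0 (r / 2), ENNReal.ofReal (u x ^ 2)
        ∂(Measure.hausdorffMeasure (m : ℝ)) ≤
      ((LL m K : ℝ≥0∞) ^ (m : ℝ)) *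
        ∫⁻ x in Ω, ENNReal.ofReal (wt u (1 / (r / 4) + 1 / δ) δ x) := by
  set F := frontier Ω ∩ ball x0 (r / 2) with hF
  set Φ : (Fin m → ℝ) → EE m := fun x => psi R x (g x) with hΦ
  have hlip : LipschitzWith (LL m K) Φ := lip_Phi R K g hg
  have hFb : ∀ y ∈ F, y ∈ ball x0 r := fun y hy => ball_subset_ball (by linarith) hy.2
  have hgr : ∀ y ∈ F, Φ (frs R y) = y := by
    intro y hy
    rw [hΦ]
    simp only
    rw [← on_graph hΩ R hg.continuous hch hy.1 (hFb y hy), psi_frs_lst]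
  have hcu : Continuous u := hu.continuous
  have hmeas : Measurable fun x : EE m => ENNReal.ofReal (u x ^ 2) :=
    ENNReal.measurable_ofReal.comp (hcu.pow 2).measurable
  set w := wt u (1 / (r / 4) + 1 / δ) δ with hw
  have hwc : Continuous w := wt_cont hu _ _
  have hwm : Measurable fun x : EE m => ENNReal.ofReal (w x) :=
    ENNReal.measurable_ofReal.comp hwc.measurable
  have hr4 : 0 < r / 4 := by linarith
  have hw0 : ∀ x, 0 ≤ w x := wt_nonneg u (by positivity) hδ.le
  set I : EE m → ℝ≥0∞ := Ω.indicator fun x => ENNReal.ofReal (w x) with hI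
  have hIm : Measurable I := hwm.indicator hΩ.measurableSet
  -- step 1
  have s1 : ∫⁻ x in F, ENNReal.ofReal (u x ^ 2) ∂(Measure.hausdorffMeasure (m : ℝ)) ≤
      ((LL m K : ℝ≥0∞) ^ (m : ℝ)) * ∫⁻ x in frs R '' F, ENNReal.ofReal (u (Φ x) ^ 2) := by
    calc ∫⁻ x in F, ENNReal.ofReal (u x ^ 2) ∂(Measure.hausdorffMeasure (m : ℝ))
        ≤ ∫⁻ x, ENNReal.ofReal (u x ^ 2)
          ∂(((LL m K : ℝ≥0∞) ^ (m : ℝ)) • ((volume.restrict (frs R '' F)).map Φ)) :=
          lintegral_mono' (haus_le Φ _ hlip F (frs R) hgr) le_rfl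
      _ = _ := by
        rw [lintegral_smul_measure, lintegral_map hmeas hlip.continuous.measurable, smul_eq_mul]
  -- step 2
  have s2 : ∀ x ∈ frs R '' F, ENNReal.ofReal (u (Φ x) ^ 2) ≤ ∫⁻ t : ℝ, I (psi R x t) := by
    rintro _ ⟨y, hy, rfl⟩
    rw [hgr y hy]
    have hyg := on_graph hΩ R hg.continuous hch hy.1 (hFb y hy)
    have h1 := point hu y (ev R) (norm_ev R).le (r / 4) δ hr4 hδ
    rw [← hw] at h1
    have hc2 : Continuous fun s : ℝ => w (y - s • ev R) := by fun_prop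
    calc ENNReal.ofReal (u y ^ 2)
        ≤ ENNReal.ofReal (∫ s in (0 : ℝ)..(r / 4), w (y - s • ev R)) :=
          ENNReal.ofReal_le_ofReal h1
      _ = ∫⁻ s in Ioc 0 (r / 4), ENNReal.ofReal (w (y - s • ev R)) := by
          rw [intervalIntegral.integral_of_le hr4.le,
            ofReal_integral_eq_lintegral_ofReal ((hc2.intervalIntegrable 0 (r / 4)).1)
              (Filter.Eventually.of_forall fun s => hw0 _)]
      _ ≤ ∫⁻ s in Ioc 0 (r / 4), I (psi R (frs R y) (lst R y - s)) := by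
          apply setLIntegral_mono' measurableSet_Ioc
          intro s hs
          rw [psi_sub, psi_frs_lst]
          have hb : y - s • ev R ∈ ball x0 r := by
            rw [mem_ball, dist_eq_norm]
            have e1 : y - s • ev R - x0 = (y - x0) - s • ev R := by abel
            rw [e1]
            have e2 : ‖y - x0‖ < r / 2 := by
              have := hy.2
              rwa [mem_ball, dist_eq_norm] at this
            have e3 : ‖s • ev R‖ ≤ r / 4 := by
              rw [norm_smul, norm_ev, mul_one, Real.norm_eq_abs, abs_of_pos hs.1]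
              exact hs.2
            calc ‖(y - x0) - s • ev R‖ ≤ ‖y - x0‖ + ‖s • ev R‖ := norm_sub_le _ _
              _ < r := by linarith
          have hin : y - s • ev R ∈ Ω := by
            rw [hch _ hb]
            have e4 : y - s • ev R = psi R (frs R y) (lst R y - s) := by
              rw [psi_sub, psi_frs_lst]
            rw [e4, lst_psi, frs_psi, ← hyg]
            linarith [hs.1]
          rw [hI, indicator_of_mem hin]
      _ ≤ ∫⁻ s : ℝ, I (psi R (frs R y) (lst R y - s)) := setLIntegral_le_lintegral _ _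
      _ = ∫⁻ t : ℝ, I (psi R (frs R y) t) :=
          lintegral_sub_left_eq_self (fun t => I (psi R (frs R y) t)) (lst R y)
  have hmp := psi_mp R
  have hJm : Measurable fun p : ℝ × (Fin m → ℝ) => I (psi R p.2 p.1) :=
    hIm.comp hmp.measurable
  have s3 : ∫⁻ x in frs R '' F, ENNReal.ofReal (u (Φ x) ^ 2) ≤
      ∫⁻ x : Fin m → ℝ, ∫⁻ t : ℝ, I (psi R x t) := by
    refine le_trans (setLIntegral_mono ?_ s2) (setLIntegral_le_lintegral _ _)
    exact hJm.lintegral_prod_left'
  have s4 : ∫⁻ x : Fin m → ℝ, ∫⁻ t : ℝ, I (psi R x t) = ∫⁻ x in Ω, ENNReal.ofReal (w x) := by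
    rw [← lintegral_indicator hΩ.measurableSet, ← hI, ← hmp.lintegral_comp hIm,
      lintegral_prod_symm' _ hJm]
  rw [s4] at s3
  exact s1.trans (mul_le_mul_right s3 _)

end

theorem lip_trace (m : ℕ) (Ω : Set (EuclideanSpace ℝ (Fin (m+1)))) (hΩ : IsOpen Ω)
    (hb : Bornology.IsBounded Ω)
    (hlip : ∀ x ∈ frontier Ω, ∃ r : ℝ, 0 < r ∧
      ∃ R : EuclideanSpace ℝ (Fin (m+1)) ≃ₗᵢ[ℝ] EuclideanSpace ℝ (Fin (m+1)),
      ∃ K : NNReal, ∃ g : (Fin m → ℝ) → ℝ, LipschitzWith K g ∧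
        ∀ y ∈ Metric.ball x r,
          (y ∈ Ω ↔ EuclideanSpace.proj (Fin.last m) (R y) <
              g (fun i => EuclideanSpace.proj (Fin.castSucc i) (R y)))) :
    ∀ ε : ℝ, 0 < ε → ∃ C : ℝ, ∀ u : EuclideanSpace ℝ (Fin (m+1)) → ℝ, ContDiff ℝ 1 u →
      ∫ x in frontier Ω, u x ^ 2 ∂(Measure.hausdorffMeasure (m : ℝ)) ≤
        ε * (∫ x in Ω, ‖fderiv ℝ u x‖ ^ 2) + C * ∫ x in Ω, u x ^ 2 := by
  classical
  choose! r hr R K g hg hch using hlip
  have hcomp : IsCompact (frontier Ω) := Metric.isCompact_of_isClosed_isBounded isClosed_frontier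
    (hb.closure.subset frontier_subset_closure)
  obtain ⟨T, hT1, hT2⟩ := hcomp.elim_nhds_subcover (fun x => ball x (r x / 2))
    (fun x hx => ball_mem_nhds x (half_pos (hr x hx)))
  set A : ℝ≥0 := ∑ x ∈ T, (LL m (K x)) ^ m with hA
  set H : ℝ := ∑ x ∈ T, 1 / (r x / 4) with hH
  have hH1 : ∀ x ∈ T, 1 / (r x / 4) ≤ H := fun x hx =>
    Finset.single_le_sum (f := fun x => 1 / (r x / 4))
      (fun y hy => by have := hr y (hT1 y hy); positivity) hx
  have hH0 : 0 ≤ H := Finset.sum_nonneg fun y hy => by have := hr y (hT1 y hy); positivity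
  intro ε hε
  set δ : ℝ := ε / (A + 1) with hδd
  have hδ : 0 < δ := by positivity
  have hAδ : A * δ ≤ ε := by
    rw [hδd, mul_div_assoc', div_le_iff₀ (by positivity)]
    nlinarith [hε.le, A.coe_nonneg]
  refine ⟨A * (H + 1 / δ), fun u hu => ?_⟩
  have hwc : Continuous (wt u (H + 1 / δ) δ) := wt_cont hu _ _
  have hint : ∀ f : EE m → ℝ, Continuous f → IntegrableOn f Ω := fun f hf =>
    (hf.continuousOn.integrableOn_compact hb.isCompact_closure).mono_set subset_closure
  have key : ∫⁻ x in frontier Ω, ENNReal.ofReal (u x ^ 2)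
      ∂(Measure.hausdorffMeasure (m : ℝ)) ≤
      A * ∫⁻ x in Ω, ENNReal.ofReal (wt u (H + 1 / δ) δ x) := by
    calc ∫⁻ x in frontier Ω, ENNReal.ofReal (u x ^ 2) ∂(Measure.hausdorffMeasure (m : ℝ))
        ≤ ∫⁻ x in ⋃ i : T, (frontier Ω ∩ ball i.1 (r i.1 / 2)), ENNReal.ofReal (u x ^ 2)
          ∂(Measure.hausdorffMeasure (m : ℝ)) := by
          apply lintegral_mono_set
          intro x hx
          obtain ⟨i, hi, hxi⟩ := mem_iUnion₂.1 (hT2 hx)
          exact mem_iUnion.2 ⟨⟨i, hi⟩, hx, hxi⟩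
      _ ≤ ∑' i : T, ∫⁻ x in frontier Ω ∩ ball i.1 (r i.1 / 2), ENNReal.ofReal (u x ^ 2)
          ∂(Measure.hausdorffMeasure (m : ℝ)) := lintegral_iUnion_le _ _
      _ ≤ ∑' i : T, (((LL m (K i.1)) ^ m : ℝ≥0) : ℝ≥0∞) *
          ∫⁻ x in Ω, ENNReal.ofReal (wt u (H + 1 / δ) δ x) := by
          apply ENNReal.tsum_le_tsum
          intro i
          have hi := hT1 i.1 i.2
          refine (loc hΩ i.1 (r i.1) (hr _ hi) (R i.1) (K i.1) (g i.1) (hg _ hi) (hch _ hi) δ hδ
            u hu).trans ?_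
          rw [ENNReal.rpow_natCast, ENNReal.coe_pow]
          refine mul_le_mul_right (lintegral_mono fun x => ENNReal.ofReal_le_ofReal ?_) _
          unfold wt
          have := hH1 i.1 i.2
          gcongr
      _ = _ := by
          rw [ENNReal.tsum_mul_right, tsum_fintype]
          congr 1
          rw [hA, ENNReal.ofNNReal_finsetSum, ← Finset.sum_coe_sort T]
  have hRHS : ∫⁻ x in Ω, ENNReal.ofReal (wt u (H + 1 / δ) δ x) =
      ENNReal.ofReal (∫ x in Ω, wt u (H + 1 / δ) δ x) := by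
    rw [ofReal_integral_eq_lintegral_ofReal (hint _ hwc)
      (Filter.Eventually.of_forall fun x => wt_nonneg u (by positivity) hδ.le x)]
  have hW0 : 0 ≤ ∫ x in Ω, wt u (H + 1 / δ) δ x :=
    integral_nonneg fun x => wt_nonneg u (by positivity) hδ.le x
  have hL : ∫ x in frontier Ω, u x ^ 2 ∂(Measure.hausdorffMeasure (m : ℝ)) ≤
      A * ∫ x in Ω, wt u (H + 1 / δ) δ x := by
    rw [integral_eq_lintegral_of_nonneg_ae (Filter.Eventually.of_forall fun x => sq_nonneg _)
      (hu.continuous.pow 2).aestronglyMeasurable]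
    rw [hRHS] at key
    refine ENNReal.toReal_le_of_le_ofReal (by positivity) (key.trans (le_of_eq ?_))
    rw [ENNReal.ofReal_mul A.coe_nonneg, ENNReal.ofReal_coe_nnreal]
  have hsplit : ∫ x in Ω, wt u (H + 1 / δ) δ x =
      (H + 1 / δ) * (∫ x in Ω, u x ^ 2) + δ * ∫ x in Ω, ‖fderiv ℝ u x‖ ^ 2 := by
    unfold wt
    rw [integral_add, integral_const_mul, integral_const_mul]
    · exact (hint _ (hu.continuous.pow 2)).const_mul _
    · exact (hint _ ((hu.continuous_fderiv one_ne_zero).norm.pow 2)).const_mul _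
  rw [hsplit] at hL
  have hG0 : 0 ≤ ∫ x in Ω, ‖fderiv ℝ u x‖ ^ 2 := integral_nonneg fun x => sq_nonneg _
  calc _ ≤ _ := hL
    _ = (A * δ) * (∫ x in Ω, ‖fderiv ℝ u x‖ ^ 2) + A * (H + 1 / δ) * ∫ x in Ω, u x ^ 2 := by ring
    _ ≤ _ := by gcongr

end Pool.Agent.Helper876.LLip
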