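import Pool.Agent.Helper876_Robin.LFinal
import Pool.Agent.Helper876_Robin.LLip

/-!
# Lipschitz domains, Rayleigh quotients over compactly supported functions
-/

set_option autoImplicit false

open MeasureTheory Set Metric Filter Topology
open scoped ENNReal NNReal InnerProductSpace

namespace Pool.Agent.Helper876.Rob

/-- the normalising factor of the Hausdorff measure -/
theorem exists_factor (m : ℕ) : ∃ c : ℝ≥0, 0 < c ∧
    surf (m + 1) = c • (Measure.hausdorffMeasure (m : ℝ) : Measure (E (m + 1))) := by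
  refine ⟨_, pos_iff_ne_zero.2
    (Measure.addHaarScalarFactor_volume_hausdorffMeasure_ne_zero m), ?_⟩
  unfold surf
  rw [Nat.add_sub_cancel, Measure.euclideanHausdorffMeasure_def]

/-- cut-off of a function of class `C¹` away from a bounded set -/
theorem exists_cut {n : ℕ} {Ω : Set (E n)} (hb : Bornology.IsBounded Ω) {u : E n → ℝ}
    (hu : ContDiff ℝ 1 u) : ∃ v : E n → ℝ, ContDiff ℝ 1 v ∧ HasCompactSupport v ∧
      ∀ x ∈ closure Ω, v =ᶠ[𝓝 x] u := by
  obtain ⟨L, hL⟩ := hb.closure.subset_closedBall (0 : E n)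
  set L' := max L 1 with hL'
  have hpos : 0 < L' + 1 := by
    have : (1:ℝ) ≤ L' := le_max_right _ _
    linarith
  let f : ContDiffBump (0 : E n) := ⟨L' + 1, L' + 2, hpos, by linarith⟩
  refine ⟨fun x => f x * u x, f.contDiff.mul hu, f.hasCompactSupport.mul_right, ?_⟩
  intro x hx
  have hx1 : ‖x‖ ≤ L := by simpa using hL hx
  have hx2 : ‖x‖ < L' + 1 := by
    have : L ≤ L' := le_max_left _ _
    linarith
  have hball : ball (0 : E n) (L' + 1) ∈ 𝓝 x := isOpen_ball.mem_nhds (by simpa using hx2)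
  filter_upwards [hball] with y hy
  have : f y = 1 := f.one_of_mem_closedBall (by
    have : dist y 0 < L' + 1 := hy
    exact mem_closedBall.2 this.le)
  rw [this, one_mul]

theorem cut_integrals {n : ℕ} {Ω : Set (E n)} (hΩ : IsOpen Ω) {u v : E n → ℝ}
    (h : ∀ x ∈ closure Ω, v =ᶠ[𝓝 x] u) (μ : Measure (E n)) :
    ∫ x in Ω, ‖fderiv ℝ v x‖ ^ 2 = ∫ x in Ω, ‖fderiv ℝ u x‖ ^ 2 ∧
    ∫ x in Ω, v x ^ 2 = ∫ x in Ω, u x ^ 2 ∧
    ∫ x in frontier Ω, v x ^ 2 ∂μ = ∫ x in frontier Ω, u x ^ 2 ∂μ := by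
  refine ⟨?_, ?_, ?_⟩
  · apply setIntegral_congr_fun hΩ.measurableSet
    intro x hx
    simp only
    rw [(h x (subset_closure hx)).fderiv_eq]
  · apply setIntegral_congr_fun hΩ.measurableSet
    intro x hx
    simp only
    rw [(h x (subset_closure hx)).self_of_nhds]
  · apply setIntegral_congr_fun isClosed_frontier.measurableSet
    intro x hx
    simp only
    rw [(h x (frontier_subset_closure hx)).self_of_nhds]

/-- a continuous function with zero square integral on an open set vanishes on its closure -/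
theorem zero_on_closure {n : ℕ} {Ω : Set (E n)} (hΩ : IsOpen Ω) (hb : Bornology.IsBounded Ω)
    {u : E n → ℝ} (hu : Continuous u) (h0 : ∫ x in Ω, u x ^ 2 = 0) : ∀ x ∈ closure Ω, u x = 0 := by
  have hi2 : IntegrableOn (fun x => u x ^ 2) Ω := intOn hb (hu.pow 2)
  have h1 : ∀ x ∈ Ω, u x = 0 := by
    rw [setIntegral_eq_zero_iff_of_nonneg_ae (Eventually.of_forall fun x => sq_nonneg _) hi2] at h0
    intro x hx
    by_contra hux
    have h2 : ∀ᶠ y in 𝓝 x, u y ^ 2 ≠ 0 := by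
      have : ContinuousAt (fun y => u y ^ 2) x := (hu.pow 2).continuousAt
      exact this.eventually_ne (pow_ne_zero 2 hux)
    have h3 : ∀ᶠ y in 𝓝 x, y ∈ Ω := hΩ.mem_nhds hx
    obtain ⟨s, hs, hso, hxs⟩ := _root_.eventually_nhds_iff.1 (h2.and h3)
    have h4 : 0 < volume s := hso.measure_pos volume ⟨x, hxs⟩
    have h5 : volume s = 0 := by
      rw [Filter.EventuallyEq, ae_restrict_iff' hΩ.measurableSet, ae_iff] at h0
      refine measure_mono_null ?_ h0
      intro y hy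
      simp only [mem_ofPred_eq, Classical.not_imp]
      exact ⟨(hs y hy).2, (hs y hy).1⟩
    exact h4.ne' h5
  intro x hx
  have : closure Ω ⊆ {x | u x = 0} :=
    closure_minimal h1 (isClosed_eq hu continuous_const)
  exact this hx

/-- The frozen statement S06467 of MP_e2972c_an. -/
theorem frozen_main (m : ℕ) (hm : 2 ≤ m) (α : ℝ) (hα : α < 0)
    (Ω : Set (EuclideanSpace ℝ (Fin (m+1)))) (hΩ : IsOpen Ω) (hne : Ω.Nonempty)
    (hb : Bornology.IsBounded Ω)
    (hlip : ∀ x ∈ frontier Ω, ∃ r : ℝ, 0 < r ∧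
      ∃ R : EuclideanSpace ℝ (Fin (m+1)) ≃ₗᵢ[ℝ] EuclideanSpace ℝ (Fin (m+1)),
      ∃ K : NNReal, ∃ g : (Fin m → ℝ) → ℝ, LipschitzWith K g ∧
        ∀ y ∈ Metric.ball x r,
          (y ∈ Ω ↔ EuclideanSpace.proj (Fin.last m) (R y) <
              g (fun i => EuclideanSpace.proj (Fin.castSucc i) (R y))))
    (c : EuclideanSpace ℝ (Fin (m+1))) (ρ : ℝ) (hρ : 0 < ρ)
    (hper : MeasureTheory.Measure.hausdorffMeasure (m : ℝ) (frontier (Metric.ball c ρ)) =
      MeasureTheory.Measure.hausdorffMeasure (m : ℝ) (frontier Ω)) :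
    sInf {t : ℝ | ∃ u : EuclideanSpace ℝ (Fin (m+1)) → ℝ, ContDiff ℝ 1 u ∧ HasCompactSupport u ∧
        (∫ x in Ω, u x ^ 2) ≠ 0 ∧
        t = ((∫ x in Ω, ‖fderiv ℝ u x‖ ^ 2) +
              α * ∫ x in frontier Ω, u x ^ 2 ∂(MeasureTheory.Measure.hausdorffMeasure (m : ℝ)))
            / ∫ x in Ω, u x ^ 2}
    ≤ sInf {t : ℝ | ∃ u : EuclideanSpace ℝ (Fin (m+1)) → ℝ, ContDiff ℝ 1 u ∧ HasCompactSupport u ∧
        (∫ x in Metric.ball c ρ, u x ^ 2) ≠ 0 ∧
        t = ((∫ x in Metric.ball c ρ, ‖fderiv ℝ u x‖ ^ 2) +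
              α * ∫ x in frontier (Metric.ball c ρ), u x ^ 2
                    ∂(MeasureTheory.Measure.hausdorffMeasure (m : ℝ)))
            / ∫ x in Metric.ball c ρ, u x ^ 2} := by
  have hn : 2 ≤ m + 1 := by omega
  have : Nontrivial (E (m + 1)) := by
    have : Nonempty (Fin (m + 1)) := ⟨⟨0, by omega⟩⟩
    infer_instance
  obtain ⟨k, hk, hsurf⟩ := exists_factor m
  have hk0 : (0:ℝ) < k := hk
  have hkint : ∀ (s : Set (E (m + 1))) (f : E (m + 1) → ℝ),
      ∫ x in s, f x ∂(surf (m + 1)) =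
        k * ∫ x in s, f x ∂(Measure.hausdorffMeasure (m : ℝ)) := by
    intro s f
    rw [hsurf, Measure.restrict_smul, integral_smul_nnreal_measure]
    rfl
  set A := -α / k with hA
  have hA0 : 0 < A := div_pos (by linarith) hk0
  obtain ⟨p, hpc, hp⟩ := prof_exists (m + 1) hn
  have hp1 : Prof (m + 1) 1 p := by simpa using hp 1 one_pos
  obtain ⟨κB, hκB, hκBA⟩ := exists_kappa hn hp1 hρ hA0
  -- measures of the boundaries
  have hsph : surf (m + 1) (frontier (ball c ρ)) =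
      ENNReal.ofReal (ρ ^ (m + 1 - 1)) * ((m + 1 : ℕ) * (volume : Measure (E (m + 1))) (ball 0 1)) := by
    rw [frontier_ball c hρ.ne']
    exact JS.sphere_mass (m + 1) hn c ρ hρ
  have hper' : surf (m + 1) (frontier Ω) = surf (m + 1) (frontier (ball c ρ)) := by
    rw [hsurf, Measure.smul_apply, Measure.smul_apply, hper]
  have hfin : surf (m + 1) (frontier Ω) < ⊤ := by
    rw [hper', hsph]
    exact ENNReal.mul_lt_top ENNReal.ofReal_lt_top
      (ENNReal.mul_lt_top (ENNReal.natCast_lt_top _) measure_ball_lt_top)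
  have hreal : (surf (m + 1) (frontier Ω)).toReal =
      (m + 1 : ℕ) * volume.real (ball (0 : E (m + 1)) 1) * ρ ^ (m + 1 - 1) := by
    rw [hper', hsph, ENNReal.toReal_mul, ENNReal.toReal_mul,
      ENNReal.toReal_ofReal (by positivity), ENNReal.toReal_natCast, measureReal_def]
    ring
  -- the ball
  have hballlb : -κB ≤ sInf {t : ℝ | ∃ u : EuclideanSpace ℝ (Fin (m+1)) → ℝ, ContDiff ℝ 1 u ∧
        HasCompactSupport u ∧ (∫ x in Metric.ball c ρ, u x ^ 2) ≠ 0 ∧
        t = ((∫ x in Metric.ball c ρ, ‖fderiv ℝ u x‖ ^ 2) +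
              α * ∫ x in frontier (Metric.ball c ρ), u x ^ 2
                    ∂(MeasureTheory.Measure.hausdorffMeasure (m : ℝ)))
            / ∫ x in Metric.ball c ρ, u x ^ 2} := by
    apply le_csInf
    · -- a bump function
      obtain ⟨v, hv, hvc, hveq⟩ := exists_cut (isBounded_ball (x := c) (r := ρ))
        (contDiff_const (c := (1:ℝ)) : ContDiff ℝ 1 fun _ : E (m + 1) => (1:ℝ))
      obtain ⟨-, h2, -⟩ := cut_integrals isOpen_ball hveq (surf (m + 1))
      refine ⟨_, v, hv, hvc, ?_, rfl⟩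
      rw [h2]
      simp only [one_pow, integral_const, smul_eq_mul, mul_one]
      rw [measureReal_restrict_apply_univ, measureReal_def]
      exact (ENNReal.toReal_pos (measure_ball_pos _ _ hρ).ne' measure_ball_lt_top.ne).ne'
    · rintro t ⟨u, hu, -, hne0, rfl⟩
      have hpos : 0 < ∫ x in Metric.ball c ρ, u x ^ 2 :=
        lt_of_le_of_ne (integral_nonneg fun x => sq_nonneg _) (Ne.symm hne0)
      rw [le_div_iff₀ hpos]
      have h1 := JL.lb_ball (m + 1) hn (surf (m + 1))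
        (fun c R hR g hg => JS.sphere_integral (m + 1) hn c R hR g hg) c ρ hρ _
        (hp κB hκB).cont.continuousOn κB A (fun r hr => ⟨_, (hp κB hκB).deriv r hr.1, by
          apply le_of_eq; ring⟩) (le_of_eq hκBA.symm) u hu
      rw [frontier_ball c hρ.ne']
      rw [hkint] at h1
      have h2 : A * (k * ∫ x in sphere c ρ, u x ^ 2 ∂(Measure.hausdorffMeasure (m : ℝ))) =
          -α * ∫ x in sphere c ρ, u x ^ 2 ∂(Measure.hausdorffMeasure (m : ℝ)) := by
        rw [hA]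
        field_simp
      rw [h2] at h1
      linarith
  refine le_trans ?_ hballlb
  -- the domain
  have hbdd : BddBelow {t : ℝ | ∃ u : EuclideanSpace ℝ (Fin (m+1)) → ℝ, ContDiff ℝ 1 u ∧
        HasCompactSupport u ∧ (∫ x in Ω, u x ^ 2) ≠ 0 ∧
        t = ((∫ x in Ω, ‖fderiv ℝ u x‖ ^ 2) +
              α * ∫ x in frontier Ω, u x ^ 2 ∂(MeasureTheory.Measure.hausdorffMeasure (m : ℝ)))
            / ∫ x in Ω, u x ^ 2} := by
    obtain ⟨C, hC⟩ := LLip.lip_trace m Ω hΩ hb hlip (1 / (-α)) (by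
      apply one_div_pos.2
      linarith)
    refine ⟨α * C, ?_⟩
    rintro t ⟨u, hu, -, hne0, rfl⟩
    have hpos : 0 < ∫ x in Ω, u x ^ 2 :=
      lt_of_le_of_ne (integral_nonneg fun x => sq_nonneg _) (Ne.symm hne0)
    rw [le_div_iff₀ hpos]
    have h1 := hC u hu
    have h2 := mul_le_mul_of_nonneg_left h1 (show (0:ℝ) ≤ -α by linarith)
    have h3 : -α * (1 / -α * (∫ x in Ω, ‖fderiv ℝ u x‖ ^ 2) + C * ∫ x in Ω, u x ^ 2) =
        (∫ x in Ω, ‖fderiv ℝ u x‖ ^ 2) - α * C * ∫ x in Ω, u x ^ 2 := by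
      have h0 : -α ≠ 0 := neg_ne_zero.2 hα.ne
      rw [mul_add, ← mul_assoc, mul_one_div_cancel h0]
      ring
    rw [h3] at h2
    linarith
  by_contra hcon
  push Not at hcon
  obtain ⟨q, hq1, hq2⟩ := exists_between hcon
  set κ := max (-q) (κB / 2) with hκ
  have hκ0 : 0 < κ := lt_of_lt_of_le (by positivity) (le_max_right _ _)
  have hκB' : κ < κB := max_lt (by linarith) (by linarith)
  have hκA : Real.sqrt κ * p (Real.sqrt κ * ρ) < A := by
    rw [← hκBA]
    have h1 : Real.sqrt κ < Real.sqrt κB := Real.sqrt_lt_sqrt hκ0.le hκB'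
    have h2 : 0 < Real.sqrt κ := Real.sqrt_pos.2 hκ0
    have h3 : p (Real.sqrt κ * ρ) < p (Real.sqrt κB * ρ) := by
      apply hp1.mono
      · exact (mul_pos h2 hρ).le
      · exact (mul_pos (h2.trans h1) hρ).le
      · exact mul_lt_mul_of_pos_right h1 hρ
    have h4 := hp1.pos _ (mul_pos h2 hρ)
    exact mul_lt_mul'' h1 h3 h2.le h4.le
  obtain ⟨u, hu, hlt⟩ := perimeter_key hn hΩ hne hb hfin hρ hreal hpc hp hκ0 hκA
  obtain ⟨v, hv, hvc, hveq⟩ := exists_cut hb hu
  obtain ⟨e1, e2, e3⟩ := cut_integrals hΩ hveq (surf (m + 1))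
  rw [← e1, ← e2, ← e3] at hlt
  have hne0 : (∫ x in Ω, v x ^ 2) ≠ 0 := by
    intro h0
    have h6 := zero_on_closure hΩ hb hv.continuous h0
    have h7 : ∫ x in frontier Ω, v x ^ 2 ∂(surf (m + 1)) = 0 := by
      rw [← integral_zero (E (m + 1)) ℝ (μ := (surf (m + 1)).restrict (frontier Ω))]
      apply setIntegral_congr_fun isClosed_frontier.measurableSet
      intro x hx
      simp only
      rw [h6 x (frontier_subset_closure hx)]
      norm_num
    rw [h7, h0] at hlt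
    have h8 : 0 ≤ ∫ x in Ω, ‖fderiv ℝ v x‖ ^ 2 := integral_nonneg fun x => sq_nonneg _
    linarith
  have hpos : 0 < ∫ x in Ω, v x ^ 2 :=
    lt_of_le_of_ne (integral_nonneg fun x => sq_nonneg _) (Ne.symm hne0)
  have h1 := csInf_le hbdd ⟨v, hv, hvc, hne0, rfl⟩
  have h2 : ((∫ x in Ω, ‖fderiv ℝ v x‖ ^ 2) +
      α * ∫ x in frontier Ω, v x ^ 2 ∂(Measure.hausdorffMeasure (m : ℝ))) / ∫ x in Ω, v x ^ 2 <
      -κ := by
    rw [div_lt_iff₀ hpos]
    rw [hkint] at hlt
    have h3 : A * (k * ∫ x in frontier Ω, v x ^ 2 ∂(Measure.hausdorffMeasure (m : ℝ))) =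
        -α * ∫ x in frontier Ω, v x ^ 2 ∂(Measure.hausdorffMeasure (m : ℝ)) := by
      rw [hA]
      field_simp
    rw [h3] at hlt
    linarith
  have h3 : -κ ≤ q := by
    have := le_max_left (-q) (κB / 2)
    linarith
  linarith

end Pool.Agent.Helper876.Rob
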