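import Pool.Agent.Helper876_Robin.LAsm

/-!
# The contact set estimate for bounded open sets
-/

set_option autoImplicit false

open MeasureTheory Set Metric Filter Topology
open scoped ENNReal NNReal InnerProductSpace

namespace Pool.Agent.Helper876.Rob

set_option maxHeartbeats 1000000 in
/-- **The contact set estimate for a bounded open set** with the one-sided Gauss-Green property, on
which the Robin form with the parameters `A` and `κ` is nonnegative. -/
theorem rough {n : ℕ} (hn : 2 ≤ n) {Ω : Set (E n)} {σ : Measure (E n)} [IsFiniteMeasure σ]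
    (hΩ : IsOpen Ω) (hne : Ω.Nonempty) (hb : Bornology.IsBounded Ω) (hG : HalfGG Ω σ) {L : ℝ}
    (hL : σ (closedBall 0 L)ᶜ = 0) (hnull : volume (frontier Ω) = 0) {A κ A' κ' : ℝ}
    (hκ : 0 < κ) (hκ' : κ < κ') (hA' : A' < A)
    (hco : ∀ u : E n → ℝ, ContDiff ℝ 1 u → A * (∫ x, u x ^ 2 ∂σ) ≤
      (∫ x in Ω, ‖fderiv ℝ u x‖ ^ 2) + κ * ∫ x in Ω, u x ^ 2)
    {p : ℝ → ℝ} (hp : Prof n κ' p) {R : ℝ} (hR : 0 < R) (hRA : p R < A') :
    volume.real (ball (0 : E n) 1) *
        (n * (R ^ n / n - R ^ n / ((n : ℝ) - 1) * (1 - TT n κ' p R / κ'))) ≤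
      volume.real Ω - ((A' - p R) / κ' + R / ((n : ℝ) - 1) * (1 - TT n κ' p R / κ')) *
        σ.real univ := by
  have hn0 : (2:ℝ) ≤ n := by exact_mod_cast hn
  have hn1 : 1 ≤ n := by omega
  have hκ'0 : 0 < κ' := hκ.trans hκ'
  have hpR : 0 < p R := hp.pos R hR
  have hA'0 : 0 < A' := hpR.trans hRA
  obtain ⟨CJ, hCJ, hcal⟩ := calib3 hn hκ'0 hp hR
  -- intermediate slopes
  set a := (2 * p R + A') / 3 with ha
  set b := (p R + 2 * A') / 3 with hb'
  have hRa : p R < a := by rw [ha]; linarith
  have hab : a < b := by rw [ha, hb']; linarith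
  have hbA : b < A' := by rw [hb']; linarith
  have ha0 : 0 < a := hpR.trans hRa
  have hb0 : 0 < b := ha0.trans hab
  -- one step
  have step : ∀ t : ℝ, 0 < t → ∀ ε : ℝ, 0 < ε →
      κ' < (A' - a) * (((t / 2) / (Real.sqrt 2 * ε ^ 2) - n / (t / 2)) / n) →
      volume.real (ball (0 : E n) 1) *
        (n * (R ^ n / n - R ^ n / ((n : ℝ) - 1) * (1 - TT n κ' p R / κ'))) ≤
      volume.real Ω - ((A' - p R) / κ' + R / ((n : ℝ) - 1) * (1 - TT n κ' p R / κ')) *
        σ.real univ + CJ * (volume.real (cthickening t Ω \ Ω) +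
          ∫ x in Ω, (1 - cv n ε (volume.restrict Ω) x)) := by
    intro t ht ε hε hsmall
    have hW := wgt_cv hn1 hΩ hne hb hG hL hε
    have hcoer := LCoer.coer_cv hε Ω hΩ hb σ hL hco
    have hρ1 : ∀ x, cv n ε (volume.restrict Ω) x ≤ 1 := LGauss.cv_le_one hε Ω hΩ.measurableSet
    obtain ⟨iρ, mρ⟩ := int_cv_vol hb hε (Ω := Ω)
    obtain ⟨iS, mS⟩ := LGauss.cv_mass hε σ
    have hdist := fun (x : E n) (s : ℝ) (hs : 0 < s) (hx : ∀ y ∈ Ω, s ≤ ‖x - y‖) =>
      LGrad.dist_le hε Ω hΩ hb σ hG x hs hx
    set ρ := cv n ε (volume.restrict Ω) with hρ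
    set S := cv n ε σ with hS
    obtain ⟨w, W, L1, hweak, hgr⟩ := weak_exists hn1 hW hA'0 hA' hκ hb0.le hbA hcoer
    obtain ⟨C0, hmol⟩ := LMol.mollify hn hW hweak ha0.le (hab.trans hbA).le hb0.le hgr
    set L0 := max 2 ((b * L1 + 1 + C0 + a) / (b - a) + 1) with hL0
    have hL02 : 2 ≤ L0 := le_max_left _ _
    have hba : 0 < b - a := by linarith
    have hL03 : b * L1 + 1 + C0 + a < (b - a) * L0 := by
      have h1 : (b * L1 + 1 + C0 + a) / (b - a) + 1 ≤ L0 := le_max_right _ _
      have h2 := mul_le_mul_of_nonneg_left h1 hba.le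
      have h3 : (b - a) * ((b * L1 + 1 + C0 + a) / (b - a) + 1) =
          b * L1 + 1 + C0 + a + (b - a) := by field_simp
      linarith
    set θ := min (min 1 (t / 2)) (min (κ' - κ) ((κ' - κ) / κ)) with hθ
    have hθ0 : 0 < θ := by
      rw [hθ]
      refine lt_min (lt_min one_pos (by linarith)) (lt_min (by linarith) ?_)
      exact div_pos (by linarith) hκ
    have hθ1 : θ ≤ 1 := (min_le_left _ _).trans (min_le_left _ _)
    have hθt : θ ≤ t / 2 := (min_le_left _ _).trans (min_le_right _ _)
    have hθκ : κ + θ ≤ κ' := by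
      have : θ ≤ κ' - κ := (min_le_right _ _).trans (min_le_left _ _)
      linarith
    have hθκ2 : (1 + θ) * κ ≤ κ' := by
      have h1 : θ ≤ (κ' - κ) / κ := (min_le_right _ _).trans (min_le_right _ _)
      rw [le_div_iff₀ hκ] at h1
      linarith
    obtain ⟨v, e, hv, he, hve, hint, hlow, ⟨x1, hx1, hv1⟩, hpde⟩ := hmol L0 θ hθ0
    have hx1' : ‖x1‖ ≤ 1 := by simpa using hx1
    -- localisation of the minimisers
    have hloc : ∀ p : E n, ‖p‖ < a → ∀ x ∉ ball (0 : E n) L0, ∃ y ∈ ball (0 : E n) L0,
        v y - ⟪p, y⟫_ℝ < v x - ⟪p, x⟫_ℝ := by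
      intro p hp x hx
      have hx' : L0 ≤ ‖x‖ := by simpa using hx
      refine ⟨x1, by simpa using by linarith, ?_⟩
      have h1 := hlow x
      have h2 := real_inner_le_norm p x
      have h3 := abs_le.1 (abs_real_inner_le_norm p x1)
      have h4 : ‖p‖ * ‖x‖ ≤ a * ‖x‖ := mul_le_mul_of_nonneg_right hp.le (norm_nonneg _)
      have h5 : ‖p‖ * ‖x1‖ ≤ a * 1 := mul_le_mul hp.le hx1' (norm_nonneg _) ha0.le
      have h6 : (b - a) * L0 ≤ (b - a) * ‖x‖ := mul_le_mul_of_nonneg_left hx' hba.le
      linarith [h3.1]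
    have hpde' : ∀ x ∈ ball (0 : E n) L0, ‖gradient v x‖ < a →
        dvg (gradient v) x + ‖gradient v x‖ ^ 2 ≤ κ' := by
      intro x hx hxa
      have h1 := hpde x hx hxa.le 0 (fun y _ => by rw [zero_mul]; exact hW.S0 y)
      linarith
    -- the contact set is near `Ω`
    have hT : ∀ x ∈ ball (0 : E n) L0, ‖gradient v x‖ ≤ p R → 0 ≤ dvg (gradient v) x →
        x ∈ cthickening t Ω := by
      intro x hx hxp hx0
      by_contra hcon
      rw [mem_cthickening_iff, not_le] at hcon
      have hxz : ∀ z ∈ Ω, t ≤ ‖x - z‖ := by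
        intro z hz
        have h1 : ENNReal.ofReal t < edist x z := hcon.trans_le (infEDist_le_edist_of_mem hz)
        rw [edist_dist] at h1
        have h2 := (ENNReal.ofReal_lt_ofReal_iff_of_nonneg ht.le).1 h1
        rw [dist_eq_norm] at h2
        exact h2.le
      set m := ((t / 2) / (Real.sqrt 2 * ε ^ 2) - n / (t / 2)) / n with hm
      have h1 : ∀ y ∈ ball x θ, m * ρ y ≤ S y := by
        intro y hy
        have hy' : ‖x - y‖ < θ := by
          rw [mem_ball, dist_comm, dist_eq_norm] at hy
          exact hy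
        have h2 := hdist y (t / 2) (by linarith) (fun z hz => by
          have h3 := hxz z hz
          have h4 : ‖x - z‖ ≤ ‖x - y‖ + ‖y - z‖ := norm_sub_le_norm_sub_add_norm_sub _ _ _
          linarith)
        have hnpos : (0:ℝ) < n := by linarith
        rw [hm, div_mul_eq_mul_div, div_le_iff₀ hnpos]
        linarith
      have h2 := hpde x hx (hxp.trans hRa.le) m h1
      have h3 := sq_nonneg ‖gradient v x‖
      linarith
    have hTc : IsClosed (cthickening t Ω) := isClosed_cthickening
    have hTb : Bornology.IsBounded (cthickening t Ω) := hb.cthickening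
    have hcal' := hcal ρ S hW hρ1 v e L0 a (cthickening t Ω) hv he hve (by linarith) hRa hloc
      hpde' hTc.measurableSet hTb hT
    rw [mS] at hcal'
    -- the first integral
    have h1 : ∫ x in ball (0 : E n) L0, ρ x * e x ≤ κ' * volume.real Ω - A' * σ.real univ := by
      have h2 := hweak.total
      rw [mρ, mS] at h2
      have h3 : (1 + θ) * ∫ x, ρ x * ‖W x‖ ^ 2 ≤ (1 + θ) * (κ * volume.real Ω - A' * σ.real univ) :=
        mul_le_mul_of_nonneg_left h2 (by linarith)
      have h4 : (1 + θ) * κ * volume.real Ω ≤ κ' * volume.real Ω :=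
        mul_le_mul_of_nonneg_right hθκ2 measureReal_nonneg
      have h5 : 0 ≤ θ * (A' * σ.real univ) := by positivity
      nlinarith
    have h2 : (∫ x in ball (0 : E n) L0, ρ x * e x) / κ' ≤
        volume.real Ω - A' * σ.real univ / κ' := by
      rw [div_le_iff₀ hκ'0]
      have : (volume.real Ω - A' * σ.real univ / κ') * κ' =
          κ' * volume.real Ω - A' * σ.real univ := by field_simp
      linarith
    -- the second integral
    have hsub : Ω ⊆ cthickening t Ω := self_subset_cthickening Ω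
    have h3 : ∫ x in cthickening t Ω, (1 - ρ x) ≤
        volume.real (cthickening t Ω \ Ω) + ∫ x in Ω, (1 - ρ x) := by
      have i1 : IntegrableOn (fun x => 1 - ρ x) (cthickening t Ω) := by
        have : IntegrableOn (fun _ : E n => (1:ℝ)) (cthickening t Ω) :=
          integrableOn_const hTb.measure_lt_top.ne
        exact this.sub iρ.integrableOn
      have i2 : IntegrableOn (fun _ : E n => (1:ℝ)) (cthickening t Ω \ Ω) :=
        integrableOn_const ((measure_mono sdiff_subset).trans_lt hTb.measure_lt_top).ne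
      have e1 : ∫ x in cthickening t Ω, (1 - ρ x) =
          (∫ x in cthickening t Ω \ Ω, (1 - ρ x)) + ∫ x in Ω, (1 - ρ x) := by
        have hd : Disjoint (cthickening t Ω \ Ω) Ω := disjoint_sdiff_left
        have hu : (cthickening t Ω \ Ω) ∪ Ω = cthickening t Ω := sdiff_union_of_subset hsub
        rw [← setIntegral_union hd hΩ.measurableSet (i1.mono_set sdiff_subset)
          (i1.mono_set hsub), hu]
      rw [e1]
      have e2 : ∫ x in cthickening t Ω \ Ω, (1 - ρ x) ≤ ∫ _ in cthickening t Ω \ Ω, (1:ℝ) := by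
        refine setIntegral_mono_on (i1.mono_set sdiff_subset) i2
          (hTc.measurableSet.diff hΩ.measurableSet) fun x _ => ?_
        linarith [hW.pos x]
      rw [setIntegral_const, smul_eq_mul, mul_one] at e2
      linarith
    have h4 := mul_le_mul_of_nonneg_left h3 hCJ
    have h5 : (volume.real Ω - A' * σ.real univ / κ') +
        (p R / κ' - R / ((n : ℝ) - 1) * (1 - TT n κ' p R / κ')) * σ.real univ =
        volume.real Ω - ((A' - p R) / κ' + R / ((n : ℝ) - 1) * (1 - TT n κ' p R / κ')) *
        σ.real univ := by ring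
    linarith
  -- let `ε → 0`
  have lim1 : ∀ t : ℝ, 0 < t → volume.real (ball (0 : E n) 1) *
        (n * (R ^ n / n - R ^ n / ((n : ℝ) - 1) * (1 - TT n κ' p R / κ'))) ≤
      volume.real Ω - ((A' - p R) / κ' + R / ((n : ℝ) - 1) * (1 - TT n κ' p R / κ')) *
        σ.real univ + CJ * volume.real (cthickening t Ω \ Ω) := by
    intro t ht
    have g1 := LCoer.l1_lim Ω hΩ hb
    have g2 := ((g1.const_add (volume.real (cthickening t Ω \ Ω))).const_mul CJ).const_add
      (volume.real Ω - ((A' - p R) / κ' + R / ((n : ℝ) - 1) * (1 - TT n κ' p R / κ')) *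
        σ.real univ)
    rw [add_zero] at g2
    refine ge_of_tendsto g2 ?_
    have hev : ∀ᶠ ε in 𝓝[>] (0:ℝ),
        κ' < (A' - a) * (((t / 2) / (Real.sqrt 2 * ε ^ 2) - n / (t / 2)) / n) := by
      have hAa : 0 < A' - a := by linarith
      have hnpos : (0:ℝ) < n := by linarith
      have t1 : Tendsto (fun ε : ℝ => (Real.sqrt 2 * ε ^ 2)⁻¹) (𝓝[>] 0) atTop := by
        apply tendsto_inv_nhdsGT_zero.comp
        rw [tendsto_nhdsWithin_iff]
        constructor
        · have : Continuous fun ε : ℝ => Real.sqrt 2 * ε ^ 2 := by fun_prop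
          have h := this.tendsto 0
          simp only [ne_eq, OfNat.ofNat_ne_zero, not_false_eq_true, zero_pow, mul_zero] at h
          exact h.mono_left nhdsWithin_le_nhds
        · filter_upwards [self_mem_nhdsWithin] with ε hε
          have : 0 < ε := hε
          show 0 < Real.sqrt 2 * ε ^ 2
          positivity
      have t2 : Tendsto (fun ε : ℝ => (A' - a) * (((t / 2) / (Real.sqrt 2 * ε ^ 2) -
          n / (t / 2)) / n)) (𝓝[>] 0) atTop := by
        apply Tendsto.const_mul_atTop hAa
        apply Tendsto.atTop_div_const hnpos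
        apply tendsto_atTop_add_const_right
        simp only [div_eq_mul_inv (t / 2)]
        exact t1.const_mul_atTop (by linarith)
      exact t2.eventually (eventually_gt_atTop κ')
    filter_upwards [self_mem_nhdsWithin, hev] with ε hε hεs
    have := step t ht ε hε hεs
    linarith
  -- let `t → 0`
  have hcl : volume.real (closure Ω) = volume.real Ω := by
    have h1 : closure Ω = Ω ∪ frontier Ω := by
      rw [frontier, hΩ.interior_eq, union_sdiff_cancel subset_closure]
    rw [measureReal_def, measureReal_def, h1]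
    congr 1
    apply le_antisymm
    · exact (measure_union_le _ _).trans (by rw [hnull, add_zero])
    · exact measure_mono subset_union_left
  have lim2 : Tendsto (fun t => volume.real (cthickening t Ω \ Ω)) (𝓝[>] 0) (𝓝 0) := by
    have h1 : Tendsto (fun t => volume (cthickening t Ω)) (𝓝 0) (𝓝 (volume (closure Ω))) :=
      tendsto_measure_cthickening ⟨1, one_pos, hb.cthickening.measure_lt_top.ne⟩
    have h2 : Tendsto (fun t => volume.real (cthickening t Ω)) (𝓝 0)
        (𝓝 (volume.real (closure Ω))) :=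
      (ENNReal.tendsto_toReal hb.closure.measure_lt_top.ne).comp h1
    rw [hcl] at h2
    have h3 := (h2.sub_const (volume.real Ω)).mono_left (nhdsWithin_le_nhds (s := Ioi 0))
    rw [sub_self] at h3
    refine h3.congr fun t => ?_
    rw [measureReal_sdiff (self_subset_cthickening Ω) hΩ.measurableSet
      hb.cthickening.measure_lt_top.ne]
  have lim3 := (lim2.const_mul CJ).const_add
    (volume.real Ω - ((A' - p R) / κ' + R / ((n : ℝ) - 1) * (1 - TT n κ' p R / κ')) *
        σ.real univ)
  rw [mul_zero, add_zero] at lim3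
  refine ge_of_tendsto lim3 ?_
  filter_upwards [self_mem_nhdsWithin] with t ht
  exact lim1 t ht

end Pool.Agent.Helper876.Rob
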