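import Pool.Agent.Helper876_Robin.LFrozen

/-!
# The volume constrained problem for bounded open sets with boundary of finite measure
-/

set_option autoImplicit false

open MeasureTheory Set Metric Filter Topology
open scoped ENNReal NNReal InnerProductSpace

namespace Pool.Agent.Helper876.Rob

/-- support of the surface measure -/
theorem surf_supp {n : ℕ} {Ω : Set (E n)} (hb : Bornology.IsBounded Ω) :
    ∃ L : ℝ, ((surf n).restrict (frontier Ω)) (closedBall (0 : E n) L)ᶜ = 0 := by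
  obtain ⟨L, hL⟩ := hb.closure.subset_closedBall (0 : E n)
  refine ⟨L, ?_⟩
  rw [Measure.restrict_apply measurableSet_closedBall.compl]
  have : (closedBall (0 : E n) L)ᶜ ∩ frontier Ω = ∅ := by
    ext x
    simp only [mem_inter_iff, mem_compl_iff, mem_empty_iff_false, iff_false, not_and]
    intro h1 h2
    exact h1 (hL (frontier_subset_closure h2))
  rw [this, measure_empty]

/-- The contact set estimate, with the parameters `A` and `κ` themselves. -/
theorem rough0 {n : ℕ} (hn : 2 ≤ n) {Ω : Set (E n)} (hΩ : IsOpen Ω) (hne : Ω.Nonempty)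
    (hb : Bornology.IsBounded Ω) (hfin : surf n (frontier Ω) < ⊤) {A κ : ℝ} (hκ : 0 < κ)
    (hco : ∀ u : E n → ℝ, ContDiff ℝ 1 u → A * (∫ x in frontier Ω, u x ^ 2 ∂(surf n)) ≤
      (∫ x in Ω, ‖fderiv ℝ u x‖ ^ 2) + κ * ∫ x in Ω, u x ^ 2)
    {p : ℝ → ℝ} (hpc : Continuous p)
    (hp : ∀ κ : ℝ, 0 < κ → Prof n κ (fun r => Real.sqrt κ * p (Real.sqrt κ * r))) {R : ℝ}
    (hR : 0 < R) (hA : Real.sqrt κ * p (Real.sqrt κ * R) < A) :
    volume.real (ball (0 : E n) 1) *
        (n * (R ^ n / n - R ^ n / ((n : ℝ) - 1) * (1 - TT n 1 p (Real.sqrt κ * R)))) ≤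
      volume.real Ω - ((A - Real.sqrt κ * p (Real.sqrt κ * R)) / κ +
        R / ((n : ℝ) - 1) * (1 - TT n 1 p (Real.sqrt κ * R))) *
        (surf n (frontier Ω)).toReal := by
  have hfinM : IsFiniteMeasure ((surf n).restrict (frontier Ω)) :=
    ⟨by rw [Measure.restrict_apply_univ]; exact hfin⟩
  have hG := half_gg (by omega) hΩ hb hfin
  obtain ⟨L, hL⟩ := surf_supp hb
  have hp1 : Prof n 1 p := by simpa using hp 1 one_pos
  have hsκ : 0 < Real.sqrt κ := Real.sqrt_pos.2 hκ
  have hx0 : 0 < Real.sqrt κ * R := by positivity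
  have step : ∀ᶠ s in 𝓝[>] (0:ℝ), volume.real (ball (0 : E n) 1) *
        (n * (R ^ n / n - R ^ n / ((n : ℝ) - 1) * (1 - TT n 1 p (Real.sqrt (κ + s) * R)))) ≤
      volume.real Ω - (((A - s) - Real.sqrt (κ + s) * p (Real.sqrt (κ + s) * R)) / (κ + s) +
        R / ((n : ℝ) - 1) * (1 - TT n 1 p (Real.sqrt (κ + s) * R))) *
        (surf n (frontier Ω)).toReal := by
    have hc : ContinuousAt (fun s : ℝ => (A - s) - Real.sqrt (κ + s) * p (Real.sqrt (κ + s) * R))
        0 := by fun_prop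
    have hev : ∀ᶠ s in 𝓝[>] (0:ℝ),
        0 < (A - s) - Real.sqrt (κ + s) * p (Real.sqrt (κ + s) * R) := by
      apply nhdsWithin_le_nhds
      apply hc.eventually (lt_mem_nhds _)
      simp only [sub_zero, add_zero]
      linarith
    filter_upwards [hev, self_mem_nhdsWithin] with s hs hs0
    have hs0' : 0 < s := hs0
    have hκs : 0 < κ + s := by linarith
    have h := rough hn hΩ hne hb hG hL (frontier_null (by omega) hfin) hκ
      (show κ < κ + s by linarith) (show A - s < A by linarith) hco (hp (κ + s) hκs) hR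
      (by linarith)
    rw [measureReal_restrict_apply_univ, TT_scale hκs, mul_div_cancel_left₀ _ hκs.ne'] at h
    exact h
  have hT : ContinuousAt (fun s : ℝ => TT n 1 p (Real.sqrt (κ + s) * R)) 0 := by
    have h1 : ContinuousAt (TT n 1 p) (Real.sqrt (κ + 0) * R) := by
      rw [add_zero]
      exact (hp1.TT_deriv hx0).continuousAt
    have h2 : ContinuousAt (fun s : ℝ => Real.sqrt (κ + s) * R) 0 := by fun_prop
    exact ContinuousAt.comp (g := TT n 1 p) h1 h2
  have hne0 : κ + (0:ℝ) ≠ 0 := by rw [add_zero]; exact hκ.ne'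
  have hl : ContinuousAt (fun s : ℝ => volume.real (ball (0 : E n) 1) *
        (n * (R ^ n / n - R ^ n / ((n : ℝ) - 1) * (1 - TT n 1 p (Real.sqrt (κ + s) * R))))) 0 := by
    fun_prop
  have hr : ContinuousAt (fun s : ℝ => volume.real Ω -
        (((A - s) - Real.sqrt (κ + s) * p (Real.sqrt (κ + s) * R)) / (κ + s) +
        R / ((n : ℝ) - 1) * (1 - TT n 1 p (Real.sqrt (κ + s) * R))) *
        (surf n (frontier Ω)).toReal) 0 := by
    fun_prop (disch := assumption)
  have hl' := hl.tendsto.mono_left (nhdsWithin_le_nhds (s := Ioi 0))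
  have hr' := hr.tendsto.mono_left (nhdsWithin_le_nhds (s := Ioi 0))
  have h := le_of_tendsto_of_tendsto hl' hr' step
  simpa only [add_zero, sub_zero] using h

/-- The isoperimetric inequality for bounded open sets with boundary of finite measure. -/
theorem isoper_open {n : ℕ} (hn : 2 ≤ n) {Ω : Set (E n)} (hΩ : IsOpen Ω) (hne : Ω.Nonempty)
    (hb : Bornology.IsBounded Ω) (hfin : surf n (frontier Ω) < ⊤) {R : ℝ} (hR : 0 < R)
    (hv : volume.real Ω = volume.real (ball (0 : E n) R)) :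
    Pool.Agent.Helper88.Weyl.perimeter Ω ≤ ENNReal.ofReal (surf n (frontier Ω)).toReal ∧
    n * volume.real (ball (0 : E n) 1) * R ^ (n - 1) ≤ (surf n (frontier Ω)).toReal := by
  have hfinM : IsFiniteMeasure ((surf n).restrict (frontier Ω)) :=
    ⟨by rw [Measure.restrict_apply_univ]; exact hfin⟩
  have hG := half_gg (by omega) hΩ hb hfin
  obtain ⟨L, hL⟩ := surf_supp hb
  have hper := per_le' (n := n) (σ := (surf n).restrict (frontier Ω)) (by omega) hΩ hne hb hG hL
  rw [measureReal_restrict_apply_univ] at hper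
  refine ⟨hper, ?_⟩
  have hω := vol_one_pos (n := n)
  have hv' := vol_ball_eq hn hR (0 : E n)
  rw [hv'] at hv
  have hpos : 0 < volume.real Ω := by rw [hv]; positivity
  have h1 := Pool.Agent.Helper88.Weyl.isoper (N := n) (by omega) (E := Ω)
    hΩ.measurableSet.nullMeasurableSet hb.measure_lt_top.ne
    measureReal_nonneg hper hpos
  have h2 : Pool.Agent.Helper88.Weyl.om n = volume.real (ball (0 : E n) 1) := by
    have := Pool.Agent.Helper88.Weyl.vol_ball (V := E n) (n := n) (by simp) (by omega) 0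
      (zero_le_one (α := ℝ))
    rw [this]
    ring
  rw [h2, hv] at h1
  have h3 : volume.real (ball (0 : E n) 1) / (volume.real (ball (0 : E n) 1) * R ^ n) =
      (R⁻¹) ^ n := by
    rw [← div_div, div_self hω.ne', one_div, inv_pow]
  rw [h3, Real.pow_rpow_inv_natCast (by positivity) (by omega)] at h1
  refine le_trans (le_of_eq ?_) h1
  obtain ⟨m, rfl⟩ : ∃ m, n = m + 1 := ⟨n - 1, by omega⟩
  rw [Nat.add_sub_cancel, pow_succ]
  field_simp

/-- **The volume constrained estimate.** -/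
theorem vol_key {n : ℕ} (hn : 2 ≤ n) {Ω : Set (E n)} (hΩ : IsOpen Ω) (hne : Ω.Nonempty)
    (hb : Bornology.IsBounded Ω) (hfin : surf n (frontier Ω) < ⊤) {A κ : ℝ} (hκ : 0 < κ)
    (hco : ∀ u : E n → ℝ, ContDiff ℝ 1 u → A * (∫ x in frontier Ω, u x ^ 2 ∂(surf n)) ≤
      (∫ x in Ω, ‖fderiv ℝ u x‖ ^ 2) + κ * ∫ x in Ω, u x ^ 2)
    {p : ℝ → ℝ} (hpc : Continuous p)
    (hp : ∀ κ : ℝ, 0 < κ → Prof n κ (fun r => Real.sqrt κ * p (Real.sqrt κ * r))) {R : ℝ}
    (hR : 0 < R) (hv : volume.real Ω = volume.real (ball (0 : E n) R))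
    (hT : TT n 1 p (Real.sqrt κ * R) < 1) (hpA : Real.sqrt κ * p (Real.sqrt κ * R) ≤ A) :
    Real.sqrt κ * p (Real.sqrt κ * R) = A ∧
      (surf n (frontier Ω)).toReal ≤ n * volume.real (ball (0 : E n) 1) * R ^ (n - 1) := by
  have hn0 : (2:ℝ) ≤ n := by exact_mod_cast hn
  have hn1 : 0 < (n : ℝ) - 1 := by linarith
  have hp1 : Prof n 1 p := by simpa using hp 1 one_pos
  have hiso := (isoper_open hn hΩ hne hb hfin hR hv).2
  have hω := vol_one_pos (n := n)
  set ω := volume.real (ball (0 : E n) 1) with hωdef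
  set σ := (surf n (frontier Ω)).toReal with hσdef
  have hσ : 0 < σ := by
    refine lt_of_lt_of_le ?_ hiso
    have : (0:ℝ) < n := by positivity
    positivity
  have hvR := vol_ball_eq hn hR (0 : E n)
  rw [← hωdef] at hvR
  have hRn : R ^ n = R * R ^ (n - 1) := by
    obtain ⟨m, rfl⟩ : ∃ m, n = m + 1 := ⟨n - 1, by omega⟩
    rw [Nat.add_sub_cancel, pow_succ]
    ring
  have hsκ : 0 < Real.sqrt κ := Real.sqrt_pos.2 hκ
  have hx0 : 0 < Real.sqrt κ * R := by positivity
  have hpRA : Real.sqrt κ * p (Real.sqrt κ * R) = A := by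
    by_contra hne'
    have hlt : Real.sqrt κ * p (Real.sqrt κ * R) < A := lt_of_le_of_ne hpA hne'
    have h1 := rough0 hn hΩ hne hb hfin hκ hco hpc hp hR hlt
    rw [hv, hvR] at h1
    set δ := 1 / ((n : ℝ) - 1) * (1 - TT n 1 p (Real.sqrt κ * R)) with hδ
    have hδ0 : 0 ≤ δ := by
      apply mul_nonneg (by positivity)
      linarith
    have h2 : ω * (n * (R ^ n / n - R ^ n / ((n : ℝ) - 1) * (1 - TT n 1 p (Real.sqrt κ * R)))) =
        ω * R ^ n - n * ω * R ^ n * δ := by
      rw [hδ]; field_simp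
    have h3 : ((A - Real.sqrt κ * p (Real.sqrt κ * R)) / κ +
        R / ((n : ℝ) - 1) * (1 - TT n 1 p (Real.sqrt κ * R))) * σ =
        (A - Real.sqrt κ * p (Real.sqrt κ * R)) / κ * σ + R * δ * σ := by
      rw [hδ]; ring
    rw [h2, h3] at h1
    have h4 : 0 < (A - Real.sqrt κ * p (Real.sqrt κ * R)) / κ * σ := by
      have : 0 < A - Real.sqrt κ * p (Real.sqrt κ * R) := by linarith
      positivity
    have h5 : n * ω * R ^ n * δ ≤ R * δ * σ := by
      calc n * ω * R ^ n * δ = R * δ * (n * ω * R ^ (n - 1)) := by rw [hRn]; ring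
        _ ≤ R * δ * σ := mul_le_mul_of_nonneg_left hiso (by positivity)
    linarith
  refine ⟨hpRA, ?_⟩
  -- the limit `R' → R`
  have hTc : ContinuousAt (fun r => TT n 1 p (Real.sqrt κ * r)) R := by
    have h1 : ContinuousAt (TT n 1 p) (Real.sqrt κ * R) := (hp1.TT_deriv hx0).continuousAt
    have h2 : ContinuousAt (fun r : ℝ => Real.sqrt κ * r) R := by fun_prop
    exact ContinuousAt.comp (g := TT n 1 p) h1 h2
  have hev : ∀ᶠ r in 𝓝[<] R, ω * (n * (r ^ n / n - r ^ n / ((n : ℝ) - 1) *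
      (1 - TT n 1 p (Real.sqrt κ * r)))) ≤ volume.real Ω -
      ((A - Real.sqrt κ * p (Real.sqrt κ * r)) / κ + r / ((n : ℝ) - 1) *
      (1 - TT n 1 p (Real.sqrt κ * r))) * σ := by
    have e2 : ∀ᶠ r in 𝓝[<] R, 0 < r := nhdsWithin_le_nhds (lt_mem_nhds hR)
    filter_upwards [e2, self_mem_nhdsWithin] with r h2 h3
    have h3' : r < R := h3
    have h4 : Real.sqrt κ * p (Real.sqrt κ * r) < A := by
      rw [← hpRA]
      apply mul_lt_mul_of_pos_left _ hsκ
      apply hp1.mono
      · exact (mul_pos hsκ h2).le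
      · exact hx0.le
      · exact mul_lt_mul_of_pos_left h3' hsκ
    exact rough0 hn hΩ hne hb hfin hκ hco hpc hp h2 h4
  have hl : ContinuousAt (fun r => ω * (n * (r ^ n / n - r ^ n / ((n : ℝ) - 1) *
      (1 - TT n 1 p (Real.sqrt κ * r))))) R := by
    fun_prop
  have hr : ContinuousAt (fun r => volume.real Ω -
      ((A - Real.sqrt κ * p (Real.sqrt κ * r)) / κ + r / ((n : ℝ) - 1) *
      (1 - TT n 1 p (Real.sqrt κ * r))) * σ) R := by
    fun_prop
  have h1 := le_of_tendsto_of_tendsto (hl.tendsto.mono_left nhdsWithin_le_nhds)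
    (hr.tendsto.mono_left nhdsWithin_le_nhds) hev
  rw [hv, hvR, hpRA] at h1
  set δ := 1 / ((n : ℝ) - 1) * (1 - TT n 1 p (Real.sqrt κ * R)) with hδ
  have hδ0 : 0 < δ := by
    apply mul_pos (by positivity)
    linarith
  have h2 : ω * (n * (R ^ n / n - R ^ n / ((n : ℝ) - 1) * (1 - TT n 1 p (Real.sqrt κ * R)))) =
      ω * R ^ n - n * ω * R ^ n * δ := by
    rw [hδ]; field_simp
  have h3 : ((A - A) / κ + R / ((n : ℝ) - 1) * (1 - TT n 1 p (Real.sqrt κ * R))) * σ =
      R * δ * σ := by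
    rw [hδ]; ring
  rw [h2, h3] at h1
  have h5 : R * δ * σ ≤ R * δ * (n * ω * R ^ (n - 1)) := by
    calc R * δ * σ ≤ n * ω * R ^ n * δ := by linarith
      _ = _ := by rw [hRn]; ring
  exact le_of_mul_le_mul_left h5 (by positivity)

/-- The form is nonnegative above the first eigenvalue. -/
theorem form_of_lam1 {n : ℕ} {Ω : Set (E n)} (hΩ : IsOpen Ω) (hb : Bornology.IsBounded Ω)
    {α κ : ℝ} (h : ((-κ : ℝ) : EReal) ≤ lam1 Ω α) (u : E n → ℝ) (hu : ContDiff ℝ 1 u) :
    -α * (∫ x in frontier Ω, u x ^ 2 ∂(surf n)) ≤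
      (∫ x in Ω, ‖fderiv ℝ u x‖ ^ 2) + κ * ∫ x in Ω, u x ^ 2 := by
  have h0 : 0 ≤ ∫ x in Ω, u x ^ 2 := integral_nonneg fun x => sq_nonneg _
  rcases h0.eq_or_lt with h0 | hpos
  · have h6 := zero_on_closure hΩ hb hu.continuous h0.symm
    have h7 : ∫ x in frontier Ω, u x ^ 2 ∂(surf n) = 0 := by
      rw [← integral_zero (E n) ℝ (μ := (surf n).restrict (frontier Ω))]
      apply setIntegral_congr_fun isClosed_frontier.measurableSet
      intro x hx
      simp only
      rw [h6 x (frontier_subset_closure hx)]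
      norm_num
    rw [h7, ← h0, mul_zero, mul_zero, add_zero]
    exact integral_nonneg fun x => sq_nonneg _
  · have h1 : lam1 Ω α ≤ ((rayleigh Ω α u : ℝ) : EReal) := iInf_le_of_le ⟨u, hu, hpos⟩ le_rfl
    have h2 : -κ ≤ rayleigh Ω α u := EReal.coe_le_coe_iff.1 (h.trans h1)
    unfold rayleigh at h2
    rw [le_div_iff₀ hpos] at h2
    linarith

/-- **The volume constrained theorem** in terms of the normalised profile. -/
theorem vol_main {n : ℕ} (hn : 2 ≤ n) {p : ℝ → ℝ} (hpc : Continuous p)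
    (hp : ∀ κ : ℝ, 0 < κ → Prof n κ (fun r => Real.sqrt κ * p (Real.sqrt κ * r)))
    {R κ α : ℝ} (hR : 0 < R) (hκ : 0 < κ)
    (hα : Real.sqrt κ * p (Real.sqrt κ * R) = -α) (hT : TT n 1 p (Real.sqrt κ * R) < 1)
    {Ω : Set (E n)} (hΩ : IsOpen Ω) (hb : Bornology.IsBounded Ω)
    (hfin : surf n (frontier Ω) < ⊤) (hvol : volume Ω = volume (ball (0 : E n) R)) :
    lam1 Ω α ≤ lam1 (ball (0 : E n) R) α ∧
      (lam1 Ω α = lam1 (ball (0 : E n) R) α → interior (closure Ω) = Ω →
        ∃ c : E n, Ω = ball c R) := by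
  have hne : Ω.Nonempty := by
    rw [nonempty_iff_ne_empty]
    rintro rfl
    rw [measure_empty] at hvol
    exact (measure_ball_pos volume (0 : E n) hR).ne hvol
  have hp1 : Prof n 1 p := by simpa using hp 1 one_pos
  have hsκ : 0 < Real.sqrt κ := Real.sqrt_pos.2 hκ
  have hv : volume.real Ω = volume.real (ball (0 : E n) R) := by
    rw [measureReal_def, measureReal_def, hvol]
  have hball := lam1_ball_ge hn (hp κ hκ) hR hα.ge (0 : E n)
  rw [neg_neg] at hball
  have hle : lam1 Ω α ≤ ((-κ : ℝ) : EReal) := by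
    by_contra hcon
    push Not at hcon
    obtain ⟨q, hq1, hq2⟩ := EReal.lt_iff_exists_real_btwn.1 hcon
    have hq1' : -κ < q := by exact_mod_cast hq1
    set k := max (-q) (κ / 2) with hk
    have hk0 : 0 < k := lt_of_lt_of_le (by positivity) (le_max_right _ _)
    have hkκ : k < κ := max_lt (by linarith) (by linarith)
    have hs : Real.sqrt k < Real.sqrt κ := Real.sqrt_lt_sqrt hk0.le hkκ
    have hs0 : 0 < Real.sqrt k := Real.sqrt_pos.2 hk0
    have hxx : Real.sqrt k * R < Real.sqrt κ * R := mul_lt_mul_of_pos_right hs hR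
    have hx0 : 0 < Real.sqrt k * R := by positivity
    have hT1 : TT n 1 p (Real.sqrt k * R) < 1 :=
      lt_of_le_of_lt (hp1.TT_mono hn hx0 (show (0:ℝ) < Real.sqrt κ * R by positivity) hxx.le) hT
    have hpp : p (Real.sqrt k * R) < p (Real.sqrt κ * R) := by
      apply hp1.mono
      · exact hx0.le
      · exact (mul_pos hsκ hR).le
      · exact hxx
    have hpA : Real.sqrt k * p (Real.sqrt k * R) < -α := by
      rw [← hα]
      exact mul_lt_mul'' hs hpp hs0.le (hp1.pos _ hx0).le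
    have hco := form_of_lam1 hΩ hb (κ := k) (α := α) (by
      refine le_trans ?_ hq2.le
      apply EReal.coe_le_coe_iff.2
      have := le_max_left (-q) (κ / 2)
      linarith)
    have h1 := (vol_key hn hΩ hne hb hfin hk0 hco hpc hp hR hv hT1 hpA.le).1
    linarith
  refine ⟨hle.trans hball, ?_⟩
  intro heq hint
  rw [← heq] at hball
  have hco := form_of_lam1 hΩ hb (κ := κ) (α := α) hball
  have h1 := (vol_key hn hΩ hne hb hfin hκ hco hpc hp hR hv hT hα.le).2
  exact JI.ball_of_per n hn Ω hΩ hb hint R hR hv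
    ((isoper_open hn hΩ hne hb hfin hR hv).1.trans (ENNReal.ofReal_le_ofReal h1))

end Pool.Agent.Helper876.Rob
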