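import Pool.Agent.Helper876_Robin.LDefs

/-! LZ: exponentials in the weighted Sobolev space, integration by parts (job 5247, helper360) -/

set_option autoImplicit false

open MeasureTheory Set Metric Filter Topology
open scoped ENNReal NNReal InnerProductSpace

namespace Pool.Agent.Helper876.LZ

open Pool.Agent.Helper876.Rob

/- (Pool/Agent/Helper876_Robin/LDefs.lean and Defs.lean are on origin/main; they hold the definitions E, dvg, Tst, nd, InH, IsWgt, ...)
z = exp h with h of class C^2 and ‖∇h‖ ≤ b has at most exponential growth: |h x| ≤ |h 0| + b‖x‖; IsWgt.mom says that ρ + S has all exponential moments.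
PLAIN PROOFS.
z_mem: take a C^1 (even smooth) truncation F_T : ℝ → ℝ, F_T(t) = t for |t| ≤ T, constant for |t| ≥ 4T, 0 ≤ F_T' ≤ 1, |F_T(t)| ≤ |t|; F_T(z) is a test function (its gradient F_T'(z) z ∇h vanishes for z ≥ 4T), and
 nd(F_T(z),∇F_T(z),z,∇z) → 0 as T → ∞ by dominated convergence (dominated by 4(ρ+S)(1+b^2)z^2, integrable by mom).
z_ibp: for a TEST function ψ: div(ρ ψ ∇z) integrates to 0 over ℝ^n (ρψ∇z and its derivative are integrable: ρ, ‖∇ρ‖ ≤ S, against exponentials times bounded; use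
 integral_mul_fderiv_eq_neg_fderiv_mul_of_integrable coordinatewise, or cutoffs): ∫ ρ<∇z,∇ψ> = -∫ (ρ dvg(∇z) + <∇ρ,∇z>) ψ.
 |dvg ∇z| ≤ (C + b^2) z. Then pass to the limit ψ_k → (ψ,Ψ) in InH by Cauchy-Schwarz in L^2(ρ dx) and L^2(S dx), the functions z, ‖∇z‖ being in both. -/

variable {n : ℕ} {ρ S : E n → ℝ}

/-! ### Gradients -/

theorem LZ_inner (f : E n → ℝ) (x v : E n) : ⟪gradient f x, v⟫_ℝ = fderiv ℝ f x v :=
  InnerProductSpace.toDual_symm_apply

theorem LZ_inner' (f : E n → ℝ) (x v : E n) : ⟪v, gradient f x⟫_ℝ = fderiv ℝ f x v := by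
  rw [real_inner_comm, LZ_inner]

theorem LZ_norm (f : E n → ℝ) (x : E n) : ‖gradient f x‖ = ‖fderiv ℝ f x‖ :=
  LinearIsometryEquiv.norm_map _ _

theorem LZ_coord (f : E n → ℝ) (x : E n) (i : Fin n) :
    (gradient f x) i = fderiv ℝ f x (EuclideanSpace.single i 1) := by
  rw [← LZ_inner', EuclideanSpace.inner_single_left]
  simp

theorem LZ_vec (v : E n) : v = ∑ i, v i • EuclideanSpace.single i (1 : ℝ) := by
  ext j
  simp [Pi.single_apply]

theorem LZ_lin (L : E n →L[ℝ] ℝ) (v : E n) :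
    L v = ∑ i, v i * L (EuclideanSpace.single i 1) := by
  conv_lhs => rw [LZ_vec v]
  rw [map_sum]
  refine Finset.sum_congr rfl fun i _ => ?_
  rw [map_smul, smul_eq_mul]

theorem LZ_grad_contDiff {f : E n → ℝ} {m k : WithTop ℕ∞} (hf : ContDiff ℝ m f) (hk : k + 1 ≤ m) :
    ContDiff ℝ k (gradient f) := by
  rw [contDiff_euclidean]
  intro i
  have h1 : (fun x => (gradient f x) i) = fun x => fderiv ℝ f x (EuclideanSpace.single i 1) := by
    funext x
    exact LZ_coord f x i
  rw [h1]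
  exact (hf.fderiv_right hk).clm_apply contDiff_const

theorem LZ_dvg_cont {X : E n → E n} (hX : ContDiff ℝ 1 X) : Continuous (dvg X) := by
  unfold dvg
  refine continuous_finsetSum _ fun i _ => ?_
  have h1 : Continuous fun x => fderiv ℝ X x (EuclideanSpace.single i 1) :=
    (hX.continuous_fderiv (by norm_num)).clm_apply continuous_const
  exact (EuclideanSpace.proj i).continuous.comp h1

/-! ### Exponentials -/

theorem LZ_exp_grad {g : E n → ℝ} (hg : ContDiff ℝ 2 g) (x : E n) :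
    gradient (fun x => Real.exp (g x)) x = Real.exp (g x) • gradient g x := by
  have hd : HasFDerivAt g (fderiv ℝ g x) x := (hg.differentiable (by norm_num) x).hasFDerivAt
  refine ext_inner_right ℝ fun v => ?_
  rw [LZ_inner, hd.exp.fderiv, inner_smul_left, LZ_inner]
  simp

theorem LZ_exp_dvg {g : E n → ℝ} (hg : ContDiff ℝ 2 g) (x : E n) :
    dvg (gradient (fun x => Real.exp (g x))) x =
      Real.exp (g x) * (dvg (gradient g) x + ‖fderiv ℝ g x‖ ^ 2) := by
  have hd : HasFDerivAt g (fderiv ℝ g x) x := (hg.differentiable (by norm_num) x).hasFDerivAt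
  have hG : HasFDerivAt (gradient g) (fderiv ℝ (gradient g) x) x :=
    ((LZ_grad_contDiff (k := 1) hg (by norm_num)).differentiable (by norm_num) x).hasFDerivAt
  have h1 : gradient (fun x => Real.exp (g x)) = fun x => Real.exp (g x) • gradient g x :=
    funext fun x => LZ_exp_grad hg x
  rw [h1]
  have h2 : HasFDerivAt (fun x => Real.exp (g x) • gradient g x)
      (Real.exp (g x) • fderiv ℝ (gradient g) x +
        ContinuousLinearMap.smulRight (Real.exp (g x) • fderiv ℝ g x) (gradient g x)) x :=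
    hd.exp.smul hG
  unfold dvg
  rw [h2.fderiv]
  have h3 : ‖fderiv ℝ g x‖ ^ 2 = ∑ i, fderiv ℝ g x (EuclideanSpace.single i 1) * (gradient g x) i := by
    rw [← LZ_norm, ← real_inner_self_eq_norm_sq, LZ_inner, LZ_lin]
    exact Finset.sum_congr rfl fun i _ => mul_comm _ _
  rw [h3, ← Finset.sum_add_distrib, Finset.mul_sum]
  refine Finset.sum_congr rfl fun i _ => ?_
  simp
  ring

theorem LZ_growth {g : E n → ℝ} (hg : ContDiff ℝ 2 g) {b : ℝ} (hb : ∀ x, ‖fderiv ℝ g x‖ ≤ b)
    (x : E n) : |g x| ≤ |g 0| + b * ‖x‖ := by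
  have h1 : ‖g x - g 0‖ ≤ b * ‖x - 0‖ :=
    Convex.norm_image_sub_le_of_norm_fderiv_le (𝕜 := ℝ) (s := Set.univ)
      (fun y _ => hg.differentiable (by norm_num) y) (fun y _ => hb y) convex_univ trivial trivial
  rw [sub_zero, Real.norm_eq_abs] at h1
  have h2 := abs_sub_abs_le_abs_sub (g x) (g 0)
  linarith

theorem LZ_S_nonneg (h : IsWgt ρ S) (x : E n) : 0 ≤ S x := (norm_nonneg _).trans (h.grad_le x)

theorem LZ_z_int (h : IsWgt ρ S) {g : E n → ℝ} (hg : ContDiff ℝ 2 g) {b : ℝ}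
    (hb : ∀ x, ‖fderiv ℝ g x‖ ≤ b) : Integrable fun x => (ρ x + S x) * Real.exp (g x) ^ 2 := by
  have h1 := (h.mom (2 * b)).const_mul (Real.exp (2 * |g 0|))
  refine h1.mono' ?_ (Filter.Eventually.of_forall fun x => ?_)
  · have h2 : Continuous fun x => (ρ x + S x) * Real.exp (g x) ^ 2 :=
      (h.contDiff.continuous.add h.cont).mul ((Real.continuous_exp.comp hg.continuous).pow 2)
    exact h2.aestronglyMeasurable
  · have h3 : 0 ≤ ρ x + S x := add_nonneg (h.pos x).le (LZ_S_nonneg h x)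
    rw [Real.norm_of_nonneg (mul_nonneg h3 (sq_nonneg _)), ← mul_assoc, ← Real.exp_add,
      ← Real.exp_nat_mul, mul_comm]
    refine mul_le_mul_of_nonneg_right (Real.exp_le_exp.2 ?_) h3
    have h4 := (le_abs_self (g x)).trans (LZ_growth hg hb x)
    push_cast
    linarith


/-! ### Limits -/

theorem LZ_cs {α : Type*} [MeasurableSpace α] {μ : Measure α} {p : α → ℝ} {q a : ℕ → α → ℝ}
    (hp : Measurable p) (hq : ∀ k, Measurable (q k)) (hp0 : ∀ x, 0 ≤ p x)
    (hpi : ∫⁻ x, ENNReal.ofReal (p x ^ 2) ∂μ ≠ ∞)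
    (hqt : Tendsto (fun k => ∫⁻ x, ENNReal.ofReal (q k x ^ 2) ∂μ) atTop (𝓝 0))
    (hq0 : ∀ k x, 0 ≤ q k x) (ha : ∀ k x, |a k x| ≤ p x * q k x) :
    Tendsto (fun k => ∫⁻ x, ‖a k x‖ₑ ∂μ) atTop (𝓝 0) := by
  have hconj : (2 : ℝ).HolderConjugate 2 := Real.HolderConjugate.two_two
  have e2 : ∀ t : ℝ, 0 ≤ t → ENNReal.ofReal t ^ (2 : ℝ) = ENNReal.ofReal (t ^ 2) := by
    intro t ht
    rw [ENNReal.ofReal_rpow_of_nonneg ht (by norm_num)]
    norm_num
  have key : ∀ k, ∫⁻ x, ‖a k x‖ₑ ∂μ ≤ (∫⁻ x, ENNReal.ofReal (p x ^ 2) ∂μ) ^ (1 / (2 : ℝ)) *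
      (∫⁻ x, ENNReal.ofReal (q k x ^ 2) ∂μ) ^ (1 / (2 : ℝ)) := by
    intro k
    have h1 := ENNReal.lintegral_mul_le_Lp_mul_Lq μ hconj
      (f := fun x => ENNReal.ofReal (p x)) (g := fun x => ENNReal.ofReal (q k x))
      hp.ennreal_ofReal.aemeasurable (hq k).ennreal_ofReal.aemeasurable
    have h2 : ∀ x, ENNReal.ofReal (p x) ^ (2 : ℝ) = ENNReal.ofReal (p x ^ 2) :=
      fun x => e2 _ (hp0 x)
    have h3 : ∀ x, ENNReal.ofReal (q k x) ^ (2 : ℝ) = ENNReal.ofReal (q k x ^ 2) :=
      fun x => e2 _ (hq0 k x)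
    simp only [h2, h3] at h1
    refine le_trans (lintegral_mono fun x => ?_) h1
    rw [Pi.mul_apply, ← ENNReal.ofReal_mul (hp0 x), ← ofReal_norm, Real.norm_eq_abs]
    exact ENNReal.ofReal_le_ofReal (ha k x)
  have h4 : Tendsto (fun k => (∫⁻ x, ENNReal.ofReal (p x ^ 2) ∂μ) ^ (1 / (2 : ℝ)) *
      (∫⁻ x, ENNReal.ofReal (q k x ^ 2) ∂μ) ^ (1 / (2 : ℝ))) atTop (𝓝 0) := by
    have h5 : Tendsto (fun k => (∫⁻ x, ENNReal.ofReal (q k x ^ 2) ∂μ) ^ (1 / (2 : ℝ))) atTop
        (𝓝 0) := by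
      have := (ENNReal.continuous_rpow_const (y := 1 / (2 : ℝ))).tendsto 0
      rw [ENNReal.zero_rpow_of_pos (by norm_num)] at this
      exact this.comp hqt
    have h6 := ENNReal.Tendsto.const_mul (a := (∫⁻ x, ENNReal.ofReal (p x ^ 2) ∂μ) ^ (1 / (2 : ℝ)))
      h5 (Or.inr (ENNReal.rpow_ne_top_of_nonneg (by norm_num) hpi))
    rwa [mul_zero] at h6
  exact tendsto_of_tendsto_of_tendsto_of_le_of_le tendsto_const_nhds h4 (fun k => zero_le) key

theorem LZ_lim (h : IsWgt ρ S) {w : E n → ℝ} (hw : Measurable w) (hw0 : ∀ x, 0 ≤ w x)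
    (hwi : Integrable (fun x => (ρ x + S x) * w x ^ 2)) {D : E n → ℝ} {V : E n → E n}
    (hD : Measurable D) (hV : Measurable V) {K : ℝ} (hK : 0 ≤ K)
    (hDb : ∀ x, |D x| ≤ K * (w x * (ρ x + S x))) (hVb : ∀ x, ‖V x‖ ≤ K * w x)
    {u : E n → ℝ} {G : E n → E n} (hu : Measurable u) (hG : Measurable G)
    {φ : ℕ → E n → ℝ} (hφ : ∀ k, ContDiff ℝ 1 (φ k))
    (hi1 : ∀ k, Integrable (fun x => D x * φ k x))
    (hi2 : ∀ k, Integrable (fun x => ρ x * ⟪V x, gradient (φ k) x⟫_ℝ))
    (hnd : Tendsto (fun k => nd ρ S (φ k) (gradient (φ k)) u G) atTop (𝓝 0))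
    (heq : ∀ k, ∫ x, ρ x * ⟪V x, gradient (φ k) x⟫_ℝ = - ∫ x, D x * φ k x) :
    Integrable (fun x => D x * u x) ∧ Integrable (fun x => ρ x * ⟪V x, G x⟫_ℝ) ∧
      ∫ x, ρ x * ⟪V x, G x⟫_ℝ = - ∫ x, D x * u x := by
  have hρ : Measurable ρ := h.contDiff.continuous.measurable
  have hS : Measurable S := h.cont.measurable
  have hρS : ∀ x, 0 ≤ ρ x + S x := fun x => add_nonneg (h.pos x).le (LZ_S_nonneg h x)
  have hgm : ∀ k, Measurable (gradient (φ k)) := fun k =>
    (LZ_grad_contDiff (k := 0) (hφ k) (by norm_num)).continuous.measurable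
  have hφm : ∀ k, Measurable (φ k) := fun k => (hφ k).continuous.measurable
  have hfin : ∫⁻ x, ENNReal.ofReal ((ρ x + S x) * w x ^ 2) ≠ ∞ := by
    have := hwi.2
    rw [hasFiniteIntegral_iff_norm] at this
    refine ne_of_lt (lt_of_le_of_lt (lintegral_mono fun x => ?_) this)
    exact ENNReal.ofReal_le_ofReal (le_abs_self _)
  -- the first pair
  have h1 : Tendsto (fun k => ∫⁻ x, ‖D x * φ k x - D x * u x‖ₑ) atTop (𝓝 0) := by
    refine LZ_cs (p := fun x => K * (w x * Real.sqrt (ρ x + S x)))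
      (q := fun k x => Real.sqrt (ρ x + S x) * |φ k x - u x|) ?_ ?_ ?_ ?_ ?_ ?_ ?_
    · exact (hw.mul (hρ.add hS).sqrt).const_mul K
    · intro k
      exact (hρ.add hS).sqrt.mul ((hφm k).sub hu).abs
    · intro x
      have := hw0 x
      positivity
    · have h2 : ∀ x, ENNReal.ofReal ((K * (w x * Real.sqrt (ρ x + S x))) ^ 2) =
          ENNReal.ofReal (K ^ 2) * ENNReal.ofReal ((ρ x + S x) * w x ^ 2) := by
        intro x
        rw [← ENNReal.ofReal_mul (sq_nonneg K), mul_pow, mul_pow, Real.sq_sqrt (hρS x),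
          mul_comm (w x ^ 2)]
      simp only [h2]
      rw [lintegral_const_mul' _ _ ENNReal.ofReal_ne_top]
      exact ENNReal.mul_ne_top ENNReal.ofReal_ne_top hfin
    · refine tendsto_of_tendsto_of_tendsto_of_le_of_le tendsto_const_nhds hnd
        (fun k => zero_le) fun k => ?_
      refine lintegral_mono fun x => ENNReal.ofReal_le_ofReal ?_
      rw [mul_pow, Real.sq_sqrt (hρS x), sq_abs]
      have := mul_nonneg (h.pos x).le (sq_nonneg ‖gradient (φ k) x - G x‖)
      linarith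
    · intro k x
      positivity
    · intro k x
      rw [← mul_sub, abs_mul]
      calc |D x| * |φ k x - u x| ≤ (K * (w x * (ρ x + S x))) * |φ k x - u x| :=
            mul_le_mul_of_nonneg_right (hDb x) (abs_nonneg _)
        _ = K * (w x * Real.sqrt (ρ x + S x)) * (Real.sqrt (ρ x + S x) * |φ k x - u x|) := by
            conv_lhs => rw [← Real.mul_self_sqrt (hρS x)]
            ring
  -- the second pair
  have h2 : Tendsto (fun k => ∫⁻ x, ‖ρ x * ⟪V x, gradient (φ k) x⟫_ℝ - ρ x * ⟪V x, G x⟫_ℝ‖ₑ) atTop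
      (𝓝 0) := by
    refine LZ_cs (p := fun x => K * (w x * Real.sqrt (ρ x)))
      (q := fun k x => Real.sqrt (ρ x) * ‖gradient (φ k) x - G x‖) ?_ ?_ ?_ ?_ ?_ ?_ ?_
    · exact (hw.mul hρ.sqrt).const_mul K
    · intro k
      exact hρ.sqrt.mul ((hgm k).sub hG).norm
    · intro x
      have := hw0 x
      positivity
    · have h2 : ∀ x, ENNReal.ofReal ((K * (w x * Real.sqrt (ρ x))) ^ 2) ≤
          ENNReal.ofReal (K ^ 2) * ENNReal.ofReal ((ρ x + S x) * w x ^ 2) := by
        intro x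
        rw [← ENNReal.ofReal_mul (sq_nonneg K), mul_pow, mul_pow, Real.sq_sqrt (h.pos x).le,
          mul_comm (w x ^ 2)]
        refine ENNReal.ofReal_le_ofReal (mul_le_mul_of_nonneg_left ?_ (sq_nonneg K))
        exact mul_le_mul_of_nonneg_right (by linarith [LZ_S_nonneg h x]) (sq_nonneg _)
      refine ne_of_lt (lt_of_le_of_lt (lintegral_mono h2) ?_)
      rw [lintegral_const_mul' _ _ ENNReal.ofReal_ne_top]
      exact ENNReal.mul_lt_top ENNReal.ofReal_lt_top (lt_top_iff_ne_top.2 hfin)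
    · refine tendsto_of_tendsto_of_tendsto_of_le_of_le tendsto_const_nhds hnd
        (fun k => zero_le) fun k => ?_
      refine lintegral_mono fun x => ENNReal.ofReal_le_ofReal ?_
      rw [mul_pow, Real.sq_sqrt (h.pos x).le]
      have := mul_nonneg (hρS x) (sq_nonneg (φ k x - u x))
      linarith
    · intro k x
      positivity
    · intro k x
      rw [← mul_sub, ← inner_sub_right, abs_mul, abs_of_pos (h.pos x)]
      calc ρ x * |⟪V x, gradient (φ k) x - G x⟫_ℝ| ≤ ρ x * (‖V x‖ * ‖gradient (φ k) x - G x‖) :=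
            mul_le_mul_of_nonneg_left (abs_real_inner_le_norm _ _) (h.pos x).le
        _ ≤ ρ x * ((K * w x) * ‖gradient (φ k) x - G x‖) :=
            mul_le_mul_of_nonneg_left (mul_le_mul_of_nonneg_right (hVb x) (norm_nonneg _))
              (h.pos x).le
        _ = K * (w x * Real.sqrt (ρ x)) * (Real.sqrt (ρ x) * ‖gradient (φ k) x - G x‖) := by
            conv_lhs => rw [← Real.mul_self_sqrt (h.pos x).le]
            ring
  have hm1 : AEStronglyMeasurable (fun x => D x * u x) volume := (hD.mul hu).aestronglyMeasurable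
  have hm2 : AEStronglyMeasurable (fun x => ρ x * ⟪V x, G x⟫_ℝ) volume :=
    (hρ.mul (hV.inner hG)).aestronglyMeasurable
  have h3 := tendsto_integral_of_L1 _ hm1 (Filter.Eventually.of_forall hi1) h1
  have h4 := tendsto_integral_of_L1 _ hm2 (Filter.Eventually.of_forall hi2) h2
  have hint : ∀ {a : E n → ℝ} {c : ℕ → E n → ℝ}, AEStronglyMeasurable a volume →
      (∀ k, Integrable (c k)) → Tendsto (fun k => ∫⁻ x, ‖c k x - a x‖ₑ) atTop (𝓝 0) →
      Integrable a := by
    intro a c ha hc hlim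
    obtain ⟨k, hk⟩ := (hlim.eventually (gt_mem_nhds (zero_lt_one' ℝ≥0∞))).exists
    have h5 : Integrable (fun x => c k x - a x) :=
      ⟨(hc k).1.sub ha, lt_trans hk ENNReal.one_lt_top⟩
    have h6 := (hc k).sub h5
    refine h6.congr (Filter.Eventually.of_forall fun x => ?_)
    simp
  refine ⟨hint hm1 hi1 h1, hint hm2 hi2 h2, ?_⟩
  refine tendsto_nhds_unique h4 ?_
  have h5 := h3.neg
  refine h5.congr fun k => (heq k).symm

/-! ### Integration by parts -/

theorem LZ_ibp_cc (hρ : ContDiff ℝ 1 ρ) {V : E n → E n} (hV : ContDiff ℝ 1 V) {φ : E n → ℝ}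
    (hφ : ContDiff ℝ 1 φ) (hc : HasCompactSupport φ) :
    ∫ x, ρ x * ⟪V x, gradient φ x⟫_ℝ =
      - ∫ x, (ρ x * dvg V x + fderiv ℝ ρ x (V x)) * φ x := by
  have hVi : ∀ i : Fin n, ContDiff ℝ 1 fun x => V x i := fun i => contDiff_euclidean.1 hV i
  have hgi : ∀ i : Fin n, ContDiff ℝ 1 fun x => ρ x * V x i := fun i => hρ.mul (hVi i)
  have hcf : ∀ i : Fin n, Continuous fun x => fderiv ℝ φ x (EuclideanSpace.single i 1) := fun i =>
    (hφ.continuous_fderiv (by norm_num)).clm_apply continuous_const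
  have hcg : ∀ i : Fin n, Continuous fun x =>
      fderiv ℝ (fun x => ρ x * V x i) x (EuclideanSpace.single i 1) := fun i =>
    ((hgi i).continuous_fderiv (by norm_num)).clm_apply continuous_const
  have hI1 : ∀ i : Fin n, Integrable fun x =>
      fderiv ℝ φ x (EuclideanSpace.single i 1) * (ρ x * V x i) := fun i =>
    ((hcf i).mul (hgi i).continuous).integrable_of_hasCompactSupport
      ((hc.fderiv_apply (𝕜 := ℝ) _).mul_right)
  have hI2 : ∀ i : Fin n, Integrable fun x =>
      φ x * fderiv ℝ (fun x => ρ x * V x i) x (EuclideanSpace.single i 1) := fun i =>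
    (hφ.continuous.mul (hcg i)).integrable_of_hasCompactSupport hc.mul_right
  have hI3 : ∀ i : Fin n, Integrable fun x => φ x * (ρ x * V x i) := fun i =>
    (hφ.continuous.mul (hgi i).continuous).integrable_of_hasCompactSupport hc.mul_right
  have h1 : ∀ i : Fin n, ∫ x, φ x * fderiv ℝ (fun x => ρ x * V x i) x (EuclideanSpace.single i 1) =
      - ∫ x, fderiv ℝ φ x (EuclideanSpace.single i 1) * (ρ x * V x i) := fun i =>
    integral_mul_fderiv_eq_neg_fderiv_mul_of_integrable (hI1 i) (hI2 i) (hI3 i)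
      (fun x _ => hφ.differentiable (by norm_num) x)
      (fun x _ => (hgi i).differentiable (by norm_num) x)
  have h2 : ∑ i, ∫ x, φ x * fderiv ℝ (fun x => ρ x * V x i) x (EuclideanSpace.single i 1) =
      - ∑ i, ∫ x, fderiv ℝ φ x (EuclideanSpace.single i 1) * (ρ x * V x i) := by
    rw [← Finset.sum_neg_distrib]
    exact Finset.sum_congr rfl fun i _ => h1 i
  rw [← integral_finsetSum _ fun i _ => hI2 i, ← integral_finsetSum _ fun i _ => hI1 i] at h2
  have h3 : ∀ x, ∑ i, fderiv ℝ φ x (EuclideanSpace.single i 1) * (ρ x * V x i) =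
      ρ x * ⟪V x, gradient φ x⟫_ℝ := by
    intro x
    rw [LZ_inner', LZ_lin, Finset.mul_sum]
    exact Finset.sum_congr rfl fun i _ => by ring
  have h4 : ∀ x, ∑ i, φ x * fderiv ℝ (fun x => ρ x * V x i) x (EuclideanSpace.single i 1) =
      (ρ x * dvg V x + fderiv ℝ ρ x (V x)) * φ x := by
    intro x
    have hdρ : HasFDerivAt ρ (fderiv ℝ ρ x) x := (hρ.differentiable (by norm_num) x).hasFDerivAt
    have hdV : HasFDerivAt V (fderiv ℝ V x) x := (hV.differentiable (by norm_num) x).hasFDerivAt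
    have h5 : ∀ i : Fin n, fderiv ℝ (fun x => ρ x * V x i) x (EuclideanSpace.single i 1) =
        ρ x * (fderiv ℝ V x (EuclideanSpace.single i 1)) i +
          V x i * fderiv ℝ ρ x (EuclideanSpace.single i 1) := by
      intro i
      have hdVi : HasFDerivAt (fun x => V x i)
          ((EuclideanSpace.proj i : E n →L[ℝ] ℝ).comp (fderiv ℝ V x)) x :=
        (EuclideanSpace.proj i : E n →L[ℝ] ℝ).hasFDerivAt.comp x hdV
      have h6 := hdρ.mul hdVi
      have h7 : fderiv ℝ (fun x => ρ x * V x i) x = ρ x •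
          ((EuclideanSpace.proj i : E n →L[ℝ] ℝ).comp (fderiv ℝ V x)) + V x i • fderiv ℝ ρ x :=
        h6.fderiv
      rw [h7]
      simp
    rw [LZ_lin (fderiv ℝ ρ x), dvg, Finset.mul_sum, ← Finset.sum_add_distrib, Finset.sum_mul]
    refine Finset.sum_congr rfl fun i _ => ?_
    rw [h5]
    ring
  simp only [h3, h4] at h2
  rw [h2, neg_neg]

theorem LZ_cut (h : IsWgt ρ S) {φ : E n → ℝ} (hφ : Tst φ) :
    ∃ χ : ℕ → E n → ℝ, (∀ k, ContDiff ℝ 1 (χ k)) ∧ (∀ k, HasCompactSupport (χ k)) ∧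
      Tendsto (fun k => nd ρ S (χ k) (gradient (χ k)) φ (gradient φ)) atTop (𝓝 0) := by
  obtain ⟨hφ1, C, hC⟩ := hφ
  have hC0 : 0 ≤ C := (abs_nonneg _).trans (hC 0).1
  let b : ContDiffBump (0 : E n) := ⟨1, 2, one_pos, one_lt_two⟩
  have hb1 : ContDiff ℝ 1 b := b.contDiff
  have hbc : HasCompactSupport b := b.hasCompactSupport
  obtain ⟨M, hM⟩ := (hb1.continuous_fderiv (by norm_num)).bounded_above_of_compact_support
    (hbc.fderiv (𝕜 := ℝ))
  have hM0 : 0 ≤ M := (norm_nonneg _).trans (hM 0)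
  have hdb : ∀ x, HasFDerivAt b (fderiv ℝ b x) x := fun x =>
    (hb1.differentiable (by norm_num) x).hasFDerivAt
  set e : ℕ → ℝ := fun k => ((k : ℝ) + 1)⁻¹ with he
  have he0 : ∀ k, 0 < e k := fun k => by positivity
  have he1 : ∀ k, e k ≤ 1 := fun k => inv_le_one_of_one_le₀ (by
    have : (0 : ℝ) ≤ k := Nat.cast_nonneg k
    linarith)
  have hel : Tendsto e atTop (𝓝 0) := by
    have := tendsto_one_div_add_atTop_nhds_zero_nat (𝕜 := ℝ)
    simpa [he] using this
  set c : ℕ → E n → ℝ := fun k x => b (e k • x) with hcdef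
  have hcC : ∀ k, ContDiff ℝ 1 (c k) := fun k => hb1.comp (contDiff_const_smul _)
  have hcS : ∀ k, HasCompactSupport (c k) := fun k => by
    have := hbc.comp_homeomorph (Homeomorph.smulOfNeZero (e k) (he0 k).ne' : E n ≃ₜ E n)
    exact this
  have hcd : ∀ k x, HasFDerivAt (c k) (e k • fderiv ℝ b (e k • x)) x := by
    intro k x
    have h1 : HasFDerivAt (fun y : E n => e k • y) (e k • ContinuousLinearMap.id ℝ (E n)) x :=
      (hasFDerivAt_id x).const_smul (e k)
    have h2 := (hdb (e k • x)).comp x h1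
    refine h2.congr_fderiv ?_
    ext v
    simp
  have hgrad : ∀ k x, gradient (fun y => c k y * φ y) x - gradient φ x =
      (c k x - 1) • gradient φ x + φ x • gradient (c k) x := by
    intro k x
    have hd : HasFDerivAt φ (fderiv ℝ φ x) x := (hφ1.differentiable (by norm_num) x).hasFDerivAt
    refine ext_inner_right ℝ fun v => ?_
    have h1 : fderiv ℝ (fun y => c k y * φ y) x =
        c k x • fderiv ℝ φ x + φ x • (e k • fderiv ℝ b (e k • x)) := ((hcd k x).mul hd).fderiv
    rw [inner_sub_left, inner_add_left, inner_smul_left, inner_smul_left, LZ_inner, LZ_inner,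
      LZ_inner, h1, (hcd k x).fderiv]
    simp
    ring
  have hgn : ∀ k x, ‖gradient (c k) x‖ ≤ e k * M := by
    intro k x
    rw [LZ_norm, (hcd k x).fderiv, norm_smul, Real.norm_of_nonneg (he0 k).le]
    exact mul_le_mul_of_nonneg_left (hM _) (he0 k).le
  have hc01 : ∀ k x, |c k x - 1| ≤ 1 := by
    intro k x
    have h1 : 0 ≤ c k x := b.nonneg
    have h2 : c k x ≤ 1 := b.le_one
    rw [abs_le]
    constructor <;> linarith
  have hc1 : ∀ x, Tendsto (fun k => c k x) atTop (𝓝 1) := by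
    intro x
    have h1 : Tendsto (fun k => e k • x) atTop (𝓝 ((0 : ℝ) • x)) := hel.smul_const x
    rw [zero_smul] at h1
    have h2 := (b.continuous.tendsto 0).comp h1
    have h3 : b 0 = 1 := b.one_of_mem_closedBall (by simp [b])
    rw [h3] at h2
    exact h2
  have hρS : ∀ x, 0 ≤ ρ x + S x := fun x => add_nonneg (h.pos x).le (LZ_S_nonneg h x)
  have hn1 : ∀ k x, ‖(c k x - 1) • gradient φ x + φ x • gradient (c k) x‖ ≤
      |c k x - 1| * C + C * (e k * M) := by
    intro k x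
    refine (norm_add_le _ _).trans (add_le_add ?_ ?_)
    · rw [norm_smul, Real.norm_eq_abs, LZ_norm]
      exact mul_le_mul_of_nonneg_left (hC x).2 (abs_nonneg _)
    · rw [norm_smul, Real.norm_eq_abs]
      exact mul_le_mul (hC x).1 (hgn k x) (norm_nonneg _) hC0
  refine ⟨fun k x => c k x * φ x, fun k => (hcC k).mul hφ1, fun k => (hcS k).mul_right, ?_⟩
  have hmom := h.mom 0
  simp only [zero_mul, Real.exp_zero, one_mul] at hmom
  have hB : ∫⁻ x, ENNReal.ofReal ((C ^ 2 + (C + C * M) ^ 2) * (ρ x + S x)) ≠ ∞ := by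
    have := (hmom.const_mul (C ^ 2 + (C + C * M) ^ 2)).2
    rw [hasFiniteIntegral_iff_norm] at this
    refine ne_of_lt (lt_of_le_of_lt (lintegral_mono fun x => ?_) this)
    exact ENNReal.ofReal_le_ofReal (le_abs_self _)
  have hlim := tendsto_lintegral_of_dominated_convergence (μ := (volume : Measure (E n)))
    (F := fun k x => ENNReal.ofReal ((ρ x + S x) * (c k x * φ x - φ x) ^ 2 +
      ρ x * ‖gradient (fun y => c k y * φ y) x - gradient φ x‖ ^ 2)) (f := fun _ => 0)
    (fun x => ENNReal.ofReal ((C ^ 2 + (C + C * M) ^ 2) * (ρ x + S x))) ?_ ?_ hB ?_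
  · simpa [nd] using hlim
  · intro k
    have hg1 : Continuous (gradient (fun y => c k y * φ y)) :=
      (LZ_grad_contDiff (k := 0) ((hcC k).mul hφ1) (by norm_num)).continuous
    have hg2 : Continuous (gradient φ) :=
      (LZ_grad_contDiff (k := 0) hφ1 (by norm_num)).continuous
    refine Continuous.measurable (ENNReal.continuous_ofReal.comp ?_)
    exact ((h.contDiff.continuous.add h.cont).mul
      ((((hcC k).continuous.mul hφ1.continuous).sub hφ1.continuous).pow 2)).add
      (h.contDiff.continuous.mul ((hg1.sub hg2).norm.pow 2))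
  · intro k
    refine Filter.Eventually.of_forall fun x => ENNReal.ofReal_le_ofReal ?_
    have h1 : (c k x * φ x - φ x) ^ 2 ≤ C ^ 2 := by
      have h2 : |c k x * φ x - φ x| ≤ C := by
        have h3 : c k x * φ x - φ x = (c k x - 1) * φ x := by ring
        rw [h3, abs_mul]
        calc |c k x - 1| * |φ x| ≤ 1 * C :=
              mul_le_mul (hc01 k x) (hC x).1 (abs_nonneg _) zero_le_one
          _ = C := one_mul C
      rw [← sq_abs]
      exact pow_le_pow_left₀ (abs_nonneg _) h2 2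
    have h4 : ‖gradient (fun y => c k y * φ y) x - gradient φ x‖ ^ 2 ≤ (C + C * M) ^ 2 := by
      refine pow_le_pow_left₀ (norm_nonneg _) ?_ 2
      rw [hgrad]
      refine (hn1 k x).trans (add_le_add ?_ ?_)
      · exact (mul_le_mul_of_nonneg_right (hc01 k x) hC0).trans (one_mul C).le
      · exact mul_le_mul_of_nonneg_left
          ((mul_le_mul_of_nonneg_right (he1 k) hM0).trans (one_mul M).le) hC0
    calc (ρ x + S x) * (c k x * φ x - φ x) ^ 2 +
          ρ x * ‖gradient (fun y => c k y * φ y) x - gradient φ x‖ ^ 2 ≤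
          (ρ x + S x) * C ^ 2 + (ρ x + S x) * (C + C * M) ^ 2 :=
        add_le_add (mul_le_mul_of_nonneg_left h1 (hρS x))
          (mul_le_mul (by linarith [LZ_S_nonneg h x]) h4 (sq_nonneg _) (hρS x))
      _ = _ := by ring
  · refine Filter.Eventually.of_forall fun x => ?_
    have h1 : Tendsto (fun k => |c k x - 1|) atTop (𝓝 0) := by
      have := ((hc1 x).sub_const 1).abs
      simpa using this
    have h2 : Tendsto (fun k => |c k x - 1| * C + C * (e k * M)) atTop (𝓝 0) := by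
      have := (h1.mul_const C).add ((hel.mul_const M).const_mul C)
      simpa using this
    have h3 : Tendsto (fun k => (ρ x + S x) * (|c k x - 1| * C) ^ 2 +
        ρ x * (|c k x - 1| * C + C * (e k * M)) ^ 2) atTop (𝓝 0) := by
      have := (((h1.mul_const C).pow 2).const_mul (ρ x + S x)).add ((h2.pow 2).const_mul (ρ x))
      simpa using this
    have h4 : Tendsto (fun k => ENNReal.ofReal ((ρ x + S x) * (|c k x - 1| * C) ^ 2 +
        ρ x * (|c k x - 1| * C + C * (e k * M)) ^ 2)) atTop (𝓝 0) := by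
      have := (ENNReal.continuous_ofReal.tendsto 0).comp h3
      rw [ENNReal.ofReal_zero] at this
      exact this
    refine tendsto_of_tendsto_of_tendsto_of_le_of_le tendsto_const_nhds h4 (fun k => zero_le)
      fun k => ENNReal.ofReal_le_ofReal ?_
    refine add_le_add (mul_le_mul_of_nonneg_left ?_ (hρS x))
      (mul_le_mul_of_nonneg_left ?_ (h.pos x).le)
    · have h5 : c k x * φ x - φ x = (c k x - 1) * φ x := by ring
      rw [h5, ← sq_abs, abs_mul]
      exact pow_le_pow_left₀ (by positivity) (mul_le_mul_of_nonneg_left (hC x).1 (abs_nonneg _)) 2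
    · refine pow_le_pow_left₀ (norm_nonneg _) ?_ 2
      rw [hgrad]
      exact hn1 k x

/-! ### The targets -/

theorem z_mem (h : IsWgt ρ S) {g : E n → ℝ} (hg : ContDiff ℝ 2 g) {b : ℝ}
    (hb : ∀ x, ‖fderiv ℝ g x‖ ≤ b) :
    InH ρ S (fun x => Real.exp (g x)) (gradient (fun x => Real.exp (g x))) := by
  have hb0 : 0 ≤ b := (norm_nonneg _).trans (hb 0)
  have hz2 : ContDiff ℝ 2 fun x => Real.exp (g x) := hg.exp
  have hgz : Continuous (gradient fun x => Real.exp (g x)) :=
    (LZ_grad_contDiff (k := 1) hz2 (by norm_num)).continuous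
  set e : ℕ → ℝ := fun k => ((k : ℝ) + 1)⁻¹ with he
  have he0 : ∀ k, 0 < e k := fun k => by positivity
  have hel : Tendsto e atTop (𝓝 0) := by
    have := tendsto_one_div_add_atTop_nhds_zero_nat (𝕜 := ℝ)
    simpa [he] using this
  have hq0 : ∀ k x, 0 < Real.exp (- g x) + e k := fun k x => add_pos (Real.exp_pos _) (he0 k)
  set φ : ℕ → E n → ℝ := fun k x => (Real.exp (- g x) + e k)⁻¹ with hφ
  have hφC : ∀ k, ContDiff ℝ 1 (φ k) := fun k =>
    ((hg.of_le (by norm_num)).neg.exp.add contDiff_const).inv fun x => (hq0 k x).ne'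
  have hφg : ∀ k x, gradient (φ k) x =
      (Real.exp (- g x) * ((Real.exp (- g x) + e k) ^ 2)⁻¹) • gradient g x := by
    intro k x
    have hd : HasFDerivAt g (fderiv ℝ g x) x := (hg.differentiable (by norm_num) x).hasFDerivAt
    have h1 : HasFDerivAt (fun y => Real.exp (- g y) + e k)
        (Real.exp (- g x) • (- fderiv ℝ g x)) x := (hd.neg.exp).add_const (e k)
    have h2 := (hasDerivAt_inv (hq0 k x).ne').comp_hasFDerivAt x h1
    refine ext_inner_right ℝ fun v => ?_
    rw [LZ_inner, inner_smul_left, LZ_inner]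
    have h3 : fderiv ℝ (φ k) x = (-((Real.exp (- g x) + e k) ^ 2)⁻¹) •
        (Real.exp (- g x) • (- fderiv ℝ g x)) := h2.fderiv
    rw [h3]
    simp
    ring
  -- elementary bounds
  have hφz : ∀ k x, φ k x ≤ Real.exp (g x) := by
    intro k x
    have h1 : Real.exp (g x) = (Real.exp (- g x))⁻¹ := by rw [Real.exp_neg, inv_inv]
    rw [h1]
    exact inv_anti₀ (Real.exp_pos _) (by linarith [he0 k])
  have hφ0 : ∀ k x, 0 < φ k x := fun k x => inv_pos.2 (hq0 k x)
  have hc0 : ∀ k x, 0 ≤ Real.exp (- g x) * ((Real.exp (- g x) + e k) ^ 2)⁻¹ := fun k x =>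
    mul_nonneg (Real.exp_pos _).le (inv_nonneg.2 (sq_nonneg _))
  have hcφ : ∀ k x, Real.exp (- g x) * ((Real.exp (- g x) + e k) ^ 2)⁻¹ ≤ φ k x := by
    intro k x
    rw [hφ, sq, mul_inv, ← mul_assoc]
    refine (mul_le_mul_of_nonneg_right ?_ (inv_nonneg.2 (hq0 k x).le)).trans (one_mul _).le
    rw [← div_eq_mul_inv, div_le_one (hq0 k x)]
    linarith [he0 k]
  have hφe : ∀ k x, φ k x ≤ (e k)⁻¹ := fun k x =>
    inv_anti₀ (he0 k) (by linarith [Real.exp_pos (- g x)])
  have hTst : ∀ k, Tst (φ k) := by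
    intro k
    refine ⟨hφC k, (e k)⁻¹ * (1 + b), fun x => ⟨?_, ?_⟩⟩
    · rw [abs_of_pos (hφ0 k x)]
      refine (hφe k x).trans ?_
      have := inv_pos.2 (he0 k)
      nlinarith [mul_nonneg this.le hb0]
    · rw [← LZ_norm, hφg, norm_smul, Real.norm_of_nonneg (hc0 k x), LZ_norm]
      refine (mul_le_mul ((hcφ k x).trans (hφe k x)) (hb x) (norm_nonneg _)
        (inv_pos.2 (he0 k)).le).trans ?_
      have := inv_pos.2 (he0 k)
      nlinarith
  have hρS : ∀ x, 0 ≤ ρ x + S x := fun x => add_nonneg (h.pos x).le (LZ_S_nonneg h x)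
  refine ⟨hz2.continuous.measurable, hgz.measurable, φ, hTst, ?_⟩
  have hB : ∫⁻ x, ENNReal.ofReal ((1 + b ^ 2) * ((ρ x + S x) * Real.exp (g x) ^ 2)) ≠ ∞ := by
    have := ((LZ_z_int h hg hb).const_mul (1 + b ^ 2)).2
    rw [hasFiniteIntegral_iff_norm] at this
    refine ne_of_lt (lt_of_le_of_lt (lintegral_mono fun x => ?_) this)
    exact ENNReal.ofReal_le_ofReal (le_abs_self _)
  have hlim := tendsto_lintegral_of_dominated_convergence (μ := (volume : Measure (E n)))
    (F := fun k x => ENNReal.ofReal ((ρ x + S x) * (φ k x - Real.exp (g x)) ^ 2 +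
      ρ x * ‖gradient (φ k) x - gradient (fun x => Real.exp (g x)) x‖ ^ 2)) (f := fun _ => 0)
    (fun x => ENNReal.ofReal ((1 + b ^ 2) * ((ρ x + S x) * Real.exp (g x) ^ 2))) ?_ ?_ hB ?_
  · simpa [nd] using hlim
  · intro k
    have hg1 : Continuous (gradient (φ k)) :=
      (LZ_grad_contDiff (k := 0) (hφC k) (by norm_num)).continuous
    refine Continuous.measurable (ENNReal.continuous_ofReal.comp ?_)
    exact ((h.contDiff.continuous.add h.cont).mul
      (((hφC k).continuous.sub hz2.continuous).pow 2)).add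
      (h.contDiff.continuous.mul ((hg1.sub hgz).norm.pow 2))
  · intro k
    refine Filter.Eventually.of_forall fun x => ENNReal.ofReal_le_ofReal ?_
    have h1 : (φ k x - Real.exp (g x)) ^ 2 ≤ Real.exp (g x) ^ 2 := by
      rw [← sq_abs]
      refine pow_le_pow_left₀ (abs_nonneg _) ?_ 2
      rw [abs_le]
      constructor
      · linarith [hφ0 k x]
      · linarith [hφz k x, Real.exp_pos (g x)]
    have h2 : ‖gradient (φ k) x - gradient (fun x => Real.exp (g x)) x‖ ^ 2 ≤
        b ^ 2 * Real.exp (g x) ^ 2 := by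
      rw [← mul_pow]
      refine pow_le_pow_left₀ (norm_nonneg _) ?_ 2
      rw [LZ_exp_grad hg, hφg, ← sub_smul, norm_smul, LZ_norm, Real.norm_eq_abs, mul_comm]
      refine mul_le_mul (hb x) ?_ (abs_nonneg _) hb0
      rw [abs_le]
      constructor
      · linarith [hc0 k x]
      · linarith [hcφ k x, hφz k x, Real.exp_pos (g x)]
    calc (ρ x + S x) * (φ k x - Real.exp (g x)) ^ 2 +
          ρ x * ‖gradient (φ k) x - gradient (fun x => Real.exp (g x)) x‖ ^ 2 ≤
          (ρ x + S x) * Real.exp (g x) ^ 2 + (ρ x + S x) * (b ^ 2 * Real.exp (g x) ^ 2) :=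
        add_le_add (mul_le_mul_of_nonneg_left h1 (hρS x))
          (mul_le_mul (by linarith [LZ_S_nonneg h x]) h2 (sq_nonneg _) (hρS x))
      _ = _ := by ring
  · refine Filter.Eventually.of_forall fun x => ?_
    have h1 : Tendsto (fun k => Real.exp (- g x) + e k) atTop (𝓝 (Real.exp (- g x))) := by
      simpa using hel.const_add (Real.exp (- g x))
    have h2 : Tendsto (fun k => φ k x) atTop (𝓝 (Real.exp (g x))) := by
      have h7 := h1.inv₀ (Real.exp_pos _).ne'
      have h8 : (Real.exp (- g x))⁻¹ = Real.exp (g x) := by rw [Real.exp_neg, inv_inv]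
      rw [h8] at h7
      exact h7
    have h3 : Tendsto (fun k => Real.exp (- g x) * ((Real.exp (- g x) + e k) ^ 2)⁻¹) atTop
        (𝓝 (Real.exp (g x))) := by
      have := ((h1.pow 2).inv₀ (pow_pos (Real.exp_pos _) 2).ne').const_mul (Real.exp (- g x))
      have h4 : Real.exp (- g x) * (Real.exp (- g x) ^ 2)⁻¹ = Real.exp (g x) := by
        rw [Real.exp_neg]
        have := (Real.exp_pos (g x)).ne'
        field_simp
      rwa [h4] at this
    have h5 : Tendsto (fun k => gradient (φ k) x) atTop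
        (𝓝 (gradient (fun x => Real.exp (g x)) x)) := by
      rw [LZ_exp_grad hg]
      simp only [hφg]
      exact h3.smul_const _
    have h6 : Tendsto (fun k => (ρ x + S x) * (φ k x - Real.exp (g x)) ^ 2 +
        ρ x * ‖gradient (φ k) x - gradient (fun x => Real.exp (g x)) x‖ ^ 2) atTop (𝓝 0) := by
      have := (((h2.sub_const (Real.exp (g x))).pow 2).const_mul (ρ x + S x)).add
        (((h5.sub_const (gradient (fun x => Real.exp (g x)) x)).norm.pow 2).const_mul (ρ x))
      simpa using this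
    have := (ENNReal.continuous_ofReal.tendsto 0).comp h6
    rw [ENNReal.ofReal_zero] at this
    exact this

theorem z_ibp (h : IsWgt ρ S) {g : E n → ℝ} (hg : ContDiff ℝ 2 g) {b C : ℝ}
    (hb : ∀ x, ‖fderiv ℝ g x‖ ≤ b) (hC : ∀ x, |dvg (gradient g) x| ≤ C)
    {ψ : E n → ℝ} {Ψ : E n → E n} (h' : InH ρ S ψ Ψ) :
    Integrable (fun x => (ρ x * dvg (gradient (fun x => Real.exp (g x))) x +
        fderiv ℝ ρ x (gradient (fun x => Real.exp (g x)) x)) * ψ x) ∧
    ∫ x, ρ x * ⟪gradient (fun x => Real.exp (g x)) x, Ψ x⟫_ℝ =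
      - ∫ x, (ρ x * dvg (gradient (fun x => Real.exp (g x))) x +
        fderiv ℝ ρ x (gradient (fun x => Real.exp (g x)) x)) * ψ x := by
  have hb0 : 0 ≤ b := (norm_nonneg _).trans (hb 0)
  have hC0 : 0 ≤ C := (abs_nonneg _).trans (hC 0)
  have hz2 : ContDiff ℝ 2 fun x => Real.exp (g x) := hg.exp
  have hρ1 : ContDiff ℝ 1 ρ := h.contDiff.of_le (by norm_num)
  set V : E n → E n := gradient fun x => Real.exp (g x) with hV
  have hV1 : ContDiff ℝ 1 V := LZ_grad_contDiff hz2 (by norm_num)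
  set D : E n → ℝ := fun x => ρ x * dvg V x + fderiv ℝ ρ x (V x) with hD
  have hDc : Continuous D := (h.contDiff.continuous.mul (LZ_dvg_cont hV1)).add
    ((hρ1.continuous_fderiv (by norm_num)).clm_apply hV1.continuous)
  have hρS : ∀ x, 0 ≤ ρ x + S x := fun x => add_nonneg (h.pos x).le (LZ_S_nonneg h x)
  have hVn : ∀ x, ‖V x‖ ≤ b * Real.exp (g x) := by
    intro x
    rw [hV, LZ_exp_grad hg, norm_smul, LZ_norm, Real.norm_of_nonneg (Real.exp_pos _).le, mul_comm]
    exact mul_le_mul_of_nonneg_right (hb x) (Real.exp_pos _).le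
  have hVb : ∀ x, ‖V x‖ ≤ (C + b ^ 2 + b) * Real.exp (g x) := by
    intro x
    refine (hVn x).trans (mul_le_mul_of_nonneg_right ?_ (Real.exp_pos _).le)
    nlinarith
  have hDb : ∀ x, |D x| ≤ (C + b ^ 2 + b) * (Real.exp (g x) * (ρ x + S x)) := by
    intro x
    have hez := Real.exp_pos (g x)
    have h1 : |dvg V x| ≤ Real.exp (g x) * (C + b ^ 2) := by
      rw [hV, LZ_exp_dvg hg, abs_mul, abs_of_pos hez]
      refine mul_le_mul_of_nonneg_left ?_ hez.le
      refine (abs_add_le _ _).trans (add_le_add (hC x) ?_)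
      rw [abs_of_nonneg (sq_nonneg _)]
      exact pow_le_pow_left₀ (norm_nonneg _) (hb x) 2
    have h2 : |fderiv ℝ ρ x (V x)| ≤ S x * (b * Real.exp (g x)) := by
      rw [← Real.norm_eq_abs]
      refine ((fderiv ℝ ρ x).le_opNorm _).trans ?_
      exact mul_le_mul (h.grad_le x) (hVn x) (norm_nonneg _) (LZ_S_nonneg h x)
    have h3 : |D x| ≤ ρ x * (Real.exp (g x) * (C + b ^ 2)) + S x * (b * Real.exp (g x)) := by
      refine (abs_add_le _ _).trans (add_le_add ?_ h2)
      rw [abs_mul, abs_of_pos (h.pos x)]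
      exact mul_le_mul_of_nonneg_left h1 (h.pos x).le
    have h4 : 0 ≤ ρ x * (Real.exp (g x) * b) :=
      mul_nonneg (h.pos x).le (mul_nonneg hez.le hb0)
    have h5 : 0 ≤ S x * (Real.exp (g x) * (C + b ^ 2)) :=
      mul_nonneg (LZ_S_nonneg h x) (mul_nonneg hez.le (add_nonneg hC0 (sq_nonneg _)))
    nlinarith
  have hK : 0 ≤ C + b ^ 2 + b := by positivity
  have hw : Measurable fun x => Real.exp (g x) := hz2.continuous.measurable
  have hwi := LZ_z_int h hg hb
  have hkey : ∀ {φ : E n → ℝ}, Tst φ → Integrable (fun x => D x * φ x) ∧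
      Integrable (fun x => ρ x * ⟪V x, gradient φ x⟫_ℝ) ∧
      ∫ x, ρ x * ⟪V x, gradient φ x⟫_ℝ = - ∫ x, D x * φ x := by
    intro φ hφ
    obtain ⟨χ, hχ1, hχ2, hχ3⟩ := LZ_cut h hφ
    have hgχ : ∀ k, Continuous (gradient (χ k)) := fun k =>
      (LZ_grad_contDiff (k := 0) (hχ1 k) (by norm_num)).continuous
    refine LZ_lim h hw (fun x => (Real.exp_pos _).le) hwi hDc.measurable hV1.continuous.measurable
      hK hDb hVb hφ.1.continuous.measurable
      (LZ_grad_contDiff (k := 0) hφ.1 (by norm_num)).continuous.measurable hχ1 ?_ ?_ hχ3 ?_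
    · intro k
      exact (hDc.mul (hχ1 k).continuous).integrable_of_hasCompactSupport (hχ2 k).mul_left
    · intro k
      have h1 : Continuous fun x => ρ x * ⟪V x, gradient (χ k) x⟫_ℝ :=
        h.contDiff.continuous.mul (hV1.continuous.inner (hgχ k))
      refine h1.integrable_of_hasCompactSupport ?_
      have h2 : HasCompactSupport (fun x => fderiv ℝ (χ k) x) := (hχ2 k).fderiv (𝕜 := ℝ)
      refine h2.mono fun x hx => ?_
      rw [Function.mem_support] at hx ⊢
      intro h3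
      apply hx
      rw [LZ_inner', h3]
      simp
    · intro k
      exact LZ_ibp_cc hρ1 hV1 (hχ1 k) (hχ2 k)
  obtain ⟨hψ, hΨ, φ, hφ1, hφ2⟩ := h'
  have hfin := LZ_lim h hw (fun x => (Real.exp_pos _).le) hwi hDc.measurable
    hV1.continuous.measurable hK hDb hVb hψ hΨ (fun k => (hφ1 k).1)
    (fun k => (hkey (hφ1 k)).1) (fun k => (hkey (hφ1 k)).2.1) hφ2 (fun k => (hkey (hφ1 k)).2.2)
  exact ⟨hfin.1, hfin.2.2⟩

end Pool.Agent.Helper876.LZ
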