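import Pool.Agent.Helper876_Robin.LDefs
import Pool.Agent.Helper876_Robin.LExist
import Pool.Agent.Helper876_Robin.LCalc
import Pool.Agent.Helper876_Robin.LForm
import Pool.Agent.Helper876_Robin.LZ

/-!
# The weak supersolution
-/

set_option autoImplicit false

open MeasureTheory Set Metric Filter Topology
open scoped ENNReal NNReal InnerProductSpace

namespace Pool.Agent.Helper876.Rob

/-- `log` extended linearly to the left of `1`. -/
noncomputable def xlog (t : ℝ) : ℝ := if 1 ≤ t then Real.log t else t - 1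

/-- `1/t` extended linearly to the left of `1`. -/
noncomputable def xinv (t : ℝ) : ℝ := if 1 ≤ t then t⁻¹ else 2 - t

/-- a function glued from two pieces with the same value and derivative at `1` -/
theorem hasDerivAt_glue {f g f' g' : ℝ → ℝ} (hf : ∀ t, 1 ≤ t → HasDerivAt f (f' t) t)
    (hg : ∀ t, t ≤ 1 → HasDerivAt g (g' t) t) (h0 : f 1 = g 1) (h1 : f' 1 = g' 1) (t : ℝ) :
    HasDerivAt (fun t => if 1 ≤ t then f t else g t) (if 1 ≤ t then f' t else g' t) t := by
  rcases lt_trichotomy t 1 with ht | ht | ht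
  · rw [if_neg (not_le.2 ht)]
    refine (hg t ht.le).congr_of_eventuallyEq ?_
    filter_upwards [Iio_mem_nhds ht] with s hs
    rw [if_neg (not_le.2 hs)]
  · subst ht
    rw [if_pos le_rfl]
    have hl : HasDerivWithinAt (fun t => if 1 ≤ t then f t else g t) (f' 1) (Iic 1) 1 := by
      rw [h1]
      refine (hg 1 le_rfl).hasDerivWithinAt.congr ?_ ?_
      · intro s hs
        rcases (show s ≤ 1 from hs).eq_or_lt with h | h
        · rw [h, if_pos le_rfl, h0]
        · rw [if_neg (not_le.2 h)]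
      · rw [if_pos le_rfl, h0]
    have hr : HasDerivWithinAt (fun t => if 1 ≤ t then f t else g t) (f' 1) (Ici 1) 1 := by
      refine (hf 1 le_rfl).hasDerivWithinAt.congr ?_ ?_
      · intro s hs
        have hs' : (1:ℝ) ≤ s := hs
        rw [if_pos hs']
      · rw [if_pos le_rfl]
    have := hl.union hr
    rwa [Iic_union_Ici, hasDerivWithinAt_univ] at this
  · rw [if_pos ht.le]
    refine (hf t ht.le).congr_of_eventuallyEq ?_
    filter_upwards [Ioi_mem_nhds ht] with s hs
    rw [if_pos (le_of_lt hs)]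

theorem xlog_deriv (t : ℝ) : HasDerivAt xlog (if 1 ≤ t then t⁻¹ else 1) t := by
  apply hasDerivAt_glue (f := Real.log) (g := fun t => t - 1) (f' := fun t => t⁻¹) (g' := fun _ => 1)
  · intro t ht
    exact Real.hasDerivAt_log (by linarith)
  · intro t _
    exact (hasDerivAt_id t).sub_const 1
  · simp
  · simp

theorem xinv_deriv (t : ℝ) : HasDerivAt xinv (if 1 ≤ t then -(t ^ 2)⁻¹ else -1) t := by
  apply hasDerivAt_glue (f := fun t => t⁻¹) (g := fun t => 2 - t) (f' := fun t => -(t ^ 2)⁻¹)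
    (g' := fun _ => -1)
  · intro t ht
    exact hasDerivAt_inv (by linarith)
  · intro t _
    exact (hasDerivAt_id t).const_sub 2
  · norm_num
  · norm_num

theorem glue_cont {f g : ℝ → ℝ} (hf : ContinuousOn f (Ici 1)) (hg : Continuous g)
    (h : f 1 = g 1) : Continuous (fun t => if 1 ≤ t then f t else g t) := by
  have : (fun t => if 1 ≤ t then f t else g t) = fun t => if 1 ≤ t then f (max t 1) else g t := by
    ext t
    split_ifs with ht
    · rw [max_eq_left ht]
    · rfl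
  rw [this]
  have hc : Continuous fun t => f (max t 1) := by
    rw [← continuousOn_univ]
    exact hf.comp (by fun_prop) fun t _ => show (1:ℝ) ≤ max t 1 from le_max_right _ _
  apply Continuous.if_le hc hg continuous_const continuous_id
  intro t ht
  have ht' : (1:ℝ) = t := ht
  rw [← ht', max_self]
  exact h

theorem xlog_contDiff : ContDiff ℝ 1 xlog := by
  rw [contDiff_one_iff_deriv]
  refine ⟨fun t => (xlog_deriv t).differentiableAt, ?_⟩
  have : deriv xlog = fun t => if 1 ≤ t then t⁻¹ else 1 := funext fun t => (xlog_deriv t).deriv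
  rw [this]
  apply glue_cont (f := fun t => t⁻¹) (g := fun _ => 1)
  · apply ContinuousOn.inv₀ continuousOn_id
    intro t ht
    have : (1:ℝ) ≤ t := ht
    exact (show (0:ℝ) < t by linarith).ne'
  · exact continuous_const
  · norm_num

theorem xinv_contDiff : ContDiff ℝ 1 xinv := by
  rw [contDiff_one_iff_deriv]
  refine ⟨fun t => (xinv_deriv t).differentiableAt, ?_⟩
  have : deriv xinv = fun t => if 1 ≤ t then -(t ^ 2)⁻¹ else -1 :=
    funext fun t => (xinv_deriv t).deriv
  rw [this]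
  apply glue_cont (f := fun t => -(t ^ 2)⁻¹) (g := fun _ => -1)
  · apply ContinuousOn.neg
    apply ContinuousOn.inv₀ (by fun_prop)
    intro t ht
    have : (1:ℝ) ≤ t := ht
    positivity
  · exact continuous_const
  · norm_num

theorem xlog_bd (t : ℝ) : |deriv xlog t| ≤ 1 := by
  rw [(xlog_deriv t).deriv]
  split_ifs with h
  · rw [abs_of_nonneg (by positivity)]
    exact inv_le_one_of_one_le₀ h
  · simp

theorem xinv_bd (t : ℝ) : |deriv xinv t| ≤ 1 := by
  rw [(xinv_deriv t).deriv]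
  split_ifs with h
  · rw [abs_neg, abs_of_nonneg (by positivity)]
    exact inv_le_one_of_one_le₀ (one_le_pow₀ h)
  · simp

/-- the barrier -/
noncomputable def bar {n : ℕ} (b L : ℝ) (x : E n) : ℝ := b * (Real.sqrt (1 + ‖x‖ ^ 2) - L)

theorem bar_contDiff {n : ℕ} (b L : ℝ) : ContDiff ℝ 2 (bar (n := n) b L) := by
  unfold bar
  apply ContDiff.mul contDiff_const
  apply ContDiff.sub _ contDiff_const
  apply ContDiff.sqrt
  · exact contDiff_const.add (contDiff_norm_sq ℝ)
  · intro x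
    positivity

theorem bar_grad {n : ℕ} (b L : ℝ) (x : E n) :
    HasFDerivAt (bar (n := n) b L) ((b / Real.sqrt (1 + ‖x‖ ^ 2)) • innerSL ℝ x) x := by
  unfold bar
  have h1 : HasFDerivAt (fun x : E n => 1 + ‖x‖ ^ 2) (2 • innerSL ℝ x) x :=
    ((hasStrictFDerivAt_norm_sq x).hasFDerivAt).const_add 1
  have h0 : (0:ℝ) < 1 + ‖x‖ ^ 2 := by positivity
  have h2 := ((h1.sqrt h0.ne').sub_const L).const_mul b
  refine h2.congr_fderiv ?_
  have : Real.sqrt (1 + ‖x‖ ^ 2) ≠ 0 := (Real.sqrt_pos.2 h0).ne'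
  ext v
  simp
  field_simp

theorem bar_gradient {n : ℕ} (b L : ℝ) :
    gradient (bar (n := n) b L) = fun x => (b / Real.sqrt (1 + ‖x‖ ^ 2)) • x := by
  funext x
  apply HasGradientAt.gradient
  rw [hasGradientAt_iff_hasFDerivAt]
  refine (bar_grad b L x).congr_fderiv ?_
  ext v
  simp

theorem bar_fderiv_le {n : ℕ} {b : ℝ} (hb : 0 ≤ b) (L : ℝ) (x : E n) :
    ‖fderiv ℝ (bar (n := n) b L) x‖ ≤ b := by
  rw [(bar_grad b L x).fderiv, norm_smul, innerSL_apply_norm, Real.norm_eq_abs,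
    abs_of_nonneg (by positivity), div_mul_eq_mul_div, div_le_iff₀ (by positivity)]
  apply mul_le_mul_of_nonneg_left _ hb
  apply Real.le_sqrt_of_sq_le
  linarith

theorem bar_dvg {n : ℕ} (b L : ℝ) (x : E n) :
    dvg (gradient (bar (n := n) b L)) x =
      b * (n / Real.sqrt (1 + ‖x‖ ^ 2) - ‖x‖ ^ 2 / Real.sqrt (1 + ‖x‖ ^ 2) ^ 3) := by
  rw [bar_gradient]
  have h1 : HasFDerivAt (fun x : E n => 1 + ‖x‖ ^ 2) (2 • innerSL ℝ x) x :=
    ((hasStrictFDerivAt_norm_sq x).hasFDerivAt).const_add 1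
  have h0 : (0:ℝ) < 1 + ‖x‖ ^ 2 := by positivity
  have hs : Real.sqrt (1 + ‖x‖ ^ 2) ≠ 0 := (Real.sqrt_pos.2 h0).ne'
  have h2 : HasFDerivAt (fun x : E n => b / Real.sqrt (1 + ‖x‖ ^ 2))
      ((-b / Real.sqrt (1 + ‖x‖ ^ 2) ^ 3) • innerSL ℝ x) x := by
    have h3 := ((hasDerivAt_inv hs).comp_hasFDerivAt x (h1.sqrt h0.ne')).const_mul b
    refine (h3.congr_fderiv ?_).congr_of_eventuallyEq (Eventually.of_forall fun y => ?_)
    · ext v
      simp
      field_simp
    · simp [div_eq_mul_inv]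
  have h4 := HasFDerivAt.fun_smul h2 (hasFDerivAt_id x)
  unfold dvg
  simp only [id] at h4
  rw [h4.fderiv]
  have h5 : ∀ i : Fin n, (((b / Real.sqrt (1 + ‖x‖ ^ 2)) • ContinuousLinearMap.id ℝ (E n) +
      ((-b / Real.sqrt (1 + ‖x‖ ^ 2) ^ 3) • innerSL ℝ x).smulRight x)
      (EuclideanSpace.single i 1)) i = b / Real.sqrt (1 + ‖x‖ ^ 2) -
        b / Real.sqrt (1 + ‖x‖ ^ 2) ^ 3 * (x i) ^ 2 := by
    intro i
    simp [EuclideanSpace.inner_single_right]
    ring
  rw [Finset.sum_congr rfl fun i _ => h5 i, Finset.sum_sub_distrib, ← Finset.mul_sum,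
    EuclideanSpace.norm_sq_eq]
  simp
  ring

theorem bar_dvg_bd {n : ℕ} (hn : 1 ≤ n) {b : ℝ} (hb : 0 ≤ b) (L : ℝ) (x : E n) :
    0 ≤ dvg (gradient (bar (n := n) b L)) x ∧ dvg (gradient (bar (n := n) b L)) x ≤ b * n := by
  rw [bar_dvg]
  have h0 : (0:ℝ) < 1 + ‖x‖ ^ 2 := by positivity
  set s := Real.sqrt (1 + ‖x‖ ^ 2) with hs
  have hs0 : 0 < s := Real.sqrt_pos.2 h0
  have hs2 : s ^ 2 = 1 + ‖x‖ ^ 2 := Real.sq_sqrt h0.le
  have hs1 : 1 ≤ s := by
    rw [hs]
    apply Real.one_le_sqrt.2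
    have := sq_nonneg ‖x‖
    linarith
  have hn0 : (1:ℝ) ≤ n := by exact_mod_cast hn
  have e1 : ‖x‖ ^ 2 / s ^ 3 ≤ 1 / s := by
    rw [div_le_div_iff₀ (by positivity) hs0]
    have : s ^ 3 = s ^ 2 * s := by ring
    rw [this, hs2]
    nlinarith
  have e2 : 1 / s ≤ n / s := div_le_div_of_nonneg_right hn0 hs0.le
  have e3 : n / s ≤ n := div_le_self (by positivity) hs1
  have e4 : 0 ≤ ‖x‖ ^ 2 / s ^ 3 := by positivity
  constructor
  · apply mul_nonneg hb
    linarith
  · apply mul_le_mul_of_nonneg_left _ hb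
    linarith

section

variable {n : ℕ} {ρ S : E n → ℝ}

theorem IsWgt.S0 (h : IsWgt ρ S) (x : E n) : 0 ≤ S x := (norm_nonneg _).trans (h.grad_le x)

theorem IsWgt.int (h : IsWgt ρ S) : Integrable (fun x => ρ x + S x) := by
  have := h.mom 0
  simpa using this

theorem IsWgt.intρ (h : IsWgt ρ S) : Integrable ρ := by
  refine h.int.mono' h.contDiff.continuous.aestronglyMeasurable (Eventually.of_forall fun x => ?_)
  rw [Real.norm_eq_abs, abs_of_pos (h.pos x)]
  linarith [h.S0 x]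

theorem IsWgt.intS (h : IsWgt ρ S) : Integrable S := by
  refine h.int.mono' h.cont.aestronglyMeasurable (Eventually.of_forall fun x => ?_)
  rw [Real.norm_eq_abs, abs_of_nonneg (h.S0 x)]
  linarith [h.pos x]

theorem Tst.const (c : ℝ) : Tst (fun _ : E n => c) := by
  refine ⟨contDiff_const, |c|, fun x => ⟨le_rfl, ?_⟩⟩
  simp

/-- the weak minimum principle -/
theorem weak_min (h : IsWgt ρ S) {A A' κ : ℝ} (hA' : 0 < A') (hA : A' < A) (hκ : 0 < κ)
    (hc : Coer ρ S A κ) {u : E n → ℝ} {G : E n → E n} (hu : InH ρ S u G)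
    (hpos : 0 ≤ (∫ x, ρ x * ⟪G x, if u x < 0 then -G x else 0⟫_ℝ) -
      A' * (∫ x, S x * u x * max (-u x) 0) + κ * ∫ x, ρ x * u x * max (-u x) 0) :
    ∀ᵐ x, 0 ≤ u x := by
  have hρ := h.contDiff.continuous
  have hneg := LCalc.neg_part hρ h.pos h.cont h.S0 h.int hu
  have hco := LForm.coer hρ h.pos h.cont h.S0 h.int (hA'.trans hA).le hκ.le hc hneg
  obtain ⟨i1, i2⟩ := LCalc.int1 hρ h.pos h.cont h.S0 h.int hneg
  -- rewrite the form
  have e1 : ∫ x, ρ x * ⟪G x, if u x < 0 then -G x else 0⟫_ℝ =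
      - ∫ x, ρ x * ‖(if u x < 0 then -G x else 0 : E n)‖ ^ 2 := by
    rw [← integral_neg]
    congr 1
    funext x
    split_ifs with hx
    · rw [inner_neg_right, real_inner_self_eq_norm_sq, norm_neg]
      ring
    · simp
  have e2 : ∫ x, S x * u x * max (-u x) 0 = - ∫ x, S x * max (-u x) 0 ^ 2 := by
    rw [← integral_neg]
    congr 1
    funext x
    rcases le_total (-u x) 0 with hx | hx
    · rw [max_eq_right hx]; ring
    · rw [max_eq_left hx]; ring
  have e3 : ∫ x, ρ x * u x * max (-u x) 0 = - ∫ x, ρ x * max (-u x) 0 ^ 2 := by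
    rw [← integral_neg]
    congr 1
    funext x
    rcases le_total (-u x) 0 with hx | hx
    · rw [max_eq_right hx]; ring
    · rw [max_eq_left hx]; ring
  rw [e1, e2, e3] at hpos
  set I1 := ∫ x, ρ x * ‖(if u x < 0 then -G x else 0 : E n)‖ ^ 2 with hI1
  set I2 := ∫ x, S x * max (-u x) 0 ^ 2 with hI2
  set I3 := ∫ x, ρ x * max (-u x) 0 ^ 2 with hI3
  have p1 : 0 ≤ I1 := integral_nonneg fun x => mul_nonneg (h.pos x).le (sq_nonneg _)
  have p2 : 0 ≤ I2 := integral_nonneg fun x => mul_nonneg (h.S0 x) (sq_nonneg _)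
  have p3 : 0 ≤ I3 := integral_nonneg fun x => mul_nonneg (h.pos x).le (sq_nonneg _)
  have p4 : I3 = 0 := by
    by_contra hne
    have hI3pos : 0 < I3 := lt_of_le_of_ne p3 (Ne.symm hne)
    have q1 : 0 < I1 + κ * I3 := by positivity
    have q2 : I1 + κ * I3 ≤ A' * I2 := by linarith
    have q3 : 0 < I2 := by
      by_contra hcon
      push Not at hcon
      have : I2 = 0 := le_antisymm hcon p2
      rw [this] at q2
      linarith
    have q4 : A' * I2 < A * I2 := mul_lt_mul_of_pos_right hA q3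
    linarith
  have i3 : Integrable (fun x => ρ x * max (-u x) 0 ^ 2) := by
    refine i1.mono' ?_ (Eventually.of_forall fun x => ?_)
    · exact (hρ.measurable.mul ((hu.1.neg.max measurable_const).pow_const 2)).aestronglyMeasurable
    · rw [Real.norm_eq_abs, abs_of_nonneg (mul_nonneg (h.pos x).le (sq_nonneg _))]
      exact mul_le_mul_of_nonneg_right (by linarith [h.S0 x]) (sq_nonneg _)
  rw [hI3, integral_eq_zero_iff_of_nonneg (fun x => mul_nonneg (h.pos x).le (sq_nonneg _)) i3] at p4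
  filter_upwards [p4] with x hx
  have hx' : ρ x * max (-u x) 0 ^ 2 = 0 := hx
  have h1 : max (-u x) 0 ^ 2 = 0 := by
    rcases mul_eq_zero.1 hx' with h2 | h2
    · exact absurd h2 (h.pos x).ne'
    · exact h2
  have h2 : max (-u x) 0 = 0 := pow_eq_zero_iff two_ne_zero |>.1 h1
  have h3 := le_max_left (-u x) 0
  rw [h2] at h3
  linarith

end

end Pool.Agent.Helper876.Rob
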