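import Pool.Agent.Helper876_Robin.LWeak

/-!
# The weak supersolution: existence
-/

set_option autoImplicit false

open MeasureTheory Set Metric Filter Topology
open scoped ENNReal NNReal InnerProductSpace

namespace Pool.Agent.Helper876.Rob

variable {n : ℕ} {ρ S : E n → ℝ}

theorem max_neg_eq {a : ℝ} (h : 0 ≤ a) : max (-a) 0 = 0 := max_eq_right (by linarith)

/-- the solution is at least one -/
theorem sol_ge_one (h : IsWgt ρ S) {A A' κ : ℝ} (hA' : 0 < A') (hA : A' < A) (hκ : 0 < κ)
    (hc : Coer ρ S A κ) {u : E n → ℝ} {G : E n → E n} (hu : InH ρ S u G)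
    (hel : ∀ φ : E n → ℝ, Tst φ →
      (∫ x, ρ x * ⟪G x, gradient φ x⟫_ℝ) - A' * (∫ x, S x * u x * φ x) +
        κ * (∫ x, ρ x * u x * φ x) = κ * ∫ x, ρ x * φ x) : ∀ᵐ x, 1 ≤ u x := by
  have hρ := h.contDiff.continuous
  have h1 : InH ρ S (fun x => u x + (-1)) G := by
    have := LCalc.add hρ h.pos h.cont h.S0 hu (LCalc.tst hρ h.cont (Tst.const (-1)))
    have e : (fun x => G x + gradient (fun _ : E n => (-1:ℝ)) x) = G := by
      funext x
      have : gradient (fun _ : E n => (-1:ℝ)) x = 0 := by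
        unfold gradient
        simp
      rw [this, add_zero]
    rwa [e] at this
  have hneg := LCalc.neg_part hρ h.pos h.cont h.S0 h.int h1
  have hE := LForm.el hρ h.pos h.cont h.S0 h.int hu hel hneg
  obtain ⟨-, i2, i3, i4, i5⟩ := LForm.int2 hρ h.pos h.cont h.S0 h.int h1 hneg
  obtain ⟨-, j2, j3, -, -⟩ := LForm.int2 hρ h.pos h.cont h.S0 h.int hu hneg
  obtain ⟨-, -, -, k4, k5⟩ := LForm.int2 hρ h.pos h.cont h.S0 h.int hneg hneg
  have h2 := weak_min h hA' hA hκ hc h1 (by
    have e2 : ∫ x, S x * (u x + (-1)) * max (-(u x + (-1))) 0 =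
        (∫ x, S x * u x * max (-(u x + (-1))) 0) - ∫ x, S x * max (-(u x + (-1))) 0 := by
      rw [← integral_sub j2 k5]
      congr 1
      funext x
      ring
    have e3 : ∫ x, ρ x * (u x + (-1)) * max (-(u x + (-1))) 0 =
        (∫ x, ρ x * u x * max (-(u x + (-1))) 0) - ∫ x, ρ x * max (-(u x + (-1))) 0 := by
      rw [← integral_sub j3 k4]
      congr 1
      funext x
      ring
    rw [e2, e3]
    have p : 0 ≤ ∫ x, S x * max (-(u x + (-1))) 0 :=
      integral_nonneg fun x => mul_nonneg (h.S0 x) (le_max_right _ _)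
    have := mul_nonneg hA'.le p
    linarith)
  filter_upwards [h2] with x hx
  linarith

theorem bar_pos_norm {b L : ℝ} (hb : 0 ≤ b) {x : E n} (hx : 0 < bar b L x) : L < 1 + ‖x‖ := by
  unfold bar at hx
  have h1 : 0 < Real.sqrt (1 + ‖x‖ ^ 2) - L := by
    by_contra hcon
    push Not at hcon
    have := mul_nonpos_of_nonneg_of_nonpos hb hcon
    linarith
  have h2 : Real.sqrt (1 + ‖x‖ ^ 2) ≤ 1 + ‖x‖ := by
    apply Real.sqrt_le_iff.2
    constructor
    · positivity
    · nlinarith [norm_nonneg x]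
  linarith

/-- the solution is above the barrier -/
theorem sol_ge_bar (hn : 1 ≤ n) (h : IsWgt ρ S) {A A' κ b : ℝ} (hA' : 0 < A') (hA : A' < A)
    (hκ : 0 < κ) (hb0 : 0 ≤ b) (hb : b < A') (hc : Coer ρ S A κ) {u : E n → ℝ} {G : E n → E n}
    (hu : InH ρ S u G)
    (hel : ∀ φ : E n → ℝ, Tst φ →
      (∫ x, ρ x * ⟪G x, gradient φ x⟫_ℝ) - A' * (∫ x, S x * u x * φ x) +
        κ * (∫ x, ρ x * u x * φ x) = κ * ∫ x, ρ x * φ x) :
    ∃ L : ℝ, ∀ᵐ x, Real.exp (bar b L x) ≤ u x := by
  have hρ := h.contDiff.continuous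
  obtain ⟨L1, hL1⟩ := h.far (κ / (A' - b))
  set L : ℝ := 1 + |L1| with hL
  refine ⟨L, ?_⟩
  set z : E n → ℝ := fun x => Real.exp (bar b L x) with hz
  have hbc := bar_contDiff (n := n) b L
  have hbl := bar_fderiv_le (n := n) hb0 L
  have hzm : InH ρ S z (gradient z) := LZ.z_mem h hbc hbl
  have h1 : InH ρ S (fun x => u x + (-1) * z x) (fun x => G x + (-1 : ℝ) • gradient z x) :=
    LCalc.add hρ h.pos h.cont h.S0 hu (LCalc.smul hρ h.pos h.cont h.S0 hzm (-1))
  have hneg := LCalc.neg_part hρ h.pos h.cont h.S0 h.int h1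
  set ψ : E n → ℝ := fun x => max (-(u x + (-1) * z x)) 0 with hψ
  set Ψ : E n → E n := fun x => if u x + (-1) * z x < 0 then -(G x + (-1 : ℝ) • gradient z x) else 0
    with hΨ
  have hE := LForm.el hρ h.pos h.cont h.S0 h.int hu hel hneg
  obtain ⟨a1, a2, a3, -, -⟩ := LForm.int2 hρ h.pos h.cont h.S0 h.int hu hneg
  obtain ⟨b1, b2, b3, -, -⟩ := LForm.int2 hρ h.pos h.cont h.S0 h.int hzm hneg
  obtain ⟨-, -, -, c4, -⟩ := LForm.int2 hρ h.pos h.cont h.S0 h.int hneg hneg
  obtain ⟨d1, d2⟩ := LZ.z_ibp h hbc hbl (C := b * n) (fun x => by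
    obtain ⟨g1, g2⟩ := bar_dvg_bd hn hb0 L x
    rw [abs_of_nonneg g1]
    exact g2) hneg
  have hone := sol_ge_one h hA' hA hκ hc hu hel
  -- the barrier is a subsolution where `ψ > 0`
  have key : ∫ x, ρ x * ⟪gradient z x, Ψ x⟫_ℝ - A' * (S x * z x * ψ x) + κ * (ρ x * z x * ψ x) ≤ 0 := by
    have e1 : ∫ x, ρ x * ⟪gradient z x, Ψ x⟫_ℝ - A' * (S x * z x * ψ x) + κ * (ρ x * z x * ψ x) =
        ∫ x, - ((ρ x * dvg (gradient z) x + fderiv ℝ ρ x (gradient z x)) * ψ x) -
          A' * (S x * z x * ψ x) + κ * (ρ x * z x * ψ x) := by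
      have f1 : ∫ x, ρ x * ⟪gradient z x, Ψ x⟫_ℝ - A' * (S x * z x * ψ x) + κ * (ρ x * z x * ψ x) =
          (∫ x, ρ x * ⟪gradient z x, Ψ x⟫_ℝ) - A' * (∫ x, S x * z x * ψ x) +
            κ * ∫ x, ρ x * z x * ψ x := by
        have g1 : Integrable fun x => ρ x * ⟪gradient z x, Ψ x⟫_ℝ - A' * (S x * z x * ψ x) :=
          b1.sub (b2.const_mul A')
        rw [integral_add g1 (b3.const_mul κ), integral_sub b1 (b2.const_mul A'),
          integral_const_mul, integral_const_mul]
      have f2 : ∫ x, - ((ρ x * dvg (gradient z) x + fderiv ℝ ρ x (gradient z x)) * ψ x) -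
          A' * (S x * z x * ψ x) + κ * (ρ x * z x * ψ x) =
          (- ∫ x, (ρ x * dvg (gradient z) x + fderiv ℝ ρ x (gradient z x)) * ψ x) -
            A' * (∫ x, S x * z x * ψ x) + κ * ∫ x, ρ x * z x * ψ x := by
        have d1' : Integrable fun x => - ((ρ x * dvg (gradient z) x +
            fderiv ℝ ρ x (gradient z x)) * ψ x) := d1.neg
        have g1 : Integrable fun x => - ((ρ x * dvg (gradient z) x +
            fderiv ℝ ρ x (gradient z x)) * ψ x) - A' * (S x * z x * ψ x) :=
          d1'.sub (b2.const_mul A')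
        rw [integral_add g1 (b3.const_mul κ), integral_sub d1' (b2.const_mul A'),
          integral_const_mul, integral_const_mul, integral_neg]
      rw [f1, f2, d2]
    rw [e1]
    apply integral_nonpos_of_ae
    filter_upwards [hone] with x hx1
    show - ((ρ x * dvg (gradient z) x + fderiv ℝ ρ x (gradient z x)) * ψ x) -
          A' * (S x * z x * ψ x) + κ * (ρ x * z x * ψ x) ≤ 0
    by_cases hψ0 : ψ x = 0
    · rw [hψ0]
      simp
    · have hψpos : 0 < ψ x := lt_of_le_of_ne (le_max_right _ _) (Ne.symm hψ0)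
      have hlt : u x < z x := by
        by_contra hcon
        push Not at hcon
        apply hψ0
        rw [hψ]
        exact max_eq_right (by linarith)
      have hbar : 0 < bar b L x := by
        by_contra hcon
        push Not at hcon
        have : z x ≤ 1 := Real.exp_le_one_iff.2 hcon
        linarith
      have hnorm := bar_pos_norm hb0 hbar
      have hx : L1 ≤ ‖x‖ := by
        have := le_abs_self L1
        rw [hL] at hnorm
        linarith
      have hfar := hL1 x hx
      have hz0 : 0 < z x := Real.exp_pos _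
      -- the derivatives of `z`
      have hgz : ∀ y, gradient z y = z y • gradient (bar b L) y := fun y => LZ.LZ_exp_grad hbc y
      have hdz : 0 ≤ dvg (gradient z) x := by
        have h6 : dvg (gradient z) x = z x * (dvg (gradient (bar b L)) x +
            ‖fderiv ℝ (bar b L) x‖ ^ 2) := LZ.LZ_exp_dvg hbc x
        rw [h6]
        obtain ⟨g1, -⟩ := bar_dvg_bd (n := n) hn hb0 L x
        positivity
      have hfz : - fderiv ℝ ρ x (gradient z x) ≤ S x * (b * z x) := by
        have h8 : ‖gradient z x‖ ≤ b * z x := by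
          rw [hgz x, norm_smul, Real.norm_of_nonneg hz0.le, mul_comm]
          apply mul_le_mul_of_nonneg_right _ hz0.le
          have := hbl x
          rwa [← show ‖gradient (bar b L) x‖ = ‖fderiv ℝ (bar b L) x‖ from by
            unfold gradient
            exact LinearIsometryEquiv.norm_map _ _] at this
        have h9 := (fderiv ℝ ρ x).le_opNorm (gradient z x)
        rw [Real.norm_eq_abs] at h9
        have h10 := neg_abs_le (fderiv ℝ ρ x (gradient z x))
        have h11 : ‖fderiv ℝ ρ x‖ * ‖gradient z x‖ ≤ S x * (b * z x) :=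
          mul_le_mul (h.grad_le x) h8 (norm_nonneg _) (h.S0 x)
        linarith
      have h12 : κ * ρ x ≤ (A' - b) * S x := by
        have hAb : 0 < A' - b := by linarith
        have := mul_le_mul_of_nonneg_left hfar hAb.le
        have h13 : (A' - b) * (κ / (A' - b) * ρ x) = κ * ρ x := by field_simp
        rwa [h13] at this
      have h13 : 0 ≤ ρ x * dvg (gradient z) x := mul_nonneg (h.pos x).le hdz
      have h14 : - (ρ x * dvg (gradient z) x + fderiv ℝ ρ x (gradient z x)) - A' * (S x * z x) +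
          κ * (ρ x * z x) ≤ 0 := by
        have h15 := mul_le_mul_of_nonneg_right h12 hz0.le
        nlinarith
      have h16 := mul_nonpos_of_nonpos_of_nonneg h14 hψpos.le
      have h17 : - ((ρ x * dvg (gradient z) x + fderiv ℝ ρ x (gradient z x)) * ψ x) -
          A' * (S x * z x * ψ x) + κ * (ρ x * z x * ψ x) =
          (- (ρ x * dvg (gradient z) x + fderiv ℝ ρ x (gradient z x)) - A' * (S x * z x) +
          κ * (ρ x * z x)) * ψ x := by ring
      rw [h17]
      exact h16
  have h2 := weak_min h hA' hA hκ hc h1 (by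
    have f1 : ∫ x, ρ x * ⟪gradient z x, Ψ x⟫_ℝ - A' * (S x * z x * ψ x) + κ * (ρ x * z x * ψ x) =
        (∫ x, ρ x * ⟪gradient z x, Ψ x⟫_ℝ) - A' * (∫ x, S x * z x * ψ x) +
          κ * ∫ x, ρ x * z x * ψ x := by
      have g1 : Integrable fun x => ρ x * ⟪gradient z x, Ψ x⟫_ℝ - A' * (S x * z x * ψ x) :=
        b1.sub (b2.const_mul A')
      rw [integral_add g1 (b3.const_mul κ), integral_sub b1 (b2.const_mul A'),
        integral_const_mul, integral_const_mul]
    rw [f1] at key
    have e1 : ∫ x, ρ x * ⟪G x + (-1 : ℝ) • gradient z x, Ψ x⟫_ℝ =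
        (∫ x, ρ x * ⟪G x, Ψ x⟫_ℝ) - ∫ x, ρ x * ⟪gradient z x, Ψ x⟫_ℝ := by
      rw [← integral_sub a1 b1]
      congr 1
      funext x
      rw [inner_add_left, real_inner_smul_left]
      ring
    have e2 : ∫ x, S x * (u x + (-1) * z x) * ψ x =
        (∫ x, S x * u x * ψ x) - ∫ x, S x * z x * ψ x := by
      rw [← integral_sub a2 b2]
      congr 1
      funext x
      ring
    have e3 : ∫ x, ρ x * (u x + (-1) * z x) * ψ x =
        (∫ x, ρ x * u x * ψ x) - ∫ x, ρ x * z x * ψ x := by
      rw [← integral_sub a3 b3]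
      congr 1
      funext x
      ring
    have e4 : 0 ≤ κ * ∫ x, ρ x * ψ x :=
      mul_nonneg hκ.le (integral_nonneg fun x => mul_nonneg (h.pos x).le (le_max_right _ _))
    show 0 ≤ (∫ x, ρ x * ⟪G x + (-1 : ℝ) • gradient z x, Ψ x⟫_ℝ) -
      A' * (∫ x, S x * (u x + (-1) * z x) * ψ x) + κ * ∫ x, ρ x * (u x + (-1) * z x) * ψ x
    rw [e1, e2, e3]
    linarith)
  filter_upwards [h2] with x hx
  show z x ≤ u x
  linarith

end Pool.Agent.Helper876.Rob
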