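import Pool.Agent.Helper876_Robin.LWeak2

/-!
# The weak supersolution: the logarithm
-/

set_option autoImplicit false

open MeasureTheory Set Metric Filter Topology
open scoped ENNReal NNReal InnerProductSpace

namespace Pool.Agent.Helper876.Rob

variable {n : ℕ} {ρ S : E n → ℝ}

theorem gradient_const (c : ℝ) (x : E n) : gradient (fun _ : E n => c) x = 0 := by
  unfold gradient
  simp

theorem inner_gradient' (w : E n → ℝ) (x v : E n) : ⟪gradient w x, v⟫_ℝ = fderiv ℝ w x v := by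
  unfold gradient
  exact InnerProductSpace.toDual_symm_apply

theorem Tst.of_compact {φ : E n → ℝ} (hφ : ContDiff ℝ 1 φ) (hc : HasCompactSupport φ) : Tst φ := by
  refine ⟨hφ, ?_⟩
  obtain ⟨C1, hC1⟩ := hφ.continuous.bounded_above_of_compact_support hc
  obtain ⟨C2, hC2⟩ := (hφ.continuous_fderiv one_ne_zero).bounded_above_of_compact_support (hc.fderiv (𝕜 := ℝ))
  exact ⟨max C1 C2, fun x => ⟨(hC1 x).trans (le_max_left _ _), (hC2 x).trans (le_max_right _ _)⟩⟩

set_option maxHeartbeats 1000000 in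
/-- the tested inequality -/
theorem log_ineq (h : IsWgt ρ S) {A' κ : ℝ} (hκ : 0 < κ) {u : E n → ℝ} {G : E n → E n}
    (hu : InH ρ S u G)
    (hel : ∀ φ : E n → ℝ, Tst φ →
      (∫ x, ρ x * ⟪G x, gradient φ x⟫_ℝ) - A' * (∫ x, S x * u x * φ x) +
        κ * (∫ x, ρ x * u x * φ x) = κ * ∫ x, ρ x * φ x) (hone : ∀ᵐ x, 1 ≤ u x)
    {φ : E n → ℝ} (hφ : Tst φ) (hφ0 : ∀ x, 0 ≤ φ x) :
    (∫ x, ρ x * ‖deriv xlog (u x) • G x‖ ^ 2 * φ x) + A' * (∫ x, S x * φ x) ≤
      (∫ x, ρ x * fderiv ℝ φ x (deriv xlog (u x) • G x)) + κ * ∫ x, ρ x * φ x := by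
  have hρ := h.contDiff.continuous
  have hw : InH ρ S (fun x => xlog (u x)) (fun x => deriv xlog (u x) • G x) :=
    LCalc.comp hρ h.pos h.cont h.S0 h.int hu xlog_contDiff xlog_bd
  have hi : InH ρ S (fun x => xinv (u x)) (fun x => deriv xinv (u x) • G x) :=
    LCalc.comp hρ h.pos h.cont h.S0 h.int hu xinv_contDiff xinv_bd
  have hm := LCalc.mul hρ h.pos h.cont h.S0 h.int hi hφ
  have hE := LForm.el hρ h.pos h.cont h.S0 h.int hu hel hm
  have hφm := LCalc.tst hρ h.cont hφ (ρ := ρ) (S := S)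
  obtain ⟨obtained1, -, -, -, -⟩ := LForm.int2 hρ h.pos h.cont h.S0 h.int hw hφm
  obtain ⟨-, w2⟩ := LCalc.int1 hρ h.pos h.cont h.S0 h.int hw
  obtain ⟨-, -, -, k4, k5⟩ := LForm.int2 hρ h.pos h.cont h.S0 h.int hφm hφm
  obtain ⟨C, hC⟩ := hφ.2
  have i1 : Integrable (fun x => ρ x * ‖deriv xlog (u x) • G x‖ ^ 2 * φ x) :=
    w2.mul_bdd (c := C) hφ.1.continuous.aestronglyMeasurable
      (Eventually.of_forall fun x => (hC x).1)
  have i2 : Integrable (fun x => ρ x * fderiv ℝ φ x (deriv xlog (u x) • G x)) := by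
    refine obtained1.congr (Eventually.of_forall fun x => ?_)
    simp only
    rw [real_inner_comm, inner_gradient']
  have e1 : ∫ x, ρ x * ⟪G x, φ x • deriv xinv (u x) • G x + xinv (u x) • gradient φ x⟫_ℝ =
      (∫ x, ρ x * fderiv ℝ φ x (deriv xlog (u x) • G x)) -
        ∫ x, ρ x * ‖deriv xlog (u x) • G x‖ ^ 2 * φ x := by
    rw [← integral_sub i2 i1]
    apply integral_congr_ae
    filter_upwards [hone] with x hx
    have g1 : deriv xlog (u x) = (u x)⁻¹ := by rw [(xlog_deriv _).deriv, if_pos hx]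
    have g2 : deriv xinv (u x) = -((u x) ^ 2)⁻¹ := by rw [(xinv_deriv _).deriv, if_pos hx]
    have g3 : xinv (u x) = (u x)⁻¹ := by
      unfold xinv
      rw [if_pos hx]
    have hu0 : u x ≠ 0 := by linarith
    rw [g1, g2, g3, inner_add_right, real_inner_smul_right, real_inner_smul_right,
      real_inner_smul_right, real_inner_self_eq_norm_sq, real_inner_comm, inner_gradient',
      norm_smul, mul_pow, map_smul, smul_eq_mul, norm_inv, Real.norm_eq_abs, inv_pow, sq_abs]
    ring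
  have e2 : ∫ x, S x * u x * (φ x * xinv (u x)) = ∫ x, S x * φ x := by
    apply integral_congr_ae
    filter_upwards [hone] with x hx
    have g3 : xinv (u x) = (u x)⁻¹ := by
      unfold xinv
      rw [if_pos hx]
    have hu0 : u x ≠ 0 := by linarith
    rw [g3]
    field_simp
  have e3 : ∫ x, ρ x * u x * (φ x * xinv (u x)) = ∫ x, ρ x * φ x := by
    apply integral_congr_ae
    filter_upwards [hone] with x hx
    have g3 : xinv (u x) = (u x)⁻¹ := by
      unfold xinv
      rw [if_pos hx]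
    have hu0 : u x ≠ 0 := by linarith
    rw [g3]
    field_simp
  rw [e1, e2, e3] at hE
  have e4 : 0 ≤ κ * ∫ x, ρ x * (φ x * xinv (u x)) := by
    apply mul_nonneg hκ.le
    apply integral_nonneg_of_ae
    filter_upwards [hone] with x hx
    have g3 : xinv (u x) = (u x)⁻¹ := by
      unfold xinv
      rw [if_pos hx]
    have hu0 : 0 < u x := by linarith
    show 0 ≤ ρ x * (φ x * xinv (u x))
    rw [g3]
    exact mul_nonneg (h.pos x).le (mul_nonneg (hφ0 x) (inv_nonneg.2 hu0.le))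
  linarith

/-- **Existence of the weak supersolution.** -/
theorem weak_exists (hn : 1 ≤ n) (h : IsWgt ρ S) {A A' κ b : ℝ} (hA' : 0 < A') (hA : A' < A)
    (hκ : 0 < κ) (hb0 : 0 ≤ b) (hb : b < A') (hc : Coer ρ S A κ) :
    ∃ (w : E n → ℝ) (W : E n → E n) (L : ℝ), IsWeak ρ S κ A' w W ∧
      ∀ᵐ x, b * (‖x‖ - L) ≤ w x := by
  have hρ := h.contDiff.continuous
  obtain ⟨u, G, hu, hel⟩ := LExist.exists_sol ρ S hρ h.pos h.cont h.S0 h.int hA' hA hκ hc
  have hone := sol_ge_one h hA' hA hκ hc hu hel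
  obtain ⟨L, hL⟩ := sol_ge_bar hn h hA' hA hκ hb0 hb hc hu hel
  have hw : InH ρ S (fun x => xlog (u x)) (fun x => deriv xlog (u x) • G x) :=
    LCalc.comp hρ h.pos h.cont h.S0 h.int hu xlog_contDiff xlog_bd
  refine ⟨fun x => xlog (u x), fun x => deriv xlog (u x) • G x, L, ⟨?_, ?_, ?_, ?_, ?_, ?_⟩, ?_⟩
  · exact (LForm.loc hρ h.pos h.cont h.S0 hw).1
  · exact (LForm.loc hρ h.pos h.cont h.S0 hw).2
  · exact (LCalc.int1 hρ h.pos h.cont h.S0 h.int hw).2
  · intro φ hφ hφc v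
    exact LForm.weak hρ h.pos h.cont h.S0 hw hφ hφc v
  · intro φ hφ hφc hφ0
    exact log_ineq h hκ hu hel hone (Tst.of_compact hφ hφc) hφ0
  · have h1 := log_ineq h hκ hu hel hone (Tst.const 1) (fun _ => zero_le_one)
    have e : ∀ x : E n, fderiv ℝ (fun _ : E n => (1:ℝ)) x = 0 := fun x => by simp
    simp only [mul_one] at h1
    have e2 : ∫ x, ρ x * fderiv ℝ (fun _ : E n => (1:ℝ)) x (deriv xlog (u x) • G x) = 0 := by
      simp
    rw [e2] at h1
    linarith
  · filter_upwards [hL, hone] with x hx h1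
    have g : xlog (u x) = Real.log (u x) := by
      unfold xlog
      rw [if_pos h1]
    rw [g, Real.le_log_iff_exp_le (by linarith)]
    refine le_trans (Real.exp_le_exp.2 ?_) hx
    unfold bar
    apply mul_le_mul_of_nonneg_left _ hb0
    have : ‖x‖ ≤ Real.sqrt (1 + ‖x‖ ^ 2) := by
      apply Real.le_sqrt_of_sq_le
      linarith
    linarith

end Pool.Agent.Helper876.Rob
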