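import Pool.Agent.Helper876_Robin.Defs
import Pool.Agent.Helper876_Robin.Cert
import Pool.Agent.Helper876_Robin.JContact
import Pool.Agent.Helper876_Robin.JDet
import Pool.Agent.Helper876_Robin.JArea
import Pool.Agent.Helper876_Robin.JGG

/-!
# The mass of a radial density
-/

set_option autoImplicit false

open MeasureTheory Set Metric Filter Topology
open scoped ENNReal NNReal InnerProductSpace

namespace Pool.Agent.Helper876.Rob

theorem contDiff_gradient {n : ℕ} {w : E n → ℝ} {k : ℕ} (hw : ContDiff ℝ (k + 1) w) :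
    ContDiff ℝ k (gradient w) := by
  have h1 : ContDiff ℝ k (fderiv ℝ w) := hw.fderiv_right le_rfl
  exact (InnerProductSpace.toDual ℝ (E n)).symm.contDiff.comp h1

theorem continuous_dvg {n : ℕ} {V : E n → E n} (hV : ContDiff ℝ 1 V) : Continuous (dvg V) := by
  unfold dvg
  refine continuous_finsetSum _ fun i _ => ?_
  have h1 : Continuous fun x => fderiv ℝ V x (EuclideanSpace.single i 1) :=
    (hV.continuous_fderiv one_ne_zero).clm_apply continuous_const
  exact (EuclideanSpace.proj (𝕜 := ℝ) i).continuous.comp h1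

/-- the mass of the calibration -/
theorem ball_mass {n : ℕ} {A : ℝ} {j : ℝ → ℝ} (hj0 : ∀ s, 0 ≤ j s)
    (hjz : ∀ s, s ∉ Ioo 0 A → j s = 0)
    (hji : IntegrableOn (fun s => s ^ (n - 1) * j s) (Ioi 0)) (hn : 2 ≤ n) :
    ∫⁻ y in ball (0 : E n) A, ENNReal.ofReal (j ‖y‖) =
      ENNReal.ofReal (volume.real (ball (0 : E n) 1) * (n * ∫ s in Ioi 0, s ^ (n - 1) * j s)) := by
  have : Nontrivial (E n) := by
    have : Nonempty (Fin n) := ⟨⟨0, by omega⟩⟩
    infer_instance
  have hdim : Module.finrank ℝ (E n) = n := by simp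
  have h1 : ∫⁻ y in ball (0 : E n) A, ENNReal.ofReal (j ‖y‖) = ∫⁻ y : E n, ENNReal.ofReal (j ‖y‖) := by
    rw [← lintegral_indicator measurableSet_ball]
    congr 1
    ext y
    by_cases hy : y ∈ ball (0 : E n) A
    · rw [indicator_of_mem hy]
    · rw [indicator_of_notMem hy, hjz, ENNReal.ofReal_zero]
      intro h
      exact hy (by simpa using h.2)
  have hint : Integrable (fun y : E n => j ‖y‖) := by
    rw [integrable_fun_norm_addHaar (μ := (volume : Measure (E n)))]
    rw [hdim]
    simpa [smul_eq_mul] using hji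
  rw [h1, ← ofReal_integral_eq_lintegral_ofReal hint (Eventually.of_forall fun y => hj0 _),
    integral_fun_norm_addHaar (μ := (volume : Measure (E n)))]
  congr 1
  rw [hdim]
  simp only [smul_eq_mul, nsmul_eq_mul]
  ring


end Pool.Agent.Helper876.Rob
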