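import Pool.Agent.Helper876_Robin.Main
import Pool.Agent.Helper876_Robin.Cert2
import Pool.Agent.Helper876_Robin.JVec

/-!
# The calibrated contact set estimate
-/

set_option autoImplicit false

open MeasureTheory Set Metric Filter Topology
open scoped ENNReal NNReal InnerProductSpace

namespace Pool.Agent.Helper876.Rob

/-- derivative of the norm of a map -/
theorem hasFDerivAt_norm_comp {n : ℕ} {q : E n → E n} {x : E n} (hqx : DifferentiableAt ℝ q x)
    (hq0 : q x ≠ 0) : HasFDerivAt (fun y => ‖q y‖)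
      (‖q x‖⁻¹ • (innerSL ℝ (q x)).comp (fderiv ℝ q x)) x := by
  have h3 : HasFDerivAt (fun y : E n => ‖y‖) (‖q x‖⁻¹ • innerSL ℝ (q x)) (q x) := by
    have h4 := ((hasStrictFDerivAt_norm_sq (q x)).hasFDerivAt).sqrt (by
      have : 0 < ‖q x‖ ^ 2 := by positivity
      exact this.ne')
    have h5 : (fun y : E n => Real.sqrt (‖y‖ ^ 2)) = fun y => ‖y‖ := by
      ext y
      exact Real.sqrt_sq (norm_nonneg _)
    rw [h5] at h4
    refine h4.congr_fderiv ?_
    rw [Real.sqrt_sq (norm_nonneg _)]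
    ext v
    have : ‖q x‖ ≠ 0 := norm_ne_zero_iff.2 hq0
    simp
    field_simp
  exact h3.comp x hqx.hasFDerivAt

/-- divergence of a radial function of a gradient map -/
theorem dvg_radial {n : ℕ} {q : E n → E n} {x : E n} (hqx : DifferentiableAt ℝ q x)
    (hq0 : q x ≠ 0) {Y : ℝ → ℝ} {c : ℝ} (hY : HasDerivAt Y c ‖q x‖) {e : E n}
    (he : q x = ‖q x‖ • e) :
    dvg (fun y => Y ‖q y‖ • q y) x = Y ‖q x‖ *
      (∑ i : Fin n, ((fderiv ℝ q x) (EuclideanSpace.single i 1)) i) +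
      ‖q x‖ * c * ⟪fderiv ℝ q x e, e⟫_ℝ := by
  set s := ‖q x‖ with hs
  have hs0 : 0 < s := norm_pos_iff.2 hq0
  set H := fderiv ℝ q x with hH
  have h1 := hY.comp_hasFDerivAt x (hasFDerivAt_norm_comp hqx hq0)
  have h2 := HasFDerivAt.fun_smul h1 hqx.hasFDerivAt
  have h3 : fderiv ℝ (fun y => Y ‖q y‖ • q y) x = _ := h2.fderiv
  unfold dvg
  rw [h3]
  have h4 : ∀ i : Fin n, ((((Y ∘ fun y => ‖q y‖) x) • H +
      (c • (s⁻¹ • (innerSL ℝ (q x)).comp H)).smulRight (q x)) (EuclideanSpace.single i 1)) i =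
      Y s * (H (EuclideanSpace.single i 1)) i +
        c * s⁻¹ * ((q x) i * ⟪q x, H (EuclideanSpace.single i 1)⟫_ℝ) := by
    intro i
    simp [← hs]
    ring
  rw [Finset.sum_congr rfl fun i _ => h4 i, Finset.sum_add_distrib, ← Finset.mul_sum,
    ← Finset.mul_sum]
  congr 1
  have h5 : ∑ i : Fin n, (q x) i * ⟪q x, H (EuclideanSpace.single i 1)⟫_ℝ = ⟪q x, H (q x)⟫_ℝ := by
    have h6 : q x = ∑ i, (q x) i • EuclideanSpace.single i (1 : ℝ) := by
      ext k
      simp [Pi.single_apply]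
    have h7 : H (q x) = ∑ i, (q x) i • H (EuclideanSpace.single i (1 : ℝ)) := by
      conv_lhs => rw [h6]
      rw [map_sum]
      simp only [map_smul]
    rw [h7, inner_sum]
    refine Finset.sum_congr rfl fun i _ => ?_
    rw [real_inner_smul_right]
  rw [h5, he, map_smul, real_inner_smul_left, real_inner_smul_right, real_inner_comm]
  field_simp


/-- divergence at a point where the gradient map vanishes -/
theorem dvg_zero {n : ℕ} {q : E n → E n} {K : ℝ≥0} (hq : LipschitzWith K q) {x : E n}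
    (hq0 : q x = 0) {Y : ℝ → ℝ} {M A : ℝ} (hM : 0 ≤ M) (hqA : ∀ x, ‖q x‖ ≤ A) (hY0 : Y 0 = 0)
    (hY : ∀ s ∈ Icc 0 A, ∀ t ∈ Icc 0 A, |Y s - Y t| ≤ M * |s - t|) :
    dvg (fun y => Y ‖q y‖ • q y) x = 0 := by
  have hA : 0 ≤ A := (norm_nonneg _).trans (hqA x)
  have h1 : HasFDerivAt (fun y => Y ‖q y‖ • q y) (0 : E n →L[ℝ] E n) x := by
    rw [hasFDerivAt_iff_isLittleO_nhds_zero]
    have h2 : (fun h : E n => Y ‖q (x + h)‖ • q (x + h) - Y ‖q x‖ • q x - (0 : E n →L[ℝ] E n) h)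
        =O[𝓝 0] fun h => ‖h‖ ^ 2 := by
      refine Asymptotics.IsBigO.of_bound (M * K ^ 2) (Eventually.of_forall fun h => ?_)
      have h3 : ‖q (x + h)‖ ≤ K * ‖h‖ := by
        have := hq.norm_sub_le (x + h) x
        rw [hq0, sub_zero, add_sub_cancel_left] at this
        exact this
      have h4 := hY ‖q (x + h)‖ ⟨norm_nonneg _, hqA _⟩ 0 ⟨le_rfl, hA⟩
      rw [hY0, sub_zero, sub_zero, abs_of_nonneg (norm_nonneg (q (x + h)))] at h4
      rw [hq0, smul_zero, sub_zero]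
      simp only [zero_apply, sub_zero, norm_smul, Real.norm_eq_abs, norm_pow, norm_norm]
      calc |Y ‖q (x + h)‖| * ‖q (x + h)‖ ≤ (M * ‖q (x + h)‖) * ‖q (x + h)‖ :=
            mul_le_mul_of_nonneg_right h4 (norm_nonneg _)
        _ = M * ‖q (x + h)‖ ^ 2 := by ring
        _ ≤ M * (K * ‖h‖) ^ 2 := by
            apply mul_le_mul_of_nonneg_left _ hM
            exact pow_le_pow_left₀ (norm_nonneg _) h3 2
        _ = M * K ^ 2 * |‖h‖| ^ 2 := by rw [abs_norm]; ring
    refine h2.trans_isLittleO ?_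
    have h5 : (fun h : E n => ‖h‖ ^ 2) =o[𝓝 0] fun h => ‖h‖ ^ 1 :=
      Asymptotics.IsLittleO.comp_tendsto
        (Asymptotics.isLittleO_pow_pow (𝕜 := ℝ) (by norm_num : 1 < 2)) tendsto_norm_zero
    simp only [pow_one] at h5
    exact h5.of_norm_right
  unfold dvg
  rw [h1.fderiv]
  simp

set_option maxHeartbeats 4000000 in
/-- **The calibrated contact set estimate.** -/
theorem calib2 {n : ℕ} (hn : 2 ≤ n) {Ω : Set (E n)} {ν : E n → E n} (hΩ : IsRegularDomain Ω ν)
    {w : E n → ℝ} (hw : ContDiff ℝ 2 w) {κ A : ℝ} (hκ : 0 < κ)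
    (hpde : ∀ x ∈ Ω, dvg (gradient w) x + ‖gradient w x‖ ^ 2 = κ)
    (hbc : ∀ x ∈ frontier Ω, ⟪gradient w x, ν x⟫_ℝ = A) {p : ℝ → ℝ} (hp : Prof n κ p) {R : ℝ}
    (hR : 0 < R) (hRA : p R < A) (hT : TT n κ p R ≤ κ) :
    volume.real (ball (0 : E n) 1) *
        (n * (R ^ n / n - R ^ n / ((n : ℝ) - 1) * (1 - TT n κ p R / κ))) ≤
      volume.real Ω - ((A - p R) / κ + R / ((n : ℝ) - 1) * (1 - TT n κ p R / κ)) *
        (surf n (frontier Ω)).toReal := by
  have hn0 : (2:ℝ) ≤ n := by exact_mod_cast hn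
  have hA' : 0 < p R := hp.pos R hR
  obtain ⟨Y, Y', j, M, hM, hY0, hYb, hYR, hYl, hYd, hj0, hjm, hjz, hjp, hji, hjv⟩ :=
    cert2 hn hκ hp hR hT
  set V := gradient w with hV
  have hVc : ContDiff ℝ 1 V := contDiff_gradient (k := 1) (by exact_mod_cast hw)
  have hVd : Differentiable ℝ V := hVc.differentiable one_ne_zero
  -- the contact set
  obtain ⟨q, G, hql, hqA, hGΩ, hGm, hGq, hGV, hqs, hqt⟩ :=
    JC.contact n Ω univ hΩ.isOpen hΩ.isConnected.nonempty hΩ.isBounded isOpen_univ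
      (subset_univ _) w hw.contDiffOn ν hΩ.norm_normal hΩ.inward ⟨κ, hκ.le⟩ A (p R)
      (by exact_mod_cast hκ) hA' hRA (by
        intro x hx
        have h1 := hpde x hx
        have h2 : (∑ i : Fin n, (fderiv ℝ (fun y => gradient w y i) x)
            (EuclideanSpace.single i 1)) = dvg V x := by
          unfold dvg
          refine Finset.sum_congr rfl fun i _ => ?_
          exact JC.fderiv_coord (hVd x).hasFDerivAt i _
        rw [h2]
        exact h1.le) (fun x hx => (hbc x hx).ge)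
  have hqmem : ∀ x, ‖q x‖ ∈ Icc 0 (p R) := fun x => ⟨norm_nonneg _, hqA x⟩
  -- the vector field
  set Q : E n → E n := fun x => Y ‖q x‖ • q x with hQ
  have hYR0 : 0 ≤ Y (p R) := (hYb (p R) ⟨hA'.le, le_rfl⟩).1
  have hQl : LipschitzWith ⟨(M * p R + Y (p R)) * κ, by positivity⟩ Q := by
    apply LipschitzWith.of_dist_le_mul
    intro x y
    have h1 : ‖q x - q y‖ ≤ κ * dist x y := by
      have h3 := hql.dist_le_mul x y
      rw [dist_eq_norm] at h3
      exact h3
    have h2 : |‖q x‖ - ‖q y‖| ≤ ‖q x - q y‖ := abs_norm_sub_norm_le _ _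
    have h3 := hYl _ (hqmem x) _ (hqmem y)
    have h4 : Q x - Q y = (Y ‖q x‖ - Y ‖q y‖) • q x + Y ‖q y‖ • (q x - q y) := by
      rw [hQ]
      simp only
      module
    rw [dist_eq_norm, h4]
    have h5 : |Y ‖q y‖| ≤ Y (p R) := by
      rw [abs_of_nonneg (hYb _ (hqmem y)).1]
      exact (hYb _ (hqmem y)).2
    calc ‖(Y ‖q x‖ - Y ‖q y‖) • q x + Y ‖q y‖ • (q x - q y)‖
        ≤ |Y ‖q x‖ - Y ‖q y‖| * ‖q x‖ + |Y ‖q y‖| * ‖q x - q y‖ := by
          refine (norm_add_le _ _).trans ?_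
          rw [norm_smul, norm_smul, Real.norm_eq_abs, Real.norm_eq_abs]
      _ ≤ (M * ‖q x - q y‖) * p R + Y (p R) * ‖q x - q y‖ := by
          apply add_le_add
          · apply mul_le_mul _ (hqA x) (norm_nonneg _) (by positivity)
            exact h3.trans (mul_le_mul_of_nonneg_left h2 hM)
          · exact mul_le_mul_of_nonneg_right h5 (norm_nonneg _)
      _ = (M * p R + Y (p R)) * ‖q x - q y‖ := by ring
      _ ≤ (M * p R + Y (p R)) * (κ * dist x y) := mul_le_mul_of_nonneg_left h1 (by positivity)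
      _ = (M * p R + Y (p R)) * κ * dist x y := by ring
  have hQb : ∀ x, ‖Q x‖ ≤ Y (p R) * p R := by
    intro x
    rw [hQ]
    simp only
    rw [norm_smul, Real.norm_eq_abs, abs_of_nonneg (hYb _ (hqmem x)).1]
    exact mul_le_mul (hYb _ (hqmem x)).2 (hqA x) (norm_nonneg _) hYR0
  -- Gauss-Green
  have hgg := JV.gg_vec n Ω hΩ.isOpen hΩ.isBounded ν (surf n) hΩ.surf_finite hΩ.norm_normal
    hΩ.normal_meas hΩ.gauss_green Q _ hQl (Y (p R) * p R) hQb
  have hgV : ∫ x in Ω, dvg V x = A * (surf n (frontier Ω)).toReal := by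
    rw [hΩ.gauss_green V hVc]
    have h1 : ∫ x in frontier Ω, ⟪V x, ν x⟫_ℝ ∂(surf n) = ∫ _ in frontier Ω, A ∂(surf n) :=
      setIntegral_congr_fun isClosed_frontier.measurableSet fun x hx => hbc x hx
    rw [h1, setIntegral_const, smul_eq_mul, mul_comm]
    rfl
  set Φ : E n → ℝ := fun x => 1 - dvg V x / κ + dvg Q x with hΦ
  -- the divergence of the second field
  have hQ0 : ∀ x, DifferentiableAt ℝ q x → 0 ≤ dvg Q x := by
    intro x hqx
    by_cases h0 : q x = 0
    · rw [hQ, dvg_zero hql h0 hM hqA hY0 hYl]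
    · obtain ⟨hs, hpd⟩ := hqs x hqx
      have hs0 : 0 < ‖q x‖ := norm_pos_iff.2 h0
      obtain ⟨hd, hd0⟩ := hYd ‖q x‖ ⟨hs0, hqA x⟩
      set e : E n := ‖q x‖⁻¹ • q x with he
      have hen : ‖e‖ = 1 := by
        rw [he, norm_smul, norm_inv, Real.norm_of_nonneg hs0.le]
        exact inv_mul_cancel₀ hs0.ne'
      have hqe : q x = ‖q x‖ • e := by
        rw [he, smul_smul, mul_inv_cancel₀ hs0.ne', one_smul]
      rw [hQ, dvg_radial hqx h0 hd hqe]
      obtain ⟨hd1, ht0, hdet⟩ := JD.det_le n hn (fderiv ℝ q x) hs hpd e hen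
      have h1 := hpd e
      have h2 := (hYb _ (hqmem x)).1
      apply add_nonneg
      · apply mul_nonneg h2
        linarith
      · exact mul_nonneg (mul_nonneg hs0.le hd0) h1
  -- nonnegativity
  have hΦ0 : ∀ x ∈ Ω, DifferentiableAt ℝ q x → 0 ≤ Φ x := by
    intro x hx hqx
    have h1 : dvg V x = κ - ‖V x‖ ^ 2 := by linarith [hpde x hx]
    have h2 := hQ0 x hqx
    have h3 : 1 - dvg V x / κ = ‖V x‖ ^ 2 / κ := by
      rw [h1]
      field_simp
      ring
    have h4 : 0 ≤ ‖V x‖ ^ 2 / κ := by positivity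
    rw [hΦ]
    simp only
    linarith
  -- the contact set
  have hΦG : ∀ x ∈ G, DifferentiableAt ℝ q x → j ‖q x‖ * |(fderiv ℝ q x).det| ≤ Φ x := by
    intro x hx hqx
    by_cases hmem : ‖q x‖ ∈ Ioo 0 (p R)
    · obtain ⟨hs, hpd⟩ := hqs x hqx
      have htr := hqt x hx hqx
      have hVq : V x = q x := hGV x hx
      have hs0 : 0 < ‖q x‖ := hmem.1
      have h0 : q x ≠ 0 := norm_pos_iff.1 hs0
      obtain ⟨hd, hd0⟩ := hYd ‖q x‖ ⟨hs0, hqA x⟩
      set e : E n := ‖q x‖⁻¹ • q x with he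
      have hen : ‖e‖ = 1 := by
        rw [he, norm_smul, norm_inv, Real.norm_of_nonneg hs0.le]
        exact inv_mul_cancel₀ hs0.ne'
      have hqe : q x = ‖q x‖ • e := by
        rw [he, smul_smul, mul_inv_cancel₀ hs0.ne', one_smul]
      have hdiv := dvg_radial hqx h0 hd hqe
      obtain ⟨hd1, ht0, hdet⟩ := JD.det_le n hn (fderiv ℝ q x) hs hpd e hen
      set s := ‖q x‖ with hs'
      set H := fderiv ℝ q x with hH
      set h := ⟪H e, e⟫_ℝ with hh
      set t := (∑ i : Fin n, (H (EuclideanSpace.single i 1)) i) with ht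
      have hh0 : 0 ≤ h := hpd e
      have hnm : (0:ℝ) < (n : ℝ) - 1 := by linarith
      have hx0 : 0 ≤ (t - h) / ((n : ℝ) - 1) := div_nonneg ht0 hnm.le
      have hx1 : h + ((n : ℝ) - 1) * ((t - h) / ((n : ℝ) - 1)) = t := by
        rw [mul_div_cancel₀ _ hnm.ne']
        ring
      have htr' : t ≤ κ - s ^ 2 := htr
      have h1 := hjp s hmem h ((t - h) / ((n : ℝ) - 1)) hh0 hx0 (by rw [hx1]; exact htr')
      rw [hx1] at h1
      have h5 : dvg V x = κ - s ^ 2 := by
        have h6 := hpde x (hGΩ hx)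
        rw [hVq] at h6
        linarith
      rw [abs_of_nonneg hd1]
      have h6 : Φ x = 1 - (κ - s ^ 2) / κ + Y s * t + s * Y' s * h := by
        rw [hΦ]
        simp only
        rw [h5, hQ, hdiv]
        ring
      rw [h6]
      exact (mul_le_mul_of_nonneg_left hdet (hj0 s)).trans h1
    · rw [hjz _ hmem, zero_mul]
      exact hΦ0 x (hGΩ hx) hqx
  -- integrability
  have hvol : volume Ω < ⊤ := hΩ.isBounded.measure_lt_top
  have hcomp : IsCompact (closure Ω) := hΩ.isBounded.isCompact_closure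
  have hdvc := continuous_dvg hVc
  have hmeasQ : Measurable (dvg Q) := by
    unfold dvg
    refine Finset.measurable_sum _ fun i _ => ?_
    exact (EuclideanSpace.proj (𝕜 := ℝ) i).continuous.measurable.comp
      (measurable_fderiv_apply_const ℝ Q _)
  have hboundQ : ∀ x, |dvg Q x| ≤ ∑ _i : Fin n, ((M * p R + Y (p R)) * κ) := by
    intro x
    unfold dvg
    refine (Finset.abs_sum_le_sum_abs _ _).trans (Finset.sum_le_sum fun i _ => ?_)
    have h1 : ‖(fderiv ℝ Q x) (EuclideanSpace.single i (1:ℝ))‖ ≤ (M * p R + Y (p R)) * κ := by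
      have h2 := (fderiv ℝ Q x).le_opNorm (EuclideanSpace.single i (1:ℝ))
      have h3 : ‖fderiv ℝ Q x‖ ≤ (M * p R + Y (p R)) * κ := norm_fderiv_le_of_lipschitz ℝ hQl
      have h4 : ‖(EuclideanSpace.single i (1:ℝ) : E n)‖ = 1 := by simp
      rw [h4, mul_one] at h2
      exact h2.trans h3
    have h5 : |((fderiv ℝ Q x) (EuclideanSpace.single i (1:ℝ))) i| ≤
        ‖(fderiv ℝ Q x) (EuclideanSpace.single i (1:ℝ))‖ := by
      rw [← Real.norm_eq_abs]
      exact PiLp.norm_apply_le _ _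
    exact h5.trans h1
  have hint1 : IntegrableOn (dvg Q) Ω := by
    apply Measure.integrableOn_of_bounded hvol.ne hmeasQ.aestronglyMeasurable
      (M := ∑ _i : Fin n, ((M * p R + Y (p R)) * κ))
    exact Eventually.of_forall fun x => by rw [Real.norm_eq_abs]; exact hboundQ x
  have hint2 : IntegrableOn (dvg V) Ω :=
    (hdvc.continuousOn.integrableOn_compact hcomp).mono_set subset_closure
  have hint3 : IntegrableOn (fun _ : E n => (1:ℝ)) Ω := integrableOn_const hvol.ne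
  have hΦint : IntegrableOn Φ Ω := (hint3.sub (hint2.div_const κ)).add hint1
  have hΦval : ∫ x in Ω, Φ x = volume.real Ω - (A * (surf n (frontier Ω)).toReal) / κ +
      ∫ x in Ω, dvg Q x := by
    have h1 : ∫ x in Ω, Φ x = (∫ x in Ω, ((1:ℝ) - dvg V x / κ)) + ∫ x in Ω, dvg Q x :=
      integral_add (hint3.sub (hint2.div_const κ)) hint1
    have h2 : ∫ x in Ω, ((1:ℝ) - dvg V x / κ) = (∫ x in Ω, (1:ℝ)) - ∫ x in Ω, dvg V x / κ :=
      integral_sub hint3 (hint2.div_const κ)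
    rw [h1, h2, integral_div, hgV, setIntegral_const]
    simp
  -- the area formula
  have harea := JA.area n q _ hql G hGm (fun y => ENNReal.ofReal (j ‖y‖)) (by
    exact (hjm.comp measurable_norm).ennreal_ofReal)
  have hmass := ball_mass (n := n) hj0 hjz hji hn
  have h1 : ∫⁻ y in ball (0 : E n) (p R), ENNReal.ofReal (j ‖y‖) ≤
      ∫⁻ y in q '' G, ENNReal.ofReal (j ‖y‖) := lintegral_mono_set hGq
  have h2 : ∫⁻ x in G, ENNReal.ofReal (j ‖q x‖) * ENNReal.ofReal |(fderiv ℝ q x).det| ≤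
      ∫⁻ x in G, ENNReal.ofReal (Φ x) := by
    apply lintegral_mono_ae
    rw [ae_restrict_iff' hGm]
    filter_upwards [hql.ae_differentiableAt] with x hx hxG
    rw [← ENNReal.ofReal_mul (hj0 _)]
    exact ENNReal.ofReal_le_ofReal (hΦG x hxG hx)
  have h3 : ∫⁻ x in G, ENNReal.ofReal (Φ x) ≤ ∫⁻ x in Ω, ENNReal.ofReal (Φ x) :=
    lintegral_mono_set hGΩ
  have hae : ∀ᵐ x ∂(volume.restrict Ω), 0 ≤ Φ x := by
    rw [ae_restrict_iff' hΩ.isOpen.measurableSet]
    filter_upwards [hql.ae_differentiableAt] with x hx hxΩ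
    exact hΦ0 x hxΩ hx
  have h4 : ∫⁻ x in Ω, ENNReal.ofReal (Φ x) = ENNReal.ofReal (∫ x in Ω, Φ x) := by
    rw [ofReal_integral_eq_lintegral_ofReal hΦint hae]
  have h5 : 0 ≤ ∫ x in Ω, Φ x := integral_nonneg_of_ae hae
  have h6 := (h1.trans harea).trans (h2.trans (h3.trans h4.le))
  rw [hmass, ENNReal.ofReal_le_ofReal_iff h5, hΦval, hjv] at h6
  have h9 : ∫ x in Ω, dvg Q x ≤ Y (p R) * p R * (surf n (frontier Ω)).toReal := hgg
  rw [hYR] at h9
  have h10 : volume.real Ω - A * (surf n (frontier Ω)).toReal / κ +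
      (p R / κ - R / ((n : ℝ) - 1) * (1 - TT n κ p R / κ)) * (surf n (frontier Ω)).toReal =
      volume.real Ω - ((A - p R) / κ + R / ((n : ℝ) - 1) * (1 - TT n κ p R / κ)) *
        (surf n (frontier Ω)).toReal := by
    ring
  linarith

end Pool.Agent.Helper876.Rob
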