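import Mathlib

/-!
# Domains with boundary of class `C¹`: statements
-/

set_option autoImplicit false

open MeasureTheory Set Metric Filter Topology
open scoped ENNReal NNReal InnerProductSpace

namespace Pool.Agent.Helper876.SM

/-- Euclidean space -/
abbrev E (n : ℕ) := EuclideanSpace ℝ (Fin n)

/-- the point `(u, f u)` of the graph of `f` -/
noncomputable def Gr {m : ℕ} (f : E m → ℝ) (u : E m) : E (m + 1) :=
  WithLp.toLp 2 (Fin.snoc (fun i => u i) (f u))

/-- projection to the first `m` coordinates -/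
noncomputable def pr {m : ℕ} (z : E (m + 1)) : E m := WithLp.toLp 2 (fun i => z (Fin.castSucc i))

/-- A1: area formula for the Euclidean Hausdorff measure on graphs -/
def TaskA1 : Prop := ∀ (m : ℕ) (f : E m → ℝ), ContDiff ℝ 1 f → ∀ h : E (m + 1) → ℝ, Continuous h →
  HasCompactSupport h →
  ∫ z in {z : E (m + 1) | z (Fin.last m) = f (pr z)}, h z ∂(μHE[m] : Measure (E (m + 1))) =
    ∫ u : E m, h (Gr f u) * Real.sqrt (1 + ‖gradient f u‖ ^ 2)

/-- A2: divergence theorem under a graph -/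
def TaskA2 : Prop := ∀ (m : ℕ) (f : E m → ℝ), ContDiff ℝ 1 f → ∀ F : E (m + 1) → ℝ, ContDiff ℝ 1 F →
  HasCompactSupport F → ∀ v : E (m + 1),
  ∫ z in {z : E (m + 1) | z (Fin.last m) < f (pr z)}, fderiv ℝ F z v =
    ∫ u : E m, F (Gr f u) * (v (Fin.last m) - fderiv ℝ f u (pr v))

/-- A3: near a point, `{g < 0}` is the region under a graph, in suitable orthonormal coordinates -/
def TaskA3 : Prop := ∀ (m : ℕ) (g : E (m + 1) → ℝ), ContDiff ℝ 1 g → ∀ p : E (m + 1), g p = 0 →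
  gradient g p ≠ 0 →
  ∃ (A : E (m + 1) ≃ₗᵢ[ℝ] E (m + 1)) (f : E m → ℝ) (U : Set (E (m + 1))), ContDiff ℝ 1 f ∧
    IsOpen U ∧ p ∈ U ∧
    ∀ z ∈ U, (g z < 0 ↔ (A z) (Fin.last m) < f (pr (A z))) ∧
      (g z = 0 ↔ (A z) (Fin.last m) = f (pr (A z))) ∧
      (g z = 0 → ∀ v : E (m + 1), ⟪‖gradient g z‖⁻¹ • gradient g z, v⟫_ℝ *
          Real.sqrt (1 + ‖gradient f (pr (A z))‖ ^ 2) =
        (A v) (Fin.last m) - fderiv ℝ f (pr (A z)) (pr (A v)))

end Pool.Agent.Helper876.SM
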